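import Pool.Agent.Y699.Crit

/-!
The equation `y² = x³ - D² x` is minimal; the points of the curve.
-/

set_option autoImplicit false
set_option linter.unusedSectionVars false

open NumberField IsDedekindDomain

namespace Pool.Agent.Y699

open H385 (ZI RQ im1 nrm)
open Pool.Agent.W164.RC (tc_mul tc_star two2 prim_iff_dvd unit_norm unit_cases)
open Pool.Agent.H304R2.EC.A1 (prim prim_mul prim_cancel prim_one prim_norm_odd prim_star eq_one_of_prim
  norm_def' re_mul' im_mul' eq_of_dvd prim_ne_zero exists_prim)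

section

variable {K : Type} [Field K] [NumberField K]

/-- the scaling factor between a model and `y² = x³ - D² x` is integral -/
theorem val_u_le (e : ZI ≃+* 𝓞 K) {v : HeightOneSpectrum (𝓞 K)} {z : ZI}
    (hv : v.asIdeal = Ideal.span {e z}) (hz : z = pi1 ∨ ¬ z ∣ 2) {D : ZI} (hD : prim D)
    (hsq : ∀ π : ZI, Prime π → ¬ π ^ 2 ∣ D)
    {V : WeierstrassCurve (𝓞 K)}
    {C : WeierstrassCurve.VariableChange K}
    (hC : C • V.map (algebraMap (𝓞 K) K) = crv (algebraMap (𝓞 K) K (e D))) :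
    v.valuation K (C.u : K) ≤ 1 := by
  have hzp := z_prime e hv
  have hD0 : D ≠ 0 := prim_ne_zero hD
  have hinj : Function.Injective (algebraMap (𝓞 K) K) := IsFractionRing.injective (𝓞 K) K
  have hΔ := congrArg WeierstrassCurve.Δ hC
  rw [WeierstrassCurve.variableChange_Δ, WeierstrassCurve.map_Δ, crv_Δ] at hΔ
  have hc4 := congrArg WeierstrassCurve.c₄ hC
  rw [WeierstrassCurve.variableChange_c₄, WeierstrassCurve.map_c₄, crv_c4] at hc4
  have hu0 : (C.u : K) ≠ 0 := C.u.ne_zero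
  have hu' : ((C.u⁻¹ : Kˣ) : K) = (C.u : K)⁻¹ := Units.val_inv_eq_inv_val _
  rw [hu'] at hΔ hc4
  set u : K := (C.u : K) with hu
  have hVΔ : algebraMap (𝓞 K) K V.Δ = u ^ 12 * algebraMap (𝓞 K) K ((crv (e D)).Δ) := by
    rw [crv_Δ, map_mul, map_pow, map_ofNat, ← hΔ, ← mul_assoc, ← mul_pow, mul_inv_cancel₀ hu0,
      one_pow, one_mul]
  have hW0 : (crv (e D)).Δ ≠ 0 := by
    rw [crv_Δ]
    exact mul_ne_zero (by norm_num) (pow_ne_zero _ ((map_ne_zero_iff e e.injective).2 hD0))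
  have hV0 : V.Δ ≠ 0 := by
    intro h
    rw [h, map_zero] at hVΔ
    rcases mul_eq_zero.1 hVΔ.symm with h1 | h1
    · exact hu0 (pow_eq_zero_iff (by norm_num) |>.1 h1)
    · exact hW0 (hinj (by rw [h1, map_zero]))
  by_contra hlt
  push Not at hlt
  -- write `u⁻¹` as a fraction
  have h1 : v.valuation K u⁻¹ < 1 := by
    rw [map_inv₀]
    exact inv_lt_one_of_one_lt₀ hlt
  obtain ⟨a', b', hab'⟩ := v.exists_primeCompl_mul_eq_of_integer u⁻¹ h1.le
  obtain ⟨a, rfl⟩ := e.surjective a'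
  obtain ⟨b, hb⟩ := e.surjective (b' : 𝓞 K)
  have hbv : ¬ z ∣ b := by
    intro h
    have h2 := (mem_iff e hv b).2 h
    rw [hb] at h2
    exact b'.2 h2
  rw [← hb] at hab'
  have hav : z ∣ a := by
    have h2 : v.valuation K (algebraMap (𝓞 K) K (e a)) < 1 := by
      rw [← hab', map_mul]
      refine mul_lt_one_of_lt_of_le h1 ?_
      exact v.valuation_le_one _
    rw [← mem_iff e hv]
    exact (v.valuation_lt_one_iff_mem (K := K) _).1 h2
  have hΔ' : e.symm V.Δ * a ^ 12 = 64 * D ^ 6 * b ^ 12 := by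
    apply e.injective
    apply hinj
    rw [map_mul, map_mul, map_pow, map_pow, RingEquiv.apply_symm_apply, map_mul, map_mul, map_mul,
      map_mul, map_pow, map_pow, map_pow, map_pow, map_ofNat, map_ofNat, ← hab']
    linear_combination (algebraMap (𝓞 K) K (e b)) ^ 12 * hΔ
  have hdvd : z ^ 12 ∣ 64 * D ^ 6 := by
    have h2 : z ^ 12 ∣ 64 * D ^ 6 * b ^ 12 := by
      rw [← hΔ']
      exact (pow_dvd_pow_of_dvd hav 12).mul_left _
    have h3 : IsCoprime (z ^ 12) (b ^ 12) :=
      (((hzp.irreducible.coprime_iff_not_dvd).2 hbv)).pow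
    exact h3.dvd_of_dvd_mul_right h2
  rcases hz with hz | hz
  · subst hz
    obtain ⟨a0, rfl⟩ := hav
    have hc : e.symm V.c₄ * (pi1 * a0) ^ 4 = 48 * D ^ 2 * b ^ 4 := by
      apply e.injective
      apply hinj
      have e0 : algebraMap (𝓞 K) K (e (e.symm V.c₄ * (pi1 * a0) ^ 4)) =
          algebraMap (𝓞 K) K V.c₄ * (algebraMap (𝓞 K) K (e (pi1 * a0))) ^ 4 := by
        rw [map_mul, map_mul, map_pow, map_pow, RingEquiv.apply_symm_apply]
      rw [e0, ← hab']
      simp only [map_mul, map_pow, map_ofNat]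
      linear_combination (algebraMap (𝓞 K) K (e b)) ^ 4 * hc4
    have e4 : pi1 ^ 4 = (-4 : ZI) := by decide
    have ha0 : ¬ pi1 ∣ a0 := by
      rintro ⟨a1, rfl⟩
      have h2 : pi1 ^ 24 ∣ 64 * D ^ 6 * b ^ 12 := by
        rw [← hΔ']
        exact ⟨e.symm V.Δ * a1 ^ 12, by ring⟩
      have e5 : (64 : ZI) = -(pi1 ^ 12) := by decide
      have h3 : pi1 ^ 12 * pi1 ^ 12 ∣ pi1 ^ 12 * (D ^ 6 * b ^ 12) := by
        rw [← pow_add]
        refine (h2.trans ?_)
        rw [e5]
        exact ⟨-1, by ring⟩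
      have h4 := (mul_dvd_mul_iff_left (pow_ne_zero 12 pi1_prime.ne_zero)).1 h3
      have h5 : pi1 ∣ D ^ 6 * b ^ 12 := (dvd_pow_self _ (by norm_num)).trans h4
      rcases pi1_prime.dvd_or_dvd h5 with h6 | h6
      · exact pi1_prim hD (pi1_prime.dvd_of_dvd_pow h6)
      · exact hbv (pi1_prime.dvd_of_dvd_pow h6)
    have hc' : e.symm V.c₄ * a0 ^ 4 = -12 * D ^ 2 * b ^ 4 := by
      have h2 : (-4 : ZI) * (e.symm V.c₄ * a0 ^ 4) = -4 * (-12 * D ^ 2 * b ^ 4) := by
        have e6 : -4 * (-12 * D ^ 2 * b ^ 4) = 48 * D ^ 2 * b ^ 4 := by ring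
        rw [e6, ← hc, mul_pow, e4]
        ring
      exact mul_left_cancel₀ (by decide) h2
    refine no_good (a1 := e.symm V.a₁) (a2 := e.symm V.a₂) (a3 := e.symm V.a₃) (a4 := e.symm V.a₄)
      ha0 hbv hD ?_
    rw [← hc']
    congr 1
    unfold WeierstrassCurve.c₄ WeierstrassCurve.b₂ WeierstrassCurve.b₄
    simp only [map_sub, map_add, map_mul, map_pow, map_ofNat]
  · -- odd prime
    have h2 : z ^ 12 ∣ D ^ 6 := by
      have h3 : IsCoprime (z ^ 12) (2 ^ 6) := ((hzp.irreducible.coprime_iff_not_dvd).2 hz).pow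
      have e5 : (64 : ZI) = 2 ^ 6 := by decide
      rw [e5] at hdvd
      exact h3.dvd_of_dvd_mul_left hdvd
    have h3 : z ∣ D := hzp.dvd_of_dvd_pow ((dvd_pow_self z (by norm_num)).trans h2)
    obtain ⟨D1, rfl⟩ := h3
    have h4 : z ^ 6 * z ^ 6 ∣ z ^ 6 * D1 ^ 6 := by
      rw [← pow_add, ← mul_pow]; exact h2
    have h5 := (mul_dvd_mul_iff_left (pow_ne_zero 6 hzp.ne_zero)).1 h4
    have h6 : z ∣ D1 := hzp.dvd_of_dvd_pow ((dvd_pow_self z (by norm_num)).trans h5)
    exact hsq z hzp (by rw [sq]; exact mul_dvd_mul_left z h6)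


/-- the equation `y² = x³ - D² x` is minimal everywhere -/
theorem crv_min (e : ZI ≃+* 𝓞 K) {D : ZI} (hD : PS D) (v : HeightOneSpectrum (𝓞 K)) :
    MinAt (crv (algebraMap (𝓞 K) K (e D))) v (crv (e D)) := by
  refine ⟨⟨1, by rw [one_smul, crv_map]⟩, ?_⟩
  rintro W' ⟨C, hC⟩ n hn
  have hz2 : pg e v = pi1 ∨ ¬ pg e v ∣ 2 := by
    rcases pg_cases e v with ⟨h1, h2⟩ | ⟨h1, h2⟩
    · exact Or.inl h2
    · right
      have h3 := Pool.Agent.W164.RC.Ip_spec (Pool.Agent.H921R2.TatePole.below v).2 h2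
      exact not_dvd_two ⟨h3.2.1, h3.1⟩
  have hsq : ∀ π : ZI, Prime π → ¬ π ^ 2 ∣ D := by
    intro π hπ h
    rw [sq] at h
    exact hπ.not_isUnit (hD.sqf _ h)
  have hu := val_u_le e (pg_span e v) hz2 hD.prm hsq hC
  have hΔ := congrArg WeierstrassCurve.Δ hC
  rw [WeierstrassCurve.variableChange_Δ, WeierstrassCurve.map_Δ, Units.val_inv_eq_inv_val] at hΔ
  have hu0 : (C.u : K) ≠ 0 := C.u.ne_zero
  have h1 : algebraMap (𝓞 K) K W'.Δ = (C.u : K) ^ 12 * algebraMap (𝓞 K) K ((crv (e D)).Δ) := by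
    rw [← WeierstrassCurve.map_Δ (crv (e D)), crv_map, ← hΔ, ← mul_assoc, ← mul_pow,
      mul_inv_cancel₀ hu0, one_pow, one_mul]
  rw [← v.intValuation_le_pow_iff_mem] at hn ⊢
  refine le_trans ?_ hn
  have h2 : v.valuation K (algebraMap (𝓞 K) K W'.Δ) ≤
      v.valuation K (algebraMap (𝓞 K) K (crv (e D)).Δ) := by
    rw [h1, map_mul, map_pow]
    exact mul_le_of_le_one_left zero_le (pow_le_one₀ zero_le hu)
  rw [v.valuation_of_algebraMap (K := K), v.valuation_of_algebraMap (K := K)] at h2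
  exact h2

end

/-- the points of the curve -/
theorem card_pts {K : Type} [Field K] {D : K} (hD : D ≠ 0) (h2 : (2 : K) ≠ 0)
    (h : ∀ x y : K, y ^ 2 = x ^ 3 - D ^ 2 * x → y = 0) :
    Nat.card (crv D).toAffine.Point = 4 := by
  classical
  have hΔ : (crv D).Δ ≠ 0 := by
    rw [crv_Δ]
    have e : (64 : K) = 2 ^ 6 := by norm_num
    rw [e]
    exact mul_ne_zero (pow_ne_zero 6 h2) (pow_ne_zero 6 hD)
  have heq : ∀ x y : K, (crv D).toAffine.Equation x y ↔ y ^ 2 = x ^ 3 - D ^ 2 * x := by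
    intro x y
    rw [WeierstrassCurve.Affine.equation_iff]
    unfold crv
    simp only [zero_mul, add_zero]
    constructor <;> intro h <;> linear_combination h
  have hns : ∀ x : K, x ∈ ({0, D, -D} : Finset K) → (crv D).toAffine.Nonsingular x 0 := by
    intro x hx
    rw [← WeierstrassCurve.Affine.equation_iff_nonsingular_of_Δ_ne_zero hΔ, heq]
    simp only [Finset.mem_insert, Finset.mem_singleton] at hx
    rcases hx with rfl | rfl | rfl <;> ring
  have hx3 : ∀ x y : K, (crv D).toAffine.Nonsingular x y → y = 0 ∧ x ∈ ({0, D, -D} : Finset K) := by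
    intro x y hn
    have h1 := (heq x y).1 hn.1
    have hy := h x y h1
    refine ⟨hy, ?_⟩
    rw [hy] at h1
    have h3 : x * ((x - D) * (x + D)) = 0 := by linear_combination -h1
    simp only [Finset.mem_insert, Finset.mem_singleton]
    rcases mul_eq_zero.1 h3 with h4 | h4
    · exact Or.inl h4
    · rcases mul_eq_zero.1 h4 with h5 | h5
      · exact Or.inr (Or.inl (sub_eq_zero.1 h5))
      · exact Or.inr (Or.inr (eq_neg_of_add_eq_zero_left h5))
  have hcard : Fintype.card (Option ({0, D, -D} : Finset K)) = 4 := by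
    rw [Fintype.card_option, Fintype.card_coe, Finset.card_insert_of_notMem, Finset.card_pair]
    · intro h4
      have : 2 * D = 0 := by linear_combination h4
      exact (mul_ne_zero h2 hD) this
    · simp only [Finset.mem_insert, Finset.mem_singleton, not_or]
      exact ⟨hD.symm, fun h4 => hD (neg_eq_zero.1 h4.symm)⟩
  rw [← hcard, ← Nat.card_eq_fintype_card]
  refine Nat.card_congr
    { toFun := fun P => match P with
        | .zero => none
        | .some x y hn => some ⟨x, (hx3 x y hn).2⟩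
      invFun := fun o => match o with
        | none => .zero
        | some x => .some x.1 0 (hns x.1 x.2)
      left_inv := ?_
      right_inv := ?_ }
  · rintro (_ | ⟨x, y, hn⟩)
    · rfl
    · have := (hx3 x y hn).1
      subst this
      rfl
  · rintro (_ | x)
    · rfl
    · rfl

end Pool.Agent.Y699
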