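import Pool.Agent.Y699.Qp

/-!
The elliptic curves over `ℚ(i)` with `j = 1728`.
-/

set_option autoImplicit false
set_option linter.unusedSectionVars false

open NumberField IsDedekindDomain

namespace Pool.Agent.Y699

open H385 (ZI RQ im1 nrm)
open Pool.Agent.W164.RC (tc_mul tc_star two2 prim_iff_dvd unit_norm unit_cases)

/-- no fourth power of a prime divides `D` -/
def FF4 (D : ZI) : Prop := D ≠ 0 ∧ ∀ π : ZI, Prime π → ¬ π ^ 4 ∣ D

lemma exists_FF4 : ∀ (N : ℕ) (n : ZI), n ≠ 0 → n.norm.natAbs ≤ N → ∃ D m : ZI, n = D * m ^ 4 ∧ FF4 D := by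
  intro N
  induction N with
  | zero =>
    intro n hn h
    exfalso
    apply hn
    have h1 : n.norm = 0 := by omega
    exact (GaussianInt.norm_eq_zero (x := n)).1 h1
  | succ N ih =>
    intro n hn h
    by_cases h4 : ∀ π : ZI, Prime π → ¬ π ^ 4 ∣ n
    · exact ⟨n, 1, by ring, hn, h4⟩
    · push Not at h4
      obtain ⟨π, hπ, n', rfl⟩ := h4
      have hn' : n' ≠ 0 := right_ne_zero_of_mul hn
      have hlt : n'.norm.natAbs < (π ^ 4 * n').norm.natAbs := by
        rw [Zsqrtd.norm_mul, Int.natAbs_mul]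
        have h1 : 0 < n'.norm.natAbs := Int.natAbs_pos.2 (fun h0 => hn' ((GaussianInt.norm_eq_zero (x := n')).1 h0))
        have h2 : 1 < (π ^ 4).norm.natAbs := by
          have h3 : (π ^ 4).norm.natAbs ≠ 0 := by
            rw [Int.natAbs_ne_zero]
            intro h0
            exact pow_ne_zero 4 hπ.ne_zero ((GaussianInt.norm_eq_zero (x := π ^ 4)).1 h0)
          have h4 : (π ^ 4).norm.natAbs ≠ 1 := by
            intro h0
            have h5 := Zsqrtd.norm_eq_one_iff.1 h0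
            exact hπ.not_isUnit (isUnit_of_dvd_unit (dvd_pow_self π (by norm_num)) h5)
          omega
        nlinarith
      obtain ⟨D, m, h1, h2⟩ := ih n' hn' (by omega)
      exact ⟨D, m * π, by rw [h1]; ring, h2⟩

lemma unit_pow_four {u : ZI} (h : IsUnit u) : u ^ 4 = 1 := by
  obtain ⟨v, rfl⟩ := h
  rcases unit_cases (unit_norm v) with h1 | h1 | h1 | h1 <;> rw [h1] <;> decide

section

variable {F : Type} [Field F] [CharZero F]

lemma scale_cr4 (u : Fˣ) (d : F) :
    (⟨u⁻¹, 0, 0, 0⟩ : WeierstrassCurve.VariableChange F) • cr4 d = cr4 ((u : F) ^ 4 * d) := by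
  unfold cr4
  rw [WeierstrassCurve.variableChange_def]
  ext <;> simp

lemma cr4_of_j (E : WeierstrassCurve F) [E.IsElliptic] (hj : E.j = 1728) :
    ∃ C : WeierstrassCurve.VariableChange F, ∃ d : F, d ≠ 0 ∧ C • E = cr4 d := by
  letI : Invertible (2 : F) := invertibleOfNonzero (by norm_num)
  letI : Invertible (3 : F) := invertibleOfNonzero (by norm_num)
  obtain ⟨C, hC⟩ := E.exists_variableChange_isShortNF
  haveI := hC
  have h1 := (C • E).j_of_isShortNF
  have h0 : (C • E).j = 1728 := by rw [WeierstrassCurve.variableChange_j, hj]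
  have hΔ : (C • E).Δ ≠ 0 := (C • E).isUnit_Δ.ne_zero
  rw [WeierstrassCurve.Δ_of_isShortNF] at hΔ
  have hden : 4 * (C • E).a₄ ^ 3 + 27 * (C • E).a₆ ^ 2 ≠ 0 := right_ne_zero_of_mul hΔ
  rw [h0, eq_div_iff hden] at h1
  have h6 : (C • E).a₆ = 0 := by
    have h2 : (46656 : F) * (C • E).a₆ ^ 2 = 0 := by linear_combination h1
    have h3 := (mul_eq_zero.1 h2).resolve_left (by norm_num)
    exact pow_eq_zero_iff (by norm_num) |>.1 h3
  have h4 : (C • E).a₄ ≠ 0 := by
    intro h4
    apply hden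
    rw [h4, h6]
    ring
  refine ⟨C, (C • E).a₄, h4, ?_⟩
  unfold cr4
  ext
  · exact (C • E).a₁_of_isShortNF
  · exact (C • E).a₂_of_isShortNF
  · exact (C • E).a₃_of_isShortNF
  · rfl
  · exact h6

variable [Algebra ZI F] [IsFractionRing ZI F]

/-- the classification of the curves with `j = 1728` -/
theorem cls1728 (E : WeierstrassCurve F) [E.IsElliptic] (hj : E.j = 1728) :
    ∃! D : ZI, FF4 D ∧ ∃ C : WeierstrassCurve.VariableChange F, C • E = cr4 (algebraMap ZI F D) := by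
  have hinj : Function.Injective (algebraMap ZI F) := IsFractionRing.injective ZI F
  obtain ⟨C, d, hd, hC⟩ := cr4_of_j E hj
  obtain ⟨a, b, hb, hab⟩ := IsFractionRing.div_surjective (A := ZI) d
  have hb0 : b ≠ 0 := nonZeroDivisors.ne_zero hb
  have hbF : algebraMap ZI F b ≠ 0 := (map_ne_zero_iff _ hinj).2 hb0
  have ha0 : a ≠ 0 := by
    rintro rfl
    rw [map_zero, zero_div] at hab
    exact hd hab.symm
  obtain ⟨D, m, hDm, hD⟩ := exists_FF4 _ (a * b ^ 3) (mul_ne_zero ha0 (pow_ne_zero 3 hb0)) le_rfl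
  have hm0 : m ≠ 0 := by
    rintro rfl
    rw [zero_pow (by norm_num), mul_zero] at hDm
    exact mul_ne_zero ha0 (pow_ne_zero 3 hb0) hDm
  have hmF : algebraMap ZI F m ≠ 0 := (map_ne_zero_iff _ hinj).2 hm0
  have hex : ∃ C' : WeierstrassCurve.VariableChange F, C' • E = cr4 (algebraMap ZI F D) := by
    refine ⟨(⟨(Units.mk0 (algebraMap ZI F b / algebraMap ZI F m) (div_ne_zero hbF hmF))⁻¹, 0, 0, 0⟩ :
      WeierstrassCurve.VariableChange F) * C, ?_⟩
    rw [mul_smul, hC, scale_cr4]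
    congr 1
    rw [Units.val_mk0, ← hab]
    have h1 := congrArg (algebraMap ZI F) hDm
    rw [map_mul, map_mul, map_pow, map_pow] at h1
    field_simp
    linear_combination h1
  refine ⟨D, ⟨hD, hex⟩, ?_⟩
  rintro D' ⟨hD', C2, hC2⟩
  obtain ⟨C1, hC1⟩ := hex
  -- the two curves are isomorphic
  have h1 : (C2 * C1⁻¹) • cr4 (algebraMap ZI F D) = cr4 (algebraMap ZI F D') := by
    rw [← hC1, mul_smul, inv_smul_smul, hC2]
  set u : Fˣ := (C2 * C1⁻¹).u⁻¹ with hu
  have h2 : algebraMap ZI F D' = (u : F) ^ 4 * algebraMap ZI F D := by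
    have h3 := congrArg WeierstrassCurve.c₄ h1
    rw [WeierstrassCurve.variableChange_c₄, cr4_c4, cr4_c4, ← hu] at h3
    have h48 : (-48 : F) ≠ 0 := by norm_num
    apply mul_left_cancel₀ h48
    linear_combination -h3
  obtain ⟨x, y, hxy, huxy⟩ := IsFractionRing.exists_reduced_fraction (A := ZI) (u : F)
  rw [IsFractionRing.mk'_eq_div] at huxy
  have hy0 : (y : ZI) ≠ 0 := nonZeroDivisors.coe_ne_zero y
  have hyF : algebraMap ZI F y ≠ 0 := (map_ne_zero_iff _ hinj).2 hy0
  have h3 : D' * (y : ZI) ^ 4 = x ^ 4 * D := by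
    apply hinj
    rw [map_mul, map_mul, map_pow, map_pow, h2, ← huxy]
    field_simp
  have hyu : IsUnit (y : ZI) := by
    by_contra hnu
    obtain ⟨π, hπ, hπy⟩ := WfDvdMonoid.exists_irreducible_factor hnu hy0
    have hπ' : Prime π := irreducible_iff_prime.1 hπ
    have h4 : π ^ 4 ∣ x ^ 4 * D := by
      rw [← h3]
      exact (pow_dvd_pow_of_dvd hπy 4).mul_left _
    have h5 : IsCoprime (π ^ 4) (x ^ 4) := by
      refine IsCoprime.pow ((hπ.coprime_iff_not_dvd).2 fun h6 => ?_)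
      exact hπ.not_isUnit (hxy h6 hπy)
    exact hD.2 π hπ' (h5.dvd_of_dvd_mul_left h4)
  have hx0 : x ≠ 0 := by
    rintro rfl
    rw [zero_pow (by norm_num), zero_mul] at h3
    exact mul_ne_zero hD'.1 (pow_ne_zero 4 hy0) h3
  have hxu : IsUnit x := by
    by_contra hnu
    obtain ⟨π, hπ, hπy⟩ := WfDvdMonoid.exists_irreducible_factor hnu hx0
    have hπ' : Prime π := irreducible_iff_prime.1 hπ
    have h4 : π ^ 4 ∣ D' * (y : ZI) ^ 4 := by
      rw [h3]
      exact (pow_dvd_pow_of_dvd hπy 4).mul_right _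
    rw [unit_pow_four hyu, mul_one] at h4
    exact hD'.2 π hπ' h4
  rw [unit_pow_four hyu, unit_pow_four hxu, mul_one, one_mul] at h3
  exact h3

end

end Pool.Agent.Y699
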