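import Pool.Agent.Y699.Qx

/-!
The criterion for the curves `y² = x³ + D x`.
-/

set_option autoImplicit false
set_option linter.unusedSectionVars false

open NumberField IsDedekindDomain

namespace Pool.Agent.Y699

open H385 (ZI RQ im1 nrm)
open Pool.Agent.H304R3.HK (tc HC LH bH)
open Pool.Agent.W164.RC (two2 prim_iff_dvd unit_norm unit_cases)
open Pool.Agent.H304R2.EC.A1 (prim prim_mul prim_cancel prim_one prim_norm_odd prim_star eq_one_of_prim
  norm_def' re_mul' im_mul' eq_of_dvd prim_ne_zero exists_prim)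

/-- the criterion -/
structure Good4 (D : ZI) : Prop where
  ps : PS D
  nm : D.norm % 16 = 13
  ker : ∀ d d' : ZI, prim d → prim d' → D = d * d' → (∀ π ∈ PD d, qr π d' = 1) →
    (∀ π ∈ PD d', qr π d = 1) → d = 1 ∨ d' = 1

lemma Good4.good {D : ZI} (h : Good4 D) : Good D :=
  ⟨h.ps, by have := h.nm; omega, h.ker⟩

lemma sq_mod16 (x : ℤ) : x ^ 2 % 16 = (x % 8) ^ 2 % 16 := by
  conv_lhs => rw [← Int.emod_add_mul_ediv x 8]
  have : (x % 8 + 8 * (x / 8)) ^ 2 = (x % 8) ^ 2 + 16 * ((x % 8) * (x / 8) + 4 * (x / 8) ^ 2) := by ring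
  rw [this]
  omega

lemma comp_mod {D : ZI} (h : prim D) (hn : D.norm % 16 = 13) : D.re % 8 = 3 ∧ D.im % 4 = 2 := by
  obtain ⟨w, hw⟩ := (prim_iff_dvd D).1 h
  have e1 := congrArg Zsqrtd.re hw
  have e2 := congrArg Zsqrtd.im hw
  simp [two2] at e1 e2
  rw [norm_def', Int.add_emod, sq_mod16 D.re, sq_mod16 D.im] at hn
  obtain ⟨a, ha⟩ : ∃ a, D.re % 8 = a := ⟨_, rfl⟩
  obtain ⟨b, hb⟩ : ∃ b, D.im % 8 = b := ⟨_, rfl⟩
  have a0 : 0 ≤ a := by omega
  have a8 : a < 8 := by omega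
  have b0 : 0 ≤ b := by omega
  have b8 : b < 8 := by omega
  rw [ha, hb] at hn
  have hpar : (a + b) % 4 = 1 := by omega
  have hae : a % 2 = 1 := by omega
  interval_cases a <;> interval_cases b <;> simp at hn hpar <;> omega

lemma norm_prod16 {D : ZI} (h : PS D) (S : Finset {π : ZI // π ∈ PD D}) :
    (∏ i ∈ S, (fam D i)).norm % 16 = (1 + 4 * ((∑ i ∈ S, wq (fam D i) : ℕ) : ℤ)) % 16 := by
  induction S using Finset.induction_on with
  | empty =>
    rw [Finset.prod_empty, Finset.sum_empty]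
    decide
  | insert a S ha ih =>
    rw [Finset.sum_insert ha, Finset.prod_insert ha, Zsqrtd.norm_mul, Int.mul_emod, ih]
    have h1 := ((fam_PF h.ne).pp a).norm_mod
    have h2 : (fam D a).norm = 1 + 4 * ((wq (fam D a) : ℕ) : ℤ) := by
      unfold wq
      have h3 : ((nrm (fam D a) : ℕ) : ℤ) = (fam D a).norm := by
        have h4 := nrm_cast (fam D a)
        exact_mod_cast h4
      omega
    rw [h2]
    push_cast
    generalize ((wq (fam D a) : ℕ) : ℤ) = x
    generalize (∑ i ∈ S, ((wq (fam D i) : ℕ) : ℤ)) = y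
    rw [← Int.mul_emod]
    have : (1 + 4 * x) * (1 + 4 * y) = (1 + 4 * (x + y)) + 16 * (x * y) := by ring
    rw [this]
    omega

lemma sum_wq {D : ZI} (h : Good4 D) : (∑ i, wq (fam D i)) % 4 = 3 := by
  have h1 := norm_prod16 h.ps Finset.univ
  have h2 := h.ps.DD
  unfold DD at h2
  rw [h2, h.nm] at h1
  omega

/-- **the criterion** -/
theorem crit_L4 {D : ZI} (h : Good4 D) {K : Type} [Field K] [NumberField K] (e : ZI ≃+* 𝓞 K) :
    ∃ L : ℂ → ℂ, Differentiable ℂ L ∧ L 1 ≠ 0 ∧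
      ∀ W : HeightOneSpectrum (𝓞 K) → WeierstrassCurve (𝓞 K),
        (∀ v, MinAt (cr4 (algebraMap (𝓞 K) K (e D))) v (W v)) → ∀ s : ℂ, 3 / 2 < s.re →
          HasProd (fun v => lf (W v) v s) (L s) := by
  have hp := fam_PF h.ps.ne
  have hW := sum_wq h
  refine ⟨LG (XX4 hp Finset.univ on1), LG_diff (XH hp hW), LG_one (LH_ne4 hp hW (ker_of_good h.good)), ?_⟩
  intro W hWm s hs
  have hc := comp_mod h.ps.prm h.nm
  refine L4_hasProd hp hW ?_ e hs W ?_
  · rw [h.ps.DD]; exact hc.1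
  · rw [h.ps.DD]
    exact hWm

theorem crit_pts4 {D : ZI} (h : Good4 D) {K : Type} [Field K] [NumberField K] (e : ZI ≃+* 𝓞 K)
    {x y : K} (hxy : y ^ 2 = x ^ 3 + (algebraMap (𝓞 K) K (e D)) * x) : y = 0 := by
  letI : Algebra ZI K := ((algebraMap (𝓞 K) K).comp (e : ZI →+* 𝓞 K)).toAlgebra
  haveI : IsFractionRing ZI K := IsFractionRing.of_ringEquiv_left e (fun _ => rfl)
  have hp := fam_PF h.ps.ne
  have hc := comp_mod h.ps.prm h.nm
  refine no_points4 (F := K) hp (V := Finset.univ) (wt_sum h.ps h.good.five) ?_ ?_ (ker_of_good h.good)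
    (x := x) ?_
  · rw [h.ps.DD]; exact hc.1
  · rw [h.ps.DD]; exact hc.2
  · rw [h.ps.DD]
    exact hxy

/-- `-D` is not a square -/
lemma neg_not_sq {D : ZI} (h : Good4 D) {K : Type} [Field K] [NumberField K] (e : ZI ≃+* 𝓞 K)
    (r : K) : r ^ 2 ≠ -(algebraMap (𝓞 K) K (e D)) := by
  intro hr
  -- `r` is integral
  have hint : IsIntegral (𝓞 K) r := by
    refine IsIntegral.of_pow (n := 2) (by norm_num) ?_
    rw [hr, ← map_neg]
    exact isIntegral_algebraMap
  obtain ⟨a', ha'⟩ := IsIntegrallyClosed.isIntegral_iff.1 hint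
  obtain ⟨a, rfl⟩ := e.surjective a'
  have hinj : Function.Injective (algebraMap (𝓞 K) K) := IsFractionRing.injective (𝓞 K) K
  have h1 : a * a = -D := by
    apply e.injective
    apply hinj
    rw [map_mul, map_mul, map_neg, map_neg, ha', ← sq, hr]
  have h2 : a * a ∣ D := ⟨-1, by rw [h1]; ring⟩
  have h3 := h.ps.sqf a h2
  have h4 : (a * a).norm = 1 := by
    obtain ⟨u, hu⟩ := h3
    rw [Zsqrtd.norm_mul, ← hu, unit_norm u]
    norm_num
  rw [h1, Zsqrtd.norm_neg] at h4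
  have := h.nm
  omega

end Pool.Agent.Y699
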