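import Pool.Agent.Y699.Chi

/-!
The central value is different from zero.
-/

set_option autoImplicit false
set_option linter.unusedSectionVars false

open Filter Complex MeasureTheory Set
open scoped Topology PeriodPair
open Pool.Agent.TH936.CM

namespace Pool.Agent.Y699

open H385 (ZI RQ im1 nrm)
open Pool.Agent.H304R3.HK (tc HC LH bH TH FF Th th_psi chi_le)
open Pool.Agent.W164.RC (tc_mul tc_star two2 prim_iff_dvd unit_norm unit_cases)
open Pool.Agent.H304R2.EC.A1 (prim prim_mul prim_cancel prim_one prim_norm_odd prim_star eq_one_of_prim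
  norm_def' re_mul' im_mul' eq_of_dvd prim_ne_zero exists_prim)

variable {ι : Type} [DecidableEq ι] {pr : ι → ZI}

open Classical in
lemma sum_units {f : ZI → ℂ} (hf : Summable f) (hi : ∀ a, f (im1 * a) = f a)
    (he : ∀ a : ZI, a.norm % 2 ≠ 1 → f a = 0) :
    ∑' a, f a = 4 * ∑' a, (if prim a then f a else 0) := by
  have hinv : ∀ k : ℕ, ∀ a, f (im1 ^ k * a) = f a := by
    intro k
    induction k with
    | zero => intro a; rw [pow_zero, one_mul]
    | succ k ih => intro a; rw [pow_succ, mul_assoc, ih, hi]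
  have e1 : ∀ a, f a = ∑ k ∈ Finset.range 4, (if prim (im1 ^ k * a) then f (im1 ^ k * a) else 0) := by
    intro a
    by_cases ha : a.norm % 2 = 1
    · obtain ⟨u, hu⟩ := exists_Um ha
      obtain ⟨k, hk, rfl⟩ : ∃ k, k < 4 ∧ u = im1 ^ k := by
        rcases unit_cases hu.1 with h | h | h | h
        · exact ⟨0, by norm_num, by rw [h, pow_zero]⟩
        · exact ⟨1, by norm_num, by rw [h, pow_one]⟩
        · exact ⟨2, by norm_num, h⟩
        · exact ⟨3, by norm_num, h⟩
      rw [Finset.sum_eq_single k]
      · rw [if_pos hu.2, hinv]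
      · intro j hj hjk
        rw [if_neg]
        intro h'
        apply hjk
        have hn : (im1 ^ j : ZI).norm = 1 := by
          have : ∀ j : ℕ, (im1 ^ j : ZI).norm = 1 := by
            intro j
            induction j with
            | zero => simp
            | succ j ih => rw [pow_succ, Zsqrtd.norm_mul, ih]; decide
          exact this j
        have h3 := (Um.unique (a := a) ⟨hn, h'⟩ hu)
        rw [Finset.mem_range] at hj
        interval_cases j <;> interval_cases k <;> first | rfl | (exfalso; revert h3; decide)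
      · intro hk'
        exact absurd (Finset.mem_range.2 hk) hk'
    · rw [he a ha]
      symm
      refine Finset.sum_eq_zero fun k _ => ?_
      rw [hinv, he a ha]
      simp
  have hsum : ∀ k : ℕ, Summable (fun a => if prim (im1 ^ k * a) then f (im1 ^ k * a) else 0) := by
    intro k
    refine Summable.of_norm_bounded hf.norm fun a => ?_
    rw [hinv]
    split_ifs
    · exact le_rfl
    · simp
  have hperm : ∀ k : ℕ, ∑' a, (if prim (im1 ^ k * a) then f (im1 ^ k * a) else 0) =
      ∑' a, (if prim a then f a else 0) := by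
    intro k
    have hu : IsUnit (im1 ^ k : ZI) := (IsUnit.of_mul_eq_one (-im1) (by decide : im1 * -im1 = 1)).pow k
    obtain ⟨e, he⟩ := hu
    rw [← (Units.mulLeft e).tsum_eq (fun a => if prim a then f a else 0)]
    refine tsum_congr fun a => ?_
    rw [Units.mulLeft_apply, he]
  rw [tsum_congr e1, Summable.tsum_finsetSum (fun k _ => hsum k), Finset.sum_congr rfl
    (fun k _ => hperm k), Finset.sum_const, Finset.card_range]
  simp

theorem sum_XX (hp : PF pr) (V : Finset ι) {δ : ℝ} (hδ : 0 < δ) :
    ∑' a : ZI, XX hp V a * (starRingEnd ℂ) (fd δ (tc a)) =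
      4 * (starRingEnd ℂ) (RS (cc pr V ∅) δ) := by
  classical
  obtain ⟨L, Ω, hGL⟩ := exists_lat
  have H := XX_HC hp V
  have hs : Summable (fun a : ZI => XX hp V a * (starRingEnd ℂ) (fd δ (tc a))) := by
    refine Summable.of_norm_bounded (summ_tc hGL.lat hδ).norm fun a => ?_
    rw [norm_mul, RCLike.norm_conj]
    exact mul_le_of_le_one_left (norm_nonneg _) (chi_le _ _ H a)
  rw [sum_units hs]
  · congr 1
    unfold RS
    rw [Complex.conj_tsum]
    refine tsum_congr fun a => ?_
    by_cases ha : prim a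
    · have h1 : cc pr V ∅ a = (ch pr V a : ℂ) := by
        unfold cc
        rw [if_pos ⟨ha, by simp⟩]
      rw [if_pos ha, XX_prim hp V ha, map_mul, h1]
      congr 1
      simp
    · have h1 : cc pr V ∅ a = 0 := by
        unfold cc
        rw [if_neg (fun h => ha h.1)]
      rw [if_neg ha, h1, zero_mul, map_zero]
  · intro a
    have h1 : XX hp V im1 = -I := H.unit
    rw [map_mul, h1, tc_mul, tc_im1, fd_mul]
    have h2 : Complex.normSq I = 1 := by simp
    rw [h2, mul_one, map_mul, map_inv₀, Complex.conj_I]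
    have h3 : (-I : ℂ)⁻¹ = I := by
      rw [inv_neg, Complex.inv_I, neg_neg]
    rw [h3]
    linear_combination (-(XX hp V a * (starRingEnd ℂ) (fd δ (tc a)))) * I_sq
  · intro a ha
    rw [XX_apply, un_even ha, tc_zero]
    simp

/-- the central value is the conjugate of the limit -/
theorem LH_eq (hp : PF pr) (V : Finset ι) {l : ℂ} (hl : Tendsto (RS (cc pr V ∅)) (𝓝[>] 0) (𝓝 l)) :
    LH (XX hp V) (1 / 2) = (starRingEnd ℂ) l := by
  have h1 := center (XX_HC hp V)
  have h2 : Tendsto (fun δ : ℝ => 4 * (starRingEnd ℂ) (RS (cc pr V ∅) (Real.pi * δ))) (𝓝[>] 0)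
      (𝓝 (4 * (starRingEnd ℂ) l)) := by
    have h3 := tendsto_scale hl Real.pi_pos
    have h4 := (Complex.continuous_conj.tendsto l).comp h3
    have h5 := h4.const_mul 4
    refine h5.congr fun δ => ?_
    simp only [Function.comp_apply]
    rw [mul_comm δ]
  have h3 := tendsto_nhds_unique h1 (h2.congr' (by
    filter_upwards [self_mem_nhdsWithin] with δ (hδ : 0 < δ)
    exact (sum_XX hp V (by positivity)).symm))
  exact mul_left_cancel₀ (by norm_num) h3

variable [Fintype ι]

/-- **non-vanishing of the central value** -/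
theorem LH_ne (hp : PF pr) {V : Finset ι} (hV : V.Nonempty)
    (hw : ∑ i ∈ V, wt pr i = 1)
    (hker : ∀ z : ι → ZMod 2, (∀ v ∈ V, ∑ u ∈ V, em pr u v * (z u + z v) = 0) →
      ∀ u ∈ V, ∀ v ∈ V, z u = z v) : LH (XX hp V) (1 / 2) ≠ 0 := by
  obtain ⟨L, Ω, hGL⟩ := exists_lat
  obtain ⟨l, hl⟩ := exists_lim (ι := ι) hGL hp V
  rw [LH_eq hp V hl]
  exact (map_ne_zero _).2 (lim_ne hGL hp hV hw hker hl)

end Pool.Agent.Y699
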