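import Pool.Agent.Y699.Pl
import Pool.Agent.Y699.Cen

/-!
The L-function of `y² = x³ - D² x` over the Gaussian field.
-/

set_option autoImplicit false
set_option linter.unusedSectionVars false

open NumberField IsDedekindDomain

namespace Pool.Agent.Y699

open H385 (ZI RQ im1 nrm)
open Pool.Agent.W164.RC (tc_mul tc_star two2 prim_iff_dvd unit_norm unit_cases Ip Ip_spec Ip_exists dg
  aD_roots local_poly local_two ep_hecke)
open Pool.Agent.H304R2.EC.A1 (prim prim_mul prim_cancel prim_one prim_norm_odd prim_star eq_one_of_prim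
  norm_def' re_mul' im_mul' eq_of_dvd prim_ne_zero exists_prim)
open Pool.Agent.H921R2.TatePole (below deg nm nm_eq nm_summable two_le_nm)
open Pool.Agent.H82R3.EK (luc luc_eq)
open Pool.Agent.H304R3.HK (tc HC LH bH psi psi_apply uh_psi goodH bb ee UH tc_star_mul tc_ne_zero)

variable {K : Type} [Field K] [NumberField K]

/-- the primary generator of a place -/
noncomputable def pg (e : ZI ≃+* 𝓞 K) (v : HeightOneSpectrum (𝓞 K)) : ZI := (exists_pg e v).choose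

lemma pg_span (e : ZI ≃+* 𝓞 K) (v : HeightOneSpectrum (𝓞 K)) : v.asIdeal = Ideal.span {e (pg e v)} :=
  (exists_pg e v).choose_spec.1

lemma pg_cases (e : ZI ≃+* 𝓞 K) (v : HeightOneSpectrum (𝓞 K)) :
    ((below v : ℕ) = 2 ∧ pg e v = pi1) ∨ ((below v : ℕ) ≠ 2 ∧ pg e v ∈ Ip (below v)) :=
  (exists_pg e v).choose_spec.2

lemma pg_prime (e : ZI ≃+* 𝓞 K) (v : HeightOneSpectrum (𝓞 K)) : Prime (pg e v) :=
  z_prime e (pg_span e v)

open Classical in
/-- the primary primes above `p`, with `1 + i` for `p = 2` -/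
noncomputable def Iq (p : Nat.Primes) : Finset ZI := if (p : ℕ) = 2 then {pi1} else Ip p

lemma pg_mem (e : ZI ≃+* 𝓞 K) (v : HeightOneSpectrum (𝓞 K)) : pg e v ∈ Iq (below v) := by
  unfold Iq
  rcases pg_cases e v with ⟨h1, h2⟩ | ⟨h1, h2⟩
  · rw [if_pos h1, h2]; simp
  · rw [if_neg h1]; exact h2

lemma Iq_spec {p : Nat.Primes} {z : ZI} (hz : z ∈ Iq p) : Prime z ∧ z ∣ ((p : ℕ) : ZI) := by
  unfold Iq at hz
  split_ifs at hz with h
  · rw [Finset.mem_singleton] at hz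
    subst hz
    refine ⟨pi1_prime, ?_⟩
    rw [h]
    exact pi1_two
  · exact ⟨(Ip_spec p.2 hz).2.1, (Ip_spec p.2 hz).2.2.2⟩

/-- the place of a prime -/
noncomputable def plc (e : ZI ≃+* 𝓞 K) {z : ZI} (hz : Prime z) : HeightOneSpectrum (𝓞 K) where
  asIdeal := Ideal.span {e z}
  isPrime := by
    have h1 : Prime (e z) := (MulEquiv.prime_iff e.toMulEquiv).2 hz
    exact (Ideal.span_singleton_prime h1.ne_zero).2 h1
  ne_bot := by
    have h1 : Prime (e z) := (MulEquiv.prime_iff e.toMulEquiv).2 hz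
    rw [Ne, Ideal.span_singleton_eq_bot]; exact h1.ne_zero

lemma below_plc (e : ZI ≃+* 𝓞 K) {p : Nat.Primes} {z : ZI} (hz : z ∈ Iq p) :
    below (plc e (Iq_spec hz).1) = p := by
  set v := plc e (Iq_spec hz).1 with hv
  have h1 := (nm_eq v).2.2
  have h2 : ((p : ℕ) : 𝓞 K) ∈ v.asIdeal := by
    obtain ⟨c, hc⟩ := (Iq_spec hz).2
    have : ((p : ℕ) : 𝓞 K) = e z * e c := by rw [← map_mul, ← hc, map_natCast]
    rw [this]
    exact v.asIdeal.mul_mem_right _ (Ideal.mem_span_singleton_self _)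
  by_contra hne
  have hcop : Nat.Coprime (below v : ℕ) (p : ℕ) :=
    (Nat.coprime_primes (below v).2 p.2).2 fun h => hne (Subtype.ext h)
  have h3 : IsCoprime (((below v : ℕ) : 𝓞 K)) ((p : ℕ) : 𝓞 K) := by
    have := Nat.isCoprime_iff_coprime.2 hcop
    have h4 := this.map (Int.castRingHom (𝓞 K))
    simpa using h4
  obtain ⟨a, b, hab⟩ := h3
  apply v.isPrime.ne_top
  rw [Ideal.eq_top_iff_one, ← hab]
  exact v.asIdeal.add_mem (v.asIdeal.mul_mem_left _ h1) (v.asIdeal.mul_mem_left _ h2)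

lemma dvd_eq {p : Nat.Primes} {z w : ZI} (hz : z ∈ Iq p) (hw : w ∈ Iq p) (h : z ∣ w) : z = w := by
  unfold Iq at hz hw
  split_ifs at hz hw
  · rw [Finset.mem_singleton] at hz hw
    rw [hz, hw]
  · obtain ⟨a1, a2, -, -⟩ := Ip_spec p.2 hz
    obtain ⟨b1, b2, -, -⟩ := Ip_spec p.2 hw
    exact PP.eq_of_dvd ⟨a2, a1⟩ ⟨b2, b1⟩ h

lemma pg_plc (e : ZI ≃+* 𝓞 K) {p : Nat.Primes} {z : ZI} (hz : z ∈ Iq p) :
    pg e (plc e (Iq_spec hz).1) = z := by
  set v := plc e (Iq_spec hz).1 with hv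
  have h1 := pg_mem e v
  rw [below_plc e hz] at h1
  have h2 := pg_span e v
  have h3 : Ideal.span {e z} = Ideal.span {e (pg e v)} := h2
  have h4 : e (pg e v) ∣ e z := by
    rw [← Ideal.mem_span_singleton, ← h3]
    exact Ideal.mem_span_singleton_self _
  have h5 : pg e v ∣ z := by
    have := map_dvd e.symm h4
    simpa using this
  exact dvd_eq h1 hz h5

lemma plc_pg (e : ZI ≃+* 𝓞 K) (v : HeightOneSpectrum (𝓞 K)) : plc e (pg_prime e v) = v := by
  apply HeightOneSpectrum.ext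
  exact (pg_span e v).symm

/-- places as primary primes, arranged over the rational primes -/
noncomputable def plEquiv (e : ZI ≃+* 𝓞 K) :
    (Σ p : Nat.Primes, {z : ZI // z ∈ Iq p}) ≃ HeightOneSpectrum (𝓞 K) where
  toFun x := plc e (Iq_spec x.2.2).1
  invFun v := ⟨below v, ⟨pg e v, pg_mem e v⟩⟩
  left_inv := by
    rintro ⟨p, z, hz⟩
    have h1 := below_plc e hz
    have h2 := pg_plc e hz
    refine Sigma.ext h1 ?_
    have : ∀ (q : Nat.Primes) (hq : q = p) (w : ZI) (hw : w ∈ Iq q), w = z →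
        HEq (⟨w, hw⟩ : {z : ZI // z ∈ Iq q}) (⟨z, hz⟩ : {z : ZI // z ∈ Iq p}) := by
      rintro q rfl w hw rfl
      rfl
    exact this _ h1 _ _ h2
  right_inv := fun v => plc_pg e v

variable {ι : Type} [DecidableEq ι] {pr : ι → ZI}

/-- the Euler factor of the first Hecke L-function -/
noncomputable def f1 (hp : PF pr) (V : Finset ι) (e : ZI ≃+* 𝓞 K) (s : ℂ)
    (v : HeightOneSpectrum (𝓞 K)) : ℂ :=
  (1 - XX hp V (pg e v) * tc (pg e v) * ((Ideal.absNorm v.asIdeal : ℕ) : ℂ) ^ (-s))⁻¹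

lemma XX_pi1 (hp : PF pr) (V : Finset ι) : XX hp V pi1 = 0 := by
  rw [XX_apply, un_even (by decide)]
  unfold tc
  simp

lemma norm_XX (hp : PF pr) (V : Finset ι) (a : ZI) : ‖XX hp V a‖ ≤ 1 :=
  Pool.Agent.H304R3.HK.chi_le _ _ (XX_HC hp V) a

lemma norm_tc_sq (z : ZI) : ‖tc z‖ ^ 2 = (nrm z : ℝ) := by
  rw [tc_star_mul, ← nrm_cast]
  simp

lemma norm_tc_eq (z : ZI) : ‖tc z‖ = (nrm z : ℝ) ^ (1 / 2 : ℝ) := by
  rw [← norm_tc_sq, ← Real.rpow_natCast, ← Real.rpow_mul (norm_nonneg _)]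
  norm_num

lemma term_bound (hp : PF pr) (V : Finset ι) (e : ZI ≃+* 𝓞 K) (s : ℂ)
    (v : HeightOneSpectrum (𝓞 K)) :
    ‖XX hp V (pg e v) * tc (pg e v) * ((Ideal.absNorm v.asIdeal : ℕ) : ℂ) ^ (-s)‖ ≤
      (nm v : ℝ) ^ (-(s.re - 1 / 2)) := by
  have h2 := two_le_nm v
  have h0 : 0 < nm v := by omega
  have h3 : (0 : ℝ) < nm v := by exact_mod_cast h0
  have h4 : nm v = nrm (pg e v) := norm_pg e (pg_span e v)
  rw [norm_mul, norm_mul]
  have h5 : ‖((Ideal.absNorm v.asIdeal : ℕ) : ℂ) ^ (-s)‖ = (nm v : ℝ) ^ (-s.re) := by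
    have := Complex.norm_natCast_cpow_of_pos h0 (-s)
    rw [Complex.neg_re] at this
    exact this
  rw [h5, norm_tc_eq, ← h4]
  have h6 : (nm v : ℝ) ^ (-(s.re - 1 / 2)) = (nm v : ℝ) ^ (1 / 2 : ℝ) * (nm v : ℝ) ^ (-s.re) := by
    rw [← Real.rpow_add h3]
    congr 1
    ring
  rw [h6, mul_assoc]
  exact mul_le_of_le_one_left (by positivity) (norm_XX hp V _)

lemma half_bound (v : HeightOneSpectrum (𝓞 K)) {x : ℝ} (hx : 1 < x) : (nm v : ℝ) ^ (-x) ≤ 1 / 2 :=
  Pool.Agent.H921R2.TatePole.nm_rpow_le_half v hx.le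

lemma f1_mul (hp : PF pr) (V : Finset ι) (e : ZI ≃+* 𝓞 K) {s : ℂ} (hs : 3 / 2 < s.re) :
    Multipliable (f1 hp V e s) := by
  have h1 : 1 < s.re - 1 / 2 := by linarith
  have hsum := nm_summable (K := K) (x := s.re - 1 / 2) h1
  have h5 : Summable (fun v : HeightOneSpectrum (𝓞 K) => ‖f1 hp V e s v - 1‖) := by
    refine Summable.of_nonneg_of_le (fun v => norm_nonneg _) (fun v => ?_) (hsum.mul_left 2)
    set t := XX hp V (pg e v) * tc (pg e v) * ((Ideal.absNorm v.asIdeal : ℕ) : ℂ) ^ (-s) with ht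
    have hb := term_bound hp V e s v
    have hh := half_bound v h1
    rw [← ht] at hb
    have h6 : ‖t‖ ≤ 1 / 2 := hb.trans hh
    have h7 : 1 / 2 ≤ ‖1 - t‖ := by
      have := norm_sub_norm_le (1 : ℂ) t
      rw [norm_one] at this
      linarith
    have h8 : (1 - t) ≠ 0 := by
      intro h0
      rw [h0, norm_zero] at h7
      norm_num at h7
    have h9 : f1 hp V e s v - 1 = t * (1 - t)⁻¹ := by
      unfold f1
      rw [← ht]
      field_simp
      ring
    rw [h9, norm_mul, norm_inv]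
    have h10 : ‖1 - t‖⁻¹ ≤ 2 := by
      rw [inv_le_comm₀ (by linarith) (by norm_num)]
      linarith
    calc ‖t‖ * ‖1 - t‖⁻¹ ≤ ‖t‖ * 2 := by gcongr
      _ ≤ 2 * (nm v : ℝ) ^ (-(s.re - 1 / 2)) := by linarith
  have h7 := multipliable_one_add_of_summable h5
  refine h7.congr (fun v => ?_)
  ring

lemma psi_term (hp : PF pr) (V : Finset ι) {p : Nat.Primes} {z : ZI} (hz : z ∈ Ip p) (s : ℂ) :
    psi (XX hp V) z * (((p : ℕ) : ℂ) ^ (-(s - 1 / 2))) ^ dg p =
      XX hp V z * tc z * ((nrm z : ℕ) : ℂ) ^ (-s) := by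
  obtain ⟨-, hzp, h3, -⟩ := Ip_spec p.2 hz
  rw [psi_apply _ hzp.ne_zero, h3]
  have hp0 : ((p : ℕ) : ℂ) ≠ 0 := Nat.cast_ne_zero.2 p.2.ne_zero
  have hpr : (0 : ℝ) < (p : ℕ) := by exact_mod_cast p.2.pos
  have e0 : (((p : ℕ) ^ dg p : ℕ) : ℂ) ^ (-s) = (((p : ℕ) : ℂ) ^ (-s)) ^ dg p := by
    have hk : ∀ k : ℕ, (((p : ℕ) ^ k : ℕ) : ℂ) ^ (-s) = (((p : ℕ) : ℂ) ^ (-s)) ^ k := by
      intro k
      induction k with
      | zero => simp
      | succ k ih =>
        rw [pow_succ, Nat.cast_mul, Complex.natCast_mul_natCast_cpow, ih, pow_succ]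
    exact hk _
  have e1 : ((p : ℕ) : ℂ) ^ (-(s - 1 / 2)) = ((p : ℕ) : ℂ) ^ (-s) * ((p : ℕ) : ℂ) ^ ((1 / 2 : ℂ)) := by
    rw [← Complex.cpow_add _ _ hp0]
    congr 1
    ring
  have e2 : ((‖tc z‖ : ℝ) : ℂ) = (((p : ℕ) : ℂ) ^ ((1 / 2 : ℂ))) ^ dg p := by
    have h1 : ‖tc z‖ = (((p : ℕ) : ℝ) ^ (1 / 2 : ℝ)) ^ dg p := by
      rw [norm_tc_eq, h3]
      push_cast
      rw [← Real.rpow_natCast, ← Real.rpow_mul hpr.le, mul_comm, Real.rpow_mul hpr.le,
        Real.rpow_natCast]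
    rw [h1, Complex.ofReal_pow, Complex.ofReal_cpow hpr.le]
    push_cast
    rfl
  have e3 : ((‖tc z‖ : ℝ) : ℂ) ≠ 0 := by
    rw [Complex.ofReal_ne_zero, norm_ne_zero_iff]
    exact tc_ne_zero hzp.ne_zero
  rw [e0, e1, mul_pow, ← e2]
  field_simp

theorem f1_hasProd (hp : PF pr) (V : Finset ι) (e : ZI ≃+* 𝓞 K) {s : ℂ} (hs : 3 / 2 < s.re) :
    HasProd (f1 hp V e s) (LH (XX hp V) (s - 1 / 2)) := by
  obtain ⟨A, hA, hgood⟩ := goodH
  have H := XX_HC hp V
  have hre : 1 < (s - 1 / 2).re := by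
    have : (s - 1 / 2).re = s.re - 1 / 2 := by simp
    rw [this]; linarith
  have h1 := ep_hecke (uh_psi _ _ H) (s - 1 / 2) _ ((hgood _ _ H).2.1 _ hre)
  rw [← (plEquiv e).hasProd_iff]
  refine HasProd.sigma_of_hasProd h1 (fun p => ?_) ?_
  · have h2 : (1 - bb (psi (XX hp V)) (p : ℕ) * (((p : ℕ) : ℂ) ^ (-(s - 1 / 2))) +
        ee (psi (XX hp V)) (p : ℕ) * (((p : ℕ) : ℂ) ^ (-(s - 1 / 2))) ^ 2)⁻¹ =
        ∏ z : {z : ZI // z ∈ Iq p}, (f1 hp V e s ∘ plEquiv e) ⟨p, z⟩ := by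
      have h3 : ∀ z : {z : ZI // z ∈ Iq p}, (f1 hp V e s ∘ plEquiv e) ⟨p, z⟩ =
          (1 - XX hp V z.1 * tc z.1 * ((nrm z.1 : ℕ) : ℂ) ^ (-s))⁻¹ := by
        rintro ⟨z, hz⟩
        show f1 hp V e s (plc e (Iq_spec hz).1) = _
        unfold f1
        rw [pg_plc e hz, norm_pg e (z := z) rfl]
      simp_rw [h3]
      rw [Finset.prod_coe_sort (Iq p) (fun z => (1 - XX hp V z * tc z * ((nrm z : ℕ) : ℂ) ^ (-s))⁻¹)]
      unfold Iq
      split_ifs with hp2
      · rw [Finset.prod_singleton, XX_pi1, zero_mul, zero_mul]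
        rw [hp2, local_two (uh_psi _ _ H)]
        have h4 : psi (XX hp V) ⟨1, 1⟩ = 0 := by
          rw [psi_apply _ (by decide)]
          have h5 : XX hp V ⟨1, 1⟩ = 0 := XX_pi1 hp V
          rw [h5, zero_mul]
        rw [h4, zero_mul]
      · rw [local_poly (uh_psi _ _ H) p.2 hp2, ← Finset.prod_inv_distrib]
        refine Finset.prod_congr rfl fun z hz => ?_
        rw [psi_term hp V hz]
    rw [h2]
    exact hasProd_fintype _
  · exact (plEquiv e).multipliable_iff.2 (f1_mul hp V e hs)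

/-- the Euler factor of the second Hecke L-function -/
noncomputable def f2 (hp : PF pr) (V : Finset ι) (e : ZI ≃+* 𝓞 K) (s : ℂ)
    (v : HeightOneSpectrum (𝓞 K)) : ℂ :=
  (1 - XX hp V (pg e v) * tc (star (pg e v)) * ((Ideal.absNorm v.asIdeal : ℕ) : ℂ) ^ (-s))⁻¹

lemma XX_real (hp : PF pr) (V : Finset ι) {p : Nat.Primes} {z : ZI} (hz : z ∈ Iq p) :
    (starRingEnd ℂ) (XX hp V z) = XX hp V z := by
  unfold Iq at hz
  split_ifs at hz with hp2
  · rw [Finset.mem_singleton] at hz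
    rw [hz, XX_pi1, map_zero]
  · rw [XX_prim hp V (Ip_spec p.2 hz).1]
    simp

lemma f2_eq (hp : PF pr) (V : Finset ι) (e : ZI ≃+* 𝓞 K) (s : ℂ) (v : HeightOneSpectrum (𝓞 K)) :
    f2 hp V e s v = (starRingEnd ℂ) (f1 hp V e ((starRingEnd ℂ) s) v) := by
  unfold f2 f1
  rw [map_inv₀, map_sub, map_one, map_mul, map_mul, XX_real hp V (pg_mem e v), tc_star]
  congr 3
  have h := Complex.cpow_conj ((Ideal.absNorm v.asIdeal : ℕ) : ℂ) (-(starRingEnd ℂ) s) (by
    rw [Complex.natCast_arg]; exact Real.pi_pos.ne)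
  rw [map_neg, Complex.conj_conj, map_natCast] at h
  rw [← h]

theorem f2_hasProd (hp : PF pr) (V : Finset ι) (e : ZI ≃+* 𝓞 K) {s : ℂ} (hs : 3 / 2 < s.re) :
    HasProd (f2 hp V e s) ((starRingEnd ℂ) (LH (XX hp V) ((starRingEnd ℂ) s - 1 / 2))) := by
  have h1 := f1_hasProd hp V e (s := (starRingEnd ℂ) s) (by rwa [Complex.conj_re])
  have h2 := h1.map (starRingEnd ℂ) Complex.continuous_conj
  refine h2.congr_fun (fun v => ?_)
  rw [f2_eq]
  rfl

/-- the L-function of `y² = x³ - D² x` -/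
noncomputable def LE (hp : PF pr) (V : Finset ι) (s : ℂ) : ℂ :=
  LH (XX hp V) (s - 1 / 2) * (starRingEnd ℂ) (LH (XX hp V) ((starRingEnd ℂ) s - 1 / 2))

theorem LE_diff (hp : PF pr) (V : Finset ι) : Differentiable ℂ (LE hp V) := by
  obtain ⟨A, hA, hgood⟩ := goodH
  have h1 := (hgood _ _ (XX_HC hp V)).1
  have h2 : Differentiable ℂ (fun s => LH (XX hp V) (s - 1 / 2)) :=
    h1.comp (differentiable_id.sub_const _)
  refine h2.mul fun s => ?_
  have h3 : DifferentiableAt ℂ ((starRingEnd ℂ) ∘ (fun s => LH (XX hp V) (s - 1 / 2)) ∘ (starRingEnd ℂ)) s :=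
    differentiableAt_conj_conj_iff.2 (h2 _)
  exact h3

theorem LE_one (hp : PF pr) (V : Finset ι) (h : LH (XX hp V) (1 / 2) ≠ 0) : LE hp V 1 ≠ 0 := by
  unfold LE
  have e : (1 : ℂ) - 1 / 2 = 1 / 2 := by norm_num
  rw [map_one, e]
  exact mul_ne_zero h ((map_ne_zero _).2 h)

/-- the Euler factor of an integral Weierstrass equation -/
noncomputable def lf (W : WeierstrassCurve (𝓞 K)) (v : HeightOneSpectrum (𝓞 K)) (s : ℂ) : ℂ :=
  open Classical in
  (1 - ((Ideal.absNorm v.asIdeal : ℂ) - (Mdl.aff (W.map (Ideal.Quotient.mk v.asIdeal)) : ℂ))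
        * (Ideal.absNorm v.asIdeal : ℂ) ^ (-s)
    + (if W.Δ ∈ v.asIdeal then 0 else (Ideal.absNorm v.asIdeal : ℂ))
        * (Ideal.absNorm v.asIdeal : ℂ) ^ (-2 * s))⁻¹

lemma qr_prod {π : ZI} (h : PP π) (V : Finset ι) : qr π (DD pr V) = ∏ i ∈ V, qr π (pr i) := by
  classical
  unfold DD
  induction V using Finset.induction_on with
  | empty => rw [Finset.prod_empty, Finset.prod_empty, qr_one h]
  | insert a s ha ih => rw [Finset.prod_insert ha, Finset.prod_insert ha, qr_mul h, ih]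

lemma XX_qr (hp : PF pr) (V : Finset ι) {π : ZI} (h : PP π) : XX hp V π = (qr π (DD pr V) : ℂ) := by
  rw [XX_prim hp V h.prm, qr_prod h]
  unfold ch
  congr 1
  exact Finset.prod_congr rfl fun i _ => qr_rec (hp.pp i) h

lemma DD_sqf (hp : PF pr) (V : Finset ι) (π : ZI) (hπ : Prime π) : ¬ π ^ 2 ∣ DD pr V := by
  intro h
  have h1 : π ∣ DD pr V := (dvd_pow_self π (by norm_num)).trans h
  unfold DD at h1
  obtain ⟨i, hi, hπi⟩ := (hπ.dvd_finsetProd_iff _).1 h1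
  obtain ⟨c, hc⟩ := hπi
  have hcu : IsUnit c := by
    rcases (hp.pp i).pr.irreducible.isUnit_or_isUnit hc with h2 | h2
    · exact absurd h2 hπ.not_isUnit
    · exact h2
  have hDi : DD pr V = pr i * DD pr (V.erase i) := by
    unfold DD
    exact (Finset.mul_prod_erase V pr hi).symm
  rw [hDi, hc, sq, mul_assoc] at h
  have h2 := (mul_dvd_mul_iff_left hπ.ne_zero).1 h
  have h3 : π ∣ DD pr (V.erase i) := by
    rcases hπ.dvd_or_dvd h2 with h4 | h4
    · exact absurd (isUnit_of_dvd_unit h4 hcu) hπ.not_isUnit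
    · exact h4
  unfold DD at h3
  obtain ⟨j, hj, hπj⟩ := (hπ.dvd_finsetProd_iff _).1 h3
  have h4 : pr i ∣ pr j := by
    obtain ⟨c', hc'⟩ := hcu.exists_left_inv
    obtain ⟨k, hk⟩ := hπj
    exact ⟨c' * k, by rw [hk, hc]; linear_combination (-(π * k)) * hc'⟩
  have h5 := (hp.pp i).eq_of_dvd (hp.pp j) h4
  exact (Finset.mem_erase.1 hj).1 (hp.inj h5).symm

theorem lf_eq (hp : PF pr) (V : Finset ι) (e : ZI ≃+* 𝓞 K) (s : ℂ) (v : HeightOneSpectrum (𝓞 K))
    {W : WeierstrassCurve (𝓞 K)}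
    (hmin : MinAt (crv (algebraMap (𝓞 K) K (e (DD pr V)))) v W) :
    lf W v s = f1 hp V e s v * f2 hp V e s v := by
  set D := DD pr V with hD
  have hprim : prim D := DD_prim hp V
  have hsp := pg_span e v
  set z := pg e v with hz
  have hzp : Prime z := pg_prime e v
  have hodd : (below v : ℕ) ≠ 2 → z ∈ Ip (below v) → PP z := fun h1 h2 =>
    ⟨(Ip_spec (below v).2 h2).2.1, (Ip_spec (below v).2 h2).1⟩
  have hz2 : z = pi1 ∨ ¬ z ∣ 2 := by
    rcases pg_cases e v with ⟨h1, h2⟩ | ⟨h1, h2⟩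
    · exact Or.inl h2
    · exact Or.inr (not_dvd_two (hodd h1 h2))
  obtain ⟨C, hC⟩ := hmin.1
  have hu := val_u e hsp hz2 hprim (DD_sqf hp V) hmin hC
  have hC' : C • W.map (algebraMap (𝓞 K) K) = (crv (e D)).map (algebraMap (𝓞 K) K) := by
    rw [crv_map]; exact hC
  have haff := Mdl.aff_model v hu hC'
  rw [aff_crv] at haff
  have hΔ : W.Δ ∈ v.asIdeal ↔ (z = pi1 ∨ z ∣ D) := by
    have h1 := congrArg WeierstrassCurve.Δ hC'
    rw [WeierstrassCurve.variableChange_Δ, WeierstrassCurve.map_Δ, WeierstrassCurve.map_Δ] at h1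
    have h2 := congrArg (v.valuation K) h1
    rw [map_mul, map_pow, Units.val_inv_eq_inv_val, map_inv₀, hu, inv_one, one_pow, one_mul] at h2
    rw [← v.valuation_lt_one_iff_mem (K := K), h2, v.valuation_lt_one_iff_mem (K := K), crv_Δ]
    have e1 : (64 : 𝓞 K) * e D ^ 6 = e (64 * D ^ 6) := by
      rw [map_mul, map_pow, map_ofNat]
    rw [e1, mem_iff e hsp]
    constructor
    · intro h
      rcases hz2 with h3 | h3
      · exact Or.inl h3
      · right
        rcases hzp.dvd_or_dvd h with h4 | h4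
        · exfalso
          apply h3
          have e5 : (64 : ZI) = 2 ^ 6 := by decide
          rw [e5] at h4
          exact hzp.dvd_of_dvd_pow h4
        · exact hzp.dvd_of_dvd_pow h4
    · rintro (h | h)
      · rw [h]
        exact (pi1_two.trans ⟨32, by decide⟩).mul_right _
      · exact (dvd_pow h (by norm_num)).mul_left _
  unfold lf
  rw [haff]
  by_cases hb : z = pi1 ∨ z ∣ D
  · rw [if_pos (hΔ.2 hb)]
    have hb' : ((below v : ℕ) = 2 ∧ z = pi1) ∨ z ∣ D := by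
      rcases hb with h | h
      · rcases pg_cases e v with ⟨h1, h2⟩ | ⟨h1, h2⟩
        · exact Or.inl ⟨h1, h⟩
        · exfalso
          have := pi1_prim (hodd h1 h2).prm
          rw [h] at this
          exact this dvd_rfl
      · exact Or.inr h
    have h1 := cnt_bad e hsp hprim hb'
    have h2 : ((Ideal.absNorm v.asIdeal : ℕ) : ℂ) - (cnt v (Ideal.Quotient.mk v.asIdeal (e D)) : ℂ) = 0 := by
      exact_mod_cast congrArg (Int.cast : ℤ → ℂ) h1
    rw [h2]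
    have h3 : XX hp V z = 0 := by
      rcases hb with h | h
      · rw [h, XX_pi1]
      · by_contra hne
        have h4 := ((cop_cnd hp V z).1 (((XX_HC hp V).supp z).1 hne)).2
        rw [hD] at h
        unfold DD at h
        obtain ⟨i, hi, hzi⟩ := (hzp.dvd_finsetProd_iff _).1 h
        rcases pg_cases e v with ⟨h1, h2⟩ | ⟨h1, h2⟩
        · have h5 := pi1_prim (hp.pp i).prm
          rw [hz, h2] at hzi
          exact h5 hzi
        · have h5 := (hodd h1 h2).eq_of_dvd (hp.pp i) hzi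
          exact h4 i hi (by rw [h5])
    unfold f1 f2
    rw [← hz, h3]
    simp
  · rw [if_neg (fun h => hb (hΔ.1 h))]
    push Not at hb
    rcases pg_cases e v with ⟨h1, h2⟩ | ⟨h1, h2⟩
    · exact absurd h2 hb.1
    · have hPP := hodd h1 h2
      have h3 := cnt_good e h1 h2 hsp hb.2
      push_cast at h3
      rw [h3]
      unfold f1 f2
      rw [← hz, XX_qr hp V hPP, ← mul_inv]
      congr 1
      have h4 : (qr z D : ℂ) * (qr z D : ℂ) = 1 := by
        have := qr_sq hb.2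
        exact_mod_cast congrArg (Int.cast : ℤ → ℂ) this
      have h5 : tc z * tc (star z) = ((Ideal.absNorm v.asIdeal : ℕ) : ℂ) := by
        rw [norm_pg e hsp, ← tc_mul, ← Zsqrtd.norm_eq_mul_conj, ← nrm_cast]
        unfold tc
        simp
      have hN : ((Ideal.absNorm v.asIdeal : ℕ) : ℂ) ≠ 0 := by
        have := two_le_nm v
        unfold Pool.Agent.H921R2.TatePole.nm at this
        exact_mod_cast (by omega : Ideal.absNorm v.asIdeal ≠ 0)
      have h6 : ((Ideal.absNorm v.asIdeal : ℕ) : ℂ) ^ (-2 * s) =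
          (((Ideal.absNorm v.asIdeal : ℕ) : ℂ) ^ (-s)) ^ 2 := by
        rw [← Complex.cpow_nat_mul]
        congr 1
        push_cast
        ring
      rw [h6]
      linear_combination (-(((Ideal.absNorm v.asIdeal : ℕ) : ℂ) ^ (-s)) ^ 2 * (qr z D : ℂ) ^ 2) * h5 -
        ((Ideal.absNorm v.asIdeal : ℕ) : ℂ) * (((Ideal.absNorm v.asIdeal : ℕ) : ℂ) ^ (-s)) ^ 2 * h4

theorem LE_hasProd (hp : PF pr) (V : Finset ι) (e : ZI ≃+* 𝓞 K) {s : ℂ} (hs : 3 / 2 < s.re)
    (W : HeightOneSpectrum (𝓞 K) → WeierstrassCurve (𝓞 K))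
    (hW : ∀ v, MinAt (crv (algebraMap (𝓞 K) K (e (DD pr V)))) v (W v)) :
    HasProd (fun v => lf (W v) v s) (LE hp V s) := by
  have h := (f1_hasProd hp V e hs).mul (f2_hasProd hp V e hs)
  refine h.congr_fun (fun v => ?_)
  exact lf_eq hp V e s v (hW v)

end Pool.Agent.Y699
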