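import Pool.Agent.Y699.Qs
import Pool.Agent.Y699.Cen

/-!
The Hecke character of the quartic twist.
-/

set_option autoImplicit false
set_option linter.unusedSectionVars false
set_option linter.unusedSimpArgs false

open Filter Complex MeasureTheory Set
open scoped Topology PeriodPair
open Pool.Agent.TH936.CM

namespace Pool.Agent.Y699

open H385 (ZI RQ im1 nrm)
open Pool.Agent.H304R3.HK (tc HC LH bH TH FF Th th_psi chi_le)
open Pool.Agent.W164.RC (tc_mul tc_star two2 prim_iff_dvd unit_norm unit_cases)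
open Pool.Agent.H304R2.EC.A1 (prim prim_mul prim_cancel prim_one prim_norm_odd prim_star eq_one_of_prim
  norm_def' re_mul' im_mul' eq_of_dvd prim_ne_zero exists_prim)

variable {ι : Type} [DecidableEq ι] {pr : ι → ZI}

open Classical in
/-- powers of the quartic symbol, zero at multiples -/
noncomputable def fe (π : ZI) (k : ℕ) (a : ZI) : ZI := if π ∣ a then 0 else q4 π a ^ k

lemma fe_mul {π : ZI} (h : PP π) (k : ℕ) (a b : ZI) : fe π k (a * b) = fe π k a * fe π k b := by
  unfold fe
  by_cases ha : π ∣ a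
  · rw [if_pos (ha.mul_right b), if_pos ha, zero_mul]
  · by_cases hb : π ∣ b
    · rw [if_pos (hb.mul_left a), if_pos hb, mul_zero]
    · have h1 : ¬ π ∣ a * b := fun h' => (h.pr.dvd_or_dvd h').elim ha hb
      rw [if_neg h1, if_neg ha, if_neg hb, q4_mul h, mul_pow]

lemma fe_per {π : ZI} (h : PP π) (k : ℕ) {a b : ZI} (hab : π ∣ a - b) : fe π k a = fe π k b := by
  unfold fe
  have h1 : π ∣ a ↔ π ∣ b := by
    constructor
    · intro h'; have := dvd_sub h' hab; rwa [sub_sub_cancel] at this
    · intro h'; have := dvd_add hab h'; rwa [sub_add_cancel] at this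
  by_cases hb : π ∣ b
  · rw [if_pos (h1.2 hb), if_pos hb]
  · rw [if_neg (fun h' => hb (h1.1 h')), if_neg hb, q4_per h hab]

lemma fe_norm {π : ZI} (h : PP π) (k : ℕ) {a : ZI} (ha : ¬ π ∣ a) : (fe π k a).norm = 1 := by
  unfold fe
  rw [if_neg ha]
  have h1 := q4_norm h ha
  induction k with
  | zero => rw [pow_zero]; decide
  | succ k ih => rw [pow_succ, Zsqrtd.norm_mul, ih, h1, one_mul]

lemma fe_zero {π : ZI} (k : ℕ) {a : ZI} (ha : π ∣ a) : fe π k a = 0 := by
  unfold fe; rw [if_pos ha]

lemma not_dvd_unit {π u : ZI} (h : PP π) (hu : u.norm = 1) : ¬ π ∣ u := by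
  intro h'
  apply h.pr.not_isUnit
  exact isUnit_of_dvd_unit h' (Zsqrtd.norm_eq_one_iff.1 (by rw [hu]; rfl))

/-- the weight -/
noncomputable def wq (π : ZI) : ℕ := nrm π / 4

lemma fe_unit {π u : ZI} (h : PP π) (k : ℕ) (hu : u.norm = 1) : fe π k u = u ^ (k * wq π) := by
  unfold fe
  rw [if_neg (not_dvd_unit h hu), q4_unit h hu, ← pow_mul, mul_comm]
  rfl

/-- the character with exponents -/
noncomputable def c4 (pr : ι → ZI) (V : Finset ι) (e : ι → ℕ) (a : ZI) : ZI := ∏ i ∈ V, fe (pr i) (e i) a

/-- the total weight -/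
noncomputable def Wt (pr : ι → ZI) (V : Finset ι) (e : ι → ℕ) : ℕ := ∑ i ∈ V, e i * wq (pr i)

lemma c4_mul (hp : PF pr) (V : Finset ι) (e : ι → ℕ) (a b : ZI) :
    c4 pr V e (a * b) = c4 pr V e a * c4 pr V e b := by
  unfold c4
  rw [← Finset.prod_mul_distrib]
  exact Finset.prod_congr rfl fun i _ => fe_mul (hp.pp i) _ _ _

lemma c4_per (hp : PF pr) (V : Finset ι) (e : ι → ℕ) {a b : ZI} (hab : DD pr V ∣ a - b) :
    c4 pr V e a = c4 pr V e b :=
  Finset.prod_congr rfl fun i hi => fe_per (hp.pp i) _ ((dvd_DD hi).trans hab)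

lemma c4_unit (hp : PF pr) (V : Finset ι) (e : ι → ℕ) {u : ZI} (hu : u.norm = 1) :
    c4 pr V e u = u ^ Wt pr V e := by
  unfold c4 Wt
  rw [← Finset.prod_pow_eq_pow_sum]
  exact Finset.prod_congr rfl fun i _ => fe_unit (hp.pp i) _ hu

lemma c4_one (hp : PF pr) (V : Finset ι) (e : ι → ℕ) : c4 pr V e 1 = 1 := by
  rw [c4_unit hp V e (by decide), one_pow]

lemma prod_norm {κ : Type*} (s : Finset κ) (f : κ → ZI) (h : ∀ i ∈ s, (f i).norm = 1) :
    (∏ i ∈ s, f i).norm = 1 := by
  classical
  induction s using Finset.induction_on with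
  | empty => simp
  | insert a s ha ih =>
    rw [Finset.prod_insert ha, Zsqrtd.norm_mul, h a (Finset.mem_insert_self _ _),
      ih (fun i hi => h i (Finset.mem_insert_of_mem hi)), one_mul]

lemma c4_norm (hp : PF pr) (V : Finset ι) (e : ι → ℕ) {a : ZI} (h : ∀ i ∈ V, ¬ pr i ∣ a) :
    (c4 pr V e a).norm = 1 :=
  prod_norm _ _ fun i hi => fe_norm (hp.pp i) _ (h i hi)

lemma c4_zero {V : Finset ι} (e : ι → ℕ) {a : ZI} {i : ι} (hi : i ∈ V) (h : pr i ∣ a) :
    c4 pr V e a = 0 := Finset.prod_eq_zero hi (fe_zero _ h)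

lemma unit_pow_mod {u : ZI} (hu : u.norm = 1) {m n : ℕ} (h : m % 4 = n % 4) : u ^ m = u ^ n := by
  have h4 := Val4.four hu
  rw [← Nat.div_add_mod m 4, ← Nat.div_add_mod n 4, h, pow_add, pow_mul, h4, one_pow, pow_add,
    pow_mul, h4, one_pow]

lemma c4_neg (hp : PF pr) {V : Finset ι} {e : ι → ℕ} (hW : Wt pr V e % 4 = 3) (a : ZI) :
    c4 pr V e (-a) = -c4 pr V e a := by
  have e1 : -a = (-1) * a := by ring
  rw [e1, c4_mul hp, c4_unit hp V e (by decide : (-1 : ZI).norm = 1),
    unit_pow_mod (by decide : (-1 : ZI).norm = 1) (n := 3) (by rw [hW])]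
  ring

lemma c4_im (hp : PF pr) {V : Finset ι} {e : ι → ℕ} (hW : Wt pr V e % 4 = 3) (a : ZI) :
    c4 pr V e (im1 * a) = -im1 * c4 pr V e a := by
  rw [c4_mul hp, c4_unit hp V e im1_norm, unit_pow_mod im1_norm (n := 3) (by rw [hW])]
  congr 1

/-- the Hecke character -/
noncomputable def XX4 (hp : PF pr) (V : Finset ι) (e : ι → ℕ) : ZI →* ℂ where
  toFun a := tc (un a) * (starRingEnd ℂ) (tc (c4 pr V e (un a * a)))
  map_one' := by
    rw [un_prim prim_one, one_mul, c4_one hp, tc_one]
    simp
  map_mul' := by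
    intro a b
    have e : un (a * b) * (a * b) = (un a * a) * (un b * b) := by rw [un_mul]; ring
    rw [e, c4_mul hp, un_mul, tc_mul, tc_mul, map_mul]
    ring

lemma XX4_apply (hp : PF pr) (V : Finset ι) (e : ι → ℕ) (a : ZI) :
    XX4 hp V e a = tc (un a) * (starRingEnd ℂ) (tc (c4 pr V e (un a * a))) := rfl

lemma XX4_prim (hp : PF pr) (V : Finset ι) (e : ι → ℕ) {a : ZI} (ha : prim a) :
    XX4 hp V e a = (starRingEnd ℂ) (tc (c4 pr V e a)) := by
  rw [XX4_apply, un_prim ha, tc_one, one_mul, one_mul]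

/-- the conductor -/
noncomputable def cn4 (pr : ι → ZI) (V : Finset ι) : ZI := 2 * DD pr V

lemma two_eq_pi : (2 : ZI) = pi1 ^ 2 * ⟨0, -1⟩ := by decide

lemma cop_cn4 (hp : PF pr) (V : Finset ι) (a : ZI) : IsCoprime a (cn4 pr V) ↔
    a.norm % 2 = 1 ∧ ∀ i ∈ V, ¬ pr i ∣ a := by
  unfold cn4 DD
  rw [IsCoprime.mul_right_iff, IsCoprime.prod_right_iff, norm_odd_iff]
  refine and_congr ?_ (forall₂_congr fun i _ => ?_)
  · constructor
    · intro h h'
      have h1 : pi1 ∣ (2 : ZI) := ⟨⟨1, -1⟩, by decide⟩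
      exact pi1_not_dvd (isUnit_iff_dvd_one.1 (h.isUnit_of_dvd' h' h1))
    · intro h
      rw [two_eq_pi]
      refine IsCoprime.mul_right (IsCoprime.pow_right ?_) ?_
      · exact ((pi1_prime.irreducible.coprime_iff_not_dvd).2 h).symm
      · exact ⟨0, ⟨0, 1⟩, by rw [zero_mul, zero_add]; decide⟩
  · rw [isCoprime_comm]
    exact (hp.pp i).pr.irreducible.coprime_iff_not_dvd

/-- primary elements are one modulo two -/
lemma prim_mod_two {a : ZI} (h : prim a) : (2 : ZI) ∣ a - 1 := by
  have h1 := (prim_iff_dvd a).1 h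
  exact (show (2 : ZI) ∣ two2 from ⟨⟨1, 1⟩, by decide⟩).trans h1

lemma unit_mod_two {u w : ZI} (hu : u.norm = 1) (hw : w.norm = 1) (h : (2 : ZI) ∣ u - w) :
    w = u ∨ w = -u := by
  have hd : ∀ x : ZI, (2 : ZI) ∣ x → x.re % 2 = 0 ∧ x.im % 2 = 0 := by
    rintro x ⟨c, rfl⟩
    rw [re_mul', im_mul']
    have e1 : (2 : ZI).re = 2 := rfl
    have e2 : (2 : ZI).im = 0 := rfl
    rw [e1, e2]
    omega
  have h1 := hd _ h
  have e3 : (im1 : ZI) ^ 3 = ⟨0, -1⟩ := by decide
  have e2 : (im1 : ZI) ^ 2 = ⟨-1, 0⟩ := by decide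
  rcases unit_cases hu with h2 | h2 | h2 | h2 <;> rcases unit_cases hw with h3 | h3 | h3 | h3 <;>
    rw [h2, h3] at h1 ⊢ <;>
    first
    | exact Or.inl rfl
    | exact Or.inr (by decide)
    | (exfalso; revert h1; decide)

lemma Um.two {a b u w : ZI} (h : Um a u) (h' : Um b w) (hab : (2 : ZI) ∣ a - b) : w = u ∨ w = -u := by
  apply unit_mod_two h.1 h'.1
  have h1 := prim_mod_two h.2
  have h2 := prim_mod_two h'.2
  have h3 : (2 : ZI) ∣ (u - w) * a := by
    have h4 := dvd_sub (dvd_sub h1 h2) (hab.mul_left w)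
    have e : u * a - 1 - (w * b - 1) - w * (a - b) = (u - w) * a := by ring
    rwa [e] at h4
  have h5 : (2 : ZI) ∣ (u - w) * a * u := h3.mul_right u
  have h6 : (2 : ZI) ∣ (u - w) * (u * a - 1) := h1.mul_left _
  have h7 := dvd_sub h5 h6
  have e : (u - w) * a * u - (u - w) * (u * a - 1) = u - w := by ring
  rwa [e] at h7

theorem XX4_HC (hp : PF pr) {V : Finset ι} {e : ι → ℕ} (hW : Wt pr V e % 4 = 3)
    (he : ∀ i ∈ V, e i % 4 ≠ 0) : HC (cn4 pr V) (XX4 hp V e) where
  q0 := mul_ne_zero (by decide) (DD_ne hp V)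
  per := by
    intro a b hab
    have h1 : (2 : ZI) ∣ a - b := (dvd_mul_right _ _).trans hab
    have h2 : DD pr V ∣ a - b := (dvd_mul_left _ _).trans hab
    rw [XX4_apply, XX4_apply]
    by_cases ha : ∃ u, Um a u
    · obtain ⟨u, hu⟩ := ha
      have hbo : b.norm % 2 = 1 := by
        rw [norm_odd_iff]
        intro hb
        apply (norm_odd_iff a).1 hu.odd
        have h3 : pi1 ∣ a - b := (show pi1 ∣ (2 : ZI) from ⟨⟨1, -1⟩, by decide⟩).trans h1
        have := dvd_add h3 hb
        rwa [sub_add_cancel] at this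
      obtain ⟨w, hw⟩ := exists_Um hbo
      have hc : c4 pr V e (u * a) = c4 pr V e (u * b) := by
        apply c4_per hp
        rw [← mul_sub]
        exact h2.mul_left _
      rw [un_eq hu, un_eq hw, hc]
      rcases hu.two hw h1 with h3 | h3
      · rw [h3]
      · rw [h3, neg_mul, c4_neg hp hW, tc_neg, tc_neg, map_neg, neg_mul_neg]
    · have ha' : a.norm % 2 ≠ 1 := fun h => ha (exists_Um h)
      have hb' : b.norm % 2 ≠ 1 := by
        intro hb
        apply ha'
        rw [norm_odd_iff] at hb ⊢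
        intro h5
        apply hb
        have h3 : pi1 ∣ a - b := (show pi1 ∣ (2 : ZI) from ⟨⟨1, -1⟩, by decide⟩).trans h1
        have := dvd_sub h5 h3
        rwa [sub_sub_cancel] at this
      rw [un_even ha', un_even hb', tc_zero, zero_mul, zero_mul]
  supp := by
    intro a
    rw [cop_cn4 hp V, XX4_apply]
    constructor
    · intro h
      have h1 : a.norm % 2 = 1 := by
        by_contra hc
        apply h
        rw [un_even hc, tc_zero, zero_mul]
      refine ⟨h1, fun i hi hd => h ?_⟩
      rw [c4_zero e hi (hd.mul_left _), tc_zero, map_zero, mul_zero]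
    · rintro ⟨h1, h2⟩
      obtain ⟨u, hu⟩ := exists_Um h1
      rw [un_eq hu]
      have hn := c4_norm hp V e (a := u * a) (fun i hi h => h2 i hi ((qr_unit_mul (hp.pp i) hu.1 a).1 h))
      intro h0
      have h3 := congrArg norm h0
      rw [norm_mul, unit_tc hu.1, RCLike.norm_conj, unit_tc hn, norm_zero] at h3
      norm_num at h3
  nrm := by
    intro a ha
    obtain ⟨h1, h2⟩ := (cop_cn4 hp V a).1 ha
    obtain ⟨u, hu⟩ := exists_Um h1
    have hn := c4_norm hp V e (a := u * a) (fun i hi h => h2 i hi ((qr_unit_mul (hp.pp i) hu.1 a).1 h))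
    rw [XX4_apply, un_eq hu, norm_mul, unit_tc hu.1, one_mul, RCLike.norm_conj, unit_tc hn]
  unit := by
    have h1 : Um ⟨0, 1⟩ ⟨0, -1⟩ := by
      refine ⟨by decide, ?_⟩
      have : (⟨0, -1⟩ : ZI) * ⟨0, 1⟩ = 1 := by decide
      rw [this]
      exact prim_one
    rw [XX4_apply, un_eq h1]
    have e : (⟨0, -1⟩ : ZI) * ⟨0, 1⟩ = 1 := by decide
    rw [e, c4_one hp, tc_one, map_one, mul_one]
    unfold tc
    simp
  prim := by
    intro d hd hnd
    by_cases hB : ∃ i ∈ V, ¬ pr i ∣ d
    · obtain ⟨i, hi, hid⟩ := hB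
      have hDi : DD pr V = pr i * DD pr (V.erase i) := by
        unfold DD
        exact (Finset.mul_prod_erase V pr hi).symm
      set m := two2 * DD pr (V.erase i) with hm
      have hcop : IsCoprime (pr i) m := by
        rw [hm]
        refine IsCoprime.mul_right ?_ ?_
        · exact ((hp.pp i).pr.irreducible.coprime_iff_not_dvd).2 (not_dvd_two2 (hp.pp i))
        · unfold DD
          rw [IsCoprime.prod_right_iff]
          intro j hj
          exact (hp.pp i).cop (hp.pp j) fun h => (Finset.mem_erase.1 hj).1 (hp.inj h).symm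
      have hdm : d ∣ m := by
        have h1 : d ∣ pr i * m := by
          have e : pr i * m = cn4 pr V * ⟨1, 1⟩ := by
            unfold cn4
            have e5 : two2 = 2 * ⟨1, 1⟩ := by decide
            rw [hDi, hm, e5]
            ring
          rw [e]; exact hd.mul_right _
        have h2 : IsCoprime d (pr i) :=
          (((hp.pp i).pr.irreducible.coprime_iff_not_dvd).2 hid).symm
        exact h2.dvd_of_dvd_mul_left h1
      -- an element with symbol of exact order
      obtain ⟨b, hb⟩ : ∃ b, ¬ pr i ∣ b ∧ q4 (pr i) b ^ e i ≠ 1 := by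
        obtain ⟨b, hb⟩ := exists_nonres (hp.pp i)
        have hbn : ¬ pr i ∣ b := by
          intro h
          rw [qr_zero_iff.2 h] at hb
          norm_num at hb
        have h5 := q4_sq (hp.pp i) b
        rw [hb] at h5
        refine ⟨b, hbn, ?_⟩
        have h6 := q4_norm (hp.pp i) hbn
        have h7 : ((-1 : ℤ) : ZI) = -1 := by simp
        rw [h7] at h5
        have h8 := he i hi
        rw [unit_pow_mod h6 (n := e i % 4) (by omega)]
        have h9 : e i % 4 = 1 ∨ e i % 4 = 2 ∨ e i % 4 = 3 := by omega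
        rcases h9 with h9 | h9 | h9 <;> rw [h9]
        · intro h10
          rw [pow_one] at h10
          rw [h10] at h5
          exact absurd h5 (by decide)
        · rw [h5]; decide
        · intro h10
          have h11 : q4 (pr i) b = -1 := by
            linear_combination -h10 + q4 (pr i) b * h5
          rw [h11] at h5
          exact absurd h5 (by decide)
      obtain ⟨x, y, hxy⟩ := hcop
      set a : ZI := x * pr i + b * (y * m) with ha
      have ha1 : m ∣ a - 1 := ⟨b * y - y, by rw [ha]; linear_combination hxy⟩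
      have ha2 : pr i ∣ a - b := ⟨x - b * x, by rw [ha]; linear_combination b * hxy⟩
      have hpa : prim a := by
        rw [prim_iff_dvd]
        exact (dvd_mul_right _ _).trans ha1
      have hch : c4 pr V e a = q4 (pr i) b ^ e i := by
        unfold c4
        rw [← Finset.mul_prod_erase V _ hi, fe_per (hp.pp i) _ ha2, Finset.prod_eq_one, mul_one]
        · unfold fe
          rw [if_neg hb.1]
        · intro j hj
          have h3 : pr j ∣ a - 1 := by
            refine (dvd_DD hj).trans ((dvd_mul_left _ _).trans ha1)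
          rw [fe_per (hp.pp j) _ h3, fe_unit (hp.pp j) _ (by decide), one_pow]
      have hnz : ∀ j ∈ V, ¬ pr j ∣ a := by
        intro j hj hd'
        have h5 := c4_zero (pr := pr) e hj hd'
        rw [hch] at h5
        have h6 := q4_norm (hp.pp i) hb.1
        have h7 : q4 (pr i) b = 0 := by
          by_contra h8
          exact (pow_ne_zero _ h8) h5
        rw [h7] at h6
        exact absurd h6 (by decide)
      refine ⟨a, ?_, hdm.trans ha1, ?_⟩
      · rw [cop_cn4 hp V]
        exact ⟨prim_norm_odd hpa, hnz⟩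
      · rw [XX4_prim hp V e hpa, hch]
        intro h5
        apply hb.2
        apply tc_inj
        rw [tc_one]
        have := congrArg (starRingEnd ℂ) h5
        rwa [Complex.conj_conj, map_one] at this
    · push Not at hB
      have hD1 : DD pr V ∣ d := by
        unfold DD
        refine Finset.prod_dvd_of_coprime ?_ hB
        intro i _ j _ hij
        exact (hp.pp i).cop (hp.pp j) fun h => hij (hp.inj h)
      obtain ⟨f, hf⟩ := hD1
      have he2 : f ∣ 2 := by
        unfold cn4 at hd
        rw [hf, mul_comm 2] at hd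
        exact (mul_dvd_mul_iff_left (DD_ne hp V)).1 hd
      have he3 : ¬ (2 : ZI) ∣ f := by
        intro h
        apply hnd
        unfold cn4
        rw [hf, mul_comm 2]
        exact mul_dvd_mul_left _ h
      have he4 : f ∣ pi1 := by
        rw [two_eq_pi] at he2
        have hu : IsUnit (⟨0, -1⟩ : ZI) := IsUnit.of_mul_eq_one ⟨0, 1⟩ (by decide)
        have he5 : f ∣ pi1 ^ 2 := (hu.dvd_mul_right).1 he2
        obtain ⟨k, hk, hk2⟩ := (dvd_prime_pow pi1_prime 2).1 he5
        have hk3 : k ≠ 2 := by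
          rintro rfl
          apply he3
          rw [two_eq_pi]
          exact (hu.mul_right_dvd).2 hk2.symm.dvd
        have hk4 : pi1 ^ k ∣ pi1 ^ 1 := pow_dvd_pow _ (by omega)
        rw [pow_one] at hk4
        exact hk2.dvd.trans hk4
      have hDp := DD_prim hp V
      -- an element which is one modulo `D` and `i` modulo two
      set D := DD pr V with hD
      set a : ZI := 1 + pi1 * D with ha
      have haD : D ∣ a - 1 := ⟨pi1, by rw [ha]; ring⟩
      have hUm : Um a im1 ∨ Um a (-im1) := by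
        obtain ⟨h1, h2⟩ := hDp
        have q1 : (im1 * a).re = -a.im := by
          rw [re_mul']
          simp [im1]
        have q2 : (im1 * a).im = a.re := by
          rw [im_mul']
          simp [im1]
        have q3 : a.re = 1 + D.re - D.im := by
          rw [ha]
          simp only [Zsqrtd.re_add, re_mul', pi1, Zsqrtd.re_one]
          ring
        have q4 : a.im = D.re + D.im := by
          rw [ha]
          simp only [Zsqrtd.im_add, im_mul', pi1, Zsqrtd.im_one]
          ring
        have hor : ((im1 * a).im % 2 = 0 ∧ ((im1 * a).re + (im1 * a).im) % 4 = 1) ∨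
            ((-im1 * a).im % 2 = 0 ∧ ((-im1 * a).re + (-im1 * a).im) % 4 = 1) := by
          rw [neg_mul, Zsqrtd.re_neg, Zsqrtd.im_neg, q1, q2, q3, q4]
          omega
        rcases hor with h | h
        · left; exact ⟨by decide, h⟩
        · right; exact ⟨by decide, h⟩
      have hX : XX4 hp V e a = -1 := by
        have hgen : ∀ u : ZI, Um a u → u ^ 2 = -1 → XX4 hp V e a = -1 := by
          intro u hu hu2
          rw [XX4_apply, un_eq hu]
          have h3 : c4 pr V e (u * a) = u ^ 3 := by
            have h4 : c4 pr V e (u * a) = c4 pr V e u := by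
              apply c4_per hp
              have e5 : u * a - u = D * (u * pi1) := by rw [ha]; ring
              rw [e5]
              exact dvd_mul_right _ _
            rw [h4, c4_unit hp V e hu.1, unit_pow_mod hu.1 (n := 3) (by rw [hW])]
          rw [h3, ← star_unit hu.1, tc_star, Complex.conj_conj, ← tc_mul, ← sq, hu2, tc_neg, tc_one]
        rcases hUm with h | h
        · exact hgen _ h (by decide)
        · exact hgen _ h (by decide)
      refine ⟨a, ?_, ?_, ?_⟩
      · rw [cop_cn4 hp V]
        refine ⟨by rcases hUm with h | h <;> exact h.odd, fun j hj hd' => ?_⟩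
        have h4 : pr j ∣ a - 1 := (dvd_DD hj).trans haD
        have h5 := dvd_sub hd' h4
        rw [sub_sub_cancel] at h5
        exact (hp.pp j).pr.not_isUnit (isUnit_of_dvd_one h5)
      · obtain ⟨g, hg⟩ := he4
        rw [hf]
        exact ⟨g, by rw [ha]; linear_combination D * hg⟩
      · rw [hX]
        norm_num

end Pool.Agent.Y699
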