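import Pool.Agent.Y699.Min

/-!
Minimal models of the curves `y² = x³ + D x`.
-/

set_option autoImplicit false
set_option linter.unusedSimpArgs false

open NumberField IsDedekindDomain

namespace Pool.Agent.Y699

open H385 (ZI RQ im1 nrm)
open Pool.Agent.W164.RC (tc_mul tc_star two2 prim_iff_dvd unit_norm unit_cases)
open Pool.Agent.H304R2.EC.A1 (prim prim_mul prim_cancel prim_one prim_norm_odd prim_star eq_one_of_prim
  norm_def' re_mul' im_mul' eq_of_dvd prim_ne_zero exists_prim)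

/-- the curve `y² = x³ + d x` -/
def cr4 {R : Type*} [CommRing R] (d : R) : WeierstrassCurve R := ⟨0, 0, 0, d, 0⟩

lemma cr4_Δ {R : Type*} [CommRing R] (d : R) : (cr4 d).Δ = -64 * d ^ 3 := by
  unfold cr4
  simp only [WeierstrassCurve.Δ, WeierstrassCurve.b₂, WeierstrassCurve.b₄, WeierstrassCurve.b₆,
    WeierstrassCurve.b₈]
  ring

lemma cr4_c4 {R : Type*} [CommRing R] (d : R) : (cr4 d).c₄ = -48 * d := by
  unfold cr4
  simp only [WeierstrassCurve.c₄, WeierstrassCurve.b₂, WeierstrassCurve.b₄]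
  ring

lemma cr4_c6 {R : Type*} [CommRing R] (d : R) : (cr4 d).c₆ = 0 := by
  unfold cr4
  simp only [WeierstrassCurve.c₆, WeierstrassCurve.b₂, WeierstrassCurve.b₄, WeierstrassCurve.b₆]
  ring

lemma cr4_map {R S : Type*} [CommRing R] [CommRing S] (f : R →+* S) (d : R) :
    (cr4 d).map f = cr4 (f d) := by
  unfold cr4 WeierstrassCurve.map
  simp

lemma im1_sq' : im1 * im1 = (-1 : ZI) := by decide

lemma odd_iff (x : ZI) : ¬ pi1 ∣ x ↔ (x.re + x.im) % 2 = 1 := by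
  rw [← norm_odd_iff, norm_def']
  have h1 : x.re ^ 2 % 2 = x.re % 2 := by
    rcases Int.emod_two_eq_zero_or_one x.re with h | h <;> rw [sq, Int.mul_emod, h] <;> norm_num
  have h2 : x.im ^ 2 % 2 = x.im % 2 := by
    rcases Int.emod_two_eq_zero_or_one x.im with h | h <;> rw [sq, Int.mul_emod, h] <;> norm_num
  omega

/-- squares of odd elements -/
lemma sq_odd {x : ZI} (hx : ¬ pi1 ∣ x) : ∃ (s : ℤ) (y : ZI), (s = 1 ∨ s = -1) ∧ x ^ 2 = (s : ZI) + 4 * y := by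
  rw [odd_iff] at hx
  rcases Int.emod_two_eq_zero_or_one x.re with h | h
  · obtain ⟨a, ha⟩ : ∃ a, x.re = 2 * a := ⟨x.re / 2, by omega⟩
    obtain ⟨b, hb⟩ : ∃ b, x.im = 2 * b + 1 := ⟨x.im / 2, by omega⟩
    refine ⟨-1, ⟨a ^ 2 - b ^ 2 - b, a * (2 * b + 1)⟩, Or.inr rfl, ?_⟩
    ext
    · rw [sq, re_mul', ha, hb]
      simp only [Zsqrtd.re_add, Zsqrtd.re_intCast, re_mul']
      have e1 : (4 : ZI).re = 4 := rfl
      have e2 : (4 : ZI).im = 0 := rfl
      rw [e1, e2]; ring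
    · rw [sq, im_mul', ha, hb]
      simp only [Zsqrtd.im_add, Zsqrtd.im_intCast, im_mul']
      have e1 : (4 : ZI).re = 4 := rfl
      have e2 : (4 : ZI).im = 0 := rfl
      rw [e1, e2]; ring
  · obtain ⟨a, ha⟩ : ∃ a, x.re = 2 * a + 1 := ⟨x.re / 2, by omega⟩
    obtain ⟨b, hb⟩ : ∃ b, x.im = 2 * b := ⟨x.im / 2, by omega⟩
    refine ⟨1, ⟨a ^ 2 + a - b ^ 2, b * (2 * a + 1)⟩, Or.inl rfl, ?_⟩
    ext
    · rw [sq, re_mul', ha, hb]
      simp only [Zsqrtd.re_add, Zsqrtd.re_intCast, re_mul']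
      have e1 : (4 : ZI).re = 4 := rfl
      have e2 : (4 : ZI).im = 0 := rfl
      rw [e1, e2]; ring
    · rw [sq, im_mul', ha, hb]
      simp only [Zsqrtd.im_add, Zsqrtd.im_intCast, im_mul']
      have e1 : (4 : ZI).re = 4 := rfl
      have e2 : (4 : ZI).im = 0 := rfl
      rw [e1, e2]; ring

/-- fourth powers of odd elements modulo eight -/
lemma four_odd {x : ZI} (hx : ¬ pi1 ∣ x) : ∃ y : ZI, x ^ 4 = 1 + 8 * y := by
  obtain ⟨s, y, hs, h⟩ := sq_odd hx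
  refine ⟨(s : ZI) * y + 2 * y ^ 2, ?_⟩
  have e : x ^ 4 = (x ^ 2) ^ 2 := by ring
  rw [e, h]
  rcases hs with rfl | rfl <;> push_cast <;> ring

/-- the key computation -/
lemma key_mod {D g a2 a3 a4 a6 k1 k2 : ZI} (hg : ¬ pi1 ∣ g) (ha : ¬ pi1 ∣ a3) (hD : D.im % 2 = 0)
    (hDr : D.re % 2 = 1)
    (h1 : (g ^ 2 - 2 * im1 * a2) ^ 2 + 6 * (2 * a4 + pi1 * g * a3) + 3 * D = 8 * k1)
    (h2 : (g ^ 2 - 2 * im1 * a2) * (D - (2 * a4 + pi1 * g * a3)) - im1 * (a3 ^ 2 + 4 * a6) = 4 * k2) :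
    D.re % 8 = 7 := by
  obtain ⟨s, x, hs, hx⟩ := sq_odd hg
  obtain ⟨t, y, ht, hy⟩ := sq_odd ha
  -- the product
  have hh : ¬ pi1 ∣ g * a3 := fun h => (pi1_prime.dvd_or_dvd h).elim hg ha
  set h : ZI := g * a3 with hhdef
  have hho := (odd_iff h).1 hh
  -- `D - pi1 h = i + 2 w`
  obtain ⟨w, hw⟩ : ∃ w : ZI, D - pi1 * h = im1 + 2 * w := by
    refine ⟨⟨(D.re - (h.re - h.im)) / 2, (D.im - (h.re + h.im) - 1) / 2⟩, ?_⟩
    have e1 : (2 : ZI).re = 2 := rfl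
    have e2 : (2 : ZI).im = 0 := rfl
    ext
    · simp only [Zsqrtd.re_sub, Zsqrtd.re_add, re_mul', e1, e2, pi1, im1]
      omega
    · simp only [Zsqrtd.im_sub, Zsqrtd.im_add, im_mul', e1, e2, pi1, im1]
      omega
  have e3 : pi1 * g * a3 = pi1 * h := by rw [hhdef]; ring
  rw [e3] at h1 h2
  rw [hx] at h1 h2
  rw [hy] at h2
  obtain ⟨K, hK⟩ : ∃ K : ZI, 5 * D + 1 - 4 * im1 * (s : ZI) * a2 - 4 * a2 ^ 2 + 4 * (s : ZI) * a2 +
      4 * pi1 * h - 2 * im1 * (s : ZI) * (t : ZI) = 8 * K := by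
    have hs2 : (s : ZI) ^ 2 = 1 := by rcases hs with rfl | rfl <;> norm_num
    refine ⟨k1 - (s : ZI) * x + 2 * im1 * a2 * x - 2 * x ^ 2 - a4 -
      (-im1 * (s : ZI) * a2 * (w - a4) + (s : ZI) * x * (im1 + 2 * w - 2 * a4) -
      im1 * (s : ZI) * (y + a6) - (s : ZI) * k2), ?_⟩
    have hD' : D = pi1 * h + im1 + 2 * w := by linear_combination hw
    rw [hD'] at h1 h2 ⊢
    linear_combination h1 + 2 * (s : ZI) * h2 - (4 * a2 ^ 2 - 4 * (s : ZI) * a2) * im1_sq' -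
      (1 + 2 * (im1 + 2 * w - 2 * a4)) * hs2
  have hre := congrArg Zsqrtd.re hK
  obtain ⟨p, q⟩ := a2
  have e1 : (5 : ZI).re = 5 := rfl
  have e2 : (5 : ZI).im = 0 := rfl
  have e4 : (4 : ZI).re = 4 := rfl
  have e5 : (4 : ZI).im = 0 := rfl
  have e6 : (8 : ZI).re = 8 := rfl
  have e7 : (8 : ZI).im = 0 := rfl
  have e8 : (2 : ZI).re = 2 := rfl
  have e9 : (2 : ZI).im = 0 := rfl
  simp only [Zsqrtd.re_sub, Zsqrtd.re_add, re_mul', im_mul', e1, e2, e4, e5, e6, e7, e8, e9, pi1, im1,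
    Zsqrtd.re_one, Zsqrtd.im_one, Zsqrtd.re_intCast, Zsqrtd.im_intCast, sq] at hre
  have hq : ∀ m : ℤ, (m * m + m) % 2 = 0 := by
    intro m
    rcases Int.emod_two_eq_zero_or_one m with h | h
    · rw [Int.add_emod, Int.mul_emod, h]; rfl
    · rw [Int.add_emod, Int.mul_emod, h]; rfl
  have q1 := hq p
  have q2 := hq q
  generalize hP : p * p = P at *
  generalize hQ : q * q = Q at *
  ring_nf at hre
  rcases hs with rfl | rfl <;> rcases ht with rfl | rfl <;> ring_nf at hre <;> omega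

/-- no model of `y² = x³ + D x` has good reduction at `1 + i` -/
lemma no_good4 {a1 a2 a3 a4 a6 m n D : ZI} (hm : ¬ pi1 ∣ m) (hn : ¬ pi1 ∣ n)
    (hD : D.im % 2 = 0) (hDr : D.re % 8 = 3)
    (h : ((a1 ^ 2 + 4 * a2) ^ 2 - 24 * (2 * a4 + a1 * a3)) * m ^ 4 = 12 * D * n ^ 4)
    (h6 : -(a1 ^ 2 + 4 * a2) ^ 3 + 36 * (a1 ^ 2 + 4 * a2) * (2 * a4 + a1 * a3) -
      216 * (a3 ^ 2 + 4 * a6) = 0) : False := by
  have hP := pi1_prime
  have hDo : ¬ pi1 ∣ D := by rw [odd_iff]; omega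
  have h1 : pi1 ∣ a1 := by
    have h2 : pi1 ∣ (a1 ^ 4) * m ^ 4 := by
      have e : a1 ^ 4 * m ^ 4 = 2 * (6 * D * n ^ 4 - (4 * a1 ^ 2 * a2 + 8 * a2 ^ 2
        - 12 * (2 * a4 + a1 * a3)) * m ^ 4) := by linear_combination h
      rw [e]
      exact pi1_two.mul_right _
    rcases hP.dvd_or_dvd h2 with h3 | h3
    · exact hP.dvd_of_dvd_pow h3
    · exact absurd (hP.dvd_of_dvd_pow h3) hm
  obtain ⟨g, rfl⟩ := h1
  have e2 : pi1 ^ 2 = 2 * im1 := by decide
  set B : ZI := g ^ 2 - 2 * im1 * a2 with hB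
  set b4 : ZI := 2 * a4 + pi1 * g * a3 with hb4
  have eb2 : (pi1 * g) ^ 2 + 4 * a2 = 2 * im1 * B := by
    rw [mul_pow, e2, hB]
    linear_combination (4 * a2) * im1_sq'
  rw [eb2] at h h6
  have h4 : (B ^ 2 + 6 * b4) * m ^ 4 = -3 * D * n ^ 4 := by
    have h5 : (-4 : ZI) * ((B ^ 2 + 6 * b4) * m ^ 4) = -4 * (-3 * D * n ^ 4) := by
      linear_combination h - (4 * B ^ 2 * m ^ 4) * im1_sq'
    exact mul_left_cancel₀ (by decide) h5
  have h6' : B ^ 3 + 9 * B * b4 + 27 * im1 * (a3 ^ 2 + 4 * a6) = 0 := by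
    have h5 : (8 * im1 : ZI) * (B ^ 3 + 9 * B * b4 + 27 * im1 * (a3 ^ 2 + 4 * a6)) = 8 * im1 * 0 := by
      linear_combination h6 + (8 * im1 * B ^ 3 + 216 * (a3 ^ 2 + 4 * a6)) * im1_sq'
    exact mul_left_cancel₀ (by decide) h5
  have h7 : B * (D * n ^ 4 - b4 * m ^ 4) = 9 * im1 * (a3 ^ 2 + 4 * a6) * m ^ 4 := by
    have h5 : (6 : ZI) * (B * (D * n ^ 4 - b4 * m ^ 4)) = 6 * (9 * im1 * (a3 ^ 2 + 4 * a6) * m ^ 4) := by
      linear_combination (2 * B) * h4 + (-2 * m ^ 4) * h6'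
    exact mul_left_cancel₀ (by decide) h5
  have odd_mul : ∀ {x y : ZI}, ¬ pi1 ∣ x → ¬ pi1 ∣ y → ¬ pi1 ∣ x * y := fun hx hy h' =>
    (hP.dvd_or_dvd h').elim hx hy
  have hm4 : ¬ pi1 ∣ m ^ 4 := fun h' => hm (hP.dvd_of_dvd_pow h')
  have hn4 : ¬ pi1 ∣ n ^ 4 := fun h' => hn (hP.dvd_of_dvd_pow h')
  have h3o : ¬ pi1 ∣ (3 : ZI) := by rw [odd_iff]; decide
  -- `g` is odd
  have hBo : ¬ pi1 ∣ B := by
    intro h'
    have h8 : pi1 ∣ (B ^ 2 + 6 * b4) * m ^ 4 := by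
      refine Dvd.dvd.mul_right ?_ _
      refine dvd_add (dvd_pow h' (by norm_num)) ?_
      have e6 : (6 : ZI) = 2 * 3 := by decide
      rw [e6, mul_assoc]
      exact pi1_two.mul_right _
    rw [h4] at h8
    have e7 : -3 * D * n ^ 4 = -(3 * D * n ^ 4) := by ring
    rw [e7, dvd_neg] at h8
    exact odd_mul (odd_mul h3o hDo) hn4 h8
  have hg : ¬ pi1 ∣ g := by
    intro h'
    apply hBo
    rw [hB]
    refine dvd_sub (dvd_pow h' (by norm_num)) ?_
    rw [mul_assoc]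
    exact pi1_two.mul_right _
  -- `a3` is odd
  have ha : ¬ pi1 ∣ a3 := by
    intro h'
    have h8 : pi1 ∣ 9 * im1 * (a3 ^ 2 + 4 * a6) * m ^ 4 := by
      refine Dvd.dvd.mul_right (Dvd.dvd.mul_left ?_ _) _
      refine dvd_add (dvd_pow h' (by norm_num)) ?_
      have e6 : (4 : ZI) = 2 * 2 := by decide
      rw [e6, mul_assoc]
      exact pi1_two.mul_right _
    rw [← h7] at h8
    rcases hP.dvd_or_dvd h8 with h9 | h9
    · exact hBo h9
    · have h10 : pi1 ∣ b4 * m ^ 4 := by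
        refine Dvd.dvd.mul_right ?_ _
        rw [hb4]
        refine dvd_add (pi1_two.mul_right _) ?_
        exact h'.mul_left _
      have h11 := dvd_add h9 h10
      rw [sub_add_cancel] at h11
      exact odd_mul hDo hn4 h11
  obtain ⟨y1, hy1⟩ := four_odd hm
  obtain ⟨y2, hy2⟩ := four_odd hn
  have k1 : B ^ 2 + 6 * b4 + 3 * D = 8 * (-3 * D * y2 - (B ^ 2 + 6 * b4) * y1) := by
    rw [hy1, hy2] at h4
    linear_combination h4
  have k2 : B * (D - b4) - im1 * (a3 ^ 2 + 4 * a6) = 4 * (2 * (im1 * (a3 ^ 2 + 4 * a6)) +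
      18 * im1 * (a3 ^ 2 + 4 * a6) * y1 - 2 * B * (D * y2 - b4 * y1)) := by
    rw [hy1, hy2] at h7
    linear_combination h7
  have := key_mod hg ha hD (by omega) k1 k2
  omega

section

variable {K : Type} [Field K] [NumberField K]

/-- the scaling factor between a minimal model and `y² = x³ + D x` is a unit -/
theorem val_u4 (e : ZI ≃+* 𝓞 K) {v : HeightOneSpectrum (𝓞 K)} {z : ZI}
    (hv : v.asIdeal = Ideal.span {e z}) (hz : z = pi1 ∨ ¬ z ∣ 2) {D : ZI} (hD : prim D)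
    (hDr : D.re % 8 = 3)
    (hsq : ∀ π : ZI, Prime π → ¬ π ^ 2 ∣ D)
    {V : WeierstrassCurve (𝓞 K)} (hmin : MinAt (cr4 (algebraMap (𝓞 K) K (e D))) v V)
    {C : WeierstrassCurve.VariableChange K}
    (hC : C • V.map (algebraMap (𝓞 K) K) = cr4 (algebraMap (𝓞 K) K (e D))) :
    v.valuation K (C.u : K) = 1 := by
  have hzp := z_prime e hv
  have hD0 : D ≠ 0 := prim_ne_zero hD
  have hinj : Function.Injective (algebraMap (𝓞 K) K) := IsFractionRing.injective (𝓞 K) K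
  have hWD : IsMd (cr4 (algebraMap (𝓞 K) K (e D))) (cr4 (e D)) :=
    ⟨1, by rw [one_smul, cr4_map]⟩
  have hΔ := congrArg WeierstrassCurve.Δ hC
  rw [WeierstrassCurve.variableChange_Δ, WeierstrassCurve.map_Δ, cr4_Δ] at hΔ
  have hc4 := congrArg WeierstrassCurve.c₄ hC
  rw [WeierstrassCurve.variableChange_c₄, WeierstrassCurve.map_c₄, cr4_c4] at hc4
  have hc6 := congrArg WeierstrassCurve.c₆ hC
  rw [WeierstrassCurve.variableChange_c₆, WeierstrassCurve.map_c₆, cr4_c6] at hc6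
  have hu0 : (C.u : K) ≠ 0 := C.u.ne_zero
  have hu' : ((C.u⁻¹ : Kˣ) : K) = (C.u : K)⁻¹ := Units.val_inv_eq_inv_val _
  rw [hu'] at hΔ hc4 hc6
  have hc6' : V.c₆ = 0 := by
    apply hinj
    rw [map_zero]
    exact (mul_eq_zero.1 hc6).resolve_left (pow_ne_zero _ (inv_ne_zero hu0))
  set u : K := (C.u : K) with hu
  have hVΔ : algebraMap (𝓞 K) K V.Δ = u ^ 12 * algebraMap (𝓞 K) K ((cr4 (e D)).Δ) := by
    rw [cr4_Δ, map_mul, map_pow, map_neg, map_ofNat, ← hΔ, ← mul_assoc, ← mul_pow,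
      mul_inv_cancel₀ hu0, one_pow, one_mul]
  have hW0 : (cr4 (e D)).Δ ≠ 0 := by
    rw [cr4_Δ]
    exact mul_ne_zero (by norm_num) (pow_ne_zero _ ((map_ne_zero_iff e e.injective).2 hD0))
  have hV0 : V.Δ ≠ 0 := by
    intro h
    rw [h, map_zero] at hVΔ
    rcases mul_eq_zero.1 hVΔ.symm with h1 | h1
    · exact hu0 (pow_eq_zero_iff (by norm_num) |>.1 h1)
    · exact hW0 (hinj (by rw [h1, map_zero]))
  -- the valuation is at least one
  have hge : 1 ≤ v.valuation K u := by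
    by_contra hlt
    push Not at hlt
    have h1 : v.intValuation V.Δ < v.intValuation (cr4 (e D)).Δ := by
      have h2 := congrArg (v.valuation K) hVΔ
      rw [map_mul, map_pow, HeightOneSpectrum.valuation_of_algebraMap,
        HeightOneSpectrum.valuation_of_algebraMap] at h2
      rw [h2]
      have h3 : v.intValuation (cr4 (e D)).Δ ≠ 0 := v.intValuation_ne_zero _ hW0
      have h4 : v.valuation K u ^ 12 < 1 := pow_lt_one₀ zero_le hlt (by norm_num)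
      exact mul_lt_of_lt_one_left (zero_lt_iff.2 h3) h4
    have h5 := v.intValuation_eq_exp_neg_multiplicity hV0
    have h6 : V.Δ ∈ v.asIdeal ^ (multiplicity v.asIdeal (Ideal.span {V.Δ})) := by
      rw [← v.intValuation_le_pow_iff_mem, h5]
    have h7 := hmin.2 _ hWD _ h6
    rw [← v.intValuation_le_pow_iff_mem, ← h5] at h7
    exact absurd h7 (not_le.2 h1)
  refine le_antisymm ?_ hge
  by_contra hlt
  push Not at hlt
  -- write `u⁻¹` as a fraction
  have h1 : v.valuation K u⁻¹ < 1 := by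
    rw [map_inv₀]
    exact inv_lt_one_of_one_lt₀ hlt
  obtain ⟨a', b', hab'⟩ := v.exists_primeCompl_mul_eq_of_integer u⁻¹ h1.le
  obtain ⟨a, rfl⟩ := e.surjective a'
  obtain ⟨b, hb⟩ := e.surjective (b' : 𝓞 K)
  have hbv : ¬ z ∣ b := by
    intro h
    have h2 := (mem_iff e hv b).2 h
    rw [hb] at h2
    exact b'.2 h2
  rw [← hb] at hab'
  have hav : z ∣ a := by
    have h2 : v.valuation K (algebraMap (𝓞 K) K (e a)) < 1 := by
      rw [← hab', map_mul]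
      refine mul_lt_one_of_lt_of_le h1 ?_
      exact v.valuation_le_one _
    rw [← mem_iff e hv]
    exact (v.valuation_lt_one_iff_mem (K := K) _).1 h2
  have hΔ' : e.symm V.Δ * a ^ 12 = -64 * D ^ 3 * b ^ 12 := by
    apply e.injective
    apply hinj
    rw [map_mul, map_mul, map_pow, map_pow, RingEquiv.apply_symm_apply, map_mul, map_mul, map_mul,
      map_mul, map_pow, map_pow, map_pow, map_pow, map_neg, map_neg, map_ofNat, map_ofNat, ← hab']
    linear_combination (algebraMap (𝓞 K) K (e b)) ^ 12 * hΔ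
  have hdvd : z ^ 12 ∣ -64 * D ^ 3 := by
    have h2 : z ^ 12 ∣ -64 * D ^ 3 * b ^ 12 := by
      rw [← hΔ']
      exact (pow_dvd_pow_of_dvd hav 12).mul_left _
    have h3 : IsCoprime (z ^ 12) (b ^ 12) :=
      (((hzp.irreducible.coprime_iff_not_dvd).2 hbv)).pow
    exact h3.dvd_of_dvd_mul_right h2
  rcases hz with hz | hz
  · subst hz
    obtain ⟨a0, rfl⟩ := hav
    have hc : e.symm V.c₄ * (pi1 * a0) ^ 4 = -48 * D * b ^ 4 := by
      apply e.injective
      apply hinj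
      have e0 : algebraMap (𝓞 K) K (e (e.symm V.c₄ * (pi1 * a0) ^ 4)) =
          algebraMap (𝓞 K) K V.c₄ * (algebraMap (𝓞 K) K (e (pi1 * a0))) ^ 4 := by
        rw [map_mul, map_mul, map_pow, map_pow, RingEquiv.apply_symm_apply]
      rw [e0, ← hab']
      simp only [map_mul, map_pow, map_neg, map_ofNat]
      linear_combination (algebraMap (𝓞 K) K (e b)) ^ 4 * hc4
    have e4 : pi1 ^ 4 = (-4 : ZI) := by decide
    have ha0 : ¬ pi1 ∣ a0 := by
      rintro ⟨a1, rfl⟩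
      have h2 : pi1 ^ 24 ∣ -64 * D ^ 3 * b ^ 12 := by
        rw [← hΔ']
        exact ⟨e.symm V.Δ * a1 ^ 12, by ring⟩
      have e5 : (64 : ZI) = -(pi1 ^ 12) := by decide
      have h3 : pi1 ^ 12 * pi1 ^ 12 ∣ pi1 ^ 12 * (D ^ 3 * b ^ 12) := by
        rw [← pow_add]
        refine (h2.trans ?_)
        rw [e5]
        exact ⟨1, by ring⟩
      have h4 := (mul_dvd_mul_iff_left (pow_ne_zero 12 pi1_prime.ne_zero)).1 h3
      have h5 : pi1 ∣ D ^ 3 * b ^ 12 := (dvd_pow_self _ (by norm_num)).trans h4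
      rcases pi1_prime.dvd_or_dvd h5 with h6 | h6
      · exact pi1_prim hD (pi1_prime.dvd_of_dvd_pow h6)
      · exact hbv (pi1_prime.dvd_of_dvd_pow h6)
    have hc' : e.symm V.c₄ * a0 ^ 4 = 12 * D * b ^ 4 := by
      have h2 : (-4 : ZI) * (e.symm V.c₄ * a0 ^ 4) = -4 * (12 * D * b ^ 4) := by
        have e6 : -4 * (12 * D * b ^ 4) = -48 * D * b ^ 4 := by ring
        rw [e6, ← hc, mul_pow, e4]
        ring
      exact mul_left_cancel₀ (by decide) h2
    refine no_good4 (a1 := e.symm V.a₁) (a2 := e.symm V.a₂) (a3 := e.symm V.a₃) (a4 := e.symm V.a₄)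
      (a6 := e.symm V.a₆) ha0 hbv hD.1 hDr ?_ ?_
    · rw [← hc']
      congr 1
      unfold WeierstrassCurve.c₄ WeierstrassCurve.b₂ WeierstrassCurve.b₄
      simp only [map_sub, map_add, map_mul, map_pow, map_ofNat]
    · have h7 : e.symm V.c₆ = 0 := by rw [hc6', map_zero]
      rw [← h7]
      unfold WeierstrassCurve.c₆ WeierstrassCurve.b₂ WeierstrassCurve.b₄ WeierstrassCurve.b₆
      simp only [map_sub, map_add, map_mul, map_pow, map_ofNat, map_neg]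
  · -- odd prime
    have h2 : z ^ 12 ∣ D ^ 3 := by
      have h3 : IsCoprime (z ^ 12) (-(2 ^ 6)) :=
        (((hzp.irreducible.coprime_iff_not_dvd).2 hz).pow).neg_right
      have e5 : (-64 : ZI) = -(2 ^ 6) := by decide
      rw [e5] at hdvd
      exact h3.dvd_of_dvd_mul_left hdvd
    have h3 : z ∣ D := hzp.dvd_of_dvd_pow ((dvd_pow_self z (by norm_num)).trans h2)
    obtain ⟨D1, rfl⟩ := h3
    have h4 : z ^ 3 * z ^ 9 ∣ z ^ 3 * D1 ^ 3 := by
      rw [← pow_add, ← mul_pow]; exact h2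
    have h5 := (mul_dvd_mul_iff_left (pow_ne_zero 3 hzp.ne_zero)).1 h4
    have h6 : z ∣ D1 := hzp.dvd_of_dvd_pow ((dvd_pow_self z (by norm_num)).trans h5)
    exact hsq z hzp (by rw [sq]; exact mul_dvd_mul_left z h6)

end

end Pool.Agent.Y699
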