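import Pool.Agent.Y699.Rk
import Pool.Agent.Y699.Qc
import Pool.Agent.Y699.Qp

/-!
Two-descent on `y² = x³ + D x` over the Gaussian field.
-/

set_option autoImplicit false
set_option linter.unusedSectionVars false
set_option linter.unusedSimpArgs false

namespace Pool.Agent.Y699

open H385 (ZI RQ im1 nrm)
open Pool.Agent.W164.RC (two2 prim_iff_dvd unit_norm unit_cases)
open Pool.Agent.H304R2.EC.A1 (prim prim_mul prim_cancel prim_one prim_norm_odd prim_star eq_one_of_prim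
  norm_def' re_mul' im_mul' eq_of_dvd prim_ne_zero exists_prim)
open Av (AV Set2)

variable {F : Type} [Field F] [Algebra ZI F] [IsFractionRing ZI F]

variable {ι : Type} [DecidableEq ι] {pr : ι → ZI}

theorem decomp4 (hp : PF pr) (V : Finset ι) {x y : F} (hy : y ≠ 0)
    (hxy : y ^ 2 = x ^ 3 + algebraMap ZI F (DD pr V) * x) :
    ∃ (u : ZI) (S : Finset ι) (f b Y : ZI), u.norm = 1 ∧ S ⊆ V ∧ IsCoprime f b ∧ f ≠ 0 ∧ b ≠ 0 ∧
      x = algebraMap ZI F (u * DD pr S) * (algebraMap ZI F f / algebraMap ZI F b) ^ 2 ∧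
      Y ^ 2 = u * (u ^ 2 * DD pr S * f ^ 4 + DD pr (V \ S) * b ^ 4) := by
  classical
  have hx : x ≠ 0 := by
    rintro rfl
    apply hy
    have : y ^ 2 = 0 := by rw [hxy]; ring
    exact pow_eq_zero_iff (by norm_num) |>.1 this
  obtain ⟨a, m, hm, hxa⟩ := IsFractionRing.div_surjective (A := ZI) x
  have hm0 : m ≠ 0 := nonZeroDivisors.ne_zero hm
  have ha0 : a ≠ 0 := by
    rintro rfl
    apply hx
    rw [← hxa, map_zero, zero_div]
  have hc0 : a * m ≠ 0 := mul_ne_zero ha0 hm0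
  obtain ⟨d, h, hdh, hd⟩ := sqf_decomp _ (a * m) hc0 le_rfl
  have hh0 : h ≠ 0 := by
    rintro rfl
    apply hc0
    rw [hdh]; ring
  have hd0 : d ≠ 0 := hd.ne_zero
  obtain ⟨f, b', hfb, hfb'⟩ := IsFractionRing.exists_reduced_fraction (A := ZI)
    (algebraMap ZI F h / algebraMap ZI F m)
  set b : ZI := (b' : ZI) with hb
  have hb0 : b ≠ 0 := nonZeroDivisors.ne_zero b'.2
  have hw : algebraMap ZI F h / algebraMap ZI F m = algebraMap ZI F f / algebraMap ZI F b := by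
    rw [← hfb', IsFractionRing.mk'_eq_div]
  have hcop : IsCoprime f b := hfb.isCoprime
  have hAm := A_ne (F := F) hm0
  have hAb := A_ne (F := F) hb0
  have hAh := A_ne (F := F) hh0
  have hf0 : f ≠ 0 := by
    rintro rfl
    rw [map_zero, zero_div] at hw
    exact (div_ne_zero hAh hAm) hw
  have hAf := A_ne (F := F) hf0
  have hxd : x = algebraMap ZI F d * (algebraMap ZI F f / algebraMap ZI F b) ^ 2 := by
    rw [← hw, ← hxa]
    have h1 := congrArg (algebraMap ZI F) hdh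
    rw [map_mul, map_mul, map_pow] at h1
    field_simp
    linear_combination h1
  -- the integral equation
  obtain ⟨Y, hY⟩ : ∃ Y : ZI, Y ^ 2 = d * (d ^ 2 * f ^ 4 + DD pr V * b ^ 4) := by
    have h1 : (y * (algebraMap ZI F b) ^ 3 / algebraMap ZI F f) ^ 2 =
        algebraMap ZI F (d * (d ^ 2 * f ^ 4 + DD pr V * b ^ 4)) := by
      rw [div_pow, mul_pow, hxy, hxd]
      simp only [map_mul, map_add, map_pow]
      field_simp
    obtain ⟨Y, hY⟩ := sq_int h1
    refine ⟨Y, ?_⟩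
    apply A_inj (F := F)
    rw [map_pow, hY, h1]
  have hprime : ∀ ρ : ZI, Prime ρ → ρ ∣ d → ρ ∣ DD pr V := by
    intro ρ hρ hρd
    by_contra hρD
    obtain ⟨d', hd'⟩ := hρd
    have hnd : ¬ ρ ∣ d' := by
      rintro ⟨e, he⟩
      exact hρ.not_isUnit (hd ρ ⟨e, by rw [hd', he]; ring⟩)
    have h1 : ρ ∣ Y := by
      apply hρ.dvd_of_dvd_pow (n := 2)
      rw [hY, hd']
      exact (dvd_mul_right _ _).mul_right _
    obtain ⟨Y1, hY1⟩ := h1
    have h2 : ρ * Y1 ^ 2 = d' * (d ^ 2 * f ^ 4 + DD pr V * b ^ 4) := by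
      apply mul_left_cancel₀ hρ.ne_zero
      have : ρ * (d' * (d ^ 2 * f ^ 4 + DD pr V * b ^ 4)) = Y ^ 2 := by rw [hY, hd']; ring
      rw [this, hY1]
      ring
    have h3 : ρ ∣ b := by
      have h4 : ρ ∣ d' * (d ^ 2 * f ^ 4 + DD pr V * b ^ 4) := by rw [← h2]; exact dvd_mul_right _ _
      have h5 := (hρ.dvd_or_dvd h4).resolve_left hnd
      have h6 : ρ ∣ DD pr V * b ^ 4 := by
        have h7 : ρ ∣ d ^ 2 * f ^ 4 := by
          rw [hd']
          exact (dvd_pow (dvd_mul_right ρ d') (by norm_num)).mul_right _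
        have h8 := dvd_sub h5 h7
        rwa [add_sub_cancel_left] at h8
      rcases hρ.dvd_or_dvd h6 with h7 | h7
      · exact absurd h7 hρD
      · exact hρ.dvd_of_dvd_pow h7
    obtain ⟨b1, hb1⟩ := h3
    have hnf : ¬ ρ ∣ f := by
      intro h4
      exact hρ.not_isUnit (hcop.isUnit_of_dvd' h4 ⟨b1, hb1⟩)
    have h4 : Y1 ^ 2 = ρ * (d' * (d' ^ 2 * f ^ 4 + ρ ^ 2 * (DD pr V * b1 ^ 4))) := by
      apply mul_left_cancel₀ hρ.ne_zero
      rw [h2, hd', hb1]
      ring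
    have h5 : ρ ∣ Y1 := hρ.dvd_of_dvd_pow (n := 2) (by rw [h4]; exact dvd_mul_right _ _)
    obtain ⟨Y2, hY2⟩ := h5
    have h6 : ρ ∣ d' * (d' ^ 2 * f ^ 4 + ρ ^ 2 * (DD pr V * b1 ^ 4)) := by
      refine ⟨Y2 ^ 2, ?_⟩
      apply mul_left_cancel₀ hρ.ne_zero
      rw [← h4, hY2]
      ring
    have h7 := (hρ.dvd_or_dvd h6).resolve_left hnd
    have h8 : ρ ∣ d' ^ 2 * f ^ 4 := by
      have h9 : ρ ∣ ρ ^ 2 * (DD pr V * b1 ^ 4) := (dvd_pow_self ρ (by norm_num)).mul_right _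
      have := dvd_sub h7 h9
      rwa [add_sub_cancel_right] at this
    rcases hρ.dvd_or_dvd h8 with h9 | h9
    · exact hnd (hρ.dvd_of_dvd_pow h9)
    · exact hnf (hρ.dvd_of_dvd_pow h9)
  -- the set of primes
  set S := V.filter (fun i => pr i ∣ d) with hS
  have hSV : S ⊆ V := Finset.filter_subset _ _
  have hSd : DD pr S ∣ d := by
    unfold DD
    refine Finset.prod_dvd_of_coprime ?_ ?_
    · intro i _ j _ hij
      exact (hp.pp i).cop (hp.pp j) fun h => hij (hp.inj h)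
    · intro i hi
      exact (Finset.mem_filter.1 hi).2
  obtain ⟨u, hu⟩ := hSd
  have huu : IsUnit u := by
    by_contra hnu
    have hu0 : u ≠ 0 := by
      rintro rfl
      exact hd0 (by rw [hu, mul_zero])
    obtain ⟨ρ, hρ, hρu⟩ := WfDvdMonoid.exists_irreducible_factor hnu hu0
    have hρ' : Prime ρ := irreducible_iff_prime.1 hρ
    have h1 : ρ ∣ d := by rw [hu]; exact hρu.mul_left _
    have h2 := hprime ρ hρ' h1
    unfold DD at h2
    obtain ⟨i, hi, hρi⟩ := (hρ'.dvd_finsetProd_iff _).1 h2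
    have h3 : pr i ∣ ρ := by
      obtain ⟨c, hc⟩ := hρi
      rcases (hp.pp i).pr.irreducible.isUnit_or_isUnit hc with h4 | h4
      · exact absurd h4 hρ'.not_isUnit
      · obtain ⟨c', hc'⟩ := h4.exists_right_inv
        exact ⟨c', by rw [hc, mul_assoc, hc', mul_one]⟩
    have h4 : i ∈ S := Finset.mem_filter.2 ⟨hi, h3.trans h1⟩
    have h5 : pr i * pr i ∣ d := by
      rw [hu]
      refine mul_dvd_mul ?_ (h3.trans hρu)
      unfold DD
      exact Finset.dvd_prod_of_mem _ h4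
    exact (hp.pp i).pr.not_isUnit (hd _ h5)
  have hun : u.norm = 1 := by
    obtain ⟨e, rfl⟩ := huu
    exact unit_norm e
  have hDV : DD pr V = DD pr S * DD pr (V \ S) := by
    unfold DD
    rw [mul_comm]
    exact (Finset.prod_sdiff hSV).symm
  have hP0 : DD pr S ≠ 0 := by
    rintro h
    exact hd0 (by rw [hu, h, zero_mul])
  have hPsq : Squarefree (DD pr S) := hd.squarefree_of_dvd ⟨u, hu⟩
  have e1 : Y ^ 2 = DD pr S ^ 2 * (u * (u ^ 2 * DD pr S * f ^ 4 + DD pr (V \ S) * b ^ 4)) := by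
    rw [hY, hDV, hu]; ring
  have h1 : DD pr S ∣ Y := by
    rw [← hPsq.dvd_pow_iff_dvd (n := 2) (by norm_num), e1]
    exact (dvd_pow_self _ (by norm_num)).mul_right _
  obtain ⟨Y1, hY1⟩ := h1
  refine ⟨u, S, f, b, Y1, hun, hSV, hcop, hf0, hb0, ?_, ?_⟩
  · rw [hxd, hu, mul_comm u]
  · apply mul_left_cancel₀ (pow_ne_zero 2 hP0)
    rw [← e1, hY1]
    ring

variable [Fintype ι]

/-- the local conditions -/
theorem local_cond4 (hp : PF pr) (V : Finset ι) {u : ZI} {S : Finset ι} {f b Y : ZI} (hu : u.norm = 1)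
    (hSV : S ⊆ V) (hcop : IsCoprime f b)
    (hE : Y ^ 2 = u * (u ^ 2 * DD pr S * f ^ 4 + DD pr (V \ S) * b ^ 4)) {j : ι} (hj : j ∈ V) :
    (j ∉ S → qr (pr j) u * qr (pr j) (DD pr S) = 1) ∧
    (j ∈ S → qr (pr j) u * qr (pr j) (DD pr (V \ S)) = 1) := by
  have hπ := hp.pp j
  have hP := hπ.pr
  have hdvd : ∀ T : Finset ι, j ∉ T → ¬ pr j ∣ DD pr T := by
    intro T hT h
    unfold DD at h
    obtain ⟨i, hi, hji⟩ := (hP.dvd_finsetProd_iff _).1 h
    exact not_dvd_of_ne hp (fun h' => hT (by rw [h']; exact hi)) hji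
  have hnu : ¬ pr j ∣ u := not_dvd_unit hπ hu
  have hmul : ∀ T : Finset ι, j ∈ T → ∃ c, DD pr T = pr j * c ∧ ¬ pr j ∣ c := by
    intro T hT
    refine ⟨DD pr (T.erase j), ?_, hdvd _ (Finset.notMem_erase _ _)⟩
    unfold DD
    exact (Finset.mul_prod_erase _ pr hT).symm
  constructor
  · intro hjS
    have hnP := hdvd S hjS
    obtain ⟨c, hc, hnc⟩ := hmul (V \ S) (Finset.mem_sdiff.2 ⟨hj, hjS⟩)
    have hf : ¬ pr j ∣ f := by
      rintro ⟨f1, hf1⟩
      have hnb : ¬ pr j ∣ b := fun h => hP.not_isUnit (hcop.isUnit_of_dvd' ⟨f1, hf1⟩ h)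
      have h1 : pr j ∣ Y := by
        apply hP.dvd_of_dvd_pow (n := 2)
        rw [hE, hf1, hc]
        exact ⟨u * (u ^ 2 * DD pr S * (pr j ^ 3 * f1 ^ 4) + c * b ^ 4), by ring⟩
      obtain ⟨Y1, hY1⟩ := h1
      have h2 : pr j ∣ u * (c * b ^ 4) := by
        refine ⟨Y1 ^ 2 - u * (u ^ 2 * DD pr S * (pr j ^ 2 * f1 ^ 4)), ?_⟩
        apply mul_left_cancel₀ hP.ne_zero
        rw [hY1, hf1, hc] at hE
        linear_combination -hE
      rcases hP.dvd_or_dvd h2 with h3 | h3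
      · exact hnu h3
      · rcases hP.dvd_or_dvd h3 with h4 | h4
        · exact hnc h4
        · exact hnb (hP.dvd_of_dvd_pow h4)
    have h3 : pr j ∣ Y ^ 2 - u * DD pr S * (u * f ^ 2) ^ 2 := by
      rw [hE, hc]
      exact ⟨u * (c * b ^ 4), by ring⟩
    have h4 : ¬ pr j ∣ u * f ^ 2 := by
      intro h
      rcases hP.dvd_or_dvd h with h5 | h5
      · exact hnu h5
      · exact hf (hP.dvd_of_dvd_pow h5)
    have h5 := qr_per h3
    rw [qr_mul hπ, qr_mul hπ, qr_sq' hπ h4, mul_one] at h5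
    have h6 : ¬ pr j ∣ Y := by
      intro h
      have h7 : qr (pr j) (Y ^ 2) = 0 := qr_zero_iff.2 (dvd_pow h (by norm_num))
      rw [h7] at h5
      rcases mul_eq_zero.1 h5.symm with h8 | h8
      · exact hnu (qr_zero_iff.1 h8)
      · exact hnP (qr_zero_iff.1 h8)
    rw [← h5]
    exact qr_sq' hπ h6
  · intro hjS
    have hnP := hdvd (V \ S) (fun h => (Finset.mem_sdiff.1 h).2 hjS)
    obtain ⟨c, hc, hnc⟩ := hmul S hjS
    have hb : ¬ pr j ∣ b := by
      rintro ⟨b1, hb1⟩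
      have hnf : ¬ pr j ∣ f := fun h => hP.not_isUnit (hcop.isUnit_of_dvd' h ⟨b1, hb1⟩)
      have h1 : pr j ∣ Y := by
        apply hP.dvd_of_dvd_pow (n := 2)
        rw [hE, hb1, hc]
        exact ⟨u * (u ^ 2 * c * f ^ 4 + DD pr (V \ S) * (pr j ^ 3 * b1 ^ 4)), by ring⟩
      obtain ⟨Y1, hY1⟩ := h1
      have h2 : pr j ∣ u * (u ^ 2 * (c * f ^ 4)) := by
        refine ⟨Y1 ^ 2 - u * (DD pr (V \ S) * (pr j ^ 2 * b1 ^ 4)), ?_⟩
        apply mul_left_cancel₀ hP.ne_zero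
        rw [hY1, hb1, hc] at hE
        linear_combination -hE
      rcases hP.dvd_or_dvd h2 with h3 | h3
      · exact hnu h3
      · rcases hP.dvd_or_dvd h3 with h4 | h4
        · exact hnu (hP.dvd_of_dvd_pow h4)
        · rcases hP.dvd_or_dvd h4 with h5 | h5
          · exact hnc h5
          · exact hnf (hP.dvd_of_dvd_pow h5)
    have h3 : pr j ∣ Y ^ 2 - u * DD pr (V \ S) * (b ^ 2) ^ 2 := by
      rw [hE, hc]
      exact ⟨u * (u ^ 2 * c * f ^ 4), by ring⟩
    have h4 : ¬ pr j ∣ b ^ 2 := fun h => hb (hP.dvd_of_dvd_pow h)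
    have h5 := qr_per h3
    rw [qr_mul hπ, qr_mul hπ, qr_sq' hπ h4, mul_one] at h5
    have h6 : ¬ pr j ∣ Y := by
      intro h
      have h7 : qr (pr j) (Y ^ 2) = 0 := qr_zero_iff.2 (dvd_pow h (by norm_num))
      rw [h7] at h5
      rcases mul_eq_zero.1 h5.symm with h8 | h8
      · exact hnu (qr_zero_iff.1 h8)
      · exact hnP (qr_zero_iff.1 h8)
    rw [← h5]
    exact qr_sq' hπ h6

theorem square_class4 (hp : PF pr) {V : Finset ι} (hw : ∑ i ∈ V, wt pr i = 1)
    (hker : ∀ z : ι → ZMod 2, (∀ v ∈ V, ∑ u ∈ V, em pr u v * (z u + z v) = 0) →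
      ∀ u ∈ V, ∀ v ∈ V, z u = z v) {x y : F} (hy : y ≠ 0)
    (hxy : y ^ 2 = x ^ 3 + algebraMap ZI F (DD pr V) * x) :
    ∃ w : F, x = w ^ 2 ∨ x = algebraMap ZI F (DD pr V) * w ^ 2 := by
  obtain ⟨u, S, f, b, Y, hu, hSV, hcop, hf0, hb0, hx, hE⟩ := decomp4 hp V hy hxy
  set z : ι → ZMod 2 := fun i => if i ∈ S then 1 else 0 with hz
  have hloc : ∀ v ∈ V, ∑ i ∈ V, em pr i v * (z i + z v) = ue u * wt pr v := by
    intro v hv
    obtain ⟨h1, h2⟩ := local_cond4 hp V hu hSV hcop hE hv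
    have hsum : ∀ a b : ZMod 2, a + b = 0 → b = a := by decide
    by_cases hvS : v ∈ S
    · have h3 := h2 hvS
      rw [qr_unit_sg hp v hu, qr_DD_sg hp (V \ S) (fun h => (Finset.mem_sdiff.1 h).2 hvS), ← sg_add] at h3
      have h4 := hsum _ _ (sg_eq_one h3)
      rw [← h4, ← Finset.sum_sdiff hSV]
      have h5 : ∑ i ∈ S, em pr i v * (z i + z v) = 0 := by
        refine Finset.sum_eq_zero fun i hi => ?_
        rw [hz]
        simp only [if_pos hi, if_pos hvS]
        have : (1 : ZMod 2) + 1 = 0 := by decide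
        rw [this, mul_zero]
      rw [h5, add_zero]
      refine Finset.sum_congr rfl fun i hi => ?_
      rw [hz]
      simp only [if_neg (Finset.mem_sdiff.1 hi).2, if_pos hvS, zero_add, mul_one]
    · have h3 := h1 hvS
      rw [qr_unit_sg hp v hu, qr_DD_sg hp S hvS, ← sg_add] at h3
      have h4 := hsum _ _ (sg_eq_one h3)
      rw [← h4, ← Finset.sum_sdiff hSV]
      have h5 : ∑ i ∈ V \ S, em pr i v * (z i + z v) = 0 := by
        refine Finset.sum_eq_zero fun i hi => ?_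
        rw [hz]
        simp only [if_neg (Finset.mem_sdiff.1 hi).2, if_neg hvS, zero_add, mul_zero]
      rw [h5, zero_add]
      refine Finset.sum_congr rfl fun i hi => ?_
      rw [hz]
      simp only [if_pos hi, if_neg hvS, add_zero, mul_one]
  have hue : ue u = 0 := by
    have h1 : ∑ v ∈ V, ∑ i ∈ V, em pr i v * (z i + z v) = ue u := by
      rw [Finset.sum_congr rfl hloc, ← Finset.mul_sum, hw, mul_one]
    rw [← h1]
    have h2 : ∑ v ∈ V, ∑ i ∈ V, em pr i v * (z i + z v) =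
        ∑ v ∈ V, ∑ i ∈ V, em pr i v * z i + ∑ v ∈ V, ∑ i ∈ V, em pr i v * z v := by
      rw [← Finset.sum_add_distrib]
      refine Finset.sum_congr rfl fun v _ => ?_
      rw [← Finset.sum_add_distrib]
      refine Finset.sum_congr rfl fun i _ => by ring
    rw [h2]
    have h3 : ∑ v ∈ V, ∑ i ∈ V, em pr i v * z v = ∑ v ∈ V, ∑ i ∈ V, em pr i v * z i := by
      rw [Finset.sum_comm]
      refine Finset.sum_congr rfl fun v _ => Finset.sum_congr rfl fun i _ => by rw [em_symm hp]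
    rw [h3]
    have : ∀ a : ZMod 2, a + a = 0 := by decide
    exact this _
  have hker' := hker z (fun v hv => by rw [hloc v hv, hue, zero_mul])
  -- the unit is a square
  obtain ⟨u0, hu0⟩ : ∃ u0 : ZI, u = u0 ^ 2 := by
    rcases unit_cases hu with h | h | h | h
    · exact ⟨1, by rw [h]; ring⟩
    · exfalso
      rw [h] at hue
      revert hue
      unfold ue
      rw [if_neg (by decide)]
      decide
    · exact ⟨im1, h⟩
    · exfalso
      rw [h] at hue
      revert hue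
      unfold ue
      rw [if_neg (by decide)]
      decide
  refine ⟨algebraMap ZI F u0 * (algebraMap ZI F f / algebraMap ZI F b), ?_⟩
  by_cases hS : S = ∅
  · left
    rw [hx, hS, hu0]
    unfold DD
    rw [Finset.prod_empty, mul_one, map_pow]
    ring
  · right
    obtain ⟨s, hs⟩ := Finset.nonempty_iff_ne_empty.2 hS
    have hSV' : S = V := by
      apply Finset.Subset.antisymm hSV
      intro i hi
      have h1 := hker' i hi s (hSV hs)
      rw [hz] at h1
      simp only [if_pos hs] at h1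
      by_contra hiS
      rw [if_neg hiS] at h1
      exact absurd h1 (by decide)
    rw [hx, hSV', hu0, map_mul, map_pow]
    ring

/-- no solutions with odd abscissa -/
lemma no_unit {x z D k : ZI} (hx : (x.re + x.im) % 2 = 1) (ha : D.re % 8 = 3) (hb : D.im % 4 = 2)
    (h : z ^ 2 = x * (x ^ 2 + D) + 8 * k) : False := by
  obtain ⟨p, q⟩ := x
  obtain ⟨r, s⟩ := z
  obtain ⟨a, b⟩ := D
  obtain ⟨k1, k2⟩ := k
  simp only at hx ha hb
  have h1 := congrArg Zsqrtd.re h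
  have h2 := congrArg Zsqrtd.im h
  have e1 : (8 : ZI).re = 8 := rfl
  have e2 : (8 : ZI).im = 0 := rfl
  simp only [sq, Zsqrtd.re_add, Zsqrtd.im_add, re_mul', im_mul', e1, e2] at h1 h2
  obtain ⟨A, hA⟩ : ∃ A, a = 8 * A + 3 := ⟨a / 8, by omega⟩
  obtain ⟨B, hB⟩ : ∃ B, b = 4 * B + 2 := ⟨b / 4, by omega⟩
  have ev : ∀ m : ℤ, ∃ c, m * m + m = 2 * c := by
    intro m
    rcases Int.even_or_odd m with ⟨c, hc⟩ | ⟨c, hc⟩
    · exact ⟨c * m + c, by rw [hc]; ring⟩
    · exact ⟨(2 * c + 1) * (c + 1), by rw [hc]; ring⟩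
  rcases Int.emod_two_eq_zero_or_one p with hp | hp
  · -- `p` even, `q` odd
    obtain ⟨P, hP⟩ : ∃ P, p = 2 * P := ⟨p / 2, by omega⟩
    obtain ⟨Q, hQ⟩ : ∃ Q, q = 2 * Q + 1 := ⟨q / 2, by omega⟩
    rw [hP, hQ, hA, hB] at h1
    have h3 : (r * r - s * s) % 4 = 2 := by
      have h4 : r * r - s * s = 4 * (2 * P ^ 3 - 6 * P * Q ^ 2 - 6 * P * Q + 4 * A * P - 2 * B * Q - B - Q - 1
        + 2 * k1) + 2 := by linear_combination h1
      omega
    rcases Int.emod_two_eq_zero_or_one r with hr | hr <;> rcases Int.emod_two_eq_zero_or_one s with hs | hs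
    · obtain ⟨R, hR⟩ : ∃ R, r = 2 * R := ⟨r / 2, by omega⟩
      obtain ⟨S, hS⟩ : ∃ S, s = 2 * S := ⟨s / 2, by omega⟩
      have : r * r - s * s = 4 * (R * R - S * S) := by rw [hR, hS]; ring
      omega
    · obtain ⟨R, hR⟩ : ∃ R, r = 2 * R := ⟨r / 2, by omega⟩
      obtain ⟨S, hS⟩ : ∃ S, s = 2 * S + 1 := ⟨s / 2, by omega⟩
      have : r * r - s * s = 4 * (R * R - S * S - S) - 1 := by rw [hR, hS]; ring
      omega
    · obtain ⟨R, hR⟩ : ∃ R, r = 2 * R + 1 := ⟨r / 2, by omega⟩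
      obtain ⟨S, hS⟩ : ∃ S, s = 2 * S := ⟨s / 2, by omega⟩
      have : r * r - s * s = 4 * (R * R + R - S * S) + 1 := by rw [hR, hS]; ring
      omega
    · obtain ⟨R, hR⟩ : ∃ R, r = 2 * R + 1 := ⟨r / 2, by omega⟩
      obtain ⟨S, hS⟩ : ∃ S, s = 2 * S + 1 := ⟨s / 2, by omega⟩
      have : r * r - s * s = 4 * (R * R + R - S * S - S) := by rw [hR, hS]; ring
      omega
  · obtain ⟨P, hP⟩ : ∃ P, p = 2 * P + 1 := ⟨p / 2, by omega⟩
    obtain ⟨Q, hQ⟩ : ∃ Q, q = 2 * Q := ⟨q / 2, by omega⟩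
    obtain ⟨c1, hc1⟩ := ev P
    obtain ⟨c2, hc2⟩ := ev Q
    rw [hP, hQ, hA, hB] at h1 h2
    have h3 : r * r - s * s = 8 * (P ^ 3 + 3 * c1 - 3 * P * Q ^ 2 - 3 * c2 + Q + 2 * A * P + A - B * Q
        + k1) + 4 := by linear_combination h1 + 12 * hc1 - 12 * hc2
    have h4 : r * s + s * r = 4 * (12 * c1 * Q + 3 * Q - 2 * Q ^ 3 + 4 * A * Q + 2 * B * P + B + P
        + 2 * k2) + 2 := by linear_combination h2 + 24 * Q * hc1
    have e3 : r * s + s * r = 2 * (r * s) := by ring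
    have h5 : (r * s) % 2 = 1 := by omega
    have h6 : r % 2 = 1 ∧ s % 2 = 1 := by
      rcases Int.emod_two_eq_zero_or_one r with hr | hr <;>
        rcases Int.emod_two_eq_zero_or_one s with hs | hs <;>
        rw [Int.mul_emod, hr, hs] at h5 <;> norm_num at h5
      exact ⟨hr, hs⟩
    obtain ⟨R, hR⟩ : ∃ R, r = 2 * R + 1 := ⟨r / 2, by omega⟩
    obtain ⟨S, hS⟩ : ∃ S, s = 2 * S + 1 := ⟨s / 2, by omega⟩
    obtain ⟨c3, hc3⟩ := ev R
    obtain ⟨c4, hc4⟩ := ev S
    have h7 : r * r - s * s = 8 * (c3 - c4) := by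
      rw [hR, hS]
      linear_combination 4 * hc3 - 4 * hc4
    omega

/-- no solutions with odd numerator and denominator -/
lemma no_unit' {a b z D : ZI} (ha : ¬ pi1 ∣ a) (hb : ¬ pi1 ∣ b) (hD : D.re % 8 = 3) (hD2 : D.im % 4 = 2)
    (h : z ^ 2 = a * b * (a ^ 2 + D * b ^ 2)) : False := by
  obtain ⟨y, hy⟩ := four_odd hb
  have hx : ¬ pi1 ∣ a * b ^ 3 := fun h' => (pi1_prime.dvd_or_dvd h').elim ha
    (fun h'' => hb (pi1_prime.dvd_of_dvd_pow h''))
  rw [odd_iff] at hx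
  refine no_unit (z := z) (k := -(a ^ 3 * b * (2 * y + 8 * y ^ 2))) hx hD hD2 ?_
  linear_combination h - a ^ 3 * b * (b ^ 4 + 1 + 8 * y) * hy

/-- a unit at two is a quotient of odd elements -/
lemma odd_quot {x : F} (hx : x ≠ 0) (h : vv F x = 0) : ∃ a b : ZI, ¬ pi1 ∣ a ∧ ¬ pi1 ∣ b ∧
    x = algebraMap ZI F a / algebraMap ZI F b := by
  have hw : v0.valuation F x = 1 := by
    unfold vv at h
    have h1 : WithZero.log (v0.valuation F x) = 0 := by omega
    rw [← WithZero.exp_log (w_ne hx), h1, WithZero.exp_zero]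
  obtain ⟨a, b, hab⟩ := v0.exists_primeCompl_mul_eq_of_integer x hw.le
  have hb : ¬ pi1 ∣ (b : ZI) := fun h => b.2 (Ideal.mem_span_singleton.2 h)
  have hb1 : v0.valuation F (algebraMap ZI F (b : ZI)) = 1 := by
    rw [IsDedekindDomain.HeightOneSpectrum.valuation_of_algebraMap,
      IsDedekindDomain.HeightOneSpectrum.intValuation_eq_one_iff]
    exact b.2
  have hb0 : (b : ZI) ≠ 0 := by
    intro h0
    exact hb (by rw [h0]; exact dvd_zero _)
  have ha : ¬ pi1 ∣ a := by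
    intro h
    have h1 : v0.valuation F (algebraMap ZI F a) < 1 := by
      rw [IsDedekindDomain.HeightOneSpectrum.valuation_lt_one_iff_mem]
      exact Ideal.mem_span_singleton.2 h
    rw [← hab, map_mul, hw, hb1, one_mul] at h1
    exact lt_irrefl _ h1
  refine ⟨a, b, ha, hb, ?_⟩
  rw [← hab, mul_div_assoc, div_self (A_ne hb0), mul_one]

/-- **there are no points outside the two-torsion** -/
theorem no_points4 (hp : PF pr) {V : Finset ι} (hw : ∑ i ∈ V, wt pr i = 1)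
    (hre : (DD pr V).re % 8 = 3) (him : (DD pr V).im % 4 = 2)
    (hker : ∀ z : ι → ZMod 2, (∀ v ∈ V, ∑ u ∈ V, em pr u v * (z u + z v) = 0) →
      ∀ u ∈ V, ∀ v ∈ V, z u = z v) {x y : F}
    (hxy : y ^ 2 = x ^ 3 + algebraMap ZI F (DD pr V) * x) : y = 0 := by
  set D : F := algebraMap ZI F (DD pr V) with hD
  have hS := set2 (F := F) (DD_prim hp V)
  rw [← hD] at hS
  set l : F := algebraMap ZI F pi1 with hl
  set j : F := algebraMap ZI F im1 with hj
  have hD0 := hS.D0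
  have hl0 := hS.l0
  have hj0 := hS.j0
  have h20 := hS.two
  have hll := hS.ll
  have hjj := hS.jj
  have hav := hS.av
  set X : Set F := {x | ∃ y : F, y ≠ 0 ∧ y ^ 2 = x ^ 3 + D * x} with hX
  have hx0 : ∀ x ∈ X, x ≠ 0 := by
    rintro x ⟨y, hy, hxy⟩ rfl
    apply hy
    have : y ^ 2 = 0 := by rw [hxy]; ring
    exact pow_eq_zero_iff (by norm_num) |>.1 this
  -- the valuation of the abscissa is not zero
  have hv0 : ∀ x ∈ X, vv F x ≠ 0 := by
    rintro x ⟨y, hy, hxy⟩ h0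
    obtain ⟨a, b, ha, hb, hab⟩ := odd_quot (hx0 x ⟨y, hy, hxy⟩) h0
    have hb0 : b ≠ 0 := by
      intro h0
      exact hb (by rw [h0]; exact dvd_zero _)
    have hAb := A_ne (F := F) hb0
    have h1 : (y * algebraMap ZI F b ^ 2) ^ 2 = algebraMap ZI F (a * b * (a ^ 2 + DD pr V * b ^ 2)) := by
      rw [mul_pow, hxy, hab]
      simp only [map_mul, map_add, map_pow]
      rw [← hD]
      field_simp
    obtain ⟨Z, hZ⟩ := sq_int h1
    refine no_unit' ha hb hre him (z := Z) ?_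
    apply A_inj (F := F)
    rw [map_pow, hZ, h1]
  -- halving when the abscissa is a square
  have hhalf : ∀ x ∈ X, ∀ w : F, x = w ^ 2 → ∃ x' ∈ X, x'^ 2 + D = l ^ 2 * x' * x := by
    rintro x hx w hxw
    have n0 := hx0 x hx
    obtain ⟨y, hy, hxy⟩ := hx
    have hw0 : w ≠ 0 := by
      rintro rfl
      apply n0
      rw [hxw]; ring
    set b : F := y / w with hb
    have hb2 : b ^ 2 = x ^ 2 + D := by
      rw [hb, div_pow, hxy, ← hxw]
      field_simp
    have hprod : (w ^ 2 + b) * (w ^ 2 - b) = -D := by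
      rw [← hxw]
      linear_combination -hb2
    have hs0 : w ^ 2 + b ≠ 0 := by
      intro h
      rw [h, zero_mul] at hprod
      exact hD0 (neg_eq_zero.1 hprod.symm)
    set x' : F := j * (w ^ 2 + b) with hx'
    have hx'0 : x' ≠ 0 := mul_ne_zero hj0 hs0
    have key : x' ^ 2 + D = l ^ 2 * x' * x := by
      rw [hx', hll, hxw]
      have hb2' : b ^ 2 = w ^ 4 + D := by rw [hb2, hxw]; ring
      linear_combination (w ^ 4 + 2 * w ^ 2 * b + b ^ 2 - 2 * w ^ 2 * (w ^ 2 + b)) * hjj - hb2'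
    refine ⟨x', ⟨l * w * x', mul_ne_zero (mul_ne_zero hl0 hw0) hx'0, ?_⟩, key⟩
    have e : x' ^ 3 + D * x' = x' * (x' ^ 2 + D) := by ring
    rw [e, key, hxw]
    ring
  -- the valuations
  have hval : ∀ x ∈ X, ∀ x' ∈ X, x' ^ 2 + D = l ^ 2 * x' * x → |vv F x| = |vv F x'| + 2 := by
    intro x hx x' hx' h
    have n0 := hx0 x hx
    have n1 := hx0 x' hx'
    have v1 := hv0 x' hx'
    have e1 : vv F (l ^ 2 * x' * x) = 2 + vv F x' + vv F x := by
      rw [hav.mul (mul_ne_zero (pow_ne_zero 2 hl0) n1) n0, hav.mul (pow_ne_zero 2 hl0) n1,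
        hav.pow hl0, hS.vl]
      norm_num
    have e2 : vv F (x' ^ 2) = 2 * vv F x' := by
      rw [hav.pow n1]; norm_num
    rw [← h] at e1
    rcases lt_or_gt_of_ne v1 with h2 | h2
    · have h3 := (hav.add_eq (pow_ne_zero 2 n1) hD0 (by rw [e2, hS.vD]; omega)).2
      rw [h3, e2] at e1
      rw [abs_of_neg h2, abs_of_neg (by omega)]
      omega
    · have h3 := (hav.add_eq hD0 (pow_ne_zero 2 n1) (by rw [e2, hS.vD]; omega)).2
      rw [add_comm, h3, hS.vD] at e1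
      rw [abs_of_pos h2, abs_of_neg (by omega)]
      omega
  have hstep : ∀ x ∈ X, ∃ x' ∈ X, |vv F x| = |vv F x'| + 2 := by
    intro x hx
    have n0 := hx0 x hx
    obtain ⟨y, hy, hxy⟩ := id hx
    obtain ⟨w, hw1 | hw1⟩ := square_class4 (F := F) hp hw hker hy hxy
    · obtain ⟨x', hx', h1⟩ := hhalf x hx w hw1
      exact ⟨x', hx', hval x hx x' hx' h1⟩
    · rw [← hD] at hw1
      have hw0 : w ≠ 0 := by
        rintro rfl
        apply n0
        rw [hw1]; ring
      have hτ : D / x ∈ X := by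
        refine ⟨D * y / x ^ 2, div_ne_zero (mul_ne_zero hD0 hy) (pow_ne_zero 2 n0), ?_⟩
        rw [div_pow, mul_pow, hxy]
        field_simp
        ring
      have hτsq : D / x = (1 / w) ^ 2 := by
        rw [hw1]
        field_simp
      obtain ⟨x', hx', h1⟩ := hhalf _ hτ _ hτsq
      refine ⟨x', hx', ?_⟩
      rw [← hval _ hτ x' hx' h1, hav.div hD0 n0, hS.vD, zero_sub, abs_neg]
  have hno : ∀ n : ℕ, ∀ x ∈ X, |vv F x| = n → False := by
    intro n
    induction n using Nat.strong_induction_on with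
    | _ n ih =>
      intro x hx hn
      obtain ⟨x', hx', h1⟩ := hstep x hx
      refine ih (n - 2) (by have := abs_nonneg (vv F x'); omega) x' hx' ?_
      have := abs_nonneg (vv F x')
      omega
  by_contra hy
  exact hno (vv F x).natAbs x ⟨y, hy, hxy⟩ (by rw [Int.abs_eq_natAbs])

end Pool.Agent.Y699
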