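import Pool.Agent.Y699.Sym

/-!
Quadratic reciprocity for primary Gaussian primes.
-/

set_option autoImplicit false

open H385 (ZI RQ im1 nrm)
open Pool.Agent.H304R2.EC.A1 (prim prim_mul prim_cancel prim_one prim_norm_odd prim_star eq_one_of_prim
  norm_def' re_mul' im_mul' eq_of_dvd prim_ne_zero)

namespace Pool.Agent.Y699

open NumberTheorySymbols

lemma jac_one {m k : ℤ} {n : ℕ} (hn : (n : ℤ) = m ^ 2 + k ^ 2) (hm : m % 2 = 1) (h4 : n % 4 = 1)
    (hg : m.gcd n = 1) : J(m | n) = 1 := by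
  have hmo : Odd m.natAbs := by
    rw [Int.natAbs_odd]
    exact Int.odd_iff.2 hm
  have h1 : J(m | n) = J((m.natAbs : ℤ) | n) := by
    rcases Int.natAbs_eq m with h | h
    · rw [← h]
    · have h2 : m = -(m.natAbs : ℤ) := h
      have h3 : J(m | n) = J(-(m.natAbs : ℤ) | n) := by rw [← h2]
      rw [h3, jacobiSym.neg _ (Nat.odd_iff.2 (by omega)), ZMod.χ₄_nat_one_mod_four h4, one_mul]
  rw [h1, ← jacobiSym.quadratic_reciprocity_one_mod_four h4 hmo]
  have h2 : J((n : ℤ) | m.natAbs) = J(k ^ 2 | m.natAbs) := by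
    apply jacobiSym.mod_left'
    rw [hn]
    have h3 : (m.natAbs : ℤ) ∣ m := Int.natAbs_dvd.2 dvd_rfl
    obtain ⟨c, hc⟩ := h3
    have h4 : m ^ 2 + k ^ 2 = k ^ 2 + (m.natAbs : ℤ) * (c * m) := by
      have : m ^ 2 = m.natAbs * c * m := by rw [← hc]; ring
      rw [this]; ring
    rw [h4, Int.add_mul_emod_self_left]
  rw [h2]
  apply jacobiSym.sq_one'
  have h5 : IsCoprime m (n : ℤ) := Int.isCoprime_iff_gcd_eq_one.2 hg
  rw [hn] at h5
  have h6 : IsCoprime m (k ^ 2) := by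
    have : m ^ 2 + k ^ 2 = k ^ 2 + m * m := by ring
    rw [this] at h5
    exact h5.of_add_mul_left_right
  have h7 : IsCoprime m k := (IsCoprime.pow_right_iff (by norm_num)).1 h6
  have h8 := Int.isCoprime_iff_gcd_eq_one.1 h7.symm
  rw [Int.gcd, Int.natAbs_natCast]
  exact h8

section deg1

variable {π : ZI} {p : ℕ}

lemma dvd_cast {q : ℕ} (hq : π ∣ (q : ZI)) {x : ℤ} (h : (q : ℤ) ∣ x) : π ∣ (x : ZI) := by
  obtain ⟨c, rfl⟩ := h
  push_cast
  exact hq.mul_right _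

lemma deg1_dvd (hp : π.norm = p) : π ∣ (p : ZI) := by
  refine ⟨star π, ?_⟩
  rw [← Zsqrtd.norm_eq_mul_conj, hp]
  push_cast
  rfl

lemma leg_cases (p : ℕ) [Fact p.Prime] (m : ℤ) :
    legendreSym p m = 0 ∨ legendreSym p m = 1 ∨ legendreSym p m = -1 := by
  by_cases h : ((m : ℤ) : ZMod p) = 0
  · exact Or.inl ((legendreSym.eq_zero_iff p m).2 h)
  · exact Or.inr (legendreSym.eq_one_or_neg_one p h)

lemma leg_dvd (p : ℕ) [Fact p.Prime] (m : ℤ) : (p : ℤ) ∣ m ^ (p / 2) - legendreSym p m := by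
  rw [← ZMod.intCast_zmod_eq_zero_iff_dvd]
  push_cast
  rw [legendreSym.eq_pow, sub_self]

lemma qr_int (h : PP π) [Fact p.Prime] (hp : π.norm = p) (m : ℤ) :
    qr π (m : ZI) = legendreSym p m := by
  refine qr_of_dvd h _ (leg_cases p m) ?_
  have h1 : nrm π = p := by
    have := nrm_cast π
    rw [hp] at this
    exact_mod_cast this
  rw [h1]
  have := dvd_cast (deg1_dvd hp) (leg_dvd p m)
  push_cast at this
  exact this

lemma re_odd (h : prim π) : π.re % 2 = 1 := by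
  obtain ⟨h1, h2⟩ := h
  omega

lemma qr_deg1 (h : PP π) [Fact p.Prime] (hp : π.norm = p) (z : ZI) :
    qr π z = legendreSym p (π.re * z.re + π.im * z.im) := by
  have hpp : p.Prime := Fact.out
  have h4 : p % 4 = 1 := by
    have := h.norm_mod
    rw [hp] at this
    omega
  have e : π ∣ ((π.re : ℤ) : ZI) * z - ((π.re * z.re + π.im * z.im : ℤ) : ZI) := by
    refine ⟨im1 * (z.im : ZI), ?_⟩
    ext
    · simp only [Zsqrtd.re_sub, re_mul', im_mul', Zsqrtd.re_intCast, Zsqrtd.im_intCast]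
      simp [im1]
    · simp only [Zsqrtd.im_sub, re_mul', im_mul', Zsqrtd.re_intCast, Zsqrtd.im_intCast]
      simp [im1]
  have h1 := qr_per e
  rw [qr_mul h, qr_int h hp, qr_int h hp] at h1
  have h2 : legendreSym p π.re = 1 := by
    rw [jacobiSym.legendreSym.to_jacobiSym]
    refine jac_one (k := π.im) ?_ (re_odd h.prm) h4 ?_
    · rw [← hp, norm_def']
    · -- coprimality
      have h5 : ¬ (p : ℤ) ∣ π.re := by
        intro hd
        have h6 : π.norm = π.re ^ 2 + π.im ^ 2 := norm_def' π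
        rw [hp] at h6
        obtain ⟨c, hc⟩ := hd
        have hp1 : (2 : ℤ) ≤ p := by exact_mod_cast hpp.two_le
        have hre : π.re ≠ 0 := by
          have := re_odd h.prm
          omega
        have hc0 : c ≠ 0 := by
          rintro rfl
          apply hre
          rw [hc, mul_zero]
        have h7 : (p : ℤ) ^ 2 ≤ π.re ^ 2 := by
          rw [hc, mul_pow]
          have : 1 ≤ c ^ 2 := by
            have := sq_nonneg c
            have h8 : c ^ 2 ≠ 0 := pow_ne_zero 2 hc0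
            omega
          nlinarith [sq_nonneg (p : ℤ)]
        nlinarith [sq_nonneg π.im]
      have h8 : IsCoprime π.re (p : ℤ) := by
        rw [isCoprime_comm]
        exact (Nat.prime_iff_prime_int.1 hpp).coprime_iff_not_dvd.2 h5
      exact Int.isCoprime_iff_gcd_eq_one.1 h8
  rw [h2, one_mul] at h1
  exact h1

end deg1

section inert

variable {q : ℕ}

lemma inert_pow [Fact q.Prime] (h3 : q % 4 = 3) (z : ZI) : (q : ZI) ∣ z ^ q - star z := by
  have hq : q.Prime := Fact.out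
  have hz : z = (z.re : ZI) + (z.im : ZI) * im1 := by
    ext
    · simp only [Zsqrtd.re_add, re_mul', Zsqrtd.re_intCast, Zsqrtd.im_intCast]
      simp [im1]
    · simp only [Zsqrtd.im_add, im_mul', Zsqrtd.re_intCast, Zsqrtd.im_intCast]
      simp [im1]
  have hs : star z = (z.re : ZI) - (z.im : ZI) * im1 := by
    ext
    · simp only [Zsqrtd.re_sub, re_mul', Zsqrtd.re_intCast, Zsqrtd.im_intCast, Zsqrtd.re_star]
      simp [im1]
    · simp only [Zsqrtd.im_sub, im_mul', Zsqrtd.re_intCast, Zsqrtd.im_intCast, Zsqrtd.im_star]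
      simp [im1]
  obtain ⟨r, hr⟩ := exists_add_pow_prime_eq hq (z.re : ZI) ((z.im : ZI) * im1)
  rw [← hz] at hr
  have hf : ∀ x : ℤ, (q : ZI) ∣ ((x : ZI)) ^ q - (x : ZI) := by
    intro x
    have h1 : (q : ℤ) ∣ x ^ q - x := by
      rw [← ZMod.intCast_zmod_eq_zero_iff_dvd]
      push_cast
      rw [ZMod.pow_card, sub_self]
    have := dvd_cast (π := (q : ZI)) dvd_rfl h1
    push_cast at this
    exact this
  have hi : (im1 : ZI) ^ q = -im1 := by
    obtain ⟨k, hk⟩ : ∃ k, q = 4 * k + 3 := ⟨q / 4, by omega⟩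
    rw [hk, pow_add, pow_mul, H385.he2_im4, one_pow, one_mul]
    decide
  rw [hr, hs, mul_pow, hi]
  have e : (z.re : ZI) ^ q + (z.im : ZI) ^ q * -im1 + (q : ZI) * (z.re : ZI) * ((z.im : ZI) * im1) * r -
      ((z.re : ZI) - (z.im : ZI) * im1) = ((z.re : ZI) ^ q - z.re) -
      ((z.im : ZI) ^ q - z.im) * im1 + (q : ZI) * ((z.re : ZI) * ((z.im : ZI) * im1) * r) := by ring
  rw [e]
  exact dvd_add (dvd_sub (hf _) ((hf _).mul_right _)) (dvd_mul_right _ _)

lemma qr_inert {ρ : ZI} (h : PP ρ) [Fact q.Prime] (h3 : q % 4 = 3) (hρ : ρ = -(q : ZI)) (z : ZI) :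
    qr ρ z = legendreSym q z.norm := by
  have hq : q.Prime := Fact.out
  refine qr_of_dvd h _ (leg_cases q _) ?_
  have h1 : nrm ρ = q * q := by
    have := nrm_cast ρ
    rw [hρ, norm_def'] at this
    simp only [Zsqrtd.re_neg, Zsqrtd.im_neg, Zsqrtd.re_natCast, Zsqrtd.im_natCast] at this
    have h2 : ((nrm ρ : ℕ) : ℤ) = ((q * q : ℕ) : ℤ) := by
      rw [hρ, this]
      push_cast
      ring
    exact_mod_cast h2
  have h2 : nrm ρ / 2 = (q + 1) * (q / 2) := by
    rw [h1]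
    obtain ⟨k, hk⟩ : ∃ k, q = 2 * k + 1 := ⟨q / 2, by omega⟩
    rw [hk]
    have e1 : (2 * k + 1) / 2 = k := by omega
    rw [e1]
    have e2 : (2 * k + 1) * (2 * k + 1) = 2 * ((2 * k + 1 + 1) * k) + 1 := by ring
    omega
  rw [h2, pow_mul]
  have h4 : (q : ZI) ∣ z ^ (q + 1) - ((z.norm : ℤ) : ZI) := by
    rw [Zsqrtd.norm_eq_mul_conj, pow_succ]
    have e : z ^ q * z - z * star z = (z ^ q - star z) * z := by ring
    rw [e]
    exact (inert_pow h3 z).mul_right _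
  have h5 : (q : ZI) ∣ (z ^ (q + 1)) ^ (q / 2) - ((z.norm : ℤ) : ZI) ^ (q / 2) :=
    h4.trans (sub_dvd_pow_sub_pow _ _ _)
  have h6 : (q : ZI) ∣ ((z.norm : ℤ) : ZI) ^ (q / 2) - (legendreSym q z.norm : ZI) := by
    have := dvd_cast (π := (q : ZI)) dvd_rfl (leg_dvd q z.norm)
    push_cast at this ⊢
    exact this
  have h7 := dvd_add h5 h6
  rw [sub_add_sub_cancel] at h7
  rw [hρ]
  exact (neg_dvd).2 h7

end inert

/-- **quadratic reciprocity** -/
theorem qr_rec {π ρ : ZI} (h1 : PP π) (h2 : PP ρ) : qr π ρ = qr ρ π := by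
  by_cases hne : π = ρ
  · rw [hne]
  have n1 : ¬ π ∣ ρ := fun h => hne (h1.eq_of_dvd h2 h)
  have n2 : ¬ ρ ∣ π := fun h => hne (h2.eq_of_dvd h1 h).symm
  have mixed : ∀ {π ρ : ZI} (_ : PP π) (_ : PP ρ) (p : ℕ) (_ : p.Prime) (_ : p % 4 = 1)
      (_ : π.norm = p) (q : ℕ) (_ : q.Prime) (_ : q % 4 = 3) (_ : ρ = -(q : ZI)),
      qr π ρ = qr ρ π := by
    intro π ρ h1 h2 p hp hp4 hpn q hq hq4 hρ
    have : Fact p.Prime := ⟨hp⟩
    have : Fact q.Prime := ⟨hq⟩
    rw [qr_inert h2 hq4 hρ, hpn]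
    conv_lhs => rw [hρ, qr_neg h1]
    have e : (q : ZI) = ((q : ℤ) : ZI) := by push_cast; rfl
    rw [e, qr_int h1 hpn, jacobiSym.legendreSym.to_jacobiSym, jacobiSym.legendreSym.to_jacobiSym]
    exact (jacobiSym.quadratic_reciprocity_one_mod_four hp4 (Nat.odd_iff.2 (by omega))).symm
  rcases h1.cases with ⟨p, hp, hp4, hpn⟩ | ⟨p, hp, hp4, hpn⟩ <;>
    rcases h2.cases with ⟨q, hq, hq4, hqn⟩ | ⟨q, hq, hq4, hqn⟩
  · have : Fact p.Prime := ⟨hp⟩
    have : Fact q.Prime := ⟨hq⟩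
    have e1 := qr_deg1 h1 hpn ρ
    have e2 := qr_deg1 h2 hqn π
    have hm : ρ.re * π.re + ρ.im * π.im = π.re * ρ.re + π.im * ρ.im := by ring
    rw [hm] at e2
    set m : ℤ := π.re * ρ.re + π.im * ρ.im with hmdef
    have g1 : qr π ρ ≠ 0 := fun h => n1 (qr_zero_iff.1 h)
    have g2 : qr ρ π ≠ 0 := fun h => n2 (qr_zero_iff.1 h)
    have hmo : m % 2 = 1 := by
      have a1 := re_odd h1.prm
      have a2 := re_odd h2.prm
      have a3 := h1.prm.1
      obtain ⟨k, hk⟩ : ∃ k, π.re = 2 * k + 1 := ⟨π.re / 2, by omega⟩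
      obtain ⟨l, hl⟩ : ∃ l, ρ.re = 2 * l + 1 := ⟨ρ.re / 2, by omega⟩
      obtain ⟨j, hj⟩ : ∃ j, π.im = 2 * j := ⟨π.im / 2, by omega⟩
      rw [hmdef, hk, hl, hj]
      ring_nf
      omega
    have hg1 : IsCoprime m (p : ℤ) := by
      rw [isCoprime_comm]
      refine (Nat.prime_iff_prime_int.1 hp).coprime_iff_not_dvd.2 fun hd => g1 ?_
      rw [e1, legendreSym.eq_zero_iff, ZMod.intCast_zmod_eq_zero_iff_dvd]
      exact hd
    have hg2 : IsCoprime m (q : ℤ) := by
      rw [isCoprime_comm]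
      refine (Nat.prime_iff_prime_int.1 hq).coprime_iff_not_dvd.2 fun hd => g2 ?_
      rw [e2, legendreSym.eq_zero_iff, ZMod.intCast_zmod_eq_zero_iff_dvd]
      exact hd
    have hj := jac_one (m := m) (k := π.re * ρ.im - π.im * ρ.re) (n := p * q) (by
        push_cast
        rw [← hpn, ← hqn, norm_def', norm_def', hmdef]
        ring) hmo (by rw [Nat.mul_mod, hp4, hq4])
        (by
          apply Int.isCoprime_iff_gcd_eq_one.1
          push_cast
          exact hg1.mul_right hg2)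
    rw [jacobiSym.mul_right' m hp.ne_zero hq.ne_zero, ← jacobiSym.legendreSym.to_jacobiSym,
      ← jacobiSym.legendreSym.to_jacobiSym, ← e1, ← e2] at hj
    rcases qr_cases n1 with h | h <;> rcases qr_cases n2 with h' | h' <;> rw [h, h'] at hj ⊢ <;>
      norm_num at hj
  · exact mixed h1 h2 p hp hp4 hpn q hq hq4 hqn
  · exact (mixed h2 h1 q hq hq4 hqn p hp hp4 hpn).symm
  · have : Fact p.Prime := ⟨hp⟩
    have : Fact q.Prime := ⟨hq⟩
    have hpq : p ≠ q := by
      rintro rfl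
      exact hne (hpn.trans hqn.symm)
    have key : ∀ {π ρ : ZI} (_ : PP π) (_ : PP ρ) (p q : ℕ) [Fact p.Prime] [Fact q.Prime]
        (_ : p % 4 = 3) (_ : p ≠ q) (_ : π = -(p : ZI)) (_ : ρ = -(q : ZI)), qr π ρ = 1 := by
      intro π ρ h1 h2 p q fp fq hp4 hpq hpn hqn
      rw [qr_inert h1 hp4 hpn, hqn, norm_def']
      simp only [Zsqrtd.re_neg, Zsqrtd.im_neg, Zsqrtd.re_natCast, Zsqrtd.im_natCast]
      have e : (-(q : ℤ)) ^ 2 + (-(0 : ℤ)) ^ 2 = (q : ℤ) ^ 2 := by ring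
      rw [e]
      apply legendreSym.sq_one'
      intro h0
      have h5 : ((q : ℕ) : ZMod p) = 0 := by
        push_cast at h0
        exact h0
      rw [ZMod.natCast_eq_zero_iff] at h5
      exact hpq ((Nat.prime_dvd_prime_iff_eq fp.out fq.out).1 h5)
    rw [key h1 h2 p q hp4 hpq hpn hqn, key h2 h1 q p hq4 hpq.symm hqn hpn]

end Pool.Agent.Y699
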