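import Mathlib

/-!
A valuation of the complex numbers above two.
-/

set_option autoImplicit false

namespace Pool.Agent.Y699

open Complex

theorem exists_val : ∃ B : ValuationSubring ℂ, B.valuation 2 < 1 := by
  set A : Subring ℂ := (Int.castRingHom ℂ).range with hA
  have h2 : (2 : ℂ) ∈ A := ⟨2, by simp⟩
  obtain ⟨B, -, hB⟩ := Ideal.image_subset_nonunits_valuationSubring (K := ℂ)
    (Ideal.span {(⟨2, h2⟩ : A)}) (by
      intro h
      rw [Ideal.span_singleton_eq_top, isUnit_iff_exists_inv] at h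
      obtain ⟨⟨b, n, hn⟩, hb⟩ := h
      have h3 := congrArg Subtype.val hb
      simp only [Subring.coe_mul, Subring.coe_one] at h3
      rw [← hn] at h3
      have h4 : (2 : ℤ) * n = 1 := by
        have : ((2 * n : ℤ) : ℂ) = ((1 : ℤ) : ℂ) := by
          push_cast
          simpa using h3
        exact_mod_cast this
      omega)
  refine ⟨B, ?_⟩
  rw [← ValuationSubring.mem_nonunits_iff]
  apply hB
  exact ⟨⟨2, h2⟩, Ideal.mem_span_singleton_self _, rfl⟩

variable {Γ : Type*} [LinearOrderedCommGroupWithZero Γ] (v : Valuation ℂ Γ)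

/-- `x` and `y` are integral and congruent modulo the maximal ideal -/
structure Cg (x y : ℂ) : Prop where
  l : v x ≤ 1
  r : v y ≤ 1
  s : v (x - y) < 1

variable {v}

namespace Cg

lemma refl {x : ℂ} (hx : v x ≤ 1) : Cg v x x := ⟨hx, hx, by rw [sub_self, map_zero]; exact zero_lt_one⟩

lemma symm {x y : ℂ} (h : Cg v x y) : Cg v y x := ⟨h.r, h.l, by rw [v.map_sub_swap]; exact h.s⟩

lemma trans {x y z : ℂ} (h : Cg v x y) (h' : Cg v y z) : Cg v x z :=
  ⟨h.l, h'.r, by
    have : x - z = (x - y) + (y - z) := by ring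
    rw [this]
    exact v.map_add_lt h.s h'.s⟩

lemma add {x y x' y' : ℂ} (h : Cg v x y) (h' : Cg v x' y') : Cg v (x + x') (y + y') :=
  ⟨v.map_add_le h.l h'.l, v.map_add_le h.r h'.r, by
    have : x + x' - (y + y') = (x - y) + (x' - y') := by ring
    rw [this]
    exact v.map_add_lt h.s h'.s⟩

lemma mul {x y x' y' : ℂ} (h : Cg v x y) (h' : Cg v x' y') : Cg v (x * x') (y * y') :=
  ⟨by rw [map_mul]; exact mul_le_one' h.l h'.l, by rw [map_mul]; exact mul_le_one' h.r h'.r, by
    have : x * x' - y * y' = (x - y) * x' + y * (x' - y') := by ring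
    rw [this]
    refine v.map_add_lt ?_ ?_
    · rw [map_mul]
      exact lt_of_le_of_lt (mul_le_of_le_one_right' h'.l) h.s
    · rw [map_mul]
      exact lt_of_le_of_lt (mul_le_of_le_one_left' h.r) h'.s⟩

lemma neg {x y : ℂ} (h : Cg v x y) : Cg v (-x) (-y) :=
  ⟨by rw [Valuation.map_neg]; exact h.l, by rw [Valuation.map_neg]; exact h.r, by
    have : -x - -y = -(x - y) := by ring
    rw [this, Valuation.map_neg]; exact h.s⟩

lemma sub {x y x' y' : ℂ} (h : Cg v x y) (h' : Cg v x' y') : Cg v (x - x') (y - y') := by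
  rw [sub_eq_add_neg, sub_eq_add_neg]
  exact h.add h'.neg

lemma sum {ι : Type*} (s : Finset ι) {f g : ι → ℂ} (h : ∀ i ∈ s, Cg v (f i) (g i)) :
    Cg v (∑ i ∈ s, f i) (∑ i ∈ s, g i) := by
  classical
  induction s using Finset.induction_on with
  | empty => simp only [Finset.sum_empty]; exact refl (by rw [map_zero]; exact zero_le_one)
  | insert a s ha ih =>
    rw [Finset.sum_insert ha, Finset.sum_insert ha]
    exact (h a (Finset.mem_insert_self _ _)).add (ih fun i hi => h i (Finset.mem_insert_of_mem hi))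

lemma prod {ι : Type*} (s : Finset ι) {f g : ι → ℂ} (h : ∀ i ∈ s, Cg v (f i) (g i)) :
    Cg v (∏ i ∈ s, f i) (∏ i ∈ s, g i) := by
  classical
  induction s using Finset.induction_on with
  | empty => simp only [Finset.prod_empty]; exact refl (by rw [map_one])
  | insert a s ha ih =>
    rw [Finset.prod_insert ha, Finset.prod_insert ha]
    exact (h a (Finset.mem_insert_self _ _)).mul (ih fun i hi => h i (Finset.mem_insert_of_mem hi))

lemma zero {x : ℂ} (h : v x < 1) : Cg v x 0 :=
  ⟨h.le, by rw [map_zero]; exact zero_le_one, by rw [sub_zero]; exact h⟩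

lemma lt {x : ℂ} (h : Cg v x 0) : v x < 1 := by
  have := h.s
  rwa [sub_zero] at this

end Cg

/-- the lift of a residue modulo two -/
def uu (a : ZMod 2) : ℂ := if a = 1 then 1 else 0

lemma uu_zero : uu 0 = 0 := by simp [uu]
lemma uu_one : uu 1 = 1 := by simp [uu]

variable (h2 : v 2 < 1)

lemma v_uu (a : ZMod 2) : v (uu a) ≤ 1 := by
  unfold uu
  split_ifs
  · rw [map_one]
  · rw [map_zero]; exact zero_le_one

include h2 in
lemma uu_add (a b : ZMod 2) : Cg v (uu (a + b)) (uu a + uu b) := by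
  have h0 : ∀ a : ZMod 2, a = 0 ∨ a = 1 := by decide
  rcases h0 a with rfl | rfl <;> rcases h0 b with rfl | rfl
  · rw [uu_zero, zero_add, zero_add, uu_zero]; exact Cg.refl (by rw [map_zero]; exact zero_le_one)
  · rw [uu_zero, zero_add, zero_add, uu_one]; exact Cg.refl (by rw [map_one])
  · rw [uu_zero, add_zero, add_zero, uu_one]; exact Cg.refl (by rw [map_one])
  · have e : (1 : ZMod 2) + 1 = 0 := by decide
    rw [e, uu_zero, uu_one]
    have e2 : (1 : ℂ) + 1 = 2 := by norm_num
    rw [e2]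
    exact (Cg.zero h2).symm

lemma uu_mul (a b : ZMod 2) : uu (a * b) = uu a * uu b := by
  have h0 : ∀ a : ZMod 2, a = 0 ∨ a = 1 := by decide
  rcases h0 a with rfl | rfl <;> rcases h0 b with rfl | rfl <;> simp [uu]

include h2 in
lemma uu_sum {ι : Type*} (s : Finset ι) (f : ι → ZMod 2) :
    Cg v (uu (∑ i ∈ s, f i)) (∑ i ∈ s, uu (f i)) := by
  classical
  induction s using Finset.induction_on with
  | empty => simp only [Finset.sum_empty, uu_zero]; exact Cg.refl (by rw [map_zero]; exact zero_le_one)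
  | insert a s ha ih =>
    rw [Finset.sum_insert ha, Finset.sum_insert ha]
    exact (uu_add h2 _ _).trans ((Cg.refl (v_uu _)).add ih)

lemma uu_prod {ι : Type*} (s : Finset ι) (f : ι → ZMod 2) :
    uu (∏ i ∈ s, f i) = ∏ i ∈ s, uu (f i) := by
  classical
  induction s using Finset.induction_on with
  | empty => simp [uu_one]
  | insert a s ha ih =>
    rw [Finset.prod_insert ha, Finset.prod_insert ha, uu_mul, ih]

lemma v_nat (n : ℕ) : v (n : ℂ) ≤ 1 := by
  induction n with
  | zero => rw [Nat.cast_zero, map_zero]; exact zero_le_one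
  | succ n ih => rw [Nat.cast_succ]; exact v.map_add_le ih (by rw [map_one])

lemma v_int (n : ℤ) : v (n : ℂ) ≤ 1 := by
  obtain ⟨m, rfl | rfl⟩ := n.eq_nat_or_neg
  · exact_mod_cast v_nat m
  · rw [Int.cast_neg, Valuation.map_neg]; exact_mod_cast v_nat m

lemma v_pow_one {x : ℂ} {n : ℕ} (hn : n ≠ 0) (h : v x ^ n = 1) : v x = 1 := by
  rcases lt_trichotomy (v x) 1 with h1 | h1 | h1
  · exact absurd h (pow_lt_one₀ zero_le' h1 hn).ne
  · exact h1
  · exact absurd h (one_lt_pow₀ h1 hn).ne'

lemma v_I : v I = 1 := by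
  apply v_pow_one (n := 4) (by norm_num)
  rw [← map_pow, Complex.I_pow_four, map_one]

lemma v_inj {x y : Γ} {n : ℕ} (hn : n ≠ 0) (h : x ^ n = y ^ n) : x = y :=
  (pow_left_inj₀ zero_le' zero_le' hn).1 h

/-- the uniformizer -/
lemma v_pi_sq : v (1 + I) ^ 2 = v 2 := by
  rw [← map_pow]
  have : (1 + I) ^ 2 = 2 * I := by
    linear_combination Complex.I_sq
  rw [this, map_mul, v_I, mul_one]

include h2 in
lemma v_pi_lt : v (1 + I) < 1 := by
  by_contra h
  push Not at h
  have h3 : 1 ≤ v (1 + I) ^ 2 := one_le_pow₀ h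
  rw [v_pi_sq] at h3
  exact absurd h2 (not_lt.2 h3)

lemma v_pi_ne : v (1 + I) ≠ 0 := by
  rw [Ne, map_eq_zero]
  intro h
  have := congrArg Complex.re h
  simp at this

end Pool.Agent.Y699
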