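import Pool.Agent.TH936.CM.Lat
import Pool.Agent.Y699.Val
import Pool.Agent.Y699.Rec

/-!
The lattice of `y² = 4 x³ - 4 x`.
-/

set_option autoImplicit false

open Filter Complex
open scoped Topology PeriodPair
open H667R3 Pool.Agent.TH936.CM Pool.Agent.W192.HK
open UpperHalfPlane hiding I
open ModularForm EisensteinSeries

namespace Pool.Agent.Y699

open H385 (ZI RQ im1 nrm)
open Pool.Agent.H304R3.HK (tc)
open Pool.Agent.W164.RC (tc_mul tc_star two2)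

/-- the embedding as a ring homomorphism -/
noncomputable def tch : ZI →+* ℂ := GaussianInt.toComplex

lemma tch_eq (a : ZI) : tch a = tc a := by
  unfold tch tc
  rw [GaussianInt.toComplex_def]

lemma tc_one : tc 1 = 1 := by rw [← tch_eq, map_one]
lemma tc_zero : tc 0 = 0 := by rw [← tch_eq, map_zero]
lemma tc_add (a b : ZI) : tc (a + b) = tc a + tc b := by rw [← tch_eq, map_add, tch_eq, tch_eq]
lemma tc_sub (a b : ZI) : tc (a - b) = tc a - tc b := by rw [← tch_eq, map_sub, tch_eq, tch_eq]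
lemma tc_neg (a : ZI) : tc (-a) = -tc a := by rw [← tch_eq, map_neg, tch_eq]
lemma tc_pow (a : ZI) (n : ℕ) : tc (a ^ n) = tc a ^ n := by rw [← tch_eq, map_pow, tch_eq]
lemma tc_inj {a b : ZI} (h : tc a = tc b) : a = b := by
  rw [← tch_eq, ← tch_eq] at h
  exact GaussianInt.toComplex_injective h
lemma tc_ne {a : ZI} (h : a ≠ 0) : tc a ≠ 0 := fun h' => h (tc_inj (by rw [h', tc_zero]))
lemma tc_int (n : ℤ) : tc (n : ZI) = n := by rw [← tch_eq, map_intCast]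
lemma tc_prod {ι : Type*} (s : Finset ι) (f : ι → ZI) : tc (∏ i ∈ s, f i) = ∏ i ∈ s, tc (f i) := by
  rw [← tch_eq, map_prod]
  exact Finset.prod_congr rfl fun i _ => tch_eq _

/-- the Gaussian integers as a subring of the complex numbers -/
noncomputable def RG : Subring ℂ := tch.range

lemma mem_RG {z : ℂ} : z ∈ RG ↔ ∃ a : ZI, z = tc a := by
  unfold RG
  rw [RingHom.mem_range]
  exact exists_congr fun a => by rw [tch_eq, eq_comm]

lemma I_ne : (0 : ℝ) < I.im := by simp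

section mk

variable {ω Ω : ℂ}

/-- the lattice `Ω (ℤ + ℤ ω)` -/
noncomputable def mkL (ω Ω : ℂ) (hω : 0 < ω.im) (hΩ : Ω ≠ 0) : PeriodPair where
  ω₁ := Ω
  ω₂ := Ω * ω
  indep := by
    rw [LinearIndependent.pair_iff]
    intro s t h
    have h1 : Ω * ((s : ℂ) + t * ω) = 0 := by
      simp only [Complex.real_smul] at h
      linear_combination h
    have h2 := (mul_eq_zero.1 h1).resolve_left hΩ
    have h3 := congrArg Complex.im h2
    simp at h3
    have ht : t = 0 := h3.resolve_right hω.ne'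
    refine ⟨?_, ht⟩
    rw [ht] at h2
    simpa using h2

/-- the elements of the lattice -/
noncomputable def latV (ω Ω : ℂ) (hω : 0 < ω.im) (hΩ : Ω ≠ 0) :
    (Fin 2 → ℤ) ≃ (mkL ω Ω hω hΩ).lattice :=
  Equiv.ofBijective (fun v => ⟨Ω * (v 0 * ω + v 1), PeriodPair.mem_lattice.2 ⟨v 1, v 0, by
    show (v 1 : ℂ) * Ω + v 0 * (Ω * ω) = _
    ring⟩⟩) ⟨by
    intro v w h
    have h1 : Ω * ((v 0 : ℂ) * ω + v 1) = Ω * (w 0 * ω + w 1) := congrArg Subtype.val h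
    have h2 := mul_left_cancel₀ hΩ h1
    have h3 := congrArg Complex.im h2
    simp at h3
    have h4 : v 0 = w 0 := by
      rcases h3 with h3 | h3
      · exact_mod_cast h3
      · exact absurd h3 hω.ne'
    have h5 : v 1 = w 1 := by
      rw [h4] at h2
      have := add_left_cancel h2
      exact_mod_cast this
    funext i
    fin_cases i
    · exact h4
    · exact h5, by
    intro l
    obtain ⟨m, n, h⟩ := PeriodPair.mem_lattice.1 l.2
    refine ⟨![n, m], Subtype.ext ?_⟩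
    rw [← h]
    show Ω * ((n : ℂ) * ω + m) = (m : ℂ) * Ω + n * (Ω * ω)
    ring⟩

lemma G_eq (hω : 0 < ω.im) (hΩ : Ω ≠ 0) {k : ℕ} (hk : 3 ≤ k) :
    (mkL ω Ω hω hΩ).G k = (Ω ^ k)⁻¹ * (2 * riemannZeta k * E hk ⟨ω, hω⟩) := by
  have h1 := tsum_eisSummand_eq_riemannZeta_mul_eisensteinSeries hk (⟨ω, hω⟩ : ℍ)
  have h2 : E hk (⟨ω, hω⟩ : ℍ) = (1 / 2 : ℂ) * eisensteinSeries (N := 1) 0 k ⟨ω, hω⟩ := rfl
  have h3 : 2 * riemannZeta k * E hk (⟨ω, hω⟩ : ℍ) =
      ∑' v : Fin 2 → ℤ, eisSummand k v (⟨ω, hω⟩ : ℍ) := by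
    rw [h1, h2]
    ring
  rw [h3, ← tsum_mul_left]
  unfold PeriodPair.G
  rw [← (latV ω Ω hω hΩ).tsum_eq]
  refine tsum_congr fun v => ?_
  have h4 : (((latV ω Ω hω hΩ) v : (mkL ω Ω hω hΩ).lattice) : ℂ) = Ω * (v 0 * ω + v 1) := rfl
  rw [h4, mul_pow, mul_inv]
  congr 1
  unfold eisSummand
  rw [zpow_neg, zpow_natCast]

end mk

variable {L : PeriodPair} {Ω : ℂ}

lemma mkL_isLat' (hΩ : Ω ≠ 0) : IsLat (mkL I Ω I_ne hΩ) RG Ω := by
  refine ⟨hΩ, fun z => ?_⟩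
  rw [PeriodPair.mem_lattice]
  constructor
  · rintro ⟨m, n, rfl⟩
    refine ⟨⟨m + n * I, mem_RG.2 ⟨⟨m, n⟩, rfl⟩⟩, ?_⟩
    show (m : ℂ) * Ω + n * (Ω * I) = Ω * (m + n * I)
    ring
  · rintro ⟨r, rfl⟩
    obtain ⟨a, h⟩ := mem_RG.1 r.2
    refine ⟨a.re, a.im, ?_⟩
    rw [h]
    show (a.re : ℂ) * Ω + a.im * (Ω * I) = Ω * tc a
    unfold tc
    ring

lemma mem_lat (hL : IsLat L RG Ω) {z : ℂ} : z ∈ L.lattice ↔ ∃ a : ZI, z = Ω * tc a := by
  rw [hL.mem]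
  constructor
  · rintro ⟨r, hr⟩
    obtain ⟨a, h⟩ := mem_RG.1 r.2
    exact ⟨a, by rw [hr, h]⟩
  · rintro ⟨a, ha⟩
    exact ⟨⟨tc a, mem_RG.2 ⟨a, rfl⟩⟩, ha⟩

lemma lat_mul (hL : IsLat L RG Ω) (a : ZI) {z : ℂ} (hz : z ∈ L.lattice) : tc a * z ∈ L.lattice := by
  obtain ⟨b, rfl⟩ := (mem_lat hL).1 hz
  exact (mem_lat hL).2 ⟨a * b, by rw [tc_mul]; ring⟩

lemma tc_im1 : tc im1 = I := by
  unfold tc im1
  simp

lemma lat_I (hL : IsLat L RG Ω) {z : ℂ} (hz : z ∈ L.lattice) : I * z ∈ L.lattice := by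
  rw [← tc_im1]
  exact lat_mul hL im1 hz

/-- multiplication by `i` -/
noncomputable def eI (hL : IsLat L RG Ω) : L.lattice ≃ L.lattice where
  toFun l := ⟨I * l, lat_I hL l.2⟩
  invFun l := ⟨-(I * l), neg_mem (lat_I hL l.2)⟩
  left_inv l := Subtype.ext (by
    show -(I * (I * (l : ℂ))) = l
    linear_combination (-(l : ℂ)) * I_sq)
  right_inv l := Subtype.ext (by
    show I * -(I * (l : ℂ)) = l
    linear_combination (-(l : ℂ)) * I_sq)

lemma wp_I (hL : IsLat L RG Ω) (z : ℂ) : ℘[L] (I * z) = -℘[L] z := by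
  unfold PeriodPair.weierstrassP
  rw [← (eI hL).tsum_eq, ← tsum_neg]
  refine tsum_congr fun l => ?_
  show 1 / (I * z - I * (l : ℂ)) ^ 2 - 1 / (I * (l : ℂ)) ^ 2 = _
  have e1 : (I * z - I * (l : ℂ)) ^ 2 = -(z - l) ^ 2 := by
    linear_combination (z - l) ^ 2 * I_sq
  have e2 : (I * (l : ℂ)) ^ 2 = -(l : ℂ) ^ 2 := by
    linear_combination (l : ℂ) ^ 2 * I_sq
  rw [e1, e2, div_neg, div_neg]
  ring

lemma wp'_I (hL : IsLat L RG Ω) (z : ℂ) : ℘'[L] (I * z) = I * ℘'[L] z := by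
  unfold PeriodPair.derivWeierstrassP
  rw [← (eI hL).tsum_eq, mul_neg, ← tsum_mul_left]
  congr 1
  refine tsum_congr fun l => ?_
  show 2 / (I * z - I * (l : ℂ)) ^ 3 = I * (2 / (z - l) ^ 3)
  have e1 : (I * z - I * (l : ℂ)) ^ 3 = -I * (z - l) ^ 3 := by
    linear_combination (I * (z - l) ^ 3) * I_sq
  rw [e1]
  by_cases h : z - l = 0
  · rw [h]; simp
  · have hI : (I : ℂ) ≠ 0 := I_ne_zero
    field_simp
    linear_combination -I_sq

lemma G6 (hL : IsLat L RG Ω) : L.G 6 = 0 := by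
  have h : L.G 6 = -L.G 6 := by
    unfold PeriodPair.G
    conv_lhs => rw [← (eI hL).tsum_eq]
    rw [← tsum_neg]
    refine tsum_congr fun l => ?_
    show ((I * (l : ℂ)) ^ 6)⁻¹ = -((l : ℂ) ^ 6)⁻¹
    have e2 : (I * (l : ℂ)) ^ 6 = -(l : ℂ) ^ 6 := by
      linear_combination ((l : ℂ) ^ 6 * (I ^ 4 - I ^ 2 + 1)) * I_sq
    rw [e2, inv_neg]
  have h2 : (2 : ℂ) * L.G 6 = 0 := by linear_combination h
  exact (mul_eq_zero.1 h2).resolve_left (by norm_num)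

/-- the data -/
structure GLat (L : PeriodPair) (Ω : ℂ) : Prop where
  lat : IsLat L RG Ω
  g2 : L.g₂ = 4
  g3 : L.g₃ = 0

theorem exists_GL : ∃ (L : PeriodPair) (Ω : ℂ), GLat L Ω := by
  have h6 : (mkL I 1 I_ne one_ne_zero).G 6 = 0 := G6 (mkL_isLat' one_ne_zero)
  rw [G_eq I_ne one_ne_zero (k := 6) (by norm_num)] at h6
  have hz4 : riemannZeta (4 : ℕ) ≠ 0 := riemannZeta_ne_zero_of_one_lt_re (by norm_num)
  have hz6 : riemannZeta (6 : ℕ) ≠ 0 := riemannZeta_ne_zero_of_one_lt_re (by norm_num)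
  set τ : ℍ := ⟨I, I_ne⟩ with hτ
  have hE6 : E₆ τ = 0 := by
    simp only [one_pow, inv_one, one_mul, mul_eq_zero] at h6
    rcases h6 with (h | h) | h
    · norm_num at h
    · exact absurd h hz6
    · exact h
  have hΔ : discriminant τ ≠ 0 := discriminant_ne_zero τ
  have hΔE := discriminant_eq_E₄_cube_sub_E₆_sq τ
  have hE4 : E₄ τ ≠ 0 := by
    intro h
    apply hΔ
    rw [hΔE, h, hE6]
    norm_num
  have hc : (30 * riemannZeta (4 : ℕ) * E₄ τ : ℂ) ≠ 0 :=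
    mul_ne_zero (mul_ne_zero (by norm_num) hz4) hE4
  obtain ⟨Ω, hΩ⟩ := IsAlgClosed.exists_pow_nat_eq (30 * riemannZeta (4 : ℕ) * E₄ τ)
      (n := 4) (by norm_num)
  have hΩ0 : Ω ≠ 0 := by
    rintro rfl
    rw [zero_pow (by norm_num)] at hΩ
    exact hc hΩ.symm
  refine ⟨mkL I Ω I_ne hΩ0, Ω, mkL_isLat' hΩ0, ?_, ?_⟩
  · unfold PeriodPair.g₂
    rw [G_eq I_ne hΩ0 (k := 4) (by norm_num), hΩ]
    field_simp
    ring
  · unfold PeriodPair.g₃
    rw [G6 (mkL_isLat' hΩ0), mul_zero]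

/-- `y² = 4 x³ - 4 x` -/
lemma GLat.eqn (h : GLat L Ω) {z : ℂ} (hz : z ∉ L.lattice) :
    ℘'[L] z ^ 2 = 4 * ℘[L] z ^ 3 - 4 * ℘[L] z := by
  rw [L.derivWeierstrassP_sq z hz, h.g2, h.g3]
  ring

lemma GLat.two_notMem {z : ℂ} (hz : 2 * z ∉ L.lattice) : z ∉ L.lattice := two_mul_notMem_of L hz

lemma not_mem_of_mul (h : IsLat L RG Ω) (a : ZI) {z : ℂ} (hz : tc a * z ∉ L.lattice) :
    z ∉ L.lattice := fun h' => hz (lat_mul h a h')

/-- multiplication by `1 + i` on the `x`-coordinates -/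
theorem GLat.mul_pi (h : GLat L Ω) {z : ℂ} (hz : 2 * z ∉ L.lattice) :
    2 * I * ℘[L] z * ℘[L] ((1 + I) * z) = ℘[L] z ^ 2 - 1 ∧ ℘[L] z ≠ 0 := by
  have hz1 : z ∉ L.lattice := GLat.two_notMem hz
  have hz2 : (1 + I) * z ∉ L.lattice := by
    intro h'
    apply hz
    have := sub_mem h' (lat_I h.lat h')
    have e : (1 + I) * z - I * ((1 + I) * z) = 2 * z := by linear_combination (-z) * I_sq
    rwa [e] at this
  have hw : I * z ∉ L.lattice := by
    intro h'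
    apply hz1
    have := neg_mem (lat_I h.lat h')
    have e : -(I * (I * z)) = z := by linear_combination (-z) * I_sq
    rwa [e] at this
  have h1 : z + I * z ∉ L.lattice := by
    have e : z + I * z = (1 + I) * z := by ring
    rwa [e]
  have h2 : z - I * z ∉ L.lattice := by
    intro h'
    apply hz2
    have := lat_I h.lat h'
    have e : I * (z - I * z) = (1 + I) * z := by linear_combination (-z) * I_sq
    rwa [e] at this
  have hx0 : ℘[L] z ≠ 0 := by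
    intro h0
    have h3 : ℘[L] z = ℘[L] (I * z) := by rw [wp_I h.lat, h0, neg_zero]
    rcases (wp_eq_iff L hz1 hw).1 h3 with h4 | h4
    · exact h1 h4
    · exact h2 h4
  refine ⟨?_, hx0⟩
  have hadd := wp_add L hz hw h1 h2
  have e : z + I * z = (1 + I) * z := by ring
  rw [e, wp_I h.lat, wp'_I h.lat, h.g2] at hadd
  have hy := h.eqn hz1
  set x := ℘[L] z
  set y := ℘'[L] z
  have e3 : ℘[L] ((1 + I) * z) * (8 * x ^ 2) = x * (8 * x ^ 2) - ((6 * x ^ 2 - 2) * (2 * x) -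
      (1 - I) * y ^ 2) := by
    rw [hadd]
    field_simp
    ring
  rw [hy] at e3
  have e4 : (8 * x ^ 2) * (2 * I * x * ℘[L] ((1 + I) * z)) = (8 * x ^ 2) * (x ^ 2 - 1) := by
    linear_combination (2 * I * x) * e3 + (8 * x ^ 4 - 8 * x ^ 2) * (-I_sq)
  exact mul_left_cancel₀ (by simp [hx0]) e4

end Pool.Agent.Y699
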