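import Pool.Agent.Y699.Qm

/-!
The limits of the regularized sums as sums of division values.
-/

set_option autoImplicit false
set_option linter.unusedSectionVars false
set_option linter.unusedSimpArgs false

open Filter Complex
open scoped Topology PeriodPair
open H667R3 hiding sq
open Pool.Agent.TH936.CM Pool.Agent.W192.HK

namespace Pool.Agent.Y699

open H385 (ZI RQ im1 nrm)
open Pool.Agent.H304R3.HK (tc HC LH chi_le)
open Pool.Agent.W164.RC (tc_mul tc_star two2 prim_iff_dvd unit_cases)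
open Pool.Agent.H304R2.EC.A1 (prim prim_mul prim_cancel prim_one prim_norm_odd prim_star eq_one_of_prim
  norm_def' re_mul' im_mul' eq_of_dvd prim_ne_zero)

variable {L : PeriodPair} {Ω : ℂ} {ι : Type} [DecidableEq ι] {pr : ι → ZI}

/-- the function `h` -/
noncomputable def hh (L : PeriodPair) (w : ℂ) : ℂ := ℘'[L] w / ((℘[L] w ^ 2 - 1) * (1 + I))

lemma out_mul (D c : ZI) (q : RQ D) :
    D ∣ (Ideal.Quotient.mk (Ideal.span {D}) c * q).out - c * q.out := by
  have h1 : Ideal.Quotient.mk (Ideal.span {D})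
      ((Ideal.Quotient.mk (Ideal.span {D}) c * q).out - c * q.out) = 0 := by
    rw [map_sub, map_mul, Ideal.Quotient.mk_out, Ideal.Quotient.mk_out, sub_self]
  rwa [Ideal.Quotient.eq_zero_iff_mem, Ideal.mem_span_singleton] at h1

lemma zq_sub (h : IsLat L RG Ω) {D a b : ZI} (hD : D ≠ 0) (hab : D ∣ a - b) :
    zq Ω D a - zq Ω D b ∈ L.lattice := by
  obtain ⟨c, hc⟩ := hab
  refine (mem_lat h).2 ⟨c, ?_⟩
  have h6 := congrArg tc hc
  rw [tc_sub, tc_mul] at h6
  have hDc := tc_ne hD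
  unfold zq
  field_simp
  linear_combination Ω * h6

lemma wp_per (L : PeriodPair) {z w : ℂ} (h : z - w ∈ L.lattice) : ℘[L] z = ℘[L] w := by
  have := L.weierstrassP_add_coe w ⟨_, h⟩
  simp only at this
  rw [← this]; congr 1; ring

lemma wp'_per (L : PeriodPair) {z w : ℂ} (h : z - w ∈ L.lattice) : ℘'[L] z = ℘'[L] w := by
  have := L.derivWeierstrassP_add_coe w ⟨_, h⟩
  simp only at this
  rw [← this]; congr 1; ring

lemma hh_per (L : PeriodPair) {z w : ℂ} (h : z - w ∈ L.lattice) : hh L z = hh L w := by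
  unfold hh
  rw [wp_per L h, wp'_per L h]

lemma hh_I (hL : IsLat L RG Ω) (z : ℂ) : hh L (I * z) = I * hh L z := by
  unfold hh
  rw [wp_I hL, wp'_I hL, neg_sq]
  ring

lemma zq_mul (Ω : ℂ) (D c t : ZI) : zq Ω D (c * t) = tc c * zq Ω D t := by
  unfold zq
  rw [tc_mul]; ring

/-- the sum of a unit invariant function -/
lemma sum_unit_mul {D c : ZI} [Fintype (RQ D)] (hc : IsUnit (Ideal.Quotient.mk (Ideal.span {D}) c))
    (f : RQ D → ℂ) : ∑ q, f (Ideal.Quotient.mk (Ideal.span {D}) c * q) = ∑ q, f q := by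
  rw [← Equiv.sum_comp (Units.mulLeft hc.unit) f]
  rfl

lemma im1_isUnit (D : ZI) : IsUnit (Ideal.Quotient.mk (Ideal.span {D}) im1) :=
  (IsUnit.of_mul_eq_one (-im1) (by decide : im1 * -im1 = 1)).map _

lemma EG_I (δ : ℝ) (z : ℂ) : EG Ω δ (I * z) = -I * EG Ω δ z := by
  unfold EG
  have hu : IsUnit (im1 : ZI) := IsUnit.of_mul_eq_one (-im1) (by decide : im1 * -im1 = 1)
  rw [← (Units.mulLeft hu.unit).tsum_eq, ← tsum_mul_left]
  refine tsum_congr fun b => ?_
  have e1 : (Units.mulLeft hu.unit) b = im1 * b := rfl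
  have e2 : I * z + Ω * tc (im1 * b) = I * (z + Ω * tc b) := by
    rw [tc_mul, tc_im1]; ring
  rw [e1, e2, fd_mul]
  have h2 : Complex.normSq I = 1 := by simp
  rw [h2, mul_one, Complex.inv_I]

/-- the limit of the sum over the division points -/
theorem lim_A (h : GLat L Ω) {D : ZI} (hD : prim D) [Fintype (RQ D)] {F : ZI → ℂ}
    (hper : ∀ a b, D ∣ a - b → F a = F b) (hi : ∀ a, F (im1 * a) = -I * F a)
    (hz : ∀ a, D ∣ a → F a = 0) :
    Tendsto (fun δ : ℝ => ∑ q : RQ D, F q.out * EG Ω δ (Ω / 2 + zq Ω D q.out)) (𝓝[>] 0)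
      (𝓝 (1 / 2 * (℘[L] (Ω / 2) * (1 + I)) * ∑ q : RQ D, F q.out * hh L (zq Ω D q.out))) := by
  have hD0 : D ≠ 0 := prim_ne_zero hD
  have he1 := h.e1_sq
  -- values at `I Ω / 2`
  have hI2 : ℘[L] (I * (Ω / 2)) = -℘[L] (Ω / 2) := wp_I h.lat _
  have hIn : I * (Ω / 2) ∉ L.lattice := by
    intro h'
    have h1 := lat_I h.lat h'
    apply h.half
    have e : Ω / 2 = -(I * (I * (Ω / 2))) := by
      linear_combination (Ω / 2) * I_sq
    rw [e]
    exact neg_mem h1
  have hII : 2 * (I * (Ω / 2)) ∈ L.lattice := by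
    refine (mem_lat h.lat).2 ⟨im1, ?_⟩
    rw [tc_im1]; ring
  have hΩΩ : 2 * (Ω / 2) ∈ L.lattice := by
    refine (mem_lat h.lat).2 ⟨1, ?_⟩
    rw [tc_one]; ring
  -- the two sums
  have hA : ∀ δ : ℝ, ∑ q : RQ D, F q.out * EG Ω δ (zq Ω D q.out + I * (Ω / 2)) =
      -∑ q : RQ D, F q.out * EG Ω δ (Ω / 2 + zq Ω D q.out) := by
    intro δ
    rw [← sum_unit_mul (im1_isUnit D), ← Finset.sum_neg_distrib]
    refine Finset.sum_congr rfl fun q _ => ?_
    have e1 : F (Ideal.Quotient.mk (Ideal.span {D}) im1 * q).out = -I * F q.out := by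
      rw [hper _ _ (out_mul D im1 q), hi]
    have e2 : EG Ω δ (zq Ω D (Ideal.Quotient.mk (Ideal.span {D}) im1 * q).out + I * (Ω / 2)) =
        EG Ω δ (I * (Ω / 2 + zq Ω D q.out)) := by
      apply EG_per h.lat
      have h1 := zq_sub h.lat hD0 (out_mul D im1 q)
      rw [zq_mul, tc_im1] at h1
      have e3 : zq Ω D (Ideal.Quotient.mk (Ideal.span {D}) im1 * q).out + I * (Ω / 2) -
          I * (Ω / 2 + zq Ω D q.out) =
          zq Ω D (Ideal.Quotient.mk (Ideal.span {D}) im1 * q).out - I * zq Ω D q.out := by ring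
      rw [e3]
      exact h1
    rw [e1, e2, EG_I]
    linear_combination (F q.out * EG Ω δ (Ω / 2 + zq Ω D q.out)) * I_sq
  have hB : ∀ δ : ℝ, ∑ q : RQ D, F q.out * EG Ω δ (Ω / 2 + zq Ω D q.out) =
      ∑ q : RQ D, F q.out * (1 / 2 * (EG Ω δ (zq Ω D q.out + Ω / 2) -
        EG Ω δ (zq Ω D q.out + I * (Ω / 2)))) := by
    intro δ
    have h1 := hA δ
    have e1 : ∀ q : RQ D, F q.out * (1 / 2 * (EG Ω δ (zq Ω D q.out + Ω / 2) -
        EG Ω δ (zq Ω D q.out + I * (Ω / 2)))) =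
        1 / 2 * (F q.out * EG Ω δ (Ω / 2 + zq Ω D q.out)) -
        1 / 2 * (F q.out * EG Ω δ (zq Ω D q.out + I * (Ω / 2))) := by
      intro q
      rw [add_comm (Ω / 2)]; ring
    simp_rw [e1]
    rw [Finset.sum_sub_distrib, ← Finset.mul_sum, ← Finset.mul_sum, h1]
    ring
  have key : ∀ q : RQ D, Tendsto (fun δ : ℝ => F q.out * (1 / 2 * (EG Ω δ (zq Ω D q.out + Ω / 2) -
        EG Ω δ (zq Ω D q.out + I * (Ω / 2))))) (𝓝[>] 0)
        (𝓝 (1 / 2 * (℘[L] (Ω / 2) * (1 + I)) * (F q.out * hh L (zq Ω D q.out)))) := by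
    intro q
    by_cases hq : D ∣ q.out
    · rw [hz _ hq]
      simp only [zero_mul, mul_zero]
      exact tendsto_const_nhds
    · have n1 := zq_notMem h hD0 hq
      have hOT := zq_OT h hD hq
      have n2 : ∀ t : ℂ, 2 * t ∈ L.lattice → t ∉ L.lattice → zq Ω D q.out + t ∉ L.lattice ∧
          zq Ω D q.out - t ∉ L.lattice := by
        intro t ht htn
        have h2z := hOT.two h
        constructor
        · intro h'
          apply h2z
          have h3 := L.lattice.smul_mem (2 : ℤ) h'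
          have h4 := sub_mem h3 ht
          have e : (2 : ℤ) • (zq Ω D q.out + t) - 2 * t = 2 * zq Ω D q.out := by
            rw [zsmul_eq_mul]; push_cast; ring
          rwa [e] at h4
        · intro h'
          apply h2z
          have h3 := L.lattice.smul_mem (2 : ℤ) h'
          have h4 := add_mem h3 ht
          have e : (2 : ℤ) • (zq Ω D q.out - t) + 2 * t = 2 * zq Ω D q.out := by
            rw [zsmul_eq_mul]; push_cast; ring
          rwa [e] at h4
      have lim : ∀ t : ℂ, 2 * t ∈ L.lattice → t ∉ L.lattice →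
          Tendsto (fun δ : ℝ => EG Ω δ (zq Ω D q.out + t) - EG Ω δ (zq Ω D q.out)) (𝓝[>] 0)
            (𝓝 (1 / 2 * Dd L (zq Ω D q.out) t)) := by
        intro t ht htn
        obtain ⟨a1, a2⟩ := n2 t ht htn
        have h3 := (lim_Dd h.lat n1 htn a1 a2).const_mul (1 / 2)
        refine h3.congr fun δ => ?_
        rw [← EG_eq, ← EG_eq, ← EG_eq]
        have e : EG Ω δ (zq Ω D q.out - t) = EG Ω δ (zq Ω D q.out + t) := by
          apply EG_per h.lat
          have e3 : zq Ω D q.out - t - (zq Ω D q.out + t) = -(2 * t) := by ring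
          rw [e3]
          exact neg_mem ht
        rw [e]; ring
      have l1 := lim _ hΩΩ h.half
      have l2 := lim _ hII hIn
      have l3 := ((l1.sub l2).const_mul (1 / 2)).const_mul (F q.out)
      have hval : F q.out * (1 / 2 * (1 / 2 * Dd L (zq Ω D q.out) (Ω / 2) -
          1 / 2 * Dd L (zq Ω D q.out) (I * (Ω / 2)))) =
          1 / 2 * (℘[L] (Ω / 2) * (1 + I)) * (F q.out * hh L (zq Ω D q.out)) := by
        unfold Dd hh
        rw [hI2]
        obtain ⟨-, hne⟩ := h.mul_pi (hOT.two h)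
        have hne2 : ℘[L] (zq Ω D q.out) ^ 2 - 1 ≠ 0 := by
          have h5 := (h.mul_pi (hOT.two h)).1
          have h6 := (h.mul_pi ((hOT.pow h 1).two h)).2
          rw [pow_one] at h6
          rw [← h5]
          exact mul_ne_zero (mul_ne_zero (mul_ne_zero two_ne_zero I_ne_zero) hne) h6
        have hf : (℘[L] (zq Ω D q.out) - ℘[L] (Ω / 2)) * (℘[L] (zq Ω D q.out) + ℘[L] (Ω / 2)) =
            ℘[L] (zq Ω D q.out) ^ 2 - 1 := by
          linear_combination -he1
        have hf1 : ℘[L] (zq Ω D q.out) - ℘[L] (Ω / 2) ≠ 0 := by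
          intro h0; rw [h0, zero_mul] at hf; exact hne2 hf.symm
        have hf2 : ℘[L] (zq Ω D q.out) + ℘[L] (Ω / 2) ≠ 0 := by
          intro h0; rw [h0, mul_zero] at hf; exact hne2 hf.symm
        have h1I : (1 + I : ℂ) ≠ 0 := one_I_ne
        rw [sub_neg_eq_add, ← hf]
        field_simp
        ring
      rw [← hval]
      refine l3.congr fun δ => ?_
      ring
  have := tendsto_finsetSum Finset.univ fun q _ => key q
  rw [← Finset.mul_sum] at this
  refine this.congr fun δ => ?_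
  rw [hB δ]

/-- the normalized value -/
noncomputable def M4 (L : PeriodPair) (Ω : ℂ) (pr : ι → ZI) (V : Finset ι) (e : ι → ℕ)
    [Fintype (RQ (DD pr V))] : ℂ :=
  1 / 4 * ∑ q : RQ (DD pr V), tc (c4 pr V e (2 * q.out)) * hh L (zq Ω (DD pr V) q.out)

theorem lim_cc4 (h : GLat L Ω) (hp : PF pr) {V : Finset ι} (hV : V.Nonempty) {e : ι → ℕ}
    (hW : Wt pr V e % 4 = 3) [Fintype (RQ (DD pr V))] :
    Tendsto (RS (cc4 pr V e)) (𝓝[>] 0)
      (𝓝 (Ω * ℘[L] (Ω / 2) * (1 + I) / 2 / tc (DD pr V) * M4 L Ω pr V e)) := by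
  have hDp := DD_prim hp V
  have hDc := tc_ne (DD_ne hp V)
  have hΩ := h.lat.ne
  have hc : 0 < Complex.normSq (tc (DD pr V) * 2 / Ω) :=
    Complex.normSq_pos.2 (div_ne_zero (mul_ne_zero hDc (by norm_num)) hΩ)
  have h1 := lim_A h hDp (F := fun t => tc (c4 pr V e (2 * t)))
    (fun a b hab => by
      rw [c4_per hp V e (a := 2 * a) (b := 2 * b) (by rw [← mul_sub]; exact hab.mul_left _)])
    (fun a => by
      have e1 : 2 * (im1 * a) = im1 * (2 * a) := by ring
      rw [e1, c4_im hp hW, tc_mul, tc_neg, tc_im1])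
    (fun a ha => by
      obtain ⟨i, hi⟩ := hV
      rw [c4_zero e hi (((dvd_DD hi).trans ha).mul_left _), tc_zero])
  have h2 := (tendsto_scale h1 hc).const_mul (1 / 2 * (Ω / (tc (DD pr V) * 2)))
  have e3 : 1 / 2 * (Ω / (tc (DD pr V) * 2)) * (1 / 2 * (℘[L] (Ω / 2) * (1 + I)) *
      ∑ q : RQ (DD pr V), tc (c4 pr V e (2 * q.out)) * hh L (zq Ω (DD pr V) q.out)) =
      Ω * ℘[L] (Ω / 2) * (1 + I) / 2 / tc (DD pr V) * M4 L Ω pr V e := by
    unfold M4
    field_simp
    ring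
  rw [← e3]
  refine h2.congr' ?_
  filter_upwards [self_mem_nhdsWithin] with δ (hδ : 0 < δ)
  have h3 := RS_cc4 h.lat hp hW hδ
  rw [mul_assoc, ← h3]
  ring

end Pool.Agent.Y699
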