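import Pool.Agent.Y699.Fin

/-!
The final asymptotic statement.
-/

set_option autoImplicit false

open Finset Filter Topology

namespace Pool.Agent.Y699

open H385 (ZI RQ im1 nrm BX)
open H385.H10 (mem_BX nrm_pos Dv mem_Dv card_Dv)
open Pool.Agent.W164.RC (two2 prim_iff_dvd unit_norm unit_cases)
open Pool.Agent.H304R2.EC.A1 (prim prim_mul prim_cancel prim_one prim_norm_odd prim_star eq_one_of_prim
  norm_def' re_mul' im_mul' eq_of_dvd prim_ne_zero exists_prim)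

lemma small_pow {A η a : ℝ} (hη : 0 < η) (ha : 0 < a) :
    ∃ N : ℕ, ∀ n : ℕ, N ≤ n → A * (n : ℝ) ^ (-a) ≤ η := by
  have h1 : Tendsto (fun n : ℕ => A * (n : ℝ) ^ (-a)) atTop (𝓝 (A * 0)) :=
    ((tendsto_rpow_neg_atTop ha).comp tendsto_natCast_atTop_atTop).const_mul A
  rw [mul_zero] at h1
  have h2 := h1.eventually_le_const hη
  rw [eventually_atTop] at h2
  exact h2

lemma exists_root {n X : ℕ} (hn : 1 ≤ n) (hX : 1 ≤ X) : ∃ P, 1 ≤ P ∧ P ^ n ≤ X ∧ X < (P + 1) ^ n := by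
  have h1 : (1 : ℕ) ^ n ≤ X := by rw [one_pow]; exact hX
  refine ⟨Nat.findGreatest (fun P => P ^ n ≤ X) X, ?_, ?_, ?_⟩
  · exact Nat.le_findGreatest hX h1
  · exact Nat.findGreatest_spec (P := fun P => P ^ n ≤ X) hX h1
  · by_contra h
    push Not at h
    have h2 : Nat.findGreatest (fun P => P ^ n ≤ X) X + 1 ≤ X :=
      (Nat.le_self_pow (by omega) _).trans h
    have h3 := Nat.le_findGreatest (P := fun P => P ^ n ≤ X) h2 h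
    omega

/-- the error term in the average -/
lemma err_bound {C : ℝ} (hC : 0 ≤ C) {X ℓ Z : ℕ} (hℓ : ℓ = Nat.log 2 X + 1) (hZ : Z = ℓ ^ 576) :
    C * (X * lg X ^ 5) * (Z : ℝ) ^ (-(1 / 96) : ℝ) + EH X Z (6 * kx) ≤
      ((C + (1680 * 2 * (18 : ℝ) ^ 3 * CI ^ 2) * Real.sqrt (6 * kx) * 14400 ^ 3) * (ℓ : ℝ) ^ (-(1 / 4) : ℝ)) * X := by
  have hl1 : 1 ≤ ℓ := by omega
  have lr : (1 : ℝ) ≤ ℓ := by exact_mod_cast hl1
  have l0 : (0 : ℝ) < ℓ := by linarith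
  have hlg : lg X = ℓ := by
    unfold lg
    rw [hℓ]
    push_cast
    rfl
  have hX0 : (0 : ℝ) ≤ X := Nat.cast_nonneg X
  rw [hlg]
  have h1 : (Z : ℝ) ^ (-(1 / 96) : ℝ) = (ℓ : ℝ) ^ (-6 : ℝ) := by
    rw [hZ]
    push_cast
    rw [← Real.rpow_natCast, ← Real.rpow_mul l0.le]
    norm_num
  have h2 : (ℓ : ℝ) ^ 5 * (ℓ : ℝ) ^ (-6 : ℝ) ≤ (ℓ : ℝ) ^ (-(1 / 4) : ℝ) := by
    rw [← Real.rpow_natCast, ← Real.rpow_add l0]
    exact Real.rpow_le_rpow_of_exponent_le lr (by norm_num)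
  have h3 : lg Z ≤ 14400 * (ℓ : ℝ) ^ (1 / 12 : ℝ) := by
    rw [hZ]
    have q1 := lg_pow_le ℓ 576 (by norm_num) hl1
    have q2 := lg_le_rpow (show (0 : ℝ) < 1 / 12 by norm_num) ℓ hl1
    have q3 : (1 + 2 / (1 / 12 : ℝ)) = 25 := by norm_num
    rw [q3] at q2
    push_cast at q1
    linarith
  have h4 : lg Z ^ 3 ≤ 14400 ^ 3 * (ℓ : ℝ) ^ (1 / 4 : ℝ) := by
    have q1 := pow_le_pow_left₀ (lg_pos Z).le h3 3
    refine q1.trans (le_of_eq ?_)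
    rw [mul_pow, ← Real.rpow_natCast ((ℓ : ℝ) ^ (1 / 12 : ℝ)), ← Real.rpow_mul l0.le]
    norm_num
  have h5 : (ℓ : ℝ) ^ (1 / 4 : ℝ) / Real.sqrt ℓ = (ℓ : ℝ) ^ (-(1 / 4) : ℝ) := by
    rw [Real.sqrt_eq_rpow, ← Real.rpow_sub l0]
    norm_num
  have hs : 0 < Real.sqrt (ℓ : ℝ) := Real.sqrt_pos.2 l0
  unfold EH
  rw [h1, hlg]
  have h6 : (X : ℝ) * lg Z ^ 3 / Real.sqrt ℓ ≤ X * (14400 ^ 3 * (ℓ : ℝ) ^ (-(1 / 4) : ℝ)) := by
    rw [← h5]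
    calc (X : ℝ) * lg Z ^ 3 / Real.sqrt ℓ ≤ X * (14400 ^ 3 * (ℓ : ℝ) ^ (1 / 4 : ℝ)) / Real.sqrt ℓ := by
          apply div_le_div_of_nonneg_right _ hs.le
          exact mul_le_mul_of_nonneg_left h4 hX0
      _ = _ := by ring
  have hA : 0 ≤ (1680 * 2 * (18 : ℝ) ^ 3 * CI ^ 2) * Real.sqrt (6 * kx) := by positivity
  have h7 := mul_le_mul_of_nonneg_left h6 hA
  have h8 : C * (X * (ℓ : ℝ) ^ 5) * (ℓ : ℝ) ^ (-6 : ℝ) ≤ C * X * (ℓ : ℝ) ^ (-(1 / 4) : ℝ) := by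
    calc C * (X * (ℓ : ℝ) ^ 5) * (ℓ : ℝ) ^ (-6 : ℝ) = (C * X) * ((ℓ : ℝ) ^ 5 * (ℓ : ℝ) ^ (-6 : ℝ)) := by ring
      _ ≤ (C * X) * (ℓ : ℝ) ^ (-(1 / 4) : ℝ) := mul_le_mul_of_nonneg_left h2 (by positivity)
  generalize (ℓ : ℝ) ^ (-(1 / 4) : ℝ) = y at *
  generalize (1680 * 2 * (18 : ℝ) ^ 3 * CI ^ 2) * Real.sqrt (6 * kx) = A at *
  calc C * (X * (ℓ : ℝ) ^ 5) * (ℓ : ℝ) ^ (-6 : ℝ) + A * (X * lg Z ^ 3 / Real.sqrt ℓ)
      ≤ C * X * y + A * (X * (14400 ^ 3 * y)) := add_le_add h8 h7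
    _ = _ := by ring

/-- the auxiliary parameter is small -/
lemma Z_le {P X ℓ : ℕ} (hP : 1 ≤ P) (hX : X ≤ (2 * P) ^ (3 * kx)) (hℓ : ℓ = Nat.log 2 X + 1)
    (hb : (6 * kx * 2305 : ℝ) ^ 1152 ≤ P) : ℓ ^ 576 ≤ P := by
  have Pr : (1 : ℝ) ≤ P := by exact_mod_cast hP
  have P0 : (0 : ℝ) < P := by linarith
  have hk : (0 : ℝ) < kx := by exact_mod_cast kx_pos
  have hlg : lg X = ℓ := by
    unfold lg
    rw [hℓ]
    push_cast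
    rfl
  have h1 := lg_X hP hX
  have h2 := lg_le_rpow (show (0 : ℝ) < 1 / 1152 by norm_num) P hP
  have h3 : (1 + 2 / (1 / 1152 : ℝ)) = 2305 := by norm_num
  rw [h3] at h2
  rw [hlg] at h1
  have hc0 : (0 : ℝ) ≤ 6 * kx * 2305 := by positivity
  have h4 : (ℓ : ℝ) ≤ (6 * kx * 2305) * (P : ℝ) ^ (1 / 1152 : ℝ) := by
    calc (ℓ : ℝ) ≤ 6 * kx * lg P := h1
      _ ≤ 6 * kx * (2305 * (P : ℝ) ^ (1 / 1152 : ℝ)) := mul_le_mul_of_nonneg_left h2 (by positivity)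
      _ = _ := by ring
  generalize (6 * kx * 2305 : ℝ) = c at *
  have h5 : (ℓ : ℝ) ^ 576 ≤ c ^ 576 * (P : ℝ) ^ (1 / 2 : ℝ) := by
    have q1 := pow_le_pow_left₀ (Nat.cast_nonneg ℓ) h4 576
    refine q1.trans (le_of_eq ?_)
    rw [mul_pow, ← Real.rpow_natCast ((P : ℝ) ^ (1 / 1152 : ℝ)), ← Real.rpow_mul P0.le]
    congr 2
    norm_num
  have h6 : c ^ 576 ≤ (P : ℝ) ^ (1 / 2 : ℝ) := by
    rw [← Real.sqrt_eq_rpow]
    apply Real.le_sqrt_of_sq_le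
    rw [← pow_mul]
    exact hb
  have h7 : (P : ℝ) ^ (1 / 2 : ℝ) * (P : ℝ) ^ (1 / 2 : ℝ) = P := by
    rw [← Real.rpow_add P0]
    norm_num
  have h8 : (ℓ : ℝ) ^ 576 ≤ P := by
    calc (ℓ : ℝ) ^ 576 ≤ c ^ 576 * (P : ℝ) ^ (1 / 2 : ℝ) := h5
      _ ≤ (P : ℝ) ^ (1 / 2 : ℝ) * (P : ℝ) ^ (1 / 2 : ℝ) := mul_le_mul_of_nonneg_right h6 (by positivity)
      _ = P := h7
  exact_mod_cast h8

/-- **a positive proportion of good elements** -/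
theorem positive : ∃ c : ℝ, 0 < c ∧ ∃ X0 : ℕ, ∀ X : ℕ, X0 ≤ X → c * X ≤ ((GB X).card : ℝ) := by
  obtain ⟨C, hC1, hC⟩ := good_triples
  obtain ⟨P1, hP1⟩ := TT_lo
  have hk : (0 : ℝ) < kx := by exact_mod_cast kx_pos
  set η : ℝ := 1 / (2560 * kx ^ 2) with hη
  have hη0 : 0 < η := by positivity
  obtain ⟨N1, hN1⟩ := small_pow (A := C + (1680 * 2 * (18 : ℝ) ^ 3 * CI ^ 2) * Real.sqrt (6 * kx) * 14400 ^ 3)
    (η := η) (a := 1 / 4) hη0 (by norm_num)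
  obtain ⟨N2, hN2⟩ := small_pow (A := C) (η := η) (a := 1 / 400) hη0 (by norm_num)
  obtain ⟨N3, hN3⟩ := exists_nat_ge ((6 * kx * 2305 : ℝ) ^ 1152)
  refine ⟨1 / (1280 * kx ^ 2) / (6 * kx) ^ 2, by positivity,
    max ((max (max P1 N2) (max N3 3) + 1) ^ (3 * kx)) (2 ^ N1), ?_⟩
  intro X hX
  have hXa : (max (max P1 N2) (max N3 3) + 1) ^ (3 * kx) ≤ X := (le_max_left _ _).trans hX
  have hXb : 2 ^ N1 ≤ X := (le_max_right _ _).trans hX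
  have hX1 : 1 ≤ X := Nat.one_le_two_pow.trans hXb
  have hk3 : 1 ≤ 3 * kx := by have := kx_pos; omega
  obtain ⟨P, hP, hPX, hXP⟩ := exists_root hk3 hX1
  have hPbig : max (max P1 N2) (max N3 3) < P := by
    have h1 := lt_of_pow_lt_pow_left₀ _ (Nat.zero_le _) (hXa.trans_lt hXP)
    omega
  have b1 : P1 ≤ P := ((le_max_left _ _).trans (le_max_left _ _)).trans hPbig.le
  have b2 : N2 ≤ P := ((le_max_right _ _).trans (le_max_left _ _)).trans hPbig.le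
  have b3 : N3 ≤ P := ((le_max_left _ _).trans (le_max_right _ _)).trans hPbig.le
  have b4 : 3 ≤ P := ((le_max_right _ _).trans (le_max_right _ _)).trans hPbig.le
  have hX2 : X ≤ (2 * P) ^ (3 * kx) := by
    refine hXP.le.trans (Nat.pow_le_pow_left (by omega) _)
  obtain ⟨ℓ, hℓ⟩ : ∃ ℓ, ℓ = Nat.log 2 X + 1 := ⟨_, rfl⟩
  have hℓ1 : N1 ≤ ℓ := by
    have : N1 ≤ Nat.log 2 X := (Nat.le_log_iff_pow_le (by norm_num) (by omega)).2 hXb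
    omega
  have hZP : ℓ ^ 576 ≤ P := by
    refine Z_le hP hX2 hℓ (hN3.trans ?_)
    exact_mod_cast b3
  have hZ1 : 1 ≤ ℓ ^ 576 := Nat.one_le_pow _ _ (by omega)
  have h1 := hC P X (ℓ ^ 576) b4 hPX hX2 hZ1 hZP
  have h2 := err_bound (C := C) (by linarith) hℓ rfl
  have h3 := hN1 ℓ hℓ1
  have h4 := hN2 P b2
  have h5 := hP1 P b1 X hPX
  have h6 := TS_GB (by omega) hX2
  have hX0 : (0 : ℝ) ≤ X := Nat.cast_nonneg X
  have h7 := mul_le_mul_of_nonneg_right h3 hX0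
  have h8 := mul_le_mul_of_nonneg_right h4 hX0
  have h9 : C * X * (P : ℝ) ^ (-(1 / 400) : ℝ) = C * (P : ℝ) ^ (-(1 / 400) : ℝ) * X := by ring
  rw [h9] at h1
  have h10 : (X : ℝ) / (1280 * kx ^ 2) ≤ TS P X (fun m p q => gd (m * (p * q))) := by
    have e1 : (X : ℝ) / (1280 * kx ^ 2) = 1 / 4 * ((X : ℝ) / (160 * kx ^ 2)) - η * X - η * X := by
      rw [hη]
      field_simp
      ring
    rw [e1]
    linarith
  have h11 := h10.trans h6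
  have e2 : 1 / (1280 * (kx : ℝ) ^ 2) / (6 * kx) ^ 2 * X = (X : ℝ) / (1280 * kx ^ 2) / (6 * kx) ^ 2 := by ring
  rw [e2, div_le_iff₀ (by positivity)]
  linarith

end Pool.Agent.Y699
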