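import Pool.Agent.Y699.Ff

/-!
More on the Laplacian identity over the field with two elements.
-/

set_option autoImplicit false
set_option linter.unusedSectionVars false

namespace Pool.Agent.Y699.Ff

open Finset

variable {ι : Type*} [Fintype ι] [DecidableEq ι]

theorem tau_zero (e : ι → ι → ZMod 2) (he : ∀ v, e v v = 0)
    {V : Finset ι} {z : ι → ZMod 2} (hz : ∀ v ∈ V, ∑ u ∈ V, e u v * (z u + z v) = 0)
    {a b : ι} (ha : a ∈ V) (hb : b ∈ V) (hab : z a ≠ z b) {r : ι} (hr : r ∈ V) : tau e r V = 0 := by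
  unfold tau
  rw [← Matrix.exists_vecMul_eq_zero_iff]
  set y : ι → ZMod 2 := fun v => if v ∈ V then z v + z r else 0 with hy
  have hyr : y r = 0 := by
    rw [hy]
    simp only [if_pos hr]
    exact CharTwo.add_self_eq_zero _
  refine ⟨y, ?_, ?_⟩
  · intro h0
    have h1 := congrFun h0 a
    have h2 := congrFun h0 b
    simp only [hy, if_pos ha, if_pos hb, Pi.zero_apply] at h1 h2
    apply hab
    have h3 : z a + z r + (z b + z r) = 0 := by rw [h1, h2, add_zero]
    have h4 : z r + z r = 0 := CharTwo.add_self_eq_zero _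
    have h5 : z a + z b = 0 := by linear_combination h3 - h4
    exact CharTwo.add_eq_zero.1 h5
  · funext v
    rw [Matrix.vecMul, dotProduct, Pi.zero_apply]
    by_cases hv : v ∈ V.erase r
    · have h4 : ∀ u, y u * MM (e r) e (V.erase r) (V.erase r) u v =
          (if u ∈ V.erase r then e u v * y u else 0) +
            (if u = v then (∑ u ∈ V, e u v) * y v else 0) := by
        intro u
        unfold MM dg
        rw [if_pos hv, Finset.add_sum_erase V (fun u => e u v) hr]
        by_cases huv : u = v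
        · subst huv
          rw [if_pos rfl, if_pos rfl, he]
          simp [mul_comm]
        · rw [if_neg huv, if_neg huv]
          split_ifs <;> ring
      simp_rw [h4]
      rw [Finset.sum_add_distrib, Finset.sum_ite_eq', if_pos (mem_univ v),
        Finset.sum_ite_mem, Finset.univ_inter]
      have h5 : ∑ u ∈ V.erase r, e u v * y u = ∑ u ∈ V, e u v * y u := by
        rw [← Finset.add_sum_erase V (fun u => e u v * y u) hr, hyr, mul_zero, zero_add]
      rw [h5, Finset.sum_mul, ← Finset.sum_add_distrib]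
      have hvV : v ∈ V := (mem_erase.1 hv).2
      rw [← hz v hvV]
      refine Finset.sum_congr rfl fun u hu => ?_
      simp only [hy, if_pos hu, if_pos hvV]
      have h4 : z r + z r = 0 := CharTwo.add_self_eq_zero _
      linear_combination (e u v) * h4
    · have h4 : ∀ u, y u * MM (e r) e (V.erase r) (V.erase r) u v = if u = v then y v else 0 := by
        intro u
        unfold MM
        rw [if_neg hv]
        by_cases huv : u = v
        · subst huv
          rw [if_pos rfl, if_pos rfl, mul_one]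
        · rw [if_neg huv, if_neg huv, mul_zero]
      simp_rw [h4]
      rw [Finset.sum_ite_eq', if_pos (mem_univ v)]
      by_cases hvr : v = r
      · rw [hvr]; exact hyr
      · have hvV : v ∉ V := fun h => hv (mem_erase.2 ⟨hvr, h⟩)
        simp only [hy, if_neg hvV]

theorem ell_zero (w : ι → ZMod 2) (e : ι → ι → ZMod 2) (he : ∀ v, e v v = 0)
    (hs : ∀ u v, e u v = e v u) {V : Finset ι} (hw : ∑ r ∈ V, w r = 0) : ell w e V = 0 := by
  by_cases hV : ∀ z : ι → ZMod 2, (∀ v ∈ V, ∑ u ∈ V, e u v * (z u + z v) = 0) →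
      ∀ u ∈ V, ∀ v ∈ V, z u = z v
  · rw [ell_one w e he hs hV, hw]
  · push Not at hV
    obtain ⟨z, hz, a, ha, b, hb, hab⟩ := hV
    unfold ell
    refine Finset.sum_eq_zero fun r hr => ?_
    rw [tau_zero e he hz ha hb hab hr, mul_zero]

theorem sum_ell_one (w : ι → ZMod 2) (e : ι → ι → ZMod 2) (he : ∀ v, e v v = 0)
    (hs : ∀ u v, e u v = e v u) {V : Finset ι} (hV : 2 ≤ V.card) :
    ∑ S ∈ V.powerset.filter (fun O => ∑ j ∈ O, w j = 1),
      ell w e S * ∏ v ∈ V \ S, ∑ u ∈ S, e u v = 0 := by
  rw [← sum_ell w e he hV, Finset.sum_filter]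
  refine Finset.sum_congr rfl fun S _ => ?_
  split_ifs with h
  · rfl
  · have h0 : ∑ j ∈ S, w j = 0 := by
      have : ∀ a : ZMod 2, a ≠ 1 → a = 0 := by decide
      exact this _ h
    rw [ell_zero w e he hs h0, zero_mul]

theorem sum_reindex {w : ι → ZMod 2} {V : Finset ι} {r : ι} (hr : r ∈ V) (hwr : w r = 1)
    (T : Finset ι → ZMod 2) (f : Finset ι → Finset ι) (O₀ : Finset ι)
    (h1 : ∀ S ⊆ V.erase r, f S ⊆ V) (h2 : ∀ S ⊆ V.erase r, ∑ j ∈ f S, w j = 1)
    (h3 : ∀ S ⊆ V.erase r, ∀ j ∈ V.erase r, (j ∈ f S ↔ ¬ (j ∈ O₀ ↔ j ∈ S))) :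
    ∑ S ∈ (V.erase r).powerset, T (f S) =
      ∑ O ∈ V.powerset.filter (fun O => ∑ j ∈ O, w j = 1), T O := by
  refine Finset.sum_bij (fun S _ => f S) ?_ ?_ ?_ (fun _ _ => rfl)
  · intro S hS
    rw [Finset.mem_powerset] at hS
    rw [Finset.mem_filter, Finset.mem_powerset]
    exact ⟨h1 S hS, h2 S hS⟩
  · intro S hS S' hS' heq
    rw [Finset.mem_powerset] at hS hS'
    ext j
    constructor
    · intro hj
      have a1 := h3 S hS j (hS hj)
      have a2 := h3 S' hS' j (hS hj)
      rw [heq] at a1
      tauto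
    · intro hj
      have a1 := h3 S hS j (hS' hj)
      have a2 := h3 S' hS' j (hS' hj)
      rw [heq] at a1
      tauto
  · intro O hO
    rw [Finset.mem_filter, Finset.mem_powerset] at hO
    refine ⟨(V.erase r).filter (fun j => ¬ (j ∈ O₀ ↔ j ∈ O)), ?_, ?_⟩
    · rw [Finset.mem_powerset]; exact Finset.filter_subset _ _
    · set S := (V.erase r).filter (fun j => ¬ (j ∈ O₀ ↔ j ∈ O)) with hSdef
      have hS : S ⊆ V.erase r := Finset.filter_subset _ _
      have b1 : ∀ j ∈ V.erase r, (j ∈ f S ↔ j ∈ O) := by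
        intro j hj
        rw [h3 S hS j hj, hSdef, Finset.mem_filter]
        tauto
      have b2 : (f S).erase r = O.erase r := by
        ext j
        rw [Finset.mem_erase, Finset.mem_erase]
        constructor
        · rintro ⟨c1, c2⟩
          exact ⟨c1, (b1 j (Finset.mem_erase.2 ⟨c1, h1 S hS c2⟩)).1 c2⟩
        · rintro ⟨c1, c2⟩
          exact ⟨c1, (b1 j (Finset.mem_erase.2 ⟨c1, hO.1 c2⟩)).2 c2⟩
      have b3 : r ∈ f S ↔ r ∈ O := by
        have c1 := h2 S hS
        have c2 := hO.2
        constructor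
        · intro h
          by_contra h'
          rw [← Finset.add_sum_erase _ _ h, b2, Finset.erase_eq_of_notMem h', c2, hwr] at c1
          exact absurd c1 (by decide)
        · intro h
          by_contra h'
          rw [← Finset.add_sum_erase _ _ h, ← b2, Finset.erase_eq_of_notMem h', c1, hwr] at c2
          exact absurd c2 (by decide)
      ext j
      by_cases hj : j = r
      · rw [hj]; exact b3
      · constructor
        · intro c
          exact (b1 j (Finset.mem_erase.2 ⟨hj, h1 S hS c⟩)).1 c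
        · intro c
          exact (b1 j (Finset.mem_erase.2 ⟨hj, hO.1 c⟩)).2 c

end Pool.Agent.Y699.Ff
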