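import Pool.Agent.Y699.Qn
import Pool.Agent.Y699.Qf

/-!
The two-adic valuation of the quartic central values.
-/

set_option autoImplicit false
set_option linter.unusedSectionVars false
set_option linter.unusedSimpArgs false

open Filter Complex
open scoped Topology PeriodPair
open H667R3 hiding sq
open Pool.Agent.TH936.CM Pool.Agent.W192.HK

namespace Pool.Agent.Y699

open H385 (ZI RQ im1 nrm)
open Pool.Agent.H304R3.HK (tc HC LH chi_le)
open Pool.Agent.W164.RC (tc_mul tc_star two2 prim_iff_dvd unit_cases)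
open Pool.Agent.H304R2.EC.A1 (prim prim_mul prim_cancel prim_one prim_norm_odd prim_star eq_one_of_prim
  norm_def' re_mul' im_mul' eq_of_dvd prim_ne_zero)

variable {L : PeriodPair} {Ω : ℂ} {ι : Type} [Fintype ι] [DecidableEq ι] {pr : ι → ZI}

/-- the odd support of the exponents -/
def Od (V : Finset ι) (e : ι → ℕ) : Finset ι := V.filter (fun i => e i % 2 = 1)

section val

variable {Γ : Type*} [LinearOrderedCommGroupWithZero Γ] {v : Valuation ℂ Γ} (h2 : v 2 < 1)
  (h : GLat L Ω)

include h2 in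
lemma cg_one {x : ZI} (hx : x.norm = 1) : Cg v (tc x) 1 := by
  apply (tc_par h2 x).2
  rcases unit_cases hx with h | h | h | h <;> rw [h] <;> decide

include h2 in
lemma cg_one_neg : Cg v (-1) 1 := by
  refine ⟨by rw [Valuation.map_neg, map_one], by rw [map_one], ?_⟩
  have e : (-1 - 1 : ℂ) = -2 := by norm_num
  rw [e, Valuation.map_neg]
  exact h2

include h2 in
lemma unit_cg {x : ZI} (hx : x.norm = 1) :
    Cg v ((1 - tc x) / (1 + I)) (uu (if x ^ 2 = -1 then 1 else 0)) := by
  have hg := v_pi_lt (v := v) h2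
  have h1I : (1 + I : ℂ) ≠ 0 := one_I_ne
  have eI : (1 - I) / (1 + I) = -I := by
    rw [div_eq_iff h1I]
    linear_combination I_sq
  have c1 : Cg v (-I) 1 := by
    refine ⟨by rw [Valuation.map_neg, v_I], by rw [map_one], ?_⟩
    have e : (-I - 1 : ℂ) = -(1 + I) := by ring
    rw [e, Valuation.map_neg]
    exact hg
  rcases unit_cases hx with h | h | h | h
  · rw [h, tc_one, sub_self, zero_div, if_neg (by decide), uu_zero]
    exact Cg.refl (by rw [map_zero]; exact zero_le)
  · rw [h, if_pos (by decide), uu_one, tc_im1, eI]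
    exact c1
  · rw [h, if_neg (by decide), uu_zero]
    have e1 : (im1 : ZI) ^ 2 = -1 := by decide
    rw [e1, tc_neg, tc_one]
    apply Cg.zero
    have e2 : (1 - -1 : ℂ) / (1 + I) = -I * (1 + I) := by
      rw [div_eq_iff h1I]
      linear_combination (I + 2) * I_sq
    rw [e2, map_mul, Valuation.map_neg, v_I, one_mul]
    exact hg
  · rw [h, if_pos (by decide), uu_one]
    have e1 : (im1 : ZI) ^ 3 = -im1 := by decide
    rw [e1, tc_neg, tc_im1, sub_neg_eq_add, div_self h1I]
    exact Cg.refl (by rw [map_one])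

include h2 h in
/-- the division values are congruent to one -/
lemma hh_cg {w : ℂ} (hw : OT L w) : Cg v (hh L w) 1 := by
  have h2w := hw.two h
  obtain ⟨m1, m2⟩ := h.mul_pi h2w
  have hw1 := hw.pow h 1
  rw [pow_one] at hw1
  obtain ⟨-, m3⟩ := h.mul_pi (hw1.two h)
  have hne2 : ℘[L] w ^ 2 - 1 ≠ 0 := by
    rw [← m1]
    exact mul_ne_zero (mul_ne_zero (mul_ne_zero two_ne_zero I_ne_zero) m2) m3
  have heq := h.eqn hw.nm
  have h1I : (1 + I : ℂ) ≠ 0 := one_I_ne
  have hsq : hh L w ^ 2 * ℘[L] ((1 + I) * w) = -1 := by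
    have e1 : hh L w ^ 2 = ℘'[L] w ^ 2 / ((℘[L] w ^ 2 - 1) ^ 2 * (1 + I) ^ 2) := by
      unfold hh
      rw [div_pow, mul_pow]
    have e2 : (1 + I : ℂ) ^ 2 = 2 * I := by linear_combination I_sq
    rw [e1, heq, e2, div_mul_eq_mul_div, div_eq_iff (mul_ne_zero (pow_ne_zero 2 hne2)
      (mul_ne_zero two_ne_zero I_ne_zero))]
    have e3 : 4 * ℘[L] w ^ 3 - 4 * ℘[L] w = 4 * ℘[L] w * (℘[L] w ^ 2 - 1) := by ring
    rw [e3]
    have e4 : 4 * ℘[L] w * ℘[L] ((1 + I) * w) = -(2 * I) * (2 * I * ℘[L] w * ℘[L] ((1 + I) * w)) := by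
      linear_combination (4 * ℘[L] w * ℘[L] ((1 + I) * w)) * I_sq
    have e5 : 4 * ℘[L] w * (℘[L] w ^ 2 - 1) * ℘[L] ((1 + I) * w) =
        (4 * ℘[L] w * ℘[L] ((1 + I) * w)) * (℘[L] w ^ 2 - 1) := by ring
    rw [e5, e4, m1]
    ring
  have hp1 : Cg v (℘[L] ((1 + I) * w)) 1 := by
    refine ⟨wp_le h2 h hw1, by rw [map_one], ?_⟩
    rw [(wp_sub h2 h hw1).1]
    exact v_pi_lt h2
  have hv1 : v (℘[L] ((1 + I) * w)) = 1 := wp_one h2 h hw1
  have hv2 : v (hh L w) = 1 := by
    apply v_pow_one (n := 2) (by norm_num)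
    have := congrArg v hsq
    rw [map_mul, hv1, mul_one, map_pow, Valuation.map_neg, map_one] at this
    exact this
  have hs : Cg v (hh L w ^ 2) 1 := by
    have c1 : Cg v (hh L w ^ 2) (hh L w ^ 2) := Cg.refl (by rw [map_pow, hv2, one_pow])
    have c2 := c1.mul hp1
    rw [hsq, mul_one] at c2
    exact c2.symm.trans (cg_one_neg h2)
  refine ⟨hv2.le, by rw [map_one], ?_⟩
  have h5 : v ((hh L w - 1) ^ 2) < 1 := by
    have e : (hh L w - 1) ^ 2 = (hh L w ^ 2 - 1) - 2 * (hh L w - 1) := by ring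
    rw [e]
    refine v.map_sub_lt hs.s ?_
    rw [map_mul]
    refine lt_of_le_of_lt (mul_le_of_le_one_right' ?_) h2
    exact v.map_sub_le hv2.le (by rw [map_one])
  rw [map_pow] at h5
  by_contra hc
  push Not at hc
  exact absurd h5 (not_lt.2 (one_le_pow₀ hc))

include h2 in
/-- the factor of the reduction -/
lemma fac4_cg (hp : PF pr) {V : Finset ι} {e : ι → ℕ} {i : ι} (hi : i ∉ V) :
    Cg v ((tc (pr i) - tc (c4 pr V e (pr i))) / (1 + I)) (uu (∑ u ∈ Od V e, em pr u i)) := by
  have h1I : (1 + I : ℂ) ≠ 0 := one_I_ne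
  have hnd : ∀ j ∈ V, ¬ pr j ∣ pr i := by
    intro j hj hd
    have h1 := (hp.pp j).eq_of_dvd (hp.pp i) hd
    exact hi (hp.inj h1 ▸ hj)
  set x := c4 pr V e (pr i) with hx
  have hxn : x.norm = 1 := c4_norm hp V e hnd
  -- the first part
  have c1 : Cg v ((tc (pr i) - 1) / (1 + I)) 0 := by
    obtain ⟨t, ht⟩ := (prim_iff_dvd (pr i)).1 (hp.pp i).prm
    have h1 := congrArg tc ht
    rw [tc_sub, tc_one, tc_mul, tc_two2] at h1
    rw [h1]
    have e1 : (2 + 2 * I) * tc t / (1 + I) = 2 * tc t := by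
      field_simp
    rw [e1]
    apply Cg.zero
    rw [map_mul]
    exact lt_of_le_of_lt (mul_le_of_le_one_right' (tc_le h2 t)) h2
  have c2 := unit_cg h2 hxn
  have e0 : (tc (pr i) - tc x) / (1 + I) = (tc (pr i) - 1) / (1 + I) + (1 - tc x) / (1 + I) := by
    rw [← add_div]; ring
  rw [e0]
  have c3 := c1.add c2
  rw [zero_add] at c3
  have e1 : (∑ u ∈ Od V e, em pr u i) = (if x ^ 2 = -1 then 1 else 0 : ZMod 2) := by
    have h1 : x ^ 2 = ∏ j ∈ Od V e, ((qr (pr j) (pr i) : ℤ) : ZI) := by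
      rw [hx]
      unfold c4 Od
      rw [← Finset.prod_pow, Finset.prod_filter]
      refine Finset.prod_congr rfl fun j hj => ?_
      unfold fe
      rw [if_neg (hnd j hj), ← pow_mul, mul_comm, pow_mul, q4_sq (hp.pp j)]
      rcases qr_cases (hnd j hj) with h5 | h5
      · rw [h5]; split_ifs <;> simp
      · rw [h5]
        split_ifs with h6
        · rw [← Int.cast_pow, Odd.neg_one_pow (Nat.odd_iff.2 h6)]
        · rw [← Int.cast_pow, Even.neg_one_pow (Nat.even_iff.2 (by omega))]; simp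
    have hsub : Od V e ⊆ V := Finset.filter_subset _ _
    have h2' : ∀ S : Finset ι, S ⊆ V → ((∏ j ∈ S, ((qr (pr j) (pr i) : ℤ) : ZI) = 1 ∧
        ∑ u ∈ S, em pr u i = 0) ∨ (∏ j ∈ S, ((qr (pr j) (pr i) : ℤ) : ZI) = -1 ∧
        ∑ u ∈ S, em pr u i = 1)) := by
      intro S
      induction S using Finset.induction_on with
      | empty => intro _; left; simp
      | insert a S ha ih =>
        intro hS
        have hSV : S ⊆ V := fun j hj => hS (Finset.mem_insert_of_mem hj)
        have haV : a ∈ V := hS (Finset.mem_insert_self _ _)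
        rw [Finset.prod_insert ha, Finset.sum_insert ha]
        have hem : em pr a i = if qr (pr a) (pr i) = -1 then 1 else 0 := by
          rw [em_symm hp a i]; rfl
        rcases qr_cases (hnd a haV) with h5 | h5
        · rw [hem, h5]
          rcases ih hSV with ⟨i1, i2⟩ | ⟨i1, i2⟩
          · left; rw [i1, i2]; simp
          · right; rw [i1, i2]; simp
        · rw [hem, h5, if_pos rfl]
          rcases ih hSV with ⟨i1, i2⟩ | ⟨i1, i2⟩
          · right; rw [i1, i2]; simp
          · left; rw [i1, i2]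
            refine ⟨by simp, by decide⟩
    rcases h2' _ hsub with ⟨a1, a2⟩ | ⟨a1, a2⟩
    · rw [a2, h1, a1, if_neg (by decide)]
    · rw [a2, h1, a1, if_pos rfl]
  rw [e1]
  exact c3

/-- the value for a vanishing exponent -/
lemma M4_erase (hp : PF pr) {V : Finset ι} {i : ι} (hi : i ∈ V) {e : ι → ℕ} (he : e i = 0)
    (hW : Wt pr V e % 4 = 3) [Fintype (RQ (DD pr V))] [Fintype (RQ (DD pr (V.erase i)))]
    (h : GLat L Ω) :
    M4 L Ω pr V e = M4 L Ω pr (V.erase i) e * (tc (pr i) - tc (c4 pr (V.erase i) e (pr i))) := by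
  classical
  have hWe : Wt pr (V.erase i) e = Wt pr V e := by
    unfold Wt
    rw [← Finset.add_sum_erase V _ hi, he, zero_mul, zero_add]
  have hW' : Wt pr (V.erase i) e % 4 = 3 := by rw [hWe]; exact hW
  have hVe : (V.erase i).Nonempty := by
    by_contra hc
    rw [Finset.not_nonempty_iff_eq_empty] at hc
    rw [hc] at hW'
    simp [Wt] at hW'
  have l1 := lim_cc4 h hp ⟨i, hi⟩ hW
  have l2 := lim_cc4 h hp hVe hW'
  have hπ0 := tc_ne (hp.pp i).ne
  have hD0 := tc_ne (DD_ne hp V)
  have hD0' := tc_ne (DD_ne hp (V.erase i))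
  have hDV : tc (DD pr V) = tc (pr i) * tc (DD pr (V.erase i)) := by
    rw [← tc_mul]
    unfold DD
    rw [Finset.mul_prod_erase V pr hi]
  -- the relation of the regularized sums
  have key : ∀ δ : ℝ, 0 < δ → RS (cc4 pr V e) δ = RS (cc4 pr (V.erase i) e) δ -
      (tc (c4 pr (V.erase i) e (pr i))) / tc (pr i) *
        RS (cc4 pr (V.erase i) e) (δ * Complex.normSq (tc (pr i))) := by
    intro δ hδ
    have h1 := RS_dvd (π := pr i) (hp.pp i).ne (cc4 pr (V.erase i) e) δ
    have h3 : RS (fun b => cc4 pr (V.erase i) e (pr i * b)) (δ * Complex.normSq (tc (pr i))) =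
        tc (c4 pr (V.erase i) e (pr i)) *
          RS (cc4 pr (V.erase i) e) (δ * Complex.normSq (tc (pr i))) := by
      unfold RS
      rw [← tsum_mul_left]
      refine tsum_congr fun b => ?_
      have e5 : cc4 pr (V.erase i) e (pr i * b) =
          tc (c4 pr (V.erase i) e (pr i)) * cc4 pr (V.erase i) e b := by
        unfold cc4
        by_cases hb : prim b
        · rw [if_pos ((prim_mul_iff (hp.pp i).prm).2 hb), if_pos hb, c4_mul hp, tc_mul]
        · rw [if_neg (fun h' => hb ((prim_mul_iff (hp.pp i).prm).1 h')), if_neg hb, mul_zero]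
      show cc4 pr (V.erase i) e (pr i * b) * fd (δ * Complex.normSq (tc (pr i))) (tc b) = _
      rw [e5, mul_assoc]
    rw [h3] at h1
    have h4 : ∀ a, cc4 pr V e a = cc4 pr (V.erase i) e a -
        (if pr i ∣ a then cc4 pr (V.erase i) e a else 0) := by
      intro a
      have h5 : c4 pr V e a = fe (pr i) 0 a * c4 pr (V.erase i) e a := by
        unfold c4
        rw [← Finset.mul_prod_erase V _ hi, he]
      unfold cc4
      rw [h5]
      unfold fe
      by_cases ha : prim a
      · rw [if_pos ha, if_pos ha]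
        by_cases hd : pr i ∣ a
        · rw [if_pos hd, if_pos hd, zero_mul, tc_zero, sub_self]
        · rw [if_neg hd, if_neg hd, pow_zero, one_mul, sub_zero]
      · rw [if_neg ha, if_neg ha]
        split_ifs <;> simp
    have hs1 := summ_bd h.lat hδ (cc4_bd hp (V.erase i) e)
    have hs2 : Summable (fun a : ZI => (if pr i ∣ a then cc4 pr (V.erase i) e a else 0) * fd δ (tc a)) := by
      refine summ_bd h.lat hδ (C := 1) fun a => ?_
      split_ifs
      · exact cc4_bd hp _ _ a
      · rw [norm_zero]; norm_num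
    have h6 : RS (cc4 pr V e) δ = RS (cc4 pr (V.erase i) e) δ -
        RS (fun a => if pr i ∣ a then cc4 pr (V.erase i) e a else 0) δ := by
      unfold RS
      rw [← hs1.tsum_sub hs2]
      refine tsum_congr fun a => ?_
      rw [h4 a]
      ring
    rw [h6, h1]
    ring
  have hc : 0 < Complex.normSq (tc (pr i)) := Complex.normSq_pos.2 hπ0
  have l3 := l2.sub ((tendsto_scale l2 hc).const_mul
    (tc (c4 pr (V.erase i) e (pr i)) / tc (pr i)))
  have l4 := tendsto_nhds_unique (l1.congr' (by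
    filter_upwards [self_mem_nhdsWithin] with δ (hδ : 0 < δ)
    exact key δ hδ)) l3
  have hΩ := h.lat.ne
  have he1 : ℘[L] (Ω / 2) ≠ 0 := by
    intro h0
    have := h.e1_sq
    rw [h0] at this
    norm_num at this
  have h1I : (1 + I : ℂ) ≠ 0 := one_I_ne
  set κ := Ω * ℘[L] (Ω / 2) * (1 + I) / 2 with hκ
  have hκ0 : κ ≠ 0 := by
    rw [hκ]
    exact div_ne_zero (mul_ne_zero (mul_ne_zero hΩ he1) h1I) two_ne_zero
  rw [hDV] at l4
  field_simp at l4
  linear_combination l4

/-- the weight is odd for some prime in the support -/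
lemma exists_odd {V : Finset ι} {e : ι → ℕ} (hW : Wt pr V e % 4 = 3) :
    ∃ r ∈ V, wq (pr r) % 2 = 1 := by
  by_contra hc
  push Not at hc
  have h1 : Even (Wt pr V e) := by
    unfold Wt
    rw [Nat.even_iff]
    refine Finset.sum_nat_mod _ _ _ ▸ ?_
    have : ∀ i ∈ V, e i * wq (pr i) % 2 = 0 := by
      intro i hi
      have h2 : wq (pr i) % 2 = 0 := by have := hc i hi; omega
      rw [Nat.mul_mod, h2, mul_zero, Nat.zero_mod]
    rw [Finset.sum_congr rfl this, Finset.sum_const_zero, Nat.zero_mod]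
  rw [Nat.even_iff] at h1
  omega

end val

end Pool.Agent.Y699
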