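import Mathlib

/-!
An identity for determinants of Laplacians over the field with two elements.
-/

set_option autoImplicit false
set_option linter.unusedSectionVars false

namespace Pool.Agent.Y699.Ff

open Finset

variable {ι : Type*} [Fintype ι] [DecidableEq ι]

/-- degree -/
def dg (x : ι → ZMod 2) (e : ι → ι → ZMod 2) (J : Finset ι) (v : ι) : ZMod 2 := x v + ∑ u ∈ J, e u v

/-- the matrix -/
def MM (x : ι → ZMod 2) (e : ι → ι → ZMod 2) (U J : Finset ι) : Matrix ι ι (ZMod 2) := fun u v =>
  if v ∈ U then (if u = v then dg x e J v else if u ∈ J then e u v else 0)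
  else (if u = v then 1 else 0)

theorem det_perm (M : Matrix ι ι (ZMod 2)) : M.det = ∑ σ : Equiv.Perm ι, ∏ v, M (σ v) v := by
  rw [Matrix.det_apply']
  refine Finset.sum_congr rfl fun σ _ => ?_
  rcases Int.units_eq_one_or (Equiv.Perm.sign σ) with h | h
  · rw [h]; simp
  · rw [h]
    have : (((-1 : ℤˣ) : ℤ) : ZMod 2) = 1 := by decide
    rw [this, one_mul]

/-- the entries of the bordered matrix -/
def gg (x : ι → ZMod 2) (e : ι → ι → ZMod 2) : Option ι → ι → ZMod 2
  | none, v => x v
  | some u, v => e u v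

/-- weights -/
def GG (x : ι → ZMod 2) (e : ι → ι → ZMod 2) (U : Finset ι) (σ : Equiv.Perm ι) (o : Option ι)
    (v : ι) : ZMod 2 :=
  if v ∈ U then (if σ v = v then gg x e o v else if o = some (σ v) then e (σ v) v else 0)
  else (if σ v = v then 1 else 0)

/-- allowed values -/
def tt (U J : Finset ι) (v : ι) : Finset (Option ι) := if v ∈ U then insertNone J else {none}

theorem MM_eq (x : ι → ZMod 2) (e : ι → ι → ZMod 2) (U J : Finset ι) (σ : Equiv.Perm ι) (v : ι) :
    MM x e U J (σ v) v = ∑ o ∈ tt U J v, GG x e U σ o v := by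
  unfold MM tt GG
  by_cases hv : v ∈ U
  · simp only [if_pos hv]
    by_cases h : σ v = v
    · simp only [if_pos h]
      rw [Finset.sum_insertNone]
      rfl
    · simp only [if_neg h]
      rw [Finset.sum_ite_eq']
      simp
  · simp only [if_neg hv]
    rw [Finset.sum_singleton]

theorem even_perm (U : Finset ι) (hU : U.Nonempty) (τ : Equiv.Perm ι) (hτ : ∀ v ∈ U, τ v ≠ v)
    (c : ZMod 2) : ∑ σ ∈ (univ : Finset (Equiv.Perm ι)).filter (fun σ => ∀ v, σ v = v ∨ σ v = τ v),
      c = 0 := by
  have comm : ∀ σ : Equiv.Perm ι, (∀ v, σ v = v ∨ σ v = τ v) → ∀ v, σ (τ v) = τ (σ v) := by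
    intro σ h v
    rcases h v with h1 | h1
    · rw [h1]
      rcases h (τ v) with h2 | h2
      · exact h2
      · obtain ⟨u, hu⟩ := σ.surjective (τ v)
        rcases h u with h3 | h3
        · rw [hu] at h3
          rw [← h3] at hu
          exact hu
        · rw [hu] at h3
          have h4 := τ.injective h3
          rw [← h4] at hu
          rw [h1] at hu
          rw [← hu]
          exact h1
    · rw [h1]
      rcases h (τ v) with h2 | h2
      · have h3 : σ (τ v) = σ v := by rw [h2, h1]
        have h4 := σ.injective h3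
        rw [h4, h1]
      · exact h2
  refine Finset.sum_involution (fun σ _ => σ⁻¹ * τ) ?_ ?_ ?_ ?_
  · intro σ _
    exact CharTwo.add_self_eq_zero c
  · intro σ hσ _ h
    rw [mem_filter] at hσ
    obtain ⟨v, hv⟩ := hU
    have h1 : τ = σ * σ := inv_mul_eq_iff_eq_mul.1 h
    have h2 : τ v = σ (σ v) := by rw [h1]; rfl
    rcases hσ.2 v with h3 | h3
    · apply hτ v hv
      rw [h2, h3, h3]
    · apply hτ v hv
      have h4 : σ (σ v) = σ v := by rw [← h2, h3]
      have h5 := σ.injective h4
      rw [← h3, h5]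
  · intro σ hσ
    rw [mem_filter] at hσ ⊢
    refine ⟨mem_univ _, fun v => ?_⟩
    have h0 : (σ⁻¹ * τ) v = σ⁻¹ (τ v) := rfl
    rw [h0]
    obtain ⟨u, hu⟩ := σ.surjective (τ v)
    have h1 : σ⁻¹ (τ v) = u := by rw [← hu]; simp
    rw [h1]
    rcases hσ.2 u with h3 | h3
    · right
      rw [← hu, h3]
    · left
      rw [hu] at h3
      exact (τ.injective h3).symm
  · intro σ hσ
    rw [mem_filter] at hσ
    have hc := comm σ hσ.2
    ext v
    have h0 : ((σ⁻¹ * τ)⁻¹ * τ) v = τ⁻¹ (σ (τ v)) := by
      rw [mul_inv_rev, inv_inv]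
      rfl
    rw [h0, hc]
    simp

theorem sum_toggle (U : Finset ι) (u0 : ι) (hu0 : u0 ∈ U) (P : Finset ι → Prop) [DecidablePred P]
    (hP : ∀ J : Finset ι, u0 ∉ J → (P J ↔ P (insert u0 J))) :
    ∑ J ∈ U.powerset, (if P J then (1 : ZMod 2) else 0) = 0 := by
  refine Finset.sum_involution (fun J _ => if u0 ∈ J then J.erase u0 else insert u0 J) ?_ ?_ ?_ ?_
  · intro J _
    have h : P J ↔ P (if u0 ∈ J then J.erase u0 else insert u0 J) := by
      split_ifs with h
      · have := hP (J.erase u0) (by simp)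
        rw [insert_erase h] at this
        exact this.symm
      · exact hP J h
    by_cases hJ : P J
    · rw [if_pos hJ, if_pos (h.1 hJ)]
      decide
    · rw [if_neg hJ, if_neg (fun h' => hJ (h.2 h'))]
      decide
  · intro J _ _
    split_ifs with h
    · intro h'
      have : u0 ∈ J.erase u0 := by rw [h']; exact h
      simp at this
    · intro h'
      exact h (by rw [← h']; simp)
  · intro J hJ
    rw [mem_powerset] at hJ ⊢
    split_ifs with h
    · exact (erase_subset _ _).trans hJ
    · exact insert_subset hu0 hJ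
  · intro J _
    by_cases h : u0 ∈ J
    · simp [h, insert_erase h]
    · simp [h]

theorem sum_det (x : ι → ZMod 2) (e : ι → ι → ZMod 2) (he : ∀ v, e v v = 0) (U : Finset ι)
    (hU : U.Nonempty) : ∑ J ∈ U.powerset, (MM x e U J).det = 0 := by
  classical
  have h1 : ∀ J ∈ U.powerset, (MM x e U J).det = ∑ σ : Equiv.Perm ι, ∑ p : ι → Option ι,
      (∏ v, GG x e U σ (p v) v) * (if ∀ v, p v ∈ tt U J v then 1 else 0) := by
    intro J _
    rw [det_perm]
    refine Finset.sum_congr rfl fun σ _ => ?_
    simp_rw [MM_eq]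
    rw [Finset.prod_univ_sum]
    simp_rw [mul_ite, mul_one, mul_zero]
    rw [← Finset.sum_filter]
    refine Finset.sum_congr ?_ fun _ _ => rfl
    ext p
    simp
  rw [Finset.sum_congr rfl h1, Finset.sum_comm]
  simp_rw [Finset.sum_comm (s := U.powerset)]
  rw [Finset.sum_comm]
  refine Finset.sum_eq_zero fun p _ => ?_
  simp_rw [← Finset.mul_sum]
  by_cases hA : ∃ u0 ∈ U, ∀ v, p v ≠ some u0
  · obtain ⟨u0, hu0, h2⟩ := hA
    refine Finset.sum_eq_zero fun σ _ => ?_
    rw [sum_toggle U u0 hu0, mul_zero]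
    intro J _
    refine forall_congr' fun v => ?_
    unfold tt
    split_ifs with hv
    · rcases hpv : p v with _ | w
      · simp
      · have h3 : w ≠ u0 := by
          rintro rfl
          exact h2 v hpv
        simp [h3]
    · exact Iff.rfl
  · push Not at hA
    by_cases hB : ∃ v, v ∉ U ∧ p v ≠ none
    · obtain ⟨v, hv, hpv⟩ := hB
      refine Finset.sum_eq_zero fun σ _ => ?_
      rw [Finset.sum_eq_zero, mul_zero]
      intro J _
      rw [if_neg]
      intro h
      have := h v
      unfold tt at this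
      rw [if_neg hv, mem_singleton] at this
      exact hpv this
    · push Not at hB
      -- the permutation
      set f : ι → ι := fun v => (p v).getD v with hf
      have hsurj : Function.Surjective f := by
        intro u
        by_cases hu : u ∈ U
        · obtain ⟨v, hv⟩ := hA u hu
          exact ⟨v, by simp only [hf]; rw [hv]; rfl⟩
        · exact ⟨u, by simp only [hf]; rw [hB u hu]; rfl⟩
      have hbij : Function.Bijective f := Finite.surjective_iff_bijective.1 hsurj
      set τ : Equiv.Perm ι := Equiv.ofBijective f hbij with hτ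
      have hτf : ∀ v, τ v = f v := fun v => rfl
      have hpU : ∀ v ∈ U, p v = some (τ v) := by
        intro v hv
        rcases hpv : p v with _ | w
        · exfalso
          obtain ⟨v', hv'⟩ := hA v hv
          have e1 : f v = v := by simp only [hf]; rw [hpv]; rfl
          have e2 : f v' = v := by simp only [hf]; rw [hv']; rfl
          have := hbij.1 (e1.trans e2.symm)
          rw [← this, hpv] at hv'
          exact absurd hv' (by simp)
        · rw [hτf]
          simp only [hf]
          rw [hpv]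
          rfl
      have hnU : ∀ v, v ∉ U → τ v = v := by
        intro v hv
        rw [hτf]
        simp only [hf]
        rw [hB v hv]
        rfl
      rw [← Finset.sum_mul]
      by_cases hfix : ∃ v ∈ U, τ v = v
      · obtain ⟨v, hv, hτv⟩ := hfix
        rw [Finset.sum_eq_zero, zero_mul]
        intro σ _
        refine Finset.prod_eq_zero (mem_univ v) ?_
        unfold GG
        rw [if_pos hv, hpU v hv, hτv]
        by_cases h : σ v = v
        · rw [if_pos h]
          exact he v
        · rw [if_neg h, if_neg]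
          intro h'
          exact h (Option.some_injective _ h').symm
      · push Not at hfix
        have h3 : ∀ σ : Equiv.Perm ι, ∏ v, GG x e U σ (p v) v =
            if ∀ v, σ v = v ∨ σ v = τ v then ∏ v ∈ U, e (τ v) v else 0 := by
          intro σ
          split_ifs with h
          · rw [← Finset.prod_subset (Finset.subset_univ U)]
            · refine Finset.prod_congr rfl fun v hv => ?_
              unfold GG
              rw [if_pos hv, hpU v hv]
              rcases h v with h4 | h4
              · rw [if_pos h4]; rfl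
              · rw [if_neg (by rw [h4]; exact hfix v hv), h4, if_pos rfl]
            · intro v _ hv
              unfold GG
              rw [if_neg hv, if_pos]
              rcases h v with h4 | h4
              · exact h4
              · rw [h4, hnU v hv]
          · push Not at h
            obtain ⟨v, hv1, hv2⟩ := h
            refine Finset.prod_eq_zero (mem_univ v) ?_
            unfold GG
            by_cases hv : v ∈ U
            · rw [if_pos hv, if_neg hv1, if_neg]
              rw [hpU v hv]
              intro h'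
              exact hv2 (Option.some_injective _ h').symm
            · rw [if_neg hv, if_neg hv1]
        simp_rw [h3]
        rw [← Finset.sum_filter, even_perm U hU τ hfix, zero_mul]

theorem det_MM_aux (x : ι → ZMod 2) (e : ι → ι → ZMod 2) {U' J : Finset ι} (hJ' : J ⊆ U') :
    (MM x e U' J).det = (Matrix.toSquareBlockProp (MM x e J J) (fun i => i ∈ J)).det *
      ∏ v ∈ U' \ J, dg x e J v := by
  have h0 := Matrix.twoBlockTriangular_det (MM x e U' J) (fun i => i ∈ J) (by
    intro i hi j hj
    unfold MM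
    have hij : i ≠ j := fun h => hi (h ▸ hj)
    simp [hij, hi])
  rw [h0]
  have e1 : Matrix.toSquareBlockProp (MM x e U' J) (fun i => i ∈ J) =
      Matrix.toSquareBlockProp (MM x e J J) (fun i => i ∈ J) := by
    ext ⟨i, hi⟩ ⟨j, hj⟩
    show MM x e U' J i j = MM x e J J i j
    unfold MM
    rw [if_pos (hJ' hj), if_pos hj]
  have e2 : (Matrix.toSquareBlockProp (MM x e U' J) (fun i => ¬ i ∈ J)) =
      Matrix.diagonal (fun i : {i // ¬ i ∈ J} => if (i : ι) ∈ U' then dg x e J i else 1) := by
    ext ⟨i, hi⟩ ⟨j, hj⟩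
    show MM x e U' J i j = _
    unfold MM
    by_cases hij : i = j
    · subst hij
      simp
    · have : (⟨i, hi⟩ : {i // ¬ i ∈ J}) ≠ ⟨j, hj⟩ := fun h => hij (congrArg Subtype.val h)
      rw [Matrix.diagonal_apply_ne _ this]
      simp [hij, hi]
  have h2 : ∏ v ∈ U' \ J, dg x e J v =
      ∏ v ∈ (univ : Finset ι).filter (fun v => ¬ v ∈ J), (if v ∈ U' then dg x e J v else 1) := by
    rw [Finset.prod_ite, Finset.prod_const_one, mul_one]
    refine Finset.prod_congr ?_ fun _ _ => rfl
    ext v
    simp [and_comm]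
  have h3 : ((MM x e U' J).toSquareBlockProp fun i => i ∉ J).det = ∏ v ∈ U' \ J, dg x e J v := by
   rw [e2, Matrix.det_diagonal, h2]
   exact (Finset.prod_subtype ((univ : Finset ι).filter (fun v => ¬ v ∈ J)) (fun v => by simp)
    (fun v => if v ∈ U' then dg x e J v else 1)).symm
  rw [h3, e1]
  have hdec : ∀ (f1 f2 : Fintype {i : ι // i ∈ J}) (d1 d2 : DecidableEq {i : ι // i ∈ J})
      (A : Matrix {i : ι // i ∈ J} {i : ι // i ∈ J} (ZMod 2)),
      @Matrix.det _ d1 f1 _ _ A = @Matrix.det _ d2 f2 _ _ A := by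
    intro f1 f2 d1 d2 A
    rw [Subsingleton.elim f1 f2, Subsingleton.elim d1 d2]
  rw [hdec]

/-- block decomposition -/
theorem det_MM (x : ι → ZMod 2) (e : ι → ι → ZMod 2) {U J : Finset ι} (hJ : J ⊆ U) :
    (MM x e U J).det = (MM x e J J).det * ∏ v ∈ U \ J, dg x e J v := by
  have k1 := det_MM_aux x e hJ
  have k2 := det_MM_aux x e (Finset.Subset.refl J)
  rw [Finset.sdiff_self, Finset.prod_empty, mul_one] at k2
  rw [k1, k2]

/-- the determinant of the reduced Laplacian of `S` -/
def tau (e : ι → ι → ZMod 2) (r : ι) (S : Finset ι) : ZMod 2 :=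
  (MM (e r) e (S.erase r) (S.erase r)).det

theorem sum_tau (e : ι → ι → ZMod 2) (he : ∀ v, e v v = 0) {r : ι} {V : Finset ι} (hr : r ∈ V)
    (hV : 2 ≤ V.card) :
    ∑ S ∈ V.powerset.filter (fun S => r ∈ S), tau e r S * ∏ v ∈ V \ S, ∑ u ∈ S, e u v = 0 := by
  have hU : (V.erase r).Nonempty := by
    rw [← Finset.card_pos, Finset.card_erase_of_mem hr]
    omega
  have h := sum_det (e r) e he (V.erase r) hU
  rw [← h]
  refine Finset.sum_bij' (fun S _ => S.erase r) (fun J _ => insert r J) ?_ ?_ ?_ ?_ ?_
  · intro S hS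
    rw [mem_filter, mem_powerset] at hS
    rw [mem_powerset]
    exact erase_subset_erase r hS.1
  · intro J hJ
    rw [mem_powerset] at hJ
    rw [mem_filter, mem_powerset]
    exact ⟨insert_subset hr (hJ.trans (erase_subset _ _)), mem_insert_self _ _⟩
  · intro S hS
    rw [mem_filter] at hS
    exact insert_erase hS.2
  · intro J hJ
    rw [mem_powerset] at hJ
    refine erase_insert ?_
    intro h'
    have := hJ h'
    simp at this
  · intro S hS
    rw [mem_filter, mem_powerset] at hS
    rw [det_MM (e r) e (erase_subset_erase r hS.1)]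
    unfold tau
    congr 1
    have h1 : V.erase r \ S.erase r = V \ S := by
      ext v
      simp only [mem_sdiff, mem_erase]
      constructor
      · rintro ⟨⟨h1, h2⟩, h3⟩
        exact ⟨h2, fun h => h3 ⟨h1, h⟩⟩
      · rintro ⟨h1, h2⟩
        exact ⟨⟨fun h => h2 (h ▸ hS.2), h1⟩, fun h => h2 h.2⟩
    rw [h1]
    refine Finset.prod_congr rfl fun v _ => ?_
    unfold dg
    rw [Finset.add_sum_erase S (fun u => e u v) hS.2]

/-- the leading coefficient -/
def ell (w : ι → ZMod 2) (e : ι → ι → ZMod 2) (S : Finset ι) : ZMod 2 := ∑ r ∈ S, w r * tau e r S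

theorem sum_ell (w : ι → ZMod 2) (e : ι → ι → ZMod 2) (he : ∀ v, e v v = 0) {V : Finset ι}
    (hV : 2 ≤ V.card) : ∑ S ∈ V.powerset, ell w e S * ∏ v ∈ V \ S, ∑ u ∈ S, e u v = 0 := by
  unfold ell
  simp_rw [Finset.sum_mul]
  have h1 : ∑ S ∈ V.powerset, ∑ r ∈ S, w r * tau e r S * ∏ v ∈ V \ S, ∑ u ∈ S, e u v =
      ∑ r ∈ V, ∑ S ∈ V.powerset.filter (fun S => r ∈ S),
        w r * tau e r S * ∏ v ∈ V \ S, ∑ u ∈ S, e u v := by
    refine Finset.sum_comm' fun S r => ?_
    rw [mem_powerset, mem_filter, mem_powerset]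
    constructor
    · rintro ⟨h1, h2⟩
      exact ⟨⟨h1, h2⟩, h1 h2⟩
    · rintro ⟨⟨h1, h2⟩, h3⟩
      exact ⟨h1, h2⟩
  rw [h1]
  refine Finset.sum_eq_zero fun r hr => ?_
  have := sum_tau e he hr hV
  simp_rw [mul_assoc]
  rw [← Finset.mul_sum, this, mul_zero]

theorem ell_single (w : ι → ZMod 2) (e : ι → ι → ZMod 2) (r : ι) : ell w e {r} = w r := by
  unfold ell tau
  rw [Finset.sum_singleton]
  have h0 : ({r} : Finset ι).erase r = ∅ := by simp
  rw [h0]
  have h1 : MM (e r) e ∅ ∅ = 1 := by
    ext i j
    unfold MM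
    simp [Matrix.one_apply]
  rw [h1, Matrix.det_one, mul_one]

/-- trivial kernel -/
theorem tau_one (e : ι → ι → ZMod 2) (he : ∀ v, e v v = 0) (hs : ∀ u v, e u v = e v u)
    {V : Finset ι} (hV : ∀ z : ι → ZMod 2, (∀ v ∈ V, ∑ u ∈ V, e u v * (z u + z v) = 0) →
      ∀ u ∈ V, ∀ v ∈ V, z u = z v) {r : ι} (hr : r ∈ V) : tau e r V = 1 := by
  by_contra hne
  have h0 : tau e r V = 0 := by
    have : ∀ a : ZMod 2, a ≠ 1 → a = 0 := by decide
    exact this _ hne
  unfold tau at h0
  obtain ⟨y, hy0, hy⟩ := Matrix.exists_vecMul_eq_zero_iff.2 h0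
  have h1 : ∀ v, v ∉ V.erase r → y v = 0 := by
    intro v hv
    have := congrFun hy v
    rw [Matrix.vecMul, dotProduct] at this
    unfold MM at this
    simpa [hv] using this
  have hyr : y r = 0 := h1 r (by simp)
  have h2 : ∀ v ∈ V.erase r, ∑ u ∈ V, e u v * (y u + y v) = 0 := by
    intro v hv
    have h3 := congrFun hy v
    rw [Matrix.vecMul, dotProduct] at h3
    rw [Pi.zero_apply] at h3
    rw [← h3]
    have h4 : ∀ u, y u * MM (e r) e (V.erase r) (V.erase r) u v =
        (if u ∈ V.erase r then e u v * y u else 0) +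
          (if u = v then (∑ u ∈ V, e u v) * y v else 0) := by
      intro u
      unfold MM dg
      rw [if_pos hv, Finset.add_sum_erase V (fun u => e u v) hr]
      by_cases huv : u = v
      · subst huv
        rw [if_pos rfl, if_pos rfl, he]
        simp [mul_comm]
      · rw [if_neg huv, if_neg huv]
        split_ifs <;> ring
    simp_rw [h4, mul_add]
    rw [Finset.sum_add_distrib, Finset.sum_add_distrib, Finset.sum_ite_eq', if_pos (mem_univ v),
      ← Finset.sum_mul, Finset.sum_ite_mem, Finset.univ_inter,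
      ← Finset.add_sum_erase V (fun u => e u v * y u) hr, hyr, mul_zero, zero_add]
  have hsum : ∑ v ∈ V, ∑ u ∈ V, e u v * (y u + y v) = 0 := by
    simp_rw [mul_add, Finset.sum_add_distrib]
    have h5 : ∑ v ∈ V, ∑ u ∈ V, e u v * y v = ∑ v ∈ V, ∑ u ∈ V, e u v * y u := by
      rw [Finset.sum_comm]
      refine Finset.sum_congr rfl fun v _ => Finset.sum_congr rfl fun u _ => ?_
      rw [hs]
    rw [h5]
    exact CharTwo.add_self_eq_zero _
  have h6 : ∑ u ∈ V, e u r * (y u + y r) = 0 := by
    rw [← Finset.add_sum_erase V (fun v => ∑ u ∈ V, e u v * (y u + y v)) hr,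
      Finset.sum_eq_zero h2, add_zero] at hsum
    exact hsum
  have h7 := hV y (fun v hv => by
    by_cases hvr : v = r
    · rw [hvr]; exact h6
    · exact h2 v (mem_erase.2 ⟨hvr, hv⟩))
  apply hy0
  funext v
  by_cases hv : v ∈ V
  · rw [h7 v hv r hr, hyr]
    rfl
  · exact h1 v (fun h => hv (mem_erase.1 h).2)

theorem ell_one (w : ι → ZMod 2) (e : ι → ι → ZMod 2) (he : ∀ v, e v v = 0)
    (hs : ∀ u v, e u v = e v u)
    {V : Finset ι} (hV : ∀ z : ι → ZMod 2, (∀ v ∈ V, ∑ u ∈ V, e u v * (z u + z v) = 0) →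
      ∀ u ∈ V, ∀ v ∈ V, z u = z v) : ell w e V = ∑ r ∈ V, w r := by
  unfold ell
  refine Finset.sum_congr rfl fun r hr => ?_
  rw [tau_one e he hs hV hr, mul_one]

end Pool.Agent.Y699.Ff
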