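import Pool.Agent.Y699.Lam
import Pool.Agent.Y699.Ff

/-!
Non-vanishing of the limits.
-/

set_option autoImplicit false
set_option linter.unusedSectionVars false

open Filter Complex
open scoped Topology PeriodPair
open H667R3 hiding sq
open Pool.Agent.TH936.CM Pool.Agent.W192.HK

namespace Pool.Agent.Y699

open H385 (ZI RQ im1 nrm)
open Pool.Agent.H304R3.HK (tc)
open Pool.Agent.W164.RC (tc_mul tc_star two2 prim_iff_dvd)
open Pool.Agent.H304R2.EC.A1 (prim prim_mul prim_cancel prim_one prim_norm_odd prim_star eq_one_of_prim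
  norm_def' re_mul' im_mul' eq_of_dvd prim_ne_zero)

variable {L : PeriodPair} {Ω : ℂ} {ι : Type} [Fintype ι] [DecidableEq ι] {pr : ι → ZI}

/-- the matrix of symbols -/
noncomputable def em (pr : ι → ZI) (u v : ι) : ZMod 2 := if qr (pr v) (pr u) = -1 then 1 else 0

/-- the weights -/
noncomputable def wt (pr : ι → ZI) (u : ι) : ZMod 2 := if (pr u).norm % 8 = 5 then 1 else 0

lemma em_self (hp : PF pr) (u : ι) : em pr u u = 0 := by
  unfold em
  rw [if_neg]
  rw [qr_zero_iff.2 dvd_rfl]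
  norm_num

lemma em_symm (hp : PF pr) (u v : ι) : em pr u v = em pr v u := by
  unfold em
  rw [qr_rec (hp.pp u) (hp.pp v)]

lemma ch_em (hp : PF pr) {S : Finset ι} {i : ι} (hi : i ∉ S) :
    ((1 : ℂ) - ch pr S (pr i)) / 2 = uu (∑ u ∈ S, em pr u i) := by
  have key : (∑ u ∈ S, em pr u i = 0 ∧ ch pr S (pr i) = 1) ∨
      (∑ u ∈ S, em pr u i = 1 ∧ ch pr S (pr i) = -1) := by
    unfold ch
    induction S using Finset.induction_on with
    | empty => left; simp
    | insert j S hj ih =>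
      rw [Finset.mem_insert, not_or] at hi
      have hne : ¬ pr j ∣ pr i := fun h => hi.1 (hp.inj ((hp.pp j).eq_of_dvd (hp.pp i) h)).symm
      rw [Finset.sum_insert hj, Finset.prod_insert hj]
      have h1 := qr_cases hne
      have h2 : em pr j i = if qr (pr j) (pr i) = -1 then 1 else 0 := by
        unfold em
        rw [qr_rec (hp.pp i) (hp.pp j)]
      rw [h2]
      rcases ih hi.2 with ⟨a, b⟩ | ⟨a, b⟩ <;> rcases h1 with c | c <;> rw [a, b, c]
      · left; norm_num
      · right; norm_num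
      · right; norm_num
      · left
        refine ⟨by decide, by norm_num⟩
  rcases key with ⟨a, b⟩ | ⟨a, b⟩
  · rw [a, b, uu_zero]; norm_num
  · rw [a, b, uu_one]; norm_num

section val

variable {Γ : Type*} [LinearOrderedCommGroupWithZero Γ] {v : Valuation ℂ Γ} (h2 : v 2 < 1)
  (h : GLat L Ω)

include h2 in
lemma tc_le (a : ZI) : v (tc a) ≤ 1 := by
  unfold tc
  refine v.map_add_le (v_int _) ?_
  rw [map_mul, v_I, mul_one]
  exact v_int _

include h2 in
lemma tc_par (t : ZI) : ((t.re + t.im) % 2 = 0 → Cg v (tc t) 0) ∧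
    ((t.re + t.im) % 2 = 1 → Cg v (tc t) 1) := by
  have h1 : ∀ z : ZI, (z.re + z.im) % 2 = 0 → Cg v (tc z) 0 := by
    intro z hz
    have h3 : z = pi1 * ⟨(z.re + z.im) / 2, (z.im - z.re) / 2⟩ := by
      ext
      · simp only [pi1, Zsqrtd.re_mul]
        omega
      · simp only [pi1, Zsqrtd.im_mul]
        omega
    rw [h3, tc_mul, tc_pi1]
    apply Cg.zero
    rw [map_mul]
    exact lt_of_le_of_lt (mul_le_of_le_one_right' (tc_le h2 _)) (v_pi_lt h2)
  refine ⟨h1 t, fun ht => ?_⟩
  have h3 := h1 (t - 1) (by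
    simp only [Zsqrtd.re_sub, Zsqrtd.im_sub, Zsqrtd.re_one, Zsqrtd.im_one]
    omega)
  have h4 := h3.add (Cg.refl (v := v) (x := 1) (by rw [map_one]))
  rw [tc_sub, tc_one, sub_add_cancel, zero_add] at h4
  exact h4

lemma half_eq {π t : ZI} (ht : π - 1 = two2 * t) : (tc π - 1) / 2 = (1 + I) * tc t := by
  have h1 := congrArg tc ht
  rw [tc_sub, tc_one, tc_mul, tc_two2] at h1
  rw [h1]
  ring

include h2 in
lemma half_le {π : ZI} (hπ : prim π) : v ((tc π - 1) / 2) ≤ v (1 + I) := by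
  obtain ⟨t, ht⟩ := (prim_iff_dvd π).1 hπ
  rw [half_eq ht, map_mul]
  exact mul_le_of_le_one_right' (tc_le h2 t)

include h2 in
/-- the factors of the recursion -/
lemma fac_cg (hp : PF pr) {S : Finset ι} {i : ι} (hi : i ∉ S) :
    Cg v ((tc (pr i) - ch pr S (pr i)) / 2) (uu (∑ u ∈ S, em pr u i)) := by
  have e : (tc (pr i) - ch pr S (pr i)) / 2 = (tc (pr i) - 1) / 2 +
      ((1 : ℂ) - ch pr S (pr i)) / 2 := by ring
  rw [e, ch_em hp hi]
  have h1 : Cg v ((tc (pr i) - 1) / 2) 0 :=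
    Cg.zero (lt_of_le_of_lt (half_le h2 (hp.pp i).prm) (v_pi_lt h2))
  have h3 := h1.add (Cg.refl (v := v) (v_uu (∑ u ∈ S, em pr u i)))
  rwa [zero_add] at h3

include h2 in
lemma pair_sum {κ : Type*} [DecidableEq κ] (σ : κ → κ) (hσ : ∀ q, σ (σ q) = q) (F : κ → ℂ)
    (hF : ∀ q, F (σ q) = F q) (hfix : ∀ q, F q ≠ 0 → σ q ≠ q) (B : Γ) (hB : ∀ q, v (F q) ≤ B) :
    ∀ s : Finset κ, (∀ q ∈ s, σ q ∈ s) → v (∑ q ∈ s, F q) ≤ v 2 * B := by
  intro s
  induction s using Finset.strongInduction with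
  | H s ih =>
    intro hs
    rcases s.eq_empty_or_nonempty with rfl | ⟨a, ha⟩
    · rw [Finset.sum_empty, map_zero]
      exact zero_le
    · have hsa := hs a ha
      have hsub : (s.erase a).erase (σ a) ⊂ s :=
        lt_of_le_of_lt (Finset.erase_subset _ _) (Finset.erase_ssubset ha)
      have hcl : ∀ q ∈ (s.erase a).erase (σ a), σ q ∈ (s.erase a).erase (σ a) := by
        intro q hq
        rw [Finset.mem_erase, Finset.mem_erase] at hq ⊢
        refine ⟨fun h' => hq.2.1 ?_, fun h' => hq.1 ?_, hs q hq.2.2⟩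
        · rw [← hσ q, h', hσ]
        · rw [← h', hσ]
      have h1 := ih _ hsub hcl
      by_cases h0 : F a = 0
      · have h3 : ∑ q ∈ s, F q = ∑ q ∈ (s.erase a).erase (σ a), F q := by
          rw [Finset.sum_erase _ (by rw [hF, h0]), Finset.sum_erase _ h0]
        rw [h3]
        exact h1
      · have h3 := hfix a h0
        have h4 : σ a ∈ s.erase a := Finset.mem_erase.2 ⟨h3, hsa⟩
        rw [← Finset.add_sum_erase s _ ha, ← Finset.add_sum_erase _ _ h4, hF, ← add_assoc, ← two_mul]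
        refine v.map_add_le ?_ h1
        rw [map_mul]
        exact mul_le_mul_right (hB a) _

include h2 h in
lemma y0_val : v (℘'[L] (dz Ω)) = v (1 + I) ^ 3 := by
  apply v_inj (n := 2) (by norm_num)
  have e : (-8 : ℂ) = -(2 ^ 3) := by norm_num
  have hx : v (℘[L] (dz Ω)) = 1 := by
    apply v_pow_one (n := 2) (by norm_num)
    rw [← map_pow, h.x0_sq, Valuation.map_neg, map_one]
  rw [← map_pow, h.y0_sq, map_mul, hx, mul_one, e, Valuation.map_neg, map_pow, ← v_pi_sq,
    ← pow_mul, ← pow_mul]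

include h2 h in
lemma x0_val : v (℘[L] (dz Ω)) = 1 := by
  apply v_pow_one (n := 2) (by norm_num)
  rw [← map_pow, h.x0_sq, Valuation.map_neg, map_one]

include h2 h in
lemma Est_val : v (Est L Ω) * v (1 + I) = 1 := by
  have hg := v_pi_ne (v := v)
  have e4 : v (4 : ℂ) = v (1 + I) ^ 4 := by
    have : (4 : ℂ) = 2 ^ 2 := by norm_num
    rw [this, map_pow, ← v_pi_sq, ← pow_mul]
  unfold Est
  rw [map_div₀, Valuation.map_neg, map_mul, x0_val h2 h, mul_one, y0_val h2 h, e4, div_mul_eq_mul_div,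
    ← pow_succ]
  exact div_self (pow_ne_zero _ hg)

include h2 h in
lemma QV_val (hp : PF pr) {V : Finset ι} (hV : V.Nonempty) [Fintype (RQ (DD pr V))] :
    v (QV L Ω pr V) < 1 := by
  classical
  have hD := DD_prim hp V
  have hD0 := prim_ne_zero hD
  have hg := v_pi_lt h2
  have hg0 := v_pi_ne (v := v)
  set g := v (1 + I) with hgdef
  have h2g : v 2 = g ^ 2 := v_pi_sq.symm
  -- the two parts
  set F1 : RQ (DD pr V) → ℂ := fun q => C1 pr V q.out *
    (℘[L] (dz Ω) - ℘[L] (zq Ω (DD pr V) q.out))⁻¹ with hF1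
  set F2 : RQ (DD pr V) → ℂ := fun q => C1 pr V q.out with hF2
  have e1 : QV L Ω pr V = (1 / 2 * ℘'[L] (dz Ω)) * ∑ q, F1 q + Est L Ω * ∑ q, F2 q := by
    unfold QV
    rw [Finset.mul_sum, Finset.mul_sum, ← Finset.sum_add_distrib]
    refine Finset.sum_congr rfl fun q _ => ?_
    simp only [hF1, hF2]
    unfold Dd
    ring
  have hC : ∀ q : RQ (DD pr V), C1 pr V (-q).out = C1 pr V q.out := by
    intro q
    rw [C1_per (out_neg _ q), C1_neg hp]
  have hwp : ∀ q : RQ (DD pr V), ℘[L] (zq Ω (DD pr V) (-q).out) = ℘[L] (zq Ω (DD pr V) q.out) := by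
    intro q
    rw [← L.weierstrassP_neg (zq Ω (DD pr V) q.out), ← zq_neg]
    have h3 : zq Ω (DD pr V) (-q).out - zq Ω (DD pr V) (-q.out) ∈ L.lattice := by
      obtain ⟨c, hc⟩ := out_neg (DD pr V) q
      refine (mem_lat h.lat).2 ⟨c, ?_⟩
      have h6 := congrArg tc hc
      rw [tc_sub, tc_mul] at h6
      have hDc := tc_ne hD0
      unfold zq
      field_simp
      linear_combination Ω * h6
    have h4 := L.weierstrassP_add_coe (zq Ω (DD pr V) (-q.out)) ⟨_, h3⟩
    simp only at h4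
    rw [← h4]
    congr 1
    ring
  have hneq : ∀ q : RQ (DD pr V), C1 pr V q.out ≠ 0 → -q ≠ q := by
    intro q hq hqq
    have h3 := (C1_cases V q.out).resolve_left hq
    obtain ⟨i, hi⟩ := hV
    have h4 : (2 : RQ (DD pr V)) * q = 0 := by
      rw [two_mul]
      nth_rw 1 [← hqq]
      exact neg_add_cancel q
    have h5 : DD pr V ∣ 2 * q.out := by
      have : Ideal.Quotient.mk (Ideal.span {DD pr V}) (2 * q.out) = 0 := by
        rw [map_mul, Ideal.Quotient.mk_out]
        exact h4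
      rwa [Ideal.Quotient.eq_zero_iff_mem, Ideal.mem_span_singleton] at this
    rcases (hp.pp i).pr.dvd_or_dvd ((dvd_DD hi).trans h5) with h6 | h6
    · exact not_dvd_two (hp.pp i) h6
    · have h7 := qr_zero_iff.2 h6
      rw [h3.2 i hi] at h7
      exact one_ne_zero h7
  have hle : ∀ q : RQ (DD pr V), v (C1 pr V q.out) ≤ 1 := by
    intro q
    rcases C1_cases V q.out with h3 | ⟨h3, -⟩
    · rw [h3, map_zero]; exact zero_le
    · rw [h3, map_one]
  have b2 : v (∑ q, F2 q) ≤ v 2 * 1 :=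
    pair_sum h2 (fun q => -q) (fun q => neg_neg q) F2 hC hneq 1 hle Finset.univ
      (fun q _ => Finset.mem_univ _)
  have b1 : v (∑ q, F1 q) ≤ v 2 * (g ^ 2)⁻¹ := by
    refine pair_sum h2 (fun q => -q) (fun q => neg_neg q) F1 (fun q => ?_) (fun q hq => ?_) _
      (fun q => ?_) Finset.univ (fun q _ => Finset.mem_univ _)
    · simp only [hF1]
      rw [hC, hwp]
    · exact hneq q (left_ne_zero_of_mul hq)
    · simp only [hF1]
      rcases C1_cases V q.out with h3 | ⟨h3, h4⟩
      · rw [h3, zero_mul, map_zero]; exact zero_le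
      · rw [h3, one_mul, map_inv₀]
        have h5 := wp_diff h2 h (zq_OT h hD (not_dvd_of_C1 hV h4))
        rw [v.map_sub_swap, ← hgdef] at h5
        set s := v (℘[L] (dz Ω) - ℘[L] (zq Ω (DD pr V) q.out))
        have h6 : g ^ 2 ≤ s := by
          by_contra hc
          push Not at hc
          have h7 : s ^ 2 < (g ^ 2) ^ 2 := pow_lt_pow_left₀ hc zero_le (by norm_num)
          rw [h5, ← pow_mul] at h7
          have h8 : g ^ (2 * 2) ≤ g ^ 3 := pow_le_pow_of_le_one zero_le hg.le (by norm_num)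
          exact absurd h7 (not_lt.2 h8)
        exact inv_anti₀ (pow_pos (zero_lt_iff.2 hg0) 2) h6
  have hinv : v (1 / 2 : ℂ) = (g ^ 2)⁻¹ := by
    rw [one_div, map_inv₀, h2g]
  have hg2 : g ^ 2 ≠ 0 := pow_ne_zero 2 hg0
  rw [e1]
  refine v.map_add_lt ?_ ?_
  · rw [map_mul, map_mul, hinv, y0_val h2 h]
    calc (g ^ 2)⁻¹ * g ^ 3 * v (∑ q, F1 q) ≤ (g ^ 2)⁻¹ * g ^ 3 * (v 2 * (g ^ 2)⁻¹) :=
          mul_le_mul_right b1 _
      _ = g := by
        rw [h2g, mul_inv_cancel₀ hg2, mul_one, pow_succ g 2, ← mul_assoc, inv_mul_cancel₀ hg2, one_mul]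
      _ < 1 := hg
  · rw [map_mul]
    have h3 := Est_val h2 h
    calc v (Est L Ω) * v (∑ q, F2 q) ≤ v (Est L Ω) * (v 2 * 1) := mul_le_mul_right b2 _
      _ = g := by
        rw [mul_one, h2g, sq, ← mul_assoc, h3, one_mul]
      _ < 1 := hg

include h2 h in
lemma kap : Cg v (Est L Ω * (1 + I)) 1 := by
  have hx0 := h.x0_ne
  have h3 : (Est L Ω * (1 + I)) ^ 2 * ℘[L] (dz Ω) = -I := by
    unfold Est
    have h4 := h.y0_sq
    have h5 : (-℘'[L] (dz Ω) / (4 * ℘[L] (dz Ω)) * (1 + I)) ^ 2 * ℘[L] (dz Ω) =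
        ℘'[L] (dz Ω) ^ 2 * (1 + I) ^ 2 / (16 * ℘[L] (dz Ω)) := by
      field_simp
      ring
    rw [h5, h4]
    field_simp
    linear_combination (-8 : ℂ) * I_sq
  rw [h.x0] at h3
  have h4 : (Est L Ω * (1 + I)) ^ 2 = -℘[L] (Ω / 2) := by
    have h5 := h.e1_sq
    have hI := I_sq
    linear_combination (-I * ℘[L] (Ω / 2)) * h3 + (Est L Ω * (1 + I)) ^ 2 *
      (℘[L] (Ω / 2) ^ 2 * hI - h5) + ℘[L] (Ω / 2) * hI
  set κ := Est L Ω * (1 + I)
  have hone : v (1 : ℂ) ≤ 1 := by rw [map_one]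
  have hm1 : Cg v (-1) 1 := ⟨by rw [Valuation.map_neg, map_one], hone, by
    have : (-1 - 1 : ℂ) = -2 := by norm_num
    rw [this, Valuation.map_neg]; exact h2⟩
  have hI1 : Cg v I 1 := ⟨by rw [v_I], hone, by
    have : (I - 1 : ℂ) = I * (1 + I) := by linear_combination -I_sq
    rw [this, map_mul, v_I, one_mul]; exact v_pi_lt h2⟩
  rcases sq_eq_one_iff.1 (h.e1_sq) with h5 | h5
  · rw [h5] at h4
    have h6 : (κ - I) * (κ + I) = 0 := by linear_combination h4 - I_sq
    rcases mul_eq_zero.1 h6 with h7 | h7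
    · have : κ = I := by linear_combination h7
      rw [this]; exact hI1
    · have : κ = -1 * I := by linear_combination h7
      rw [this]
      have := hm1.mul hI1
      rwa [one_mul] at this
  · rw [h5, neg_neg] at h4
    rcases sq_eq_one_iff.1 h4 with h7 | h7
    · rw [h7]; exact Cg.refl hone
    · rw [h7]; exact hm1

include h2 in
lemma uu_neg (a : ZMod 2) : Cg v (-uu a) (uu a) := by
  refine ⟨by rw [Valuation.map_neg]; exact v_uu a, v_uu a, ?_⟩
  have : -uu a - uu a = -(2 * uu a) := by ring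
  rw [this, Valuation.map_neg, map_mul]
  exact lt_of_le_of_lt (mul_le_of_le_one_right' (v_uu a)) h2

include h2 h in
/-- **the leading term** -/
theorem Ms_cg (hp : PF pr) {l : Finset ι → ℂ}
    (hl : ∀ S, Tendsto (RS (cc pr S ∅)) (𝓝[>] 0) (𝓝 (l S))) (V : Finset ι) (hV : V.Nonempty) :
    Cg v (Ms Ω pr l V) (uu (Ff.ell (wt pr) (em pr) V)) := by
  have hΩ := h.lat.ne
  have h2c := tc_ne two2_ne
  have hM0 : Ms Ω pr l ∅ = Est L Ω := by
    have h3 := tendsto_nhds_unique (hl ∅) (lim_empty h hp)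
    unfold Ms
    rw [h3]
    simp only [ch, DD, Finset.prod_empty, Finset.card_empty, pow_zero, div_one, Int.cast_one,
      mul_one, tc_one]
    field_simp
  induction V using Finset.strongInduction with
  | H V ih =>
    have hfin := H385.he1_finite (DD_ne hp V)
    let _ := Fintype.ofFinite (RQ (DD pr V))
    have hrec := recur h hp hl hV
    have hQ := QV_val h2 h hp hV
    have hV0 : V ≠ ∅ := hV.ne_empty
    -- the term of the empty set
    have hE : Ms Ω pr l ∅ * ∏ i ∈ V \ ∅, ((tc (pr i) - ch pr ∅ (pr i)) / 2) =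
        Est L Ω * ∏ i ∈ V, ((tc (pr i) - 1) / 2) := by
      rw [hM0, Finset.sdiff_empty]
      simp [ch]
    rw [← Finset.add_sum_erase V.powerset _ (Finset.mem_powerset_self V), Finset.sdiff_self,
      Finset.prod_empty, mul_one] at hrec
    have hMV : Ms Ω pr l V = QV L Ω pr V - ∑ S ∈ V.powerset.erase V,
        Ms Ω pr l S * ∏ i ∈ V \ S, ((tc (pr i) - ch pr S (pr i)) / 2) := by
      rw [← hrec]; ring
    rcases Nat.lt_or_ge V.card 2 with hc | hc
    · -- one prime
      have hc1 : V.card = 1 := by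
        have := hV.card_pos
        omega
      obtain ⟨i, rfl⟩ := Finset.card_eq_one.1 hc1
      have hpow : ({i} : Finset ι).powerset.erase {i} = {∅} := by
        ext S
        rw [Finset.mem_erase, Finset.mem_powerset, Finset.subset_singleton_iff, Finset.mem_singleton]
        constructor
        · rintro ⟨h3, h4 | h4⟩
          · exact h4
          · exact absurd h4 h3
        · rintro rfl
          exact ⟨fun h => hV0 h.symm, Or.inl rfl⟩
      rw [hMV, hpow, Finset.sum_singleton, hE, Finset.prod_singleton, Ff.ell_single]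
      obtain ⟨t, ht⟩ := (prim_iff_dvd (pr i)).1 (hp.pp i).prm
      rw [half_eq ht, ← mul_assoc]
      have h3 : Cg v (tc t) (uu (wt pr i)) := by
        obtain ⟨h4, h5⟩ := tc_par h2 t
        have hN : (pr i).norm = 1 + 4 * (t.re - t.im) + 8 * (t.re ^ 2 + t.im ^ 2) := by
          have : pr i = 1 + two2 * t := by linear_combination ht
          rw [this, norm_def']
          simp only [Zsqrtd.re_add, Zsqrtd.im_add, re_mul', im_mul', Zsqrtd.re_one, Zsqrtd.im_one,
            two2]
          ring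
        unfold wt
        rcases Int.emod_two_eq_zero_or_one (t.re + t.im) with h6 | h6
        · rw [if_neg (by omega), uu_zero]
          exact h4 h6
        · rw [if_pos (by omega), uu_one]
          exact h5 h6
      have h4 := (kap h2 h).mul h3
      have h5 := (Cg.zero hQ).sub h4
      rw [one_mul, zero_sub] at h5
      exact h5.trans (uu_neg h2 _)
    · -- at least two primes
      have hterm : ∀ S ∈ V.powerset.erase V,
          Cg v (Ms Ω pr l S * ∏ i ∈ V \ S, ((tc (pr i) - ch pr S (pr i)) / 2))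
            (uu (Ff.ell (wt pr) (em pr) S * ∏ i ∈ V \ S, ∑ u ∈ S, em pr u i)) := by
        intro S hS
        rw [Finset.mem_erase, Finset.mem_powerset] at hS
        rcases S.eq_empty_or_nonempty with rfl | hSn
        · have h3 : Ff.ell (wt pr) (em pr) (∅ : Finset ι) = 0 := Finset.sum_empty
          rw [h3, zero_mul, uu_zero, hE]
          apply Cg.zero
          rw [map_mul, map_prod]
          have h4 : ∏ i ∈ V, v ((tc (pr i) - 1) / 2) ≤ v (1 + I) ^ V.card := by
            rw [← Finset.prod_const]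
            exact Finset.prod_le_prod' fun i _ => half_le h2 (hp.pp i).prm
          have h5 : v (1 + I) ^ V.card ≤ v (1 + I) ^ 2 :=
            pow_le_pow_of_le_one zero_le (v_pi_lt h2).le hc
          calc v (Est L Ω) * ∏ i ∈ V, v ((tc (pr i) - 1) / 2) ≤ v (Est L Ω) * v (1 + I) ^ 2 :=
                mul_le_mul_right (h4.trans h5) _
            _ = v (1 + I) := by
              rw [sq, ← mul_assoc, Est_val h2 h, one_mul]
            _ < 1 := v_pi_lt h2
        · rw [uu_mul, uu_prod]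
          refine (ih S (Finset.ssubset_iff_subset_ne.2 ⟨hS.2, hS.1⟩) hSn).mul
            (Cg.prod _ fun i hi => fac_cg h2 hp (Finset.mem_sdiff.1 hi).2)
      have hsum := Cg.sum _ hterm
      have h3 := (uu_sum h2 (V.powerset.erase V) (fun S =>
        Ff.ell (wt pr) (em pr) S * ∏ i ∈ V \ S, ∑ u ∈ S, em pr u i)).symm
      have h4 : ∑ S ∈ V.powerset.erase V,
          Ff.ell (wt pr) (em pr) S * ∏ i ∈ V \ S, ∑ u ∈ S, em pr u i =
          Ff.ell (wt pr) (em pr) V := by
        have h5 := Ff.sum_ell (wt pr) (em pr) (em_self hp) hc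
        rw [← Finset.add_sum_erase V.powerset _ (Finset.mem_powerset_self V), Finset.sdiff_self,
          Finset.prod_empty, mul_one] at h5
        have h6 : ∀ a b : ZMod 2, a + b = 0 → b = a := by decide
        exact h6 _ _ h5
      rw [h4] at h3
      rw [hMV]
      have h5 := (Cg.zero hQ).sub (hsum.trans h3)
      rw [zero_sub] at h5
      exact h5.trans (uu_neg h2 _)

end val

/-- **non-vanishing** -/
theorem lim_ne (h : GLat L Ω) (hp : PF pr) {V : Finset ι} (hV : V.Nonempty)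
    (hw : ∑ i ∈ V, wt pr i = 1)
    (hker : ∀ z : ι → ZMod 2, (∀ v ∈ V, ∑ u ∈ V, em pr u v * (z u + z v) = 0) →
      ∀ u ∈ V, ∀ v ∈ V, z u = z v) {l : ℂ}
    (hl : Tendsto (RS (cc pr V ∅)) (𝓝[>] 0) (𝓝 l)) : l ≠ 0 := by
  obtain ⟨B, h2⟩ := exists_val
  choose f hf using exists_lim (ι := ι) h hp
  have h3 := Ms_cg h2 h hp hf V hV
  rw [Ff.ell_one _ _ (em_self hp) (em_symm hp) hker, hw, uu_one] at h3
  have h4 : f V = l := tendsto_nhds_unique (hf V) hl
  rintro rfl
  have h5 : Ms Ω pr f V = 0 := by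
    unfold Ms
    rw [h4]
    simp
  rw [h5] at h3
  have h6 := h3.s
  rw [zero_sub, Valuation.map_neg, map_one] at h6
  exact lt_irrefl _ h6

end Pool.Agent.Y699
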