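import Pool.Agent.Y699.Ctr
import Pool.Agent.Y699.Nv

/-!
The Hecke character of the quadratic twist.
-/

set_option autoImplicit false
set_option linter.unusedSectionVars false

open Filter Complex MeasureTheory Set
open scoped Topology PeriodPair
open Pool.Agent.TH936.CM

namespace Pool.Agent.Y699

open H385 (ZI RQ im1 nrm)
open Pool.Agent.H304R3.HK (tc HC LH bH TH FF Th th_psi chi_le)
open Pool.Agent.W164.RC (tc_mul tc_star two2 prim_iff_dvd unit_norm unit_cases)
open Pool.Agent.H304R2.EC.A1 (prim prim_mul prim_cancel prim_one prim_norm_odd prim_star eq_one_of_prim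
  norm_def' re_mul' im_mul' eq_of_dvd prim_ne_zero exists_prim)

variable {ι : Type} [DecidableEq ι] {pr : ι → ZI}

/-- `u` is a unit making `a` primary -/
def Um (a u : ZI) : Prop := u.norm = 1 ∧ prim (u * a)

lemma unit_mul_star {u : ZI} (hu : u.norm = 1) : u * star u = 1 := by
  rw [← Zsqrtd.norm_eq_mul_conj, hu]; simp

lemma Um.unique {a u u' : ZI} (h : Um a u) (h' : Um a u') : u = u' := by
  have h1 : u' * star u * (u * a) = u' * a := by
    have := unit_mul_star h.1
    linear_combination (u' * a) * this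
  have h2 : prim (u' * star u) := by
    have h3 : prim ((u * a) * (u' * star u)) := by
      rw [mul_comm, h1]; exact h'.2
    exact prim_cancel h.2 h3
  have h3 : (u' * star u).norm = 1 := by
    rw [Zsqrtd.norm_mul, h'.1, Zsqrtd.norm_conj, h.1]; norm_num
  have h4 := eq_one_of_prim h2 h3
  have h5 := unit_mul_star h.1
  calc u = u * (u' * star u) := by rw [h4, mul_one]
    _ = u' * (u * star u) := by ring
    _ = u' := by rw [h5, mul_one]

lemma Um.mul {a b u w : ZI} (h : Um a u) (h' : Um b w) : Um (a * b) (u * w) := by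
  refine ⟨by rw [Zsqrtd.norm_mul, h.1, h'.1]; norm_num, ?_⟩
  have : u * w * (a * b) = (u * a) * (w * b) := by ring
  rw [this]
  exact prim_mul h.2 h'.2

lemma Um.odd {a u : ZI} (h : Um a u) : a.norm % 2 = 1 := by
  have h1 := prim_norm_odd h.2
  rwa [Zsqrtd.norm_mul, h.1, one_mul] at h1

lemma exists_Um {a : ZI} (ha : a.norm % 2 = 1) : ∃ u, Um a u := by
  obtain ⟨u, w, huw, hp⟩ := exists_prim a ha
  refine ⟨u, ?_, hp⟩
  have h1 : IsUnit u := IsUnit.of_mul_eq_one w huw
  obtain ⟨e, rfl⟩ := h1
  exact unit_norm e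

open Classical in
/-- the unit making `a` primary (zero for even `a`) -/
noncomputable def un (a : ZI) : ZI := if h : ∃ u, Um a u then h.choose else 0

lemma un_eq {a u : ZI} (h : Um a u) : un a = u := by
  have h1 : ∃ u, Um a u := ⟨u, h⟩
  unfold un
  rw [dif_pos h1]
  exact h1.choose_spec.unique h

lemma un_even {a : ZI} (ha : a.norm % 2 ≠ 1) : un a = 0 := by
  unfold un
  rw [dif_neg]
  rintro ⟨u, hu⟩
  exact ha hu.odd

lemma un_mul (a b : ZI) : un (a * b) = un a * un b := by
  by_cases ha : a.norm % 2 = 1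
  · by_cases hb : b.norm % 2 = 1
    · obtain ⟨u, hu⟩ := exists_Um ha
      obtain ⟨w, hw⟩ := exists_Um hb
      rw [un_eq hu, un_eq hw, un_eq (hu.mul hw)]
    · rw [un_even hb, mul_zero, un_even]
      rw [Zsqrtd.norm_mul, Int.mul_emod]
      have : b.norm % 2 = 0 := by omega
      rw [this]; simp
  · rw [un_even ha, zero_mul, un_even]
    rw [Zsqrtd.norm_mul, Int.mul_emod]
    have : a.norm % 2 = 0 := by omega
    rw [this]; simp

lemma un_prim {a : ZI} (ha : prim a) : un a = 1 := un_eq ⟨by decide, by rwa [one_mul]⟩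

lemma ch_one (hp : PF pr) (S : Finset ι) : ch pr S 1 = 1 :=
  Finset.prod_eq_one fun i _ => qr_one (hp.pp i)

/-- the Hecke character -/
noncomputable def XX (hp : PF pr) (V : Finset ι) : ZI →* ℂ where
  toFun a := tc (un a) * (ch pr V (un a * a) : ℂ)
  map_one' := by
    rw [un_prim prim_one, one_mul, ch_one hp, tc_one]
    simp
  map_mul' := by
    intro a b
    have e : un (a * b) * (a * b) = (un a * a) * (un b * b) := by rw [un_mul]; ring
    rw [e, ch_mul hp, un_mul, tc_mul]
    push_cast
    ring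

lemma XX_apply (hp : PF pr) (V : Finset ι) (a : ZI) :
    XX hp V a = tc (un a) * (ch pr V (un a * a) : ℂ) := rfl

lemma XX_prim (hp : PF pr) (V : Finset ι) {a : ZI} (ha : prim a) : XX hp V a = (ch pr V a : ℂ) := by
  rw [XX_apply, un_prim ha, tc_one, one_mul, one_mul]

lemma unit_tc {u : ZI} (hu : u.norm = 1) : ‖tc u‖ = 1 := by
  have h1 := Pool.Agent.H304R3.HK.tc_star_mul u
  rw [hu] at h1
  have h2 : ‖tc u‖ ^ 2 = 1 := by rw [h1]; simp
  nlinarith [norm_nonneg (tc u)]

lemma norm_odd_iff (a : ZI) : a.norm % 2 = 1 ↔ ¬ pi1 ∣ a := by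
  rw [norm_def']
  have e : (a.re ^ 2 + a.im ^ 2) % 2 = (a.re + a.im) % 2 := by
    have h1 : a.re ^ 2 % 2 = a.re % 2 := by
      rcases Int.emod_two_eq_zero_or_one a.re with h | h <;> rw [sq, Int.mul_emod, h] <;> norm_num
    have h2 : a.im ^ 2 % 2 = a.im % 2 := by
      rcases Int.emod_two_eq_zero_or_one a.im with h | h <;> rw [sq, Int.mul_emod, h] <;> norm_num
    omega
  rw [e]
  constructor
  · rintro h ⟨c, rfl⟩
    simp only [pi1, Zsqrtd.re_mul, Zsqrtd.im_mul] at h
    omega
  · intro h
    by_contra hc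
    apply h
    refine ⟨⟨(a.re + a.im) / 2, (a.im - a.re) / 2⟩, ?_⟩
    ext
    · simp only [pi1, Zsqrtd.re_mul]
      omega
    · simp only [pi1, Zsqrtd.im_mul]
      omega

lemma pi1_prime : Prime pi1 := by
  rw [← irreducible_iff_prime]
  constructor
  · intro h
    exact pi1_not_dvd (h.dvd)
  · intro a b hab
    have h1 := congrArg Zsqrtd.norm hab
    rw [Zsqrtd.norm_mul] at h1
    have h2 : pi1.norm = 2 := by decide
    rw [h2] at h1
    have ha := GaussianInt.norm_nonneg a
    have hb := GaussianInt.norm_nonneg b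
    have h3 : a.norm.natAbs * b.norm.natAbs = 2 := by
      rw [← Int.natAbs_mul, ← h1]; rfl
    rcases (Nat.dvd_prime Nat.prime_two).1 (Dvd.intro _ h3) with h4 | h4
    · left; exact Zsqrtd.norm_eq_one_iff.1 h4
    · right
      apply Zsqrtd.norm_eq_one_iff.1
      rw [h4] at h3
      omega

/-- the conductor -/
noncomputable def cnd (pr : ι → ZI) (V : Finset ι) : ZI := two2 * DD pr V

lemma two2_eq : two2 = pi1 ^ 3 * ⟨0, -1⟩ := by decide

lemma cop_cnd (hp : PF pr) (V : Finset ι) (a : ZI) : IsCoprime a (cnd pr V) ↔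
    a.norm % 2 = 1 ∧ ∀ i ∈ V, ¬ pr i ∣ a := by
  unfold cnd DD
  rw [IsCoprime.mul_right_iff, IsCoprime.prod_right_iff, norm_odd_iff]
  refine and_congr ?_ (forall₂_congr fun i _ => ?_)
  · constructor
    · intro h h'
      have h1 : pi1 ∣ two2 := ⟨2, by decide⟩
      exact pi1_not_dvd (isUnit_iff_dvd_one.1 (h.isUnit_of_dvd' h' h1))
    · intro h
      rw [two2_eq]
      refine IsCoprime.mul_right (IsCoprime.pow_right ?_) ?_
      · exact ((pi1_prime.irreducible.coprime_iff_not_dvd).2 h).symm
      · exact ⟨0, ⟨0, 1⟩, by rw [zero_mul, zero_add]; decide⟩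
  · rw [isCoprime_comm]
    exact (hp.pp i).pr.irreducible.coprime_iff_not_dvd

lemma qr_unit_mul {π : ZI} (h : PP π) {u : ZI} (hu : u.norm = 1) (a : ZI) : π ∣ u * a ↔ π ∣ a := by
  constructor
  · intro h'
    have h1 := h'.mul_left (star u)
    have e : star u * (u * a) = a := by
      have := unit_mul_star hu
      linear_combination a * this
    rwa [e] at h1
  · exact fun h' => h'.mul_left _

lemma ch_ne (hp : PF pr) (V : Finset ι) {a : ZI} (h : ∀ i ∈ V, ¬ pr i ∣ a) : ch pr V a = 1 ∨ ch pr V a = -1 := by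
  have : ch pr V a * ch pr V a = 1 := by
    unfold ch
    rw [← Finset.prod_mul_distrib]
    exact Finset.prod_eq_one fun i hi => qr_sq (h i hi)
  exact mul_self_eq_one_iff.1 this

lemma Um.per {a b u : ZI} (h : Um a u) (hab : two2 ∣ a - b) : Um b u := by
  refine ⟨h.1, ?_⟩
  rw [prim_iff_dvd]
  have h1 := (prim_iff_dvd _).1 h.2
  have h2 : two2 ∣ u * (a - b) := hab.mul_left _
  have e : u * b - 1 = (u * a - 1) - u * (a - b) := by ring
  rw [e]
  exact dvd_sub h1 h2

lemma ch_per (V : Finset ι) {a b : ZI} (hab : DD pr V ∣ a - b) : ch pr V a = ch pr V b :=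
  Finset.prod_congr rfl fun _ hi => qr_per ((dvd_DD hi).trans hab)

lemma ch_neg (hp : PF pr) (V : Finset ι) (a : ZI) : ch pr V (-a) = ch pr V a :=
  Finset.prod_congr rfl fun i _ => qr_neg (hp.pp i) a

/-- a non-residue -/
lemma exists_nonres {π : ZI} (h : PP π) : ∃ a, qr π a = -1 := by
  classical
  have := fin_RQ h
  let _ := Fintype.ofFinite (RQ π)
  let _ := h.fld
  obtain ⟨x, hx⟩ := quadraticChar_exists_neg_one h.char
  obtain ⟨a, rfl⟩ := Ideal.Quotient.mk_surjective x
  exact ⟨a, by rw [qr_eq h, hx]⟩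

theorem XX_HC (hp : PF pr) (V : Finset ι) : HC (cnd pr V) (XX hp V) where
  q0 := mul_ne_zero two2_ne (DD_ne hp V)
  per := by
    intro a b hab
    have h1 : two2 ∣ a - b := (dvd_mul_right _ _).trans hab
    have h2 : DD pr V ∣ a - b := (dvd_mul_left _ _).trans hab
    rw [XX_apply, XX_apply]
    by_cases ha : ∃ u, Um a u
    · obtain ⟨u, hu⟩ := ha
      rw [un_eq hu, un_eq (hu.per h1)]
      congr 2
      apply ch_per
      rw [← mul_sub]
      exact h2.mul_left _
    · have hb : ¬ ∃ u, Um b u := by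
        rintro ⟨u, hu⟩
        exact ha ⟨u, hu.per (by rw [← neg_sub]; exact (dvd_neg).2 h1)⟩
      have e : ∀ c : ZI, (¬ ∃ u, Um c u) → un c = 0 := by
        intro c hc
        unfold un
        rw [dif_neg hc]
      rw [e a ha, e b hb, tc_zero, zero_mul, zero_mul]
  supp := by
    intro a
    rw [cop_cnd hp V, XX_apply]
    constructor
    · intro h
      have h1 : a.norm % 2 = 1 := by
        by_contra hc
        apply h
        rw [un_even hc, tc_zero, zero_mul]
      refine ⟨h1, fun i hi hd => h ?_⟩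
      have : ch pr V (un a * a) = 0 := Finset.prod_eq_zero hi (qr_zero_iff.2 (hd.mul_left _))
      rw [this]
      simp
    · rintro ⟨h1, h2⟩
      obtain ⟨u, hu⟩ := exists_Um h1
      rw [un_eq hu]
      refine mul_ne_zero ?_ ?_
      · intro h0
        have := unit_tc hu.1
        rw [h0, norm_zero] at this
        exact zero_ne_one this
      · rcases ch_ne hp V (a := u * a) (fun i hi h => h2 i hi ((qr_unit_mul (hp.pp i) hu.1 a).1 h)) with
          h3 | h3 <;> rw [h3] <;> simp
  nrm := by
    intro a ha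
    obtain ⟨h1, h2⟩ := (cop_cnd hp V a).1 ha
    obtain ⟨u, hu⟩ := exists_Um h1
    rw [XX_apply, un_eq hu, norm_mul, unit_tc hu.1, one_mul]
    rcases ch_ne hp V (a := u * a) (fun i hi h => h2 i hi ((qr_unit_mul (hp.pp i) hu.1 a).1 h)) with
          h3 | h3 <;> rw [h3] <;> simp
  unit := by
    have h1 : Um ⟨0, 1⟩ ⟨0, -1⟩ := by
      refine ⟨by decide, ?_⟩
      have : (⟨0, -1⟩ : ZI) * ⟨0, 1⟩ = 1 := by decide
      rw [this]
      exact prim_one
    rw [XX_apply, un_eq h1]
    have e : (⟨0, -1⟩ : ZI) * ⟨0, 1⟩ = 1 := by decide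
    rw [e, ch_one hp]
    unfold tc
    simp
  prim := by
    intro d hd hnd
    by_cases hB : ∃ i ∈ V, ¬ pr i ∣ d
    · obtain ⟨i, hi, hid⟩ := hB
      -- the cofactor
      have hDi : DD pr V = pr i * DD pr (V.erase i) := by
        unfold DD
        exact (Finset.mul_prod_erase V pr hi).symm
      set m := two2 * DD pr (V.erase i) with hm
      have hcop : IsCoprime (pr i) m := by
        rw [hm]
        refine IsCoprime.mul_right ?_ ?_
        · exact ((hp.pp i).pr.irreducible.coprime_iff_not_dvd).2 (not_dvd_two2 (hp.pp i))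
        · unfold DD
          rw [IsCoprime.prod_right_iff]
          intro j hj
          exact (hp.pp i).cop (hp.pp j) fun h => (Finset.mem_erase.1 hj).1 (hp.inj h).symm
      have hdm : d ∣ m := by
        have h1 : d ∣ pr i * m := by
          have e : pr i * m = cnd pr V := by
            unfold cnd
            rw [hDi, hm]
            ring
          rw [e]; exact hd
        have h2 : IsCoprime d (pr i) :=
          (((hp.pp i).pr.irreducible.coprime_iff_not_dvd).2 hid).symm
        exact h2.dvd_of_dvd_mul_left h1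
      obtain ⟨b, hb⟩ := exists_nonres (hp.pp i)
      obtain ⟨x, y, hxy⟩ := hcop
      -- a = 1 mod m, a = b mod pr i
      set a : ZI := x * pr i + b * (y * m) with ha
      have ha1 : m ∣ a - 1 := ⟨b * y - y, by rw [ha]; linear_combination hxy⟩
      have ha2 : pr i ∣ a - b := ⟨x - b * x, by rw [ha]; linear_combination b * hxy⟩
      have hpa : prim a := by
        rw [prim_iff_dvd]
        exact (dvd_mul_right _ _).trans ha1
      have hch : ch pr V a = -1 := by
        unfold ch
        rw [← Finset.mul_prod_erase V _ hi, qr_per ha2, hb, Finset.prod_eq_one, mul_one]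
        intro j hj
        have h3 : pr j ∣ a - 1 := by
          refine (dvd_DD hj).trans ((dvd_mul_left _ _).trans ha1)
        rw [qr_per h3, qr_one (hp.pp j)]
      refine ⟨a, ?_, hdm.trans ha1, ?_⟩
      · rw [cop_cnd hp V]
        refine ⟨prim_norm_odd hpa, fun j hj hd' => ?_⟩
        have : ch pr V a = 0 := Finset.prod_eq_zero hj (qr_zero_iff.2 hd')
        rw [hch] at this
        norm_num at this
      · rw [XX_prim hp V hpa, hch]
        norm_num
    · push Not at hB
      -- d divides `2 D`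
      have hD1 : DD pr V ∣ d := by
        unfold DD
        refine Finset.prod_dvd_of_coprime ?_ hB
        intro i _ j _ hij
        exact (hp.pp i).cop (hp.pp j) fun h => hij (hp.inj h)
      obtain ⟨e, he⟩ := hD1
      have he2 : e ∣ two2 := by
        unfold cnd at hd
        rw [he, mul_comm two2] at hd
        exact (mul_dvd_mul_iff_left (DD_ne hp V)).1 hd
      have he3 : ¬ two2 ∣ e := by
        intro h
        apply hnd
        unfold cnd
        rw [he, mul_comm two2]
        exact mul_dvd_mul_left _ h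
      -- a divisor of `(1+i)^3` which is not a multiple of it divides `2`
      have he4 : e ∣ 2 := by
        rw [two2_eq] at he2
        have hu : IsUnit (⟨0, -1⟩ : ZI) := IsUnit.of_mul_eq_one ⟨0, 1⟩ (by decide)
        have he5 : e ∣ pi1 ^ 3 := (hu.dvd_mul_right).1 he2
        obtain ⟨k, hk, hk2⟩ := (dvd_prime_pow pi1_prime 3).1 he5
        have hk3 : k ≠ 3 := by
          rintro rfl
          apply he3
          rw [two2_eq]
          exact (hu.mul_right_dvd).2 hk2.symm.dvd
        have hk4 : pi1 ^ k ∣ pi1 ^ 2 := pow_dvd_pow _ (by omega)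
        have h2 : pi1 ^ 2 ∣ (2 : ZI) := ⟨⟨0, -1⟩, by decide⟩
        exact hk2.dvd.trans (hk4.trans h2)
      have hDp := DD_prim hp V
      set a : ZI := 1 + 2 * DD pr V with ha
      have hUm : Um a (-1) := by
        refine ⟨by decide, ?_⟩
        obtain ⟨h1, h2⟩ := hDp
        unfold prim
        rw [ha]
        simp only [neg_mul, one_mul, Zsqrtd.im_neg, Zsqrtd.re_neg, Zsqrtd.im_add, Zsqrtd.re_add,
          Zsqrtd.im_one, Zsqrtd.re_one, re_mul', im_mul']
        have e1 : (2 : ZI).re = 2 := rfl
        have e2 : (2 : ZI).im = 0 := rfl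
        rw [e1, e2]
        omega
      have hX : XX hp V a = -1 := by
        rw [XX_apply, un_eq hUm]
        have h3 : ch pr V (-1 * a) = 1 := by
          rw [neg_one_mul, ch_neg hp, ← ch_one hp V]
          apply ch_per
          rw [ha]
          exact ⟨2, by ring⟩
        rw [h3, tc_neg, tc_one]
        simp
      refine ⟨a, ?_, ?_, ?_⟩
      · rw [cop_cnd hp V]
        refine ⟨hUm.odd, fun j hj hd' => ?_⟩
        have h4 : pr j ∣ 2 * DD pr V := (dvd_DD hj).mul_left _
        have h5 := dvd_sub hd' h4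
        rw [ha, add_sub_cancel_right] at h5
        exact (hp.pp j).pr.not_isUnit (isUnit_of_dvd_one h5)
      · obtain ⟨f, hf⟩ := he4
        rw [he]
        exact ⟨f, by rw [ha]; linear_combination (DD pr V) * hf⟩
      · rw [hX]
        norm_num

end Pool.Agent.Y699
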