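import Pool.Agent.Y699.Reg2
import Pool.Agent.Y699.Chi

/-!
The primary primes dividing a Gaussian integer.
-/

set_option autoImplicit false
set_option linter.unusedSectionVars false

namespace Pool.Agent.Y699

open H385 (ZI RQ im1 nrm)
open Pool.Agent.W164.RC (two2 prim_iff_dvd unit_norm unit_cases)
open Pool.Agent.H304R2.EC.A1 (prim prim_mul prim_cancel prim_one prim_norm_odd prim_star eq_one_of_prim
  norm_def' re_mul' im_mul' eq_of_dvd prim_ne_zero exists_prim)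

/-- finitely many Gaussian integers of bounded norm -/
lemma fin_norm_le (N : ℕ) : {a : ZI | a.norm.natAbs ≤ N}.Finite := by
  have h : {a : ZI | a.norm.natAbs ≤ N} ⊆
      (fun p : ℤ × ℤ => (⟨p.1, p.2⟩ : ZI)) '' ((Set.Icc (-(N : ℤ)) N) ×ˢ (Set.Icc (-(N : ℤ)) N)) := by
    intro a ha
    refine ⟨(a.re, a.im), ?_, by ext <;> rfl⟩
    have h1 : a.norm.natAbs ≤ N := ha
    have h2 := GaussianInt.norm_nonneg a
    rw [norm_def'] at h1 h2
    have h3 : a.re ^ 2 + a.im ^ 2 ≤ N := by omega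
    have h4 : ∀ x : ℤ, x ^ 2 ≤ N → -(N : ℤ) ≤ x ∧ x ≤ N := by
      intro x hx
      constructor
      · nlinarith [Int.natAbs_sq x, sq_nonneg (x + 1), sq_nonneg x]
      · nlinarith [sq_nonneg (x - 1)]
    obtain ⟨h5, h6⟩ := h4 a.re (by nlinarith [sq_nonneg a.im])
    obtain ⟨h7, h8⟩ := h4 a.im (by nlinarith [sq_nonneg a.re])
    exact ⟨⟨h5, h6⟩, ⟨h7, h8⟩⟩
  exact (((Set.finite_Icc _ _).prod (Set.finite_Icc _ _)).image _).subset h

lemma norm_le_of_dvd {a n : ZI} (hn : n ≠ 0) (h : a ∣ n) : a.norm.natAbs ≤ n.norm.natAbs := by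
  obtain ⟨c, rfl⟩ := h
  have hc : c ≠ 0 := right_ne_zero_of_mul hn
  have h1 : c.norm.natAbs ≠ 0 := fun h => hc ((GaussianInt.norm_eq_zero).1 (Int.natAbs_eq_zero.1 h))
  rw [Zsqrtd.norm_mul, Int.natAbs_mul]
  exact Nat.le_mul_of_pos_right _ (by omega)

lemma fin_pd {n : ZI} (hn : n ≠ 0) : {π : ZI | PP π ∧ π ∣ n}.Finite :=
  (fin_norm_le n.norm.natAbs).subset fun _ h => norm_le_of_dvd hn h.2

open Classical in
/-- the primary primes dividing `n` -/
noncomputable def PD (n : ZI) : Finset ZI := if h : n ≠ 0 then (fin_pd h).toFinset else ∅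

lemma mem_PD {n π : ZI} (hn : n ≠ 0) : π ∈ PD n ↔ PP π ∧ π ∣ n := by
  unfold PD
  rw [dif_pos hn, Set.Finite.mem_toFinset]
  rfl

/-- primary and squarefree -/
structure PS (n : ZI) : Prop where
  prm : prim n
  sqf : Squarefree n

lemma PS.ne {n : ZI} (h : PS n) : n ≠ 0 := h.sqf.ne_zero

/-- every odd prime is associated to a primary one -/
lemma exists_PP {ρ : ZI} (hρ : Prime ρ) (ho : ρ.norm % 2 = 1) : ∃ π, PP π ∧ Associated π ρ := by
  obtain ⟨u, hu⟩ := exists_Um ho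
  have hu1 : IsUnit u := IsUnit.of_mul_eq_one _ (unit_mul_star hu.1)
  have ha : Associated (u * ρ) ρ := (associated_isUnit_mul_left_iff hu1).2 (Associated.refl ρ)
  exact ⟨u * ρ, ⟨ha.symm.prime hρ, hu.2⟩, ha⟩

lemma odd_of_dvd {ρ n : ZI} (h : ρ ∣ n) (hn : n.norm % 2 = 1) : ρ.norm % 2 = 1 := by
  obtain ⟨c, rfl⟩ := h
  rw [Zsqrtd.norm_mul] at hn
  by_contra h
  have : Zsqrtd.norm ρ % 2 = 0 := by omega
  rw [Int.mul_emod, this] at hn
  simp at hn

lemma PS.prod {n : ZI} (h : PS n) : ∏ π ∈ PD n, π = n := by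
  have hn := h.ne
  have h1 : (∏ π ∈ PD n, π) ∣ n := by
    refine Finset.prod_dvd_of_coprime ?_ ?_
    · intro π hπ ρ hρ hne
      exact ((mem_PD hn).1 hπ).1.cop ((mem_PD hn).1 hρ).1 hne
    · intro π hπ
      exact ((mem_PD hn).1 hπ).2
  obtain ⟨u, hu⟩ := h1
  have hP : prim (∏ π ∈ PD n, π) := by
    refine Finset.prod_induction _ prim (fun a b => prim_mul) prim_one ?_
    intro π hπ
    exact ((mem_PD hn).1 hπ).1.prm
  have hup : prim u := prim_cancel hP (by rw [← hu]; exact h.prm)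
  have huu : IsUnit u := by
    by_contra hnu
    obtain ⟨ρ, hρ, hρu⟩ := WfDvdMonoid.exists_irreducible_factor hnu (prim_ne_zero hup)
    have hρ' : Prime ρ := irreducible_iff_prime.1 hρ
    have h2 : ρ ∣ n := by rw [hu]; exact hρu.mul_left _
    obtain ⟨π, hπ, hass⟩ := exists_PP hρ' (odd_of_dvd h2 (prim_norm_odd h.prm))
    have h3 : π ∈ PD n := (mem_PD hn).2 ⟨hπ, hass.dvd.trans h2⟩
    have h4 : π * π ∣ n := by
      rw [hu]
      exact mul_dvd_mul (Finset.dvd_prod_of_mem _ h3) (hass.dvd.trans hρu)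
    exact hπ.pr.not_isUnit (h.sqf _ h4)
  have hun : u.norm = 1 := by
    obtain ⟨e, rfl⟩ := huu
    exact unit_norm e
  have := eq_one_of_prim hup hun
  rw [this, mul_one] at hu
  exact hu.symm

/-- the primes of `D`, as a family -/
def fam (D : ZI) : {π : ZI // π ∈ PD D} → ZI := fun π => π.1

lemma fam_PF {D : ZI} (h : D ≠ 0) : PF (fam D) where
  pp := fun π => ((mem_PD h).1 π.2).1
  inj := fun _ _ h => Subtype.ext h

lemma PS.DD {D : ZI} (h : PS D) : Y699.DD (fam D) Finset.univ = D := by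
  unfold Y699.DD fam
  rw [Finset.prod_coe_sort (PD D) (fun π => π)]
  exact h.prod

lemma PS.of_dvd {d D : ZI} (h : PS D) (hd : prim d) (hdD : d ∣ D) : PS d :=
  ⟨hd, h.sqf.squarefree_of_dvd hdD⟩

/-- products of sets of primary primes -/
lemma PS_prod {S : Finset ZI} (hS : ∀ π ∈ S, PP π) : PS (∏ π ∈ S, π) ∧ PD (∏ π ∈ S, π) = S := by
  classical
  set n := ∏ π ∈ S, π with hn
  have hP : prim n := by
    refine Finset.prod_induction _ prim (fun a b => prim_mul) prim_one ?_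
    intro π hπ
    exact (hS π hπ).prm
  have hn0 : n ≠ 0 := prim_ne_zero hP
  have hmem : ∀ ρ : ZI, Prime ρ → ρ ∣ n → ∃ π ∈ S, Associated ρ π := by
    intro ρ hρ h
    rw [hn] at h
    obtain ⟨π, hπ, h2⟩ := (hρ.dvd_finsetProd_iff _).1 h
    exact ⟨π, hπ, (hρ.irreducible).associated_of_dvd (hS π hπ).pr.irreducible h2⟩
  have hPD : PD n = S := by
    ext π
    rw [mem_PD hn0]
    constructor
    · rintro ⟨h1, h2⟩
      obtain ⟨ρ, hρ, hass⟩ := hmem π h1.pr h2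
      rw [h1.eq_of_dvd (hS ρ hρ) hass.dvd]
      exact hρ
    · intro h
      exact ⟨hS π h, Finset.dvd_prod_of_mem _ h⟩
  refine ⟨⟨hP, ?_⟩, hPD⟩
  intro x hx
  by_contra hnu
  have hx0 : x ≠ 0 := by
    rintro rfl
    rw [zero_mul, zero_dvd_iff] at hx
    exact hn0 hx
  obtain ⟨ρ, hρ, hρx⟩ := WfDvdMonoid.exists_irreducible_factor hnu hx0
  have hρ' : Prime ρ := irreducible_iff_prime.1 hρ
  have h1 : ρ * ρ ∣ n := (mul_dvd_mul hρx hρx).trans hx
  obtain ⟨π, hπ, hass⟩ := hmem ρ hρ' ((dvd_mul_right _ _).trans h1)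
  have h2 : π * π ∣ π * ∏ σ ∈ S.erase π, σ := by
    rw [Finset.mul_prod_erase S (fun σ => σ) hπ]
    exact (mul_dvd_mul hass.symm.dvd hass.symm.dvd).trans h1
  have h3 := (mul_dvd_mul_iff_left (hS π hπ).pr.ne_zero).1 h2
  obtain ⟨σ, hσ, h4⟩ := ((hS π hπ).pr.dvd_finsetProd_iff _).1 h3
  have h5 := (hS π hπ).eq_of_dvd (hS σ (Finset.mem_of_mem_erase hσ)) h4
  exact (Finset.mem_erase.1 hσ).1 h5.symm

lemma PD_subset {d D : ZI} (hD : D ≠ 0) (h : d ∣ D) : PD d ⊆ PD D := by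
  intro π hπ
  have hd : d ≠ 0 := by
    rintro rfl
    exact hD (zero_dvd_iff.1 h)
  rw [mem_PD hd] at hπ
  exact (mem_PD hD).2 ⟨hπ.1, hπ.2.trans h⟩

lemma PD_one : PD (1 : ZI) = ∅ := by
  rw [Finset.eq_empty_iff_forall_notMem]
  intro π hπ
  rw [mem_PD one_ne_zero] at hπ
  exact hπ.1.pr.not_isUnit (isUnit_of_dvd_one hπ.2)

lemma PD_mul {a b : ZI} (ha : a ≠ 0) (hb : b ≠ 0) : PD (a * b) = PD a ∪ PD b := by
  classical
  ext π
  rw [Finset.mem_union, mem_PD (mul_ne_zero ha hb), mem_PD ha, mem_PD hb]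
  constructor
  · rintro ⟨h1, h2⟩
    rcases h1.pr.dvd_or_dvd h2 with h | h
    · exact Or.inl ⟨h1, h⟩
    · exact Or.inr ⟨h1, h⟩
  · rintro (⟨h1, h2⟩ | ⟨h1, h2⟩)
    · exact ⟨h1, h2.mul_right _⟩
    · exact ⟨h1, h2.mul_left _⟩

lemma PD_disj {a b : ZI} (ha : a ≠ 0) (hb : b ≠ 0) (h : IsCoprime a b) : Disjoint (PD a) (PD b) := by
  rw [Finset.disjoint_left]
  intro π h1 h2
  rw [mem_PD ha] at h1
  rw [mem_PD hb] at h2
  exact h1.1.pr.not_isUnit (h.isUnit_of_dvd' h1.2 h2.2)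

lemma PD_prime {π : ZI} (h : PP π) : PD π = {π} := by
  ext ρ
  rw [mem_PD h.ne, Finset.mem_singleton]
  constructor
  · rintro ⟨h1, h2⟩
    exact h1.eq_of_dvd h h2
  · rintro rfl
    exact ⟨h, dvd_rfl⟩

/-- the Jacobi symbol `(a / n)` for `n` squarefree -/
noncomputable def jac (n a : ZI) : ℤ := ∏ π ∈ PD n, qr π a

lemma jac_one_left (a : ZI) : jac 1 a = 1 := by unfold jac; rw [PD_one]; simp

lemma jac_prime {π : ZI} (h : PP π) (a : ZI) : jac π a = qr π a := by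
  unfold jac; rw [PD_prime h]; simp

lemma jac_mul_right {n : ZI} (hn : n ≠ 0) (a b : ZI) : jac n (a * b) = jac n a * jac n b := by
  unfold jac
  rw [← Finset.prod_mul_distrib]
  exact Finset.prod_congr rfl fun π hπ => qr_mul ((mem_PD hn).1 hπ).1 _ _

lemma jac_one_right {n : ZI} (hn : n ≠ 0) : jac n 1 = 1 := by
  unfold jac
  exact Finset.prod_eq_one fun π hπ => qr_one ((mem_PD hn).1 hπ).1

lemma jac_mul_left {m n : ZI} (hm : m ≠ 0) (hn : n ≠ 0) (h : IsCoprime m n) (a : ZI) :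
    jac (m * n) a = jac m a * jac n a := by
  classical
  unfold jac
  rw [PD_mul hm hn, Finset.prod_union (PD_disj hm hn h)]

lemma jac_prod {n : ZI} (hn : n ≠ 0) {κ : Type*} (s : Finset κ) (f : κ → ZI) :
    jac n (∏ i ∈ s, f i) = ∏ i ∈ s, jac n (f i) := by
  classical
  induction s using Finset.induction_on with
  | empty => rw [Finset.prod_empty, Finset.prod_empty, jac_one_right hn]
  | insert a s ha ih => rw [Finset.prod_insert ha, Finset.prod_insert ha, jac_mul_right hn, ih]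

/-- reciprocity -/
theorem jac_rec {m n : ZI} (hm : PS m) (hn : PS n) : jac m n = jac n m := by
  have h1 : jac m n = ∏ π ∈ PD m, ∏ ρ ∈ PD n, qr π ρ := by
    unfold jac
    refine Finset.prod_congr rfl fun π hπ => ?_
    have hπ' := ((mem_PD hm.ne).1 hπ).1
    have h2 := jac_prod hπ'.ne (PD n) (fun ρ => ρ)
    rw [hn.prod, jac_prime hπ'] at h2
    rw [h2]
    exact Finset.prod_congr rfl fun ρ _ => jac_prime hπ' ρ
  have h2 : jac n m = ∏ ρ ∈ PD n, ∏ π ∈ PD m, qr ρ π := by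
    unfold jac
    refine Finset.prod_congr rfl fun π hπ => ?_
    have hπ' := ((mem_PD hn.ne).1 hπ).1
    have h2 := jac_prod hπ'.ne (PD m) (fun ρ => ρ)
    rw [hm.prod, jac_prime hπ'] at h2
    rw [h2]
    exact Finset.prod_congr rfl fun ρ _ => jac_prime hπ' ρ
  rw [h1, h2, Finset.prod_comm]
  refine Finset.prod_congr rfl fun ρ hρ => Finset.prod_congr rfl fun π hπ => ?_
  exact qr_rec ((mem_PD hm.ne).1 hπ).1 ((mem_PD hn.ne).1 hρ).1

lemma jac_per {n a b : ZI} (hn : n ≠ 0) (h : n ∣ a - b) : jac n a = jac n b :=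
  Finset.prod_congr rfl fun _ hπ => qr_per (((mem_PD hn).1 hπ).2.trans h)

lemma qr_abs_le (π a : ZI) : |qr π a| ≤ 1 := by
  by_cases h : π ∣ a
  · rw [qr_zero_iff.2 h]; norm_num
  · rcases qr_cases h with h1 | h1 <;> rw [h1] <;> norm_num

lemma jac_cases (n a : ZI) : jac n a = 0 ∨ jac n a = 1 ∨ jac n a = -1 := by
  unfold jac
  refine Finset.prod_induction _ (fun x => x = 0 ∨ x = 1 ∨ x = -1) ?_ (by norm_num) ?_
  · rintro a b (h | h | h) (h' | h' | h') <;> rw [h, h'] <;> norm_num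
  · intro π _
    by_cases h : π ∣ a
    · exact Or.inl (qr_zero_iff.2 h)
    · exact Or.inr (qr_cases h)

lemma jac_ne_zero {n a : ZI} (hn : PS n) (h : IsCoprime n a) : jac n a ≠ 0 := by
  unfold jac
  rw [Finset.prod_ne_zero_iff]
  intro π hπ h0
  have h1 := (mem_PD hn.ne).1 hπ
  exact h1.1.pr.not_isUnit (h.isUnit_of_dvd' h1.2 (qr_zero_iff.1 h0))

lemma jac_eq_zero {n a : ZI} (hn : n ≠ 0) {π : ZI} (hπ : PP π) (h1 : π ∣ n) (h2 : π ∣ a) :
    jac n a = 0 := Finset.prod_eq_zero ((mem_PD hn).2 ⟨hπ, h1⟩) (qr_zero_iff.2 h2)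

end Pool.Agent.Y699
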