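import Pool.Agent.Y699.Rk
import Pool.Agent.Y699.Pd

/-!
The criterion.
-/

set_option autoImplicit false
set_option linter.unusedSectionVars false

open NumberField IsDedekindDomain

namespace Pool.Agent.Y699

open H385 (ZI RQ im1 nrm)
open Pool.Agent.W164.RC (two2 prim_iff_dvd unit_norm unit_cases)
open Pool.Agent.H304R2.EC.A1 (prim prim_mul prim_cancel prim_one prim_norm_odd prim_star eq_one_of_prim
  norm_def' re_mul' im_mul' eq_of_dvd prim_ne_zero exists_prim)

/-- the criterion -/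
structure Good (D : ZI) : Prop where
  ps : PS D
  five : D.norm % 8 = 5
  ker : ∀ d d' : ZI, prim d → prim d' → D = d * d' → (∀ π ∈ PD d, qr π d' = 1) →
    (∀ π ∈ PD d', qr π d = 1) → d = 1 ∨ d' = 1

lemma wt_sum {D : ZI} (h : PS D) (h5 : D.norm % 8 = 5) : ∑ i, wt (fam D) i = 1 := by
  have key : ∀ S : Finset {π : ZI // π ∈ PD D},
      ((∑ i ∈ S, wt (fam D) i = 0 ∧ (∏ i ∈ S, (fam D i)).norm % 8 = 1) ∨
      (∑ i ∈ S, wt (fam D) i = 1 ∧ (∏ i ∈ S, (fam D i)).norm % 8 = 5)) := by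
    intro S
    induction S using Finset.induction_on with
    | empty =>
      left
      refine ⟨Finset.sum_empty, ?_⟩
      rw [Finset.prod_empty]
      decide
    | insert a S ha ih =>
      rw [Finset.sum_insert ha, Finset.prod_insert ha, Zsqrtd.norm_mul]
      have h1 := ((fam_PF h.ne).pp a).norm_mod
      rcases (show (fam D a).norm % 8 = 1 ∨ (fam D a).norm % 8 = 5 by omega) with h2 | h2
      · have h3 : wt (fam D) a = 0 := by unfold wt; rw [if_neg (by omega)]
        rw [h3, zero_add, Int.mul_emod, h2]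
        rcases ih with ⟨a1, a2⟩ | ⟨a1, a2⟩
        · left; rw [a2]; exact ⟨a1, by norm_num⟩
        · right; rw [a2]; exact ⟨a1, by norm_num⟩
      · have h3 : wt (fam D) a = 1 := by unfold wt; rw [if_pos h2]
        rw [h3, Int.mul_emod, h2]
        rcases ih with ⟨a1, a2⟩ | ⟨a1, a2⟩
        · right; rw [a1, a2]; exact ⟨by decide, by norm_num⟩
        · left; rw [a1, a2]; exact ⟨by decide, by norm_num⟩
  have h1 := h.DD
  unfold DD at h1
  rcases key Finset.univ with ⟨a1, a2⟩ | ⟨a1, a2⟩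
  · rw [h1] at a2; omega
  · exact a1

/-- the symbol of a product over a set of primes -/
lemma qr_family {D : ZI} (h : PS D) (T : Finset {π : ZI // π ∈ PD D}) {j : {π : ZI // π ∈ PD D}}
    (hj : j ∉ T) : qr j.1 (∏ i ∈ T, i.1) = sg (∑ i ∈ T, em (fam D) i j) :=
  qr_DD_sg (fam_PF h.ne) T hj

lemma sum_em {D : ZI} (h : PS D) (z : {π : ZI // π ∈ PD D} → ZMod 2) (j : {π : ZI // π ∈ PD D}) :
    ∑ u, em (fam D) u j * (z u + z j) = ∑ u ∈ Finset.univ.filter (fun u => z u ≠ z j), em (fam D) u j := by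
  rw [Finset.sum_filter]
  refine Finset.sum_congr rfl fun u _ => ?_
  have : ∀ a b : ZMod 2, a + b = if a ≠ b then 1 else 0 := by decide
  rw [this]
  split_ifs <;> simp

lemma ker_of_good {D : ZI} (h : Good D) : ∀ z : {π : ZI // π ∈ PD D} → ZMod 2,
    (∀ v ∈ (Finset.univ : Finset {π : ZI // π ∈ PD D}), ∑ u ∈ Finset.univ, em (fam D) u v * (z u + z v) = 0) →
      ∀ u ∈ (Finset.univ : Finset {π : ZI // π ∈ PD D}), ∀ v ∈ (Finset.univ : Finset {π : ZI // π ∈ PD D}),
      z u = z v := by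
  intro z hz
  set S1 : Finset {π : ZI // π ∈ PD D} := Finset.univ.filter (fun u => z u = 1) with hS1
  set S0 : Finset {π : ZI // π ∈ PD D} := Finset.univ.filter (fun u => ¬ z u = 1) with hS0
  set T1 : Finset ZI := S1.image Subtype.val with hT1
  set T0 : Finset ZI := S0.image Subtype.val with hT0
  have hPP : ∀ T : Finset {π : ZI // π ∈ PD D}, ∀ π ∈ T.image Subtype.val, PP π := by
    intro T π hπ
    obtain ⟨x, -, rfl⟩ := Finset.mem_image.1 hπ
    exact (fam_PF h.ps.ne).pp x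
  have hprod : ∀ T : Finset {π : ZI // π ∈ PD D}, ∏ π ∈ T.image Subtype.val, π = ∏ i ∈ T, i.1 := by
    intro T
    rw [Finset.prod_image (fun a _ b _ hab => Subtype.ext hab)]
  have h01 : ∀ x : ZMod 2, x ≠ 1 → x = 0 := by decide
  obtain ⟨p1, q1⟩ := PS_prod (hPP S1)
  obtain ⟨p0, q0⟩ := PS_prod (hPP S0)
  have hD : D = (∏ π ∈ T1, π) * ∏ π ∈ T0, π := by
    rw [hT1, hT0, hprod, hprod, hS1, hS0, Finset.prod_filter_mul_prod_filter_not]
    have := h.ps.DD
    unfold DD fam at this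
    exact this.symm
  have hc1 : ∀ π ∈ PD (∏ π ∈ T1, π), qr π (∏ π ∈ T0, π) = 1 := by
    intro π hπ
    rw [q1] at hπ
    obtain ⟨j, hj, rfl⟩ := Finset.mem_image.1 hπ
    have hj1 : z j = 1 := (Finset.mem_filter.1 hj).2
    rw [hT0, hprod, qr_family h.ps S0 (fun h' => (Finset.mem_filter.1 h').2 hj1)]
    have h1 := hz j (Finset.mem_univ _)
    rw [sum_em h.ps] at h1
    have h2 : S0 = Finset.univ.filter (fun u => z u ≠ z j) := by rw [hS0, hj1]
    rw [h2, h1]
    rfl
  have hc0 : ∀ π ∈ PD (∏ π ∈ T0, π), qr π (∏ π ∈ T1, π) = 1 := by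
    intro π hπ
    rw [q0] at hπ
    obtain ⟨j, hj, rfl⟩ := Finset.mem_image.1 hπ
    have hj1 : ¬ z j = 1 := (Finset.mem_filter.1 hj).2
    have hj0 := h01 _ hj1
    rw [hT1, hprod, qr_family h.ps S1 (fun h' => hj1 (Finset.mem_filter.1 h').2)]
    have h1 := hz j (Finset.mem_univ _)
    rw [sum_em h.ps] at h1
    have h2 : S1 = Finset.univ.filter (fun u => z u ≠ z j) := by
      rw [hS1, hj0]
      apply Finset.filter_congr
      intro u _
      have : ∀ x : ZMod 2, x = 1 ↔ x ≠ 0 := by decide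
      exact this _
    rw [h2, h1]
    rfl
  have hempty : ∀ T : Finset {π : ZI // π ∈ PD D}, ∏ π ∈ T.image Subtype.val, π = 1 → T = ∅ := by
    intro T hT
    have h1 := (PS_prod (hPP T)).2
    rw [hT, PD_one] at h1
    exact Finset.image_eq_empty.1 h1.symm
  rcases h.ker _ _ p1.prm p0.prm hD hc1 hc0 with h1 | h1
  · have h2 := hempty _ h1
    have h3 : ∀ u, z u = 0 := by
      intro u
      apply h01
      intro hu
      have : u ∈ S1 := Finset.mem_filter.2 ⟨Finset.mem_univ _, hu⟩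
      rw [h2] at this
      exact Finset.notMem_empty _ this
    intro u _ v _
    rw [h3, h3]
  · have h2 := hempty _ h1
    have h3 : ∀ u, z u = 1 := by
      intro u
      by_contra hu
      have : u ∈ S0 := Finset.mem_filter.2 ⟨Finset.mem_univ _, hu⟩
      rw [h2] at this
      exact Finset.notMem_empty _ this
    intro u _ v _
    rw [h3, h3]

lemma good_nonempty {D : ZI} (h : Good D) : (Finset.univ : Finset {π : ZI // π ∈ PD D}).Nonempty := by
  by_contra hne
  rw [Finset.not_nonempty_iff_eq_empty] at hne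
  have h1 := wt_sum h.ps h.five
  rw [hne, Finset.sum_empty] at h1
  exact absurd h1 (by decide)

/-- **the criterion** -/
theorem crit_L {D : ZI} (h : Good D) {K : Type} [Field K] [NumberField K] (e : ZI ≃+* 𝓞 K) :
    ∃ L : ℂ → ℂ, Differentiable ℂ L ∧ L 1 ≠ 0 ∧
      ∀ W : HeightOneSpectrum (𝓞 K) → WeierstrassCurve (𝓞 K),
        (∀ v, MinAt (crv (algebraMap (𝓞 K) K (e D))) v (W v)) → ∀ s : ℂ, 3 / 2 < s.re →
          HasProd (fun v => lf (W v) v s) (L s) := by
  have hp := fam_PF h.ps.ne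
  refine ⟨LE hp Finset.univ, LE_diff hp _, LE_one hp _ (LH_ne hp (good_nonempty h)
    (wt_sum h.ps h.five) (ker_of_good h)), ?_⟩
  intro W hW s hs
  refine LE_hasProd hp Finset.univ e hs W ?_
  rw [h.ps.DD]
  exact hW

theorem crit_pts {D : ZI} (h : Good D) {K : Type} [Field K] [NumberField K] (e : ZI ≃+* 𝓞 K)
    {x y : K} (hxy : y ^ 2 = x ^ 3 - (algebraMap (𝓞 K) K (e D)) ^ 2 * x) : y = 0 := by
  letI : Algebra ZI K := ((algebraMap (𝓞 K) K).comp (e : ZI →+* 𝓞 K)).toAlgebra
  haveI : IsFractionRing ZI K := IsFractionRing.of_ringEquiv_left e (fun _ => rfl)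
  have hp := fam_PF h.ps.ne
  refine no_points (F := K) hp (V := Finset.univ) (wt_sum h.ps h.five) (ker_of_good h) (x := x) ?_
  rw [h.ps.DD]
  exact hxy

end Pool.Agent.Y699
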