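import Mathlib

/-!
Dynamics of the isogeny of degree two at the prime above two.
-/

set_option autoImplicit false

namespace Pool.Agent.Y699.Av

/-- an additive valuation on the non-zero elements -/
structure AV {F : Type*} [Field F] (v : F → ℤ) : Prop where
  mul : ∀ {x y : F}, x ≠ 0 → y ≠ 0 → v (x * y) = v x + v y
  add : ∀ {x y : F}, x ≠ 0 → y ≠ 0 → x + y ≠ 0 → min (v x) (v y) ≤ v (x + y)

variable {F : Type*} [Field F] {v : F → ℤ}

lemma AV.one (h : AV v) : v 1 = 0 := by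
  have := h.mul (x := 1) (y := 1) one_ne_zero one_ne_zero
  rw [mul_one] at this
  omega

lemma AV.neg_one (h : AV v) : v (-1) = 0 := by
  have h0 : (-1 : F) ≠ 0 := by simp
  have := h.mul (x := -1) (y := -1) h0 h0
  have e : (-1 : F) * -1 = 1 := by ring
  rw [e, h.one] at this
  omega

lemma AV.neg (h : AV v) {x : F} (hx : x ≠ 0) : v (-x) = v x := by
  have h0 : (-1 : F) ≠ 0 := by simp
  have := h.mul h0 hx
  rw [neg_one_mul, h.neg_one, zero_add] at this
  exact this

lemma AV.sub (h : AV v) {x y : F} (hx : x ≠ 0) (hy : y ≠ 0) (hxy : x - y ≠ 0) :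
    min (v x) (v y) ≤ v (x - y) := by
  have := h.add hx (neg_ne_zero.2 hy) (by rwa [← sub_eq_add_neg])
  rwa [h.neg hy, ← sub_eq_add_neg] at this

lemma AV.add_eq (h : AV v) {x y : F} (hx : x ≠ 0) (hy : y ≠ 0) (hlt : v x < v y) :
    x + y ≠ 0 ∧ v (x + y) = v x := by
  have h0 : x + y ≠ 0 := by
    intro h0
    have : y = -x := by linear_combination h0
    rw [this, h.neg hx] at hlt
    exact lt_irrefl _ hlt
  refine ⟨h0, ?_⟩
  have h1 := h.add hx hy h0
  have h2 := h.sub h0 hy (by rwa [add_sub_cancel_right])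
  rw [add_sub_cancel_right] at h2
  rw [min_def] at h1 h2
  split_ifs at h1 h2 <;> omega

lemma AV.sub_eq (h : AV v) {x y : F} (hx : x ≠ 0) (hy : y ≠ 0) (hlt : v x < v y) :
    x - y ≠ 0 ∧ v (x - y) = v x := by
  have := h.add_eq hx (neg_ne_zero.2 hy) (by rwa [h.neg hy])
  rwa [← sub_eq_add_neg] at this

lemma AV.pow (h : AV v) {x : F} (hx : x ≠ 0) (n : ℕ) : v (x ^ n) = n * v x := by
  induction n with
  | zero => simp [h.one]
  | succ n ih =>
    rw [pow_succ, h.mul (pow_ne_zero n hx) hx, ih]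
    push_cast
    ring

lemma AV.inv (h : AV v) {x : F} (hx : x ≠ 0) : v x⁻¹ = - v x := by
  have := h.mul hx (inv_ne_zero hx)
  rw [mul_inv_cancel₀ hx, h.one] at this
  omega

lemma AV.div (h : AV v) {x y : F} (hx : x ≠ 0) (hy : y ≠ 0) : v (x / y) = v x - v y := by
  rw [div_eq_mul_inv, h.mul hx (inv_ne_zero hy), h.inv hy]
  ring

/-- the setting: `l = 1 + i`, `j = i` -/
structure Set2 {F : Type*} [Field F] (v : F → ℤ) (l j D : F) : Prop where
  av : AV v
  ll : l ^ 2 = 2 * j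
  jj : j ^ 2 = -1
  lj : 1 + j = l
  two : (2 : F) ≠ 0
  vl : v l = 1
  D0 : D ≠ 0
  vD : v D = 0
  res : ∀ t : F, t ≠ 0 → v t = 0 → t ≠ 1 → 1 ≤ v (t - 1)

variable {l j D : F}

lemma Set2.l0 (h : Set2 v l j D) : l ≠ 0 := by
  intro h0
  have h1 := h.ll
  rw [h0] at h1
  have hj : j ≠ 0 := by
    intro hj
    have := h.jj
    rw [hj] at this
    simp at this
  have : (2 : F) * j = 0 := by rw [← h1]; simp
  rcases mul_eq_zero.1 this with h2 | h2
  · exact h.two h2
  · exact hj h2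

lemma Set2.j0 (h : Set2 v l j D) : j ≠ 0 := by
  intro hj
  have := h.jj
  rw [hj] at this
  simp at this

lemma Set2.vj (h : Set2 v l j D) : v j = 0 := by
  have h1 := h.av.pow h.j0 2
  rw [h.jj, h.av.neg_one] at h1
  push_cast at h1
  omega

lemma Set2.v2 (h : Set2 v l j D) : v 2 = 2 := by
  have h1 := h.av.pow h.l0 2
  rw [h.ll, h.av.mul h.two h.j0, h.vj, h.vl] at h1
  push_cast at h1
  omega

lemma Set2.v2D (h : Set2 v l j D) : v (2 * D) = 2 := by
  rw [h.av.mul h.two h.D0, h.v2, h.vD]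
  norm_num

/-- the map on abscissae induced by `1 + i` -/
def g (l D x : F) : F := (x ^ 2 - D ^ 2) / (l ^ 2 * x)

/-- translation by `(D, 0)` -/
def tau (D x : F) : F := D * (x + D) / (x - D)

/-- not a torsion abscissa -/
def Nt (D x : F) : Prop := x ≠ 0 ∧ x - D ≠ 0 ∧ x + D ≠ 0

lemma v_g (h : Set2 v l j D) {x : F} (hx : Nt D x) :
    v (g l D x) = v (x - D) + v (x + D) - 2 - v x := by
  obtain ⟨h0, h1, h2⟩ := hx
  unfold g
  have e : x ^ 2 - D ^ 2 = (x - D) * (x + D) := by ring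
  rw [e, h.av.div (mul_ne_zero h1 h2) (mul_ne_zero (pow_ne_zero 2 h.l0) h0), h.av.mul h1 h2,
    h.av.mul (pow_ne_zero 2 h.l0) h0, h.av.pow h.l0, h.vl]
  push_cast
  ring

lemma v_tau (h : Set2 v l j D) {x : F} (hx : Nt D x) :
    v (tau D x) = v (x + D) - v (x - D) := by
  obtain ⟨h0, h1, h2⟩ := hx
  unfold tau
  rw [h.av.div (mul_ne_zero h.D0 h2) h1, h.av.mul h.D0 h2, h.vD]
  ring

lemma v_tau_sub (h : Set2 v l j D) {x : F} (hx : Nt D x) :
    tau D x - D ≠ 0 ∧ v (tau D x - D) = 2 - v (x - D) := by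
  obtain ⟨h0, h1, h2⟩ := hx
  have e : tau D x - D = (2 * D) * D / (x - D) := by
    unfold tau
    field_simp
    ring
  have h3 : (2 * D) * D ≠ 0 := mul_ne_zero (mul_ne_zero h.two h.D0) h.D0
  rw [e]
  refine ⟨div_ne_zero h3 h1, ?_⟩
  rw [h.av.div h3 h1, h.av.mul (mul_ne_zero h.two h.D0) h.D0, h.v2D, h.vD]
  ring

lemma v_tau_add (h : Set2 v l j D) {x : F} (hx : Nt D x) :
    tau D x + D ≠ 0 ∧ v (tau D x + D) = 2 + v x - v (x - D) := by
  obtain ⟨h0, h1, h2⟩ := hx
  have e : tau D x + D = (2 * D) * x / (x - D) := by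
    unfold tau
    field_simp
    ring
  have h3 : (2 * D) * x ≠ 0 := mul_ne_zero (mul_ne_zero h.two h.D0) h0
  rw [e]
  refine ⟨div_ne_zero h3 h1, ?_⟩
  rw [h.av.div h3 h1, h.av.mul (mul_ne_zero h.two h.D0) h0, h.v2D]

lemma nt_tau (h : Set2 v l j D) {x : F} (hx : Nt D x) : Nt D (tau D x) := by
  refine ⟨?_, (v_tau_sub h hx).1, (v_tau_add h hx).1⟩
  exact div_ne_zero (mul_ne_zero h.D0 hx.2.2) hx.2.1

/-- the possible valuations of `x`, `x - D`, `x + D` -/
lemma cases3 (h : Set2 v l j D) {x : F} (hx : Nt D x) :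
    (v x < 0 ∧ v (x - D) = v x ∧ v (x + D) = v x) ∨ (0 < v x ∧ v (x - D) = 0 ∧ v (x + D) = 0) ∨
      (v x = 0 ∧ v (x - D) = 1 ∧ v (x + D) = 1) ∨ (v x = 0 ∧ v (x - D) = 2 ∧ 3 ≤ v (x + D)) ∨
      (v x = 0 ∧ 3 ≤ v (x - D) ∧ v (x + D) = 2) := by
  obtain ⟨h0, h1, h2⟩ := hx
  have hDv := h.vD
  rcases lt_trichotomy (v x) 0 with h3 | h3 | h3
  · left
    exact ⟨h3, (h.av.sub_eq h0 h.D0 (by omega)).2, (h.av.add_eq h0 h.D0 (by omega)).2⟩
  · right; right
    have h2D0 : (2 * D) ≠ 0 := mul_ne_zero h.two h.D0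
    have h4 : 1 ≤ v (x - D) := by
      have h5 := h.res (x / D) (div_ne_zero h0 h.D0) (by rw [h.av.div h0 h.D0]; omega) (by
        intro h6
        rw [div_eq_one_iff_eq h.D0] at h6
        exact h1 (by rw [h6, sub_self]))
      have e : x / D - 1 = (x - D) / D := by
        have := h.D0
        field_simp
      rw [e, h.av.div h1 h.D0, hDv, sub_zero] at h5
      exact h5
    have e : x + D = (x - D) + 2 * D := by ring
    have e' : x + D = 2 * D + (x - D) := by ring
    rcases lt_trichotomy (v (x - D)) 2 with h5 | h5 | h5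
    · left
      have h6 := (h.av.add_eq h1 h2D0 (by rw [h.v2D]; exact h5)).2
      rw [← e] at h6
      omega
    · right; left
      refine ⟨h3, h5, ?_⟩
      have h6 := h.res (-(x - D) / (2 * D)) (div_ne_zero (neg_ne_zero.2 h1) h2D0) (by
        rw [h.av.div (neg_ne_zero.2 h1) h2D0, h.av.neg h1, h.v2D]; omega) (by
        intro h7
        rw [div_eq_one_iff_eq h2D0] at h7
        exact h2 (by linear_combination -h7))
      have e2 : -(x - D) / (2 * D) - 1 = -(x + D) / (2 * D) := by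
        have := h.D0
        have := h.two
        field_simp
        ring
      rw [e2, h.av.div (neg_ne_zero.2 h2) h2D0, h.av.neg h2, h.v2D] at h6
      omega
    · right; right
      have h6 := (h.av.add_eq h2D0 h1 (by rw [h.v2D]; exact h5)).2
      rw [← e', h.v2D] at h6
      omega
  · right; left
    have e1 : x - D = -(D - x) := by ring
    have h4 := h.av.sub_eq h.D0 h0 (by omega)
    have h5 := (h.av.add_eq h.D0 h0 (by omega)).2
    refine ⟨h3, ?_, ?_⟩
    · rw [e1, h.av.neg h4.1, h4.2, hDv]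
    · rw [add_comm, h5, hDv]

/-- distance at least `n` -/
def Ord (v : F → ℤ) (D : F) (n : ℤ) (x : F) : Prop :=
  v x ≤ -n ∨ n ≤ v x ∨ n + 2 ≤ v (x - D) ∨ n + 2 ≤ v (x + D)

/-- the identity or the opposite component -/
def Qp (v : F → ℤ) (D : F) (x : F) : Prop := v x ≠ 0 ∨ 2 ≤ v (x - D)

lemma ord_g (h : Set2 v l j D) {n : ℤ} (hn : 1 ≤ n) {x : F} (hx : Nt D x) (ho : Ord v D n x) :
    Ord v D (n + 1) (g l D x) := by
  have h1 := v_g h hx
  have h2 := cases3 h hx
  unfold Ord at ho ⊢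
  omega

lemma ord_tau (h : Set2 v l j D) {n : ℤ} (hn : 1 ≤ n) {x : F} (hx : Nt D x) (ho : Ord v D n x) :
    Ord v D n (tau D x) := by
  have h1 := v_tau h hx
  have h2 := cases3 h hx
  have h3 := (v_tau_sub h hx).2
  have h4 := (v_tau_add h hx).2
  unfold Ord at ho ⊢
  omega

lemma qp_tau (h : Set2 v l j D) {x : F} (hx : Nt D x) (ho : Qp v D x) : Qp v D (tau D x) := by
  have h1 := v_tau h hx
  have h2 := cases3 h hx
  have h3 := (v_tau_sub h hx).2
  have h4 := (v_tau_add h hx).2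
  unfold Qp at ho ⊢
  omega

lemma qp_ord (h : Set2 v l j D) {x : F} (hx : Nt D x) (ho : Qp v D x) : Ord v D 1 (g l D x) := by
  have h1 := v_g h hx
  have h2 := cases3 h hx
  unfold Qp at ho
  unfold Ord
  omega

/-- after one step -/
lemma qp_g (h : Set2 v l j D) {x : F} (hx : Nt D x) (hgx : Nt D (g l D x)) : Qp v D (g l D x) := by
  have h1 := v_g h hx
  have h2 := cases3 h hx
  unfold Qp
  by_cases hb : v x = 0 ∧ v (x - D) = 1 ∧ v (x + D) = 1
  · right
    obtain ⟨b1, b2, b3⟩ := hb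
    obtain ⟨h0, hm, hp⟩ := hx
    set t : F := (x - D) / (l * D) with ht
    have hl0 := h.l0
    have hD0 := h.D0
    have hlD : l * D ≠ 0 := mul_ne_zero hl0 hD0
    have ht0 : t ≠ 0 := div_ne_zero hm hlD
    have hvt : v t = 0 := by
      rw [ht, h.av.div hm hlD, h.av.mul hl0 hD0, h.vl, h.vD]; omega
    have hxt : x = D * (1 + l * t) := by
      rw [ht]; field_simp; ring
    have hr0 : 1 + l * t ≠ 0 := by
      intro h5
      apply h0
      rw [hxt, h5, mul_zero]
    have hvr : v (1 + l * t) = 0 := by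
      have := h.av.mul hD0 hr0
      rw [← hxt, b1, h.vD] at this
      omega
    have h2l : (2 : F) = - j * l ^ 2 := by
      rw [h.ll]
      linear_combination (2 : F) * h.jj
    have key : g l D x - D = D * (t ^ 2 - 1 - l ^ 2 * t) / (1 + l * t) := by
      have e1 : g l D x = D * ((1 + l * t) ^ 2 - 1) / (l ^ 2 * (1 + l * t)) := by
        unfold g
        rw [hxt]
        field_simp
        try ring
      rw [e1]
      have e2 : (1 + l * t) ^ 2 - 1 = l ^ 2 * (t ^ 2 - j * l * t) := by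
        linear_combination (l * t) * h2l
      rw [e2]
      have e3 : D * (l ^ 2 * (t ^ 2 - j * l * t)) / (l ^ 2 * (1 + l * t)) =
          D * (t ^ 2 - j * l * t) / (1 + l * t) := by
        field_simp
      have e4 : t ^ 2 - j * l * t - (1 + l * t) = t ^ 2 - 1 - l ^ 2 * t := by
        linear_combination (-(l * t)) * h.lj
      rw [e3, ← e4, eq_div_iff hr0, sub_mul, div_mul_cancel₀ _ hr0]
      ring
    have hz : t ^ 2 - 1 - l ^ 2 * t ≠ 0 := by
      intro h5
      apply hgx.2.1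
      rw [key, h5, mul_zero, zero_div]
    rw [key, h.av.div (mul_ne_zero hD0 hz) hr0, h.av.mul hD0 hz, hvr, h.vD]
    have hl2t : l ^ 2 * t ≠ 0 := mul_ne_zero (pow_ne_zero 2 hl0) ht0
    have hvl2 : v (l ^ 2 * t) = 2 := by
      rw [h.av.mul (pow_ne_zero 2 hl0) ht0, h.av.pow hl0, h.vl, hvt]; norm_num
    by_cases ht1 : t ^ 2 - 1 = 0
    · rw [ht1, zero_sub, h.av.neg hl2t, hvl2]; norm_num
    · have e4 : t ^ 2 - 1 = (t - 1) * (t + 1) := by ring
      have hm1 : t - 1 ≠ 0 := by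
        intro h5; apply ht1; rw [e4, h5, zero_mul]
      have hp1 : t + 1 ≠ 0 := by
        intro h5; apply ht1; rw [e4, h5, mul_zero]
      have h6 := h.res t ht0 hvt (fun h7 => hm1 (by rw [h7, sub_self]))
      have h7 : 1 ≤ v (t + 1) := by
        have h8 := h.res (-t) (neg_ne_zero.2 ht0) (by rw [h.av.neg ht0]; exact hvt)
          (fun h9 => hp1 (by rw [← h9]; ring))
        have e5 : -t - 1 = -(t + 1) := by ring
        rwa [e5, h.av.neg hp1] at h8
      have h8 : v (t ^ 2 - 1) = v (t - 1) + v (t + 1) := by rw [e4, h.av.mul hm1 hp1]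
      have h9 := h.av.sub ht1 hl2t hz
      rw [hvl2, h8, min_def] at h9
      split_ifs at h9 <;> omega
  · omega

/-- **no point is infinitely divisible** -/
theorem empty_of_step (h : Set2 v l j D) (X : Set F) (hX : ∀ x ∈ X, Nt D x)
    (hstep : ∀ x ∈ X, ∃ x' ∈ X, x = g l D x' ∨ (g l D x' ∈ X ∧ x = tau D (g l D x'))) : X = ∅ := by
  have hQ : ∀ x ∈ X, Qp v D x := by
    intro x hx
    obtain ⟨x', hx', h1 | ⟨h1, h2⟩⟩ := hstep x hx
    · rw [h1]
      exact qp_g h (hX _ hx') (by rw [← h1]; exact hX _ hx)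
    · rw [h2]
      exact qp_tau h (hX _ h1) (qp_g h (hX _ hx') (hX _ h1))
  have hO : ∀ n : ℕ, ∀ x ∈ X, Ord v D (n + 1) x := by
    intro n
    induction n with
    | zero =>
      intro x hx
      obtain ⟨x', hx', h1 | ⟨h1, h2⟩⟩ := hstep x hx
      · rw [h1]
        have := qp_ord h (hX _ hx') (hQ _ hx')
        simpa using this
      · rw [h2]
        have := ord_tau h le_rfl (hX _ h1) (qp_ord h (hX _ hx') (hQ _ hx'))
        simpa using this
    | succ n ih =>
      intro x hx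
      obtain ⟨x', hx', h1 | ⟨h1, h2⟩⟩ := hstep x hx
      · rw [h1]
        have := ord_g h (by omega) (hX _ hx') (ih x' hx')
        push_cast
        exact this
      · rw [h2]
        have := ord_g h (by omega) (hX _ hx') (ih x' hx')
        have h3 := ord_tau h (by omega) (hX _ h1) this
        push_cast
        exact h3
  rw [Set.eq_empty_iff_forall_notMem]
  intro x hx
  have h1 := hO (((v x).natAbs + (v (x - D)).natAbs + (v (x + D)).natAbs)) x hx
  unfold Ord at h1
  omega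

end Pool.Agent.Y699.Av
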