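import Pool.Agent.Y699.Rgm

/-!
The average of the number of kernel elements.
-/

set_option autoImplicit false

open Finset

namespace Pool.Agent.Y699

open H385 (ZI RQ im1 nrm BX)
open H385.H10 (mem_BX nrm_pos Dv mem_Dv card_Dv)
open Pool.Agent.W164.RC (two2 prim_iff_dvd unit_norm unit_cases)
open Pool.Agent.H304R2.EC.A1 (prim prim_mul prim_cancel prim_one prim_norm_odd prim_star eq_one_of_prim
  norm_def' re_mul' im_mul' eq_of_dvd prim_ne_zero exists_prim)

/-- the number of triples -/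
noncomputable def TT (P X : ℕ) : ℝ :=
  ∑ p ∈ SB X, ∑ q ∈ SB X, iI P p * iI P q * ∑ m ∈ SB X, Ph X (m * (p * q))

lemma two_free {r : ZI} (hr : prim r) (X : ℕ) :
    ∑ b ∈ SB X, ∑ e ∈ SB X, Ph X (b * e * r) * (wt2 b * wt2 e) = ∑ n ∈ SB X, Ph X (n * r) := by
  classical
  rw [pr_sum (Φ := fun n => Ph X (n * r)) (Ph_r hr) (fun b e => wt2 b * wt2 e)]
  refine sum_congr rfl fun n hn => ?_
  rw [mem_SB] at hn
  have : ∑ S ∈ (PD n).powerset, wt2 (∏ π ∈ S, π) * wt2 (∏ π ∈ PD n \ S, π) = 1 := by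
    have h1 : ∏ π ∈ PD n, ((1 / 2 : ℝ) + 1 / 2) = 1 := by norm_num
    rw [← h1, prod_add]
    refine sum_congr rfl fun S hS => ?_
    have hSP : ∀ π ∈ S, PP π := fun π hπ => ((mem_PD hn.2.ne).1 (mem_powerset.1 hS hπ)).1
    have hSP' : ∀ π ∈ PD n \ S, PP π := fun π hπ => ((mem_PD hn.2.ne).1 (mem_sdiff.1 hπ).1).1
    unfold wt2
    rw [mf_prod hSP, mf_prod hSP']
  rw [this, mul_one]

lemma wt2_one : wt2 1 = 1 := by unfold wt2 mf; rw [PD_one]; simp

lemma d1_ne {x : ZI} (h : x ≠ 1) : d1 x = 0 := by unfold d1; rw [if_neg h]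
lemma d1_one : d1 1 = 1 := by unfold d1; simp

lemma mul_eq_one {a b : ZI} (ha : prim a) (hb : prim b) : a * b = 1 ↔ a = 1 ∧ b = 1 := by
  constructor
  · intro h
    have h1 : a.norm * b.norm = 1 := by rw [← Zsqrtd.norm_mul, h]; decide
    have h2 : 0 ≤ a.norm := GaussianInt.norm_nonneg a
    have h3 : a.norm = 1 := by
      rcases Int.eq_one_or_neg_one_of_mul_eq_one h1 with h4 | h4
      · exact h4
      · omega
    have h4 := eq_one_of_prim ha h3
    rw [h4, one_mul] at h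
    exact ⟨h4, h⟩
  · rintro ⟨rfl, rfl⟩
    rw [one_mul]

lemma nrm_le_one_iff {a : ZI} (ha : prim a) : nrm a ≤ 1 ↔ a = 1 := by
  constructor
  · intro h
    have h0 := nrm_pos' (prim_ne_zero ha)
    have h1 : nrm a = 1 := by omega
    apply eq_one_of_prim ha
    have h2 : (nrm a : ℤ) = a.norm := GaussianInt.abs_natCast_norm a
    rw [← h2, h1]
    rfl
  · rintro rfl
    rw [nrm_one]

lemma S6_F6_add (P X : ℕ) (κ κ' : ZI → ZI → ZI → ℝ) (τ : ZI → ZI → ZI → ZI → ℝ) :
    S6 (SB X) (F6 P X (fun a b c => κ a b c + κ' a b c) τ) =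
      S6 (SB X) (F6 P X κ τ) + S6 (SB X) (F6 P X κ' τ) := by
  rw [← S6_add]
  congr 1
  funext p q a b c e
  unfold F6
  ring

lemma S6_F6_neg (P X : ℕ) (κ : ZI → ZI → ZI → ℝ) (τ : ZI → ZI → ZI → ZI → ℝ) :
    S6 (SB X) (F6 P X (fun a b c => -κ a b c) τ) = -S6 (SB X) (F6 P X κ τ) := by
  rw [← neg_one_mul (S6 (SB X) (F6 P X κ τ)), ← S6_mul]
  congr 1
  funext p q a b c e
  unfold F6
  ring

lemma S6_F6_congr {P X : ℕ} {κ κ' : ZI → ZI → ZI → ℝ} {τ : ZI → ZI → ZI → ZI → ℝ}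
    (h : ∀ a ∈ SB X, ∀ b ∈ SB X, ∀ c ∈ SB X, κ a b c = κ' a b c) :
    S6 (SB X) (F6 P X κ τ) = S6 (SB X) (F6 P X κ' τ) := by
  refine S6_congr fun p _ q _ a ha b hb c hc e _ => ?_
  unfold F6
  rw [h a ha b hb c hc]

lemma one_mem_SB {X : ℕ} (hX : 1 ≤ X) : (1 : ZI) ∈ SB X := mem_SB.2 ⟨by rw [nrm_one]; exact hX, PS_one⟩

/-- the main part -/
lemma main_part {P X Z : ℕ} (hX : 1 ≤ X) :
    S6 (SB X) (F6 P X (fun a b c => d1 a * d1 c * hi Z b) (fun p q a _ => jac a p * jac a q)) ≤ TT P X := by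
  unfold S6 TT
  refine sum_le_sum fun p hp => sum_le_sum fun q hq => ?_
  rw [mem_SB] at hp hq
  have hpq : prim (p * q) := prim_mul hp.2.prm hq.2.prm
  have h1 : ∑ a ∈ SB X, ∑ b ∈ SB X, ∑ c ∈ SB X, ∑ e ∈ SB X,
      F6 P X (fun a b c => d1 a * d1 c * hi Z b) (fun p q a _ => jac a p * jac a q) p q a b c e =
      ∑ b ∈ SB X, ∑ e ∈ SB X,
      F6 P X (fun a b c => d1 a * d1 c * hi Z b) (fun p q a _ => jac a p * jac a q) p q 1 b 1 e := by
    rw [sum_eq_single_of_mem 1 (one_mem_SB hX)]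
    · refine sum_congr rfl fun b _ => ?_
      rw [sum_eq_single_of_mem 1 (one_mem_SB hX)]
      intro c _ hc
      refine sum_eq_zero fun e _ => ?_
      simp only [F6, d1_ne hc]
      ring
    · intro a _ ha
      refine sum_eq_zero fun b _ => sum_eq_zero fun c _ => sum_eq_zero fun e _ => ?_
      simp only [F6, d1_ne ha]
      ring
  rw [h1, ← two_free hpq X, mul_sum]
  refine sum_le_sum fun b hb => ?_
  rw [mul_sum]
  refine sum_le_sum fun e _ => ?_
  rw [mem_SB] at hb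
  unfold F6
  simp only [d1_one, wt2_one, jac_one_left, jac_one_right hb.2.ne]
  rw [show 1 * b * 1 * e * (p * q) = b * e * (p * q) by ring]
  have h2 : 0 ≤ iI P p * iI P q * (Ph X (b * e * (p * q)) * (wt2 b * wt2 e)) :=
    mul_nonneg (mul_nonneg (iI_nonneg _ _) (iI_nonneg _ _))
      (mul_nonneg (Ph_nonneg _ _) (mul_nonneg (wt2_nonneg _) (wt2_nonneg _)))
  have h3 : iI P p * iI P q * (Ph X (b * e * (p * q)) * (1 * 1 * hi Z b * (((1 : ℤ) : ℝ) * ((1 : ℤ) : ℝ)) *
      (1 * wt2 b * 1 * wt2 e * (((1 : ℤ) : ℝ) * ((1 : ℤ) : ℝ))))) =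
      hi Z b * (iI P p * iI P q * (Ph X (b * e * (p * q)) * (wt2 b * wt2 e))) := by
    push_cast
    ring
  rw [h3]
  exact mul_le_of_le_one_left h2 (hi_le Z b)

/-- the two cases -/
theorem cases_bound : ∃ C : ℝ, 1 ≤ C ∧ ∀ (P X Z : ℕ) (lam : ℝ), 0 ≤ lam → HL P X Z lam → 1 ≤ Z → Z ≤ P →
    3 ≤ P → 1 ≤ X →
    S6 (SB X) (F6 P X (fun a b _ => n1 (a * b)) (fun p q a _ => jac a p * jac a q)) ≤
      TT P X + (C * (X * lg X ^ 5) * (Z : ℝ) ^ (-(1 / 96) : ℝ) + 3 * EH X Z lam) ∧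
    S6 (SB X) (F6 P X (fun a b _ => n1 (a * b)) (fun p q a b => jac a q * jac b p)) ≤
      (C * (X * lg X ^ 5) * (Z : ℝ) ^ (-(1 / 96) : ℝ) + EH X Z lam) := by
  obtain ⟨C1, hC1, h1⟩ := reg1
  obtain ⟨C2, hC2, h2⟩ := reg2
  obtain ⟨C3, hC3, h3⟩ := reg2'
  refine ⟨C1 + C2 + C3, by linarith, ?_⟩
  intro P X Z lam hlam hL hZ hZP hP hX
  have hlX := lg_pos X
  have hY : 0 ≤ (X * lg X ^ 5) * (Z : ℝ) ^ (-(1 / 96) : ℝ) := by positivity
  have hhilo : ∀ x, hi Z x = 1 - lo Z x := by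
    intro x
    unfold hi lo
    by_cases h : nrm x ≤ Z
    · rw [if_neg (by omega), if_pos h]; norm_num
    · rw [if_pos (by omega), if_neg h]; norm_num
  have hn1 : ∀ {x : ZI}, prim x → lo Z x = 0 → x ≠ 1 := by
    intro x _ h hx
    rw [hx] at h
    unfold lo at h
    rw [nrm_one, if_pos hZ] at h
    norm_num at h
  have hlo01 : ∀ x, lo Z x = 0 ∨ lo Z x = 1 := by
    intro x
    unfold lo
    split_ifs <;> simp
  constructor
  · -- first case
    set τ : ZI → ZI → ZI → ZI → ℝ := fun p q a _ => (jac a p : ℝ) * jac a q with hτ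
    have ht : ∀ p q a b, |τ p q a b| ≤ 1 := fun p q a b => abs_mul_le (jac_abs _ _) (jac_abs _ _)
    have e1 : S6 (SB X) (F6 P X (fun a b _ => n1 (a * b)) τ) =
        S6 (SB X) (F6 P X (fun a _ _ => hi Z a) τ) +
        S6 (SB X) (F6 P X (fun a b c => lo Z a * hi Z b * hi Z c) τ) +
        S6 (SB X) (F6 P X (fun a b _ => lo Z a * lo Z b * n1 (a * b)) τ) +
        S6 (SB X) (F6 P X (fun a b c => d1 a * d1 c * hi Z b) τ) +
        S6 (SB X) (F6 P X (fun a _ c => lo Z a * lo Z c * n1 (a * c)) τ) +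
        -S6 (SB X) (F6 P X (fun a b c => lo Z a * lo Z b * lo Z c * n1 (a * c)) τ) := by
      rw [← S6_F6_neg, ← S6_F6_add, ← S6_F6_add, ← S6_F6_add, ← S6_F6_add, ← S6_F6_add]
      refine S6_F6_congr fun a ha b hb c hc => ?_
      rw [mem_SB] at ha hb hc
      rw [hhilo, hhilo, hhilo]
      unfold n1 d1
      by_cases a1 : a = 1
      · have l1 : lo Z a = 1 := by unfold lo; rw [a1, nrm_one, if_pos hZ]
        rw [l1, if_pos a1]
        by_cases c1 : c = 1
        · have l3 : lo Z c = 1 := by unfold lo; rw [c1, nrm_one, if_pos hZ]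
          rw [l3, if_pos c1, a1, c1]
          rcases hlo01 b with l2 | l2
          · have b1 := hn1 hb.2.prm l2
            rw [l2]
            simp [b1]
          · rw [l2]
            simp
        · rw [if_neg c1, a1]
          simp only [one_mul, if_neg c1]
          rcases hlo01 b with l2 | l2
          · have b1 := hn1 hb.2.prm l2
            rw [l2, if_neg b1]
            ring
          · rw [l2]
            ring
      · rw [if_neg a1]
        have ab : a * b ≠ 1 := fun h => a1 ((mul_eq_one ha.2.prm hb.2.prm).1 h).1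
        have ac : a * c ≠ 1 := fun h => a1 ((mul_eq_one ha.2.prm hc.2.prm).1 h).1
        rw [if_neg ab, if_neg ac]
        ring
    have b1 := h1 P X Z hZ hZP (fun p a _ => (jac a p : ℝ)) (fun _ _ _ => jac_abs _ _)
    have b2 := h2 P X Z hZ τ ht
    have b3 := reg3 hlam hL hZ hP ht
    have b4 := main_part (P := P) (Z := Z) hX
    have b5 := reg4 hlam hL hZ hP (t := fun p q a => (jac a p : ℝ) * jac a q)
      (fun p q a => abs_mul_le (jac_abs _ _) (jac_abs _ _))
    have b6 := reg5 hlam hL hP ht (κ := fun a _ c => n1 (a * c)) (fun a _ c => n1_abs _)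
    rw [e1]
    have c1 := (le_abs_self _).trans b1
    have c2 := (le_abs_self _).trans b2
    have c3 := (le_abs_self _).trans b3
    have c5 := (le_abs_self _).trans b5
    have c6 := (neg_le_abs _).trans b6
    have c7 : 0 ≤ C3 * ((X * lg X ^ 5) * (Z : ℝ) ^ (-(1 / 96) : ℝ)) := by positivity
    linarith
  · -- second case
    set τ : ZI → ZI → ZI → ZI → ℝ := fun p q a b => (jac a q : ℝ) * jac b p with hτ
    have ht : ∀ p q a b, |τ p q a b| ≤ 1 := fun p q a b => abs_mul_le (jac_abs _ _) (jac_abs _ _)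
    have e1 : S6 (SB X) (F6 P X (fun a b _ => n1 (a * b)) τ) =
        S6 (SB X) (F6 P X (fun a _ _ => hi Z a) τ) +
        S6 (SB X) (F6 P X (fun a b _ => lo Z a * hi Z b) τ) +
        S6 (SB X) (F6 P X (fun a b _ => lo Z a * lo Z b * n1 (a * b)) τ) := by
      rw [← S6_F6_add, ← S6_F6_add]
      refine S6_F6_congr fun a ha b hb c hc => ?_
      rw [mem_SB] at ha hb
      rw [hhilo, hhilo]
      unfold n1
      by_cases a1 : a = 1
      · have l1 : lo Z a = 1 := by unfold lo; rw [a1, nrm_one, if_pos hZ]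
        rw [l1, a1]
        rcases hlo01 b with l2 | l2
        · have b1 := hn1 hb.2.prm l2
          rw [l2]
          simp [b1]
        · rw [l2]
          simp
      · have ab : a * b ≠ 1 := fun h => a1 ((mul_eq_one ha.2.prm hb.2.prm).1 h).1
        rw [if_neg ab]
        ring
    have b1 := h1 P X Z hZ hZP (fun p _ b => (jac b p : ℝ)) (fun _ _ _ => jac_abs _ _)
    have e2 : (fun p q a b => (jac b p : ℝ) * jac a q) = τ := by
      funext p q a b
      rw [hτ]
      ring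
    rw [e2] at b1
    have b2 := h3 P X Z hZ hZP (fun q a _ => (jac a q : ℝ)) (fun _ _ _ => jac_abs _ _)
    have b3 := reg3 hlam hL hZ hP ht
    rw [e1]
    have c1 := (le_abs_self _).trans b1
    have c2 := (le_abs_self _).trans b2
    have c3 := (le_abs_self _).trans b3
    have c7 : 0 ≤ C2 * ((X * lg X ^ 5) * (Z : ℝ) ^ (-(1 / 96) : ℝ)) := by positivity
    linarith

/-- **the average** -/
theorem avg : ∃ C : ℝ, 1 ≤ C ∧ ∀ (P X Z : ℕ) (lam : ℝ), 0 ≤ lam → HL P X Z lam → 1 ≤ Z → Z ≤ P →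
    3 ≤ P → 1 ≤ X →
    ∑ p ∈ SB X, ∑ q ∈ SB X, iI P p * iI P q * ∑ m ∈ SB X, Ph X (m * (p * q)) * K1 m p q ≤
      3 / 2 * TT P X + (C * (X * lg X ^ 5) * (Z : ℝ) ^ (-(1 / 96) : ℝ) + 2 * EH X Z lam) := by
  classical
  obtain ⟨C, hC1, hC⟩ := cases_bound
  refine ⟨C, hC1, ?_⟩
  intro P X Z lam hlam hL hZ hZP hP hX
  obtain ⟨h1, h2⟩ := hC P X Z lam hlam hL hZ hZP hP hX
  set τ00 : ZI → ZI → ZI → ZI → ℝ := fun p q a _ => (jac a p : ℝ) * jac a q with hτ00
  set τ11 : ZI → ZI → ZI → ZI → ℝ := fun p q _ b => (jac b p : ℝ) * jac b q with hτ11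
  set τ10 : ZI → ZI → ZI → ZI → ℝ := fun p q a b => (jac a q : ℝ) * jac b p with hτ10
  set τ01 : ZI → ZI → ZI → ZI → ℝ := fun p q a b => (jac a p : ℝ) * jac b q with hτ01
  have e1 : ∑ p ∈ SB X, ∑ q ∈ SB X, iI P p * iI P q * ∑ m ∈ SB X, Ph X (m * (p * q)) * K1 m p q =
      S6 (SB X) (fun p q a b c e => iI P p * iI P q * (Ph X (a * b * c * e * (p * q)) * G1 p q a b c e)) := by
    unfold S6
    refine sum_congr rfl fun p _ => sum_congr rfl fun q _ => ?_
    by_cases c1 : p ∈ IB kx P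
    swap
    · have : iI P p = 0 := by unfold iI; rw [if_neg c1]
      simp only [this, zero_mul, sum_const_zero]
    by_cases c2 : q ∈ IB kx P
    swap
    · have : iI P q = 0 := by unfold iI; rw [if_neg c2]
      simp only [this, mul_zero, zero_mul, sum_const_zero]
    rw [K1_sum (mem_IB.1 c1).2.1 (mem_IB.1 c2).2.1, mul_sum]
    refine sum_congr rfl fun a _ => ?_
    rw [mul_sum]
    refine sum_congr rfl fun b _ => ?_
    rw [mul_sum]
    refine sum_congr rfl fun c _ => ?_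
    rw [mul_sum]
  have e2 : S6 (SB X) (fun p q a b c e => iI P p * iI P q * (Ph X (a * b * c * e * (p * q)) * G1 p q a b c e)) =
      S6 (SB X) (fun p q a b c e => iI P p * iI P q *
        (Ph X (a * b * c * e * (p * q)) * (d1 a * d1 b * G1 p q a b c e))) +
      1 / 4 * (S6 (SB X) (F6 P X (fun a b _ => n1 (a * b)) τ00) +
        S6 (SB X) (F6 P X (fun a b _ => n1 (a * b)) τ11) +
        S6 (SB X) (F6 P X (fun a b _ => n1 (a * b)) τ10) +
        S6 (SB X) (F6 P X (fun a b _ => n1 (a * b)) τ01)) := by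
    rw [← S6_add, ← S6_add, ← S6_add, ← S6_mul, ← S6_add]
    refine S6_congr fun p _ q _ a ha b hb c _ e _ => ?_
    rw [mem_SB] at ha hb
    have h3 : (1 : ℝ) = d1 a * d1 b + n1 (a * b) := by
      unfold d1 n1
      by_cases a1 : a = 1
      · by_cases b1 : b = 1
        · rw [a1, b1]; simp
        · have : a * b ≠ 1 := fun h => b1 ((mul_eq_one ha.2.prm hb.2.prm).1 h).2
          rw [if_neg b1, if_neg this]; norm_num
      · have : a * b ≠ 1 := fun h => a1 ((mul_eq_one ha.2.prm hb.2.prm).1 h).1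
        rw [if_neg a1, if_neg this]; norm_num
    have h4 : G1 p q a b c e = d1 a * d1 b * G1 p q a b c e + n1 (a * b) * G1 p q a b c e := by
      rw [← add_mul, ← h3, one_mul]
    conv_lhs => rw [h4]
    simp only [hτ00, hτ11, hτ10, hτ01, F6]
    unfold G1
    ring
  have e3 : S6 (SB X) (F6 P X (fun a b _ => n1 (a * b)) τ11) =
      S6 (SB X) (F6 P X (fun a b _ => n1 (a * b)) τ00) := by
    rw [S6_sw (SB X) (F6 P X (fun a b _ => n1 (a * b)) τ11)]
    refine S6_congr fun p _ q _ a _ b _ c _ e _ => ?_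
    simp only [hτ00, hτ11, F6]
    rw [show b * a * e * c * (p * q) = a * b * c * e * (p * q) by ring, mul_comm b a]
    ring
  have e4 : S6 (SB X) (F6 P X (fun a b _ => n1 (a * b)) τ01) =
      S6 (SB X) (F6 P X (fun a b _ => n1 (a * b)) τ10) := by
    rw [S6_12 (SB X) (F6 P X (fun a b _ => n1 (a * b)) τ01)]
    refine S6_congr fun p _ q _ a _ b _ c _ e _ => ?_
    simp only [hτ10, hτ01, F6]
    rw [mul_comm q p]
    ring
  have e5 : S6 (SB X) (fun p q a b c e => iI P p * iI P q *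
        (Ph X (a * b * c * e * (p * q)) * (d1 a * d1 b * G1 p q a b c e))) = TT P X := by
    unfold S6 TT
    refine sum_congr rfl fun p hp => sum_congr rfl fun q hq => ?_
    rw [mem_SB] at hp hq
    have hpq : prim (p * q) := prim_mul hp.2.prm hq.2.prm
    rw [sum_eq_single_of_mem 1 (one_mem_SB hX)]
    · rw [sum_eq_single_of_mem 1 (one_mem_SB hX)]
      · rw [← two_free hpq X, mul_sum]
        refine sum_congr rfl fun c hc => ?_
        rw [mul_sum]
        refine sum_congr rfl fun e _ => ?_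
        unfold G1
        beta_reduce
        rw [d1_one, wt2_one, jac_one_left, jac_one_left, jac_one_left, jac_one_left,
          show 1 * 1 * c * e * (p * q) = c * e * (p * q) by ring]
        push_cast
        ring
      · intro b _ hb
        refine sum_eq_zero fun c _ => sum_eq_zero fun e _ => ?_
        beta_reduce
        rw [d1_ne hb]
        ring
    · intro a _ ha
      refine sum_eq_zero fun b _ => sum_eq_zero fun c _ => sum_eq_zero fun e _ => ?_
      beta_reduce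
      rw [d1_ne ha]
      ring
  rw [e1, e2, e3, e4, e5]
  linarith

end Pool.Agent.Y699
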