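import Pool.Agent.Y699.Jsum
import Pool.Agent.H510R2.Div

/-!
Bilinear sums of Jacobi symbols over boxes.
-/

set_option autoImplicit false

open Finset

namespace Pool.Agent.Y699

open H385 (ZI RQ im1 nrm BX)
open H385.H10 (mem_BX nrm_pos Dv mem_Dv card_Dv)
open Pool.Agent.W164.RC (two2 prim_iff_dvd unit_norm unit_cases)
open Pool.Agent.H304R2.EC.A1 (prim prim_mul prim_cancel prim_one prim_norm_odd prim_star eq_one_of_prim
  norm_def' re_mul' im_mul' eq_of_dvd prim_ne_zero exists_prim)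

/-- bilinear form -/
noncomputable def Bil (α β : ZI → ℝ) (M N : ℕ) : ℝ :=
  ∑ x ∈ SB M, ∑ y ∈ SB N, α x * β y * jac x y

/-- the bound for the sixth power of the number of divisors -/
lemma div_six : ∃ C : ℝ, 1 ≤ C ∧ ∀ (N : ℕ) (h : ZI), 1 ≤ N → h ≠ 0 → nrm h ≤ N ^ 6 →
    ((Dv h).card : ℝ) ^ 6 ≤ C * (N : ℝ) ^ (1 / 12 : ℝ) := by
  obtain ⟨C1, hC1, hdiv⟩ := Pool.Agent.H510R2.divisor_bound (1 / 864) (by norm_num)
  refine ⟨max 1 (4 ^ 6 * C1 ^ 12), le_max_left _ _, ?_⟩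
  intro N h hN hh hhN
  have hNr : (0 : ℝ) ≤ N := Nat.cast_nonneg N
  have h1 : ((Dv h).card : ℝ) ≤ 4 * ((nrm h).divisors.card : ℝ) ^ 2 := by
    exact_mod_cast card_Dv h hh
  have hpos := nrm_pos hh
  have h2 := hdiv (nrm h) hpos
  have hn0 : (0 : ℝ) ≤ (nrm h : ℝ) := Nat.cast_nonneg _
  have h3 : ((Dv h).card : ℝ) ≤ 4 * (C1 * (nrm h : ℝ) ^ (1 / 864 : ℝ)) ^ 2 := by
    refine h1.trans ?_
    gcongr
  have h4 : ((Dv h).card : ℝ) ^ 6 ≤ (4 * (C1 * (nrm h : ℝ) ^ (1 / 864 : ℝ)) ^ 2) ^ 6 := by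
    gcongr
  have h5 : (4 * (C1 * (nrm h : ℝ) ^ (1 / 864 : ℝ)) ^ 2) ^ 6 =
      4 ^ 6 * C1 ^ 12 * (nrm h : ℝ) ^ (1 / 72 : ℝ) := by
    have e : ((nrm h : ℝ) ^ (1 / 864 : ℝ)) ^ 12 = (nrm h : ℝ) ^ (1 / 72 : ℝ) := by
      rw [← Real.rpow_natCast, ← Real.rpow_mul hn0]
      norm_num
    rw [← e]
    ring
  have h6 : (nrm h : ℝ) ^ (1 / 72 : ℝ) ≤ (N : ℝ) ^ (1 / 12 : ℝ) := by
    have e : (N : ℝ) ^ (1 / 12 : ℝ) = ((N : ℝ) ^ 6) ^ (1 / 72 : ℝ) := by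
      rw [← Real.rpow_natCast, ← Real.rpow_mul hNr]
      norm_num
    rw [e]
    apply Real.rpow_le_rpow hn0 _ (by norm_num)
    exact_mod_cast hhN
  rw [h5] at h4
  refine h4.trans ?_
  have h7 : (4 : ℝ) ^ 6 * C1 ^ 12 ≤ max 1 (4 ^ 6 * C1 ^ 12) := le_max_right _ _
  have h8 : (0 : ℝ) ≤ (nrm h : ℝ) ^ (1 / 72 : ℝ) := by positivity
  calc 4 ^ 6 * C1 ^ 12 * (nrm h : ℝ) ^ (1 / 72 : ℝ) ≤ max 1 (4 ^ 6 * C1 ^ 12) * (nrm h : ℝ) ^ (1 / 72 : ℝ) := by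
        gcongr
    _ ≤ _ := by gcongr

lemma SB_sub_PB (N : ℕ) : SB N ⊆ PB N := by
  intro x hx
  rw [mem_SB] at hx
  exact mem_PB.2 ⟨hx.1, hx.2.prm⟩

/-- first case -/
lemma bil_long {α β : ZI → ℝ} (hα : ∀ x, |α x| ≤ 1) (hβ : ∀ x, |β x| ≤ 1) {M N : ℕ} (hM : 1 ≤ M)
    (hMN : M ^ 6 ≤ N) : (Bil α β M N) ^ 2 ≤ 53217 * (M * N ^ 2) := by
  have hN : 1 ≤ N := (Nat.one_le_pow _ _ hM).trans hMN
  have e1 : Bil α β M N = ∑ y ∈ SB N, β y * ∑ x ∈ SB M, α x * jac x y := by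
    unfold Bil
    rw [sum_comm]
    refine sum_congr rfl fun y _ => ?_
    rw [mul_sum]
    refine sum_congr rfl fun x _ => by ring
  rw [e1]
  have h1 := sum_mul_sq_le_sq_mul_sq (SB N) β (fun y => ∑ x ∈ SB M, α x * jac x y)
  refine h1.trans ?_
  have h2 : ∑ y ∈ SB N, β y ^ 2 ≤ 9 * N := by
    have : ∀ y ∈ SB N, β y ^ 2 ≤ 1 := by
      intro y _
      rw [← sq_abs]
      exact pow_le_one₀ (abs_nonneg _) (hβ y)
    refine (sum_le_sum this).trans ?_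
    rw [sum_const, nsmul_eq_mul, mul_one]
    exact card_SB_le hN
  have h3 : ∑ y ∈ SB N, (∑ x ∈ SB M, α x * jac x y) ^ 2 ≤ 5913 * (M * N) :=
    (sum_le_sum_of_subset_of_nonneg (SB_sub_PB N) (fun _ _ _ => sq_nonneg _)).trans
      (mean_sq hα hM hMN)
  have h4 : (0 : ℝ) ≤ ∑ y ∈ SB N, (∑ x ∈ SB M, α x * (jac x y : ℝ)) ^ 2 :=
    sum_nonneg fun _ _ => sq_nonneg _
  calc (∑ y ∈ SB N, β y ^ 2) * ∑ y ∈ SB N, (∑ x ∈ SB M, α x * (jac x y : ℝ)) ^ 2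
      ≤ (9 * N) * (5913 * (M * N)) := mul_le_mul h2 h3 h4 (by positivity)
    _ = 53217 * (M * N ^ 2) := by ring

lemma jac_prod_fin {x : ZI} (hx : x ≠ 0) (p : Fin 6 → ZI) : jac x (∏ i, p i) = ∏ i, jac x (p i) :=
  jac_prod hx univ p

/-- second case -/
lemma bil_short : ∃ C : ℝ, 1 ≤ C ∧ ∀ (α β : ZI → ℝ), (∀ x, |α x| ≤ 1) → (∀ x, |β x| ≤ 1) →
    ∀ M N : ℕ, 1 ≤ M → M ≤ N →
    (Bil α β M N) ^ 12 ≤ C * ((M : ℝ) ^ 11 * (N : ℝ) ^ 12 * (N : ℝ) ^ (1 / 12 : ℝ)) := by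
  obtain ⟨R, hR1, hR⟩ := div_six
  refine ⟨9 ^ 16 * 5913 * R, by nlinarith, ?_⟩
  intro α β hα hβ M N hM hMN
  have hN : 1 ≤ N := hM.trans hMN
  have hMr : (0 : ℝ) ≤ M := Nat.cast_nonneg M
  have hNr : (0 : ℝ) ≤ N := Nat.cast_nonneg N
  set A : ZI → ℝ := fun x => ∑ y ∈ SB N, β y * jac x y with hA
  have hS : |Bil α β M N| ≤ ∑ x ∈ SB M, |A x| := by
    have e1 : Bil α β M N = ∑ x ∈ SB M, α x * A x := by
      unfold Bil
      refine sum_congr rfl fun x _ => ?_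
      rw [hA, mul_sum]
      refine sum_congr rfl fun y _ => by ring
    rw [e1]
    refine (abs_sum_le_sum_abs _ _).trans (sum_le_sum fun x _ => ?_)
    rw [abs_mul]
    exact mul_le_of_le_one_left (abs_nonneg _) (hα x)
  set W : ℝ := ∑ x ∈ SB M, (A x) ^ 6 with hW
  have hW0 : 0 ≤ W := sum_nonneg fun x _ => by positivity
  have hS6 : |Bil α β M N| ^ 6 ≤ (9 * M) ^ 5 * W := by
    have h1 : |Bil α β M N| ^ 6 ≤ (∑ x ∈ SB M, |A x|) ^ 6 := pow_le_pow_left₀ (abs_nonneg _) hS 6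
    have h3 : (∑ x ∈ SB M, |A x|) ^ 6 ≤ ((SB M).card : ℝ) ^ 5 * ∑ x ∈ SB M, |A x| ^ 6 := by
      have hc := pow_sum_div_card_le_sum_pow (s := SB M) (f := fun x => |A x|) (n := 5) (fun x _ => abs_nonneg _)
      by_cases hcard : (SB M).card = 0
      · rw [Finset.card_eq_zero] at hcard
        rw [hcard]
        simp
      · have hcp : (0 : ℝ) < ((SB M).card : ℝ) ^ 5 := by positivity
        rw [div_le_iff₀ hcp] at hc
        rw [mul_comm]
        exact hc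
    have h4 : ∑ x ∈ SB M, |A x| ^ 6 = W := by
      rw [hW]
      refine sum_congr rfl fun x _ => ?_
      exact Even.pow_abs (by decide) _
    rw [h4] at h3
    refine h1.trans (h3.trans ?_)
    have h5 := card_SB_le hM
    exact mul_le_mul_of_nonneg_right (pow_le_pow_left₀ (Nat.cast_nonneg _) h5 5) hW0
  -- expansion of the sixth power
  set P := Fintype.piFinset (fun _ : Fin 6 => SB N) with hP
  set G : ZI → ℝ := fun h => ∑ x ∈ SB M, (1 : ℝ) * jac x h with hG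
  have hWexp : W = ∑ p ∈ P, (∏ i, β (p i)) * G (∏ i, p i) := by
    have h1 : ∀ x ∈ SB M, (A x) ^ 6 = ∑ p ∈ P, (∏ i, β (p i)) * ((1 : ℝ) * jac x (∏ i, p i)) := by
      intro x hx
      have hx0 := (mem_SB.1 hx).2.ne
      have h2 : (A x) ^ 6 = ∏ _i : Fin 6, ∑ y ∈ SB N, β y * jac x y := by
        rw [prod_const, card_univ, Fintype.card_fin]
      rw [h2, prod_univ_sum]
      refine sum_congr rfl fun p _ => ?_
      rw [prod_mul_distrib, jac_prod_fin hx0]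
      push_cast
      ring
    rw [hW, sum_congr rfl h1, sum_comm]
    refine sum_congr rfl fun p _ => ?_
    rw [hG, mul_sum]
  have hPmem : ∀ p ∈ P, (∏ i, p i) ∈ PB (N ^ 6) := by
    intro p hp
    rw [hP, Fintype.mem_piFinset] at hp
    rw [mem_PB]
    constructor
    · have : nrm (∏ i, p i) = ∏ i, nrm (p i) := by
        have h1 : ∀ s : Finset (Fin 6), nrm (∏ i ∈ s, p i) = ∏ i ∈ s, nrm (p i) := by
          intro s
          induction s using Finset.induction_on with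
          | empty => simp; decide
          | insert a s ha ih => rw [prod_insert ha, prod_insert ha, nrm_mul, ih]
        exact h1 univ
      rw [this]
      refine (prod_le_prod' fun i _ => (mem_SB.1 (hp i)).1).trans ?_
      rw [prod_const, card_univ, Fintype.card_fin]
    · exact prod_induction _ prim (fun a b => prim_mul) prim_one fun i _ => (mem_SB.1 (hp i)).2.prm
  have hcardP : (P.card : ℝ) ≤ (9 * N) ^ 6 := by
    rw [hP, Fintype.card_piFinset, prod_const, card_univ, Fintype.card_fin]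
    push_cast
    have h5 := card_SB_le hN
    exact pow_le_pow_left₀ (Nat.cast_nonneg _) h5 6
  have hN6 : 1 ≤ N ^ 6 := Nat.one_le_pow _ _ hN
  have hmean := mean_sq (γ := fun _ => (1 : ℝ)) (fun _ => by norm_num) hM (Nat.pow_le_pow_left hMN 6)
  have hG2 : ∑ p ∈ P, G (∏ i, p i) ^ 2 ≤ R * (N : ℝ) ^ (1 / 12 : ℝ) * (5913 * (M * (N : ℝ) ^ 6)) := by
    classical
    rw [← sum_fiberwise_of_maps_to hPmem]
    have h1 : ∀ h ∈ PB (N ^ 6), ∑ p ∈ P.filter (fun p => ∏ i, p i = h), G (∏ i, p i) ^ 2 ≤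
        R * (N : ℝ) ^ (1 / 12 : ℝ) * G h ^ 2 := by
      intro h hh
      have hh0 : h ≠ 0 := prim_ne_zero (mem_PB.1 hh).2
      have h2 : ∑ p ∈ P.filter (fun p => ∏ i, p i = h), G (∏ i, p i) ^ 2 =
          ((P.filter (fun p => ∏ i, p i = h)).card : ℝ) * G h ^ 2 := by
        rw [← nsmul_eq_mul, ← sum_const]
        refine sum_congr rfl fun p hp => ?_
        rw [(mem_filter.1 hp).2]
      rw [h2]
      have h3 : (P.filter (fun p => ∏ i, p i = h)).card ≤ (Dv h).card ^ 6 := by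
        have h4 : P.filter (fun p => ∏ i, p i = h) ⊆ Fintype.piFinset (fun _ : Fin 6 => Dv h) := by
          intro p hp
          rw [Fintype.mem_piFinset]
          intro i
          rw [mem_Dv hh0, ← (mem_filter.1 hp).2]
          exact dvd_prod_of_mem _ (mem_univ i)
        refine (card_le_card h4).trans ?_
        rw [Fintype.card_piFinset, prod_const, card_univ, Fintype.card_fin]
      have h5 : ((P.filter (fun p => ∏ i, p i = h)).card : ℝ) ≤ R * (N : ℝ) ^ (1 / 12 : ℝ) := by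
        refine le_trans ?_ (hR N h hN hh0 (mem_PB.1 hh).1)
        exact_mod_cast h3
      exact mul_le_mul_of_nonneg_right h5 (sq_nonneg _)
    refine (sum_le_sum h1).trans ?_
    rw [← mul_sum]
    have h6 : ∑ h ∈ PB (N ^ 6), G h ^ 2 ≤ 5913 * (M * (N : ℝ) ^ 6) := by
      refine hmean.trans (le_of_eq ?_)
      push_cast
      ring
    exact mul_le_mul_of_nonneg_left h6 (by positivity)
  have hW2 : W ^ 2 ≤ (9 * N) ^ 6 * (R * (N : ℝ) ^ (1 / 12 : ℝ) * (5913 * (M * (N : ℝ) ^ 6))) := by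
    have h1 : W ≤ ∑ p ∈ P, |G (∏ i, p i)| := by
      rw [hWexp]
      refine sum_le_sum fun p _ => ?_
      refine (le_abs_self _).trans ?_
      rw [abs_mul]
      refine mul_le_of_le_one_left (abs_nonneg _) ?_
      rw [abs_prod]
      exact prod_le_one (fun i _ => abs_nonneg _) (fun i _ => hβ _)
    have h2 : W ^ 2 ≤ (∑ p ∈ P, |G (∏ i, p i)|) ^ 2 := pow_le_pow_left₀ hW0 h1 2
    refine h2.trans ?_
    refine (sq_sum_le_card_mul_sum_sq).trans ?_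
    have h3 : ∑ p ∈ P, |G (∏ i, p i)| ^ 2 = ∑ p ∈ P, G (∏ i, p i) ^ 2 :=
      sum_congr rfl fun p _ => sq_abs _
    rw [h3]
    have h4 : (0 : ℝ) ≤ ∑ p ∈ P, G (∏ i, p i) ^ 2 := sum_nonneg fun _ _ => sq_nonneg _
    exact mul_le_mul hcardP hG2 h4 (by positivity)
  have h12 : (Bil α β M N) ^ 12 = (|Bil α β M N| ^ 6) ^ 2 := by
    rw [← pow_mul]
    exact (Even.pow_abs (by decide) _).symm
  rw [h12]
  clear_value W G P A
  clear hWexp hG2 hPmem h12 hcardP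
  generalize (N : ℝ) ^ (1 / 12 : ℝ) = r at hW2 ⊢
  have s1 : (|Bil α β M N| ^ 6) ^ 2 ≤ ((9 * M) ^ 5 * W) ^ 2 :=
    pow_le_pow_left₀ (by positivity) hS6 2
  have s2 : (9 * (M : ℝ)) ^ 10 * W ^ 2 ≤
      (9 * M) ^ 10 * ((9 * N) ^ 6 * (R * r * (5913 * (M * (N : ℝ) ^ 6)))) :=
    mul_le_mul_of_nonneg_left hW2 (by positivity)
  calc (|Bil α β M N| ^ 6) ^ 2 ≤ ((9 * M) ^ 5 * W) ^ 2 := s1
    _ = (9 * M) ^ 10 * W ^ 2 := by ring
    _ ≤ (9 * M) ^ 10 * ((9 * N) ^ 6 * (R * r * (5913 * (M * (N : ℝ) ^ 6)))) := s2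
    _ = 9 ^ 16 * 5913 * R * ((M : ℝ) ^ 11 * (N : ℝ) ^ 12 * r) := by ring

/-- **bilinear estimate** -/
theorem box1 : ∃ C : ℝ, 1 ≤ C ∧ ∀ (α β : ZI → ℝ), (∀ x, |α x| ≤ 1) → (∀ x, |β x| ≤ 1) →
    ∀ M N : ℕ, 1 ≤ M → M ≤ N → |Bil α β M N| ≤ C * (M * N * (M : ℝ) ^ (-(1 / 24) : ℝ)) := by
  obtain ⟨C, hC1, hC⟩ := bil_short
  refine ⟨C + 53217, by linarith, ?_⟩
  intro α β hα hβ M N hM hMN
  have hN : 1 ≤ N := hM.trans hMN
  have hMr : (1 : ℝ) ≤ M := by exact_mod_cast hM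
  have hNr : (1 : ℝ) ≤ N := by exact_mod_cast hN
  have hM0 : (0 : ℝ) < M := by linarith
  have hN0 : (0 : ℝ) < N := by linarith
  set K : ℝ := C + 53217 with hK
  have hK1 : 1 ≤ K := by rw [hK]; linarith
  set m : ℝ := (M : ℝ) ^ (-(1 / 24) : ℝ) with hm
  have hm0 : 0 < m := Real.rpow_pos_of_pos hM0 _
  have hm12 : m ^ 12 = (M : ℝ) ^ (-(1 / 2) : ℝ) := by
    rw [hm, ← Real.rpow_natCast, ← Real.rpow_mul hM0.le]
    norm_num
  by_cases h6 : M ^ 6 ≤ N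
  · have h1 := bil_long hα hβ hM h6
    have hm2 : (M : ℝ) ^ (-(1 / 2) : ℝ) ≤ m := by
      rw [hm]
      exact Real.rpow_le_rpow_of_exponent_le hMr (by norm_num)
    have h2 : |Bil α β M N| ≤ K * (M * N * (M : ℝ) ^ (-(1 / 2) : ℝ)) := by
      apply abs_le_of_sq_le_sq _ (by positivity)
      have e2 : ((M : ℝ) ^ (-(1 / 2) : ℝ)) ^ 2 * M = 1 := by
        rw [← Real.rpow_natCast, ← Real.rpow_mul hM0.le]
        have : (-(1 / 2) : ℝ) * ((2 : ℕ) : ℝ) = -1 := by norm_num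
        rw [this, Real.rpow_neg_one]
        field_simp
      have e3 : (K * (M * N * (M : ℝ) ^ (-(1 / 2) : ℝ))) ^ 2 = K ^ 2 * (M * N ^ 2) := by
        have : (K * (M * N * (M : ℝ) ^ (-(1 / 2) : ℝ))) ^ 2 =
          K ^ 2 * (M * N ^ 2) * (((M : ℝ) ^ (-(1 / 2) : ℝ)) ^ 2 * M) := by ring
        rw [this, e2, mul_one]
      rw [e3]
      refine h1.trans ?_
      have h3 : (53217 : ℝ) ≤ K ^ 2 := by
        have : 53217 ≤ K := by rw [hK]; linarith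
        nlinarith
      gcongr
    refine h2.trans ?_
    gcongr
  · push Not at h6
    have h1 := hC α β hα hβ M N hM hMN
    have h2 : (N : ℝ) ^ (1 / 12 : ℝ) ≤ (M : ℝ) ^ (1 / 2 : ℝ) := by
      have e : (M : ℝ) ^ (1 / 2 : ℝ) = ((M : ℝ) ^ 6) ^ (1 / 12 : ℝ) := by
        rw [← Real.rpow_natCast, ← Real.rpow_mul hM0.le]
        norm_num
      rw [e]
      apply Real.rpow_le_rpow hN0.le _ (by norm_num)
      exact_mod_cast h6.le
    have h3 : (M : ℝ) ^ 11 * (N : ℝ) ^ 12 * (M : ℝ) ^ (1 / 2 : ℝ) = (M * N * m) ^ 12 := by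
      rw [mul_pow, mul_pow, hm12]
      have : (M : ℝ) ^ (1 / 2 : ℝ) = M * (M : ℝ) ^ (-(1 / 2) : ℝ) := by
        have e := Real.rpow_add hM0 1 (-(1 / 2))
        rw [Real.rpow_one] at e
        rw [← e]
        norm_num
      rw [this]
      ring
    have h4 : |Bil α β M N| ^ 12 ≤ (K * (M * N * m)) ^ 12 := by
      rw [Even.pow_abs (by decide)]
      refine h1.trans ?_
      rw [mul_pow K, ← h3]
      have h5 : C ≤ K ^ 12 := by
        have : C ≤ K := by rw [hK]; linarith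
        exact this.trans (le_self_pow₀ hK1 (by norm_num))
      gcongr
    exact (pow_le_pow_iff_left₀ (abs_nonneg _) (by positivity) (by norm_num)).1 h4

theorem bil_symm (α β : ZI → ℝ) (M N : ℕ) : Bil α β M N = Bil β α N M := by
  unfold Bil
  rw [sum_comm]
  refine sum_congr rfl fun y hy => sum_congr rfl fun x hx => ?_
  rw [jac_rec (mem_SB.1 hx).2 (mem_SB.1 hy).2]
  ring

/-- **bilinear estimate over boxes** -/
theorem box : ∃ C : ℝ, 1 ≤ C ∧ ∀ (α β : ZI → ℝ), (∀ x, |α x| ≤ 1) → (∀ x, |β x| ≤ 1) →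
    ∀ M N : ℕ, 1 ≤ M → 1 ≤ N →
      |Bil α β M N| ≤ C * (M * N * ((M : ℝ) ^ (-(1 / 24) : ℝ) + (N : ℝ) ^ (-(1 / 24) : ℝ))) := by
  obtain ⟨C, hC1, hC⟩ := box1
  refine ⟨C, hC1, ?_⟩
  intro α β hα hβ M N hM hN
  have hMr : (1 : ℝ) ≤ M := by exact_mod_cast hM
  have hNr : (1 : ℝ) ≤ N := by exact_mod_cast hN
  rcases le_total M N with h | h
  · refine (hC α β hα hβ M N hM h).trans ?_
    have : (0 : ℝ) ≤ (N : ℝ) ^ (-(1 / 24) : ℝ) := by positivity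
    gcongr
    linarith
  · rw [bil_symm]
    refine (hC β α hβ hα N M hN h).trans ?_
    have : (0 : ℝ) ≤ (M : ℝ) ^ (-(1 / 24) : ℝ) := by positivity
    rw [mul_comm (N : ℝ) M]
    gcongr
    linarith

end Pool.Agent.Y699
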