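import Pool.Agent.Y699.Sqf

/-!
Chebyshev and Mertens bounds for primary primes.
-/

set_option autoImplicit false

open Finset

namespace Pool.Agent.Y699

open H385 (ZI RQ im1 nrm BX)
open H385.H10 (mem_BX nrm_pos Dv mem_Dv card_Dv)
open Pool.Agent.W164.RC (two2 prim_iff_dvd unit_norm unit_cases)
open Pool.Agent.H304R2.EC.A1 (prim prim_mul prim_cancel prim_one prim_norm_odd prim_star eq_one_of_prim
  norm_def' re_mul' im_mul' eq_of_dvd prim_ne_zero exists_prim)

open Classical in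
/-- primary primes of norm at most `V` -/
noncomputable def QB (V : ℕ) : Finset ZI := (ZB V).filter PP

open Classical in
lemma mem_QB {V : ℕ} {x : ZI} : x ∈ QB V ↔ nrm x ≤ V ∧ PP x := by
  unfold QB; rw [mem_filter, mem_ZB]

lemma PP.ps {π : ZI} (h : PP π) : PS π := ⟨h.prm, h.pr.irreducible.squarefree⟩

lemma nrm_prod {κ : Type*} (s : Finset κ) (f : κ → ZI) : nrm (∏ i ∈ s, f i) = ∏ i ∈ s, nrm (f i) := by
  classical
  induction s using Finset.induction_on with
  | empty => rw [prod_empty, prod_empty]; decide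
  | insert a s ha ih => rw [prod_insert ha, prod_insert ha, nrm_mul, ih]

lemma nrm_one : nrm 1 = 1 := by decide

lemma nrm_natCast (p : ℕ) : nrm (p : ZI) = p ^ 2 := by
  have h := nrm_eq' (p : ZI)
  have h1 : ((p : ℕ) : ZI).re = p := by simp
  have h2 : ((p : ℕ) : ZI).im = 0 := by simp
  rw [h1, h2] at h
  have : (nrm (p : ZI) : ℤ) = ((p ^ 2 : ℕ) : ℤ) := by rw [h]; push_cast; ring
  exact_mod_cast this

lemma PP.nrm_ne_one {π : ZI} (h : PP π) : nrm π ≠ 1 := by
  intro h1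
  apply h.pr.not_isUnit
  rw [Zsqrtd.isUnit_iff_norm_isUnit]
  have h2 : (π.norm.natAbs) = 1 := h1
  exact Int.isUnit_iff_natAbs_eq.2 h2

/-- the rational prime below -/
lemma PP.rat {π : ZI} (h : PP π) : (nrm π).minFac.Prime ∧ π ∣ ((nrm π).minFac : ZI) ∧
    (nrm π).minFac ≤ nrm π ∧ nrm π ≤ (nrm π).minFac ^ 2 := by
  have h1 : ∃ p : ℕ, p.Prime ∧ p ∣ nrm π ∧ π ∣ (p : ZI) := by
    have h2 : π ∣ (((nrm π).primeFactorsList.prod : ℕ) : ZI) := by
      rw [Nat.prod_primeFactorsList (nrm_ne h.ne)]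
      exact dvd_nrm π
    rw [Nat.cast_list_prod] at h2
    obtain ⟨a, ha, hd⟩ := (h.pr.dvd_prod_iff).1 h2
    obtain ⟨p, hp, rfl⟩ := List.mem_map.1 ha
    exact ⟨p, Nat.prime_of_mem_primeFactorsList hp, Nat.dvd_of_mem_primeFactorsList hp, hd⟩
  obtain ⟨p, hp, hpn, hπp⟩ := h1
  have h2 : nrm π ∣ p ^ 2 := by
    obtain ⟨c, hc⟩ := hπp
    rw [← nrm_natCast, hc, nrm_mul]
    exact dvd_mul_right _ _
  obtain ⟨i, hi, hi2⟩ := (Nat.dvd_prime_pow hp).1 h2
  have hi0 : i ≠ 0 := by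
    rintro rfl
    exact h.nrm_ne_one (by rw [hi2, pow_zero])
  have h3 : (nrm π).minFac = p := by
    rw [hi2]
    exact hp.pow_minFac hi0
  rw [h3]
  exact ⟨hp, hπp, Nat.le_of_dvd (nrm_pos' h.ne) hpn, Nat.le_of_dvd (by positivity [hp.pos]) h2⟩

/-- at most two primary primes above a rational prime -/
lemma card_PD_nat {p : ℕ} (hp : p.Prime) : (PD (p : ZI)).card ≤ 2 := by
  have hp0 : (p : ZI) ≠ 0 := by exact_mod_cast hp.ne_zero
  have h1 : (∏ π ∈ PD (p : ZI), π) ∣ (p : ZI) := by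
    refine prod_dvd_of_coprime ?_ ?_
    · intro π hπ ρ hρ hne
      exact ((mem_PD hp0).1 hπ).1.cop ((mem_PD hp0).1 hρ).1 hne
    · intro π hπ
      exact ((mem_PD hp0).1 hπ).2
  have h2 : ∏ π ∈ PD (p : ZI), nrm π ≤ p ^ 2 := by
    rw [← nrm_prod, ← nrm_natCast]
    exact norm_le_of_dvd hp0 h1
  have h3 : ∀ π ∈ PD (p : ZI), p ≤ nrm π := by
    intro π hπ
    obtain ⟨h4, h5⟩ := (mem_PD hp0).1 hπ
    have h6 : nrm π ∣ p ^ 2 := by
      obtain ⟨c, hc⟩ := h5
      rw [← nrm_natCast, hc, nrm_mul]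
      exact dvd_mul_right _ _
    obtain ⟨i, hi, hi2⟩ := (Nat.dvd_prime_pow hp).1 h6
    have hi0 : i ≠ 0 := by
      rintro rfl
      exact h4.nrm_ne_one (by rw [hi2, pow_zero])
    rw [hi2]
    exact Nat.le_self_pow hi0 p
  have h4 : p ^ (PD (p : ZI)).card ≤ p ^ 2 := by
    rw [← prod_const]
    exact (prod_le_prod' h3).trans h2
  exact (Nat.pow_le_pow_iff_right hp.one_lt).1 h4

/-- Chebyshev's bound -/
theorem theta_le (V : ℕ) : ∑ π ∈ QB V, Real.log (nrm π) ≤ 6 * V := by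
  classical
  have hmaps : ∀ π ∈ QB V, (nrm π).minFac ∈ Nat.primesLE V := by
    intro π hπ
    rw [mem_QB] at hπ
    obtain ⟨h1, -, h3, -⟩ := hπ.2.rat
    rw [Nat.mem_primesLE]
    exact ⟨h3.trans hπ.1, h1⟩
  rw [← sum_fiberwise_of_maps_to hmaps]
  have h1 : ∀ p ∈ Nat.primesLE V, ∑ π ∈ (QB V).filter (fun π => (nrm π).minFac = p), Real.log (nrm π) ≤
      4 * Real.log p := by
    intro p hp
    rw [Nat.mem_primesLE] at hp
    have hp0 : (p : ZI) ≠ 0 := by exact_mod_cast hp.2.ne_zero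
    have h2 : ∀ π ∈ (QB V).filter (fun π => (nrm π).minFac = p), Real.log (nrm π) ≤ 2 * Real.log p := by
      intro π hπ
      rw [mem_filter, mem_QB] at hπ
      obtain ⟨-, -, -, h4⟩ := hπ.1.2.rat
      rw [hπ.2] at h4
      have h5 : (nrm π : ℝ) ≤ (p : ℝ) ^ 2 := by exact_mod_cast h4
      have h6 : (0 : ℝ) < nrm π := by exact_mod_cast nrm_pos' hπ.1.2.ne
      have h7 := Real.log_le_log h6 h5
      rw [Real.log_pow] at h7
      exact_mod_cast h7
    refine (sum_le_sum h2).trans ?_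
    rw [sum_const, nsmul_eq_mul]
    have h3 : ((QB V).filter (fun π => (nrm π).minFac = p)).card ≤ 2 := by
      refine le_trans (card_le_card ?_) (card_PD_nat hp.2)
      intro π hπ
      rw [mem_filter, mem_QB] at hπ
      obtain ⟨-, h4, -, -⟩ := hπ.1.2.rat
      rw [hπ.2] at h4
      exact (mem_PD hp0).2 ⟨hπ.1.2, h4⟩
    have h4 : (((QB V).filter (fun π => (nrm π).minFac = p)).card : ℝ) ≤ 2 := by exact_mod_cast h3
    have h5 : 0 ≤ Real.log p := Real.log_natCast_nonneg p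
    nlinarith
  refine (sum_le_sum h1).trans ?_
  rw [← mul_sum, ← Chebyshev.theta_eq_sum_primesLE_log]
  have h2 := Chebyshev.theta_le_log4_mul_x (x := V) (Nat.cast_nonneg V)
  have h3 : Real.log 4 ≤ 3 / 2 := by
    have : Real.log 4 = 2 * Real.log 2 := by
      rw [show (4 : ℝ) = 2 ^ 2 by norm_num, Real.log_pow]
      push_cast; ring
    rw [this]
    linarith [Real.log_two_lt_d9]
  have h4 : (0 : ℝ) ≤ V := Nat.cast_nonneg V
  nlinarith

/-- Mertens, upper bound -/
theorem mert_up (V : ℕ) : ∑ π ∈ QB V, Real.log (nrm π) / nrm π ≤ 12 * lg V := by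
  have := dyadic (S := QB V) (T := V) (w := fun π => Real.log (nrm π)) (B := 6) ?_
    (fun π _ => Real.log_natCast_nonneg _) ?_
  · linarith
  · intro x hx
    rw [mem_QB] at hx
    exact ⟨hx.2.ne, hx.1⟩
  · intro k
    have h1 : (QB V).filter (fun x => nrm x ≤ 2 ^ (k + 1)) ⊆ QB (2 ^ (k + 1)) := by
      intro x hx
      rw [mem_filter, mem_QB] at hx
      exact mem_QB.2 ⟨hx.2, hx.1.2⟩
    refine (sum_le_sum_of_subset_of_nonneg h1 (fun π _ _ => Real.log_natCast_nonneg _)).trans ?_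
    refine (theta_le _).trans (le_of_eq ?_)
    push_cast
    ring

open Classical in
/-- multiples -/
lemma card_mult {π : ZI} (hπ : prim π) (V : ℕ) :
    (((SB V).filter (fun n => π ∣ n)).card : ℝ) ≤ 9 * ((V : ℝ) / nrm π) := by
  classical
  have hπ0 : π ≠ 0 := prim_ne_zero hπ
  have hn0 : (0 : ℝ) < nrm π := by exact_mod_cast nrm_pos' hπ0
  by_cases hV : V / nrm π = 0
  · have : (SB V).filter (fun n => π ∣ n) = ∅ := by
      rw [filter_eq_empty_iff]
      intro n hn hd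
      rw [mem_SB] at hn
      have h1 := norm_le_of_dvd hn.2.ne hd
      have h2 : nrm π ≤ V := le_trans h1 hn.1
      have h3 : 1 ≤ V / nrm π := (Nat.le_div_iff_mul_le (nrm_pos' hπ0)).2 (by omega)
      omega
    rw [this]
    simp only [card_empty, Nat.cast_zero]
    positivity
  · have h1 : (SB V).filter (fun n => π ∣ n) ⊆ (PB (V / nrm π)).image (fun k => π * k) := by
      intro n hn
      rw [mem_filter, mem_SB] at hn
      obtain ⟨hn1, k, rfl⟩ := hn
      rw [mem_image]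
      refine ⟨k, ?_, rfl⟩
      rw [mem_PB]
      refine ⟨?_, prim_cancel hπ hn1.2.prm⟩
      rw [Nat.le_div_iff_mul_le (nrm_pos' hπ0)]
      have := hn1.1
      rw [nrm_mul] at this
      linarith
    have h2 : (((SB V).filter (fun n => π ∣ n)).card : ℝ) ≤ ((PB (V / nrm π)).card : ℝ) := by
      exact_mod_cast (card_le_card h1).trans card_image_le
    refine h2.trans ((card_PB_le (Nat.one_le_iff_ne_zero.2 hV)).trans ?_)
    have h3 : ((V / nrm π : ℕ) : ℝ) ≤ (V : ℝ) / nrm π := Nat.cast_div_le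
    linarith

/-- the logarithm of the norm of a squarefree element -/
lemma log_nrm {n : ZI} (h : PS n) : Real.log (nrm n) = ∑ π ∈ PD n, Real.log (nrm π) := by
  have h1 : (nrm n : ℝ) = ∏ π ∈ PD n, (nrm π : ℝ) := by
    have h2 : nrm n = ∏ π ∈ PD n, nrm π := by
      conv_lhs => rw [← h.prod]
      exact nrm_prod _ _
    rw [h2]
    push_cast
    rfl
  rw [h1, Real.log_prod]
  intro π hπ
  have := nrm_ne ((mem_PD h.ne).1 hπ).1.ne
  exact_mod_cast this

/-- Mertens, lower bound -/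
theorem mert_lo : ∃ V0 : ℕ, ∀ V : ℕ, V0 ≤ V →
    Real.log V / 720 ≤ ∑ π ∈ QB V, Real.log (nrm π) / nrm π := by
  classical
  obtain ⟨V1, hV1⟩ := sqf_count
  refine ⟨max V1 7000000, ?_⟩
  intro V hV
  have hVa : V1 ≤ V := (le_max_left _ _).trans hV
  have hVb : 7000000 ≤ V := (le_max_right _ _).trans hV
  have Vr : (7000000 : ℝ) ≤ V := by exact_mod_cast hVb
  have V0 : (0 : ℝ) < V := by linarith
  have h1 : (V : ℝ) / 35 ≤ ((SB V).card : ℝ) := by
    refine (hV1 V hVa 1 (Or.inl rfl)).trans ?_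
    exact_mod_cast card_le_card (filter_subset _ _)
  set s := Nat.sqrt V with hs
  have hs1 : 1 ≤ s := by rw [hs, Nat.le_sqrt]; omega
  have hsV : (s : ℝ) ≤ Real.sqrt V := Real.nat_sqrt_le_real_sqrt
  have h2 : ∑ n ∈ SB V, Real.log (nrm n) ≤ 9 * V * ∑ π ∈ QB V, Real.log (nrm π) / nrm π := by
    have e1 : ∑ n ∈ SB V, Real.log (nrm n) =
        ∑ π ∈ QB V, Real.log (nrm π) * (((SB V).filter (fun n => π ∣ n)).card : ℝ) := by
      have e2 : ∀ n ∈ SB V, Real.log (nrm n) = ∑ π ∈ QB V, if π ∣ n then Real.log (nrm π) else 0 := by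
        intro n hn
        rw [mem_SB] at hn
        rw [log_nrm hn.2, ← sum_filter]
        refine sum_congr ?_ fun _ _ => rfl
        ext π
        rw [mem_PD hn.2.ne, mem_filter, mem_QB]
        constructor
        · rintro ⟨a1, a2⟩
          exact ⟨⟨(norm_le_of_dvd hn.2.ne a2).trans hn.1, a1⟩, a2⟩
        · rintro ⟨⟨-, a1⟩, a2⟩
          exact ⟨a1, a2⟩
      rw [sum_congr rfl e2, sum_comm]
      refine sum_congr rfl fun π _ => ?_
      rw [← sum_filter, sum_const, nsmul_eq_mul]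
      ring
    rw [e1, mul_sum]
    refine sum_le_sum fun π hπ => ?_
    rw [mem_QB] at hπ
    have := card_mult hπ.2.prm V
    have h3 : 0 ≤ Real.log (nrm π) := Real.log_natCast_nonneg _
    calc Real.log (nrm π) * (((SB V).filter (fun n => π ∣ n)).card : ℝ)
        ≤ Real.log (nrm π) * (9 * ((V : ℝ) / nrm π)) := mul_le_mul_of_nonneg_left this h3
      _ = 9 * V * (Real.log (nrm π) / nrm π) := by ring
  have h3 : (1 / 2) * Real.log V * (((SB V).card : ℝ) - (SB s).card) ≤ ∑ n ∈ SB V, Real.log (nrm n) := by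
    have h4 : SB s ⊆ SB V := by
      intro n hn
      rw [mem_SB] at hn ⊢
      exact ⟨hn.1.trans (Nat.sqrt_le_self V), hn.2⟩
    have h5 : (((SB V) \ (SB s)).card : ℝ) = ((SB V).card : ℝ) - (SB s).card := by
      rw [card_sdiff_of_subset h4, Nat.cast_sub (card_le_card h4)]
    rw [← h5]
    have h6 : ∀ n ∈ (SB V) \ (SB s), (1 / 2) * Real.log V ≤ Real.log (nrm n) := by
      intro n hn
      rw [mem_sdiff, mem_SB, mem_SB] at hn
      have h7 : s < nrm n := by
        by_contra h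
        exact hn.2 ⟨by omega, hn.1.2⟩
      have h8 : V < nrm n * nrm n := by
        rw [hs, Nat.sqrt_lt] at h7
        exact h7
      have h9 : Real.log V ≤ Real.log ((nrm n : ℝ) * nrm n) := by
        apply Real.log_le_log V0
        exact_mod_cast h8.le
      have h10 : (nrm n : ℝ) ≠ 0 := by exact_mod_cast nrm_ne hn.1.2.ne
      rw [Real.log_mul h10 h10] at h9
      linarith
    calc (1 / 2) * Real.log V * (((SB V) \ (SB s)).card : ℝ) = ∑ n ∈ (SB V) \ (SB s), (1 / 2) * Real.log V := by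
          rw [sum_const, nsmul_eq_mul]; ring
      _ ≤ ∑ n ∈ (SB V) \ (SB s), Real.log (nrm n) := sum_le_sum h6
      _ ≤ ∑ n ∈ SB V, Real.log (nrm n) :=
          sum_le_sum_of_subset_of_nonneg sdiff_subset (fun _ _ _ => Real.log_natCast_nonneg _)
  have h4 : ((SB s).card : ℝ) ≤ 9 * Real.sqrt V := (card_SB_le hs1).trans (by linarith)
  have h5 : Real.sqrt V * 2600 ≤ V := by
    have h6 : Real.sqrt V * Real.sqrt V = V := Real.mul_self_sqrt V0.le
    have h7 : (2600 : ℝ) ≤ Real.sqrt V := by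
      apply Real.le_sqrt_of_sq_le
      linarith
    nlinarith [Real.sqrt_nonneg (V : ℝ)]
  have h6 : (V : ℝ) / 40 ≤ ((SB V).card : ℝ) - (SB s).card := by nlinarith
  have hlog : 0 ≤ Real.log V := Real.log_natCast_nonneg _
  have h7 : (1 / 2) * Real.log V * ((V : ℝ) / 40) ≤ (1 / 2) * Real.log V * (((SB V).card : ℝ) - (SB s).card) :=
    mul_le_mul_of_nonneg_left h6 (by positivity)
  have h8 : (Real.log V / 720) * (9 * V) ≤ (∑ π ∈ QB V, Real.log (nrm π) / nrm π) * (9 * V) := by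
    nlinarith
  exact le_of_mul_le_mul_right h8 (by positivity)

end Pool.Agent.Y699
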