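import Pool.Agent.Y699.Lat
import Pool.Agent.Y699.Pd
import Pool.Agent.H385R5.HE10B

/-!
Character sums over discs of Gaussian integers.
-/

set_option autoImplicit false

open Finset

namespace Pool.Agent.Y699

open H385 (ZI RQ im1 nrm BX)
open H385.H10 (mem_BX nrm_pos)
open Pool.Agent.W164.RC (two2 prim_iff_dvd unit_norm unit_cases)
open Pool.Agent.H304R2.EC.A1 (prim prim_mul prim_cancel prim_one prim_norm_odd prim_star eq_one_of_prim
  norm_def' re_mul' im_mul' eq_of_dvd prim_ne_zero exists_prim)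

lemma nrm_eq' (a : ZI) : (nrm a : ℤ) = a.re ^ 2 + a.im ^ 2 := H385.H10.nrm_eq a

lemma nrm_mul (a b : ZI) : nrm (a * b) = nrm a * nrm b := by
  unfold nrm
  rw [Zsqrtd.norm_mul, Int.natAbs_mul]

lemma nrm_zero_iff {a : ZI} : nrm a = 0 ↔ a = 0 := by
  unfold nrm
  rw [Int.natAbs_eq_zero]
  exact GaussianInt.norm_eq_zero

lemma nrm_ne {a : ZI} (h : a ≠ 0) : nrm a ≠ 0 := fun h' => h (nrm_zero_iff.1 h')

lemma dvd_nrm (q : ZI) : q ∣ ((nrm q : ℕ) : ZI) := by
  refine ⟨star q, ?_⟩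
  rw [← Zsqrtd.norm_eq_mul_conj, ← nrm_cast]
  simp

/-- sums over the residues modulo the norm -/
lemma sum_range_zmod {N : ℕ} [NeZero N] (G : ZMod N → ℝ) : ∑ i ∈ range N, G i = ∑ z, G z := by
  refine sum_bij' (fun i _ => (i : ZMod N)) (fun z _ => z.val) ?_ ?_ ?_ ?_ ?_
  · intro i _; exact mem_univ _
  · intro z _; exact mem_range.2 (ZMod.val_lt z)
  · intro i hi; exact ZMod.val_cast_of_lt (mem_range.1 hi)
  · intro z _; exact ZMod.natCast_zmod_val z
  · intro i _; rfl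

open Classical in
/-- the sum over a block vanishes -/
theorem block_zero {q : ZI} (hq : q ≠ 0) {f : ZI → ℝ} (per : ∀ a b, q ∣ a - b → f a = f b)
    {c : ZI} (hc : IsCoprime c q) (hfc : ∀ a, f (c * a) = - f a) :
    ∑ i ∈ range (nrm q), ∑ j ∈ range (nrm q), f ⟨i, j⟩ = 0 := by
  set N := nrm q with hN
  have hN0 : N ≠ 0 := nrm_ne hq
  haveI : NeZero N := ⟨hN0⟩
  have : Finite (RQ q) := H385.he1_finite hq
  letI := Fintype.ofFinite (RQ q)
  set mk : ZI →+* RQ q := Ideal.Quotient.mk (Ideal.span {q}) with hmk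
  have hmkN : mk ((N : ℕ) : ZI) = 0 := by
    rw [hmk, Ideal.Quotient.eq_zero_iff_mem, Ideal.mem_span_singleton]
    exact dvd_nrm q
  set f1 : ℤ →+ RQ q := (mk : ZI →+ RQ q).comp (Int.castAddHom ZI) with hf1
  have h1 : f1 (N : ℤ) = 0 := by
    show mk (((N : ℕ) : ℤ) : ZI) = 0
    rw [Int.cast_natCast]
    exact hmkN
  set f2 : ℤ →+ RQ q := (AddMonoidHom.mulRight (mk im1)).comp f1 with hf2
  have h2 : f2 (N : ℤ) = 0 := by
    show f1 (N : ℤ) * mk im1 = 0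
    rw [h1, zero_mul]
  set φ : ZMod N × ZMod N →+ RQ q := AddMonoidHom.coprod (ZMod.lift N ⟨f1, h1⟩) (ZMod.lift N ⟨f2, h2⟩)
    with hφ
  have hφv : ∀ i j : ℤ, φ ((i : ZMod N), (j : ZMod N)) = mk ⟨i, j⟩ := by
    intro i j
    rw [hφ, AddMonoidHom.coprod_apply, ZMod.lift_coe, ZMod.lift_coe]
    show mk (i : ZI) + mk (j : ZI) * mk im1 = mk ⟨i, j⟩
    rw [← map_mul, ← map_add]
    congr 1
    ext
    · simp [H385.im1]
    · simp [H385.im1]
  have hsurj : ∀ x : RQ q, x ∈ Set.range φ := by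
    intro x
    obtain ⟨a, rfl⟩ := Ideal.Quotient.mk_surjective x
    exact ⟨((a.re : ZMod N), (a.im : ZMod N)), hφv a.re a.im⟩
  set fb : RQ q → ℝ := fun x => f (Function.surjInv (Ideal.Quotient.mk_surjective (I := Ideal.span {q})) x) with hfb
  have hfbv : ∀ a, fb (mk a) = f a := by
    intro a
    apply per
    have h3 := Function.surjInv_eq (Ideal.Quotient.mk_surjective (I := Ideal.span {q})) (mk a)
    rw [hmk, Ideal.Quotient.eq, Ideal.mem_span_singleton] at h3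
    exact h3
  have hsum0 : ∑ x : RQ q, fb x = 0 := by
    obtain ⟨u, hu⟩ := H385.he2_unit hc
    have h3 : ∑ x : RQ q, fb x = ∑ x : RQ q, fb (u * x) := (Equiv.sum_comp (Units.mulLeft u) fb).symm
    have h4 : ∑ x : RQ q, fb (u * x) = - ∑ x : RQ q, fb x := by
      rw [← sum_neg_distrib]
      refine sum_congr rfl fun x _ => ?_
      obtain ⟨a, rfl⟩ := Ideal.Quotient.mk_surjective x
      rw [hu, ← map_mul]
      have h5 := hfbv (c * a)
      have h6 := hfbv a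
      rw [hmk] at h5 h6
      rw [h5, h6, hfc]
    linarith
  have h3 : ∑ i ∈ range N, ∑ j ∈ range N, f ⟨i, j⟩ = ∑ p : ZMod N × ZMod N, fb (φ p) := by
    rw [Fintype.sum_prod_type, ← sum_range_zmod]
    refine sum_congr rfl fun i _ => ?_
    rw [← sum_range_zmod]
    refine sum_congr rfl fun j _ => ?_
    have := hφv (i : ℤ) (j : ℤ)
    rw [Int.cast_natCast, Int.cast_natCast] at this
    rw [this, hfbv]
  rw [h3]
  have h4 : ∑ p : ZMod N × ZMod N, fb (φ p) =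
      ∑ x : RQ q, ∑ p ∈ univ.filter (fun p => φ p = x), fb (φ p) :=
    (sum_fiberwise _ _ _).symm
  rw [h4]
  have h5 : ∀ x : RQ q, ∑ p ∈ univ.filter (fun p => φ p = x), fb (φ p) =
      ((univ.filter (fun p => φ p = 0)).card : ℝ) * fb x := by
    intro x
    have h6 : ∑ p ∈ univ.filter (fun p => φ p = x), fb (φ p) =
        ∑ p ∈ univ.filter (fun p => φ p = x), fb x :=
      sum_congr rfl fun p hp => by rw [(mem_filter.1 hp).2]
    rw [h6, sum_const, nsmul_eq_mul, AddMonoidHom.card_fiber_eq_of_mem_range φ (hsurj x) (hsurj 0)]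
  rw [sum_congr rfl (fun x _ => h5 x), ← mul_sum, hsum0, mul_zero]

/-- Gaussian integers of norm at most `V` -/
noncomputable def ZB (V : ℕ) : Finset ZI :=
  (Lat.disc V).map ⟨fun p => (⟨p.1, p.2⟩ : ZI), fun a b h => by
    have h1 := congrArg Zsqrtd.re h
    have h2 := congrArg Zsqrtd.im h
    exact Prod.ext h1 h2⟩

lemma mem_ZB {V : ℕ} {a : ZI} : a ∈ ZB V ↔ nrm a ≤ V := by
  unfold ZB
  rw [mem_map]
  constructor
  · rintro ⟨p, hp, rfl⟩
    rw [Lat.mem_disc] at hp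
    have h0 := nrm_eq' (⟨p.1, p.2⟩ : ZI)
    have h1 : (nrm (⟨p.1, p.2⟩ : ZI) : ℤ) ≤ V := by rw [h0]; exact hp
    exact_mod_cast h1
  · intro h
    refine ⟨(a.re, a.im), ?_, by ext <;> rfl⟩
    rw [Lat.mem_disc, ← nrm_eq' a]
    exact_mod_cast h

lemma sum_ZB (V : ℕ) (f : ZI → ℝ) : ∑ a ∈ ZB V, f a = ∑ p ∈ Lat.disc V, f ⟨p.1, p.2⟩ := by
  unfold ZB
  rw [sum_map]
  rfl

theorem csum {q : ZI} (hq : q ≠ 0) {f : ZI → ℝ} (per : ∀ a b, q ∣ a - b → f a = f b)
    (hb : ∀ a, |f a| ≤ 1) {c : ZI} (hc : IsCoprime c q) (hfc : ∀ a, f (c * a) = - f a) (V : ℕ) :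
    |∑ a ∈ ZB V, f a| ≤ 3 * nrm q * (2 * Real.sqrt V + 1) := by
  rw [sum_ZB]
  refine Lat.disc_bound (f := fun x y => f ⟨x, y⟩) (Nat.pos_of_ne_zero (nrm_ne hq)) ?_ ?_
    (block_zero hq per hc hfc) (fun x y => hb _) V
  · intro x y
    apply per
    have : (⟨x + (nrm q : ℕ), y⟩ : ZI) - ⟨x, y⟩ = ((nrm q : ℕ) : ZI) := by
      ext <;> simp
    rw [this]
    exact dvd_nrm q
  · intro x y
    apply per
    have : (⟨x, y + (nrm q : ℕ)⟩ : ZI) - ⟨x, y⟩ = ((nrm q : ℕ) : ZI) * im1 := by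
      ext <;> simp [H385.im1]
    rw [this]
    exact (dvd_nrm q).mul_right _

/-- the bound for the number of Gaussian integers -/
lemma card_ZB_le {V : ℕ} (hV : 1 ≤ V) : ((ZB V).card : ℝ) ≤ 9 * V := by
  have h1 := Lat.card_disc_le V
  have h2 : (ZB V).card = (Lat.disc V).card := by unfold ZB; rw [card_map]
  rw [h2]
  refine h1.trans ?_
  have h3 : Real.sqrt V ^ 2 = V := Real.sq_sqrt (Nat.cast_nonneg V)
  have h4 : (1 : ℝ) ≤ V := by exact_mod_cast hV
  have h5 : 1 ≤ Real.sqrt V := Real.one_le_sqrt.2 h4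
  nlinarith

end Pool.Agent.Y699
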