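import Pool.Agent.Y699.Reg
import Pool.Agent.H304R3.HK.Fin

/-!
The central value of a Hecke L-function as a limit of regularized sums.
-/

set_option autoImplicit false
set_option linter.unusedSectionVars false

open Filter Complex MeasureTheory Set
open scoped Topology PeriodPair
open Pool.Agent.TH936.CM

namespace Pool.Agent.Y699

open H385 (ZI RQ im1 nrm)
open Pool.Agent.H304R3.HK (tc HC LH bH TH FF Th th_psi chi_le)
open Pool.Agent.H304R3.HK.T1 (th_hasSum ft)
open Pool.Agent.W164.RC (tc_mul tc_star two2)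

lemma TH_int {κ : ℝ} {b : ℕ → ℂ} {w : ℂ} (H : Th κ b w) : IntegrableOn (TH b) (Ioi 0) := by
  have hκ : 0 < κ := by linarith [H.k1]
  have h1 : MellinConvergent (Pool.Agent.H304R3.HK.L1.sTH κ b) 1 :=
    ((Pool.Agent.H304R3.HK.L1.PP_strong κ b w H).hasMellin 1).1
  have h2 : IntegrableOn (fun t : ℝ => TH b (t * κ⁻¹)) (Ioi 0) := by
    refine h1.congr_fun (fun t ht => ?_) measurableSet_Ioi
    simp only [sub_self, cpow_zero, one_smul]
    rfl
  have h3 := (integrableOn_Ioi_comp_mul_right_iff (TH b) 0 (inv_pos.2 hκ)).1 h2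
  rwa [zero_mul] at h3

lemma lim_int {f : ℝ → ℂ} (hf : IntegrableOn f (Ioi 0)) :
    Tendsto (fun δ : ℝ => ∫ y in Ioi δ, f y) (𝓝[>] 0) (𝓝 (∫ y in Ioi 0, f y)) := by
  have h1 : ∀ᶠ δ : ℝ in 𝓝[>] 0, ∫ y in Ioi 0, (Ioi δ).indicator f y = ∫ y in Ioi δ, f y := by
    filter_upwards [self_mem_nhdsWithin] with δ (hδ : 0 < δ)
    rw [setIntegral_indicator measurableSet_Ioi]
    congr 2
    exact inter_eq_right.2 (Ioi_subset_Ioi hδ.le)
  refine Tendsto.congr' h1 ?_
  refine tendsto_integral_filter_of_dominated_convergence (fun y => ‖f y‖) ?_ ?_ hf.norm ?_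
  · refine Eventually.of_forall fun δ => ?_
    exact hf.aestronglyMeasurable.indicator measurableSet_Ioi
  · refine Eventually.of_forall fun δ => Eventually.of_forall fun y => ?_
    exact norm_indicator_le_norm_self _ _
  · rw [ae_restrict_iff' measurableSet_Ioi]
    refine Eventually.of_forall fun y hy => ?_
    have hy' : (0 : ℝ) < y := hy
    refine tendsto_const_nhds.congr' ?_
    have : ∀ᶠ δ : ℝ in 𝓝[>] 0, δ < y := by
      have h2 : ∀ᶠ δ : ℝ in 𝓝 0, δ < y := gt_mem_nhds hy'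
      exact h2.filter_mono nhdsWithin_le_nhds
    filter_upwards [this] with δ hδ
    rw [indicator_of_mem (show y ∈ Ioi δ from hδ)]

lemma exists_lat : ∃ (L : PeriodPair) (Ω : ℂ), GLat L Ω := exists_GL

theorem center {q : ZI} {χ : ZI →* ℂ} (H : HC q χ) :
    Tendsto (fun δ : ℝ => ∑' a : ZI, χ a * (starRingEnd ℂ) (fd (Real.pi * δ) (tc a))) (𝓝[>] 0)
      (𝓝 (4 * LH χ (1 / 2))) := by
  obtain ⟨L, Ω, hGL⟩ := exists_lat
  obtain ⟨w, hTh⟩ := th_psi q χ H
  have hpi := Real.pi_pos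
  have hval : LH χ (1 / 2) = Real.pi * ∫ y in Ioi (0 : ℝ), TH (bH χ) y := by
    unfold LH FF mellin
    have e1 : (1 / 2 + 1 / 2 : ℂ) = 1 := by norm_num
    rw [e1, cpow_one, Complex.Gamma_one, inv_one, mul_one]
    congr 1
    refine setIntegral_congr_fun measurableSet_Ioi fun t _ => ?_
    simp only [sub_self, cpow_zero, one_smul]
  have hlim := (lim_int (TH_int hTh)).const_mul (4 * (Real.pi : ℂ))
  have e2 : 4 * (Real.pi : ℂ) * ∫ y in Ioi (0 : ℝ), TH (bH χ) y = 4 * LH χ (1 / 2) := by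
    rw [hval]; ring
  rw [e2] at hlim
  refine hlim.congr' ?_
  filter_upwards [self_mem_nhdsWithin] with δ (hδ : 0 < δ)
  -- the single terms
  have hterm : ∀ a : ZI, a ≠ 0 → ∀ c : ℝ, IntegrableOn (ft χ · a) (Ioi c) ∧
      ∫ y in Ioi c, ft χ y a = χ a * tc a * (Real.exp (-Real.pi * ‖tc a‖ ^ 2 * c) : ℂ) /
        (Real.pi * ‖tc a‖ ^ 2) := by
    intro a ha c
    have hn : 0 < ‖tc a‖ := norm_pos_iff.2 (tc_ne ha)
    have hre : (-(Real.pi * ‖tc a‖ ^ 2) : ℂ).re < 0 := by
      have : (-(Real.pi * ‖tc a‖ ^ 2) : ℂ) = ((-(Real.pi * ‖tc a‖ ^ 2) : ℝ) : ℂ) := by push_cast; ring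
      rw [this, ofReal_re]
      have : 0 < Real.pi * ‖tc a‖ ^ 2 := by positivity
      linarith
    have e3 : (fun y : ℝ => ft χ y a) = fun y : ℝ => (χ a * tc a) *
        Complex.exp ((-(Real.pi * ‖tc a‖ ^ 2) : ℂ) * y) := by
      funext y
      unfold ft
      push_cast
      congr 2
      ring
    constructor
    · rw [e3]
      exact (integrableOn_exp_mul_complex_Ioi hre c).const_mul _
    · rw [e3, integral_const_mul, integral_exp_mul_complex_Ioi hre c]
      have hne : (Real.pi * ‖tc a‖ ^ 2 : ℂ) ≠ 0 := by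
        have : (Real.pi * ‖tc a‖ ^ 2 : ℝ) ≠ 0 := by positivity
        exact_mod_cast this
      push_cast
      field_simp
  have h0 : ∀ y, ft χ y 0 = 0 := by
    intro y
    unfold ft
    rw [tc_zero]
    simp
  have hint : ∀ a : ZI, Integrable (ft χ · a) (volume.restrict (Ioi δ)) := by
    intro a
    by_cases ha : a = 0
    · subst ha
      simp_rw [h0]
      exact integrable_zero _ _ _
    · exact (hterm a ha δ).1
  -- summability of the norms
  have hs : Summable (fun a : ZI => ∫ y in Ioi δ, ‖ft χ y a‖) := by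
    have hπδ : 0 < Real.pi * δ := by positivity
    refine Summable.of_nonneg_of_le (fun a => integral_nonneg fun y => norm_nonneg _) (fun a => ?_)
      ((summ_tc hGL.lat hπδ).norm.mul_left (1 / Real.pi))
    by_cases ha : a = 0
    · subst ha
      simp_rw [h0]
      simp only [norm_zero, integral_zero]
      positivity
    · have hn : 0 < ‖tc a‖ := norm_pos_iff.2 (tc_ne ha)
      have hc : 0 < Real.pi * ‖tc a‖ ^ 2 := by positivity
      have e4 : ∀ y : ℝ, ‖ft χ y a‖ = (‖χ a‖ * ‖tc a‖) * Real.exp ((-(Real.pi * ‖tc a‖ ^ 2)) * y) := by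
        intro y
        unfold ft
        rw [norm_mul, norm_mul, Complex.norm_real, Real.norm_eq_abs, Real.abs_exp]
        congr 2
        ring
      simp_rw [e4]
      rw [integral_const_mul, integral_exp_mul_Ioi (by linarith) δ]
      have h5 : ‖fd (Real.pi * δ) (tc a)‖ = ‖tc a‖⁻¹ * Real.exp (-(Real.pi * ‖tc a‖ ^ 2 * δ)) := by
        unfold fd
        rw [norm_mul, norm_inv, Complex.norm_real, Real.norm_eq_abs, Real.abs_exp,
          Complex.normSq_eq_norm_sq]
        congr 2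
        ring
      rw [h5]
      have h6 := chi_le q χ H a
      have h7 : -Real.exp (-(Real.pi * ‖tc a‖ ^ 2) * δ) / -(Real.pi * ‖tc a‖ ^ 2) =
          Real.exp (-(Real.pi * ‖tc a‖ ^ 2 * δ)) / (Real.pi * ‖tc a‖ ^ 2) := by
        rw [neg_div_neg_eq]
        congr 2
        ring
      rw [h7]
      have h8 := Real.exp_pos (-(Real.pi * ‖tc a‖ ^ 2 * δ))
      calc ‖χ a‖ * ‖tc a‖ * (Real.exp (-(Real.pi * ‖tc a‖ ^ 2 * δ)) / (Real.pi * ‖tc a‖ ^ 2))
          ≤ 1 * ‖tc a‖ * (Real.exp (-(Real.pi * ‖tc a‖ ^ 2 * δ)) / (Real.pi * ‖tc a‖ ^ 2)) := by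
            gcongr
        _ = 1 / Real.pi * (‖tc a‖⁻¹ * Real.exp (-(Real.pi * ‖tc a‖ ^ 2 * δ))) := by
            field_simp
  have hcount : Countable ZI := by
    have hi : Function.Injective (fun z : ZI => ((z.re, z.im) : ℤ × ℤ)) := by
      intro a b hab
      rw [Prod.mk.injEq] at hab
      exact Zsqrtd.ext hab.1 hab.2
    exact hi.countable
  have hsum := hasSum_integral_of_summable_integral_norm hint hs
  have e5 : ∫ y in Ioi δ, ∑' a : ZI, ft χ y a = ∫ y in Ioi δ, 4 * TH (bH χ) y := by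
    refine setIntegral_congr_fun measurableSet_Ioi fun y hy => ?_
    exact (th_hasSum q χ H y (lt_trans hδ hy)).2.tsum_eq
  rw [e5, integral_const_mul] at hsum
  have hfin : ∑' a : ZI, χ a * (starRingEnd ℂ) (fd (Real.pi * δ) (tc a)) =
      Real.pi * ∑' a : ZI, ∫ y in Ioi δ, ft χ y a := by
    rw [← tsum_mul_left]
    refine tsum_congr fun a => ?_
    by_cases ha : a = 0
    · subst ha
      simp_rw [h0]
      unfold fd
      rw [tc_zero]
      simp
    · rw [(hterm a ha δ).2]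
      have hn : tc a ≠ 0 := tc_ne ha
      have hc1 : (starRingEnd ℂ) (tc a) ≠ 0 := (map_ne_zero _).2 hn
      have hnn : (‖tc a‖ ^ 2 : ℂ) = tc a * (starRingEnd ℂ) (tc a) := by
        rw [Complex.mul_conj, Complex.normSq_eq_norm_sq]
        push_cast
        rfl
      have hpc : (Real.pi : ℂ) ≠ 0 := by exact_mod_cast hpi.ne'
      unfold fd
      rw [map_mul, map_inv₀, Complex.conj_ofReal, Complex.normSq_eq_norm_sq, hnn]
      have h9 : -(Real.pi * δ * ‖tc a‖ ^ 2) = -Real.pi * ‖tc a‖ ^ 2 * δ := by ring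
      rw [h9]
      field_simp
  rw [hfin, hsum.tsum_eq]
  ring

end Pool.Agent.Y699
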