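import Pool.Agent.Y699.Lf
import Pool.Agent.Y699.Av

/-!
Two-descent on `y² = x³ - D² x` over the Gaussian field.
-/

set_option autoImplicit false
set_option linter.unusedSectionVars false

namespace Pool.Agent.Y699

open H385 (ZI RQ im1 nrm)
open Pool.Agent.W164.RC (two2 prim_iff_dvd unit_norm unit_cases)
open Pool.Agent.H304R2.EC.A1 (prim prim_mul prim_cancel prim_one prim_norm_odd prim_star eq_one_of_prim
  norm_def' re_mul' im_mul' eq_of_dvd prim_ne_zero exists_prim)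

lemma sqf_decomp : ∀ n : ℕ, ∀ c : ZI, c ≠ 0 → c.norm.natAbs ≤ n → ∃ d f, c = d * f ^ 2 ∧ Squarefree d := by
  intro n
  induction n with
  | zero =>
    intro c hc hn
    exfalso
    have : c.norm.natAbs ≠ 0 := by
      intro h
      exact hc ((GaussianInt.norm_eq_zero).1 (Int.natAbs_eq_zero.1 h))
    omega
  | succ n ih =>
    intro c hc hn
    by_cases hs : Squarefree c
    · exact ⟨c, 1, by ring, hs⟩
    · unfold Squarefree at hs
      push Not at hs
      obtain ⟨x, ⟨c', hc'⟩, hx⟩ := hs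
      have hx0 : x ≠ 0 := by
        rintro rfl
        apply hc
        rw [hc']; ring
      have hc0 : c' ≠ 0 := by
        rintro rfl
        apply hc
        rw [hc', mul_zero]
      have h1 : c.norm.natAbs = x.norm.natAbs * x.norm.natAbs * c'.norm.natAbs := by
        rw [hc', Zsqrtd.norm_mul, Zsqrtd.norm_mul, Int.natAbs_mul, Int.natAbs_mul]
      have h2 : x.norm.natAbs ≠ 1 := fun h => hx (Zsqrtd.norm_eq_one_iff.1 h)
      have h3 : x.norm.natAbs ≠ 0 := fun h => hx0 ((GaussianInt.norm_eq_zero).1 (Int.natAbs_eq_zero.1 h))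
      have h4 : c'.norm.natAbs ≠ 0 := fun h => hc0 ((GaussianInt.norm_eq_zero).1 (Int.natAbs_eq_zero.1 h))
      have h5 : c'.norm.natAbs < c.norm.natAbs := by
        rw [h1]
        have h6 : 2 ≤ x.norm.natAbs := by omega
        have h7 : 0 < c'.norm.natAbs := by omega
        have h8 : 2 * 2 * c'.norm.natAbs ≤ x.norm.natAbs * x.norm.natAbs * c'.norm.natAbs :=
          Nat.mul_le_mul_right _ (Nat.mul_le_mul h6 h6)
        omega
      obtain ⟨d, f, hdf, hd⟩ := ih c' hc0 (by omega)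
      exact ⟨d, x * f, by rw [hc', hdf]; ring, hd⟩

variable {F : Type} [Field F] [Algebra ZI F] [IsFractionRing ZI F]

lemma A_inj : Function.Injective (algebraMap ZI F) := IsFractionRing.injective ZI F

lemma A_ne {a : ZI} (h : a ≠ 0) : algebraMap ZI F a ≠ 0 := by
  rwa [Ne, map_eq_zero_iff _ A_inj]

lemma sq_int {y : F} {c : ZI} (h : y ^ 2 = algebraMap ZI F c) : ∃ Y : ZI, algebraMap ZI F Y = y := by
  apply IsIntegrallyClosed.exists_algebraMap_eq_of_isIntegral_pow (n := 2) (by norm_num)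
  rw [h]
  exact isIntegral_algebraMap

variable {ι : Type} [DecidableEq ι] {pr : ι → ZI}

theorem decomp (hp : PF pr) (V : Finset ι) {x y : F} (hy : y ≠ 0)
    (hxy : y ^ 2 = x ^ 3 - (algebraMap ZI F (DD pr V)) ^ 2 * x) :
    ∃ (u : ZI) (S : Finset ι) (f b Y : ZI), u.norm = 1 ∧ S ⊆ V ∧ IsCoprime f b ∧ f ≠ 0 ∧ b ≠ 0 ∧
      x = algebraMap ZI F (u * DD pr S) * (algebraMap ZI F f / algebraMap ZI F b) ^ 2 ∧
      DD pr S * Y ^ 2 = u * (u ^ 2 * f ^ 4 - DD pr (V \ S) ^ 2 * b ^ 4) := by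
  classical
  have hx : x ≠ 0 := by
    rintro rfl
    apply hy
    have : y ^ 2 = 0 := by rw [hxy]; ring
    exact pow_eq_zero_iff (by norm_num) |>.1 this
  obtain ⟨a, m, hm, hxa⟩ := IsFractionRing.div_surjective (A := ZI) x
  have hm0 : m ≠ 0 := nonZeroDivisors.ne_zero hm
  have ha0 : a ≠ 0 := by
    rintro rfl
    apply hx
    rw [← hxa, map_zero, zero_div]
  have hc0 : a * m ≠ 0 := mul_ne_zero ha0 hm0
  obtain ⟨d, h, hdh, hd⟩ := sqf_decomp _ (a * m) hc0 le_rfl
  have hh0 : h ≠ 0 := by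
    rintro rfl
    apply hc0
    rw [hdh]; ring
  have hd0 : d ≠ 0 := hd.ne_zero
  obtain ⟨f, b', hfb, hfb'⟩ := IsFractionRing.exists_reduced_fraction (A := ZI)
    (algebraMap ZI F h / algebraMap ZI F m)
  set b : ZI := (b' : ZI) with hb
  have hb0 : b ≠ 0 := nonZeroDivisors.ne_zero b'.2
  have hw : algebraMap ZI F h / algebraMap ZI F m = algebraMap ZI F f / algebraMap ZI F b := by
    rw [← hfb', IsFractionRing.mk'_eq_div]
  have hcop : IsCoprime f b := hfb.isCoprime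
  have hAm := A_ne (F := F) hm0
  have hAb := A_ne (F := F) hb0
  have hAh := A_ne (F := F) hh0
  have hf0 : f ≠ 0 := by
    rintro rfl
    rw [map_zero, zero_div] at hw
    exact (div_ne_zero hAh hAm) hw
  have hAf := A_ne (F := F) hf0
  have hxd : x = algebraMap ZI F d * (algebraMap ZI F f / algebraMap ZI F b) ^ 2 := by
    rw [← hw, ← hxa]
    have h1 := congrArg (algebraMap ZI F) hdh
    rw [map_mul, map_mul, map_pow] at h1
    field_simp
    linear_combination h1
  -- the integral equation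
  obtain ⟨Y, hY⟩ : ∃ Y : ZI, Y ^ 2 = d * (d ^ 2 * f ^ 4 - DD pr V ^ 2 * b ^ 4) := by
    have h1 : (y * (algebraMap ZI F b) ^ 3 / algebraMap ZI F f) ^ 2 =
        algebraMap ZI F (d * (d ^ 2 * f ^ 4 - DD pr V ^ 2 * b ^ 4)) := by
      rw [div_pow, mul_pow, hxy, hxd]
      simp only [map_mul, map_sub, map_pow]
      field_simp
    obtain ⟨Y, hY⟩ := sq_int h1
    refine ⟨Y, ?_⟩
    apply A_inj (F := F)
    rw [map_pow, hY, h1]
  have hprime : ∀ ρ : ZI, Prime ρ → ρ ∣ d → ρ ∣ DD pr V := by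
    intro ρ hρ hρd
    by_contra hρD
    obtain ⟨d', hd'⟩ := hρd
    have hnd : ¬ ρ ∣ d' := by
      rintro ⟨e, he⟩
      exact hρ.not_isUnit (hd ρ ⟨e, by rw [hd', he]; ring⟩)
    have h1 : ρ ∣ Y := by
      apply hρ.dvd_of_dvd_pow (n := 2)
      rw [hY, hd']
      exact (dvd_mul_right _ _).mul_right _
    obtain ⟨Y1, hY1⟩ := h1
    have h2 : ρ * Y1 ^ 2 = d' * (d ^ 2 * f ^ 4 - DD pr V ^ 2 * b ^ 4) := by
      apply mul_left_cancel₀ hρ.ne_zero
      have : ρ * (d' * (d ^ 2 * f ^ 4 - DD pr V ^ 2 * b ^ 4)) = Y ^ 2 := by rw [hY, hd']; ring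
      rw [this, hY1]
      ring
    have h3 : ρ ∣ b := by
      have h4 : ρ ∣ d' * (d ^ 2 * f ^ 4 - DD pr V ^ 2 * b ^ 4) := by rw [← h2]; exact dvd_mul_right _ _
      have h5 := (hρ.dvd_or_dvd h4).resolve_left hnd
      have h6 : ρ ∣ DD pr V ^ 2 * b ^ 4 := by
        have h7 : ρ ∣ d ^ 2 * f ^ 4 := by
          rw [hd']
          exact (dvd_pow (dvd_mul_right ρ d') (by norm_num)).mul_right _
        have h8 := dvd_sub h7 h5
        rwa [sub_sub_cancel] at h8
      rcases hρ.dvd_or_dvd h6 with h7 | h7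
      · exact absurd (hρ.dvd_of_dvd_pow h7) hρD
      · exact hρ.dvd_of_dvd_pow h7
    obtain ⟨b1, hb1⟩ := h3
    have hnf : ¬ ρ ∣ f := by
      intro h4
      exact hρ.not_isUnit (hcop.isUnit_of_dvd' h4 ⟨b1, hb1⟩)
    have h4 : Y1 ^ 2 = ρ * (d' * (d' ^ 2 * f ^ 4 - ρ ^ 2 * (DD pr V ^ 2 * b1 ^ 4))) := by
      apply mul_left_cancel₀ hρ.ne_zero
      rw [h2, hd', hb1]
      ring
    have h5 : ρ ∣ Y1 := hρ.dvd_of_dvd_pow (n := 2) (by rw [h4]; exact dvd_mul_right _ _)
    obtain ⟨Y2, hY2⟩ := h5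
    have h6 : ρ ∣ d' * (d' ^ 2 * f ^ 4 - ρ ^ 2 * (DD pr V ^ 2 * b1 ^ 4)) := by
      refine ⟨Y2 ^ 2, ?_⟩
      apply mul_left_cancel₀ hρ.ne_zero
      rw [← h4, hY2]
      ring
    have h7 := (hρ.dvd_or_dvd h6).resolve_left hnd
    have h8 : ρ ∣ d' ^ 2 * f ^ 4 := by
      have h9 : ρ ∣ ρ ^ 2 * (DD pr V ^ 2 * b1 ^ 4) := (dvd_pow_self ρ (by norm_num)).mul_right _
      have := dvd_add h7 h9
      rwa [sub_add_cancel] at this
    rcases hρ.dvd_or_dvd h8 with h9 | h9
    · exact hnd (hρ.dvd_of_dvd_pow h9)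
    · exact hnf (hρ.dvd_of_dvd_pow h9)
  -- the set of primes
  set S := V.filter (fun i => pr i ∣ d) with hS
  have hSV : S ⊆ V := Finset.filter_subset _ _
  have hSd : DD pr S ∣ d := by
    unfold DD
    refine Finset.prod_dvd_of_coprime ?_ ?_
    · intro i _ j _ hij
      exact (hp.pp i).cop (hp.pp j) fun h => hij (hp.inj h)
    · intro i hi
      exact (Finset.mem_filter.1 hi).2
  obtain ⟨u, hu⟩ := hSd
  have huu : IsUnit u := by
    by_contra hnu
    have hu0 : u ≠ 0 := by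
      rintro rfl
      exact hd0 (by rw [hu, mul_zero])
    obtain ⟨ρ, hρ, hρu⟩ := WfDvdMonoid.exists_irreducible_factor hnu hu0
    have hρ' : Prime ρ := irreducible_iff_prime.1 hρ
    have h1 : ρ ∣ d := by rw [hu]; exact hρu.mul_left _
    have h2 := hprime ρ hρ' h1
    unfold DD at h2
    obtain ⟨i, hi, hρi⟩ := (hρ'.dvd_finsetProd_iff _).1 h2
    have h3 : pr i ∣ ρ := by
      obtain ⟨c, hc⟩ := hρi
      rcases (hp.pp i).pr.irreducible.isUnit_or_isUnit hc with h4 | h4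
      · exact absurd h4 hρ'.not_isUnit
      · obtain ⟨c', hc'⟩ := h4.exists_right_inv
        exact ⟨c', by rw [hc, mul_assoc, hc', mul_one]⟩
    have h4 : i ∈ S := Finset.mem_filter.2 ⟨hi, h3.trans h1⟩
    have h5 : pr i * pr i ∣ d := by
      rw [hu]
      refine mul_dvd_mul ?_ (h3.trans hρu)
      unfold DD
      exact Finset.dvd_prod_of_mem _ h4
    exact (hp.pp i).pr.not_isUnit (hd _ h5)
  have hun : u.norm = 1 := by
    obtain ⟨e, rfl⟩ := huu
    exact unit_norm e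
  have hDV : DD pr V = DD pr S * DD pr (V \ S) := by
    unfold DD
    rw [mul_comm]
    exact (Finset.prod_sdiff hSV).symm
  have hP0 : DD pr S ≠ 0 := by
    rintro h
    exact hd0 (by rw [hu, h, zero_mul])
  have hPsq : Squarefree (DD pr S) := hd.squarefree_of_dvd ⟨u, hu⟩
  have e1 : Y ^ 2 = DD pr S ^ 3 * (u * (u ^ 2 * f ^ 4 - DD pr (V \ S) ^ 2 * b ^ 4)) := by
    rw [hY, hDV, hu]; ring
  have h1 : DD pr S ∣ Y := by
    rw [← hPsq.dvd_pow_iff_dvd (n := 2) (by norm_num), e1]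
    exact (dvd_pow_self _ (by norm_num)).mul_right _
  obtain ⟨Y1, hY1⟩ := h1
  have e2 : Y1 ^ 2 = DD pr S * (u * (u ^ 2 * f ^ 4 - DD pr (V \ S) ^ 2 * b ^ 4)) := by
    apply mul_left_cancel₀ (pow_ne_zero 2 hP0)
    have : DD pr S ^ 2 * Y1 ^ 2 = Y ^ 2 := by rw [hY1]; ring
    rw [this, e1]
    ring
  have h2 : DD pr S ∣ Y1 := by
    rw [← hPsq.dvd_pow_iff_dvd (n := 2) (by norm_num), e2]
    exact dvd_mul_right _ _
  obtain ⟨Y2, hY2⟩ := h2
  refine ⟨u, S, f, b, Y2, hun, hSV, hcop, hf0, hb0, ?_, ?_⟩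
  · rw [hxd, hu, mul_comm u]
  · apply mul_left_cancel₀ hP0
    rw [← e2, hY2]
    ring

/-- the sign of a class modulo two -/
def sg (a : ZMod 2) : ℤ := if a = 0 then 1 else -1

lemma sg_add : ∀ a b : ZMod 2, sg (a + b) = sg a * sg b := by decide

lemma sg_eq_one : ∀ {a : ZMod 2}, sg a = 1 → a = 0 := by decide

lemma sg_sum {κ : Type*} (s : Finset κ) (f : κ → ZMod 2) : sg (∑ i ∈ s, f i) = ∏ i ∈ s, sg (f i) := by
  classical
  induction s using Finset.induction_on with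
  | empty => rfl
  | insert a s ha ih => rw [Finset.sum_insert ha, Finset.prod_insert ha, sg_add, ih]

lemma qr_sg {π ρ : ZI} (h : ¬ π ∣ ρ) : qr π ρ = sg (if qr π ρ = -1 then 1 else 0) := by
  rcases qr_cases h with h1 | h1 <;> rw [h1] <;> decide

variable [Fintype ι]

lemma not_dvd_of_ne (hp : PF pr) {i j : ι} (h : i ≠ j) : ¬ pr i ∣ pr j := fun h' =>
  h (hp.inj ((hp.pp i).eq_of_dvd (hp.pp j) h'))

lemma qr_DD_sg (hp : PF pr) (T : Finset ι) {j : ι} (hj : j ∉ T) :
    qr (pr j) (DD pr T) = sg (∑ i ∈ T, em pr i j) := by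
  rw [qr_prod (hp.pp j), sg_sum]
  refine Finset.prod_congr rfl fun i hi => ?_
  have hne : j ≠ i := fun h => hj (by rw [h]; exact hi)
  unfold em
  exact qr_sg (not_dvd_of_ne hp hne)

/-- the exponent of a unit -/
noncomputable def ue (u : ZI) : ZMod 2 := if u ^ 2 = 1 then 0 else 1

lemma qr_unit_sg (hp : PF pr) (j : ι) {u : ZI} (hu : u.norm = 1) :
    qr (pr j) u = sg (ue u * wt pr j) := by
  have h1 := (hp.pp j).norm_mod
  have h2 := qr_im (hp.pp j)
  have h3 : qr (pr j) im1 = sg (wt pr j) := by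
    rw [h2]
    by_cases h8 : (pr j).norm % 8 = 1
    · have e : wt pr j = 0 := by unfold wt; rw [if_neg (by omega)]
      rw [if_pos h8, e]
      rfl
    · have e : wt pr j = 1 := by unfold wt; rw [if_pos (by omega)]
      rw [if_neg h8, e]
      rfl
  rcases unit_cases hu with h | h | h | h
  · have : ue u = 0 := by unfold ue; rw [h]; simp
    rw [this, h, qr_one (hp.pp j), zero_mul]
    rfl
  · have : ue u = 1 := by unfold ue; rw [h, if_neg (by decide)]
    rw [this, h, h3, one_mul]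
  · have : ue u = 0 := by unfold ue; rw [h, if_pos (by decide)]
    have e : (im1 ^ 2 : ZI) = -1 := by decide
    rw [this, h, e, qr_neg_one (hp.pp j), zero_mul]
    rfl
  · have : ue u = 1 := by unfold ue; rw [h, if_neg (by decide)]
    have e : (im1 ^ 3 : ZI) = -im1 := by decide
    rw [this, h, e, qr_neg (hp.pp j), h3, one_mul]

/-- the local conditions -/
theorem local_cond (hp : PF pr) (V : Finset ι) {u : ZI} {S : Finset ι} {f b Y : ZI} (hu : u.norm = 1)
    (hSV : S ⊆ V) (hcop : IsCoprime f b)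
    (hf0 : f ≠ 0) (hb0 : b ≠ 0)
    (hE : DD pr S * Y ^ 2 = u * (u ^ 2 * f ^ 4 - DD pr (V \ S) ^ 2 * b ^ 4)) {j : ι} (hj : j ∈ V) :
    (j ∉ S → qr (pr j) u * qr (pr j) (DD pr S) = 1) ∧
    (j ∈ S → qr (pr j) u * qr (pr j) (DD pr (V \ S)) = 1) := by
  have hπ := hp.pp j
  have hP := hπ.pr
  have hdvd : ∀ T : Finset ι, j ∉ T → ¬ pr j ∣ DD pr T := by
    intro T hT h
    unfold DD at h
    obtain ⟨i, hi, hji⟩ := (hP.dvd_finsetProd_iff _).1 h
    exact not_dvd_of_ne hp (fun h' => hT (by rw [h']; exact hi)) hji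
  have hnu : ¬ pr j ∣ u := by
    intro h
    have h1 := unit_mul_star hu
    exact hP.not_isUnit (isUnit_of_dvd_one (by rw [← h1]; exact h.mul_right _))
  constructor
  · intro hjS
    have hnP := hdvd S hjS
    have hjD : j ∈ V \ S := Finset.mem_sdiff.2 ⟨hj, hjS⟩
    set D' := DD pr (V \ S) with hD'
    have hD'j : D' = pr j * DD pr ((V \ S).erase j) := by
      rw [hD']
      unfold DD
      exact (Finset.mul_prod_erase _ pr hjD).symm
    set D'' := DD pr ((V \ S).erase j) with hD''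
    have hnD'' : ¬ pr j ∣ D'' := hdvd _ (Finset.notMem_erase _ _)
    by_cases hf : pr j ∣ f
    · obtain ⟨f1, hf1⟩ := hf
      have hnb : ¬ pr j ∣ b := fun h => hP.not_isUnit (hcop.isUnit_of_dvd' ⟨f1, hf1⟩ h)
      have h1 : pr j ∣ Y := by
        have h2 : pr j ∣ DD pr S * Y ^ 2 := by
          rw [hE, hf1, hD'j]
          exact ⟨u * (u ^ 2 * (pr j ^ 3 * f1 ^ 4) - pr j * (D'' ^ 2 * b ^ 4)), by ring⟩
        exact hP.dvd_of_dvd_pow ((hP.dvd_or_dvd h2).resolve_left hnP)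
      obtain ⟨Y1, hY1⟩ := h1
      have h2 : DD pr S * Y1 ^ 2 = u * (u ^ 2 * pr j ^ 2 * f1 ^ 4 - D'' ^ 2 * b ^ 4) := by
        apply mul_left_cancel₀ (pow_ne_zero 2 hP.ne_zero)
        have : pr j ^ 2 * (DD pr S * Y1 ^ 2) = DD pr S * Y ^ 2 := by rw [hY1]; ring
        rw [this, hE, hf1, hD'j]
        ring
      have h3 : pr j ∣ DD pr S * Y1 ^ 2 - (-(u * (D'' ^ 2 * b ^ 4))) := by
        rw [h2]
        exact ⟨u * (u ^ 2 * (pr j * f1 ^ 4)), by ring⟩
      have h4 : ¬ pr j ∣ D'' * b ^ 2 := by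
        intro h
        rcases hP.dvd_or_dvd h with h5 | h5
        · exact hnD'' h5
        · exact hnb (hP.dvd_of_dvd_pow h5)
      have h5 := qr_per h3
      have e1 : D'' ^ 2 * b ^ 4 = (D'' * b ^ 2) ^ 2 := by ring
      rw [qr_neg hπ, e1, qr_mul hπ, qr_mul hπ, qr_sq' hπ h4, mul_one] at h5
      have h6 : ¬ pr j ∣ Y1 := by
        intro h
        have : qr (pr j) (Y1 ^ 2) = 0 := qr_zero_iff.2 (dvd_pow h (by norm_num))
        rw [this, mul_zero] at h5
        exact hnu (qr_zero_iff.1 h5.symm)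
      rw [qr_sq' hπ h6, mul_one] at h5
      rw [h5]
      exact qr_sq hnu
    · have h3 : pr j ∣ DD pr S * Y ^ 2 - u ^ 3 * f ^ 4 := by
        rw [hE, hD'j]
        exact ⟨-(u * (pr j * (D'' ^ 2 * b ^ 4))), by ring⟩
      have h5 := qr_per h3
      have e1 : u ^ 3 * f ^ 4 = u * (u * f ^ 2) ^ 2 := by ring
      have h4 : ¬ pr j ∣ u * f ^ 2 := by
        intro h
        rcases hP.dvd_or_dvd h with h5 | h5
        · exact hnu h5
        · exact hf (hP.dvd_of_dvd_pow h5)
      rw [e1, qr_mul hπ, qr_mul hπ, qr_sq' hπ h4, mul_one] at h5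
      have h6 : ¬ pr j ∣ Y := by
        intro h
        have : qr (pr j) (Y ^ 2) = 0 := qr_zero_iff.2 (dvd_pow h (by norm_num))
        rw [this, mul_zero] at h5
        exact hnu (qr_zero_iff.1 h5.symm)
      rw [qr_sq' hπ h6, mul_one] at h5
      rw [h5]
      exact qr_sq hnu
  · intro hjS
    have hnD : ¬ pr j ∣ DD pr (V \ S) := hdvd _ (fun h => (Finset.mem_sdiff.1 h).2 hjS)
    set D' := DD pr (V \ S) with hD'
    have h1 : pr j ∣ u * (u ^ 2 * f ^ 4 - D' ^ 2 * b ^ 4) := by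
      rw [← hE]
      refine Dvd.dvd.mul_right ?_ _
      unfold DD
      exact Finset.dvd_prod_of_mem _ hjS
    have h2 := (hP.dvd_or_dvd h1).resolve_left hnu
    have hnb : ¬ pr j ∣ b := by
      intro hb
      have h3 : pr j ∣ u ^ 2 * f ^ 4 := by
        have h4 : pr j ∣ D' ^ 2 * b ^ 4 := (dvd_pow hb (by norm_num)).mul_left _
        have := dvd_add h2 h4
        rwa [sub_add_cancel] at this
      rcases hP.dvd_or_dvd h3 with h4 | h4
      · exact hnu (hP.dvd_of_dvd_pow h4)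
      · exact hP.not_isUnit (hcop.isUnit_of_dvd' (hP.dvd_of_dvd_pow h4) hb)
    have hnf : ¬ pr j ∣ f := by
      intro hf
      have h3 : pr j ∣ D' ^ 2 * b ^ 4 := by
        have h4 : pr j ∣ u ^ 2 * f ^ 4 := (dvd_pow hf (by norm_num)).mul_left _
        have := dvd_sub h4 h2
        rwa [sub_sub_cancel] at this
      rcases hP.dvd_or_dvd h3 with h4 | h4
      · exact hnD (hP.dvd_of_dvd_pow h4)
      · exact hnb (hP.dvd_of_dvd_pow h4)
    have e1 : u ^ 2 * f ^ 4 - D' ^ 2 * b ^ 4 = (D' * b ^ 2 - u * f ^ 2) * (-(D' * b ^ 2 - -(u * f ^ 2))) := by ring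
    rw [e1] at h2
    have h3 : qr (pr j) (D' * b ^ 2) = qr (pr j) (u * f ^ 2) := by
      rcases hP.dvd_or_dvd h2 with h4 | h4
      · exact qr_per h4
      · have h5 := qr_per ((dvd_neg).1 h4)
        rw [h5, qr_neg hπ]
    rw [qr_mul hπ, qr_mul hπ, qr_sq' hπ hnb, qr_sq' hπ hnf, mul_one, mul_one] at h3
    rw [h3]
    exact qr_sq hnu

theorem square_class (hp : PF pr) {V : Finset ι} (hw : ∑ i ∈ V, wt pr i = 1)
    (hker : ∀ z : ι → ZMod 2, (∀ v ∈ V, ∑ u ∈ V, em pr u v * (z u + z v) = 0) →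
      ∀ u ∈ V, ∀ v ∈ V, z u = z v) {x y : F} (hy : y ≠ 0)
    (hxy : y ^ 2 = x ^ 3 - (algebraMap ZI F (DD pr V)) ^ 2 * x) :
    ∃ w : F, x = w ^ 2 ∨ x = algebraMap ZI F (DD pr V) * w ^ 2 := by
  obtain ⟨u, S, f, b, Y, hu, hSV, hcop, hf0, hb0, hx, hE⟩ := decomp hp V hy hxy
  set z : ι → ZMod 2 := fun i => if i ∈ S then 1 else 0 with hz
  have hloc : ∀ v ∈ V, ∑ i ∈ V, em pr i v * (z i + z v) = ue u * wt pr v := by
    intro v hv
    obtain ⟨h1, h2⟩ := local_cond hp V hu hSV hcop hf0 hb0 hE hv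
    have hsum : ∀ a b : ZMod 2, a + b = 0 → b = a := by decide
    by_cases hvS : v ∈ S
    · have h3 := h2 hvS
      rw [qr_unit_sg hp v hu, qr_DD_sg hp (V \ S) (fun h => (Finset.mem_sdiff.1 h).2 hvS), ← sg_add] at h3
      have h4 := hsum _ _ (sg_eq_one h3)
      rw [← h4, ← Finset.sum_sdiff hSV]
      have h5 : ∑ i ∈ S, em pr i v * (z i + z v) = 0 := by
        refine Finset.sum_eq_zero fun i hi => ?_
        rw [hz]
        simp only [if_pos hi, if_pos hvS]
        have : (1 : ZMod 2) + 1 = 0 := by decide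
        rw [this, mul_zero]
      rw [h5, add_zero]
      refine Finset.sum_congr rfl fun i hi => ?_
      rw [hz]
      simp only [if_neg (Finset.mem_sdiff.1 hi).2, if_pos hvS, zero_add, mul_one]
    · have h3 := h1 hvS
      rw [qr_unit_sg hp v hu, qr_DD_sg hp S hvS, ← sg_add] at h3
      have h4 := hsum _ _ (sg_eq_one h3)
      rw [← h4, ← Finset.sum_sdiff hSV]
      have h5 : ∑ i ∈ V \ S, em pr i v * (z i + z v) = 0 := by
        refine Finset.sum_eq_zero fun i hi => ?_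
        rw [hz]
        simp only [if_neg (Finset.mem_sdiff.1 hi).2, if_neg hvS, zero_add, mul_zero]
      rw [h5, zero_add]
      refine Finset.sum_congr rfl fun i hi => ?_
      rw [hz]
      simp only [if_pos hi, if_neg hvS, add_zero, mul_one]
  have hue : ue u = 0 := by
    have h1 : ∑ v ∈ V, ∑ i ∈ V, em pr i v * (z i + z v) = ue u := by
      rw [Finset.sum_congr rfl hloc, ← Finset.mul_sum, hw, mul_one]
    rw [← h1]
    have h2 : ∑ v ∈ V, ∑ i ∈ V, em pr i v * (z i + z v) =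
        ∑ v ∈ V, ∑ i ∈ V, em pr i v * z i + ∑ v ∈ V, ∑ i ∈ V, em pr i v * z v := by
      rw [← Finset.sum_add_distrib]
      refine Finset.sum_congr rfl fun v _ => ?_
      rw [← Finset.sum_add_distrib]
      refine Finset.sum_congr rfl fun i _ => by ring
    rw [h2]
    have h3 : ∑ v ∈ V, ∑ i ∈ V, em pr i v * z v = ∑ v ∈ V, ∑ i ∈ V, em pr i v * z i := by
      rw [Finset.sum_comm]
      refine Finset.sum_congr rfl fun v _ => Finset.sum_congr rfl fun i _ => by rw [em_symm hp]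
    rw [h3]
    have : ∀ a : ZMod 2, a + a = 0 := by decide
    exact this _
  have hker' := hker z (fun v hv => by rw [hloc v hv, hue, zero_mul])
  -- the unit is a square
  obtain ⟨u0, hu0⟩ : ∃ u0 : ZI, u = u0 ^ 2 := by
    rcases unit_cases hu with h | h | h | h
    · exact ⟨1, by rw [h]; ring⟩
    · exfalso
      rw [h] at hue
      revert hue
      unfold ue
      rw [if_neg (by decide)]
      decide
    · exact ⟨im1, h⟩
    · exfalso
      rw [h] at hue
      revert hue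
      unfold ue
      rw [if_neg (by decide)]
      decide
  refine ⟨algebraMap ZI F u0 * (algebraMap ZI F f / algebraMap ZI F b), ?_⟩
  by_cases hS : S = ∅
  · left
    rw [hx, hS, hu0]
    unfold DD
    rw [Finset.prod_empty, mul_one, map_pow]
    ring
  · right
    obtain ⟨s, hs⟩ := Finset.nonempty_iff_ne_empty.2 hS
    have hSV' : S = V := by
      apply Finset.Subset.antisymm hSV
      intro i hi
      have h1 := hker' i hi s (hSV hs)
      rw [hz] at h1
      simp only [if_pos hs] at h1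
      by_contra hiS
      rw [if_neg hiS] at h1
      exact absurd h1 (by decide)
    rw [hx, hSV', hu0, map_mul, map_pow]
    ring

end Pool.Agent.Y699
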