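import Pool.Agent.Y699.Kid
import Pool.Agent.Y699.Crit

/-!
Linear algebra over the field with two elements.
-/

set_option autoImplicit false

open Finset

namespace Pool.Agent.Y699

open H385 (ZI RQ im1 nrm BX)
open H385.H10 (mem_BX nrm_pos Dv mem_Dv card_Dv)
open Pool.Agent.W164.RC (two2 prim_iff_dvd unit_norm unit_cases)
open Pool.Agent.H304R2.EC.A1 (prim prim_mul prim_cancel prim_one prim_norm_odd prim_star eq_one_of_prim
  norm_def' re_mul' im_mul' eq_of_dvd prim_ne_zero exists_prim)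

/-- the additive symbol -/
noncomputable def ep (π a : ZI) : ZMod 2 := if qr π a = -1 then 1 else 0

lemma qr_ep {π a : ZI} (h : ¬ π ∣ a) : qr π a = sg (ep π a) := qr_sg h

lemma sg_inj : ∀ {a b : ZMod 2}, sg a = sg b → a = b := by decide

open Classical in
/-- indicator vector -/
noncomputable def zv (S : Finset ZI) (u : ZI) : ZMod 2 := if u ∈ S then 1 else 0

/-- the Laplacian -/
noncomputable def Lz (m : ZI) (δ z : ZI → ZMod 2) (v : ZI) : ZMod 2 :=
  ∑ u ∈ PD m, ep v u * (z u + z v) + δ v * z v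

lemma Lz_add (m : ZI) (δ z w : ZI → ZMod 2) (v : ZI) :
    Lz m δ (fun u => z u + w u) v = Lz m δ z v + Lz m δ w v := by
  unfold Lz
  have : ∑ u ∈ PD m, ep v u * (z u + w u + (z v + w v)) =
      ∑ u ∈ PD m, ep v u * (z u + z v) + ∑ u ∈ PD m, ep v u * (w u + w v) := by
    rw [← sum_add_distrib]
    refine sum_congr rfl fun u _ => by ring
  rw [this]
  ring

lemma Lz_symm {m : ZI} (hm : m ≠ 0) (δ z w : ZI → ZMod 2) :
    ∑ v ∈ PD m, Lz m δ z v * w v = ∑ v ∈ PD m, Lz m δ w v * z v := by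
  have e : ∀ z w : ZI → ZMod 2, ∑ v ∈ PD m, Lz m δ z v * w v =
      ∑ v ∈ PD m, ∑ u ∈ PD m, ep v u * (z u * w v) + ∑ v ∈ PD m, ∑ u ∈ PD m, ep v u * (z v * w v) +
      ∑ v ∈ PD m, δ v * (z v * w v) := by
    intro z w
    rw [← sum_add_distrib, ← sum_add_distrib]
    refine sum_congr rfl fun v _ => ?_
    unfold Lz
    rw [add_mul, sum_mul, ← sum_add_distrib]
    congr 1
    · refine sum_congr rfl fun u _ => by ring
    · ring
  rw [e, e]
  have h1 : ∑ v ∈ PD m, ∑ u ∈ PD m, ep v u * (z u * w v) = ∑ v ∈ PD m, ∑ u ∈ PD m, ep v u * (w u * z v) := by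
    rw [sum_comm]
    refine sum_congr rfl fun u hu => sum_congr rfl fun v hv => ?_
    have : ep v u = ep u v := by
      unfold ep
      rw [qr_rec ((mem_PD hm).1 hv).1 ((mem_PD hm).1 hu).1]
    rw [this]
    ring
  have h2 : ∑ v ∈ PD m, ∑ u ∈ PD m, ep v u * (z v * w v) = ∑ v ∈ PD m, ∑ u ∈ PD m, ep v u * (w v * z v) :=
    sum_congr rfl fun v _ => sum_congr rfl fun u _ => by ring
  have h3 : ∑ v ∈ PD m, δ v * (z v * w v) = ∑ v ∈ PD m, δ v * (w v * z v) :=
    sum_congr rfl fun v _ => by ring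
  rw [h1, h2, h3]

/-- basic facts -/
structure Cfg (m p q : ZI) : Prop where
  D : PS (m * (p * q))
  hm : prim m
  hp : PP p
  hq : PP q

lemma Cfg.pm {m p q : ZI} (h : Cfg m p q) : PS m :=
  ((PS.mul_iff h.hm (prim_mul h.hp.prm h.hq.prm)).1 h.D).1

lemma Cfg.cm {m p q : ZI} (h : Cfg m p q) : IsCoprime m (p * q) :=
  ((PS.mul_iff h.hm (prim_mul h.hp.prm h.hq.prm)).1 h.D).2.2

lemma Cfg.cpq {m p q : ZI} (h : Cfg m p q) : IsCoprime p q :=
  ((PS.mul_iff h.hp.prm h.hq.prm).1 ((PS.mul_iff h.hm (prim_mul h.hp.prm h.hq.prm)).1 h.D).2.1).2.2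

lemma Cfg.nd {m p q : ZI} (h : Cfg m p q) {v : ZI} (hv : v ∈ PD m) : ¬ v ∣ p ∧ ¬ v ∣ q := by
  have h1 := (mem_PD h.pm.ne).1 hv
  have h2 := h.cm.of_isCoprime_of_dvd_left h1.2
  exact ⟨fun h3 => h1.1.pr.not_isUnit (h2.of_mul_right_left.isUnit_of_dvd' dvd_rfl h3),
    fun h3 => h1.1.pr.not_isUnit (h2.of_mul_right_right.isUnit_of_dvd' dvd_rfl h3)⟩

lemma Cfg.nd' {m p q : ZI} (h : Cfg m p q) {v : ZI} (hv : v ∈ PD m) : ¬ p ∣ v ∧ ¬ q ∣ v := by
  have h1 := (mem_PD h.pm.ne).1 hv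
  obtain ⟨h2, h3⟩ := h.nd hv
  constructor
  · intro h4
    exact h2 (by rw [h.hp.eq_of_dvd h1.1 h4])
  · intro h4
    exact h3 (by rw [h.hq.eq_of_dvd h1.1 h4])

lemma qr_prod_ep {v : ZI} (hv : PP v) {T : Finset ZI} (hT : ∀ u ∈ T, ¬ v ∣ u) :
    qr v (∏ u ∈ T, u) = sg (∑ u ∈ T, ep v u) := by
  classical
  rw [sg_sum]
  have h1 := jac_prod hv.ne T (fun u => u)
  rw [jac_prime hv] at h1
  rw [h1]
  refine prod_congr rfl fun u hu => ?_
  rw [jac_prime hv, qr_ep (hT u hu)]

lemma ne_of_mem {m : ZI} (hm : m ≠ 0) {u v : ZI} (hu : u ∈ PD m) (hv : v ∈ PD m) (h : u ≠ v) : ¬ v ∣ u :=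
  fun h' => h (((mem_PD hm).1 hv).1.eq_of_dvd ((mem_PD hm).1 hu).1 h').symm

/-- translation -/
lemma qr_in {m p q : ZI} (h : Cfg m p q) {S : Finset ZI} {v : ZI} (hv : v ∈ PD m)
    (hvS : v ∈ S) : qr v ((∏ u ∈ PD m \ S, u) * (p * q)) =
      sg (Lz m (fun v => ep v p + ep v q) (zv S) v) := by
  classical
  have hm0 := h.pm.ne
  have hvP := ((mem_PD hm0).1 hv).1
  obtain ⟨h1, h2⟩ := h.nd hv
  rw [qr_mul hvP, qr_mul hvP, qr_ep h1, qr_ep h2, qr_prod_ep hvP, ← sg_add, ← sg_add]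
  · congr 1
    unfold Lz
    have hz : zv S v = 1 := by unfold zv; rw [if_pos hvS]
    rw [hz, mul_one]
    congr 1
    rw [← sum_sdiff (sdiff_subset (s := PD m) (t := S))]
    have e1 : ∑ u ∈ PD m \ (PD m \ S), ep v u * (zv S u + 1) = 0 := by
      refine sum_eq_zero fun u hu => ?_
      rw [mem_sdiff, mem_sdiff] at hu
      have : u ∈ S := by
        by_contra h3
        exact hu.2 ⟨hu.1, h3⟩
      have hz' : zv S u = 1 := by unfold zv; rw [if_pos this]
      rw [hz']
      have : (1 : ZMod 2) + 1 = 0 := by decide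
      rw [this, mul_zero]
    rw [e1, zero_add]
    refine sum_congr rfl fun u hu => ?_
    have hz' : zv S u = 0 := by unfold zv; rw [if_neg (mem_sdiff.1 hu).2]
    rw [hz', zero_add, mul_one]
  · intro u hu
    rw [mem_sdiff] at hu
    exact ne_of_mem hm0 hu.1 hv (fun h3 => hu.2 (by rw [h3]; exact hvS))

lemma qr_out {m p q : ZI} (h : Cfg m p q) {S : Finset ZI} (hS : S ⊆ PD m) {v : ZI} (hv : v ∈ PD m)
    (hvS : v ∉ S) : qr v (∏ u ∈ S, u) = sg (Lz m (fun v => ep v p + ep v q) (zv S) v) := by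
  classical
  have hm0 := h.pm.ne
  have hvP := ((mem_PD hm0).1 hv).1
  rw [qr_prod_ep hvP]
  · congr 1
    unfold Lz
    have hz : zv S v = 0 := by unfold zv; rw [if_neg hvS]
    rw [hz, mul_zero, add_zero]
    rw [← sum_sdiff hS]
    have e1 : ∑ u ∈ PD m \ S, ep v u * (zv S u + 0) = 0 := by
      refine sum_eq_zero fun u hu => ?_
      have hz' : zv S u = 0 := by unfold zv; rw [if_neg (mem_sdiff.1 hu).2]
      rw [hz', add_zero, mul_zero]
    rw [e1, zero_add]
    refine sum_congr rfl fun u hu => ?_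
    have hz' : zv S u = 1 := by unfold zv; rw [if_pos hu]
    rw [hz', add_zero, mul_one]
  · intro u hu
    exact ne_of_mem hm0 (hS hu) hv (fun h3 => hvS (by rw [← h3]; exact hu))

/-- reciprocity for the interval primes -/
lemma qr_p {m p : ZI} (hm : m ≠ 0) (hp : PP p) {S : Finset ZI} (hS : S ⊆ PD m)
    (hnd : ∀ v ∈ PD m, ¬ v ∣ p) : qr p (∏ u ∈ S, u) = sg (∑ u ∈ S, ep u p) := by
  classical
  rw [sg_sum]
  have h1 := jac_prod hp.ne S (fun u => u)
  rw [jac_prime hp] at h1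
  rw [h1]
  refine prod_congr rfl fun u hu => ?_
  have hu' := hS hu
  rw [jac_prime hp, qr_rec hp ((mem_PD hm).1 hu').1, qr_ep (hnd u hu')]

/-- the empty set is in the kernel -/
lemma Cond_empty {m p q : ZI} (h : Cfg m p q) : Cond m p q ∅ := by
  unfold Cond
  refine ⟨fun π hπ => absurd hπ (notMem_empty _), ?_, ?_, ?_⟩
  · intro π hπ
    rw [prod_empty]
    exact qr_one ((mem_PD h.pm.ne).1 (mem_sdiff.1 hπ).1).1
  · rw [prod_empty]; exact qr_one h.hp
  · rw [prod_empty]; exact qr_one h.hq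

lemma eq_empty_of_K1 {m p q : ZI} (h : Cfg m p q) (hK : K1 m p q = 1) {S : Finset ZI} (hS : S ⊆ PD m)
    (hC : Cond m p q S) : S = ∅ := by
  classical
  unfold K1 at hK
  have h1 : ((PD m).powerset.filter (Cond m p q)).card = 1 := by exact_mod_cast hK
  rw [card_eq_one] at h1
  obtain ⟨x, hx⟩ := h1
  have h2 : S ∈ (PD m).powerset.filter (Cond m p q) := mem_filter.2 ⟨mem_powerset.2 hS, hC⟩
  have h3 : ∅ ∈ (PD m).powerset.filter (Cond m p q) :=
    mem_filter.2 ⟨empty_mem_powerset _, Cond_empty h⟩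
  rw [hx, mem_singleton] at h2 h3
  rw [h2, h3]

/-- the kernel property -/
lemma ker_prop {m p q : ZI} (h : Cfg m p q) (hK : K1 m p q = 1) {S : Finset ZI} (hS : S ⊆ PD m)
    (h1 : ∀ v ∈ PD m, Lz m (fun v => ep v p + ep v q) (zv S) v = 0) (h2 : ∑ u ∈ S, ep u p = 0) :
    S = ∅ := by
  classical
  have hm0 := h.pm.ne
  apply eq_empty_of_K1 h hK hS
  have hsum : ∀ g : ZI → ZMod 2, ∑ v ∈ PD m, g v * zv S v = ∑ v ∈ S, g v := by
    intro g
    rw [← sum_sdiff hS]
    have e1 : ∑ v ∈ PD m \ S, g v * zv S v = 0 := by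
      refine sum_eq_zero fun u hu => ?_
      have hz' : zv S u = 0 := by unfold zv; rw [if_neg (mem_sdiff.1 hu).2]
      rw [hz', mul_zero]
    rw [e1, zero_add]
    refine sum_congr rfl fun u hu => ?_
    have hz' : zv S u = 1 := by unfold zv; rw [if_pos hu]
    rw [hz', mul_one]
  have h3 : ∑ u ∈ S, ep u q = 0 := by
    have e1 := Lz_symm hm0 (fun v => ep v p + ep v q) (zv S) (fun _ => 1)
    have e2 : ∑ v ∈ PD m, Lz m (fun v => ep v p + ep v q) (zv S) v * 1 = 0 :=
      sum_eq_zero fun v hv => by rw [h1 v hv, zero_mul]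
    rw [e2] at e1
    have e3 : ∀ v ∈ PD m, Lz m (fun v => ep v p + ep v q) (fun _ => 1) v * zv S v =
        (ep v p + ep v q) * zv S v := by
      intro v _
      unfold Lz
      have : (1 : ZMod 2) + 1 = 0 := by decide
      simp only [this, mul_zero, sum_const_zero, zero_add, mul_one]
    rw [sum_congr rfl e3, hsum, sum_add_distrib, h2, zero_add] at e1
    exact e1.symm
  refine ⟨?_, ?_, ?_, ?_⟩
  · intro v hv
    rw [qr_in h (hS hv) hv, h1 v (hS hv)]
    rfl
  · intro v hv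
    rw [mem_sdiff] at hv
    rw [qr_out h hS hv.1 hv.2, h1 v hv.1]
    rfl
  · rw [qr_p hm0 h.hp hS (fun v hv => (h.nd hv).1), h2]
    rfl
  · rw [qr_p hm0 h.hq hS (fun v hv => (h.nd hv).2), h3]
    rfl

/-- the structure of a bad element -/
lemma bad_struct {m p q : ZI} (h : Cfg m p q) (h5 : (m * (p * q)).norm % 8 = 5) (hK : K1 m p q = 1)
    (hb : ¬ Good (m * (p * q))) : ∃ S ⊆ PD m,
      (∀ v ∈ PD m, Lz m (fun v => ep v p + ep v q) (zv S) v = ep v p) ∧
      qr p (q * ∏ u ∈ PD m \ S, u) = 1 := by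
  classical
  have hm0 := h.pm.ne
  have hD0 := h.D.ne
  have key : ∀ d d' : ZI, prim d → prim d' → m * (p * q) = d * d' → (∀ π ∈ PD d, qr π d' = 1) →
      (∀ π ∈ PD d', qr π d = 1) → d ≠ 1 → ¬ q ∣ d → ∃ S ⊆ PD m,
      (∀ v ∈ PD m, Lz m (fun v => ep v p + ep v q) (zv S) v = ep v p) ∧
      qr p (q * ∏ u ∈ PD m \ S, u) = 1 := by
    intro d d' hd hd' hdd hc hc' hd1 hqd
    have pd : PS d := h.D.of_dvd hd ⟨d', hdd⟩
    have pd' : PS d' := h.D.of_dvd hd' ⟨d, by rw [hdd]; ring⟩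
    have hd0 := pd.ne
    have hd0' := pd'.ne
    have hpartm : ∀ π, PP π → π ∣ m * (p * q) → π ∈ PD m ∨ π = p ∨ π = q := by
      intro π hπ hdv
      rcases hπ.pr.dvd_or_dvd hdv with h1 | h1
      · exact Or.inl ((mem_PD hm0).2 ⟨hπ, h1⟩)
      · rcases hπ.pr.dvd_or_dvd h1 with h2 | h2
        · exact Or.inr (Or.inl (hπ.eq_of_dvd h.hp h2))
        · exact Or.inr (Or.inr (hπ.eq_of_dvd h.hq h2))
    set S := (PD d).erase p with hS
    have hSm : S ⊆ PD m := by
      intro π hπ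
      rw [hS, mem_erase, mem_PD hd0] at hπ
      rcases hpartm π hπ.2.1 (hπ.2.2.trans ⟨d', hdd⟩) with h1 | h1 | h1
      · exact h1
      · exact absurd h1 hπ.1
      · exact absurd (by rw [← h1]; exact hπ.2.2) hqd
    have hm1 : (∏ u ∈ S, u) * (∏ u ∈ PD m \ S, u) = m := by
      rw [mul_comm, prod_sdiff hSm]
      exact h.pm.prod
    have hout : ∀ π ∈ PD m \ S, π ∈ PD d' := by
      intro π hπ
      rw [mem_sdiff, mem_PD hm0] at hπ
      have h1 : π ∣ d * d' := by rw [← hdd]; exact hπ.1.2.mul_right _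
      rcases hπ.1.1.pr.dvd_or_dvd h1 with h2 | h2
      · exfalso
        apply hπ.2
        rw [hS, mem_erase, mem_PD hd0]
        refine ⟨?_, hπ.1.1, h2⟩
        rintro rfl
        exact (h.nd ((mem_PD hm0).2 hπ.1)).1 dvd_rfl
      · exact (mem_PD hd0').2 ⟨hπ.1.1, h2⟩
    have hqd' : q ∈ PD d' := by
      have h1 : q ∣ d * d' := by rw [← hdd]; exact (dvd_mul_left _ _).mul_left _
      rcases h.hq.pr.dvd_or_dvd h1 with h2 | h2
      · exact absurd h2 hqd
      · exact (mem_PD hd0').2 ⟨h.hq, h2⟩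
    by_cases hpd : p ∈ PD d
    · -- the structure
      have hdS : d = p * ∏ u ∈ S, u := by
        rw [hS, mul_prod_erase (PD d) (fun u => u) hpd]
        exact pd.prod.symm
      have hdS' : d' = q * ∏ u ∈ PD m \ S, u := by
        have h1 : d * d' = d * (q * ∏ u ∈ PD m \ S, u) := by
          rw [← hdd]
          conv_lhs => rw [← hm1]
          rw [hdS]
          ring
        exact mul_left_cancel₀ hd0 h1
      refine ⟨S, hSm, ?_, ?_⟩
      · intro v hv
        have hvP := ((mem_PD hm0).1 hv).1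
        obtain ⟨n1, n2⟩ := h.nd hv
        apply sg_inj
        rw [← qr_ep n1]
        by_cases hvS : v ∈ S
        · rw [← qr_in h hv hvS]
          have h1 := hc v (mem_of_mem_erase hvS)
          rw [hdS', qr_mul hvP] at h1
          rw [qr_mul hvP, qr_mul hvP]
          calc qr v (∏ u ∈ PD m \ S, u) * (qr v p * qr v q) =
                (qr v q * qr v (∏ u ∈ PD m \ S, u)) * qr v p := by ring
            _ = qr v p := by rw [h1, one_mul]
        · rw [← qr_out h hSm hv hvS]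
          have h1 := hc' v (hout v (mem_sdiff.2 ⟨hv, hvS⟩))
          rw [hdS, qr_mul hvP] at h1
          have h2 := qr_sq n1
          calc qr v (∏ u ∈ S, u) = (qr v p * qr v p) * qr v (∏ u ∈ S, u) := by rw [h2, one_mul]
            _ = qr v p * (qr v p * qr v (∏ u ∈ S, u)) := by ring
            _ = qr v p := by rw [h1, mul_one]
      · rw [← hdS']
        exact hc p hpd
    · -- contradiction
      exfalso
      have hSd : S = PD d := by rw [hS, erase_eq_of_notMem hpd]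
      have hdS : d = ∏ u ∈ S, u := by rw [hSd]; exact pd.prod.symm
      have hdS' : d' = (∏ u ∈ PD m \ S, u) * (p * q) := by
        have h1 : d * d' = d * ((∏ u ∈ PD m \ S, u) * (p * q)) := by
          rw [← hdd]
          conv_lhs => rw [← hm1]
          rw [hdS]
          ring
        exact mul_left_cancel₀ hd0 h1
      have hpd' : p ∈ PD d' := by
        rw [mem_PD hd0']
        refine ⟨h.hp, ?_⟩
        rw [hdS']
        exact (dvd_mul_right _ _).mul_left _
      have hCond : Cond m p q S := by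
        refine ⟨?_, ?_, ?_, ?_⟩
        · intro π hπ
          rw [← hdS']
          exact hc π (by rw [← hSd]; exact hπ)
        · intro π hπ
          rw [← hdS]
          exact hc' π (hout π hπ)
        · rw [← hdS]; exact hc' p hpd'
        · rw [← hdS]; exact hc' q hqd'
      have := eq_empty_of_K1 h hK hSm hCond
      rw [this, prod_empty] at hdS
      exact hd1 hdS
  by_contra hno
  apply hb
  refine ⟨h.D, h5, ?_⟩
  intro d d' hd hd' hdd hc hc'
  by_contra h1
  push Not at h1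
  by_cases hqd : q ∣ d
  · have hqd' : ¬ q ∣ d' := by
      intro h2
      have h3 : q * q ∣ m * (p * q) := by rw [hdd]; exact mul_dvd_mul hqd h2
      exact h.hq.pr.not_isUnit (h.D.sqf q h3)
    exact hno (key d' d hd' hd (by rw [hdd]; ring) hc' hc h1.2 hqd')
  · exact hno (key d d' hd hd' hdd hc hc' h1.1 hqd)

/-- **bad elements in a class have the same sign** -/
theorem bad_sign {m p q p' q' : ZI} (h : Cfg m p q) (h' : Cfg m p' q')
    (h5 : (m * (p * q)).norm % 8 = 5) (h5' : (m * (p' * q')).norm % 8 = 5)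
    (cl : ∀ v ∈ PD m, qr v p = qr v p' ∧ qr v q = qr v q') (hK : K1 m p q = 1) (hK' : K1 m p' q' = 1)
    (hb : ¬ Good (m * (p * q))) (hb' : ¬ Good (m * (p' * q'))) : jac p q = jac p' q' := by
  classical
  have hm0 := h.pm.ne
  obtain ⟨S, hS, h1, h2⟩ := bad_struct h h5 hK hb
  obtain ⟨S', hS', h1', h2'⟩ := bad_struct h' h5' hK' hb'
  have cle : ∀ v ∈ PD m, ep v p = ep v p' ∧ ep v q = ep v q' := by
    intro v hv
    obtain ⟨c1, c2⟩ := cl v hv
    unfold ep
    rw [c1, c2]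
    exact ⟨rfl, rfl⟩
  have hLz : ∀ z, ∀ v ∈ PD m, Lz m (fun v => ep v p' + ep v q') z v = Lz m (fun v => ep v p + ep v q) z v := by
    intro z v hv
    unfold Lz
    beta_reduce
    rw [(cle v hv).1, (cle v hv).2]
  have h3 : ∀ v ∈ PD m, Lz m (fun v => ep v p + ep v q) (zv S') v = ep v p := by
    intro v hv
    rw [← hLz _ v hv, h1' v hv, (cle v hv).1]
  set U := (S \ S') ∪ (S' \ S) with hU
  have hUm : U ⊆ PD m := by
    intro v hv
    rw [hU, mem_union, mem_sdiff, mem_sdiff] at hv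
    rcases hv with hv | hv
    · exact hS hv.1
    · exact hS' hv.1
  have hz : zv U = fun u => zv S u + zv S' u := by
    funext u
    unfold zv
    have hmem : u ∈ U ↔ (u ∈ S ∧ u ∉ S') ∨ (u ∈ S' ∧ u ∉ S) := by
      rw [hU, mem_union, mem_sdiff, mem_sdiff]
    have e : (0 : ZMod 2) = 1 + 1 := by decide
    by_cases a1 : u ∈ S
    · by_cases a2 : u ∈ S'
      · have a3 : u ∉ U := fun h => by
          rcases hmem.1 h with h4 | h4
          · exact h4.2 a2
          · exact h4.2 a1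
        rw [if_neg a3, if_pos a1, if_pos a2]
        exact e
      · have a3 : u ∈ U := hmem.2 (Or.inl ⟨a1, a2⟩)
        rw [if_pos a3, if_pos a1, if_neg a2, add_zero]
    · by_cases a2 : u ∈ S'
      · have a3 : u ∈ U := hmem.2 (Or.inr ⟨a2, a1⟩)
        rw [if_pos a3, if_neg a1, if_pos a2, zero_add]
      · have a3 : u ∉ U := fun h => by
          rcases hmem.1 h with h4 | h4
          · exact a1 h4.1
          · exact a2 h4.1
        rw [if_neg a3, if_neg a1, if_neg a2, add_zero]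
  have hker : ∀ v ∈ PD m, Lz m (fun v => ep v p + ep v q) (zv U) v = 0 := by
    intro v hv
    rw [hz, Lz_add, h1 v hv, h3 v hv]
    have : ∀ x : ZMod 2, x + x = 0 := by decide
    exact this _
  have hx : ∑ u ∈ U, ep u p = 0 := by
    have e1 := Lz_symm hm0 (fun v => ep v p + ep v q) (zv U) (zv S)
    have e2 : ∑ v ∈ PD m, Lz m (fun v => ep v p + ep v q) (zv U) v * zv S v = 0 :=
      sum_eq_zero fun v hv => by rw [hker v hv, zero_mul]
    rw [e2, sum_congr rfl (fun v hv => by rw [h1 v hv])] at e1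
    have e3 : ∑ v ∈ PD m, ep v p * zv U v = ∑ v ∈ U, ep v p := by
      rw [← sum_sdiff hUm]
      have e4 : ∑ v ∈ PD m \ U, ep v p * zv U v = 0 := by
        refine sum_eq_zero fun u hu => ?_
        have hz' : zv U u = 0 := by unfold zv; rw [if_neg (mem_sdiff.1 hu).2]
        rw [hz', mul_zero]
      rw [e4, zero_add]
      refine sum_congr rfl fun u hu => ?_
      have hz' : zv U u = 1 := by unfold zv; rw [if_pos hu]
      rw [hz', mul_one]
    rw [← e3]
    exact e1.symm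
  have hUe := ker_prop h hK hUm hker hx
  have hSS : S = S' := by
    ext u
    have : u ∉ U := by rw [hUe]; exact notMem_empty _
    rw [hU, mem_union, mem_sdiff, mem_sdiff] at this
    tauto
  rw [← hSS] at h2'
  have hsub : PD m \ S ⊆ PD m := sdiff_subset
  have e1 : qr p (∏ u ∈ PD m \ S, u) = qr p' (∏ u ∈ PD m \ S, u) := by
    rw [qr_p hm0 h.hp hsub (fun v hv => (h.nd hv).1), qr_p hm0 h'.hp hsub (fun v hv => (h'.nd hv).1)]
    congr 1
    exact sum_congr rfl fun u hu => (cle u (hsub hu)).1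
  rw [qr_mul h.hp] at h2
  rw [qr_mul h'.hp, ← e1] at h2'
  rw [jac_prime h.hp, jac_prime h'.hp]
  have e2 : qr p (∏ u ∈ PD m \ S, u) ≠ 0 := right_ne_zero_of_mul (by rw [h2]; norm_num)
  exact mul_right_cancel₀ e2 (h2.trans h2'.symm)

end Pool.Agent.Y699
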