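import Pool.Agent.Y699.Eqd

/-!
A positive proportion of good elements.
-/

set_option autoImplicit false

open Finset

namespace Pool.Agent.Y699

open H385 (ZI RQ im1 nrm BX)
open H385.H10 (mem_BX nrm_pos Dv mem_Dv card_Dv)
open Pool.Agent.W164.RC (two2 prim_iff_dvd unit_norm unit_cases)
open Pool.Agent.H304R2.EC.A1 (prim prim_mul prim_cancel prim_one prim_norm_odd prim_star eq_one_of_prim
  norm_def' re_mul' im_mul' eq_of_dvd prim_ne_zero exists_prim)

lemma sg_one_iff : ∀ a : ZMod 2, sg a = 1 ↔ a = 0 := by decide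

/-- the kernel condition in terms of vectors -/
lemma Cond_iff {m p q : ZI} (h : Cfg m p q) {S : Finset ZI} (hS : S ⊆ PD m) : Cond m p q S ↔
    (∀ v ∈ PD m, Lz m (fun v => ep v p + ep v q) (zv S) v = 0) ∧ ∑ u ∈ S, ep u p = 0 ∧
      ∑ u ∈ S, ep u q = 0 := by
  classical
  have hm0 := h.pm.ne
  unfold Cond
  rw [qr_p hm0 h.hp hS (fun v hv => (h.nd hv).1), qr_p hm0 h.hq hS (fun v hv => (h.nd hv).2),
    sg_one_iff, sg_one_iff]
  constructor
  · rintro ⟨h1, h2, h3, h4⟩
    refine ⟨?_, h3, h4⟩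
    intro v hv
    rw [← sg_one_iff]
    by_cases hvS : v ∈ S
    · rw [← qr_in h hv hvS]
      exact h1 v hvS
    · rw [← qr_out h hS hv hvS]
      exact h2 v (mem_sdiff.2 ⟨hv, hvS⟩)
  · rintro ⟨h1, h3, h4⟩
    refine ⟨?_, ?_, h3, h4⟩
    · intro v hv
      rw [qr_in h (hS hv) hv, sg_one_iff]
      exact h1 v (hS hv)
    · intro v hv
      rw [mem_sdiff] at hv
      rw [qr_out h hS hv.1 hv.2, sg_one_iff]
      exact h1 v hv.1

/-- equality of classes -/
lemma cl_eq {m p p' : ZI} (h : ∀ v ∈ PD m, ¬ v ∣ p) (h' : ∀ v ∈ PD m, ¬ v ∣ p')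
    (hc : cl m p = cl m p') : ∀ v ∈ PD m, qr v p = qr v p' := by
  classical
  intro v hv
  have h1 : v ∈ cl m p ↔ v ∈ cl m p' := by rw [hc]
  unfold cl at h1
  rw [mem_filter, mem_filter] at h1
  rcases qr_cases (h v hv) with h2 | h2
  · have h3 := (h1.1 ⟨hv, h2⟩).2
    rw [h2, h3]
  · rcases qr_cases (h' v hv) with h3 | h3
    · have h4 := (h1.2 ⟨hv, h3⟩).2
      rw [h2] at h4
      norm_num at h4
    · rw [h2, h3]

lemma K1_congr {m p q p' q' : ZI} (h : Cfg m p q) (h' : Cfg m p' q') (hp : cl m p = cl m p')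
    (hq : cl m q = cl m q') : K1 m p q = K1 m p' q' := by
  classical
  have h1 := cl_eq (fun v hv => (h.nd hv).1) (fun v hv => (h'.nd hv).1) hp
  have h2 := cl_eq (fun v hv => (h.nd hv).2) (fun v hv => (h'.nd hv).2) hq
  unfold K1
  congr 2
  refine filter_congr fun S hS => ?_
  rw [mem_powerset] at hS
  rw [Cond_iff h hS, Cond_iff h' hS]
  have e1 : ∀ v ∈ PD m, ep v p = ep v p' := fun v hv => by unfold ep; rw [h1 v hv]
  have e2 : ∀ v ∈ PD m, ep v q = ep v q' := fun v hv => by unfold ep; rw [h2 v hv]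
  have e3 : ∀ v ∈ PD m, Lz m (fun v => ep v p + ep v q) (zv S) v =
      Lz m (fun v => ep v p' + ep v q') (zv S) v := by
    intro v hv
    unfold Lz
    beta_reduce
    rw [e1 v hv, e2 v hv]
  have e4 : ∑ u ∈ S, ep u p = ∑ u ∈ S, ep u p' := sum_congr rfl fun u hu => e1 u (hS hu)
  have e5 : ∑ u ∈ S, ep u q = ∑ u ∈ S, ep u q' := sum_congr rfl fun u hu => e2 u (hS hu)
  rw [e4, e5]
  constructor
  · rintro ⟨a, b⟩
    exact ⟨fun v hv => by rw [← e3 v hv]; exact a v hv, b⟩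
  · rintro ⟨a, b⟩
    exact ⟨fun v hv => by rw [e3 v hv]; exact a v hv, b⟩

/-- pairs in a class -/
def EE (m : ZI) (S S' : Finset ZI) (x : ZI × ZI) : Prop :=
  Cfg m x.1 x.2 ∧ (m * (x.1 * x.2)).norm % 8 = 5 ∧ cl m x.1 = S ∧ cl m x.2 = S' ∧ K1 m x.1 x.2 = 1

open Classical in
/-- the sign function -/
noncomputable def sf (m : ZI) (S S' : Finset ZI) : ℝ :=
  if hb : ∃ x : ZI × ZI, EE m S S' x ∧ ¬ Good (m * (x.1 * x.2)) then
    -(jac (Classical.choose hb).1 (Classical.choose hb).2 : ℝ)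
  else if ∃ x : ZI × ZI, EE m S S' x then 1 else 0

lemma sf_abs (m : ZI) (S S' : Finset ZI) : |sf m S S'| ≤ 1 := by
  classical
  unfold sf
  split_ifs
  · rw [abs_neg]
    exact jac_abs _ _
  · simp
  · simp

open Classical in
/-- indicator of one -/
noncomputable def k1 (m p q : ZI) : ℝ := if K1 m p q = 1 then 1 else 0

open Classical in
/-- indicator of good elements -/
noncomputable def gd (D : ZI) : ℝ := if Good D then 1 else 0

lemma gd_nonneg (D : ZI) : 0 ≤ gd D := by unfold gd; split_ifs <;> norm_num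

/-- the pointwise inequality -/
lemma gd_ge {m p q : ZI} (h : Cfg m p q) (h5 : (m * (p * q)).norm % 8 = 5) :
    (1 / 2) * k1 m p q + (1 / 2) * (sf m (cl m p) (cl m q) * jac p q) ≤ gd (m * (p * q)) := by
  classical
  have hjac : (jac p q : ℝ) = 1 ∨ (jac p q : ℝ) = -1 := by
    have h1 := jac_ne_zero h.hp.ps h.cpq
    rcases jac_cases p q with h2 | h2 | h2
    · exact absurd h2 h1
    · left; rw [h2]; norm_num
    · right; rw [h2]; norm_num
  by_cases hK : K1 m p q = 1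
  · have hE : EE m (cl m p) (cl m q) (p, q) := ⟨h, h5, rfl, rfl, hK⟩
    have e1 : k1 m p q = 1 := by unfold k1; rw [if_pos hK]
    rw [e1]
    by_cases hg : Good (m * (p * q))
    · have e2 : gd (m * (p * q)) = 1 := by unfold gd; rw [if_pos hg]
      rw [e2]
      have h1 : |sf m (cl m p) (cl m q) * (jac p q : ℝ)| ≤ 1 := abs_mul_le (sf_abs _ _ _) (jac_abs _ _)
      have h2 := (le_abs_self _).trans h1
      linarith
    · have e2 : gd (m * (p * q)) = 0 := by unfold gd; rw [if_neg hg]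
      rw [e2]
      have hb : ∃ x : ZI × ZI, EE m (cl m p) (cl m q) x ∧ ¬ Good (m * (x.1 * x.2)) := ⟨(p, q), hE, hg⟩
      unfold sf
      rw [dif_pos hb]
      obtain ⟨⟨c1, c2, c3, c4, c5⟩, c6⟩ := Classical.choose_spec hb
      have hcl : ∀ v ∈ PD m, qr v p = qr v (Classical.choose hb).1 ∧ qr v q = qr v (Classical.choose hb).2 := by
        intro v hv
        exact ⟨cl_eq (fun v hv => (h.nd hv).1) (fun v hv => (c1.nd hv).1) c3.symm v hv,
          cl_eq (fun v hv => (h.nd hv).2) (fun v hv => (c1.nd hv).2) c4.symm v hv⟩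
      have h1 := bad_sign h c1 h5 c2 hcl hK c5 hg c6
      rw [← h1]
      rcases hjac with h2 | h2 <;> rw [h2] <;> norm_num
  · have e1 : k1 m p q = 0 := by unfold k1; rw [if_neg hK]
    have hno : ∀ x : ZI × ZI, ¬ EE m (cl m p) (cl m q) x := by
      rintro x ⟨c1, c2, c3, c4, c5⟩
      apply hK
      rw [← c5]
      exact K1_congr h c1 c3.symm c4.symm
    have e2 : sf m (cl m p) (cl m q) = 0 := by
      unfold sf
      rw [dif_neg, if_neg]
      · rintro ⟨x, hx⟩
        exact hno x hx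
      · rintro ⟨x, hx, -⟩
        exact hno x hx
    rw [e1, e2]
    have := gd_nonneg (m * (p * q))
    linarith

/-- `K1` is at least one, at least two if not one -/
lemma k1_ge {m p q : ZI} (h : Cfg m p q) : 2 - K1 m p q ≤ k1 m p q := by
  classical
  unfold k1
  have h1 : ∅ ∈ (PD m).powerset.filter (Cond m p q) := mem_filter.2 ⟨empty_mem_powerset _, Cond_empty h⟩
  have h2 : 1 ≤ ((PD m).powerset.filter (Cond m p q)).card := card_pos.2 ⟨∅, h1⟩
  by_cases hK : K1 m p q = 1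
  · rw [if_pos hK, hK]; norm_num
  · rw [if_neg hK]
    have h3 : ((PD m).powerset.filter (Cond m p q)).card ≠ 1 := by
      intro h4
      apply hK
      unfold K1
      rw [h4]
      norm_num
    have h4 : 2 ≤ ((PD m).powerset.filter (Cond m p q)).card := by omega
    have h5 : (2 : ℝ) ≤ K1 m p q := by
      unfold K1
      exact_mod_cast h4
    linarith

/-- sums over triples -/
noncomputable def TS (P X : ℕ) (f : ZI → ZI → ZI → ℝ) : ℝ :=
  ∑ p ∈ SB X, ∑ q ∈ SB X, iI P p * iI P q * ∑ m ∈ SB X, Ph X (m * (p * q)) * f m p q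

lemma TS_le {P X : ℕ} {f g : ZI → ZI → ZI → ℝ}
    (h : ∀ m p q, Cfg m p q → (m * (p * q)).norm % 8 = 5 → f m p q ≤ g m p q) : TS P X f ≤ TS P X g := by
  classical
  unfold TS
  refine sum_le_sum fun p hp => sum_le_sum fun q hq => ?_
  by_cases c1 : p ∈ IB kx P
  swap
  · have : iI P p = 0 := by unfold iI; rw [if_neg c1]
    simp only [this, zero_mul, le_refl]
  by_cases c2 : q ∈ IB kx P
  swap
  · have : iI P q = 0 := by unfold iI; rw [if_neg c2]
    simp only [this, mul_zero, zero_mul, le_refl]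
  apply mul_le_mul_of_nonneg_left _ (mul_nonneg (iI_nonneg _ _) (iI_nonneg _ _))
  refine sum_le_sum fun m hm => ?_
  by_cases h0 : Ph X (m * (p * q)) = 0
  · rw [h0, zero_mul, zero_mul]
  · obtain ⟨h1, h2, h3⟩ := Ph_ne h0
    apply mul_le_mul_of_nonneg_left _ (Ph_nonneg _ _)
    exact h m p q ⟨h1, (mem_SB.1 hm).2.prm, (mem_IB.1 c1).2.1, (mem_IB.1 c2).2.1⟩ h3

lemma TS_lin (P X : ℕ) (a b : ℝ) (f g : ZI → ZI → ZI → ℝ) :
    TS P X (fun m p q => a * f m p q + b * g m p q) = a * TS P X f + b * TS P X g := by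
  unfold TS
  rw [mul_sum, mul_sum, ← sum_add_distrib]
  refine sum_congr rfl fun p _ => ?_
  rw [mul_sum, mul_sum, ← sum_add_distrib]
  refine sum_congr rfl fun q _ => ?_
  have : ∑ m ∈ SB X, Ph X (m * (p * q)) * (a * f m p q + b * g m p q) =
      a * ∑ m ∈ SB X, Ph X (m * (p * q)) * f m p q + b * ∑ m ∈ SB X, Ph X (m * (p * q)) * g m p q := by
    rw [mul_sum, mul_sum, ← sum_add_distrib]
    refine sum_congr rfl fun m _ => by ring
  rw [this]
  ring

/-- **the number of good triples** -/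
theorem good_triples : ∃ C : ℝ, 1 ≤ C ∧ ∀ (P X Z : ℕ), 3 ≤ P → P ^ (3 * kx) ≤ X → X ≤ (2 * P) ^ (3 * kx) →
    1 ≤ Z → Z ≤ P →
    1 / 4 * TT P X - (C * (X * lg X ^ 5) * (Z : ℝ) ^ (-(1 / 96) : ℝ) + EH X Z (6 * kx)) -
      C * X * (P : ℝ) ^ (-(1 / 400) : ℝ) ≤ TS P X (fun m p q => gd (m * (p * q))) := by
  obtain ⟨C1, hC1, h1⟩ := avg
  obtain ⟨C2, hC2, h2⟩ := eqd
  refine ⟨C1 + C2, by linarith, ?_⟩
  intro P X Z hP hX1 hX2 hZ hZP
  have hP1 : 1 ≤ P := by omega
  have hX : 1 ≤ X := (Nat.one_le_pow _ _ hP1).trans hX1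
  have hk : (0 : ℝ) < kx := by exact_mod_cast kx_pos
  have a1 := h1 P X Z (6 * kx) (by positivity) (HL_holds hP1 hX1 hX2 hZP) hZ hZP hP hX
  have a2 := h2 P X hP hX2 sf sf_abs
  have b1 : TS P X (fun m p q => K1 m p q) ≤ 3 / 2 * TT P X +
      (C1 * (X * lg X ^ 5) * (Z : ℝ) ^ (-(1 / 96) : ℝ) + 2 * EH X Z (6 * kx)) := a1
  have b2 : |TS P X (fun m p q => sf m (cl m p) (cl m q) * jac p q)| ≤ C2 * X * (P : ℝ) ^ (-(1 / 400) : ℝ) := a2
  have b3 : TS P X (fun _ _ _ => 1) = TT P X := by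
    unfold TS TT
    simp only [mul_one]
  have b4 : TS P X (fun m p q => 2 * (fun _ _ _ => (1 : ℝ)) m p q + (-1) * K1 m p q) ≤ TS P X k1 := by
    refine TS_le fun m p q h _ => ?_
    have := k1_ge h
    simp only
    linarith
  rw [TS_lin, b3] at b4
  have b5 : TS P X (fun m p q => (1 / 2) * k1 m p q + (1 / 2) * (fun m p q => sf m (cl m p) (cl m q) * (jac p q : ℝ)) m p q) ≤
      TS P X (fun m p q => gd (m * (p * q))) := TS_le fun m p q h h5 => gd_ge h h5
  rw [TS_lin] at b5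
  have b6 := (neg_le_abs _).trans b2
  have hlX := lg_pos X
  have c1 : 0 ≤ C2 * ((X * lg X ^ 5) * (Z : ℝ) ^ (-(1 / 96) : ℝ)) := by positivity
  have c2 : 0 ≤ C1 * (X * (P : ℝ) ^ (-(1 / 400) : ℝ)) := by positivity
  have c3 : 0 ≤ C2 * (X * (P : ℝ) ^ (-(1 / 400) : ℝ)) := by positivity
  have c4 : 0 ≤ C1 * ((X * lg X ^ 5) * (Z : ℝ) ^ (-(1 / 96) : ℝ)) := by positivity
  linarith

open Classical in
/-- the number of good elements -/
noncomputable def GB (X : ℕ) : Finset ZI := (SB X).filter Good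

/-- large prime factors -/
noncomputable def LP (P : ℕ) (D : ZI) : Finset ZI := (PD D).filter (fun π => P < nrm π)

lemma card_LP {P X : ℕ} (hP : 2 ≤ P) (hX : X ≤ (2 * P) ^ (3 * kx)) {D : ZI} (hD : PS D) (hn : nrm D ≤ X) :
    (LP P D).card ≤ 6 * kx := by
  have h1 : P ^ (LP P D).card ≤ P ^ (6 * kx) := by
    calc P ^ (LP P D).card = ∏ _π ∈ LP P D, P := by rw [prod_const]
      _ ≤ ∏ π ∈ LP P D, nrm π := prod_le_prod' fun π hπ => (mem_filter.1 hπ).2.le
      _ ≤ ∏ π ∈ PD D, nrm π := by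
          refine prod_le_prod_of_subset_of_one_le' (filter_subset _ _) ?_
          intro π hπ _
          exact nrm_pos' ((mem_PD hD.ne).1 hπ).1.ne
      _ = nrm D := by
          rw [← nrm_prod, hD.prod]
      _ ≤ X := hn
      _ ≤ (2 * P) ^ (3 * kx) := hX
      _ ≤ (P * P) ^ (3 * kx) := Nat.pow_le_pow_left (Nat.mul_le_mul_right _ hP) _
      _ = P ^ (6 * kx) := by
          rw [← sq, ← pow_mul]
          congr 1
          ring
  exact (Nat.pow_le_pow_iff_right (by omega)).1 h1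

/-- triples and good elements -/
theorem TS_GB {P X : ℕ} (hP : 2 ≤ P) (hX : X ≤ (2 * P) ^ (3 * kx)) :
    TS P X (fun m p q => gd (m * (p * q))) ≤ (6 * kx) ^ 2 * ((GB X).card : ℝ) := by
  classical
  set Tr := ((SB X) ×ˢ ((SB X) ×ˢ (SB X))).filter
    (fun x => x.1 ∈ IB kx P ∧ x.2.1 ∈ IB kx P ∧ Ph X (x.2.2 * (x.1 * x.2.1)) ≠ 0 ∧
      Good (x.2.2 * (x.1 * x.2.1))) with hTr
  have e1 : TS P X (fun m p q => gd (m * (p * q))) ≤ (Tr.card : ℝ) := by
    have e2 : (Tr.card : ℝ) = ∑ p ∈ SB X, ∑ q ∈ SB X, ∑ m ∈ SB X,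
        if (p ∈ IB kx P ∧ q ∈ IB kx P ∧ Ph X (m * (p * q)) ≠ 0 ∧ Good (m * (p * q))) then (1 : ℝ) else 0 := by
      rw [hTr, card_eq_sum_ones, sum_filter, sum_product]
      push_cast
      refine sum_congr rfl fun p _ => ?_
      rw [sum_product]
    rw [e2]
    unfold TS
    refine sum_le_sum fun p _ => sum_le_sum fun q _ => ?_
    rw [mul_sum]
    refine sum_le_sum fun m _ => ?_
    unfold iI gd
    beta_reduce
    by_cases c1 : p ∈ IB kx P
    · by_cases c2 : q ∈ IB kx P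
      · by_cases c3 : Ph X (m * (p * q)) = 0
        · rw [c3]
          split_ifs <;> norm_num
        · by_cases c4 : Good (m * (p * q))
          · rw [if_pos c1, if_pos c2, if_pos c4, if_pos ⟨c1, c2, c3, c4⟩]
            have := Ph_le X (m * (p * q))
            linarith
          · rw [if_neg c4]
            split_ifs <;> norm_num
      · rw [if_neg c2]
        split_ifs <;> norm_num
    · rw [if_neg c1]
      split_ifs <;> norm_num
  refine e1.trans ?_
  have e3 : Tr.card ≤ (6 * kx) ^ 2 * (GB X).card := by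
    refine card_le_mul_card_image_of_maps_to (f := fun x : ZI × ZI × ZI => x.2.2 * (x.1 * x.2.1)) ?_ _ ?_
    · intro x hx
      rw [hTr, mem_filter] at hx
      obtain ⟨-, -, -, h3, h4⟩ := hx
      obtain ⟨h5, h6, -⟩ := Ph_ne h3
      unfold GB
      rw [mem_filter, mem_SB]
      exact ⟨⟨h6, h5⟩, h4⟩
    · intro D hD
      unfold GB at hD
      rw [mem_filter, mem_SB] at hD
      have h1 : (Tr.filter (fun x : ZI × ZI × ZI => x.2.2 * (x.1 * x.2.1) = D)).card ≤
          ((LP P D) ×ˢ (LP P D)).card := by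
        refine card_le_card_of_injOn (fun x => (x.1, x.2.1)) ?_ ?_
        · intro x hx
          rw [mem_coe, mem_filter, hTr, mem_filter] at hx
          obtain ⟨⟨-, h1, h2, -, -⟩, h4⟩ := hx
          rw [mem_IB] at h1 h2
          rw [mem_coe, mem_product]
          unfold LP
          rw [mem_filter, mem_filter, mem_PD hD.1.2.ne, mem_PD hD.1.2.ne]
          refine ⟨⟨⟨h1.2.1, ?_⟩, h1.2.2⟩, ⟨h2.2.1, ?_⟩, h2.2.2⟩
          · rw [← h4]
            exact (dvd_mul_right _ _).mul_left _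
          · rw [← h4]
            exact (dvd_mul_left _ _).mul_left _
        · intro x hx y hy hxy
          rw [mem_coe, mem_filter, hTr, mem_filter] at hx hy
          simp only [Prod.mk.injEq] at hxy
          obtain ⟨⟨-, h1, h2, -, -⟩, h4⟩ := hx
          obtain ⟨-, h4'⟩ := hy
          rw [mem_IB] at h1 h2
          have h5 : x.2.2 * (x.1 * x.2.1) = y.2.2 * (x.1 * x.2.1) := by
            rw [h4, hxy.1, hxy.2, h4']
          have h6 := mul_right_cancel₀ (mul_ne_zero h1.2.1.ne h2.2.1.ne) h5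
          exact Prod.ext hxy.1 (Prod.ext hxy.2 h6)
      refine h1.trans ?_
      rw [card_product, sq]
      exact Nat.mul_le_mul (card_LP hP hX hD.1.2 hD.1.1) (card_LP hP hX hD.1.2 hD.1.1)
  exact_mod_cast e3

end Pool.Agent.Y699
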