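import Pool.Agent.Y699.Hall

/-!
Mean values of multiplicative functions, continued.
-/

set_option autoImplicit false

open Finset

namespace Pool.Agent.Y699

open H385 (ZI RQ im1 nrm BX)
open H385.H10 (mem_BX nrm_pos Dv mem_Dv card_Dv)
open Pool.Agent.W164.RC (two2 prim_iff_dvd unit_norm unit_cases)
open Pool.Agent.H304R2.EC.A1 (prim prim_mul prim_cancel prim_one prim_norm_odd prim_star eq_one_of_prim
  norm_def' re_mul' im_mul' eq_of_dvd prim_ne_zero exists_prim)

lemma PS_one : PS (1 : ZI) := ⟨prim_one, squarefree_one⟩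

/-- character sums -/
lemma chs_le {G : ZI} (hG : PS G) (h1 : G ≠ 1) {v : ℕ} (hv : 1 ≤ v) :
    |∑ d ∈ PB v, (jac G d : ℝ)| ≤ 72 * nrm G * Real.sqrt v := by
  classical
  have h := FF2_sum hG PS_one h1 v
  have e : ∑ a ∈ ZB v, FF2 G 1 a = ∑ d ∈ PB v, (jac G d : ℝ) := by
    unfold PB
    rw [sum_filter]
    refine sum_congr rfl fun a _ => ?_
    unfold FF2
    split_ifs
    · rw [jac_one_left]; push_cast; ring
    · rfl
  rw [e, nrm_one] at h
  have h2 : (1 : ℝ) ≤ Real.sqrt v := Real.one_le_sqrt.2 (by exact_mod_cast hv)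
  have h3 : (0 : ℝ) ≤ nrm G := Nat.cast_nonneg _
  refine h.trans ?_
  push_cast
  nlinarith

lemma chs_le' (G : ZI) {v : ℕ} (hv : 1 ≤ v) : |∑ d ∈ PB v, (jac G d : ℝ)| ≤ 9 * v := by
  refine (abs_sum_le_sum_abs _ _).trans ((sum_le_sum fun d _ => jac_abs _ _).trans ?_)
  rw [sum_const, nsmul_eq_mul, mul_one]
  exact card_PB_le hv

lemma inv_tel (n : ℕ) (hn : 1 ≤ n) : ∀ Y : ℕ, n ≤ Y →
    (1 : ℝ) / n = 1 / Y + ∑ v ∈ Ico n Y, (1 : ℝ) / (v * (v + 1)) := by
  intro Y hY
  induction Y, hY using Nat.le_induction with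
  | base => simp
  | succ Y hY ih =>
    rw [sum_Ico_succ_top hY, ih]
    have h1 : (0 : ℝ) < Y := by exact_mod_cast (by omega : 0 < Y)
    push_cast
    field_simp
    ring

lemma harm_le (Y : ℕ) (hY : 1 ≤ Y) : ∑ v ∈ Ico 1 Y, (1 : ℝ) / (v + 1) ≤ Real.log Y := by
  induction Y, hY using Nat.le_induction with
  | base => simp
  | succ Y hY ih =>
    rw [sum_Ico_succ_top hY]
    have h1 : (0 : ℝ) < Y := by exact_mod_cast (by omega : 0 < Y)
    have h2 := Real.one_sub_inv_le_log_of_pos (show (0 : ℝ) < (Y + 1) / Y by positivity)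
    rw [Real.log_div (by positivity) h1.ne', inv_div] at h2
    have h3 : 1 - (Y : ℝ) / (Y + 1) = 1 / (Y + 1) := by field_simp; ring
    push_cast
    linarith

lemma sqrt_tel (m : ℕ) (hm : 1 ≤ m) : ∀ Y : ℕ, m ≤ Y →
    ∑ v ∈ Ico m Y, Real.sqrt v / (v * (v + 1)) ≤ 2 * (1 / Real.sqrt m - 1 / Real.sqrt Y) := by
  intro Y hY
  induction Y, hY using Nat.le_induction with
  | base => simp
  | succ Y hY ih =>
    rw [sum_Ico_succ_top hY]
    have h1 : (0 : ℝ) < Y := by exact_mod_cast (by omega : 0 < Y)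
    have h2 : Real.sqrt Y / ((Y : ℝ) * (Y + 1)) ≤ 2 * (1 / Real.sqrt Y - 1 / Real.sqrt ((Y + 1 : ℕ) : ℝ)) := by
      push_cast
      set a := Real.sqrt (Y : ℝ) with ha
      set b := Real.sqrt ((Y : ℝ) + 1) with hb
      have a0 : 0 < a := Real.sqrt_pos.2 h1
      have b0 : 0 < b := Real.sqrt_pos.2 (by linarith)
      have a2 : a * a = Y := Real.mul_self_sqrt h1.le
      have b2 : b * b = Y + 1 := Real.mul_self_sqrt (by linarith)
      have hab : a ≤ b := Real.sqrt_le_sqrt (by linarith)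
      have e1 : a / ((Y : ℝ) * (Y + 1)) = 1 / (a * (b * b)) := by
        rw [← b2, ← a2]
        field_simp
      have e2 : 1 / a - 1 / b = 1 / (a * b * (a + b)) := by
        have : (b - a) * (b + a) = 1 := by nlinarith
        field_simp
        linarith
      rw [e1, e2, mul_one_div, div_le_div_iff₀ (by positivity) (by positivity)]
      have : a * b * (a + b) ≤ a * b * (2 * b) := by
        apply mul_le_mul_of_nonneg_left _ (by positivity)
        linarith
      linarith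
    linarith

lemma log_le_lg {n : ℕ} (hn : 1 ≤ n) : Real.log n ≤ lg n := by
  have h1 : n < 2 ^ (Nat.log 2 n + 1) := Nat.lt_pow_succ_log_self (by norm_num) n
  have h2 : (n : ℝ) ≤ 2 ^ (Nat.log 2 n + 1) := by exact_mod_cast h1.le
  have h3 := Real.log_le_log (by exact_mod_cast hn) h2
  rw [Real.log_pow] at h3
  unfold lg
  have h4 := Real.log_two_lt_d9
  have h5 : (0 : ℝ) ≤ Nat.log 2 n := Nat.cast_nonneg _
  push_cast at h3
  nlinarith

/-- partial sums of the L-series at 1 -/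
theorem chs_log {G : ZI} (hG : PS G) (h1 : G ≠ 1) (Y : ℕ) :
    |∑ d ∈ PB Y, (jac G d : ℝ) / nrm d| ≤ 171 * lg (nrm G) := by
  classical
  have hN1 : 1 ≤ nrm G := nrm_pos' hG.ne
  set N := nrm G with hN
  have hlg := one_le_lg N
  rcases Nat.eq_zero_or_pos Y with h0 | hY
  · have : PB Y = ∅ := by
      rw [eq_empty_iff_forall_notMem]
      intro x hx
      rw [mem_PB] at hx
      have := nrm_pos' (prim_ne_zero hx.2)
      omega
    rw [this, sum_empty, abs_zero]
    linarith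
  have hYr : (0 : ℝ) < Y := by exact_mod_cast hY
  -- summation by parts
  have e1 : ∑ d ∈ PB Y, (jac G d : ℝ) / nrm d = (∑ d ∈ PB Y, (jac G d : ℝ)) * (1 / Y) +
      ∑ v ∈ Ico 1 Y, (∑ d ∈ PB v, (jac G d : ℝ)) * (1 / ((v : ℝ) * (v + 1))) := by
    have e2 : ∀ d ∈ PB Y, (jac G d : ℝ) / nrm d = (jac G d : ℝ) * (1 / Y) +
        ∑ v ∈ Ico 1 Y, if nrm d ≤ v then (jac G d : ℝ) * (1 / ((v : ℝ) * (v + 1))) else 0 := by
      intro d hd
      rw [mem_PB] at hd
      have hd1 := nrm_pos' (prim_ne_zero hd.2)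
      have h2 := inv_tel (nrm d) hd1 Y hd.1
      rw [div_eq_mul_one_div, h2, mul_add, mul_sum]
      congr 1
      rw [← sum_filter]
      refine sum_congr ?_ fun _ _ => rfl
      ext v
      rw [mem_filter, mem_Ico, mem_Ico]
      constructor
      · rintro ⟨a1, a2⟩; exact ⟨⟨by omega, a2⟩, a1⟩
      · rintro ⟨⟨-, a2⟩, a1⟩; exact ⟨a1, a2⟩
    rw [sum_congr rfl e2, sum_add_distrib, ← sum_mul, sum_comm]
    congr 1
    refine sum_congr rfl fun v hv => ?_
    rw [mem_Ico] at hv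
    rw [← sum_filter, ← sum_mul]
    congr 1
    refine sum_congr ?_ fun _ _ => rfl
    ext d
    rw [mem_filter, mem_PB, mem_PB]
    constructor
    · rintro ⟨⟨-, a2⟩, a1⟩; exact ⟨a1, a2⟩
    · rintro ⟨a1, a2⟩; exact ⟨⟨by omega, a2⟩, a1⟩
  rw [e1]
  refine (abs_add_le _ _).trans ?_
  have e3 : |(∑ d ∈ PB Y, (jac G d : ℝ)) * (1 / Y)| ≤ 9 := by
    rw [abs_mul, abs_of_pos (show (0 : ℝ) < 1 / Y by positivity), mul_one_div, div_le_iff₀ hYr]
    exact chs_le' G hY
  have e4 : ∀ v ∈ Ico 1 Y, |(∑ d ∈ PB v, (jac G d : ℝ)) * (1 / ((v : ℝ) * (v + 1)))| ≤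
      (if v < N ^ 2 then 9 * (1 / ((v : ℝ) + 1)) else 0) +
      (if N ^ 2 ≤ v then 72 * N * (Real.sqrt v / (v * (v + 1))) else 0) := by
    intro v hv
    rw [mem_Ico] at hv
    have v0 : (0 : ℝ) < v := by exact_mod_cast hv.1
    have hp : (0 : ℝ) < 1 / ((v : ℝ) * (v + 1)) := by positivity
    rw [abs_mul, abs_of_pos hp]
    by_cases h : v < N ^ 2
    · rw [if_pos h, if_neg (by omega), add_zero]
      calc |∑ d ∈ PB v, (jac G d : ℝ)| * (1 / ((v : ℝ) * (v + 1))) ≤ (9 * v) * (1 / ((v : ℝ) * (v + 1))) :=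
            mul_le_mul_of_nonneg_right (chs_le' G hv.1) hp.le
        _ = 9 * (1 / ((v : ℝ) + 1)) := by field_simp
    · rw [if_neg h, if_pos (by omega), zero_add]
      calc |∑ d ∈ PB v, (jac G d : ℝ)| * (1 / ((v : ℝ) * (v + 1))) ≤
            (72 * N * Real.sqrt v) * (1 / ((v : ℝ) * (v + 1))) :=
            mul_le_mul_of_nonneg_right (chs_le hG h1 hv.1) hp.le
        _ = 72 * N * (Real.sqrt v / (v * (v + 1))) := by ring
  have e5 : |∑ v ∈ Ico 1 Y, (∑ d ∈ PB v, (jac G d : ℝ)) * (1 / ((v : ℝ) * (v + 1)))| ≤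
      9 * (2 * lg N) + 144 := by
    refine (abs_sum_le_sum_abs _ _).trans ((sum_le_sum e4).trans ?_)
    rw [sum_add_distrib]
    have hN2 : 1 ≤ N ^ 2 := Nat.one_le_pow _ _ hN1
    have a1 : ∑ v ∈ Ico 1 Y, (if v < N ^ 2 then 9 * (1 / ((v : ℝ) + 1)) else 0) ≤ 9 * (2 * lg N) := by
      rw [← sum_filter, ← mul_sum]
      have h2 : ∑ v ∈ (Ico 1 Y).filter (fun v => v < N ^ 2), (1 : ℝ) / ((v : ℝ) + 1) ≤
          ∑ v ∈ Ico 1 (N ^ 2), (1 : ℝ) / ((v : ℝ) + 1) := by
        refine sum_le_sum_of_subset_of_nonneg ?_ (fun _ _ _ => by positivity)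
        intro v hv
        rw [mem_filter, mem_Ico] at hv
        rw [mem_Ico]
        exact ⟨hv.1.1, hv.2⟩
      have h3 := harm_le (N ^ 2) hN2
      have h4 : Real.log ((N ^ 2 : ℕ) : ℝ) = 2 * Real.log N := by
        push_cast
        rw [Real.log_pow]
        push_cast
        ring
      rw [h4] at h3
      have h5 := log_le_lg hN1
      linarith
    have a2 : ∑ v ∈ Ico 1 Y, (if N ^ 2 ≤ v then 72 * (N : ℝ) * (Real.sqrt v / (v * (v + 1))) else 0) ≤ 144 := by
      rw [← sum_filter, ← mul_sum]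
      have h2 : ∑ v ∈ (Ico 1 Y).filter (fun v => N ^ 2 ≤ v), Real.sqrt v / ((v : ℝ) * (v + 1)) ≤
          ∑ v ∈ Ico (N ^ 2) (max Y (N ^ 2)), Real.sqrt v / ((v : ℝ) * (v + 1)) := by
        refine sum_le_sum_of_subset_of_nonneg ?_ (fun _ _ _ => by positivity)
        intro v hv
        rw [mem_filter, mem_Ico] at hv
        rw [mem_Ico]
        exact ⟨hv.2, lt_of_lt_of_le hv.1.2 (le_max_left _ _)⟩
      have h3 := sqrt_tel (N ^ 2) hN2 (max Y (N ^ 2)) (le_max_right _ _)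
      have h4 : Real.sqrt ((N ^ 2 : ℕ) : ℝ) = N := by
        push_cast
        exact Real.sqrt_sq (Nat.cast_nonneg _)
      rw [h4] at h3
      have h5 : (0 : ℝ) ≤ 1 / Real.sqrt ((max Y (N ^ 2) : ℕ) : ℝ) := by positivity
      have Nr : (0 : ℝ) < N := by exact_mod_cast hN1
      calc 72 * (N : ℝ) * ∑ v ∈ (Ico 1 Y).filter (fun v => N ^ 2 ≤ v), Real.sqrt v / ((v : ℝ) * (v + 1))
          ≤ 72 * N * (2 * (1 / N)) := by
            apply mul_le_mul_of_nonneg_left _ (by positivity)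
            linarith
        _ = 144 := by field_simp; norm_num
    linarith
  linarith

lemma lg_sq (T : ℕ) : lg (T ^ 2) ≤ 2 * lg T := by
  rcases Nat.eq_zero_or_pos T with h | h
  · subst h; simp [lg]
  unfold lg
  have h1 : Nat.log 2 (T ^ 2) < 2 * (Nat.log 2 T + 1) := by
    apply Nat.log_lt_of_lt_pow (by positivity)
    have h2 := Nat.lt_pow_succ_log_self (b := 2) (by norm_num) T
    calc T ^ 2 < (2 ^ (Nat.log 2 T + 1)) ^ 2 := Nat.pow_lt_pow_left h2 (by norm_num)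
      _ = 2 ^ (2 * (Nat.log 2 T + 1)) := by rw [← pow_mul]; ring_nf
  have h2 : (Nat.log 2 (T ^ 2) : ℝ) + 1 ≤ 2 * (Nat.log 2 T + 1) := by exact_mod_cast h1
  exact h2

lemma lg_le_log {T : ℕ} (hT : 2 ≤ T) : lg T ≤ 3 * Real.log T := by
  have h1 : (Nat.log 2 T : ℝ) * Real.log 2 ≤ Real.log T := by
    have h2 : (2 : ℝ) ^ (Nat.log 2 T) ≤ T := by exact_mod_cast Nat.pow_log_le_self 2 (by omega)
    have h3 := Real.log_le_log (by positivity) h2
    rwa [Real.log_pow] at h3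
  have h3 := Real.log_two_gt_d9
  have h4 : 1 ≤ Nat.log 2 T := Nat.log_pos (by norm_num) hT
  have h5 : (1 : ℝ) ≤ Nat.log 2 T := by exact_mod_cast h4
  unfold lg
  nlinarith

/-- combining the two steps -/
lemma hall_aux {g : ZI → ℝ} (h0 : ∀ π, 0 ≤ g π) (h1 : ∀ π, g π ≤ 1) {T : ℕ} (hT : 1 ≤ T) {A : ℝ}
    (hA1 : 1 ≤ A) (hA : ∑ n ∈ PB (T ^ 2), mf (fun π => 2 * g π) n / nrm n ≤ A * lg T) :
    ∑ n ∈ SB T, mf g n ≤ 21 * Real.sqrt A * (T / Real.sqrt (lg T)) := by
  classical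
  have hl := lg_pos T
  have hs : 0 < Real.sqrt (lg T) := Real.sqrt_pos.2 hl
  have hsA : 1 ≤ Real.sqrt A := Real.one_le_sqrt.2 hA1
  have T0 : (0 : ℝ) < T := by exact_mod_cast hT
  by_cases hT1 : T = 1
  · subst hT1
    have h2 : ∑ n ∈ SB 1, mf g n ≤ 9 := by
      refine (sum_le_sum fun n _ => mf_le_one h0 h1 n).trans ?_
      rw [sum_const, nsmul_eq_mul, mul_one]
      refine (card_SB_le le_rfl).trans (le_of_eq (by norm_num))
    have h3 : lg 1 = 1 := by unfold lg; simp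
    rw [h3, Real.sqrt_one]
    push_cast
    linarith
  · have hT2 : 2 ≤ T := by omega
    set S := ∑ n ∈ SB T, mf g n with hS
    set S1 := ∑ n ∈ SB T, mf g n / nrm n with hS1
    have hS0 : 0 ≤ S := sum_nonneg fun n _ => mf_nonneg h0 n
    have hS10 : 0 ≤ S1 := sum_nonneg fun n _ => div_nonneg (mf_nonneg h0 n) (Nat.cast_nonneg _)
    have h2 := hall1 h0 h1 hT
    have h3 := (hall2 h0 h1 T).trans hA
    rw [← hS, ← hS1] at h2
    rw [← hS1] at h3
    have h4 : S1 ≤ Real.sqrt A * Real.sqrt (lg T) := by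
      rw [← Real.sqrt_mul (by linarith)]
      exact Real.le_sqrt_of_sq_le h3
    have h5 := lg_le_log hT2
    have h6 : Real.sqrt (lg T) * Real.sqrt (lg T) = lg T := Real.mul_self_sqrt hl.le
    have h7 : S * lg T ≤ 21 * T * (Real.sqrt A * Real.sqrt (lg T)) := by
      calc S * lg T ≤ S * (3 * Real.log T) := mul_le_mul_of_nonneg_left h5 hS0
        _ = 3 * (S * Real.log T) := by ring
        _ ≤ 3 * (7 * T * S1) := by linarith
        _ ≤ 3 * (7 * T * (Real.sqrt A * Real.sqrt (lg T))) := by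
            have := mul_le_mul_of_nonneg_left h4 (show (0 : ℝ) ≤ 7 * T by positivity)
            linarith
        _ = 21 * T * (Real.sqrt A * Real.sqrt (lg T)) := by ring
    have h8 : S * Real.sqrt (lg T) ≤ 21 * T * Real.sqrt A := by
      have h9 : (S * Real.sqrt (lg T)) * Real.sqrt (lg T) ≤ (21 * T * Real.sqrt A) * Real.sqrt (lg T) := by
        rw [mul_assoc, h6]
        linarith
      exact le_of_mul_le_mul_right h9 hs
    rw [mul_div_assoc', le_div_iff₀ hs]
    linarith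

/-- **the half-density mean value** -/
theorem hallG {G : ZI} (hG : PS G) (h1 : G ≠ 1) (T : ℕ) :
    ∑ n ∈ SB T, mf (fun π => (1 + (jac G π : ℝ)) / 2) n ≤
      1680 * Real.sqrt (lg (nrm G)) * (T / Real.sqrt (lg T)) := by
  classical
  rcases Nat.eq_zero_or_pos T with h0 | hT
  · have : SB T = ∅ := by
      rw [eq_empty_iff_forall_notMem]
      intro x hx
      rw [mem_SB] at hx
      have := nrm_pos' hx.2.ne
      omega
    rw [this, sum_empty]
    positivity
  have hχ : ∀ π, (jac G π : ℝ) = 0 ∨ (jac G π : ℝ) = 1 ∨ (jac G π : ℝ) = -1 := by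
    intro π
    rcases jac_cases G π with h | h | h <;> rw [h] <;> simp
  have hl := one_le_lg (nrm G)
  have hA : ∑ n ∈ PB (T ^ 2), mf (fun π => 2 * ((1 + (jac G π : ℝ)) / 2)) n / nrm n ≤
      (6400 * lg (nrm G)) * lg T := by
    have e1 : (fun π : ZI => 2 * ((1 + (jac G π : ℝ)) / 2)) = fun π => 1 + (jac G π : ℝ) := by
      funext π; ring
    rw [e1]
    have e2 : ∑ n ∈ PB (T ^ 2), mf (fun π => 1 + (jac G π : ℝ)) n / nrm n ≤
        ∑ n ∈ PB (T ^ 2), (∑ d ∈ DP n, (jac G d : ℝ)) / nrm n := by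
      refine sum_le_sum fun n hn => ?_
      exact div_le_div_of_nonneg_right (conv_le hG.ne n (mem_PB.1 hn).2) (Nat.cast_nonneg _)
    rw [conv_sum] at e2
    refine e2.trans ?_
    have e3 : ∀ k ∈ PB (T ^ 2), (1 / (nrm k : ℝ)) * ∑ d ∈ PB (T ^ 2 / nrm k), (jac G d : ℝ) / nrm d ≤
        (171 * lg (nrm G)) * (1 / nrm k) := by
      intro k _
      rw [mul_comm]
      exact mul_le_mul_of_nonneg_right ((le_abs_self _).trans (chs_log hG h1 _)) (by positivity)
    refine (sum_le_sum e3).trans ?_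
    rw [← mul_sum]
    have e4 := hsum (T ^ 2)
    have e5 := lg_sq T
    have e6 := lg_pos T
    have e7 : (171 * lg (nrm G)) * ∑ k ∈ PB (T ^ 2), (1 : ℝ) / nrm k ≤ (171 * lg (nrm G)) * (36 * lg T) := by
      apply mul_le_mul_of_nonneg_left _ (by linarith)
      linarith
    refine e7.trans ?_
    have : 0 ≤ lg (nrm G) * lg T := by positivity
    nlinarith
  have h2 := hall_aux (g := fun π => (1 + (jac G π : ℝ)) / 2)
    (fun π => by rcases hχ π with h | h | h <;> simp only [h] <;> norm_num)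
    (fun π => by rcases hχ π with h | h | h <;> simp only [h] <;> norm_num) hT (by linarith) hA
  refine h2.trans (le_of_eq ?_)
  have e : Real.sqrt (6400 * lg (nrm G)) = 80 * Real.sqrt (lg (nrm G)) := by
    rw [Real.sqrt_mul (by norm_num)]
    congr 1
    rw [show (6400 : ℝ) = 80 ^ 2 by norm_num]
    exact Real.sqrt_sq (by norm_num)
  rw [e]
  ring

/-- **the mean value of `2 ^ (- ω)`** -/
theorem hall0 (T : ℕ) : ∑ n ∈ SB T, mf (fun _ => 1 / 2) n ≤ 126 * (T / Real.sqrt (lg T)) := by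
  classical
  rcases Nat.eq_zero_or_pos T with h0 | hT
  · have : SB T = ∅ := by
      rw [eq_empty_iff_forall_notMem]
      intro x hx
      rw [mem_SB] at hx
      have := nrm_pos' hx.2.ne
      omega
    rw [this, sum_empty]
    positivity
  have hA : ∑ n ∈ PB (T ^ 2), mf (fun _ => 2 * (1 / 2)) n / nrm n ≤ 36 * lg T := by
    have e1 : ∀ n ∈ PB (T ^ 2), mf (fun _ => 2 * (1 / 2 : ℝ)) n / nrm n = 1 / nrm n := by
      intro n _
      congr 1
      unfold mf
      norm_num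
    rw [sum_congr rfl e1]
    have e4 := hsum (T ^ 2)
    have e5 := lg_sq T
    linarith
  have h2 := hall_aux (g := fun _ => (1 / 2 : ℝ)) (fun _ => by norm_num) (fun _ => by norm_num) hT
    (by norm_num) hA
  refine h2.trans (le_of_eq ?_)
  have e : Real.sqrt 36 = 6 := by
    rw [show (36 : ℝ) = 6 ^ 2 by norm_num]
    exact Real.sqrt_sq (by norm_num)
  rw [e]
  ring

end Pool.Agent.Y699
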