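import Pool.Agent.Y699.Cheb

/-!
Mean values of multiplicative functions.
-/

set_option autoImplicit false

open Finset

namespace Pool.Agent.Y699

open H385 (ZI RQ im1 nrm BX)
open H385.H10 (mem_BX nrm_pos Dv mem_Dv card_Dv)
open Pool.Agent.W164.RC (two2 prim_iff_dvd unit_norm unit_cases)
open Pool.Agent.H304R2.EC.A1 (prim prim_mul prim_cancel prim_one prim_norm_odd prim_star eq_one_of_prim
  norm_def' re_mul' im_mul' eq_of_dvd prim_ne_zero exists_prim)

/-- the multiplicative function with given values at primes -/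
noncomputable def mf (g : ZI → ℝ) (n : ZI) : ℝ := ∏ π ∈ PD n, g π

lemma mf_nonneg {g : ZI → ℝ} (h0 : ∀ π, 0 ≤ g π) (n : ZI) : 0 ≤ mf g n := prod_nonneg fun _ _ => h0 _

lemma mf_le_one {g : ZI → ℝ} (h0 : ∀ π, 0 ≤ g π) (h1 : ∀ π, g π ≤ 1) (n : ZI) : mf g n ≤ 1 :=
  prod_le_one (fun _ _ => h0 _) (fun _ _ => h1 _)

/-- `f(n) log T` on average -/
theorem hall1 {g : ZI → ℝ} (h0 : ∀ π, 0 ≤ g π) (h1 : ∀ π, g π ≤ 1) {T : ℕ} (hT : 1 ≤ T) :
    (∑ n ∈ SB T, mf g n) * Real.log T ≤ 7 * T * ∑ n ∈ SB T, mf g n / nrm n := by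
  classical
  have T0 : (0 : ℝ) < T := by exact_mod_cast hT
  have e1 : (∑ n ∈ SB T, mf g n) * Real.log T ≤
      ∑ n ∈ SB T, mf g n * Real.log (nrm n) + ∑ n ∈ SB T, mf g n * (T / nrm n) := by
    rw [sum_mul, ← sum_add_distrib]
    refine sum_le_sum fun n hn => ?_
    rw [mem_SB] at hn
    have n0 : (0 : ℝ) < nrm n := by exact_mod_cast nrm_pos' hn.2.ne
    have h2 := Real.log_le_sub_one_of_pos (show (0 : ℝ) < T / nrm n by positivity)
    rw [Real.log_div T0.ne' n0.ne'] at h2
    have h3 := mf_nonneg h0 n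
    nlinarith
  have e2 : ∑ n ∈ SB T, mf g n * Real.log (nrm n) ≤ 6 * T * ∑ n ∈ SB T, mf g n / nrm n := by
    have e3 : ∑ n ∈ SB T, mf g n * Real.log (nrm n) =
        ∑ x ∈ (SB T).sigma (fun n => PD n), mf g x.1 * Real.log (nrm x.2) := by
      rw [sum_sigma]
      refine sum_congr rfl fun n hn => ?_
      rw [log_nrm (mem_SB.1 hn).2, mul_sum]
    have e4 : ∑ x ∈ (SB T).sigma (fun n => PD n), mf g x.1 * Real.log (nrm x.2) ≤
        ∑ x ∈ (SB T).sigma (fun m => QB (T / nrm m)), mf g x.1 * Real.log (nrm x.2) := by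
      have key : ∀ x ∈ (SB T).sigma (fun n => PD n),
          x.2 * (∏ ρ ∈ (PD x.1).erase x.2, ρ) = x.1 ∧ PS (∏ ρ ∈ (PD x.1).erase x.2, ρ) ∧
          PD (∏ ρ ∈ (PD x.1).erase x.2, ρ) = (PD x.1).erase x.2 ∧ PP x.2 := by
        rintro ⟨n, π⟩ hx
        rw [mem_sigma, mem_SB] at hx
        simp only at hx ⊢
        have h2 : ∀ ρ ∈ (PD n).erase π, PP ρ := fun ρ hρ => ((mem_PD hx.1.2.ne).1 (mem_of_mem_erase hρ)).1
        refine ⟨?_, (PS_prod h2).1, (PS_prod h2).2, ((mem_PD hx.1.2.ne).1 hx.2).1⟩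
        rw [mul_prod_erase (PD n) (fun ρ => ρ) hx.2]
        exact hx.1.2.prod
      refine sum_le_inj (fun x => ⟨∏ ρ ∈ (PD x.1).erase x.2, ρ, x.2⟩) ?_ ?_ ?_ ?_
      · intro x hx
        obtain ⟨k1, k2, -, k4⟩ := key x hx
        rw [mem_sigma, mem_SB] at hx
        rw [mem_sigma, mem_SB, mem_QB]
        simp only
        have h3 : nrm x.2 * nrm (∏ ρ ∈ (PD x.1).erase x.2, ρ) ≤ T := by
          rw [← nrm_mul, k1]
          exact hx.1.1
        have h4 := nrm_pos' k4.ne
        have h5 := nrm_pos' k2.ne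
        refine ⟨⟨?_, k2⟩, ?_, k4⟩
        · exact (Nat.le_mul_of_pos_left _ h4).trans h3
        · rw [Nat.le_div_iff_mul_le h5]
          exact h3
      · rintro ⟨a, π⟩ ha ⟨b, ρ⟩ hb hab
        obtain ⟨k1, -⟩ := key _ ha
        obtain ⟨l1, -⟩ := key _ hb
        simp only [Sigma.mk.injEq, heq_eq_eq] at hab k1 l1
        obtain ⟨h2, rfl⟩ := hab
        rw [h2] at k1
        rw [k1] at l1
        rw [l1]
      · rintro ⟨n, π⟩ hx
        obtain ⟨k1, k2, k3, k4⟩ := key _ hx
        simp only at k1 k2 k3 k4 ⊢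
        rw [mem_sigma] at hx
        apply mul_le_mul_of_nonneg_right _ (Real.log_natCast_nonneg _)
        unfold mf
        rw [k3, ← mul_prod_erase (PD n) g hx.2]
        exact mul_le_of_le_one_left (prod_nonneg fun _ _ => h0 _) (h1 _)
      · intro x _
        exact mul_nonneg (mf_nonneg h0 _) (Real.log_natCast_nonneg _)
    rw [e3]
    refine e4.trans ?_
    rw [sum_sigma, mul_sum]
    refine sum_le_sum fun m hm => ?_
    show ∑ s ∈ QB (T / nrm m), mf g m * Real.log (nrm s) ≤ _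
    rw [← mul_sum]
    have h2 := theta_le (T / nrm m)
    have h3 : ((T / nrm m : ℕ) : ℝ) ≤ (T : ℝ) / nrm m := Nat.cast_div_le
    calc mf g m * ∑ π ∈ QB (T / nrm m), Real.log (nrm π) ≤ mf g m * (6 * ((T : ℝ) / nrm m)) := by
          apply mul_le_mul_of_nonneg_left _ (mf_nonneg h0 _)
          linarith
      _ = 6 * T * (mf g m / nrm m) := by ring
  have e3 : ∑ n ∈ SB T, mf g n * (T / nrm n) = T * ∑ n ∈ SB T, mf g n / nrm n := by
    rw [mul_sum]
    refine sum_congr rfl fun n _ => by ring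
  rw [e3] at e1
  linarith

/-- the square of the logarithmic mean -/
theorem hall2 {g : ZI → ℝ} (h0 : ∀ π, 0 ≤ g π) (h1 : ∀ π, g π ≤ 1) (T : ℕ) :
    (∑ n ∈ SB T, mf g n / nrm n) ^ 2 ≤ ∑ n ∈ PB (T ^ 2), mf (fun π => 2 * g π) n / nrm n := by
  classical
  have e1 : (∑ n ∈ SB T, mf g n / nrm n) ^ 2 =
      ∑ x ∈ (SB T) ×ˢ (SB T), (mf g x.1 * mf g x.2) / nrm (x.1 * x.2) := by
    rw [sq, sum_mul_sum, sum_product]
    refine sum_congr rfl fun x _ => sum_congr rfl fun y _ => ?_
    rw [nrm_mul, div_mul_div_comm]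
    push_cast
    rfl
  have hmaps : ∀ x ∈ (SB T) ×ˢ (SB T), x.1 * x.2 ∈ PB (T ^ 2) := by
    intro x hx
    rw [mem_product, mem_SB, mem_SB] at hx
    rw [mem_PB, nrm_mul, sq]
    exact ⟨Nat.mul_le_mul hx.1.1 hx.2.1, prim_mul hx.1.2.prm hx.2.2.prm⟩
  rw [e1, ← sum_fiberwise_of_maps_to hmaps]
  refine sum_le_sum fun n hn => ?_
  rw [mem_PB] at hn
  have hn0 := prim_ne_zero hn.2
  have h2 : ∀ x ∈ ((SB T) ×ˢ (SB T)).filter (fun x => x.1 * x.2 = n),
      (mf g x.1 * mf g x.2) / nrm (x.1 * x.2) ≤ mf g n / nrm n := by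
    intro x hx
    rw [mem_filter, mem_product, mem_SB, mem_SB] at hx
    rw [hx.2]
    apply div_le_div_of_nonneg_right _ (Nat.cast_nonneg _)
    have h3 : PD n = PD x.1 ∪ PD x.2 := by rw [← hx.2]; exact PD_mul hx.1.1.2.ne hx.1.2.2.ne
    unfold mf
    rw [h3, ← prod_union_inter]
    exact mul_le_of_le_one_right (prod_nonneg fun _ _ => h0 _)
      (prod_le_one (fun _ _ => h0 _) (fun _ _ => h1 _))
  refine (sum_le_sum h2).trans ?_
  rw [sum_const, nsmul_eq_mul]
  have h3 : (((SB T) ×ˢ (SB T)).filter (fun x => x.1 * x.2 = n)).card ≤ 2 ^ (PD n).card := by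
    rw [← card_powerset]
    refine card_le_card_of_injOn (fun x => PD x.1) ?_ ?_
    · intro x hx
      rw [mem_coe, mem_filter, mem_product, mem_SB, mem_SB] at hx
      rw [mem_coe, mem_powerset]
      refine PD_subset hn0 ?_
      rw [← hx.2]
      exact dvd_mul_right _ _
    · intro x hx y hy hxy
      rw [mem_coe, mem_filter, mem_product, mem_SB, mem_SB] at hx hy
      simp only at hxy
      have h4 : x.1 = y.1 := by
        rw [← hx.1.1.2.prod, ← hy.1.1.2.prod, hxy]
      have h5 : x.1 * x.2 = x.1 * y.2 := by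
        rw [hx.2, h4, hy.2]
      exact Prod.ext h4 (mul_left_cancel₀ hx.1.1.2.ne h5)
  have h4 : mf (fun π => 2 * g π) n = 2 ^ (PD n).card * mf g n := by
    unfold mf
    rw [prod_mul_distrib, prod_const]
  rw [h4, mul_div_assoc]
  apply mul_le_mul_of_nonneg_right _ (div_nonneg (mf_nonneg h0 _) (Nat.cast_nonneg _))
  exact_mod_cast h3

open Classical in
/-- primary divisors -/
noncomputable def DP (n : ZI) : Finset ZI := (PB (nrm n)).filter (fun d => d ∣ n)

open Classical in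
lemma mem_DP {n d : ZI} (hn : n ≠ 0) : d ∈ DP n ↔ prim d ∧ d ∣ n := by
  unfold DP
  rw [mem_filter, mem_PB]
  constructor
  · rintro ⟨⟨-, h1⟩, h2⟩
    exact ⟨h1, h2⟩
  · rintro ⟨h1, h2⟩
    exact ⟨⟨norm_le_of_dvd hn h2, h1⟩, h2⟩

lemma prim_pow {π : ZI} (h : prim π) (j : ℕ) : prim (π ^ j) := by
  induction j with
  | zero => rw [pow_zero]; exact prim_one
  | succ j ih => rw [pow_succ]; exact prim_mul ih h

lemma sum_DP_mul {π m : ZI} (hπ : PP π) (hm : prim m) (hd : ¬ π ∣ m) (k : ℕ) (h : ZI → ℝ) :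
    ∑ d ∈ DP (π ^ k * m), h d = ∑ j ∈ range (k + 1), ∑ d ∈ DP m, h (π ^ j * d) := by
  classical
  have hm0 := prim_ne_zero hm
  have hn0 : π ^ k * m ≠ 0 := mul_ne_zero (pow_ne_zero _ hπ.ne) hm0
  rw [← sum_product']
  symm
  refine sum_bij (fun x _ => π ^ x.1 * x.2) ?_ ?_ ?_ ?_
  · rintro ⟨j, d⟩ hx
    rw [mem_product, mem_range, mem_DP hm0] at hx
    rw [mem_DP hn0]
    simp only at hx ⊢
    exact ⟨prim_mul (prim_pow hπ.prm j) hx.2.1, mul_dvd_mul (pow_dvd_pow _ (by omega)) hx.2.2⟩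
  · rintro ⟨i, c⟩ hx ⟨j, d⟩ hy hxy
    rw [mem_product, mem_range, mem_DP hm0] at hx hy
    simp only at hx hy hxy
    have hc : ¬ π ∣ c := fun h => hd (h.trans hx.2.2)
    have hd' : ¬ π ∣ d := fun h => hd (h.trans hy.2.2)
    have hij : ∀ {i j : ℕ} {c d : ZI}, ¬ π ∣ d → π ^ i * c = π ^ j * d → i ≤ j := by
      intro i j c d h1 h2
      by_contra h3
      push Not at h3
      obtain ⟨t, ht⟩ := Nat.exists_eq_add_of_lt h3
      apply h1
      have h4 : π ^ j * (π * (π ^ t * c)) = π ^ j * d := by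
        rw [← h2, ht]
        ring
      have h5 := mul_left_cancel₀ (pow_ne_zero _ hπ.ne) h4
      rw [← h5]
      exact dvd_mul_right _ _
    have h1 : i = j := le_antisymm (hij hd' hxy) (hij hc hxy.symm)
    subst h1
    have h2 := mul_left_cancel₀ (pow_ne_zero _ hπ.ne) hxy
    rw [h2]
  · intro d hdn
    rw [mem_DP hn0] at hdn
    have hd0 := prim_ne_zero hdn.1
    obtain ⟨j, c, hc, hdc⟩ := WfDvdMonoid.max_power_factor hd0 hπ.pr.irreducible
    have hcp : prim c := prim_cancel (prim_pow hπ.prm j) (by rw [← hdc]; exact hdn.1)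
    have hcop : IsCoprime c (π ^ k) := by
      refine IsCoprime.pow_right ?_
      rw [isCoprime_comm]
      exact (hπ.pr.irreducible.coprime_iff_not_dvd).2 hc
    have h1 : c ∣ m := by
      refine hcop.dvd_of_dvd_mul_left ?_
      refine dvd_trans ?_ hdn.2
      rw [hdc]
      exact dvd_mul_left _ _
    have h2 : π ^ j ∣ π ^ k := by
      have h3 : IsCoprime (π ^ j) m := by
        refine IsCoprime.pow_left ?_
        exact (hπ.pr.irreducible.coprime_iff_not_dvd).2 hd
      refine h3.dvd_of_dvd_mul_right ?_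
      refine dvd_trans ?_ hdn.2
      rw [hdc]
      exact dvd_mul_right _ _
    have h3 : j ≤ k := (pow_dvd_pow_iff hπ.ne hπ.pr.not_isUnit).1 h2
    refine ⟨(j, c), ?_, hdc.symm⟩
    rw [mem_product, mem_range, mem_DP hm0]
    exact ⟨by simp only; omega, hcp, h1⟩
  · intro x _
    rfl

lemma sgn_sum {x : ℝ} (hx : x = 0 ∨ x = 1 ∨ x = -1) {k : ℕ} (hk : 1 ≤ k) :
    1 + x ≤ ∑ j ∈ range (k + 1), x ^ j := by
  rcases hx with rfl | rfl | rfl
  · rw [sum_range_succ']
    simp
  · simp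
    exact_mod_cast hk
  · have h : ∀ n : ℕ, ∑ j ∈ range n, (-1 : ℝ) ^ j = (1 - (-1) ^ n) / 2 := by
      intro n
      induction n with
      | zero => simp
      | succ n ih => rw [sum_range_succ, ih, pow_succ]; ring
    rw [h]
    rcases neg_one_pow_eq_or ℝ (k + 1) with h | h <;> rw [h] <;> norm_num

/-- comparison of the two convolutions -/
theorem conv_le {G : ZI} (hG : G ≠ 0) : ∀ n : ZI, prim n →
    mf (fun π => 1 + jac G π) n ≤ ∑ d ∈ DP n, (jac G d : ℝ) := by
  have hχ : ∀ π, (jac G π : ℝ) = 0 ∨ (jac G π : ℝ) = 1 ∨ (jac G π : ℝ) = -1 := by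
    intro π
    rcases jac_cases G π with h | h | h <;> rw [h] <;> simp
  have hnn : ∀ n, 0 ≤ mf (fun π => 1 + (jac G π : ℝ)) n := by
    intro n
    apply mf_nonneg
    intro π
    rcases hχ π with h | h | h <;> rw [h] <;> norm_num
  have key : ∀ N : ℕ, ∀ n : ZI, nrm n = N → prim n →
      mf (fun π => 1 + jac G π) n ≤ ∑ d ∈ DP n, (jac G d : ℝ) := by
    intro N
    induction N using Nat.strong_induction_on with
    | _ N ih =>
      intro n hN hn
      have hn0 := prim_ne_zero hn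
      by_cases h1 : n = 1
      · rw [h1]
        have e1 : mf (fun π => 1 + (jac G π : ℝ)) 1 = 1 := by unfold mf; rw [PD_one]; simp
        have e2 : DP (1 : ZI) = {1} := by
          ext d
          rw [mem_DP one_ne_zero, mem_singleton]
          constructor
          · rintro ⟨a1, a2⟩
            have h2 := isUnit_of_dvd_one a2
            obtain ⟨u, rfl⟩ := h2
            exact eq_one_of_prim a1 (unit_norm u)
          · rintro rfl
            exact ⟨prim_one, dvd_rfl⟩
        rw [e1, e2, sum_singleton, jac_one_right hG]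
        norm_num
      · have hnu : ¬ IsUnit n := by
          intro h2
          obtain ⟨u, hu⟩ := h2
          apply h1
          rw [← hu]
          rw [← hu] at hn
          exact eq_one_of_prim hn (unit_norm u)
        obtain ⟨ρ, hρ, hρn⟩ := WfDvdMonoid.exists_irreducible_factor hnu hn0
        obtain ⟨π, hπ, hass⟩ := exists_PP (irreducible_iff_prime.1 hρ) (odd_of_dvd hρn (prim_norm_odd hn))
        have hπn : π ∣ n := hass.dvd.trans hρn
        obtain ⟨k, m, hm, hnm⟩ := WfDvdMonoid.max_power_factor hn0 hπ.pr.irreducible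
        have hk : 1 ≤ k := by
          by_contra h2
          have : k = 0 := by omega
          rw [this, pow_zero, one_mul] at hnm
          rw [hnm] at hπn
          exact hm hπn
        have hmp : prim m := prim_cancel (prim_pow hπ.prm k) (by rw [← hnm]; exact hn)
        have hm0 := prim_ne_zero hmp
        have hlt : nrm m < N := by
          rw [← hN, hnm, nrm_mul]
          have h2 : 1 < nrm (π ^ k) := by
            have h3 : π ∣ π ^ k := dvd_pow_self π (by omega)
            have h4 : nrm π ≤ nrm (π ^ k) := norm_le_of_dvd (pow_ne_zero _ hπ.ne) h3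
            have h5 := hπ.nrm_ne_one
            have h6 := nrm_pos' hπ.ne
            omega
          have h3 := nrm_pos' hm0
          nlinarith
        have h2 := ih (nrm m) hlt m rfl hmp
        rw [hnm, sum_DP_mul hπ hmp hm]
        have e1 : mf (fun π => 1 + (jac G π : ℝ)) (π ^ k * m) =
            (1 + jac G π) * mf (fun π => 1 + (jac G π : ℝ)) m := by
          unfold mf
          classical
          have h3 : PD (π ^ k * m) = insert π (PD m) := by
            ext ρ
            rw [mem_insert, mem_PD (mul_ne_zero (pow_ne_zero _ hπ.ne) hm0), mem_PD hm0]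
            constructor
            · rintro ⟨a1, a2⟩
              rcases a1.pr.dvd_or_dvd a2 with a3 | a3
              · left
                exact a1.eq_of_dvd hπ (a1.pr.dvd_of_dvd_pow a3)
              · right
                exact ⟨a1, a3⟩
            · rintro (rfl | ⟨a1, a2⟩)
              · exact ⟨hπ, (dvd_pow_self _ (by omega)).mul_right _⟩
              · exact ⟨a1, a2.mul_left _⟩
          rw [h3, prod_insert]
          rw [mem_PD hm0]
          exact fun h4 => hm h4.2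
        rw [e1]
        have e2 : ∀ j d, (jac G (π ^ j * d) : ℝ) = (jac G π : ℝ) ^ j * jac G d := by
          intro j d
          have : ∀ j, (jac G (π ^ j) : ℤ) = (jac G π) ^ j := by
            intro j
            induction j with
            | zero => rw [pow_zero, pow_zero, jac_one_right hG]
            | succ j ih => rw [pow_succ, pow_succ, jac_mul_right hG, ih]
          rw [jac_mul_right hG, this]
          push_cast
          ring
        simp_rw [e2, ← mul_sum]
        rw [← sum_mul]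
        have h3 := sgn_sum (hχ π) hk
        have h4 : (0 : ℝ) ≤ 1 + jac G π := by
          rcases hχ π with h | h | h <;> rw [h] <;> norm_num
        exact mul_le_mul h3 h2 (hnn m) (h4.trans h3)
  intro n hn
  exact key _ n rfl hn

/-- summing the convolution -/
theorem conv_sum (χ : ZI → ℝ) (V : ℕ) : ∑ n ∈ PB V, (∑ d ∈ DP n, χ d) / nrm n =
    ∑ k ∈ PB V, (1 / (nrm k : ℝ)) * ∑ d ∈ PB (V / nrm k), χ d / nrm d := by
  classical
  have e1 : ∑ n ∈ PB V, (∑ d ∈ DP n, χ d) / nrm n =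
      ∑ x ∈ (PB V).sigma (fun n => DP n), χ x.2 / nrm x.1 := by
    rw [sum_sigma]
    refine sum_congr rfl fun n _ => ?_
    rw [sum_div]
  have e2 : ∑ k ∈ PB V, (1 / (nrm k : ℝ)) * ∑ d ∈ PB (V / nrm k), χ d / nrm d =
      ∑ x ∈ (PB V).sigma (fun k => PB (V / nrm k)), χ x.2 / nrm (x.2 * x.1) := by
    rw [sum_sigma]
    refine sum_congr rfl fun k _ => ?_
    rw [mul_sum]
    refine sum_congr rfl fun d _ => ?_
    rw [nrm_mul]
    push_cast
    rw [div_mul_div_comm, one_mul, mul_comm (nrm k : ℝ)]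
  rw [e1, e2]
  symm
  refine sum_bij (fun x _ => ⟨x.2 * x.1, x.2⟩) ?_ ?_ ?_ ?_
  · rintro ⟨k, d⟩ hx
    rw [mem_sigma, mem_PB, mem_PB] at hx
    simp only at hx ⊢
    have hk0 := prim_ne_zero hx.1.2
    have hd0 := prim_ne_zero hx.2.2
    rw [mem_sigma, mem_PB, mem_DP (mul_ne_zero hd0 hk0)]
    simp only
    refine ⟨⟨?_, prim_mul hx.2.2 hx.1.2⟩, hx.2.2, dvd_mul_right _ _⟩
    rw [nrm_mul]
    exact (Nat.le_div_iff_mul_le (nrm_pos' hk0)).1 hx.2.1
  · rintro ⟨k, d⟩ hx ⟨k', d'⟩ hy hxy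
    rw [mem_sigma, mem_PB, mem_PB] at hx hy
    simp only [Sigma.mk.injEq, heq_eq_eq] at hxy hx hy
    obtain ⟨h1, rfl⟩ := hxy
    have := mul_left_cancel₀ (prim_ne_zero hx.2.2) h1
    rw [this]
  · rintro ⟨n, d⟩ hx
    rw [mem_sigma, mem_PB] at hx
    simp only at hx
    have hn0 := prim_ne_zero hx.1.2
    rw [mem_DP hn0] at hx
    obtain ⟨⟨h1, h2⟩, h3, k, rfl⟩ := hx
    have hk : prim k := prim_cancel h3 h2
    have hk0 := prim_ne_zero hk
    have hd0 := prim_ne_zero h3
    refine ⟨⟨k, d⟩, ?_, rfl⟩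
    rw [mem_sigma, mem_PB, mem_PB]
    simp only
    rw [nrm_mul] at h1
    refine ⟨⟨(Nat.le_mul_of_pos_left _ (nrm_pos' hd0)).trans h1, hk⟩, ?_, h3⟩
    rw [Nat.le_div_iff_mul_le (nrm_pos' hk0)]
    exact h1
  · intro x _
    rfl

end Pool.Agent.Y699
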