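import Pool.Agent.Y699.Cheb

/-!
Primary primes in the interval `(P, P ^ k]`.
-/

set_option autoImplicit false

open Finset

namespace Pool.Agent.Y699

open H385 (ZI RQ im1 nrm BX)
open H385.H10 (mem_BX nrm_pos Dv mem_Dv card_Dv)
open Pool.Agent.W164.RC (two2 prim_iff_dvd unit_norm unit_cases)
open Pool.Agent.H304R2.EC.A1 (prim prim_mul prim_cancel prim_one prim_norm_odd prim_star eq_one_of_prim
  norm_def' re_mul' im_mul' eq_of_dvd prim_ne_zero exists_prim)

/-- primary primes with norm in `(P, P ^ k]` -/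
noncomputable def IB (k P : ℕ) : Finset ZI := (QB (P ^ k)).filter (fun π => P < nrm π)

lemma mem_IB {k P : ℕ} {π : ZI} : π ∈ IB k P ↔ nrm π ≤ P ^ k ∧ PP π ∧ P < nrm π := by
  unfold IB
  rw [mem_filter, mem_QB, and_assoc]

lemma natlog_le (T : ℕ) (hT : 1 ≤ T) : (Nat.log 2 T : ℝ) ≤ 2 * Real.log T := by
  have h1 : (Nat.log 2 T : ℝ) * Real.log 2 ≤ Real.log T := by
    have h2 : (2 : ℝ) ^ (Nat.log 2 T) ≤ T := by exact_mod_cast Nat.pow_log_le_self 2 (by omega)
    have h3 := Real.log_le_log (by positivity) h2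
    rwa [Real.log_pow] at h3
  have h3 := Real.log_two_gt_d9
  have : (0 : ℝ) ≤ Nat.log 2 T := Nat.cast_nonneg _
  nlinarith

/-- the exponent -/
@[irreducible] def kx : ℕ := 18720

theorem IB_lo : ∃ P0 : ℕ, ∀ P : ℕ, P0 ≤ P → (1 : ℝ) / kx ≤ ∑ π ∈ IB kx P, (1 : ℝ) / nrm π := by
  obtain ⟨V0, hV0⟩ := mert_lo
  refine ⟨max V0 (3 ^ 12), ?_⟩
  intro P hP
  have hPa : V0 ≤ P := (le_max_left _ _).trans hP
  have hPb : 3 ^ 12 ≤ P := (le_max_right _ _).trans hP
  have hP1 : 1 ≤ P := le_trans (by norm_num) hPb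
  have hk : kx ≠ 0 := by unfold kx; norm_num
  have hPk : P ≤ P ^ kx := Nat.le_self_pow hk P
  have P0 : (0 : ℝ) < P := by exact_mod_cast hP1
  have h1 := hV0 (P ^ kx) (hPa.trans hPk)
  have h2 := mert_up P
  have hlogP : 12 ≤ Real.log P := by
    have h3 : ((3 : ℝ) ^ 12) ≤ P := by exact_mod_cast hPb
    have h4 := Real.log_le_log (by positivity) h3
    rw [Real.log_pow] at h4
    have h5 : 1 ≤ Real.log 3 := by
      rw [Real.le_log_iff_exp_le (by norm_num)]
      have := Real.exp_one_lt_d9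
      linarith
    push_cast at h4
    linarith
  have h3 : Real.log ((P ^ kx : ℕ) : ℝ) = kx * Real.log P := by
    push_cast
    rw [Real.log_pow]
  rw [h3] at h1
  have h4 : (lg P : ℝ) ≤ 2 * Real.log P + 1 := by
    unfold lg
    linarith [natlog_le P hP1]
  have h5 : Real.log P ≤ ∑ π ∈ IB kx P, Real.log (nrm π) / nrm π := by
    have e1 : ∑ π ∈ QB (P ^ kx), Real.log (nrm π) / nrm π =
        ∑ π ∈ IB kx P, Real.log (nrm π) / nrm π + ∑ π ∈ QB P, Real.log (nrm π) / nrm π := by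
      unfold IB
      rw [← sum_filter_add_sum_filter_not (QB (P ^ kx)) (fun π => P < nrm π)]
      congr 1
      refine sum_congr ?_ fun _ _ => rfl
      ext π
      rw [mem_filter, mem_QB, mem_QB]
      constructor
      · rintro ⟨⟨-, a1⟩, a2⟩
        exact ⟨by omega, a1⟩
      · rintro ⟨a1, a2⟩
        exact ⟨⟨a1.trans hPk, a2⟩, by omega⟩
    rw [e1] at h1
    have e2 : ((kx : ℕ) : ℝ) * Real.log P / 720 = 26 * Real.log P := by
      unfold kx
      push_cast
      ring
    rw [e2] at h1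
    linarith
  have h6 : ∀ π ∈ IB kx P, Real.log (nrm π) / nrm π ≤ (kx * Real.log P) * (1 / nrm π) := by
    intro π hπ
    rw [mem_IB] at hπ
    have h7 : Real.log (nrm π) ≤ kx * Real.log P := by
      rw [← h3]
      apply Real.log_le_log (by exact_mod_cast nrm_pos' hπ.2.1.ne)
      exact_mod_cast hπ.1
    have h8 : (0 : ℝ) < nrm π := by exact_mod_cast nrm_pos' hπ.2.1.ne
    rw [mul_one_div]
    exact div_le_div_of_nonneg_right h7 h8.le
  have h7 := h5.trans (sum_le_sum h6)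
  rw [← mul_sum] at h7
  have hkr : (0 : ℝ) < kx := by exact_mod_cast Nat.pos_of_ne_zero hk
  rw [div_le_iff₀ hkr]
  have hl0 : 0 < Real.log P := by linarith
  nlinarith

theorem IB_up {P : ℕ} (hP : 3 ≤ P) : ∑ π ∈ IB kx P, (1 : ℝ) / nrm π ≤ 12 * (2 * kx + 1) := by
  have h1 := mert_up (P ^ kx)
  have hP1 : 1 ≤ P := by omega
  have hlogP : 1 ≤ Real.log P := by
    have h3 : (3 : ℝ) ≤ P := by exact_mod_cast hP
    have h4 := Real.log_le_log (by positivity) h3
    have h5 : 1 ≤ Real.log 3 := by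
      rw [Real.le_log_iff_exp_le (by norm_num)]
      have := Real.exp_one_lt_d9
      linarith
    linarith
  have h3 : Real.log ((P ^ kx : ℕ) : ℝ) = kx * Real.log P := by
    push_cast
    rw [Real.log_pow]
  have h4 : (lg (P ^ kx) : ℝ) ≤ 2 * (kx * Real.log P) + 1 := by
    unfold lg
    have := natlog_le (P ^ kx) (Nat.one_le_pow _ _ hP1)
    rw [h3] at this
    linarith
  have h5 : ∑ π ∈ IB kx P, Real.log P * (1 / (nrm π : ℝ)) ≤ ∑ π ∈ QB (P ^ kx), Real.log (nrm π) / nrm π := by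
    refine le_trans (sum_le_sum (g := fun π => Real.log (nrm π) / nrm π) ?_) ?_
    · intro π hπ
      rw [mem_IB] at hπ
      have h8 : (0 : ℝ) < nrm π := by exact_mod_cast nrm_pos' hπ.2.1.ne
      rw [mul_one_div]
      apply div_le_div_of_nonneg_right _ h8.le
      apply Real.log_le_log (by positivity)
      exact_mod_cast hπ.2.2.le
    · unfold IB
      exact sum_le_sum_of_subset_of_nonneg (filter_subset _ _)
        (fun π _ _ => div_nonneg (Real.log_natCast_nonneg _) (Nat.cast_nonneg _))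
  rw [← mul_sum] at h5
  have h6 : Real.log P * ∑ π ∈ IB kx P, (1 : ℝ) / nrm π ≤ Real.log P * (12 * (2 * kx + 1)) := by
    refine h5.trans (h1.trans ?_)
    have : (0 : ℝ) ≤ kx := Nat.cast_nonneg _
    nlinarith
  exact le_of_mul_le_mul_left h6 (by linarith)

end Pool.Agent.Y699
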