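import Pool.Agent.Y699.Csum

/-!
Sums of Jacobi symbols.
-/

set_option autoImplicit false

open Finset

namespace Pool.Agent.Y699

open H385 (ZI RQ im1 nrm BX)
open H385.H10 (mem_BX nrm_pos Dv mem_Dv card_Dv)
open Pool.Agent.W164.RC (two2 prim_iff_dvd unit_norm unit_cases)
open Pool.Agent.H304R2.EC.A1 (prim prim_mul prim_cancel prim_one prim_norm_odd prim_star eq_one_of_prim
  norm_def' re_mul' im_mul' eq_of_dvd prim_ne_zero exists_prim)

/-- prescribed symbols -/
lemma exists_twist {S : Finset ZI} (hS : ∀ ρ ∈ S, PP ρ) {π : ZI} (hπ : PP π) (hπS : π ∉ S) :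
    ∃ c : ZI, prim c ∧ qr π c = -1 ∧ (∀ ρ ∈ S, qr ρ c = 1) := by
  set m : ZI := two2 * ∏ ρ ∈ S, ρ with hm
  have hcop : IsCoprime π m := by
    refine IsCoprime.mul_right ?_ ?_
    · exact ((hπ.pr.irreducible.coprime_iff_not_dvd).2 (not_dvd_two2 hπ))
    · rw [IsCoprime.prod_right_iff]
      intro ρ hρ
      exact hπ.cop (hS ρ hρ) fun h => hπS (by rw [h]; exact hρ)
  obtain ⟨b, hb⟩ := exists_nonres hπ
  obtain ⟨x, y, hxy⟩ := hcop
  set a : ZI := x * π + b * (y * m) with ha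
  have ha1 : m ∣ a - 1 := ⟨b * y - y, by rw [ha]; linear_combination hxy⟩
  have ha2 : π ∣ a - b := ⟨x - b * x, by rw [ha]; linear_combination b * hxy⟩
  refine ⟨a, ?_, by rw [qr_per ha2, hb], ?_⟩
  · rw [prim_iff_dvd]
    exact (dvd_mul_right _ _).trans ha1
  · intro ρ hρ
    have h1 : ρ ∣ a - 1 := (Finset.dvd_prod_of_mem _ hρ).trans ((dvd_mul_left _ _).trans ha1)
    rw [qr_per h1, qr_one (hS ρ hρ)]

open Classical in
/-- the product of two symbols, on primary elements -/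
noncomputable def FF2 (x x' a : ZI) : ℝ := if prim a then (jac x a : ℝ) * jac x' a else 0

lemma jac_abs (n a : ZI) : |(jac n a : ℝ)| ≤ 1 := by
  rcases jac_cases n a with h | h | h <;> rw [h] <;> norm_num

lemma FF2_abs (x x' a : ZI) : |FF2 x x' a| ≤ 1 := by
  unfold FF2
  split_ifs
  · rw [abs_mul]
    exact mul_le_one₀ (jac_abs _ _) (abs_nonneg _) (jac_abs _ _)
  · simp

lemma FF2_symm (x x' a : ZI) : FF2 x x' a = FF2 x' x a := by
  unfold FF2
  rw [mul_comm]

lemma FF2_sum_aux {x x' : ZI} (hx : PS x) (hx' : PS x') {π : ZI} (h1 : π ∈ PD x) (h2 : π ∉ PD x')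
    (V : ℕ) : |∑ a ∈ ZB V, FF2 x x' a| ≤ 24 * (nrm x * nrm x') * (2 * Real.sqrt V + 1) := by
  have hq : two2 * (x * x') ≠ 0 := mul_ne_zero two2_ne (mul_ne_zero hx.ne hx'.ne)
  have hπ := ((mem_PD hx.ne).1 h1).1
  have hS : ∀ ρ ∈ (PD x).erase π ∪ PD x', PP ρ := by
    intro ρ hρ
    rw [mem_union] at hρ
    rcases hρ with h | h
    · exact ((mem_PD hx.ne).1 (mem_of_mem_erase h)).1
    · exact ((mem_PD hx'.ne).1 h).1
  obtain ⟨c, hc1, hc2, hc3⟩ := exists_twist hS hπ (by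
    rw [mem_union, not_or]
    exact ⟨notMem_erase _ _, h2⟩)
  have hjx : jac x c = -1 := by
    unfold jac
    rw [← mul_prod_erase (PD x) _ h1, hc2, prod_eq_one, mul_one]
    intro ρ hρ
    exact hc3 ρ (mem_union_left _ hρ)
  have hjx' : jac x' c = 1 := prod_eq_one fun ρ hρ => hc3 ρ (mem_union_right _ hρ)
  have hcop : IsCoprime c (two2 * (x * x')) := by
    have hcP : ∀ n : ZI, PS n → jac n c ≠ 0 → IsCoprime c n := by
      intro n hn hj
      have h3 : ∏ π ∈ PD n, π = n := hn.prod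
      rw [← h3, IsCoprime.prod_right_iff]
      intro ρ hρ
      have hρP := ((mem_PD hn.ne).1 hρ).1
      rw [isCoprime_comm, hρP.pr.irreducible.coprime_iff_not_dvd]
      intro hd
      exact hj (prod_eq_zero hρ (qr_zero_iff.2 hd))
    refine IsCoprime.mul_right ?_ (IsCoprime.mul_right (hcP x hx (by rw [hjx]; norm_num))
      (hcP x' hx' (by rw [hjx']; norm_num)))
    have h3 := (prim_iff_dvd c).1 hc1
    obtain ⟨k, hk⟩ := h3
    exact ⟨1, -k, by linear_combination hk⟩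
  have h3 := csum hq (f := FF2 x x') ?_ (FF2_abs x x') hcop ?_ V
  · refine h3.trans (le_of_eq ?_)
    rw [nrm_mul, nrm_mul]
    have : nrm two2 = 8 := by decide
    rw [this]
    push_cast
    ring
  · intro a b hab
    unfold FF2
    have e1 : two2 ∣ a - b := (dvd_mul_right _ _).trans hab
    have e2 : x ∣ a - b := ((dvd_mul_right _ _).trans (dvd_mul_left _ _)).trans hab
    have e3 : x' ∣ a - b := ((dvd_mul_left _ _).trans (dvd_mul_left _ _)).trans hab
    have e4 : prim a ↔ prim b := by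
      rw [prim_iff_dvd, prim_iff_dvd]
      constructor
      · intro h
        have := dvd_sub h e1
        have e : a - 1 - (a - b) = b - 1 := by ring
        rwa [e] at this
      · intro h
        have := dvd_add h e1
        have e : b - 1 + (a - b) = a - 1 := by ring
        rwa [e] at this
    rw [jac_per hx.ne e2, jac_per hx'.ne e3]
    by_cases h : prim a
    · rw [if_pos h, if_pos (e4.1 h)]
    · rw [if_neg h, if_neg (fun hh => h (e4.2 hh))]
  · intro a
    unfold FF2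
    have e4 : prim (c * a) ↔ prim a :=
      ⟨fun h => prim_cancel hc1 h, fun h => prim_mul hc1 h⟩
    by_cases h : prim a
    · rw [if_pos h, if_pos (e4.2 h), jac_mul_right hx.ne, jac_mul_right hx'.ne, hjx, hjx']
      push_cast
      ring
    · rw [if_neg h, if_neg (fun hh => h (e4.1 hh)), neg_zero]

theorem FF2_sum {x x' : ZI} (hx : PS x) (hx' : PS x') (hne : x ≠ x') (V : ℕ) :
    |∑ a ∈ ZB V, FF2 x x' a| ≤ 24 * (nrm x * nrm x') * (2 * Real.sqrt V + 1) := by
  have h1 : PD x ≠ PD x' := by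
    intro h
    apply hne
    rw [← hx.prod, ← hx'.prod, h]
  by_cases h2 : PD x ⊆ PD x'
  · have h3 : ¬ PD x' ⊆ PD x := fun h => h1 (Subset.antisymm h2 h)
    obtain ⟨π, hπ, hπ'⟩ := not_subset.1 h3
    have := FF2_sum_aux hx' hx hπ hπ' V
    simp_rw [FF2_symm x x']
    rw [mul_comm (nrm x : ℝ)]
    exact this
  · obtain ⟨π, hπ, hπ'⟩ := not_subset.1 h2
    exact FF2_sum_aux hx hx' hπ hπ' V

open Classical in
/-- primary squarefree elements of norm at most `M` -/
noncomputable def SB (M : ℕ) : Finset ZI := (ZB M).filter PS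

open Classical in
/-- primary elements of norm at most `M` -/
noncomputable def PB (M : ℕ) : Finset ZI := (ZB M).filter prim

open Classical in
lemma mem_SB {M : ℕ} {x : ZI} : x ∈ SB M ↔ nrm x ≤ M ∧ PS x := by
  unfold SB; rw [mem_filter, mem_ZB]

open Classical in
lemma mem_PB {M : ℕ} {x : ZI} : x ∈ PB M ↔ nrm x ≤ M ∧ prim x := by
  unfold PB; rw [mem_filter, mem_ZB]

open Classical in
lemma card_SB_le {M : ℕ} (hM : 1 ≤ M) : ((SB M).card : ℝ) ≤ 9 * M := by
  refine le_trans ?_ (card_ZB_le hM)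
  exact_mod_cast card_le_card (filter_subset _ _)

open Classical in
lemma card_PB_le {M : ℕ} (hM : 1 ≤ M) : ((PB M).card : ℝ) ≤ 9 * M := by
  refine le_trans ?_ (card_ZB_le hM)
  exact_mod_cast card_le_card (filter_subset _ _)

/-- the mean square -/
theorem mean_sq {γ : ZI → ℝ} (hγ : ∀ x, |γ x| ≤ 1) {M N : ℕ} (hM : 1 ≤ M) (hMN : M ^ 6 ≤ N) :
    ∑ h ∈ PB N, (∑ x ∈ SB M, γ x * jac x h) ^ 2 ≤ 5913 * (M * N) := by
  have hN : 1 ≤ N := (Nat.one_le_pow _ _ hM).trans hMN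
  have hMr : (1 : ℝ) ≤ M := by exact_mod_cast hM
  have hNr : (1 : ℝ) ≤ N := by exact_mod_cast hN
  have e1 : ∑ h ∈ PB N, (∑ x ∈ SB M, γ x * jac x h) ^ 2 =
      ∑ x ∈ SB M, ∑ x' ∈ SB M, γ x * γ x' * ∑ h ∈ ZB N, FF2 x x' h := by
    have e2 : ∀ h ∈ PB N, (∑ x ∈ SB M, γ x * jac x h) ^ 2 =
        ∑ x ∈ SB M, ∑ x' ∈ SB M, γ x * γ x' * (jac x h * jac x' h) := by
      intro h _
      rw [sq, sum_mul_sum]
      refine sum_congr rfl fun x _ => sum_congr rfl fun x' _ => by ring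
    rw [sum_congr rfl e2, sum_comm]
    refine sum_congr rfl fun x _ => ?_
    rw [sum_comm]
    refine sum_congr rfl fun x' _ => ?_
    rw [← mul_sum]
    congr 1
    unfold PB FF2
    rw [sum_filter]
  rw [e1]
  have hs : Real.sqrt N ^ 2 = N := Real.sq_sqrt (Nat.cast_nonneg N)
  have hs1 : 1 ≤ Real.sqrt N := Real.one_le_sqrt.2 hNr
  have hM3 : (M : ℝ) ^ 3 ≤ Real.sqrt N := by
    rw [Real.le_sqrt (by positivity) (by positivity)]
    have : (M : ℝ) ^ 6 ≤ N := by exact_mod_cast hMN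
    have e : ((M : ℝ) ^ 3) ^ 2 = (M : ℝ) ^ 6 := by ring
    rw [e]
    exact this
  have hterm : ∀ x ∈ SB M, ∀ x' ∈ SB M, γ x * γ x' * ∑ h ∈ ZB N, FF2 x x' h ≤
      (if x = x' then 9 * (N : ℝ) else 0) + 24 * ((M : ℝ) * M) * (2 * Real.sqrt N + 1) := by
    intro x hx x' hx'
    have hg : |γ x * γ x'| ≤ 1 := by
      rw [abs_mul]
      exact mul_le_one₀ (hγ _) (abs_nonneg _) (hγ _)
    have h1 : γ x * γ x' * ∑ h ∈ ZB N, FF2 x x' h ≤ |∑ h ∈ ZB N, FF2 x x' h| := by
      refine (le_abs_self _).trans ?_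
      rw [abs_mul]
      exact mul_le_of_le_one_left (abs_nonneg _) hg
    refine h1.trans ?_
    have hpos : (0 : ℝ) ≤ 24 * ((M : ℝ) * M) * (2 * Real.sqrt N + 1) := by positivity
    by_cases hxx : x = x'
    · rw [if_pos hxx]
      refine le_trans ?_ (le_add_of_nonneg_right hpos)
      refine (abs_sum_le_sum_abs _ _).trans ((sum_le_sum fun h _ => FF2_abs _ _ _).trans ?_)
      rw [sum_const, nsmul_eq_mul, mul_one]
      exact card_ZB_le hN
    · rw [if_neg hxx, zero_add]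
      refine (FF2_sum (mem_SB.1 hx).2 (mem_SB.1 hx').2 hxx N).trans ?_
      have a1 : (nrm x : ℝ) ≤ M := by exact_mod_cast (mem_SB.1 hx).1
      have a2 : (nrm x' : ℝ) ≤ M := by exact_mod_cast (mem_SB.1 hx').1
      have a3 : (nrm x : ℝ) * nrm x' ≤ M * M := mul_le_mul a1 a2 (Nat.cast_nonneg _) (by positivity)
      gcongr
  refine (sum_le_sum fun x hx => sum_le_sum fun x' hx' => hterm x hx x' hx').trans ?_
  have hc := card_SB_le hM
  have e3 : ∑ x ∈ SB M, ∑ x' ∈ SB M, ((if x = x' then 9 * (N : ℝ) else 0) +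
      24 * ((M : ℝ) * M) * (2 * Real.sqrt N + 1)) =
      (SB M).card * (9 * N) + (SB M).card * ((SB M).card * (24 * ((M : ℝ) * M) * (2 * Real.sqrt N + 1))) := by
    simp_rw [sum_add_distrib, sum_const, nsmul_eq_mul]
    congr 1
    rw [sum_congr rfl (fun x hx => by rw [sum_ite_eq, if_pos hx])]
    rw [sum_const, nsmul_eq_mul]
  rw [e3]
  have hc0 : (0 : ℝ) ≤ (SB M).card := Nat.cast_nonneg _
  have h4 : ((SB M).card : ℝ) * (SB M).card ≤ (9 * M) * (9 * M) := mul_le_mul hc hc hc0 (by positivity)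
  have h5 : (M : ℝ) ^ 3 * (2 * Real.sqrt N + 1) ≤ 3 * N := by
    calc (M : ℝ) ^ 3 * (2 * Real.sqrt N + 1) ≤ Real.sqrt N * (3 * Real.sqrt N) := by
          apply mul_le_mul hM3 _ (by positivity) (by positivity)
          linarith
      _ = 3 * N := by nlinarith
  calc (SB M).card * (9 * (N : ℝ)) + (SB M).card * ((SB M).card * (24 * ((M : ℝ) * M) * (2 * Real.sqrt N + 1)))
      ≤ (9 * M) * (9 * N) + (9 * M) * (9 * M) * (24 * ((M : ℝ) * M) * (2 * Real.sqrt N + 1)) := by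
        rw [← mul_assoc ((SB M).card : ℝ) ((SB M).card : ℝ)]
        gcongr
    _ = 81 * (M * N) + 1944 * (M * ((M : ℝ) ^ 3 * (2 * Real.sqrt N + 1))) := by ring
    _ ≤ 81 * (M * N) + 1944 * (M * (3 * N)) := by gcongr
    _ = 5913 * (M * N) := by ring

end Pool.Agent.Y699
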