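import Pool.Agent.Y699.Pr

/-!
The number of kernel elements as a character sum.
-/

set_option autoImplicit false

open Finset

namespace Pool.Agent.Y699

open H385 (ZI RQ im1 nrm BX)
open H385.H10 (mem_BX nrm_pos Dv mem_Dv card_Dv)
open Pool.Agent.W164.RC (two2 prim_iff_dvd unit_norm unit_cases)
open Pool.Agent.H304R2.EC.A1 (prim prim_mul prim_cancel prim_one prim_norm_odd prim_star eq_one_of_prim
  norm_def' re_mul' im_mul' eq_of_dvd prim_ne_zero exists_prim)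

/-- the kernel condition -/
def Cond (m p q : ZI) (S : Finset ZI) : Prop :=
  (∀ π ∈ S, qr π ((∏ ρ ∈ PD m \ S, ρ) * (p * q)) = 1) ∧ (∀ π ∈ PD m \ S, qr π (∏ ρ ∈ S, ρ) = 1) ∧
  qr p (∏ ρ ∈ S, ρ) = 1 ∧ qr q (∏ ρ ∈ S, ρ) = 1

open Classical in
/-- the number of kernel elements -/
noncomputable def K1 (m p q : ZI) : ℝ := (((PD m).powerset.filter (Cond m p q)).card : ℝ)

/-- the summand -/
noncomputable def G1 (p q a b c e : ZI) : ℝ :=
  (1 / 4) * ((jac a p : ℝ) * jac a q + jac b p * jac b q + jac a q * jac b p + jac a p * jac b q) *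
    (wt2 a * wt2 b * wt2 c * wt2 e * (jac a e * jac b c))

lemma half_sign {z : ℤ} (h : z = 1 ∨ z = -1) :
    (1 / 2 : ℝ) * z + 1 / 2 = if z = 1 then 1 else 0 := by
  rcases h with rfl | rfl <;> norm_num

lemma jac_sq {a x : ZI} (ha : PS a) (h : IsCoprime a x) : (jac a x : ℝ) ^ 2 = 1 := by
  have := jac_ne_zero ha h
  rcases jac_cases a x with h1 | h1 | h1
  · exact absurd h1 this
  · rw [h1]; norm_num
  · rw [h1]; norm_num

lemma prod_half {S : Finset ZI} (hS : ∀ π ∈ S, PP π) (x : ZI) :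
    ∏ π ∈ S, ((1 / 2 : ℝ) * qr π x + 1 / 2) = ∑ A ∈ S.powerset,
      wt2 (∏ π ∈ A, π) * jac (∏ π ∈ A, π) x * wt2 (∏ π ∈ S \ A, π) := by
  classical
  rw [prod_add]
  refine sum_congr rfl fun A hA => ?_
  have hA' : ∀ π ∈ A, PP π := fun π hπ => hS π (mem_powerset.1 hA hπ)
  have hA'' : ∀ π ∈ S \ A, PP π := fun π hπ => hS π (mem_sdiff.1 hπ).1
  unfold wt2
  rw [mf_prod hA', mf_prod hA'', prod_mul_distrib]
  unfold jac
  rw [(PS_prod hA').2]
  push_cast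
  ring

/-- the pointwise identity -/
theorem G1_sum {m p q : ZI} (hm : PS (m * (p * q))) (hmp : prim m) (hp : PP p) (hq : PP q)
    {S : Finset ZI} (hS : S ⊆ PD m) :
    ∑ A ∈ S.powerset, ∑ C ∈ (PD m \ S).powerset,
      G1 p q (∏ π ∈ A, π) (∏ π ∈ S \ A, π) (∏ π ∈ C, π) (∏ π ∈ (PD m \ S) \ C, π) =
    open Classical in (if Cond m p q S then (1 : ℝ) else 0) := by
  classical
  have hpq : prim (p * q) := prim_mul hp.prm hq.prm
  obtain ⟨pm, ppq, cm⟩ := (PS.mul_iff hmp hpq).1 hm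
  obtain ⟨-, -, cpq⟩ := (PS.mul_iff hp.prm hq.prm).1 ppq
  have cmp : IsCoprime m p := cm.of_mul_right_left
  have cmq : IsCoprime m q := cm.of_mul_right_right
  have hm0 := pm.ne
  have hPD : ∀ π ∈ PD m, PP π := fun π hπ => ((mem_PD hm0).1 hπ).1
  have hSP : ∀ π ∈ S, PP π := fun π hπ => hPD π (hS hπ)
  have hSP' : ∀ π ∈ PD m \ S, PP π := fun π hπ => hPD π (mem_sdiff.1 hπ).1
  set d := ∏ π ∈ S, π with hd
  set n := ∏ π ∈ PD m \ S, π with hn
  have hdn : d * n = m := by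
    rw [hd, hn, mul_comm, prod_sdiff hS]
    exact pm.prod
  obtain ⟨pd, pn⟩ := (PS_prod hSP)
  obtain ⟨pd', pn'⟩ := (PS_prod hSP')
  rw [← hd] at pd pn
  rw [← hn] at pd' pn'
  have cdn : IsCoprime d n := by
    have : PS (d * n) := by rw [hdn]; exact pm
    exact ((PS.mul_iff pd.prm pd'.prm).1 this).2.2
  have cdp : IsCoprime d p := cmp.of_isCoprime_of_dvd_left ⟨n, hdn.symm⟩
  have cdq : IsCoprime d q := cmq.of_isCoprime_of_dvd_left ⟨n, hdn.symm⟩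
  have cnp : IsCoprime n p := cmp.of_isCoprime_of_dvd_left ⟨d, by rw [mul_comm, hdn]⟩
  have cnq : IsCoprime n q := cmq.of_isCoprime_of_dvd_left ⟨d, by rw [mul_comm, hdn]⟩
  -- signs
  have sgn : ∀ {π x : ZI}, PP π → IsCoprime π x → qr π x = 1 ∨ qr π x = -1 := by
    intro π x hπ hx
    apply qr_cases
    intro h
    exact hπ.pr.not_isUnit (hx.isUnit_of_dvd' dvd_rfl h)
  have s1 : ∀ π ∈ S, qr π (n * (p * q)) = 1 ∨ qr π (n * (p * q)) = -1 := by
    intro π hπ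
    have hπd : π ∣ d := dvd_prod_of_mem _ hπ
    refine sgn (hSP π hπ) ?_
    exact (cdn.mul_right (cdp.mul_right cdq)).of_isCoprime_of_dvd_left hπd
  have s2 : ∀ π ∈ PD m \ S, qr π d = 1 ∨ qr π d = -1 := by
    intro π hπ
    have hπd : π ∣ n := dvd_prod_of_mem _ hπ
    refine sgn (hSP' π hπ) ?_
    exact cdn.symm.of_isCoprime_of_dvd_left hπd
  have s3 := sgn hp cdp.symm
  have s4 := sgn hq cdq.symm
  have e1 : (if Cond m p q S then (1 : ℝ) else 0) =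
      (∏ π ∈ S, ((1 / 2 : ℝ) * qr π (n * (p * q)) + 1 / 2)) * (∏ π ∈ PD m \ S, ((1 / 2 : ℝ) * qr π d + 1 / 2)) *
      (((1 / 2 : ℝ) * qr p d + 1 / 2) * ((1 / 2 : ℝ) * qr q d + 1 / 2)) := by
    rw [prod_congr rfl (fun π hπ => half_sign (s1 π hπ)), prod_congr rfl (fun π hπ => half_sign (s2 π hπ)),
      half_sign s3, half_sign s4, prod_boole, prod_boole]
    unfold Cond
    rw [← hd, ← hn]
    by_cases c1 : ∀ π ∈ S, qr π (n * (p * q)) = 1
    · by_cases c2 : ∀ π ∈ PD m \ S, qr π d = 1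
      · by_cases c3 : qr p d = 1
        · by_cases c4 : qr q d = 1
          · rw [if_pos ⟨c1, c2, c3, c4⟩, if_pos c1, if_pos c2, if_pos c3, if_pos c4]; norm_num
          · rw [if_neg (fun h => c4 h.2.2.2), if_neg c4]; norm_num
        · rw [if_neg (fun h => c3 h.2.2.1), if_neg c3]; norm_num
      · rw [if_neg (fun h => c2 h.2.1), if_neg c2]; norm_num
    · rw [if_neg (fun h => c1 h.1), if_neg c1]; norm_num
  rw [e1, prod_half hSP, prod_half hSP', sum_mul_sum, sum_mul]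
  refine sum_congr rfl fun A hA => ?_
  rw [sum_mul]
  refine sum_congr rfl fun C hC => ?_
  rw [mem_powerset] at hA hC
  have hAP : ∀ π ∈ A, PP π := fun π hπ => hSP π (hA hπ)
  have hAP' : ∀ π ∈ S \ A, PP π := fun π hπ => hSP π (mem_sdiff.1 hπ).1
  have hCP : ∀ π ∈ C, PP π := fun π hπ => hSP' π (hC hπ)
  have hCP' : ∀ π ∈ (PD m \ S) \ C, PP π := fun π hπ => hSP' π (mem_sdiff.1 hπ).1
  obtain ⟨pa, -⟩ := PS_prod hAP
  obtain ⟨pb, -⟩ := PS_prod hAP'
  obtain ⟨pc, -⟩ := PS_prod hCP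
  obtain ⟨pe, -⟩ := PS_prod hCP'
  have hab : (∏ π ∈ A, π) * (∏ π ∈ S \ A, π) = d := by rw [mul_comm, prod_sdiff hA]
  have hce : (∏ π ∈ C, π) * (∏ π ∈ (PD m \ S) \ C, π) = n := by rw [mul_comm, prod_sdiff hC]
  set a := ∏ π ∈ A, π
  set b := ∏ π ∈ S \ A, π
  set c := ∏ π ∈ C, π
  set e := ∏ π ∈ (PD m \ S) \ C, π
  have ad : a ∣ d := ⟨b, hab.symm⟩
  have bd : b ∣ d := ⟨a, by rw [mul_comm]; exact hab.symm⟩
  have cn : c ∣ n := ⟨e, hce.symm⟩
  have cac : IsCoprime a c := (cdn.of_isCoprime_of_dvd_left ad).of_isCoprime_of_dvd_right cn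
  have cap : IsCoprime a p := cdp.of_isCoprime_of_dvd_left ad
  have caq : IsCoprime a q := cdq.of_isCoprime_of_dvd_left ad
  have j1 : (jac a (n * (p * q)) : ℝ) = jac a c * jac a e * (jac a p * jac a q) := by
    rw [← hce, jac_mul_right pa.ne, jac_mul_right pa.ne, jac_mul_right pa.ne]
    push_cast
    ring
  have j2 : (jac c d : ℝ) = jac a c * jac b c := by
    rw [← hab, jac_mul_right pc.ne, jac_rec pc pa, jac_rec pc pb]
    push_cast
    ring
  have j3 : (qr p d : ℝ) = jac a p * jac b p := by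
    rw [← jac_prime hp, ← hab, jac_mul_right hp.ne, jac_rec hp.ps pa, jac_rec hp.ps pb]
    push_cast
    ring
  have j4 : (qr q d : ℝ) = jac a q * jac b q := by
    rw [← jac_prime hq, ← hab, jac_mul_right hq.ne, jac_rec hq.ps pa, jac_rec hq.ps pb]
    push_cast
    ring
  have q1 := jac_sq pa cap
  have q2 := jac_sq pa caq
  have q3 := jac_sq pa cac
  rw [j1, j2, j3, j4]
  unfold G1
  generalize (jac a p : ℝ) = x1 at *
  generalize (jac a q : ℝ) = x2 at *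
  generalize (jac a c : ℝ) = x7 at *
  have : wt2 a * (x7 * (jac a e : ℝ) * (x1 * x2)) * wt2 b * (wt2 c * (x7 * (jac b c : ℝ)) * wt2 e) *
      ((1 / 2 * (x1 * (jac b p : ℝ)) + 1 / 2) * (1 / 2 * (x2 * (jac b q : ℝ)) + 1 / 2)) =
      (1 / 4) * (wt2 a * wt2 b * wt2 c * wt2 e * ((jac a e : ℝ) * jac b c)) * (x7 ^ 2) *
      (x1 * x2 + (x1 ^ 2) * x2 * jac b p + x1 * (x2 ^ 2) * jac b q + (x1 ^ 2) * (x2 ^ 2) * jac b p * jac b q) := by
    ring
  rw [this, q1, q2, q3]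
  ring

/-- **the average as a sum over factorisations** -/
theorem K1_sum {p q : ZI} (hp : PP p) (hq : PP q) (X : ℕ) :
    ∑ m ∈ SB X, Ph X (m * (p * q)) * K1 m p q =
      ∑ a ∈ SB X, ∑ b ∈ SB X, ∑ c ∈ SB X, ∑ e ∈ SB X,
        Ph X (a * b * c * e * (p * q)) * G1 p q a b c e := by
  classical
  have hpq : prim (p * q) := prim_mul hp.prm hq.prm
  -- the sum over c, e
  have e1 : ∀ a ∈ SB X, ∀ b ∈ SB X, ∑ c ∈ SB X, ∑ e ∈ SB X, Ph X (a * b * c * e * (p * q)) * G1 p q a b c e =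
      ∑ n ∈ SB X, Ph X (a * b * (n * (p * q))) * ∑ C ∈ (PD n).powerset,
        G1 p q a b (∏ π ∈ C, π) (∏ π ∈ PD n \ C, π) := by
    intro a ha b hb
    rw [mem_SB] at ha hb
    have hr : prim (a * b * (p * q)) := prim_mul (prim_mul ha.2.prm hb.2.prm) hpq
    have h1 := pr_sum (X := X) (Φ := fun n => Ph X (n * (a * b * (p * q)))) (Ph_r hr)
      (fun c e => G1 p q a b c e)
    have h2 : ∀ n, n * (a * b * (p * q)) = a * b * (n * (p * q)) := fun n => by ring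
    have h3 : ∀ c e, c * e * (a * b * (p * q)) = a * b * c * e * (p * q) := fun c e => by ring
    simp only [h2] at h1
    rw [← h1]
    refine sum_congr rfl fun c _ => sum_congr rfl fun e _ => ?_
    rw [← h2, h3]
  rw [sum_congr rfl (fun a ha => sum_congr rfl (fun b hb => e1 a ha b hb))]
  -- move n outside
  have e2 : ∑ a ∈ SB X, ∑ b ∈ SB X, ∑ n ∈ SB X, Ph X (a * b * (n * (p * q))) * ∑ C ∈ (PD n).powerset,
        G1 p q a b (∏ π ∈ C, π) (∏ π ∈ PD n \ C, π) =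
      ∑ n ∈ SB X, ∑ a ∈ SB X, ∑ b ∈ SB X, Ph X (a * b * (n * (p * q))) * ∑ C ∈ (PD n).powerset,
        G1 p q a b (∏ π ∈ C, π) (∏ π ∈ PD n \ C, π) := by
    rw [sum_congr rfl (fun a _ => sum_comm), sum_comm]
  rw [e2]
  have e3 : ∀ n ∈ SB X, ∑ a ∈ SB X, ∑ b ∈ SB X, Ph X (a * b * (n * (p * q))) * (∑ C ∈ (PD n).powerset,
        G1 p q a b (∏ π ∈ C, π) (∏ π ∈ PD n \ C, π)) =
      ∑ d ∈ SB X, Ph X (d * n * (p * q)) * ∑ A ∈ (PD d).powerset, ∑ C ∈ (PD n).powerset,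
        G1 p q (∏ π ∈ A, π) (∏ π ∈ PD d \ A, π) (∏ π ∈ C, π) (∏ π ∈ PD n \ C, π) := by
    intro n hn
    rw [mem_SB] at hn
    have h1 := pr_sum (X := X) (Φ := fun d => Ph X (d * (n * (p * q)))) (Ph_r (prim_mul hn.2.prm hpq))
      (fun a b => ∑ C ∈ (PD n).powerset, G1 p q a b (∏ π ∈ C, π) (∏ π ∈ PD n \ C, π))
    rw [h1]
    refine sum_congr rfl fun d _ => ?_
    rw [mul_assoc d n]
  rw [sum_congr rfl e3, sum_comm]
  have h1 := pr_sum (X := X) (Φ := fun m => Ph X (m * (p * q))) (Ph_r hpq)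
      (fun d n => ∑ A ∈ (PD d).powerset, ∑ C ∈ (PD n).powerset,
        G1 p q (∏ π ∈ A, π) (∏ π ∈ PD d \ A, π) (∏ π ∈ C, π) (∏ π ∈ PD n \ C, π))
  rw [h1]
  refine sum_congr rfl fun m hm => ?_
  by_cases h0 : Ph X (m * (p * q)) = 0
  · rw [h0, zero_mul, zero_mul]
  · congr 1
    obtain ⟨h2, -, -⟩ := Ph_ne h0
    have hm' := (mem_SB.1 hm).2
    unfold K1
    rw [← sum_boole]
    refine sum_congr rfl fun S hS => ?_
    rw [mem_powerset] at hS
    have hSP : ∀ π ∈ S, PP π := fun π hπ => ((mem_PD hm'.ne).1 (hS hπ)).1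
    have hSP' : ∀ π ∈ PD m \ S, PP π := fun π hπ => ((mem_PD hm'.ne).1 (mem_sdiff.1 hπ).1).1
    rw [(PS_prod hSP).2, (PS_prod hSP').2]
    exact (G1_sum h2 hm'.prm hp hq hS).symm

end Pool.Agent.Y699
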