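import Pool.Agent.Y699.Reg2

/-!
The recursion for the limits of the regularized sums.
-/

set_option autoImplicit false
set_option linter.unusedSectionVars false

open Filter Complex
open scoped Topology PeriodPair
open H667R3 hiding sq
open Pool.Agent.TH936.CM Pool.Agent.W192.HK

namespace Pool.Agent.Y699

open H385 (ZI RQ im1 nrm)
open Pool.Agent.H304R3.HK (tc)
open Pool.Agent.W164.RC (tc_mul tc_star two2 prim_iff_dvd)
open Pool.Agent.H304R2.EC.A1 (prim prim_mul prim_cancel prim_one prim_norm_odd prim_star eq_one_of_prim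
  norm_def' re_mul' im_mul' eq_of_dvd prim_ne_zero)

variable {L : PeriodPair} {Ω : ℂ} {ι : Type} [DecidableEq ι] {pr : ι → ZI}

lemma prim_cop {D : ZI} (hD : prim D) : IsCoprime D pi1 := by
  obtain ⟨c, hc⟩ := (prim_iff_dvd D).1 hD
  have e : two2 = pi1 * 2 := by decide
  exact ⟨1, -(2 * c), by rw [e] at hc; linear_combination hc⟩

lemma zq_notMem (h : GLat L Ω) {D t : ZI} (hD : D ≠ 0) (ht : ¬ D ∣ t) : zq Ω D t ∉ L.lattice :=
  div_notMem h.lat hD ht

lemma zq_OT (h : GLat L Ω) {D t : ZI} (hD : prim D) (ht : ¬ D ∣ t) : OT L (zq Ω D t) := by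
  refine ⟨zq_notMem h (prim_ne_zero hD) ht, D, prim_cop hD, ?_⟩
  refine (mem_lat h.lat).2 ⟨t, ?_⟩
  unfold zq
  have := tc_ne (prim_ne_zero hD)
  field_simp

lemma dz_D (h : GLat L Ω) {D : ZI} (hD : prim D) : tc D * dz Ω ∉ L.lattice := by
  have h1 : ¬ two2 ∣ D := by
    intro h'
    have h2 := (prim_iff_dvd D).1 hD
    have h3 := dvd_sub h' h2
    rw [sub_sub_cancel] at h3
    exact not_dvd_one_of (by decide) (by decide) h3
  have h2 := div_notMem h.lat two2_ne h1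
  have e : tc D * dz Ω = Ω * tc D / tc two2 := by
    rw [dz_eq, tc_one]; ring
  rwa [e]

lemma dz_add (h : GLat L Ω) {D : ZI} (hD : prim D) (t : ZI) : dz Ω + zq Ω D t ∉ L.lattice := by
  intro h'
  apply dz_D h hD
  have h1 := lat_mul h.lat D h'
  have h2 : Ω * tc t ∈ L.lattice := (mem_lat h.lat).2 ⟨t, rfl⟩
  have h3 := sub_mem h1 h2
  have e : tc D * (dz Ω + zq Ω D t) - Ω * tc t = tc D * dz Ω := by
    unfold zq
    have := tc_ne (prim_ne_zero hD)
    field_simp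
    ring
  rwa [e] at h3

lemma zq_neg (D t : ZI) : zq Ω D (-t) = -zq Ω D t := by
  unfold zq
  rw [tc_neg]
  ring

/-- the value at the point of order `2 + 2 i` -/
noncomputable def Est (L : PeriodPair) (Ω : ℂ) : ℂ := -℘'[L] (dz Ω) / (4 * ℘[L] (dz Ω))

lemma C1_cases (V : Finset ι) (t : ZI) : C1 pr V t = 0 ∨ (C1 pr V t = 1 ∧ ∀ i ∈ V, qr (pr i) t = 1) := by
  unfold C1
  by_cases h : ∀ i ∈ V, qr (pr i) t = 1
  · rw [if_pos h]; exact Or.inr ⟨rfl, h⟩
  · rw [if_neg h]; exact Or.inl rfl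

lemma not_dvd_of_C1 {V : Finset ι} (hV : V.Nonempty) {t : ZI} (h : ∀ i ∈ V, qr (pr i) t = 1) :
    ¬ DD pr V ∣ t := by
  intro h'
  obtain ⟨i, hi⟩ := hV
  have h1 := qr_zero_iff.2 ((dvd_DD hi).trans h')
  rw [h i hi] at h1
  exact one_ne_zero h1

lemma out_neg (D : ZI) (q : RQ D) : D ∣ (-q).out - (-q.out) := by
  have h1 : Ideal.Quotient.mk (Ideal.span {D}) ((-q).out - (-q.out)) = 0 := by
    rw [map_sub, map_neg, Ideal.Quotient.mk_out, Ideal.Quotient.mk_out, sub_self]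
  rwa [Ideal.Quotient.eq_zero_iff_mem, Ideal.mem_span_singleton] at h1

/-- the combination of values -/
noncomputable def QV (L : PeriodPair) (Ω : ℂ) (pr : ι → ZI) (V : Finset ι)
    [Fintype (RQ (DD pr V))] : ℂ :=
  ∑ q : RQ (DD pr V), C1 pr V q.out * ((1 / 2) * Dd L (dz Ω) (zq Ω (DD pr V) q.out) + Est L Ω)

theorem lim_kk (h : GLat L Ω) (hp : PF pr) {V : Finset ι} (hV : V.Nonempty)
    [Fintype (RQ (DD pr V))] : Tendsto (RS (kk pr V)) (𝓝[>] 0)
      (𝓝 (Ω / (tc (DD pr V) * tc two2) * QV L Ω pr V)) := by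
  have hD := DD_prim hp V
  have hD0 := prim_ne_zero hD
  have hDc := tc_ne hD0
  have h2c := tc_ne two2_ne
  have hΩ := h.lat.ne
  have hc : 0 < Complex.normSq (tc (DD pr V) * tc two2 / Ω) :=
    Complex.normSq_pos.2 (div_ne_zero (mul_ne_zero hDc h2c) hΩ)
  have hE : Tendsto (fun δ : ℝ => EG Ω δ (dz Ω)) (𝓝[>] 0) (𝓝 (Est L Ω)) := lim_dz h
  have key : Tendsto (fun δ : ℝ => ∑ q : RQ (DD pr V), C1 pr V q.out *
      ((1 / 2) * (EG Ω δ (dz Ω + zq Ω (DD pr V) q.out) + EG Ω δ (dz Ω - zq Ω (DD pr V) q.out))))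
      (𝓝[>] 0) (𝓝 (QV L Ω pr V)) := by
    unfold QV
    refine tendsto_finsetSum _ fun q _ => ?_
    rcases C1_cases V q.out with h1 | ⟨h1, h2⟩
    · rw [h1]
      simp only [zero_mul]
      exact tendsto_const_nhds
    · refine Tendsto.const_mul _ ?_
      have n1 := zq_notMem h hD0 (not_dvd_of_C1 hV h2)
      have n2 := dz_add h hD q.out
      have n3 : dz Ω - zq Ω (DD pr V) q.out ∉ L.lattice := by
        have := dz_add h hD (-q.out)
        rwa [zq_neg, ← sub_eq_add_neg] at this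
      have h3 := lim_Dd h.lat h.dz_notMem n1 n2 n3
      have h4 := (h3.const_mul (1 / 2)).add hE
      refine h4.congr fun δ => ?_
      rw [← EG_eq, ← EG_eq, ← EG_eq]
      ring
  have key2 := (tendsto_scale key hc).const_mul (Ω / (tc (DD pr V) * tc two2))
  refine key2.congr' ?_
  filter_upwards [self_mem_nhdsWithin] with δ (hδ : 0 < δ)
  rw [RS_kk h.lat hp V hδ]
  congr 1
  set δ' := δ * Complex.normSq (tc (DD pr V) * tc two2 / Ω)
  have h5 : ∑ q : RQ (DD pr V), C1 pr V q.out * EG Ω δ' (dz Ω + zq Ω (DD pr V) q.out) =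
      ∑ q : RQ (DD pr V), C1 pr V q.out * EG Ω δ' (dz Ω - zq Ω (DD pr V) q.out) := by
    rw [← Equiv.sum_comp (Equiv.neg (RQ (DD pr V)))]
    refine Finset.sum_congr rfl fun q _ => ?_
    rw [Equiv.neg_apply, C1_per (out_neg _ q), C1_neg hp]
    congr 1
    apply EG_per h.lat
    obtain ⟨c, hc⟩ := out_neg (DD pr V) q
    refine (mem_lat h.lat).2 ⟨c, ?_⟩
    have h6 := congrArg tc hc
    rw [tc_sub, tc_neg, tc_mul] at h6
    unfold zq
    field_simp
    linear_combination Ω * h6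
  have h6 : ∀ q : RQ (DD pr V), C1 pr V q.out *
      ((1 / 2) * (EG Ω δ' (dz Ω + zq Ω (DD pr V) q.out) + EG Ω δ' (dz Ω - zq Ω (DD pr V) q.out))) =
      (1 / 2) * (C1 pr V q.out * EG Ω δ' (dz Ω + zq Ω (DD pr V) q.out)) +
      (1 / 2) * (C1 pr V q.out * EG Ω δ' (dz Ω - zq Ω (DD pr V) q.out)) := by
    intro q; ring
  simp_rw [h6]
  rw [Finset.sum_add_distrib, ← Finset.mul_sum, ← Finset.mul_sum, ← h5]
  ring

theorem lim_empty (h : GLat L Ω) (hp : PF pr) : Tendsto (RS (cc pr ∅ ∅)) (𝓝[>] 0)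
      (𝓝 (Ω / tc two2 * Est L Ω)) := by
  have hD1 : DD pr (∅ : Finset ι) = 1 := Finset.prod_empty
  have hfin := H385.he1_finite (DD_ne hp (∅ : Finset ι))
  letI := Fintype.ofFinite (RQ (DD pr (∅ : Finset ι)))
  have h2c := tc_ne two2_ne
  have hΩ := h.lat.ne
  have hE : Tendsto (fun δ : ℝ => EG Ω δ (dz Ω)) (𝓝[>] 0) (𝓝 (Est L Ω)) := lim_dz h
  have hc : 0 < Complex.normSq (tc (DD pr (∅ : Finset ι)) * tc two2 / Ω) := by
    refine Complex.normSq_pos.2 (div_ne_zero (mul_ne_zero ?_ h2c) hΩ)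
    exact tc_ne (DD_ne hp _)
  have key := (tendsto_scale hE hc).const_mul (Ω / tc two2)
  refine key.congr' ?_
  filter_upwards [self_mem_nhdsWithin] with δ (hδ : 0 < δ)
  have h1 : cc pr (∅ : Finset ι) ∅ = kk pr ∅ := by
    funext a
    have := sum_cc hp (∅ : Finset ι) a
    simpa [ch] using this
  rw [h1, RS_kk h.lat hp ∅ hδ]
  have hsub : Subsingleton (RQ (DD pr (∅ : Finset ι))) := by
    rw [Ideal.Quotient.subsingleton_iff, hD1]
    exact Ideal.span_singleton_one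
  have hcard : (Finset.univ : Finset (RQ (DD pr (∅ : Finset ι)))) = {0} := by
    ext x
    simp [Subsingleton.elim x 0]
  rw [hcard, Finset.sum_singleton]
  have e1 : C1 pr (∅ : Finset ι) (0 : RQ (DD pr (∅ : Finset ι))).out = 1 := by
    unfold C1
    simp
  have e2 : EG Ω (δ * Complex.normSq (tc (DD pr (∅ : Finset ι)) * tc two2 / Ω))
      (dz Ω + zq Ω (DD pr (∅ : Finset ι)) (0 : RQ (DD pr (∅ : Finset ι))).out) =
      EG Ω (δ * Complex.normSq (tc (DD pr (∅ : Finset ι)) * tc two2 / Ω)) (dz Ω) := by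
    apply EG_per h.lat
    refine (mem_lat h.lat).2 ⟨(0 : RQ (DD pr (∅ : Finset ι))).out, ?_⟩
    unfold zq
    rw [hD1, tc_one]
    ring
  rw [e1, e2, one_mul, hD1, tc_one, one_mul]

lemma ch_sq (hp : PF pr) (S : Finset ι) : (ch pr S two2 : ℂ) * ch pr S two2 = 1 := by
  unfold ch
  rw [← Int.cast_mul, ← Finset.prod_mul_distrib, Finset.prod_eq_one]
  · simp
  · intro i _
    exact qr_sq (not_dvd_two2 (hp.pp i))

lemma RS_sum (h : GLat L Ω) (hp : PF pr) (V : Finset ι) {δ : ℝ} (hδ : 0 < δ) :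
    ∑ S ∈ V.powerset, (ch pr S two2 : ℂ) * RS (cc pr S (V \ S)) δ = 2 ^ V.card * RS (kk pr V) δ := by
  unfold RS
  simp_rw [← tsum_mul_left]
  rw [← Summable.tsum_finsetSum]
  · refine tsum_congr fun a => ?_
    rw [← mul_assoc, ← sum_cc hp V a, Finset.sum_mul]
    exact Finset.sum_congr rfl fun S _ => by ring
  · intro S _
    exact (summ_bd h.lat hδ (cc_bd S (V \ S))).mul_left _

/-- existence of the limits -/
theorem exists_lim (h : GLat L Ω) (hp : PF pr) : ∀ S : Finset ι, ∃ l : ℂ,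
    Tendsto (RS (cc pr S ∅)) (𝓝[>] 0) (𝓝 l) := by
  intro S
  induction S using Finset.strongInduction with
  | H V ih =>
    rcases V.eq_empty_or_nonempty with rfl | hV
    · exact ⟨_, lim_empty h hp⟩
    · have hfin := H385.he1_finite (DD_ne hp V)
      letI := Fintype.ofFinite (RQ (DD pr V))
      have h1 := lim_kk h hp hV
      have h2 : ∀ S : Finset ι, ∃ l : ℂ, S ∈ V.powerset.erase V →
          Tendsto (RS (cc pr S (V \ S))) (𝓝[>] 0) (𝓝 l) := by
        intro S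
        by_cases hS : S ∈ V.powerset.erase V
        · rw [Finset.mem_erase, Finset.mem_powerset] at hS
          obtain ⟨l, hl⟩ := ih S (Finset.ssubset_iff_subset_ne.2 ⟨hS.2, hS.1⟩)
          exact ⟨_, fun _ => lim_cc h.lat hp S hl (V \ S)⟩
        · exact ⟨0, fun h' => absurd h' hS⟩
      choose l hl using h2
      have h3 : Tendsto (fun δ => (ch pr V two2 : ℂ) * (2 ^ V.card * RS (kk pr V) δ -
          ∑ S ∈ V.powerset.erase V, (ch pr S two2 : ℂ) * RS (cc pr S (V \ S)) δ)) (𝓝[>] 0)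
          (𝓝 ((ch pr V two2 : ℂ) * (2 ^ V.card * (Ω / (tc (DD pr V) * tc two2) * QV L Ω pr V) -
          ∑ S ∈ V.powerset.erase V, (ch pr S two2 : ℂ) * l S))) := by
        refine Tendsto.const_mul _ ((h1.const_mul _).sub (tendsto_finsetSum _ fun S hS => ?_))
        exact (hl S hS).const_mul _
      refine ⟨_, h3.congr' ?_⟩
      filter_upwards [self_mem_nhdsWithin] with δ (hδ : 0 < δ)
      rw [← RS_sum h hp V hδ, ← Finset.add_sum_erase V.powerset _ (Finset.mem_powerset_self V),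
        add_sub_cancel_right, ← mul_assoc, ch_sq hp, one_mul, Finset.sdiff_self]

/-- the normalized limit -/
noncomputable def Ms (Ω : ℂ) (pr : ι → ZI) (l : Finset ι → ℂ) (S : Finset ι) : ℂ :=
  tc two2 * ch pr S two2 * (l S / Ω) * tc (DD pr S) / 2 ^ S.card

/-- the recursion -/
theorem recur (h : GLat L Ω) (hp : PF pr) {l : Finset ι → ℂ}
    (hl : ∀ S, Tendsto (RS (cc pr S ∅)) (𝓝[>] 0) (𝓝 (l S))) {V : Finset ι} (hV : V.Nonempty)
    [Fintype (RQ (DD pr V))] :
    ∑ S ∈ V.powerset, Ms Ω pr l S * ∏ i ∈ V \ S, ((tc (pr i) - ch pr S (pr i)) / 2) =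
      QV L Ω pr V := by
  have hDc := tc_ne (DD_ne hp V)
  have h2c := tc_ne two2_ne
  have hΩ := h.lat.ne
  have h1 : Tendsto (fun δ => ∑ S ∈ V.powerset, (ch pr S two2 : ℂ) * RS (cc pr S (V \ S)) δ)
      (𝓝[>] 0) (𝓝 (∑ S ∈ V.powerset, (ch pr S two2 : ℂ) *
        (l S * ∏ i ∈ V \ S, (1 - (ch pr S (pr i) : ℂ) / tc (pr i))))) := by
    refine tendsto_finsetSum _ fun S _ => Tendsto.const_mul _ ?_
    exact lim_cc h.lat hp S (hl S) (V \ S)
  have h2 : Tendsto (fun δ => ∑ S ∈ V.powerset, (ch pr S two2 : ℂ) * RS (cc pr S (V \ S)) δ)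
      (𝓝[>] 0) (𝓝 (2 ^ V.card * (Ω / (tc (DD pr V) * tc two2) * QV L Ω pr V))) := by
    refine ((lim_kk h hp hV).const_mul (2 ^ V.card)).congr' ?_
    filter_upwards [self_mem_nhdsWithin] with δ (hδ : 0 < δ)
    exact (RS_sum h hp V hδ).symm
  have h3 := tendsto_nhds_unique h1 h2
  have h4 : QV L Ω pr V = (tc (DD pr V) * tc two2 / Ω / 2 ^ V.card) *
      (2 ^ V.card * (Ω / (tc (DD pr V) * tc two2) * QV L Ω pr V)) := by
    field_simp
  rw [h4, ← h3, Finset.mul_sum]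
  refine Finset.sum_congr rfl fun S hS => ?_
  rw [Finset.mem_powerset] at hS
  unfold Ms
  have h5 : tc (DD pr V) = tc (DD pr S) * ∏ i ∈ V \ S, tc (pr i) := by
    unfold DD
    rw [← tc_prod, ← tc_mul]
    congr 1
    rw [mul_comm]
    exact (Finset.prod_sdiff hS).symm
  have h6 : V.card = S.card + (V \ S).card := by
    have := Finset.card_sdiff_add_card_eq_card hS
    omega
  have h7 : ∏ i ∈ V \ S, ((tc (pr i) - ch pr S (pr i)) / 2) =
      (∏ i ∈ V \ S, tc (pr i)) / 2 ^ (V \ S).card *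
        ∏ i ∈ V \ S, (1 - (ch pr S (pr i) : ℂ) / tc (pr i)) := by
    rw [← Finset.prod_const, ← Finset.prod_div_distrib, ← Finset.prod_mul_distrib]
    refine Finset.prod_congr rfl fun i _ => ?_
    have := tc_ne (hp.pp i).ne
    field_simp
  rw [h5, h6, h7, pow_add]
  ring

end Pool.Agent.Y699
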