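import Mathlib

/-!
Sums of periodic functions over discs of `ℤ × ℤ`.
-/

set_option autoImplicit false

open Finset

namespace Pool.Agent.Y699.Lat

/-- sums over a period -/
lemma period_const {g : ℤ → ℝ} {N : ℕ} (hg : ∀ y, g (y + N) = g y) (a : ℤ) :
    ∑ i ∈ range N, g (a + i) = ∑ i ∈ range N, g i := by
  have step : ∀ a : ℤ, ∑ i ∈ range N, g (a + 1 + i) = ∑ i ∈ range N, g (a + i) := by
    intro a
    have h1 := sum_range_succ (fun i : ℕ => g (a + i)) N
    have h2 := sum_range_succ' (fun i : ℕ => g (a + i)) N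
    rw [h1] at h2
    simp only [Nat.cast_add, Nat.cast_one, Nat.cast_zero, add_zero] at h2
    have h3 : ∑ i ∈ range N, g (a + 1 + i) = ∑ i ∈ range N, g (a + (i + 1)) := by
      refine sum_congr rfl fun i _ => ?_
      congr 1
      ring
    rw [h3]
    have h4 := hg a
    linarith
  induction a using Int.induction_on with
  | zero => simp
  | succ i ih => rw [step, ih]
  | pred i ih =>
    rw [← ih, ← step (-(i : ℤ) - 1)]
    refine sum_congr rfl fun j _ => ?_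
    congr 1
    ring

lemma ico_succ_top {g : ℤ → ℝ} (a : ℤ) (n : ℕ) :
    ∑ y ∈ Ico a (a + n), g y = ∑ i ∈ range n, g (a + i) := by
  induction n with
  | zero => simp
  | succ n ih =>
    rw [sum_range_succ, ← ih]
    have : Ico a (a + ((n + 1 : ℕ) : ℤ)) = insert (a + n) (Ico a (a + n)) := by
      ext y
      simp only [mem_Ico, mem_insert]
      push_cast
      omega
    rw [this, sum_insert (by simp), add_comm]

/-- sums of a periodic function with mean zero over intervals -/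
lemma range_bound {g : ℤ → ℝ} {N : ℕ} (hN : 0 < N) (hg : ∀ y, g (y + N) = g y)
    (h0 : ∑ i ∈ range N, g i = 0) {B : ℝ} (hB : ∀ y, |g y| ≤ B) :
    ∀ (n : ℕ) (a : ℤ), |∑ i ∈ range n, g (a + i)| ≤ B * N := by
  intro n
  induction n using Nat.strong_induction_on with
  | _ n ih =>
    intro a
    have hB0 : 0 ≤ B := (abs_nonneg _).trans (hB 0)
    by_cases hn : n < N
    · refine (abs_sum_le_sum_abs _ _).trans ?_
      refine (sum_le_sum fun i _ => hB _).trans ?_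
      rw [sum_const, card_range, nsmul_eq_mul, mul_comm]
      exact mul_le_mul_of_nonneg_left (by exact_mod_cast hn.le) hB0
    · push Not at hn
      obtain ⟨m, rfl⟩ := Nat.exists_eq_add_of_le hn
      rw [sum_range_add, period_const hg, h0, zero_add]
      have h1 := ih m (by omega) (a + N)
      refine le_trans (le_of_eq ?_) h1
      congr 1
      refine sum_congr rfl fun i _ => ?_
      congr 1
      push_cast
      ring

lemma icc_bound {g : ℤ → ℝ} {N : ℕ} (hN : 0 < N) (hg : ∀ y, g (y + N) = g y)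
    (h0 : ∑ i ∈ range N, g i = 0) {B : ℝ} (hB : ∀ y, |g y| ≤ B) (r : ℕ) :
    |∑ y ∈ Icc (-(r : ℤ)) r, g y| ≤ B * N := by
  have h1 : Icc (-(r : ℤ)) r = Ico (-(r : ℤ)) (-(r : ℤ) + ((2 * r + 1 : ℕ) : ℤ)) := by
    ext y
    simp only [mem_Icc, mem_Ico]
    push_cast
    omega
  rw [h1, ico_succ_top]
  exact range_bound hN hg h0 hB _ _

/-- radius of a chord -/
def rad (V : ℕ) (x : ℤ) : ℕ := Nat.sqrt (V - x.natAbs ^ 2)

lemma mem_chord {V : ℕ} {x y : ℤ} : (x ∈ Icc (-(Nat.sqrt V : ℤ)) (Nat.sqrt V) ∧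
    y ∈ Icc (-(rad V x : ℤ)) (rad V x)) ↔ x ^ 2 + y ^ 2 ≤ (V : ℤ) := by
  have e : ∀ (z : ℤ) (n : ℕ), z ∈ Icc (-(n : ℤ)) n ↔ z.natAbs ≤ n := by
    intro z n
    rw [mem_Icc]
    omega
  rw [e, e]
  unfold rad
  rw [Nat.le_sqrt', Nat.le_sqrt']
  have h1 : x ^ 2 + y ^ 2 ≤ (V : ℤ) ↔ x.natAbs ^ 2 + y.natAbs ^ 2 ≤ V := by
    zify
    rw [sq_abs, sq_abs]
  rw [h1]
  constructor
  · rintro ⟨h2, h3⟩
    omega
  · intro h2
    constructor
    · exact (Nat.le_add_right _ _).trans h2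
    · omega

/-- the disc -/
noncomputable def disc (V : ℕ) : Finset (ℤ × ℤ) :=
  (Icc (-(Nat.sqrt V : ℤ)) (Nat.sqrt V)).sigma (fun x => Icc (-(rad V x : ℤ)) (rad V x)) |>.map
    ⟨fun p => (p.1, p.2), fun a b h => by
      rw [Prod.mk.injEq] at h
      exact Sigma.ext h.1 (heq_of_eq h.2)⟩

lemma mem_disc {V : ℕ} {p : ℤ × ℤ} : p ∈ disc V ↔ p.1 ^ 2 + p.2 ^ 2 ≤ (V : ℤ) := by
  unfold disc
  rw [mem_map]
  constructor
  · rintro ⟨⟨x, y⟩, h, rfl⟩
    rw [mem_sigma] at h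
    exact mem_chord.1 h
  · intro h
    refine ⟨⟨p.1, p.2⟩, ?_, rfl⟩
    rw [mem_sigma]
    exact mem_chord.2 h

lemma sum_disc {V : ℕ} (F : ℤ → ℤ → ℝ) : ∑ p ∈ disc V, F p.1 p.2 =
    ∑ x ∈ Icc (-(Nat.sqrt V : ℤ)) (Nat.sqrt V), ∑ y ∈ Icc (-(rad V x : ℤ)) (rad V x), F x y := by
  unfold disc
  rw [sum_map, sum_sigma]
  rfl

lemma sum_disc_swap {V : ℕ} (F : ℤ → ℤ → ℝ) : ∑ p ∈ disc V, F p.1 p.2 = ∑ p ∈ disc V, F p.2 p.1 := by
  refine sum_bij' (fun p _ => (p.2, p.1)) (fun p _ => (p.2, p.1)) ?_ ?_ ?_ ?_ ?_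
  · intro p hp
    rw [mem_disc] at hp ⊢
    simp only
    linarith
  · intro p hp
    rw [mem_disc] at hp ⊢
    simp only
    linarith
  · intro p _; rfl
  · intro p _; rfl
  · intro p _; rfl

/-- **sums over discs** -/
theorem disc_bound {f : ℤ → ℤ → ℝ} {N : ℕ} (hN : 0 < N) (h1 : ∀ x y, f (x + N) y = f x y)
    (h2 : ∀ x y, f x (y + N) = f x y) (h0 : ∑ i ∈ range N, ∑ j ∈ range N, f i j = 0)
    (hB : ∀ x y, |f x y| ≤ 1) (V : ℕ) :
    |∑ p ∈ disc V, f p.1 p.2| ≤ 3 * N * (2 * Real.sqrt V + 1) := by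
  have hNr : (0 : ℝ) < N := by exact_mod_cast hN
  set F : ℤ → ℝ := fun x => ∑ j ∈ range N, f x j with hF
  have hFp : ∀ x, F (x + N) = F x := fun x => sum_congr rfl fun j _ => h1 _ _
  have hF0 : ∑ i ∈ range N, F i = 0 := h0
  have hFB : ∀ x, |F x| ≤ N := by
    intro x
    refine (abs_sum_le_sum_abs _ _).trans ((sum_le_sum fun j _ => hB _ _).trans ?_)
    simp
  set s := Nat.sqrt V with hs
  have hs' : (s : ℝ) ≤ Real.sqrt V := Real.nat_sqrt_le_real_sqrt
  have hcard : ((Icc (-(s : ℤ)) s).card : ℝ) = 2 * s + 1 := by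
    rw [Int.card_Icc]
    have : ((s : ℤ) + 1 - -(s : ℤ)).toNat = 2 * s + 1 := by omega
    rw [this]
    push_cast
    ring
  -- compare with the mean on each chord
  have hA : |∑ p ∈ disc V, (f p.1 p.2 - F p.1 / N)| ≤ 2 * N * (2 * s + 1) := by
    rw [sum_disc (fun x y => f x y - F x / N)]
    refine (abs_sum_le_sum_abs _ _).trans ?_
    have : ∀ x ∈ Icc (-(s : ℤ)) s, |∑ y ∈ Icc (-(rad V x : ℤ)) (rad V x), (f x y - F x / N)| ≤ 2 * N := by
      intro x _
      refine icc_bound (g := fun y => f x y - F x / N) hN (fun y => by simp only [h2]) ?_ ?_ _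
      · rw [sum_sub_distrib, sum_const, card_range, nsmul_eq_mul]
        have : (N : ℝ) * (F x / N) = F x := by field_simp
        rw [this]
        show F x - F x = 0
        ring
      · intro y
        have e1 := hB x y
        have e2 : |F x / N| ≤ 1 := by
          rw [abs_div, Nat.abs_cast, div_le_one hNr]
          exact hFB x
        have := abs_sub (f x y) (F x / N)
        linarith
    refine (sum_le_sum this).trans ?_
    rw [sum_const, nsmul_eq_mul, hcard]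
    linarith
  have hBd : |∑ p ∈ disc V, F p.1| ≤ (N * N) * (2 * s + 1) := by
    rw [sum_disc_swap (fun x _ => F x), sum_disc (fun _ y => F y)]
    refine (abs_sum_le_sum_abs _ _).trans ?_
    have : ∀ x ∈ Icc (-(s : ℤ)) s, |∑ y ∈ Icc (-(rad V x : ℤ)) (rad V x), F y| ≤ N * N := by
      intro x _
      exact icc_bound hN hFp hF0 hFB _
    refine (sum_le_sum this).trans ?_
    rw [sum_const, nsmul_eq_mul, hcard]
    linarith
  have e : ∑ p ∈ disc V, f p.1 p.2 = ∑ p ∈ disc V, (f p.1 p.2 - F p.1 / N) +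
      (∑ p ∈ disc V, F p.1) / N := by
    rw [sum_sub_distrib, sum_div]
    ring
  rw [e]
  refine (abs_add_le _ _).trans ?_
  have hC : |(∑ p ∈ disc V, F p.1) / N| ≤ N * (2 * s + 1) := by
    rw [abs_div, Nat.abs_cast, div_le_iff₀ hNr]
    nlinarith [hBd]
  have h3 : (N : ℝ) * (2 * s + 1) ≤ N * (2 * Real.sqrt V + 1) := by
    apply mul_le_mul_of_nonneg_left _ hNr.le
    linarith
  have h4 := add_le_add hA hC
  refine h4.trans ?_
  nlinarith

/-- number of points of the disc -/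
lemma card_disc_le (V : ℕ) : ((disc V).card : ℝ) ≤ (2 * Real.sqrt V + 1) ^ 2 := by
  have h : disc V ⊆ (Icc (-(Nat.sqrt V : ℤ)) (Nat.sqrt V)) ×ˢ (Icc (-(Nat.sqrt V : ℤ)) (Nat.sqrt V)) := by
    intro p hp
    rw [mem_disc] at hp
    rw [mem_product]
    exact ⟨(mem_chord.2 hp).1, (mem_chord.2 (by linarith : p.2 ^ 2 + p.1 ^ 2 ≤ (V : ℤ))).1⟩
  have h1 := card_le_card h
  rw [card_product, Int.card_Icc] at h1
  have h2 : ((Nat.sqrt V : ℤ) + 1 - -(Nat.sqrt V : ℤ)).toNat = 2 * Nat.sqrt V + 1 := by omega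
  rw [h2] at h1
  have h3 : ((disc V).card : ℝ) ≤ (2 * (Nat.sqrt V : ℝ) + 1) * (2 * (Nat.sqrt V : ℝ) + 1) := by
    exact_mod_cast h1
  have hs' : (Nat.sqrt V : ℝ) ≤ Real.sqrt V := Real.nat_sqrt_le_real_sqrt
  have h0 : (0 : ℝ) ≤ Nat.sqrt V := Nat.cast_nonneg _
  nlinarith [Real.sqrt_nonneg (V : ℝ)]

/-- lower bound -/
lemma card_disc_ge (V : ℕ) : 2 * (V : ℝ) - 4 * Real.sqrt V ≤ ((disc V).card : ℝ) := by
  set t := Nat.sqrt (V / 2) with ht
  have h : (Icc (-(t : ℤ)) t) ×ˢ (Icc (-(t : ℤ)) t) ⊆ disc V := by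
    intro p hp
    rw [mem_product, mem_Icc, mem_Icc] at hp
    rw [mem_disc]
    have h1 : t * t ≤ V / 2 := Nat.sqrt_le _
    have h2 : ((t : ℤ) * t) * 2 ≤ V := by
      have : t * t * 2 ≤ V := by omega
      exact_mod_cast this
    nlinarith [hp.1.1, hp.1.2, hp.2.1, hp.2.2]
  have h1 := card_le_card h
  rw [card_product, Int.card_Icc] at h1
  have h2 : ((t : ℤ) + 1 - -(t : ℤ)).toNat = 2 * t + 1 := by omega
  rw [h2] at h1
  have h3 : (2 * (t : ℝ) + 1) * (2 * (t : ℝ) + 1) ≤ ((disc V).card : ℝ) := by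
    exact_mod_cast h1
  have h4 : V / 2 < (t + 1) * (t + 1) := Nat.lt_succ_sqrt _
  have h5 : (V : ℝ) < 2 * (((t : ℝ) + 1) * ((t : ℝ) + 1)) := by
    have : V < 2 * ((t + 1) * (t + 1)) := by omega
    exact_mod_cast this
  -- `sqrt (V / 2) < t + 1`
  have h6 : Real.sqrt (V / 2) ≤ (t : ℝ) + 1 := by
    rw [Real.sqrt_le_left (by positivity)]
    nlinarith
  have h7 : Real.sqrt (V / 2) ^ 2 = V / 2 := Real.sq_sqrt (by positivity)
  have h8 : 2 * Real.sqrt (V / 2) - 1 ≤ 2 * t + 1 := by linarith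
  by_cases h9 : 1 ≤ 2 * Real.sqrt (V / 2)
  · have h10 : (2 * Real.sqrt (V / 2) - 1) ^ 2 ≤ (2 * (t : ℝ) + 1) * (2 * (t : ℝ) + 1) := by
      nlinarith
    have h11 : Real.sqrt (V / 2) ≤ Real.sqrt V := Real.sqrt_le_sqrt (by
      have : (0 : ℝ) ≤ V := Nat.cast_nonneg V
      linarith)
    nlinarith
  · have hV : (V : ℝ) < 1 / 2 := by nlinarith [Real.sqrt_nonneg ((V : ℝ) / 2)]
    have hV0 : V = 0 := by
      by_contra h
      have : (1 : ℝ) ≤ V := by exact_mod_cast Nat.one_le_iff_ne_zero.2 h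
      linarith
    subst hV0
    simp

end Pool.Agent.Y699.Lat
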