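import Pool.Agent.Y699.Avg

/-!
Lower bound for the number of triples, and the choice of the parameters.
-/

set_option autoImplicit false

open Finset

namespace Pool.Agent.Y699

open H385 (ZI RQ im1 nrm BX)
open H385.H10 (mem_BX nrm_pos Dv mem_Dv card_Dv)
open Pool.Agent.W164.RC (two2 prim_iff_dvd unit_norm unit_cases)
open Pool.Agent.H304R2.EC.A1 (prim prim_mul prim_cancel prim_one prim_norm_odd prim_star eq_one_of_prim
  norm_def' re_mul' im_mul' eq_of_dvd prim_ne_zero exists_prim)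

lemma kx_pos : 0 < kx := by unfold kx; norm_num

open Classical in
/-- the number of `m` for given primes -/
lemma m_count : ∃ P0 : ℕ, ∀ P : ℕ, P0 ≤ P → ∀ X : ℕ, P ^ (3 * kx) ≤ X → ∀ p ∈ IB kx P, ∀ q ∈ IB kx P,
    p ≠ q → (X : ℝ) / 80 * (1 / nrm p * (1 / nrm q)) ≤ ∑ m ∈ SB X, Ph X (m * (p * q)) := by
  obtain ⟨V0, hV0⟩ := sqf_count
  refine ⟨max V0 5040, ?_⟩
  intro P hP X hX p hp q hq hpq
  have hP1 : V0 ≤ P := (le_max_left _ _).trans hP
  have hP2 : 5040 ≤ P := (le_max_right _ _).trans hP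
  rw [mem_IB] at hp hq
  have hpp := hp.2.1
  have hqq := hq.2.1
  have hr : prim (p * q) := prim_mul hpp.prm hqq.prm
  have hpq' : PS (p * q) := (PS.mul_iff hpp.prm hqq.prm).2 ⟨hpp.ps, hqq.ps, hpp.cop hqq hpq⟩
  have hn0 := nrm_pos' hpq'.ne
  have hnle : nrm (p * q) ≤ P ^ (2 * kx) := by
    rw [nrm_mul, show 2 * kx = kx + kx by ring, pow_add]
    exact Nat.mul_le_mul hp.1 hq.1
  set V := X / nrm (p * q) with hV
  have hVP : P ≤ V := by
    rw [hV, Nat.le_div_iff_mul_le hn0]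
    calc P * nrm (p * q) ≤ P * P ^ (2 * kx) := Nat.mul_le_mul_left _ hnle
      _ = P ^ (2 * kx + 1) := by rw [pow_succ]; ring
      _ ≤ P ^ (3 * kx) := by
          apply Nat.pow_le_pow_right (by omega)
          have := kx_pos
          omega
      _ ≤ X := hX
  -- the class
  obtain ⟨r, hr15, hrr⟩ : ∃ r : ℤ, (r = 1 ∨ r = 5) ∧ ∀ m : ZI, m.norm % 8 = r → (m * (p * q)).norm % 8 = 5 := by
    rcases prim_norm_four hr with h | h
    · refine ⟨5, Or.inr rfl, fun m hm => ?_⟩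
      rw [Zsqrtd.norm_mul, Int.mul_emod, hm, h]
      norm_num
    · refine ⟨1, Or.inl rfl, fun m hm => ?_⟩
      rw [Zsqrtd.norm_mul, Int.mul_emod, hm, h]
      norm_num
  have h1 := hV0 V (hP1.trans hVP) r hr15
  set A := (SB V).filter (fun m => m.norm % 8 = r) with hA
  have hcover : A ⊆ (A.filter (fun m => ¬ p ∣ m ∧ ¬ q ∣ m)) ∪ ((SB V).filter (fun m => p ∣ m) ∪
      (SB V).filter (fun m => q ∣ m)) := by
    intro m hm
    have hm' : m ∈ SB V := (mem_filter.1 hm).1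
    by_cases a1 : p ∣ m
    · exact mem_union.2 (Or.inr (mem_union.2 (Or.inl (mem_filter.2 ⟨hm', a1⟩))))
    · by_cases a2 : q ∣ m
      · exact mem_union.2 (Or.inr (mem_union.2 (Or.inr (mem_filter.2 ⟨hm', a2⟩))))
      · exact mem_union.2 (Or.inl (mem_filter.2 ⟨hm, a1, a2⟩))
  have h2 : (A.card : ℝ) ≤ ((A.filter (fun m => ¬ p ∣ m ∧ ¬ q ∣ m)).card : ℝ) +
      (9 * ((V : ℝ) / nrm p) + 9 * ((V : ℝ) / nrm q)) := by
    have h3 := (card_le_card hcover).trans (card_union_le _ _)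
    have h4 := h3.trans (Nat.add_le_add_left (card_union_le _ _) _)
    have h5 : (A.card : ℝ) ≤ ((A.filter (fun m => ¬ p ∣ m ∧ ¬ q ∣ m)).card : ℝ) +
      ((((SB V).filter (fun m => p ∣ m)).card : ℝ) + (((SB V).filter (fun m => q ∣ m)).card : ℝ)) := by
      exact_mod_cast h4
    have h6 := card_mult hpp.prm V
    have h7 := card_mult hqq.prm V
    linarith
  have hpr : (5040 : ℝ) ≤ nrm p := by exact_mod_cast (hP2.trans hp.2.2.le)
  have hqr : (5040 : ℝ) ≤ nrm q := by exact_mod_cast (hP2.trans hq.2.2.le)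
  have Vr : (0 : ℝ) ≤ V := Nat.cast_nonneg V
  have h3 : (V : ℝ) / nrm p ≤ V / 5040 := div_le_div_of_nonneg_left Vr (by norm_num) hpr
  have h4 : (V : ℝ) / nrm q ≤ V / 5040 := div_le_div_of_nonneg_left Vr (by norm_num) hqr
  have h5 : (V : ℝ) / 40 ≤ ((A.filter (fun m => ¬ p ∣ m ∧ ¬ q ∣ m)).card : ℝ) := by linarith
  -- these elements count
  have h6 : ((A.filter (fun m => ¬ p ∣ m ∧ ¬ q ∣ m)).card : ℝ) ≤ ∑ m ∈ SB X, Ph X (m * (p * q)) := by
    have h7 : ((A.filter (fun m => ¬ p ∣ m ∧ ¬ q ∣ m)).card : ℝ) =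
        ∑ m ∈ A.filter (fun m => ¬ p ∣ m ∧ ¬ q ∣ m), Ph X (m * (p * q)) := by
      rw [card_eq_sum_ones]
      push_cast
      refine sum_congr rfl fun m hm => ?_
      rw [mem_filter, hA, mem_filter, mem_SB] at hm
      obtain ⟨⟨⟨a1, a2⟩, a3⟩, a4, a5⟩ := hm
      unfold Ph
      rw [if_pos]
      refine ⟨?_, ?_, hrr m a3⟩
      · rw [PS.mul_iff a2.prm hr]
        refine ⟨a2, hpq', ?_⟩
        exact IsCoprime.mul_right ((hpp.pr.irreducible.coprime_iff_not_dvd).2 a4).symm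
          ((hqq.pr.irreducible.coprime_iff_not_dvd).2 a5).symm
      · rw [nrm_mul]
        exact (Nat.le_div_iff_mul_le hn0).1 a1
    rw [h7]
    refine sum_le_sum_of_subset_of_nonneg ?_ (fun _ _ _ => Ph_nonneg _ _)
    intro m hm
    rw [mem_filter, hA, mem_filter] at hm
    exact SB_mono (Nat.div_le_self _ _) hm.1.1
  refine le_trans ?_ (h5.trans h6)
  -- V is large
  have h7 : (X : ℝ) / nrm (p * q) ≤ 2 * V := by
    have h8 := Nat.lt_div_mul_add (a := X) hn0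
    rw [← hV] at h8
    have h9 : (X : ℝ) < V * nrm (p * q) + nrm (p * q) := by exact_mod_cast h8
    have h10 : (1 : ℝ) ≤ V := by exact_mod_cast (by omega : 1 ≤ V)
    have h11 : (0 : ℝ) < nrm (p * q) := by exact_mod_cast hn0
    rw [div_le_iff₀ h11]
    nlinarith
  have h8 : (X : ℝ) / 80 * (1 / nrm p * (1 / nrm q)) = (X : ℝ) / nrm (p * q) / 80 := by
    rw [nrm_mul]
    push_cast
    rw [one_div_mul_one_div]
    ring
  rw [h8]
  linarith

lemma IB_sub {P X : ℕ} (hP : 1 ≤ P) (hX : P ^ (3 * kx) ≤ X) : IB kx P ⊆ SB X := by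
  intro p hp
  rw [mem_IB] at hp
  rw [mem_SB]
  refine ⟨hp.1.trans (le_trans ?_ hX), hp.2.1.ps⟩
  exact Nat.pow_le_pow_right hP (by omega)

/-- **lower bound for the number of triples** -/
theorem TT_lo : ∃ P0 : ℕ, ∀ P : ℕ, P0 ≤ P → ∀ X : ℕ, P ^ (3 * kx) ≤ X →
    (X : ℝ) / (160 * kx ^ 2) ≤ TT P X := by
  classical
  obtain ⟨P1, hP1⟩ := m_count
  obtain ⟨P2, hP2⟩ := IB_lo
  set M := ⌈2 * (kx : ℝ) ^ 2 * CI⌉₊ with hM
  refine ⟨max (max P1 P2) (max 3 M), ?_⟩
  intro P hP X hX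
  have a1 : P1 ≤ P := ((le_max_left _ _).trans (le_max_left _ _)).trans hP
  have a2 : P2 ≤ P := ((le_max_right _ _).trans (le_max_left _ _)).trans hP
  have a3 : 3 ≤ P := ((le_max_left _ _).trans (le_max_right _ _)).trans hP
  have a4 : M ≤ P := ((le_max_right _ _).trans (le_max_right _ _)).trans hP
  have hkr : (0 : ℝ) < kx := by exact_mod_cast kx_pos
  have hPr : (0 : ℝ) < P := by exact_mod_cast (by omega : 0 < P)
  have hsub := IB_sub (by omega) hX
  set I := IB kx P with hI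
  set s := ∑ π ∈ I, (1 : ℝ) / nrm π with hs
  have hs1 : 1 / (kx : ℝ) ≤ s := hP2 P a2
  have hs2 : s ≤ CI := by
    have := IB_up a3
    unfold CI
    exact this
  have hX0 : (0 : ℝ) ≤ X := Nat.cast_nonneg X
  have e1 : TT P X = ∑ p ∈ I, ∑ q ∈ I, ∑ m ∈ SB X, Ph X (m * (p * q)) := by
    have g1 : ∀ f : ZI → ℝ, ∑ p ∈ SB X, iI P p * f p = ∑ p ∈ I, f p := by
      intro f
      have g2 : ∑ p ∈ SB X, iI P p * f p = ∑ p ∈ (SB X).filter (fun p => p ∈ I), f p := by
        rw [sum_filter]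
        refine sum_congr rfl fun p _ => ?_
        unfold iI
        split_ifs <;> simp
      rw [g2]
      refine sum_congr ?_ fun _ _ => rfl
      ext p
      rw [mem_filter]
      exact ⟨fun h => h.2, fun h => ⟨hsub h, h⟩⟩
    unfold TT
    have g3 : ∀ p, ∑ q ∈ SB X, iI P p * iI P q * ∑ m ∈ SB X, Ph X (m * (p * q)) =
        iI P p * ∑ q ∈ SB X, iI P q * ∑ m ∈ SB X, Ph X (m * (p * q)) := by
      intro p
      rw [mul_sum]
      refine sum_congr rfl fun q _ => by ring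
    rw [sum_congr rfl (fun p _ => g3 p), g1]
    refine sum_congr rfl fun p _ => g1 _
  have e2 : (X : ℝ) / 80 * (s ^ 2 - s / P) ≤ TT P X := by
    rw [e1]
    have h1 : ∀ p ∈ I, (X : ℝ) / 80 * (1 / nrm p * s - 1 / nrm p * (1 / P)) ≤
        ∑ q ∈ I, ∑ m ∈ SB X, Ph X (m * (p * q)) := by
      intro p hp
      have hpI := mem_IB.1 hp
      have h2 : ∑ q ∈ I.erase p, (X : ℝ) / 80 * (1 / nrm p * (1 / nrm q)) ≤
          ∑ q ∈ I.erase p, ∑ m ∈ SB X, Ph X (m * (p * q)) := by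
        refine sum_le_sum fun q hq => ?_
        rw [mem_erase] at hq
        exact hP1 P a1 X hX p hp q hq.2 (Ne.symm hq.1)
      have h3 : ∑ q ∈ I.erase p, ∑ m ∈ SB X, Ph X (m * (p * q)) ≤
          ∑ q ∈ I, ∑ m ∈ SB X, Ph X (m * (p * q)) :=
        sum_le_sum_of_subset_of_nonneg (erase_subset _ _)
          (fun _ _ _ => sum_nonneg fun _ _ => Ph_nonneg _ _)
      refine le_trans ?_ (h2.trans h3)
      rw [← mul_sum, ← mul_sum]
      apply mul_le_mul_of_nonneg_left _ (by positivity)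
      have h4 : ∑ q ∈ I.erase p, (1 : ℝ) / nrm q = s - 1 / nrm p := by
        rw [hs, ← sum_erase_add I _ hp]
        ring
      rw [h4, mul_sub]
      apply sub_le_sub_left
      apply mul_le_mul_of_nonneg_left _ (by positivity)
      apply one_div_le_one_div_of_le hPr
      exact_mod_cast hpI.2.2.le
    refine le_trans (le_of_eq ?_) (sum_le_sum h1)
    rw [← mul_sum, sum_sub_distrib, ← sum_mul, ← sum_mul, ← hs]
    ring
  refine le_trans ?_ e2
  have h1 : s / P ≤ 1 / (2 * (kx : ℝ) ^ 2) := by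
    have h2 : 2 * (kx : ℝ) ^ 2 * CI ≤ P := by
      have h3 := Nat.le_ceil (2 * (kx : ℝ) ^ 2 * CI)
      rw [← hM] at h3
      have h4 : (M : ℝ) ≤ P := Nat.cast_le.2 a4
      linarith
    rw [div_le_div_iff₀ hPr (by positivity)]
    calc s * (2 * (kx : ℝ) ^ 2) ≤ CI * (2 * (kx : ℝ) ^ 2) := mul_le_mul_of_nonneg_right hs2 (by positivity)
      _ ≤ 1 * P := by linarith
  have h2 : 1 / (kx : ℝ) ^ 2 ≤ s ^ 2 := by
    have h3 := pow_le_pow_left₀ (by positivity) hs1 2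
    rwa [one_div_pow] at h3
  have h3 : 1 / (2 * (kx : ℝ) ^ 2) ≤ s ^ 2 - s / P := by
    have : 1 / (2 * (kx : ℝ) ^ 2) = 1 / (kx : ℝ) ^ 2 - 1 / (2 * (kx : ℝ) ^ 2) := by field_simp; ring
    linarith
  calc (X : ℝ) / (160 * kx ^ 2) = (X : ℝ) / 80 * (1 / (2 * (kx : ℝ) ^ 2)) := by field_simp; ring
    _ ≤ _ := mul_le_mul_of_nonneg_left h3 (by positivity)

/-- logarithms of powers -/
lemma lg_pow_le (n j : ℕ) (hj : 1 ≤ j) (hn : 1 ≤ n) : lg (n ^ j) ≤ j * lg n := by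
  unfold lg
  have h1 : Nat.log 2 (n ^ j) < j * (Nat.log 2 n + 1) := by
    apply Nat.log_lt_of_lt_pow (by positivity)
    have h2 := Nat.lt_pow_succ_log_self (b := 2) (by norm_num) n
    calc n ^ j < (2 ^ (Nat.log 2 n + 1)) ^ j := Nat.pow_lt_pow_left h2 (by omega)
      _ = 2 ^ (j * (Nat.log 2 n + 1)) := by rw [← pow_mul, mul_comm]
  have h2 : (Nat.log 2 (n ^ j) : ℝ) + 1 ≤ j * (Nat.log 2 n + 1) := by exact_mod_cast h1
  exact h2

lemma lg_X {P X : ℕ} (hP : 1 ≤ P) (hX : X ≤ (2 * P) ^ (3 * kx)) : lg X ≤ 6 * kx * lg P := by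
  have h1 := (lg_mono hX).trans (lg_pow_le (2 * P) (3 * kx) (by have := kx_pos; omega) (by omega))
  have h2 : lg (2 * P) ≤ 2 * lg P := by
    unfold lg
    have h3 : Nat.log 2 (2 * P) = Nat.log 2 P + 1 := by
      rw [mul_comm]
      exact Nat.log_mul_base (by norm_num) (by omega)
    rw [h3]
    push_cast
    have : (0 : ℝ) ≤ Nat.log 2 P := Nat.cast_nonneg _
    linarith
  have h3 : (0 : ℝ) < kx := by exact_mod_cast kx_pos
  push_cast at h1
  nlinarith

/-- the condition on the parameters holds -/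
theorem HL_holds {P X Z : ℕ} (hP : 1 ≤ P) (h1 : P ^ (3 * kx) ≤ X) (h2 : X ≤ (2 * P) ^ (3 * kx))
    (hZ : Z ≤ P) : HL P X Z (6 * kx) := by
  intro r hr hn
  have hr0 := nrm_pos' (prim_ne_zero hr)
  have h3 : P ≤ X / nrm r := by
    rw [Nat.le_div_iff_mul_le hr0]
    calc P * nrm r ≤ P * (Z ^ 3 * (P ^ kx) ^ 2) := Nat.mul_le_mul_left _ hn
      _ ≤ P * (P ^ 3 * (P ^ kx) ^ 2) := by
          apply Nat.mul_le_mul_left
          exact Nat.mul_le_mul_right _ (Nat.pow_le_pow_left hZ 3)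
      _ = P ^ (2 * kx + 4) := by
          rw [← pow_mul, ← pow_add, mul_comm P, ← pow_succ]
          congr 1
          ring
      _ ≤ P ^ (3 * kx) := by
          apply Nat.pow_le_pow_right hP
          have : 4 ≤ kx := by unfold kx; norm_num
          omega
      _ ≤ X := h1
  refine (lg_X hP h2).trans ?_
  have h4 : (0 : ℝ) < kx := by exact_mod_cast kx_pos
  exact mul_le_mul_of_nonneg_left (lg_mono h3) (by positivity)

end Pool.Agent.Y699
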