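import Mathlib

/-!
Integral changes of variables and affine points of the reductions.
-/

set_option autoImplicit false

open NumberField IsDedekindDomain

namespace Pool.Agent.Y699.Mdl

section ring

variable {R : Type*} [CommRing R]

/-- number of affine points -/
noncomputable def aff (W : WeierstrassCurve R) : ℕ :=
  Nat.card {xy : R × R // W.toAffine.Equation xy.1 xy.2}

lemma eqn_change (W : WeierstrassCurve R) (C : WeierstrassCurve.VariableChange R) (x y : R) :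
    (C • W).toAffine.Equation x y ↔
      W.toAffine.Equation ((C.u : R) ^ 2 * x + C.r) ((C.u : R) ^ 3 * y + (C.u : R) ^ 2 * C.s * x + C.t) := by
  rw [WeierstrassCurve.Affine.equation_iff, WeierstrassCurve.Affine.equation_iff]
  simp only [WeierstrassCurve.variableChange_a₁, WeierstrassCurve.variableChange_a₂,
    WeierstrassCurve.variableChange_a₃, WeierstrassCurve.variableChange_a₄,
    WeierstrassCurve.variableChange_a₆]
  set v : R := ((C.u⁻¹ : Rˣ) : R) with hv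
  set u : R := (C.u : R) with hu
  have huv : u * v = 1 := by rw [hu, hv]; exact Units.mul_inv _
  have e1 : u ^ 6 * (y ^ 2 + v * (W.a₁ + 2 * C.s) * x * y + v ^ 3 * (W.a₃ + C.r * W.a₁ + 2 * C.t) * y) =
      u ^ 6 * y ^ 2 + (W.a₁ + 2 * C.s) * u ^ 5 * x * y + (W.a₃ + C.r * W.a₁ + 2 * C.t) * u ^ 3 * y := by
    have h3 : u ^ 3 * v ^ 3 = 1 := by rw [← mul_pow, huv, one_pow]
    linear_combination (W.a₁ + 2 * C.s) * u ^ 5 * x * y * huv +
      (W.a₃ + C.r * W.a₁ + 2 * C.t) * u ^ 3 * y * h3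
  have e2 : u ^ 6 * (x ^ 3 + v ^ 2 * (W.a₂ - C.s * W.a₁ + 3 * C.r - C.s ^ 2) * x ^ 2 +
      v ^ 4 * (W.a₄ - C.s * W.a₃ + 2 * C.r * W.a₂ - (C.t + C.r * C.s) * W.a₁ + 3 * C.r ^ 2 -
        2 * C.s * C.t) * x +
      v ^ 6 * (W.a₆ + C.r * W.a₄ + C.r ^ 2 * W.a₂ + C.r ^ 3 - C.t * W.a₃ - C.t ^ 2 -
        C.r * C.t * W.a₁)) =
      u ^ 6 * x ^ 3 + (W.a₂ - C.s * W.a₁ + 3 * C.r - C.s ^ 2) * u ^ 4 * x ^ 2 +
      (W.a₄ - C.s * W.a₃ + 2 * C.r * W.a₂ - (C.t + C.r * C.s) * W.a₁ + 3 * C.r ^ 2 -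
        2 * C.s * C.t) * u ^ 2 * x +
      (W.a₆ + C.r * W.a₄ + C.r ^ 2 * W.a₂ + C.r ^ 3 - C.t * W.a₃ - C.t ^ 2 -
        C.r * C.t * W.a₁) := by
    have h2 : u ^ 2 * v ^ 2 = 1 := by rw [← mul_pow, huv, one_pow]
    have h4 : u ^ 4 * v ^ 4 = 1 := by rw [← mul_pow, huv, one_pow]
    have h6 : u ^ 6 * v ^ 6 = 1 := by rw [← mul_pow, huv, one_pow]
    linear_combination (W.a₂ - C.s * W.a₁ + 3 * C.r - C.s ^ 2) * u ^ 4 * x ^ 2 * h2 +
      (W.a₄ - C.s * W.a₃ + 2 * C.r * W.a₂ - (C.t + C.r * C.s) * W.a₁ + 3 * C.r ^ 2 -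
        2 * C.s * C.t) * u ^ 2 * x * h4 +
      (W.a₆ + C.r * W.a₄ + C.r ^ 2 * W.a₂ + C.r ^ 3 - C.t * W.a₃ - C.t ^ 2 -
        C.r * C.t * W.a₁) * h6
  have hU : IsUnit (u ^ 6) := (Units.isUnit C.u).pow 6
  constructor
  · intro h
    have h' := congrArg (fun t => u ^ 6 * t) h
    beta_reduce at h'
    rw [e1, e2] at h'
    linear_combination h'
  · intro h
    apply hU.mul_left_cancel
    rw [e1, e2]
    linear_combination h

theorem aff_change (W : WeierstrassCurve R) (C : WeierstrassCurve.VariableChange R) :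
    aff (C • W) = aff W := by
  unfold aff
  set v : R := ((C.u⁻¹ : Rˣ) : R) with hv
  set u : R := (C.u : R) with hu
  have huv : u * v = 1 := by rw [hu, hv]; exact Units.mul_inv _
  have h2 : u ^ 2 * v ^ 2 = 1 := by rw [← mul_pow, huv, one_pow]
  have h3 : u ^ 3 * v ^ 3 = 1 := by rw [← mul_pow, huv, one_pow]
  refine Nat.card_congr
    { toFun := fun p => ⟨(u ^ 2 * p.1.1 + C.r, u ^ 3 * p.1.2 + u ^ 2 * C.s * p.1.1 + C.t),
        (eqn_change W C _ _).1 p.2⟩
      invFun := fun p => ⟨(v ^ 2 * (p.1.1 - C.r), v ^ 3 * (p.1.2 - C.t - C.s * (p.1.1 - C.r))), ?_⟩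
      left_inv := fun p => ?_
      right_inv := fun p => ?_ }
  · rw [eqn_change]
    have h := p.2
    have e1 : (C.u : R) ^ 2 * (v ^ 2 * (p.1.1 - C.r)) + C.r = p.1.1 := by
      rw [← hu]
      linear_combination (p.1.1 - C.r) * h2
    have e2 : (C.u : R) ^ 3 * (v ^ 3 * (p.1.2 - C.t - C.s * (p.1.1 - C.r))) +
        (C.u : R) ^ 2 * C.s * (v ^ 2 * (p.1.1 - C.r)) + C.t = p.1.2 := by
      rw [← hu]
      linear_combination (p.1.2 - C.t - C.s * (p.1.1 - C.r)) * h3 + C.s * (p.1.1 - C.r) * h2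
    simp only
    rw [e1, e2]
    exact h
  · apply Subtype.ext
    apply Prod.ext
    · show v ^ 2 * (u ^ 2 * p.1.1 + C.r - C.r) = p.1.1
      linear_combination p.1.1 * h2
    · show v ^ 3 * (u ^ 3 * p.1.2 + u ^ 2 * C.s * p.1.1 + C.t - C.t -
        C.s * (u ^ 2 * p.1.1 + C.r - C.r)) = p.1.2
      linear_combination p.1.2 * h3
  · apply Subtype.ext
    apply Prod.ext
    · show u ^ 2 * (v ^ 2 * (p.1.1 - C.r)) + C.r = p.1.1
      linear_combination (p.1.1 - C.r) * h2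
    · show u ^ 3 * (v ^ 3 * (p.1.2 - C.t - C.s * (p.1.1 - C.r))) +
        u ^ 2 * C.s * (v ^ 2 * (p.1.1 - C.r)) + C.t = p.1.2
      linear_combination (p.1.2 - C.t - C.s * (p.1.1 - C.r)) * h3 + C.s * (p.1.1 - C.r) * h2

end ring

section val

variable {K : Type*} [Field K]

lemma int_of_monic {A : ValuationSubring K} {x b c : K} (hb : b ∈ A) (hc : c ∈ A)
    (h : x ^ 2 + b * x + c = 0) : x ∈ A := by
  rcases A.mem_or_inv_mem x with h1 | h1
  · exact h1
  · by_cases hx : x = 0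
    · rw [hx]; exact A.zero_mem
    · have e : x = -b - c * x⁻¹ := by
        field_simp
        linear_combination h
      rw [e]
      exact A.toSubring.sub_mem (A.toSubring.neg_mem hb) (A.toSubring.mul_mem hc h1)

theorem rst_int {A : ValuationSubring K} {V W : WeierstrassCurve A}
    {C : WeierstrassCurve.VariableChange K} (hu : (C.u : K) ∈ A)
    (h : C • V.map (algebraMap A K) = W.map (algebraMap A K)) :
    C.r ∈ A ∧ C.s ∈ A ∧ C.t ∈ A := by
  have hA : ∀ a : A, algebraMap A K a ∈ A := fun a => a.2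
  have hinv : (C.u : K) * ((C.u⁻¹ : Kˣ) : K) = 1 := Units.mul_inv _
  set u : K := (C.u : K) with hudef
  set w : K := ((C.u⁻¹ : Kˣ) : K) with hw
  have e6 := congrArg WeierstrassCurve.b₆ h
  have e8 := congrArg WeierstrassCurve.b₈ h
  have ea2 := congrArg WeierstrassCurve.a₂ h
  have ea6 := congrArg WeierstrassCurve.a₆ h
  simp only [WeierstrassCurve.variableChange_b₆, WeierstrassCurve.variableChange_b₈,
    WeierstrassCurve.variableChange_a₂, WeierstrassCurve.variableChange_a₆,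
    WeierstrassCurve.map_b₂, WeierstrassCurve.map_b₄, WeierstrassCurve.map_b₆,
    WeierstrassCurve.map_b₈, WeierstrassCurve.map_a₁, WeierstrassCurve.map_a₂, WeierstrassCurve.map_a₃,
    WeierstrassCurve.map_a₄, WeierstrassCurve.map_a₆] at e6 e8 ea2 ea6
  rw [← hw] at e6 e8 ea2 ea6
  have h6 : u ^ 6 * w ^ 6 = 1 := by rw [← mul_pow, hinv, one_pow]
  have h8 : u ^ 8 * w ^ 8 = 1 := by rw [← mul_pow, hinv, one_pow]
  have h2 : u ^ 2 * w ^ 2 = 1 := by rw [← mul_pow, hinv, one_pow]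
  have m : ∀ {a b : K}, a ∈ A → b ∈ A → a * b ∈ A := fun ha hb => A.toSubring.mul_mem ha hb
  have ad : ∀ {a b : K}, a ∈ A → b ∈ A → a + b ∈ A := fun ha hb => A.toSubring.add_mem ha hb
  have sb : ∀ {a b : K}, a ∈ A → b ∈ A → a - b ∈ A := fun ha hb => A.toSubring.sub_mem ha hb
  have pw : ∀ {a : K} (n : ℕ), a ∈ A → a ^ n ∈ A := fun n ha => A.toSubring.pow_mem ha n
  have nt : ∀ n : ℕ, (n : K) ∈ A := fun n => natCast_mem A.toSubring n
  have hr : C.r ∈ A := by
    rcases A.mem_or_inv_mem C.r with h1 | h1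
    · exact h1
    · by_cases hr0 : C.r = 0
      · rw [hr0]; exact A.zero_mem
      set y := C.r⁻¹ with hy
      have hry : C.r * y = 1 := mul_inv_cancel₀ hr0
      have q6 : algebraMap A K V.b₆ + 2 * C.r * algebraMap A K V.b₄ + C.r ^ 2 * algebraMap A K V.b₂ +
          4 * C.r ^ 3 = u ^ 6 * algebraMap A K W.b₆ := by
        rw [← e6]; linear_combination -(algebraMap A K V.b₆ + 2 * C.r * algebraMap A K V.b₄ + C.r ^ 2 * algebraMap A K V.b₂ +
          4 * C.r ^ 3) * h6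
      have q8 : algebraMap A K V.b₈ + 3 * C.r * algebraMap A K V.b₆ + 3 * C.r ^ 2 * algebraMap A K V.b₄ +
          C.r ^ 3 * algebraMap A K V.b₂ + 3 * C.r ^ 4 = u ^ 8 * algebraMap A K W.b₈ := by
        rw [← e8]; linear_combination -(algebraMap A K V.b₈ + 3 * C.r * algebraMap A K V.b₆ + 3 * C.r ^ 2 * algebraMap A K V.b₄ +
          C.r ^ 3 * algebraMap A K V.b₂ + 3 * C.r ^ 4) * h8
      -- `4 = y α`, `3 = y β`
      have key : C.r = ((u ^ 6 * algebraMap A K W.b₆ - algebraMap A K V.b₆) * y ^ 2 -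
          2 * algebraMap A K V.b₄ * y - algebraMap A K V.b₂) -
          ((u ^ 8 * algebraMap A K W.b₈ - algebraMap A K V.b₈) * y ^ 3 - 3 * algebraMap A K V.b₆ * y ^ 2 -
            3 * algebraMap A K V.b₄ * y - algebraMap A K V.b₂) := by
        rw [← q6, ← q8]
        have hy' : y = C.r⁻¹ := hy
        rw [hy']
        field_simp
        ring
      rw [key]
      refine sb (sb (sb (m (sb (m (pw 6 hu) (hA _)) (hA _)) (pw 2 h1)) (m (m (nt 2) (hA _)) h1)) (hA _))
        (sb (sb (sb (m (sb (m (pw 8 hu) (hA _)) (hA _)) (pw 3 h1)) (m (m (nt 3) (hA _)) (pw 2 h1)))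
          (m (m (nt 3) (hA _)) h1)) (hA _))
  have hs : C.s ∈ A := by
    refine int_of_monic (b := algebraMap A K V.a₁)
      (c := u ^ 2 * algebraMap A K W.a₂ - algebraMap A K V.a₂ - 3 * C.r) (hA _)
      (sb (sb (m (pw 2 hu) (hA _)) (hA _)) (m (nt 3) hr)) ?_
    rw [← ea2]
    linear_combination (algebraMap A K V.a₂ - C.s * algebraMap A K V.a₁ + 3 * C.r - C.s ^ 2) * h2
  have ht : C.t ∈ A := by
    refine int_of_monic (b := algebraMap A K V.a₃ + C.r * algebraMap A K V.a₁)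
      (c := u ^ 6 * algebraMap A K W.a₆ - (algebraMap A K V.a₆ + C.r * algebraMap A K V.a₄ +
        C.r ^ 2 * algebraMap A K V.a₂ + C.r ^ 3)) (ad (hA _) (m hr (hA _)))
      (sb (m (pw 6 hu) (hA _)) (ad (ad (ad (hA _) (m hr (hA _))) (m (pw 2 hr) (hA _))) (pw 3 hr))) ?_
    rw [← ea6]
    linear_combination (algebraMap A K V.a₆ + C.r * algebraMap A K V.a₄ +
        C.r ^ 2 * algebraMap A K V.a₂ + C.r ^ 3 - C.t * algebraMap A K V.a₃ - C.t ^ 2 -
        C.r * C.t * algebraMap A K V.a₁) * h6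
  exact ⟨hr, hs, ht⟩

end val

section nf

variable {K : Type} [Field K] [NumberField K]

theorem aff_model (v : HeightOneSpectrum (𝓞 K)) {V W : WeierstrassCurve (𝓞 K)}
    {C : WeierstrassCurve.VariableChange K} (hu : v.valuation K (C.u : K) = 1)
    (h : C • V.map (algebraMap (𝓞 K) K) = W.map (algebraMap (𝓞 K) K)) :
    aff (V.map (Ideal.Quotient.mk v.asIdeal)) = aff (W.map (Ideal.Quotient.mk v.asIdeal)) := by
  set A := HeightOneSpectrum.valuationSubringAtPrime K v with hA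
  have hAv : ∀ x : K, x ∈ A ↔ v.valuation K x ≤ 1 := by
    intro x
    rw [hA, HeightOneSpectrum.valuationSubringAtPrime_eq_valuationSubring]
    rfl
  have hu1 : (C.u : K) ∈ A := (hAv _).2 hu.le
  have hu2 : ((C.u⁻¹ : Kˣ) : K) ∈ A := by
    rw [hAv, Units.val_inv_eq_inv_val, map_inv₀, hu, inv_one]
  have hcomp : (algebraMap A K).comp (algebraMap (𝓞 K) A) = algebraMap (𝓞 K) K :=
    (IsScalarTower.algebraMap_eq (𝓞 K) A K).symm
  have h' : C • (V.map (algebraMap (𝓞 K) A)).map (algebraMap A K) =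
      (W.map (algebraMap (𝓞 K) A)).map (algebraMap A K) := by
    rw [WeierstrassCurve.map_map, WeierstrassCurve.map_map, hcomp]
    exact h
  obtain ⟨hr, hs, ht⟩ := rst_int hu1 h'
  have huu : (C.u : K) * ((C.u⁻¹ : Kˣ) : K) = 1 := Units.mul_inv _
  set C' : WeierstrassCurve.VariableChange A :=
    ⟨⟨⟨(C.u : K), hu1⟩, ⟨((C.u⁻¹ : Kˣ) : K), hu2⟩, Subtype.ext huu, Subtype.ext (by
      show ((C.u⁻¹ : Kˣ) : K) * (C.u : K) = 1
      rw [mul_comm]; exact huu)⟩, ⟨C.r, hr⟩, ⟨C.s, hs⟩, ⟨C.t, ht⟩⟩ with hC'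
  have hC : C'.map (algebraMap A K) = C := by
    apply WeierstrassCurve.VariableChange.ext
    · apply Units.ext
      rfl
    · rfl
    · rfl
    · rfl
  have h'' : C' • V.map (algebraMap (𝓞 K) A) = W.map (algebraMap (𝓞 K) A) := by
    have hinj : Function.Injective (algebraMap A K) := Subtype.val_injective
    apply WeierstrassCurve.map_injective hinj
    show (C' • V.map (algebraMap (𝓞 K) A)).map (algebraMap A K) =
      (W.map (algebraMap (𝓞 K) A)).map (algebraMap A K)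
    rw [← WeierstrassCurve.map_variableChange, hC]
    exact h'
  -- the residue map
  let ρ : A →+* (𝓞 K ⧸ v.asIdeal) := IsLocalization.lift (M := v.asIdeal.primeCompl)
    (g := Ideal.Quotient.mk v.asIdeal) (by
      intro y
      have hmax : v.asIdeal.IsMaximal := v.isPrime.isMaximal v.ne_bot
      let _ : Field (𝓞 K ⧸ v.asIdeal) := Ideal.Quotient.field v.asIdeal
      apply IsUnit.mk0
      intro h0
      exact y.2 (Ideal.Quotient.eq_zero_iff_mem.1 h0))
  have hρ : ρ.comp (algebraMap (𝓞 K) A) = Ideal.Quotient.mk v.asIdeal := IsLocalization.lift_comp _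
  have e1 : ∀ U : WeierstrassCurve (𝓞 K), U.map (Ideal.Quotient.mk v.asIdeal) =
      (U.map (algebraMap (𝓞 K) A)).map ρ := by
    intro U
    rw [WeierstrassCurve.map_map, hρ]
  rw [e1, e1, ← h'', ← WeierstrassCurve.map_variableChange, aff_change]

end nf

end Pool.Agent.Y699.Mdl
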