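import Pool.Agent.Y699.Mdl
import Pool.Agent.Y699.Chi

/-!
Minimal models of the curves `y² = x³ - D² x`.
-/

set_option autoImplicit false

open NumberField IsDedekindDomain

namespace Pool.Agent.Y699

open H385 (ZI RQ im1 nrm)
open Pool.Agent.W164.RC (tc_mul tc_star two2 prim_iff_dvd unit_norm unit_cases)
open Pool.Agent.H304R2.EC.A1 (prim prim_mul prim_cancel prim_one prim_norm_odd prim_star eq_one_of_prim
  norm_def' re_mul' im_mul' eq_of_dvd prim_ne_zero exists_prim)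

/-- the curve `y² = x³ - d² x` -/
def crv {R : Type*} [CommRing R] (d : R) : WeierstrassCurve R := ⟨0, 0, 0, -d ^ 2, 0⟩

lemma crv_Δ {R : Type*} [CommRing R] (d : R) : (crv d).Δ = 64 * d ^ 6 := by
  unfold crv
  simp only [WeierstrassCurve.Δ, WeierstrassCurve.b₂, WeierstrassCurve.b₄, WeierstrassCurve.b₆,
    WeierstrassCurve.b₈]
  ring

lemma crv_c4 {R : Type*} [CommRing R] (d : R) : (crv d).c₄ = 48 * d ^ 2 := by
  unfold crv
  simp only [WeierstrassCurve.c₄, WeierstrassCurve.b₂, WeierstrassCurve.b₄]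
  ring

lemma crv_map {R S : Type*} [CommRing R] [CommRing S] (f : R →+* S) (d : R) :
    (crv d).map f = crv (f d) := by
  unfold crv WeierstrassCurve.map
  simp

/-- fourth powers of odd elements -/
lemma pow_four_odd {x : ZI} (hx : ¬ pi1 ∣ x) : two2 ∣ x ^ 4 - 1 := by
  obtain ⟨u, hu⟩ := exists_Um ((norm_odd_iff x).2 hx)
  have h1 : u ^ 4 = 1 := by
    rcases unit_cases hu.1 with h | h | h | h <;> rw [h] <;> decide
  have h2 : prim ((u * x) ^ 4) := by
    have := prim_mul (prim_mul hu.2 hu.2) (prim_mul hu.2 hu.2)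
    have e : (u * x) ^ 4 = u * x * (u * x) * (u * x * (u * x)) := by ring
    rw [e]; exact this
  rw [mul_pow, h1, one_mul] at h2
  exact (prim_iff_dvd _).1 h2

lemma pi1_two : pi1 ∣ (2 : ZI) := ⟨⟨1, -1⟩, by decide⟩

lemma pi1_prim {D : ZI} (hD : prim D) : ¬ pi1 ∣ D := (norm_odd_iff D).1 (prim_norm_odd hD)

/-- no model of `y² = x³ - D² x` has good reduction at `1 + i` -/
lemma no_good {a1 a2 a3 a4 m n D : ZI} (hm : ¬ pi1 ∣ m) (hn : ¬ pi1 ∣ n) (hD : prim D)
    (h : ((a1 ^ 2 + 4 * a2) ^ 2 - 24 * (2 * a4 + a1 * a3)) * m ^ 4 = -12 * D ^ 2 * n ^ 4) : False := by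
  have hP := pi1_prime
  have hDo := pi1_prim hD
  have h1 : pi1 ∣ a1 := by
    have h2 : pi1 ∣ (a1 ^ 4) * m ^ 4 := by
      have e : a1 ^ 4 * m ^ 4 = 2 * (-6 * D ^ 2 * n ^ 4 - (4 * a1 ^ 2 * a2 + 8 * a2 ^ 2
        - 12 * (2 * a4 + a1 * a3)) * m ^ 4) := by linear_combination h
      rw [e]
      exact pi1_two.mul_right _
    rcases hP.dvd_or_dvd h2 with h3 | h3
    · exact hP.dvd_of_dvd_pow h3
    · exact absurd (hP.dvd_of_dvd_pow h3) hm
  obtain ⟨g, rfl⟩ := h1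
  have e2 : pi1 ^ 2 = 2 * im1 := by decide
  have e3 : im1 ^ 2 = (-1 : ZI) := by decide
  set T : ZI := g ^ 4 - 4 * im1 * g ^ 2 * a2 - 4 * a2 ^ 2 + 12 * a4 + 6 * pi1 * g * a3 with hT
  have h4 : T * m ^ 4 = 3 * D ^ 2 * n ^ 4 := by
    have h5 : (-4 : ZI) * (T * m ^ 4) = -4 * (3 * D ^ 2 * n ^ 4) := by
      have e5 : -4 * (3 * D ^ 2 * n ^ 4) = -12 * D ^ 2 * n ^ 4 := by ring
      rw [e5, ← h, hT]
      have e6 : (pi1 * g) ^ 2 = 2 * im1 * g ^ 2 := by rw [mul_pow, e2]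
      have e7 : ((pi1 * g) ^ 2 + 4 * a2) ^ 2 = -4 * (g ^ 4 - 4 * im1 * g ^ 2 * a2 - 4 * a2 ^ 2) := by
        rw [e6]
        linear_combination (4 * g ^ 4) * e3
      rw [e7]
      ring
    exact mul_left_cancel₀ (by decide) h5
  have h6 : two2 ∣ T - g ^ 4 := by
    refine ⟨⟨1, -1⟩ * (-im1 * g ^ 2 * a2 - a2 ^ 2 + 3 * a4) + 3 * g * a3, ?_⟩
    have e8 : two2 * ⟨1, -1⟩ = 4 := by decide
    have e9 : two2 = 2 * pi1 := by decide
    rw [hT]
    linear_combination (-(-im1 * g ^ 2 * a2 - a2 ^ 2 + 3 * a4)) * e8 - (3 * g * a3) * e9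
  have h7 : ¬ pi1 ∣ g := by
    intro hg
    have h8 : pi1 ∣ two2 := ⟨2, by decide⟩
    have h9 : pi1 ∣ T := by
      have := dvd_add (h8.trans h6) (dvd_pow hg (n := 4) (by norm_num))
      rwa [sub_add_cancel] at this
    have h10 : pi1 ∣ 3 * D ^ 2 * n ^ 4 := by rw [← h4]; exact h9.mul_right _
    rcases hP.dvd_or_dvd h10 with h11 | h11
    · rcases hP.dvd_or_dvd h11 with h12 | h12
      · have : pi1 ∣ (1 : ZI) := by
          have := dvd_sub h12 pi1_two
          have e : (3 : ZI) - 2 = 1 := by decide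
          rwa [e] at this
        exact hP.not_isUnit (isUnit_of_dvd_one this)
      · exact hDo (hP.dvd_of_dvd_pow h12)
    · exact hn (hP.dvd_of_dvd_pow h11)
  have k1 := pow_four_odd h7
  have k2 := pow_four_odd hm
  have k3 := pow_four_odd hn
  have k4 : two2 ∣ D ^ 2 - 1 := by
    have h8 := (prim_iff_dvd D).1 hD
    have e : D ^ 2 - 1 = (D - 1) * (D + 1) := by ring
    rw [e]
    exact h8.mul_right _
  have k5 : two2 ∣ (2 : ZI) := by
    have e : (2 : ZI) = (T - g ^ 4) * m ^ 4 + (g ^ 4 - 1) * m ^ 4 + (m ^ 4 - 1) -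
        3 * (D ^ 2 - 1) * n ^ 4 - 3 * (n ^ 4 - 1) := by linear_combination (-1) * h4
    rw [e]
    exact dvd_sub (dvd_sub (dvd_add (dvd_add (h6.mul_right _) (k1.mul_right _)) k2)
      ((k4.mul_left _).mul_right _)) (k3.mul_left _)
  obtain ⟨c, hc⟩ := k5
  have h1 := congrArg Zsqrtd.norm hc
  rw [Zsqrtd.norm_mul] at h1
  have h2 : two2.norm = 8 := by decide
  have h3 : (2 : ZI).norm = 4 := by decide
  rw [h2, h3] at h1
  omega

section

variable {K : Type} [Field K] [NumberField K]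

/-- `V` is an integral model of `E` -/
def IsMd (E : WeierstrassCurve K) (V : WeierstrassCurve (𝓞 K)) : Prop :=
  ∃ C : WeierstrassCurve.VariableChange K, C • V.map (algebraMap (𝓞 K) K) = E

/-- minimality of the discriminant at `v` -/
def MinAt (E : WeierstrassCurve K) (v : HeightOneSpectrum (𝓞 K)) (V : WeierstrassCurve (𝓞 K)) : Prop :=
  IsMd E V ∧ ∀ W' : WeierstrassCurve (𝓞 K), IsMd E W' → ∀ n : ℕ, V.Δ ∈ v.asIdeal ^ n → W'.Δ ∈ v.asIdeal ^ n

lemma mem_pow_iff (e : ZI ≃+* 𝓞 K) {v : HeightOneSpectrum (𝓞 K)} {z : ZI}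
    (hv : v.asIdeal = Ideal.span {e z}) (a : ZI) (n : ℕ) : e a ∈ v.asIdeal ^ n ↔ z ^ n ∣ a := by
  rw [hv, Ideal.span_singleton_pow, Ideal.mem_span_singleton, ← map_pow]
  constructor
  · intro h
    have := map_dvd e.symm h
    simpa using this
  · intro h
    exact map_dvd e h

lemma mem_iff (e : ZI ≃+* 𝓞 K) {v : HeightOneSpectrum (𝓞 K)} {z : ZI}
    (hv : v.asIdeal = Ideal.span {e z}) (a : ZI) : e a ∈ v.asIdeal ↔ z ∣ a := by
  have := mem_pow_iff e hv a 1
  rwa [pow_one, pow_one] at this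

lemma z_prime (e : ZI ≃+* 𝓞 K) {v : HeightOneSpectrum (𝓞 K)} {z : ZI}
    (hv : v.asIdeal = Ideal.span {e z}) : Prime z := by
  have hz0 : e z ≠ 0 := by
    intro h
    apply v.ne_bot
    rw [hv, h, Ideal.span_singleton_eq_bot]
  have h1 : Prime (e z) := by
    rw [← Ideal.span_singleton_prime hz0, ← hv]
    exact v.isPrime
  exact (MulEquiv.prime_iff e.toMulEquiv).1 h1

/-- the scaling factor between a minimal model and `y² = x³ - D² x` is a unit -/
theorem val_u (e : ZI ≃+* 𝓞 K) {v : HeightOneSpectrum (𝓞 K)} {z : ZI}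
    (hv : v.asIdeal = Ideal.span {e z}) (hz : z = pi1 ∨ ¬ z ∣ 2) {D : ZI} (hD : prim D)
    (hsq : ∀ π : ZI, Prime π → ¬ π ^ 2 ∣ D)
    {V : WeierstrassCurve (𝓞 K)} (hmin : MinAt (crv (algebraMap (𝓞 K) K (e D))) v V)
    {C : WeierstrassCurve.VariableChange K}
    (hC : C • V.map (algebraMap (𝓞 K) K) = crv (algebraMap (𝓞 K) K (e D))) :
    v.valuation K (C.u : K) = 1 := by
  have hzp := z_prime e hv
  have hD0 : D ≠ 0 := prim_ne_zero hD
  have hinj : Function.Injective (algebraMap (𝓞 K) K) := IsFractionRing.injective (𝓞 K) K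
  have hWD : IsMd (crv (algebraMap (𝓞 K) K (e D))) (crv (e D)) :=
    ⟨1, by rw [one_smul, crv_map]⟩
  have hΔ := congrArg WeierstrassCurve.Δ hC
  rw [WeierstrassCurve.variableChange_Δ, WeierstrassCurve.map_Δ, crv_Δ] at hΔ
  have hc4 := congrArg WeierstrassCurve.c₄ hC
  rw [WeierstrassCurve.variableChange_c₄, WeierstrassCurve.map_c₄, crv_c4] at hc4
  have hu0 : (C.u : K) ≠ 0 := C.u.ne_zero
  have hu' : ((C.u⁻¹ : Kˣ) : K) = (C.u : K)⁻¹ := Units.val_inv_eq_inv_val _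
  rw [hu'] at hΔ hc4
  set u : K := (C.u : K) with hu
  have hVΔ : algebraMap (𝓞 K) K V.Δ = u ^ 12 * algebraMap (𝓞 K) K ((crv (e D)).Δ) := by
    rw [crv_Δ, map_mul, map_pow, map_ofNat, ← hΔ, ← mul_assoc, ← mul_pow, mul_inv_cancel₀ hu0,
      one_pow, one_mul]
  have hW0 : (crv (e D)).Δ ≠ 0 := by
    rw [crv_Δ]
    exact mul_ne_zero (by norm_num) (pow_ne_zero _ ((map_ne_zero_iff e e.injective).2 hD0))
  have hV0 : V.Δ ≠ 0 := by
    intro h
    rw [h, map_zero] at hVΔ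
    rcases mul_eq_zero.1 hVΔ.symm with h1 | h1
    · exact hu0 (pow_eq_zero_iff (by norm_num) |>.1 h1)
    · exact hW0 (hinj (by rw [h1, map_zero]))
  -- the valuation is at least one
  have hge : 1 ≤ v.valuation K u := by
    by_contra hlt
    push Not at hlt
    have h1 : v.intValuation V.Δ < v.intValuation (crv (e D)).Δ := by
      have h2 := congrArg (v.valuation K) hVΔ
      rw [map_mul, map_pow, HeightOneSpectrum.valuation_of_algebraMap,
        HeightOneSpectrum.valuation_of_algebraMap] at h2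
      rw [h2]
      have h3 : v.intValuation (crv (e D)).Δ ≠ 0 := v.intValuation_ne_zero _ hW0
      have h4 : v.valuation K u ^ 12 < 1 := pow_lt_one₀ zero_le hlt (by norm_num)
      exact mul_lt_of_lt_one_left (zero_lt_iff.2 h3) h4
    have h5 := v.intValuation_eq_exp_neg_multiplicity hV0
    have h6 : V.Δ ∈ v.asIdeal ^ (multiplicity v.asIdeal (Ideal.span {V.Δ})) := by
      rw [← v.intValuation_le_pow_iff_mem, h5]
    have h7 := hmin.2 _ hWD _ h6
    rw [← v.intValuation_le_pow_iff_mem, ← h5] at h7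
    exact absurd h7 (not_le.2 h1)
  refine le_antisymm ?_ hge
  by_contra hlt
  push Not at hlt
  -- write `u⁻¹` as a fraction
  have h1 : v.valuation K u⁻¹ < 1 := by
    rw [map_inv₀]
    exact inv_lt_one_of_one_lt₀ hlt
  obtain ⟨a', b', hab'⟩ := v.exists_primeCompl_mul_eq_of_integer u⁻¹ h1.le
  obtain ⟨a, rfl⟩ := e.surjective a'
  obtain ⟨b, hb⟩ := e.surjective (b' : 𝓞 K)
  have hbv : ¬ z ∣ b := by
    intro h
    have h2 := (mem_iff e hv b).2 h
    rw [hb] at h2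
    exact b'.2 h2
  rw [← hb] at hab'
  have hav : z ∣ a := by
    have h2 : v.valuation K (algebraMap (𝓞 K) K (e a)) < 1 := by
      rw [← hab', map_mul]
      refine mul_lt_one_of_lt_of_le h1 ?_
      exact v.valuation_le_one _
    rw [← mem_iff e hv]
    exact (v.valuation_lt_one_iff_mem (K := K) _).1 h2
  have hΔ' : e.symm V.Δ * a ^ 12 = 64 * D ^ 6 * b ^ 12 := by
    apply e.injective
    apply hinj
    rw [map_mul, map_mul, map_pow, map_pow, RingEquiv.apply_symm_apply, map_mul, map_mul, map_mul,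
      map_mul, map_pow, map_pow, map_pow, map_pow, map_ofNat, map_ofNat, ← hab']
    linear_combination (algebraMap (𝓞 K) K (e b)) ^ 12 * hΔ
  have hdvd : z ^ 12 ∣ 64 * D ^ 6 := by
    have h2 : z ^ 12 ∣ 64 * D ^ 6 * b ^ 12 := by
      rw [← hΔ']
      exact (pow_dvd_pow_of_dvd hav 12).mul_left _
    have h3 : IsCoprime (z ^ 12) (b ^ 12) :=
      (((hzp.irreducible.coprime_iff_not_dvd).2 hbv)).pow
    exact h3.dvd_of_dvd_mul_right h2
  rcases hz with hz | hz
  · subst hz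
    obtain ⟨a0, rfl⟩ := hav
    have hc : e.symm V.c₄ * (pi1 * a0) ^ 4 = 48 * D ^ 2 * b ^ 4 := by
      apply e.injective
      apply hinj
      have e0 : algebraMap (𝓞 K) K (e (e.symm V.c₄ * (pi1 * a0) ^ 4)) =
          algebraMap (𝓞 K) K V.c₄ * (algebraMap (𝓞 K) K (e (pi1 * a0))) ^ 4 := by
        rw [map_mul, map_mul, map_pow, map_pow, RingEquiv.apply_symm_apply]
      rw [e0, ← hab']
      simp only [map_mul, map_pow, map_ofNat]
      linear_combination (algebraMap (𝓞 K) K (e b)) ^ 4 * hc4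
    have e4 : pi1 ^ 4 = (-4 : ZI) := by decide
    have ha0 : ¬ pi1 ∣ a0 := by
      rintro ⟨a1, rfl⟩
      have h2 : pi1 ^ 24 ∣ 64 * D ^ 6 * b ^ 12 := by
        rw [← hΔ']
        exact ⟨e.symm V.Δ * a1 ^ 12, by ring⟩
      have e5 : (64 : ZI) = -(pi1 ^ 12) := by decide
      have h3 : pi1 ^ 12 * pi1 ^ 12 ∣ pi1 ^ 12 * (D ^ 6 * b ^ 12) := by
        rw [← pow_add]
        refine (h2.trans ?_)
        rw [e5]
        exact ⟨-1, by ring⟩
      have h4 := (mul_dvd_mul_iff_left (pow_ne_zero 12 pi1_prime.ne_zero)).1 h3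
      have h5 : pi1 ∣ D ^ 6 * b ^ 12 := (dvd_pow_self _ (by norm_num)).trans h4
      rcases pi1_prime.dvd_or_dvd h5 with h6 | h6
      · exact pi1_prim hD (pi1_prime.dvd_of_dvd_pow h6)
      · exact hbv (pi1_prime.dvd_of_dvd_pow h6)
    have hc' : e.symm V.c₄ * a0 ^ 4 = -12 * D ^ 2 * b ^ 4 := by
      have h2 : (-4 : ZI) * (e.symm V.c₄ * a0 ^ 4) = -4 * (-12 * D ^ 2 * b ^ 4) := by
        have e6 : -4 * (-12 * D ^ 2 * b ^ 4) = 48 * D ^ 2 * b ^ 4 := by ring
        rw [e6, ← hc, mul_pow, e4]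
        ring
      exact mul_left_cancel₀ (by decide) h2
    refine no_good (a1 := e.symm V.a₁) (a2 := e.symm V.a₂) (a3 := e.symm V.a₃) (a4 := e.symm V.a₄)
      ha0 hbv hD ?_
    rw [← hc']
    congr 1
    unfold WeierstrassCurve.c₄ WeierstrassCurve.b₂ WeierstrassCurve.b₄
    simp only [map_sub, map_add, map_mul, map_pow, map_ofNat]
  · -- odd prime
    have h2 : z ^ 12 ∣ D ^ 6 := by
      have h3 : IsCoprime (z ^ 12) (2 ^ 6) := ((hzp.irreducible.coprime_iff_not_dvd).2 hz).pow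
      have e5 : (64 : ZI) = 2 ^ 6 := by decide
      rw [e5] at hdvd
      exact h3.dvd_of_dvd_mul_left hdvd
    have h3 : z ∣ D := hzp.dvd_of_dvd_pow ((dvd_pow_self z (by norm_num)).trans h2)
    obtain ⟨D1, rfl⟩ := h3
    have h4 : z ^ 6 * z ^ 6 ∣ z ^ 6 * D1 ^ 6 := by
      rw [← pow_add, ← mul_pow]; exact h2
    have h5 := (mul_dvd_mul_iff_left (pow_ne_zero 6 hzp.ne_zero)).1 h4
    have h6 : z ∣ D1 := hzp.dvd_of_dvd_pow ((dvd_pow_self z (by norm_num)).trans h5)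
    exact hsq z hzp (by rw [sq]; exact mul_dvd_mul_left z h6)

end

end Pool.Agent.Y699
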