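import Pool.Agent.Y699.Min
import Pool.Agent.Y699.Rec
import Pool.Agent.H82R3.EK.Local

/-!
Places of the Gaussian field and the number of points of the reductions.
-/

set_option autoImplicit false

open NumberField IsDedekindDomain

namespace Pool.Agent.Y699

open H385 (ZI RQ im1 nrm)
open Pool.Agent.W164.RC (tc_mul tc_star two2 prim_iff_dvd unit_norm unit_cases Ip Ip_spec Ip_exists dg
  aD_roots)
open Pool.Agent.H304R2.EC.A1 (prim prim_mul prim_cancel prim_one prim_norm_odd prim_star eq_one_of_prim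
  norm_def' re_mul' im_mul' eq_of_dvd prim_ne_zero exists_prim)
open Pool.Agent.H921R2.TatePole (below deg nm nm_eq nm_summable two_le_nm)
open Pool.Agent.H82R3.EK (luc luc_eq)
open Pool.Agent.H304R3.HK (tc)

variable {K : Type} [Field K] [NumberField K]

omit [NumberField K] in
lemma quot_card (e : ZI ≃+* 𝓞 K) (z : ZI) : Nat.card (𝓞 K ⧸ Ideal.span {e z}) = nrm z := by
  rw [← H385.H10.card_RQ z]
  exact Nat.card_congr (Ideal.quotientEquiv (Ideal.span {z}) (Ideal.span {e z}) e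
    (by rw [Ideal.map_span, Set.image_singleton]; rfl)).toEquiv.symm

lemma norm_pg (e : ZI ≃+* 𝓞 K) {v : HeightOneSpectrum (𝓞 K)} {z : ZI}
    (hv : v.asIdeal = Ideal.span {e z}) : Ideal.absNorm v.asIdeal = nrm z := by
  rw [Ideal.absNorm_apply, Submodule.cardQuot_apply, hv]
  exact quot_card e z

lemma eq_span (e : ZI ≃+* 𝓞 K) {v : HeightOneSpectrum (𝓞 K)} {z : ZI} (hz : Prime z)
    (h : e z ∈ v.asIdeal) : v.asIdeal = Ideal.span {e z} := by
  have h1 : Prime (e z) := (MulEquiv.prime_iff e.toMulEquiv).2 hz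
  have h2 : (Ideal.span {e z} : Ideal (𝓞 K)).IsPrime := (Ideal.span_singleton_prime h1.ne_zero).2 h1
  have h3 : (Ideal.span {e z} : Ideal (𝓞 K)) ≤ v.asIdeal := (Ideal.span_singleton_le_iff_mem _).2 h
  have h4 : (Ideal.span {e z} : Ideal (𝓞 K)) ≠ ⊥ := by
    rw [Ne, Ideal.span_singleton_eq_bot]; exact h1.ne_zero
  exact ((h2.isMaximal h4).eq_of_le v.isPrime.ne_top h3).symm

/-- the primary generator -/
theorem exists_pg (e : ZI ≃+* 𝓞 K) (v : HeightOneSpectrum (𝓞 K)) :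
    ∃ z : ZI, v.asIdeal = Ideal.span {e z} ∧
      (((below v : ℕ) = 2 ∧ z = pi1) ∨ ((below v : ℕ) ≠ 2 ∧ z ∈ Ip (below v))) := by
  have h3 := (nm_eq v).2.2
  by_cases h2 : (below v : ℕ) = 2
  · refine ⟨pi1, eq_span e pi1_prime ?_, Or.inl ⟨h2, rfl⟩⟩
    rw [h2] at h3
    have h5 : e pi1 * e pi1 ∈ v.asIdeal := by
      have e1 : pi1 * pi1 = ⟨0, 1⟩ * ((2 : ℕ) : ZI) := by decide
      rw [← map_mul, e1, map_mul, map_natCast]
      exact v.asIdeal.mul_mem_left _ h3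
    rcases v.isPrime.mem_or_mem h5 with h | h <;> exact h
  · have := v.isPrime
    obtain ⟨z, hz, hzv⟩ := Ip_exists (below v).2 h2 (e : ZI →+* 𝓞 K) v.asIdeal h3
    exact ⟨z, eq_span e (Ip_spec (below v).2 hz).2.1 hzv, Or.inr ⟨h2, hz⟩⟩

/-- number of points on `y² = x³ - d² x` over the residue field -/
noncomputable def cnt (v : HeightOneSpectrum (𝓞 K)) (d : 𝓞 K ⧸ v.asIdeal) : ℕ :=
  Nat.card {x : (𝓞 K ⧸ v.asIdeal) × (𝓞 K ⧸ v.asIdeal) // x.2 ^ 2 = x.1 ^ 3 - d ^ 2 * x.1}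

omit [NumberField K] in
lemma aff_crv (v : HeightOneSpectrum (𝓞 K)) (d : 𝓞 K) :
    Mdl.aff ((crv d).map (Ideal.Quotient.mk v.asIdeal)) = cnt v (Ideal.Quotient.mk v.asIdeal d) := by
  rw [crv_map]
  unfold Mdl.aff cnt
  refine Nat.card_congr (Equiv.subtypeEquivRight fun x => ?_)
  rw [WeierstrassCurve.Affine.equation_iff]
  unfold crv
  simp only [zero_mul, add_zero]
  constructor <;> intro h <;> linear_combination h

/-- bad places -/
lemma cnt_bad (e : ZI ≃+* 𝓞 K) {v : HeightOneSpectrum (𝓞 K)} {z D : ZI}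
    (hv : v.asIdeal = Ideal.span {e z}) (hD : prim D)
    (h : ((below v : ℕ) = 2 ∧ z = pi1) ∨ z ∣ D) :
    ((Ideal.absNorm v.asIdeal : ℕ) : ℤ) - cnt v (Ideal.Quotient.mk v.asIdeal (e D)) = 0 := by
  rcases h with h | h
  · have h1 := Pool.Agent.H82R3.EK.trace_bad (D := 1) v (by rw [h.1])
    have h2 : Ideal.Quotient.mk v.asIdeal (e D) = ((1 : ℕ) : 𝓞 K ⧸ v.asIdeal) := by
      rw [Nat.cast_one, ← map_one (Ideal.Quotient.mk v.asIdeal), Ideal.Quotient.eq, ← map_one e,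
        ← map_sub, mem_iff e hv, h.2]
      have h3 := (prim_iff_dvd D).1 hD
      exact (show pi1 ∣ two2 from ⟨2, by decide⟩).trans h3
    unfold cnt
    rw [h2]
    exact h1
  · have h1 := Pool.Agent.H82R3.EK.trace_bad (D := (below v : ℕ)) v (dvd_mul_left _ _)
    have h2 : Ideal.Quotient.mk v.asIdeal (e D) = (((below v : ℕ) : ℕ) : 𝓞 K ⧸ v.asIdeal) := by
      have h3 : (((below v : ℕ) : ℕ) : 𝓞 K ⧸ v.asIdeal) = 0 := by
        have := Ideal.Quotient.eq_zero_iff_mem.2 (nm_eq v).2.2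
        simpa using this
      rw [h3, Ideal.Quotient.eq_zero_iff_mem, mem_iff e hv]
      exact h
    unfold cnt
    rw [h2]
    exact h1

/-- good places: the trace of the twist -/
lemma cnt_twist (e : ZI ≃+* 𝓞 K) {v : HeightOneSpectrum (𝓞 K)} {z D : ZI} (hz : PP z)
    (hv : v.asIdeal = Ideal.span {e z}) (hD : ¬ z ∣ D) :
    ((Ideal.absNorm v.asIdeal : ℕ) : ℤ) - cnt v (Ideal.Quotient.mk v.asIdeal (e D)) =
      qr z D * (((Ideal.absNorm v.asIdeal : ℕ) : ℤ) - cnt v 1) := by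
  classical
  have hmax : v.asIdeal.IsMaximal := v.isPrime.isMaximal v.ne_bot
  letI : Field (𝓞 K ⧸ v.asIdeal) := Ideal.Quotient.field v.asIdeal
  have : Finite (𝓞 K ⧸ v.asIdeal) := Ideal.finiteQuotientOfFreeOfNeBot v.asIdeal v.ne_bot
  letI : Fintype (𝓞 K ⧸ v.asIdeal) := Fintype.ofFinite _
  set d : 𝓞 K ⧸ v.asIdeal := Ideal.Quotient.mk v.asIdeal (e D) with hd
  have hd0 : d ≠ 0 := by
    rw [hd, Ne, Ideal.Quotient.eq_zero_iff_mem, mem_iff e hv]
    exact hD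
  have hchar : ringChar (𝓞 K ⧸ v.asIdeal) ≠ 2 := by
    intro h2
    have h3 : ((2 : ℕ) : 𝓞 K ⧸ v.asIdeal) = 0 := by
      rw [← h2]
      exact ringChar.Nat.cast_ringChar
    have h4 : Ideal.Quotient.mk v.asIdeal (e 2) = 0 := by
      rw [← h3, map_ofNat, map_ofNat]
      norm_num
    rw [Ideal.Quotient.eq_zero_iff_mem, mem_iff e hv] at h4
    exact not_dvd_two hz h4
  have hcard : Ideal.absNorm v.asIdeal = Fintype.card (𝓞 K ⧸ v.asIdeal) := by
    rw [Ideal.absNorm_apply, Submodule.cardQuot_apply, Nat.card_eq_fintype_card]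
  have hq : qr z D = quadraticChar (𝓞 K ⧸ v.asIdeal) d := by
    unfold qr
    rw [quadraticChar_apply, quadraticCharFun, if_neg hD, if_neg hd0]
    have h1 : (∃ b, z ∣ D - b ^ 2) ↔ IsSquare d := by
      constructor
      · rintro ⟨b, hb⟩
        refine ⟨Ideal.Quotient.mk _ (e b), ?_⟩
        rw [← map_mul, hd, Ideal.Quotient.eq, ← map_mul, ← map_sub, mem_iff e hv]
        rwa [← sq]
      · rintro ⟨c, hc⟩
        obtain ⟨c', rfl⟩ := Ideal.Quotient.mk_surjective c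
        obtain ⟨b, rfl⟩ := e.surjective c'
        rw [← map_mul, hd, Ideal.Quotient.eq, ← map_mul, ← map_sub, mem_iff e hv] at hc
        exact ⟨b, by rwa [sq]⟩
    by_cases h3 : ∃ b, z ∣ D - b ^ 2
    · rw [if_pos h3, if_pos (h1.1 h3)]
    · rw [if_neg h3, if_neg (fun h4 => h3 (h1.2 h4))]
  unfold cnt
  have c1 := Pool.Agent.H82R3.EK.card_points hchar (fun x : 𝓞 K ⧸ v.asIdeal => x ^ 3 - d ^ 2 * x)
  have c2 := Pool.Agent.H82R3.EK.card_points hchar (fun x : 𝓞 K ⧸ v.asIdeal => x ^ 3 - 1 ^ 2 * x)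
  rw [c1, c2, hcard]
  have h3 : ∑ x : 𝓞 K ⧸ v.asIdeal, quadraticChar (𝓞 K ⧸ v.asIdeal) (x ^ 3 - d ^ 2 * x) =
      qr z D * ∑ x : 𝓞 K ⧸ v.asIdeal, quadraticChar (𝓞 K ⧸ v.asIdeal) (x ^ 3 - 1 ^ 2 * x) := by
    rw [← Equiv.sum_comp (Equiv.mulLeft₀ d hd0), Finset.mul_sum, hq]
    refine Finset.sum_congr rfl fun x _ => ?_
    have e1 : (Equiv.mulLeft₀ d hd0) x = d * x := rfl
    have e2 : (d * x) ^ 3 - d ^ 2 * (d * x) = d ^ 2 * (d * (x ^ 3 - 1 ^ 2 * x)) := by ring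
    rw [e1, e2, map_mul, map_mul, quadraticChar_sq_one' hd0, one_mul]
  rw [h3]
  ring

/-- good places: the trace -/
theorem cnt_good (e : ZI ≃+* 𝓞 K) {v : HeightOneSpectrum (𝓞 K)} {z D : ZI}
    (h2 : (below v : ℕ) ≠ 2) (hz : z ∈ Ip (below v))
    (hv : v.asIdeal = Ideal.span {e z}) (hD : ¬ z ∣ D) :
    (((((Ideal.absNorm v.asIdeal : ℕ) : ℤ) - cnt v (Ideal.Quotient.mk v.asIdeal (e D)) : ℤ)) : ℂ) =
      (qr z D : ℂ) * (tc z + tc (star z)) := by
  obtain ⟨s1, s2, s3, s4⟩ := Ip_spec (below v).2 hz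
  have h3 := Pool.Agent.H82R3.EK.trace_good (D := 1) v (by
    rw [mul_one, Nat.prime_dvd_prime_iff_eq (below v).2 Nat.prime_two]
    exact h2)
  rw [cnt_twist e ⟨s2, s1⟩ hv hD]
  have h4 : cnt v 1 = Nat.card {x : (𝓞 K ⧸ v.asIdeal) × (𝓞 K ⧸ v.asIdeal) //
      x.2 ^ 2 = x.1 ^ 3 - ((1 : ℕ) : 𝓞 K ⧸ v.asIdeal) ^ 2 * x.1} := by
    unfold cnt
    rw [Nat.cast_one]
  rw [h4, h3]
  obtain ⟨α, β, k3, k4, k5, k6⟩ := aD_roots (below v).2 h2 hz
  have h7 := luc_eq k3 k4 (deg v)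
  have hdeg : deg v = dg (below v) := by
    have h1 := (nm_eq v).1
    unfold Pool.Agent.H921R2.TatePole.nm at h1
    rw [norm_pg e hv, s3] at h1
    exact (Nat.pow_right_injective (below v).2.two_le h1).symm
  push_cast
  rw [h7, hdeg, k5, k6]

end Pool.Agent.Y699
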