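import Pool.Agent.Y699.Hyp
import Pool.Agent.Y699.Hal2
import Pool.Agent.Y699.Iv

/-!
Sums over factorisations.
-/

set_option autoImplicit false

open Finset

namespace Pool.Agent.Y699

open H385 (ZI RQ im1 nrm BX)
open H385.H10 (mem_BX nrm_pos Dv mem_Dv card_Dv)
open Pool.Agent.W164.RC (two2 prim_iff_dvd unit_norm unit_cases)
open Pool.Agent.H304R2.EC.A1 (prim prim_mul prim_cancel prim_one prim_norm_odd prim_star eq_one_of_prim
  norm_def' re_mul' im_mul' eq_of_dvd prim_ne_zero exists_prim)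

lemma PS.mul_iff {x y : ZI} (hx : prim x) (hy : prim y) :
    PS (x * y) ↔ PS x ∧ PS y ∧ IsCoprime x y := by
  constructor
  · intro h
    have h1 := squarefree_mul_iff.1 h.sqf
    exact ⟨⟨hx, h1.2.1⟩, ⟨hy, h1.2.2⟩, h1.1.isCoprime⟩
  · rintro ⟨h1, h2, h3⟩
    exact ⟨prim_mul hx hy, squarefree_mul_iff.2 ⟨h3.isRelPrime, h1.sqf, h2.sqf⟩⟩

lemma jac_cop {n c : ZI} (hn : PS n) (h : jac n c ≠ 0) : IsCoprime n c := by
  rw [← hn.prod, IsCoprime.prod_left_iff]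
  intro π hπ
  have hπP := ((mem_PD hn.ne).1 hπ).1
  rw [hπP.pr.irreducible.coprime_iff_not_dvd]
  intro hd
  exact h (prod_eq_zero hπ (qr_zero_iff.2 hd))

lemma PS_three {x y r : ZI} (hx : prim x) (hy : prim y) (hr : prim r) (h : IsCoprime x y) :
    PS (x * y * r) ↔ PS (x * r) ∧ PS (y * r) := by
  rw [PS.mul_iff (prim_mul hx hy) hr, PS.mul_iff hx hy, PS.mul_iff hx hr, PS.mul_iff hy hr,
    IsCoprime.mul_left_iff]
  constructor
  · rintro ⟨⟨h1, h2, -⟩, h3, h4, h5⟩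
    exact ⟨⟨h1, h3, h4⟩, h2, h3, h5⟩
  · rintro ⟨⟨h1, h3, h4⟩, h2, -, h5⟩
    exact ⟨⟨h1, h2, h⟩, h3, h4, h5⟩

open Classical in
/-- the set of all `D` -/
noncomputable def Ind (X : ℕ) (D : ZI) : ℝ := if PS D ∧ nrm D ≤ X then 1 else 0

open Classical in
/-- the set of `D` of the right class -/
noncomputable def Ph (X : ℕ) (D : ZI) : ℝ := if PS D ∧ nrm D ≤ X ∧ D.norm % 8 = 5 then 1 else 0

/-- the character modulo 4 -/
noncomputable def psi (D : ZI) : ℝ := if D.norm % 8 = 5 then -1 else 1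

lemma psi_abs (D : ZI) : |psi D| ≤ 1 := by
  unfold psi
  split_ifs <;> simp

lemma prim_norm_four {x : ZI} (h : prim x) : x.norm % 8 = 1 ∨ x.norm % 8 = 5 := by
  obtain ⟨w, hw⟩ := (prim_iff_dvd x).1 h
  have e1 := congrArg Zsqrtd.re hw
  have e2 := congrArg Zsqrtd.im hw
  simp [two2] at e1 e2
  obtain ⟨a, b⟩ := w
  simp only at e1 e2
  rw [norm_def']
  have h1 : x.re = 1 + 2 * (a - b) := by linarith
  have h2 : x.im = 2 * (a + b) := by linarith
  rw [h1, h2]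
  have h3 : (1 + 2 * (a - b)) ^ 2 + (2 * (a + b)) ^ 2 = 1 + 4 * ((a - b) * (a - b + 1)) + 4 * ((a + b) * (a + b)) := by
    ring
  rw [h3]
  obtain ⟨t, ht⟩ : ∃ t, (a - b) * (a - b + 1) = 2 * t := by
    rcases Int.even_mul_succ_self (a - b) with ⟨t, ht⟩
    exact ⟨t, by linarith⟩
  rw [ht]
  rcases Int.emod_two_eq_zero_or_one ((a + b) * (a + b)) with h4 | h4 <;> omega

lemma psi_mul {x y : ZI} (hx : prim x) (hy : prim y) : psi (x * y) = psi x * psi y := by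
  unfold psi
  rw [Zsqrtd.norm_mul, Int.mul_emod]
  rcases prim_norm_four hx with h1 | h1 <;> rcases prim_norm_four hy with h2 | h2 <;> rw [h1, h2] <;> norm_num

lemma Ph_eq (X : ℕ) (D : ZI) : Ph X D = (1 / 2) * (Ind X D - Ind X D * psi D) := by
  unfold Ph Ind psi
  by_cases h1 : PS D ∧ nrm D ≤ X
  · by_cases h2 : D.norm % 8 = 5
    · rw [if_pos ⟨h1.1, h1.2, h2⟩, if_pos h1, if_pos h2]; norm_num
    · rw [if_neg (fun h => h2 h.2.2), if_pos h1, if_neg h2]; norm_num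
  · rw [if_neg (fun h => h1 ⟨h.1, h.2.1⟩), if_neg h1]; norm_num

lemma Ph_nonneg (X : ℕ) (D : ZI) : 0 ≤ Ph X D := by
  unfold Ph; split_ifs <;> norm_num

lemma Ph_le (X : ℕ) (D : ZI) : Ph X D ≤ 1 := by
  unfold Ph; split_ifs <;> norm_num

lemma Ph_ne {X : ℕ} {D : ZI} (h : Ph X D ≠ 0) : PS D ∧ nrm D ≤ X ∧ D.norm % 8 = 5 := by
  unfold Ph at h
  by_contra h'
  rw [if_neg h'] at h
  exact h rfl

lemma SB_mono {M N : ℕ} (h : M ≤ N) : SB M ⊆ SB N := by
  intro x hx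
  rw [mem_SB] at hx ⊢
  exact ⟨hx.1.trans h, hx.2⟩

/-- the hyperbolic sum with parameters -/
theorem blp : ∃ C : ℝ, 1 ≤ C ∧ ∀ (u v : ZI → ℝ), (∀ x, |u x| ≤ 1) → (∀ x, |v x| ≤ 1) →
    ∀ Z X : ℕ, 1 ≤ Z → (∀ x, nrm x ≤ Z → u x = 0) → (∀ x, nrm x ≤ Z → v x = 0) → ∀ r : ZI, prim r →
    |∑ x ∈ SB X, ∑ y ∈ SB X, Ind X (x * y * r) * (u x * v y * jac x y)| ≤
      C * ((X : ℝ) / nrm r * lg X) * (Z : ℝ) ^ (-(1 / 96) : ℝ) := by
  classical
  obtain ⟨C, hC1, hC⟩ := hyp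
  refine ⟨C, hC1, ?_⟩
  intro u v hu hv Z X hZ hu0 hv0 r hr
  have hr0 := prim_ne_zero hr
  have hrp := nrm_pos' hr0
  set T := X / nrm r with hT
  have hTX : T ≤ X := Nat.div_le_self _ _
  set α : ZI → ℝ := fun x => if PS (x * r) then u x else 0 with hα
  set β : ZI → ℝ := fun x => if PS (x * r) then v x else 0 with hβ
  have e1 : ∑ x ∈ SB X, ∑ y ∈ SB X, Ind X (x * y * r) * (u x * v y * jac x y) = HB α β Z T := by
    have e2 : ∀ x ∈ SB X, ∀ y ∈ SB X, Ind X (x * y * r) * (u x * v y * (jac x y : ℝ)) =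
        if Z < nrm x ∧ Z < nrm y ∧ nrm x * nrm y ≤ T then α x * β y * jac x y else 0 := by
      intro x hx y hy
      rw [mem_SB] at hx hy
      by_cases c1 : nrm x ≤ Z
      · rw [hu0 x c1, if_neg (by omega)]; ring
      by_cases c2 : nrm y ≤ Z
      · rw [hv0 y c2, if_neg (by omega)]; ring
      have c3 : nrm (x * y * r) ≤ X ↔ nrm x * nrm y ≤ T := by
        rw [nrm_mul, nrm_mul, hT, Nat.le_div_iff_mul_le hrp]
      by_cases c4 : nrm x * nrm y ≤ T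
      · rw [if_pos ⟨by omega, by omega, c4⟩]
        by_cases c5 : jac x y = 0
        · rw [c5]; simp
        · have c6 := jac_cop hx.2 c5
          have c7 := PS_three hx.2.prm hy.2.prm hr c6
          unfold Ind
          simp only [hα, hβ]
          by_cases c8 : PS (x * y * r)
          · obtain ⟨c9, c10⟩ := c7.1 c8
            rw [if_pos ⟨c8, c3.2 c4⟩, if_pos c9, if_pos c10]; ring
          · rw [if_neg (fun h => c8 h.1)]
            by_cases c9 : PS (x * r)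
            · by_cases c10 : PS (y * r)
              · exact absurd (c7.2 ⟨c9, c10⟩) c8
              · rw [if_neg c10]; ring
            · rw [if_neg c9]; ring
      · rw [if_neg (fun h => c4 h.2.2)]
        unfold Ind
        rw [if_neg (fun h => c4 (c3.1 h.2)), zero_mul]
    rw [sum_congr rfl (fun x hx => sum_congr rfl (fun y hy => e2 x hx y hy))]
    unfold HB
    symm
    have hz : ∀ x ∈ SB X, ∀ y ∈ SB X, ¬ (x ∈ SB T ∧ y ∈ SB T) →
        (if Z < nrm x ∧ Z < nrm y ∧ nrm x * nrm y ≤ T then α x * β y * (jac x y : ℝ) else 0) = 0 := by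
      intro x hx y hy h
      rw [if_neg]
      rintro ⟨-, -, h3⟩
      rw [mem_SB] at hx hy
      have h4 := nrm_pos' hx.2.ne
      have h5 := nrm_pos' hy.2.ne
      apply h
      rw [mem_SB, mem_SB]
      exact ⟨⟨(Nat.le_mul_of_pos_right _ h5).trans h3, hx.2⟩, (Nat.le_mul_of_pos_left _ h4).trans h3, hy.2⟩
    have h1 : ∑ x ∈ SB T, ∑ y ∈ SB T,
        (if Z < nrm x ∧ Z < nrm y ∧ nrm x * nrm y ≤ T then α x * β y * (jac x y : ℝ) else 0) =
        ∑ x ∈ SB T, ∑ y ∈ SB X,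
        (if Z < nrm x ∧ Z < nrm y ∧ nrm x * nrm y ≤ T then α x * β y * (jac x y : ℝ) else 0) := by
      refine sum_congr rfl fun x hx => ?_
      refine sum_subset (SB_mono hTX) ?_
      intro y hy hy'
      exact hz x (SB_mono hTX hx) y hy (fun h => hy' h.2)
    rw [h1]
    refine sum_subset (SB_mono hTX) ?_
    intro x hx hx'
    refine sum_eq_zero fun y hy => ?_
    exact hz x hx y hy (fun h => hx' h.1)
  rw [e1]
  have h2 := hC α β (cut_abs hu _) (cut_abs hv _) Z T hZ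
  refine h2.trans ?_
  apply mul_le_mul_of_nonneg_right _ (by positivity)
  apply mul_le_mul_of_nonneg_left _ (by linarith)
  have h3 : (T : ℝ) ≤ (X : ℝ) / nrm r := Nat.cast_div_le
  exact mul_le_mul h3 (lg_mono hTX) (lg_pos _).le (by positivity)

/-- the hyperbolic sum in the right class -/
theorem blw : ∃ C : ℝ, 1 ≤ C ∧ ∀ (u v : ZI → ℝ), (∀ x, |u x| ≤ 1) → (∀ x, |v x| ≤ 1) →
    ∀ Z X : ℕ, 1 ≤ Z → (∀ x, nrm x ≤ Z → u x = 0) → (∀ x, nrm x ≤ Z → v x = 0) → ∀ r : ZI, prim r →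
    |∑ x ∈ SB X, ∑ y ∈ SB X, Ph X (x * y * r) * (u x * v y * jac x y)| ≤
      C * ((X : ℝ) / nrm r * lg X) * (Z : ℝ) ^ (-(1 / 96) : ℝ) := by
  obtain ⟨C, hC1, hC⟩ := blp
  refine ⟨C, hC1, ?_⟩
  intro u v hu hv Z X hZ hu0 hv0 r hr
  have h1 := hC u v hu hv Z X hZ hu0 hv0 r hr
  have hmul : ∀ {w : ZI → ℝ}, (∀ x, |w x| ≤ 1) → ∀ x, |w x * psi x| ≤ 1 := by
    intro w hw x
    rw [abs_mul]
    exact mul_le_one₀ (hw x) (abs_nonneg _) (psi_abs x)
  have h2 := hC (fun x => u x * psi x) (fun x => v x * psi x) (hmul hu) (hmul hv) Z X hZ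
    (fun x hx => by rw [hu0 x hx, zero_mul]) (fun x hx => by rw [hv0 x hx, zero_mul]) r hr
  have e1 : ∑ x ∈ SB X, ∑ y ∈ SB X, Ph X (x * y * r) * (u x * v y * (jac x y : ℝ)) =
      (1 / 2) * ∑ x ∈ SB X, ∑ y ∈ SB X, Ind X (x * y * r) * (u x * v y * jac x y) -
      (1 / 2) * psi r * ∑ x ∈ SB X, ∑ y ∈ SB X, Ind X (x * y * r) * ((u x * psi x) * (v y * psi y) * jac x y) := by
    rw [mul_sum, mul_sum, ← sum_sub_distrib]
    refine sum_congr rfl fun x hx => ?_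
    rw [mul_sum, mul_sum, ← sum_sub_distrib]
    refine sum_congr rfl fun y hy => ?_
    rw [mem_SB] at hx hy
    rw [Ph_eq, psi_mul (prim_mul hx.2.prm hy.2.prm) hr, psi_mul hx.2.prm hy.2.prm]
    ring
  rw [e1]
  refine (abs_sub _ _).trans ?_
  rw [abs_mul, abs_mul, abs_mul, abs_of_pos (show (0 : ℝ) < 1 / 2 by norm_num)]
  have h3 := psi_abs r
  have h4 := abs_nonneg (∑ x ∈ SB X, ∑ y ∈ SB X, Ind X (x * y * r) * ((u x * psi x) * (v y * psi y) * (jac x y : ℝ)))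
  have h5 : 1 / 2 * |psi r| * |∑ x ∈ SB X, ∑ y ∈ SB X, Ind X (x * y * r) * ((u x * psi x) * (v y * psi y) * (jac x y : ℝ))| ≤
      1 / 2 * |∑ x ∈ SB X, ∑ y ∈ SB X, Ind X (x * y * r) * ((u x * psi x) * (v y * psi y) * (jac x y : ℝ))| := by
    apply mul_le_mul_of_nonneg_right _ h4
    linarith
  linarith

/-- **sums over factorisations** -/
theorem pr_sum {X : ℕ} {Φ : ZI → ℝ} (hΦ : ∀ n, Φ n ≠ 0 → PS n ∧ nrm n ≤ X) (G : ZI → ZI → ℝ) :
    ∑ c ∈ SB X, ∑ e ∈ SB X, Φ (c * e) * G c e =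
      ∑ n ∈ SB X, Φ n * ∑ S ∈ (PD n).powerset, G (∏ π ∈ S, π) (∏ π ∈ PD n \ S, π) := by
  classical
  rw [← sum_product']
  have h1 : ∑ x ∈ (SB X) ×ˢ (SB X), Φ (x.1 * x.2) * G x.1 x.2 =
      ∑ x ∈ ((SB X) ×ˢ (SB X)).filter (fun x => x.1 * x.2 ∈ SB X), Φ (x.1 * x.2) * G x.1 x.2 := by
    symm
    refine sum_filter_of_ne ?_
    intro x _ hne
    have h2 : Φ (x.1 * x.2) ≠ 0 := left_ne_zero_of_mul hne
    obtain ⟨h3, h4⟩ := hΦ _ h2
    exact mem_SB.2 ⟨h4, h3⟩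
  rw [h1, ← sum_fiberwise_of_maps_to (t := SB X) (g := fun x : ZI × ZI => x.1 * x.2)
    (fun x hx => (mem_filter.1 hx).2)]
  refine sum_congr rfl fun n hn => ?_
  have hn' := (mem_SB.1 hn)
  have hn0 := hn'.2.ne
  rw [mul_sum]
  symm
  have hSP : ∀ S ∈ (PD n).powerset, ∀ π ∈ S, PP π := by
    intro S hS π hπ
    exact ((mem_PD hn0).1 (mem_powerset.1 hS hπ)).1
  have hSP' : ∀ S : Finset ZI, ∀ π ∈ PD n \ S, PP π := by
    intro S π hπ
    exact ((mem_PD hn0).1 (mem_sdiff.1 hπ).1).1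
  have hmul : ∀ S ∈ (PD n).powerset, (∏ π ∈ S, π) * (∏ π ∈ PD n \ S, π) = n := by
    intro S hS
    rw [mul_comm, prod_sdiff (mem_powerset.1 hS)]
    exact hn'.2.prod
  refine sum_bij' (fun S _ => ((∏ π ∈ S, π), (∏ π ∈ PD n \ S, π))) (fun x _ => PD x.1) ?_ ?_ ?_ ?_ ?_
  · intro S hS
    have h2 := hmul S hS
    rw [mem_filter, mem_filter, mem_product, mem_SB, mem_SB]
    simp only
    have a1 := (PS_prod (hSP S hS)).1
    have a2 := (PS_prod (hSP' S)).1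
    have a3 : nrm (∏ π ∈ S, π) * nrm (∏ π ∈ PD n \ S, π) = nrm n := by rw [← nrm_mul, h2]
    have a4 := nrm_pos' a1.ne
    have a5 := nrm_pos' a2.ne
    refine ⟨⟨⟨⟨?_, a1⟩, ?_, a2⟩, by rw [h2]; exact hn⟩, h2⟩
    · refine le_trans ?_ hn'.1
      rw [← a3]
      exact Nat.le_mul_of_pos_right _ a5
    · refine le_trans ?_ hn'.1
      rw [← a3]
      exact Nat.le_mul_of_pos_left _ a4
  · intro x hx
    rw [mem_filter] at hx
    rw [mem_powerset]
    refine PD_subset hn0 ?_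
    rw [← hx.2]
    exact dvd_mul_right _ _
  · intro S hS
    exact (PS_prod (hSP S hS)).2
  · intro x hx
    rw [mem_filter, mem_filter, mem_product, mem_SB, mem_SB] at hx
    obtain ⟨⟨⟨⟨-, b1⟩, -, b2⟩, -⟩, b3⟩ := hx
    have b4 : (∏ π ∈ PD x.1, π) = x.1 := b1.prod
    have b5 : (∏ π ∈ PD n \ PD x.1, π) = x.2 := by
      have b6 : PD n = PD x.1 ∪ PD x.2 := by rw [← b3]; exact PD_mul b1.ne b2.ne
      have b7 : IsCoprime x.1 x.2 := by
        have : PS (x.1 * x.2) := by rw [b3]; exact hn'.2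
        exact ((PS.mul_iff b1.prm b2.prm).1 this).2.2
      rw [b6, union_sdiff_cancel_left (PD_disj b1.ne b2.ne b7)]
      exact b2.prod
    rw [b4, b5]
  · intro S hS
    simp only
    rw [hmul S hS]

/-- the weight -/
noncomputable def wt2 (n : ZI) : ℝ := mf (fun _ => 1 / 2) n

lemma wt2_nonneg (n : ZI) : 0 ≤ wt2 n := mf_nonneg (fun _ => by norm_num) n

lemma wt2_le (n : ZI) : wt2 n ≤ 1 := mf_le_one (fun _ => by norm_num) (fun _ => by norm_num) n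

lemma wt2_abs (n : ZI) : |wt2 n| ≤ 1 := by
  rw [abs_of_nonneg (wt2_nonneg n)]
  exact wt2_le n

lemma mf_prod {g : ZI → ℝ} {S : Finset ZI} (hS : ∀ π ∈ S, PP π) : mf g (∏ π ∈ S, π) = ∏ π ∈ S, g π := by
  unfold mf
  rw [(PS_prod hS).2]

lemma jac_prod' {A : ZI} (hA : A ≠ 0) (S : Finset ZI) :
    (jac A (∏ π ∈ S, π) : ℝ) = ∏ π ∈ S, (jac A π : ℝ) := by
  rw [jac_prod hA S (fun π => π)]
  push_cast
  rfl

lemma Ph_r {X : ℕ} {r : ZI} (hr : prim r) : ∀ n, Ph X (n * r) ≠ 0 → PS n ∧ nrm n ≤ X := by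
  intro n h
  obtain ⟨h1, h2, -⟩ := Ph_ne h
  have hn : prim n := prim_cancel hr (by rw [mul_comm]; exact h1.prm)
  refine ⟨((PS.mul_iff hn hr).1 h1).1, ?_⟩
  refine le_trans ?_ h2
  rw [nrm_mul]
  exact Nat.le_mul_of_pos_right _ (nrm_pos' (prim_ne_zero hr))

/-- restriction to small elements -/
lemma sum_Ph_le {X : ℕ} {r : ZI} (hr : prim r) {f : ZI → ℝ} (hf : ∀ n, 0 ≤ f n) :
    ∑ n ∈ SB X, Ph X (n * r) * f n ≤ ∑ n ∈ SB (X / nrm r), f n := by
  have h1 : ∑ n ∈ SB X, Ph X (n * r) * f n = ∑ n ∈ SB (X / nrm r), Ph X (n * r) * f n := by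
    symm
    refine sum_subset (SB_mono (Nat.div_le_self _ _)) ?_
    intro n hn hn'
    by_contra h
    have h2 := left_ne_zero_of_mul h
    obtain ⟨h3, h4, -⟩ := Ph_ne h2
    apply hn'
    rw [mem_SB, Nat.le_div_iff_mul_le (nrm_pos' (prim_ne_zero hr)), ← nrm_mul]
    exact ⟨h4, (mem_SB.1 hn).2⟩
  rw [h1]
  refine sum_le_sum fun n _ => ?_
  exact mul_le_of_le_one_left (hf n) (Ph_le _ _)

/-- **two free variables** -/
theorem hsw {A B r : ZI} (hAB : PS (A * B)) (hA : prim A) (hB : prim B) (h1 : A * B ≠ 1) (hr : prim r)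
    (hd : A * B ∣ r) (X : ℕ) :
    |∑ c ∈ SB X, ∑ e ∈ SB X, Ph X (c * e * r) * (wt2 c * wt2 e * jac A e * jac B c)| ≤
      1680 * Real.sqrt (lg (nrm (A * B))) * ((X / nrm r : ℕ) / Real.sqrt (lg (X / nrm r))) := by
  classical
  obtain ⟨pA, pB, cAB⟩ := (PS.mul_iff hA hB).1 hAB
  have e1 := pr_sum (X := X) (Φ := fun n => Ph X (n * r)) (Ph_r hr)
    (fun c e => wt2 c * wt2 e * (jac A e : ℝ) * jac B c)
  rw [e1]
  have e2 : ∀ n ∈ SB X, ∑ S ∈ (PD n).powerset, wt2 (∏ π ∈ S, π) * wt2 (∏ π ∈ PD n \ S, π) *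
      (jac A (∏ π ∈ PD n \ S, π) : ℝ) * jac B (∏ π ∈ S, π) =
      ∏ π ∈ PD n, ((1 / 2) * (jac B π : ℝ) + (1 / 2) * jac A π) := by
    intro n hn
    rw [mem_SB] at hn
    rw [prod_add]
    refine sum_congr rfl fun S hS => ?_
    have hSP : ∀ π ∈ S, PP π := fun π hπ => ((mem_PD hn.2.ne).1 (mem_powerset.1 hS hπ)).1
    have hSP' : ∀ π ∈ PD n \ S, PP π := fun π hπ => ((mem_PD hn.2.ne).1 (mem_sdiff.1 hπ).1).1
    unfold wt2
    rw [mf_prod hSP, mf_prod hSP', jac_prod' pA.ne, jac_prod' pB.ne, prod_mul_distrib, prod_mul_distrib]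
    ring
  rw [sum_congr rfl (fun n hn => by rw [e2 n hn])]
  refine (abs_sum_le_sum_abs _ _).trans ?_
  have e3 : ∀ n ∈ SB X, |Ph X (n * r) * ∏ π ∈ PD n, ((1 / 2) * (jac B π : ℝ) + (1 / 2) * jac A π)| ≤
      Ph X (n * r) * mf (fun π => (1 + (jac (A * B) π : ℝ)) / 2) n := by
    intro n hn
    rw [mem_SB] at hn
    rw [abs_mul, abs_of_nonneg (Ph_nonneg _ _)]
    by_cases h0 : Ph X (n * r) = 0
    · rw [h0, zero_mul, zero_mul]
    · apply mul_le_mul_of_nonneg_left _ (Ph_nonneg _ _)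
      rw [abs_prod]
      unfold mf
      refine prod_le_prod (fun _ _ => abs_nonneg _) ?_
      intro π hπ
      obtain ⟨h2, -, -⟩ := Ph_ne h0
      have hcop := ((PS.mul_iff hn.2.prm hr).1 h2).2.2
      have hπ' := (mem_PD hn.2.ne).1 hπ
      have hπr : IsCoprime π (A * B) := (hcop.of_isCoprime_of_dvd_left hπ'.2).of_isCoprime_of_dvd_right hd
      have c1 : IsCoprime A π := (hπr.of_mul_right_left).symm
      have c2 : IsCoprime B π := (hπr.of_mul_right_right).symm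
      have n1 := jac_ne_zero pA c1
      have n2 := jac_ne_zero pB c2
      rw [jac_mul_left pA.ne pB.ne cAB]
      rcases jac_cases A π with h | h | h
      · exact absurd h n1
      · rcases jac_cases B π with h' | h' | h'
        · exact absurd h' n2
        · rw [h, h']; norm_num
        · rw [h, h']; norm_num
      · rcases jac_cases B π with h' | h' | h'
        · exact absurd h' n2
        · rw [h, h']; norm_num
        · rw [h, h']; norm_num [abs_of_neg]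
  refine (sum_le_sum e3).trans ?_
  have hnn : ∀ n, 0 ≤ mf (fun π => (1 + (jac (A * B) π : ℝ)) / 2) n := by
    apply mf_nonneg
    intro π
    rcases jac_cases (A * B) π with h | h | h <;> rw [h] <;> norm_num
  exact (sum_Ph_le hr hnn).trans (hallG hAB h1 _)

/-- **one free variable** -/
theorem hsw0 {r : ZI} (hr : prim r) (X : ℕ) :
    ∑ e ∈ SB X, Ph X (e * r) * wt2 e ≤ 126 * ((X / nrm r : ℕ) / Real.sqrt (lg (X / nrm r))) :=
  (sum_Ph_le hr wt2_nonneg).trans (hall0 _)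

end Pool.Agent.Y699
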