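import Pool.Agent.Y699.Sqf

/-!
Counting squarefree primary elements in classes modulo 8.
-/

set_option autoImplicit false

open Finset

namespace Pool.Agent.Y699

open H385 (ZI RQ im1 nrm BX)
open H385.H10 (mem_BX nrm_pos Dv mem_Dv card_Dv)
open Pool.Agent.W164.RC (two2 prim_iff_dvd unit_norm unit_cases)
open Pool.Agent.H304R2.EC.A1 (prim prim_mul prim_cancel prim_one prim_norm_odd prim_star eq_one_of_prim
  norm_def' re_mul' im_mul' eq_of_dvd prim_ne_zero exists_prim)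

lemma cnt_lo8 (s : ℕ) (c : ℤ) :
    (2 * s + 1) / 8 ≤ ((Icc (-(s : ℤ)) s).filter (fun u => (8 : ℤ) ∣ u - c)).card := by
  have h1 : (image (fun j : ℕ => -(s : ℤ) + ((c + s) % 8) + 8 * j) (range ((2 * s + 1) / 8))) ⊆
      (Icc (-(s : ℤ)) s).filter (fun u => (8 : ℤ) ∣ u - c) := by
    intro u hu
    obtain ⟨j, hj, rfl⟩ := mem_image.1 hu
    rw [mem_range] at hj
    rw [mem_filter, mem_Icc]
    have e1 : 0 ≤ (c + s) % 8 := Int.emod_nonneg _ (by norm_num)
    have e2 : (c + s) % 8 < 8 := Int.emod_lt_of_pos _ (by norm_num)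
    refine ⟨⟨by omega, by omega⟩, by omega⟩
  refine le_trans ?_ (card_le_card h1)
  rw [card_image_of_injective, card_range]
  intro a b hab
  simp only at hab
  omega

lemma cnt_hi8 (s : ℕ) (c : ℤ) :
    ((Icc (-(s : ℤ)) s).filter (fun u => (8 : ℤ) ∣ u - c)).card ≤ s / 4 + 1 := by
  have h1 : (s / 4 + 1) = (range (s / 4 + 1)).card := (card_range _).symm
  rw [h1]
  refine card_le_card_of_injOn (fun u => ((u + s) / 8).toNat) ?_ ?_
  · intro u hu
    rw [mem_coe, mem_filter, mem_Icc] at hu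
    rw [mem_coe, mem_range]
    show ((u + s) / 8).toNat < s / 4 + 1
    omega
  · intro u hu v hv huv
    rw [mem_coe, mem_filter, mem_Icc] at hu hv
    simp only at huv
    omega

lemma eight_dvd_iff {m c : ZI} : (8 : ZI) ∣ m - c ↔ (8 : ℤ) ∣ m.re - c.re ∧ (8 : ℤ) ∣ m.im - c.im := by
  have h := Zsqrtd.intCast_dvd (d := -1) 8 (m - c)
  have e : ((8 : ℤ) : ZI) = 8 := by norm_num
  rw [e] at h
  rw [h]
  simp

open Classical in
/-- elements of a class modulo 8 -/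
noncomputable def CC8 (c : ZI) (V : ℕ) : Finset ZI := (ZB V).filter (fun m => (8 : ZI) ∣ m - c)

lemma CC8_hi (c : ZI) (V : ℕ) : (CC8 c V).card ≤ (Nat.sqrt V / 4 + 1) * (Nat.sqrt V / 4 + 1) := by
  classical
  have h1 : (CC8 c V).card ≤
      (((Icc (-(Nat.sqrt V : ℤ)) (Nat.sqrt V)).filter (fun u => (8 : ℤ) ∣ u - c.re)) ×ˢ
      ((Icc (-(Nat.sqrt V : ℤ)) (Nat.sqrt V)).filter (fun u => (8 : ℤ) ∣ u - c.im))).card := by
    refine card_le_card_of_injOn (fun m => (m.re, m.im)) ?_ ?_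
    · intro m hm
      unfold CC8 at hm
      rw [mem_coe, mem_filter, mem_ZB, eight_dvd_iff] at hm
      rw [mem_coe, mem_product, mem_filter, mem_filter, mem_Icc, mem_Icc]
      have h2 := nrm_eq' m
      have h3 : (nrm m : ℤ) ≤ V := by exact_mod_cast hm.1
      have h4 : m.re.natAbs ≤ Nat.sqrt V := by
        rw [Nat.le_sqrt']; zify; rw [sq_abs]; nlinarith [sq_nonneg m.im]
      have h5 : m.im.natAbs ≤ Nat.sqrt V := by
        rw [Nat.le_sqrt']; zify; rw [sq_abs]; nlinarith [sq_nonneg m.re]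
      refine ⟨⟨⟨?_, ?_⟩, hm.2.1⟩, ⟨⟨?_, ?_⟩, hm.2.2⟩⟩ <;> simp only <;> omega
    · intro a _ b _ hab
      simp only [Prod.mk.injEq] at hab
      exact Zsqrtd.ext hab.1 hab.2
  rw [card_product] at h1
  exact h1.trans (Nat.mul_le_mul (cnt_hi8 _ _) (cnt_hi8 _ _))

lemma CC8_lo (c : ZI) (V : ℕ) :
    ((2 * Nat.sqrt (V / 2) + 1) / 8) * ((2 * Nat.sqrt (V / 2) + 1) / 8) ≤ (CC8 c V).card := by
  classical
  set s := Nat.sqrt (V / 2) with hs
  have h1 : (((Icc (-(s : ℤ)) s).filter (fun u => (8 : ℤ) ∣ u - c.re)) ×ˢ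
      ((Icc (-(s : ℤ)) s).filter (fun u => (8 : ℤ) ∣ u - c.im))).card ≤ (CC8 c V).card := by
    refine card_le_card_of_injOn (fun p => (⟨p.1, p.2⟩ : ZI)) ?_ ?_
    · intro p hp
      rw [mem_coe, mem_product, mem_filter, mem_filter, mem_Icc, mem_Icc] at hp
      unfold CC8
      rw [mem_coe, mem_filter, mem_ZB, eight_dvd_iff]
      refine ⟨?_, hp.1.2, hp.2.2⟩
      have h2 := nrm_eq' (⟨p.1, p.2⟩ : ZI)
      have h3 : s * s ≤ V / 2 := Nat.sqrt_le _
      have h4 : ((s : ℤ) * s) * 2 ≤ V := by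
        have : s * s * 2 ≤ V := by omega
        exact_mod_cast this
      have h5 : (nrm (⟨p.1, p.2⟩ : ZI) : ℤ) ≤ V := by
        rw [h2]
        simp only
        nlinarith [hp.1.1.1, hp.1.1.2, hp.2.1.1, hp.2.1.2]
      exact_mod_cast h5
    · intro a _ b _ hab
      have e1 := congrArg Zsqrtd.re hab
      have e2 := congrArg Zsqrtd.im hab
      exact Prod.ext e1 e2
  rw [card_product] at h1
  exact (Nat.mul_le_mul (cnt_lo8 _ _) (cnt_lo8 _ _)).trans h1

lemma CC8_hi' (c : ZI) {V : ℕ} {v : ℝ} (hv : (V : ℝ) ≤ v) : ((CC8 c V).card : ℝ) ≤ v / 16 + Real.sqrt v / 2 + 1 := by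
  have h1 : ((CC8 c V).card : ℝ) ≤ ((Nat.sqrt V / 4 + 1 : ℕ) : ℝ) * ((Nat.sqrt V / 4 + 1 : ℕ) : ℝ) := by
    exact_mod_cast CC8_hi c V
  have h0 : (0 : ℝ) ≤ v := (Nat.cast_nonneg V).trans hv
  have h2 : ((Nat.sqrt V / 4 : ℕ) : ℝ) ≤ Real.sqrt v / 4 := by
    have : ((Nat.sqrt V / 4 : ℕ) : ℝ) ≤ (Nat.sqrt V : ℝ) / 4 := Nat.cast_div_le
    have h3 : (Nat.sqrt V : ℝ) ≤ Real.sqrt v := Real.nat_sqrt_le_real_sqrt.trans (Real.sqrt_le_sqrt hv)
    linarith
  have h3 : Real.sqrt v * Real.sqrt v = v := Real.mul_self_sqrt h0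
  have h4 : (0 : ℝ) ≤ ((Nat.sqrt V / 4 : ℕ) : ℝ) := Nat.cast_nonneg _
  push_cast at h1 h2 h4
  nlinarith [Real.sqrt_nonneg v]

lemma CC8_lo' (c : ZI) (V : ℕ) : (V : ℝ) / 32 - Real.sqrt V ≤ ((CC8 c V).card : ℝ) := by
  set s := Nat.sqrt (V / 2) with hs
  have h1 : (((2 * s + 1) / 8 : ℕ) : ℝ) * (((2 * s + 1) / 8 : ℕ) : ℝ) ≤ ((CC8 c V).card : ℝ) := by
    exact_mod_cast CC8_lo c V
  have h2 : ((s : ℝ) - 3) / 4 ≤ (((2 * s + 1) / 8 : ℕ) : ℝ) := by
    have : 2 * s + 1 ≤ 8 * ((2 * s + 1) / 8) + 7 := by omega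
    have h3 : 2 * (s : ℝ) + 1 ≤ 8 * (((2 * s + 1) / 8 : ℕ) : ℝ) + 7 := by exact_mod_cast this
    linarith
  have h4 : V / 2 < (s + 1) * (s + 1) := Nat.lt_succ_sqrt _
  have h5 : (V : ℝ) < 2 * (((s : ℝ) + 1) * ((s : ℝ) + 1)) := by
    have : V < 2 * ((s + 1) * (s + 1)) := by omega
    exact_mod_cast this
  have h6 : Real.sqrt (V / 2) ≤ (s : ℝ) + 1 := by
    rw [Real.sqrt_le_left (by positivity)]
    nlinarith
  have h7 : Real.sqrt (V / 2) * Real.sqrt (V / 2) = V / 2 := Real.mul_self_sqrt (by positivity)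
  have h8 : Real.sqrt (V / 2) ≤ Real.sqrt V := Real.sqrt_le_sqrt (by
      have : (0 : ℝ) ≤ V := Nat.cast_nonneg V
      linarith)
  have h0 := Real.sqrt_nonneg ((V : ℝ) / 2)
  have h9 : (0 : ℝ) ≤ (((2 * s + 1) / 8 : ℕ) : ℝ) := Nat.cast_nonneg _
  by_cases h10 : 4 ≤ Real.sqrt (V / 2)
  · have h11 : (Real.sqrt (V / 2) - 4) / 4 ≤ (((2 * s + 1) / 8 : ℕ) : ℝ) := by linarith
    have h12 : ((Real.sqrt (V / 2) - 4) / 4) * ((Real.sqrt (V / 2) - 4) / 4) ≤
        (((2 * s + 1) / 8 : ℕ) : ℝ) * (((2 * s + 1) / 8 : ℕ) : ℝ) :=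
      mul_le_mul h11 h11 (by linarith) h9
    nlinarith
  · push Not at h10
    have : (0 : ℝ) ≤ ((CC8 c V).card : ℝ) := Nat.cast_nonneg _
    nlinarith


/-- squares of primary elements -/
lemma prim_sq8 {t : ZI} (h : prim t) : (8 : ZI) ∣ (t * t) * (t * t) - 1 := by
  obtain ⟨w, hw⟩ := prim_sq h
  have ht : t * t = 1 + 4 * w := by linear_combination hw
  refine ⟨w + 2 * w * w, ?_⟩
  rw [ht]
  ring

open Classical in
lemma CC8_sq {c t : ZI} (ht : prim t) (V : ℕ) :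
    ((CC8 c V).filter (fun m => t * t ∣ m)).card ≤ (CC8 (t * t * c) (V / (nrm t * nrm t))).card := by
  have ht0 : t ≠ 0 := prim_ne_zero ht
  have h1 : (CC8 c V).filter (fun m => t * t ∣ m) ⊆
      (CC8 (t * t * c) (V / (nrm t * nrm t))).image (fun k => t * t * k) := by
    intro m hm
    rw [mem_filter] at hm
    obtain ⟨hm1, k, rfl⟩ := hm
    unfold CC8 at hm1
    rw [mem_filter, mem_ZB, nrm_mul, nrm_mul] at hm1
    rw [mem_image]
    refine ⟨k, ?_, rfl⟩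
    unfold CC8
    rw [mem_filter, mem_ZB]
    constructor
    · rw [Nat.le_div_iff_mul_le (Nat.mul_pos (nrm_pos' ht0) (nrm_pos' ht0))]
      linarith [hm1.1]
    · have h2 := prim_sq8 ht
      have h3 : (8 : ZI) ∣ (t * t) * (t * t * k - c) - ((t * t) * (t * t) - 1) * k :=
        dvd_sub (hm1.2.mul_left _) (h2.mul_right _)
      have h4 : (t * t) * (t * t * k - c) - ((t * t) * (t * t) - 1) * k = k - t * t * c := by ring
      rwa [h4] at h3
  exact (card_le_card h1).trans card_image_le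

/-- representatives of the classes -/
def cl4 (r : ℤ) : ZI := if r = 1 then 1 else if r = 5 then ⟨7, 2⟩ else if r = 9 then ⟨5, 0⟩ else ⟨3, 2⟩

lemma CC8_prim {V : ℕ} {m : ZI} {r : ℤ} (hr : r = 1 ∨ r = 5 ∨ r = 9 ∨ r = 13) (h : m ∈ CC8 (cl4 r) V) :
    prim m ∧ m.norm % 16 = r := by
  classical
  unfold CC8 at h
  rw [mem_filter, eight_dvd_iff] at h
  obtain ⟨-, h1, h2⟩ := h
  obtain ⟨a, ha⟩ := h1
  obtain ⟨b, hb⟩ := h2
  have hm : m = ⟨(cl4 r).re + 8 * a, (cl4 r).im + 8 * b⟩ := by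
    ext
    · simp only; linarith
    · simp only; linarith
  have hcp : prim (cl4 r) ∧ (cl4 r).norm % 16 = r := by
    rcases hr with rfl | rfl | rfl | rfl
    · exact ⟨by rw [prim_iff_dvd]; exact ⟨0, by decide⟩, by decide⟩
    · exact ⟨by rw [prim_iff_dvd]; exact ⟨⟨2, -1⟩, by decide⟩, by decide⟩
    · exact ⟨by rw [prim_iff_dvd]; exact ⟨⟨1, -1⟩, by decide⟩, by decide⟩
    · exact ⟨by rw [prim_iff_dvd]; exact ⟨1, by decide⟩, by decide⟩
  constructor
  · rw [prim_iff_dvd]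
    have e1 : m - 1 = (cl4 r - 1) + two2 * (2 * (1 - im1) * ⟨a, b⟩) := by
      have e : two2 * (2 * (1 - im1)) = 8 := by decide
      rw [← mul_assoc, e, hm]
      ext
      · simp; ring
      · simp
    rw [e1]
    exact dvd_add ((prim_iff_dvd _).1 hcp.1) (dvd_mul_right _ _)
  · rw [← hcp.2, hm, norm_def', norm_def']
    simp only
    have : ((cl4 r).re + 8 * a) ^ 2 + ((cl4 r).im + 8 * b) ^ 2 =
        ((cl4 r).re ^ 2 + (cl4 r).im ^ 2) + 16 * ((cl4 r).re * a + (cl4 r).im * b + 4 * a ^ 2 + 4 * b ^ 2) := by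
      ring
    rw [this]
    omega

open Classical in
/-- **squarefree primary elements in the four classes** -/
theorem sqf_count4 : ∃ V0 : ℕ, ∀ V : ℕ, V0 ≤ V → ∀ r : ℤ, (r = 1 ∨ r = 5 ∨ r = 9 ∨ r = 13) →
    (V : ℝ) / 140 ≤ (((SB V).filter (fun m => m.norm % 16 = r)).card : ℝ) := by
  refine ⟨60000 ^ 4, ?_⟩
  intro V hV r hr
  -- choose the class
  obtain ⟨c, hc⟩ : ∃ c : ZI, ∀ m ∈ CC8 c V, prim m ∧ m.norm % 16 = r :=
    ⟨cl4 r, fun m hm => CC8_prim hr hm⟩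
  set s := Nat.sqrt V with hs
  have hcover : CC8 c V ⊆ (SB V).filter (fun m => m.norm % 16 = r) ∪
      ((PB s).erase 1).biUnion (fun t => (CC8 c V).filter (fun m => t * t ∣ m)) := by
    intro m hm
    obtain ⟨hm1, hm2⟩ := hc m hm
    have hmV : nrm m ≤ V := by
      unfold CC8 at hm
      exact mem_ZB.1 (mem_filter.1 hm).1
    rw [mem_union]
    by_cases hsq : Squarefree m
    · left
      rw [mem_filter, mem_SB]
      exact ⟨⟨hmV, hm1, hsq⟩, hm2⟩
    · right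
      rw [Squarefree] at hsq
      push Not at hsq
      obtain ⟨x, hx, hxu⟩ := hsq
      have hm0 := prim_ne_zero hm1
      have hx0 : x ≠ 0 := by
        rintro rfl
        rw [zero_mul, zero_dvd_iff] at hx
        exact hm0 hx
      obtain ⟨ρ, hρ, hρx⟩ := WfDvdMonoid.exists_irreducible_factor hxu hx0
      have hρ' : Prime ρ := irreducible_iff_prime.1 hρ
      have hρm : ρ * ρ ∣ m := (mul_dvd_mul hρx hρx).trans hx
      obtain ⟨π, hπ, hass⟩ := exists_PP hρ' (odd_of_dvd ((dvd_mul_right _ _).trans hρm) (prim_norm_odd hm1))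
      have hπm : π * π ∣ m := (mul_dvd_mul hass.dvd hass.dvd).trans hρm
      rw [mem_biUnion]
      refine ⟨π, ?_, mem_filter.2 ⟨hm, hπm⟩⟩
      rw [mem_erase, mem_PB]
      refine ⟨fun h => hπ.pr.not_isUnit (by rw [h]; exact isUnit_one), ?_, hπ.prm⟩
      rw [hs, Nat.le_sqrt]
      have h1 := norm_le_of_dvd hm0 hπm
      have h2 : nrm (π * π) ≤ nrm m := h1
      rw [nrm_mul] at h2
      exact h2.trans hmV
  have h1 : ((CC8 c V).card : ℝ) ≤ (((SB V).filter (fun m => m.norm % 16 = r)).card : ℝ) +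
      ∑ t ∈ (PB s).erase 1, (((CC8 c V).filter (fun m => t * t ∣ m)).card : ℝ) := by
    have h2 := (card_le_card hcover).trans (card_union_le _ _)
    have h3 := h2.trans (Nat.add_le_add_left card_biUnion_le _)
    exact_mod_cast h3
  have V0 : (0 : ℝ) ≤ V := Nat.cast_nonneg V
  have hV1 : 1 ≤ V := le_trans (by norm_num) hV
  have h2 : ∑ t ∈ (PB s).erase 1, (((CC8 c V).filter (fun m => t * t ∣ m)).card : ℝ) ≤
      (V : ℝ) / 16 * (341 / 1000) + Real.sqrt V / 2 * (18 * lg s) + 9 * s := by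
    have h3 : ∀ t ∈ (PB s).erase 1, (((CC8 c V).filter (fun m => t * t ∣ m)).card : ℝ) ≤
        (V : ℝ) / 16 * (1 / (nrm t : ℝ) ^ 2) + Real.sqrt V / 2 * (1 / nrm t) + 1 := by
      intro t ht
      rw [mem_erase, mem_PB] at ht
      have ht0 : (0 : ℝ) < nrm t := by exact_mod_cast nrm_pos' (prim_ne_zero ht.2.2)
      have h4 : (((CC8 c V).filter (fun m => t * t ∣ m)).card : ℝ) ≤
          ((CC8 (t * t * c) (V / (nrm t * nrm t))).card : ℝ) := by
        exact_mod_cast CC8_sq ht.2.2 V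
      have h5 : ((V / (nrm t * nrm t) : ℕ) : ℝ) ≤ (V : ℝ) / (nrm t : ℝ) ^ 2 := by
        have := @Nat.cast_div_le ℝ _ _ _ V (nrm t * nrm t)
        push_cast at this
        rw [sq]
        exact this
      refine (h4.trans (CC8_hi' _ h5)).trans (le_of_eq ?_)
      rw [Real.sqrt_div V0, Real.sqrt_sq ht0.le]
      ring
    refine (sum_le_sum h3).trans ?_
    rw [sum_add_distrib, sum_add_distrib, ← mul_sum, ← mul_sum, sum_const, nsmul_eq_mul, mul_one]
    have h4 := sum_inv_sq s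
    have h5 : ∑ t ∈ (PB s).erase 1, (1 : ℝ) / nrm t ≤ 18 * lg s :=
      (sum_le_sum_of_subset_of_nonneg (erase_subset _ _) (fun _ _ _ => by positivity)).trans (hsum s)
    have hs1 : 1 ≤ s := by
      rw [hs, Nat.le_sqrt]
      omega
    have h6 : (((PB s).erase 1).card : ℝ) ≤ 9 * s := by
      refine le_trans ?_ (card_PB_le hs1)
      exact_mod_cast card_le_card (erase_subset _ _)
    have h7 := mul_le_mul_of_nonneg_left h4 (show (0 : ℝ) ≤ (V : ℝ) / 16 by positivity)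
    have h8 := mul_le_mul_of_nonneg_left h5 (show (0 : ℝ) ≤ Real.sqrt V / 2 by positivity)
    linarith
  have h3 := CC8_lo' c V
  -- numerical estimates
  have hsV : (s : ℝ) ≤ Real.sqrt V := Real.nat_sqrt_le_real_sqrt
  set q : ℝ := (V : ℝ) ^ (1 / 4 : ℝ) with hq
  have hq0 : 0 ≤ q := by positivity
  have hq4 : q ^ 4 = V := by
    rw [hq, ← Real.rpow_natCast, ← Real.rpow_mul V0]
    norm_num
  have hq2 : Real.sqrt V = q ^ 2 := by
    rw [Real.sqrt_eq_iff_mul_self_eq V0 (by positivity), ← hq4]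
    ring
  have hqbig : 60000 ≤ q := by
    by_contra h
    push Not at h
    have h4 : q ^ 4 < 60000 ^ 4 := pow_lt_pow_left₀ h hq0 (by norm_num)
    rw [hq4] at h4
    have h5 : ((60000 ^ 4 : ℕ) : ℝ) ≤ V := by exact_mod_cast hV
    push_cast at h5
    linarith
  have hlg : lg s ≤ 9 * q := by
    have h4 := lg_le_rpow (show (0 : ℝ) < 1 / 4 by norm_num) V hV1
    have h5 : lg s ≤ lg V := lg_mono (Nat.sqrt_le_self V)
    refine h5.trans (h4.trans (le_of_eq ?_))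
    rw [← hq]
    norm_num
  rw [hq2] at h2 h3 hsV
  have h4 : q ^ 2 / 2 * (18 * lg s) ≤ q ^ 2 / 2 * (18 * (9 * q)) := by
    apply mul_le_mul_of_nonneg_left _ (by positivity)
    linarith
  rw [← hq4] at h2 h3 ⊢
  have h5 : q ^ 3 * 60000 ≤ q ^ 4 := by
    have : q ^ 4 = q ^ 3 * q := by ring
    rw [this]
    exact mul_le_mul_of_nonneg_left hqbig (by positivity)
  have h6 : q ^ 2 ≤ q ^ 3 := by
    have : q ^ 3 = q ^ 2 * q := by ring
    rw [this]
    nlinarith [sq_nonneg q]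
  nlinarith

end Pool.Agent.Y699
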