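import Pool.Agent.Y699.Ql
import Pool.Agent.Y699.Lf

/-!
The Jacobi sums, unconditionally, and the number of points of the quartic twists.
-/

set_option autoImplicit false
set_option linter.unusedSectionVars false

open NumberField IsDedekindDomain

open H385 (ZI RQ im1 nrm)

namespace Pool.Agent.Y699

open Pool.Agent.W164.RC (tc_mul tc_star two2 prim_iff_dvd unit_norm unit_cases Ip Ip_spec Ip_exists dg
  aD_roots)
open Pool.Agent.H304R2.EC.A1 (prim prim_mul prim_cancel prim_one prim_norm_odd prim_star eq_one_of_prim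
  norm_def' re_mul' im_mul' eq_of_dvd prim_ne_zero exists_prim)
open Pool.Agent.H921R2.TatePole (below deg nm nm_eq nm_summable two_le_nm)
open Pool.Agent.H304R3.HK (tc)

variable {K : Type} [Field K] [NumberField K]

/-- the place of a primary prime -/
theorem exists_place (e : ZI ≃+* 𝓞 K) {π : ZI} (hπ : PP π) :
    ∃ v : HeightOneSpectrum (𝓞 K), v.asIdeal = Ideal.span {e π} := by
  have h1 : Prime (e π) := (MulEquiv.prime_iff e.toMulEquiv).2 hπ.pr
  refine ⟨⟨Ideal.span {e π}, (Ideal.span_singleton_prime h1.ne_zero).2 h1, ?_⟩, rfl⟩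
  rw [Ne, Ideal.span_singleton_eq_bot]; exact h1.ne_zero

lemma place_ip (e : ZI ≃+* 𝓞 K) {π : ZI} (hπ : PP π) {v : HeightOneSpectrum (𝓞 K)}
    (hv : v.asIdeal = Ideal.span {e π}) : (below v : ℕ) ≠ 2 ∧ π ∈ Ip (below v) := by
  obtain ⟨z, hz, h⟩ := exists_pg e v
  have h1 : z ∣ π := by
    rw [← mem_iff e hz, hv]
    exact Ideal.mem_span_singleton_self _
  rcases h with ⟨h2, h3⟩ | ⟨h2, h3⟩
  · exfalso
    have h4 : π ∣ pi1 := by
      rw [← mem_iff e hv, hz, h3]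
      exact Ideal.mem_span_singleton_self _
    have h5 : pi1 ∣ (2 : ZI) := ⟨⟨1, -1⟩, by decide⟩
    exact not_dvd_two hπ (h4.trans h5)
  · have h4 := (PP_ip (below v).2 h3).eq_of_dvd hπ h1
    rw [← h4]
    exact ⟨h2, h3⟩

/-- the residue field -/
noncomputable abbrev vF (v : HeightOneSpectrum (𝓞 K)) : Field (𝓞 K ⧸ v.asIdeal) :=
  haveI : v.asIdeal.IsMaximal := v.isPrime.isMaximal v.ne_bot
  Ideal.Quotient.field v.asIdeal

/-- the residue field at a place -/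
lemma place_res (e : ZI ≃+* 𝓞 K) {π : ZI} (hπ : PP π) {v : HeightOneSpectrum (𝓞 K)}
    (hv : v.asIdeal = Ideal.span {e π}) [i2 : Fintype (𝓞 K ⧸ v.asIdeal)] :
    letI := vF v
    Res π (𝓞 K ⧸ v.asIdeal) ((Ideal.Quotient.mk v.asIdeal).comp (e : ZI →+* 𝓞 K)) := by
  letI := vF v
  refine ⟨hπ, ?_, ?_, ?_⟩
  · intro x
    obtain ⟨y, rfl⟩ := Ideal.Quotient.mk_surjective x
    obtain ⟨z, rfl⟩ := e.surjective y
    exact ⟨z, rfl⟩
  · intro a
    show Ideal.Quotient.mk v.asIdeal (e a) = 0 ↔ _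
    rw [Ideal.Quotient.eq_zero_iff_mem, mem_iff e hv]
  · rw [← Nat.card_eq_fintype_card, ← norm_pg e hv, Ideal.absNorm_apply, Submodule.cardQuot_apply]

/-- the sum for the base curve -/
lemma base_sum (e : ZI ≃+* 𝓞 K) {π : ZI} (hπ : PP π) {v : HeightOneSpectrum (𝓞 K)}
    (hv : v.asIdeal = Ideal.span {e π}) [i2 : Fintype (𝓞 K ⧸ v.asIdeal)]
    [i3 : DecidableEq (𝓞 K ⧸ v.asIdeal)] :
    letI := vF v
    ∑ x : 𝓞 K ⧸ v.asIdeal, quadraticChar (𝓞 K ⧸ v.asIdeal) (x ^ 3 - x) = -2 * π.re := by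
  letI := vF v
  have hR := place_res e hπ hv
  obtain ⟨h2, hip⟩ := place_ip e hπ hv
  have h1 : ¬ π ∣ 1 := fun h => hπ.pr.not_isUnit (isUnit_of_dvd_one h)
  have h3 := cnt_good e (D := 1) h2 hip hv h1
  rw [qr_one hπ, map_one, map_one] at h3
  have c2 := Pool.Agent.H82R3.EK.card_points hR.char_ne (fun x : 𝓞 K ⧸ v.asIdeal => x ^ 3 - 1 ^ 2 * x)
  have e1 : (cnt v 1 : ℤ) = (Fintype.card (𝓞 K ⧸ v.asIdeal) : ℤ) +
      ∑ x : 𝓞 K ⧸ v.asIdeal, quadraticChar (𝓞 K ⧸ v.asIdeal) (x ^ 3 - 1 ^ 2 * x) := by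
    unfold cnt
    exact c2
  have hcard : Ideal.absNorm v.asIdeal = Fintype.card (𝓞 K ⧸ v.asIdeal) := by
    rw [Ideal.absNorm_apply, Submodule.cardQuot_apply, Nat.card_eq_fintype_card]
  rw [e1, hcard] at h3
  have e2 : tc π + tc (star π) = ((2 * π.re : ℤ) : ℂ) := by
    rw [tc_star]
    have h5 := Complex.add_conj (tc π)
    rw [h5]
    have h6 : (tc π).re = π.re := by
      simp [tc, GaussianInt.toComplex_def']
    rw [h6]
    push_cast
    ring
  rw [e2, Int.cast_one, one_mul, Int.cast_inj] at h3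
  simp_rw [one_pow, one_mul] at h3
  linarith

theorem JJ_of (e : ZI ≃+* 𝓞 K) : JJ := by
  classical
  intro π hπ
  obtain ⟨v, hv⟩ := exists_place e hπ
  have : Finite (𝓞 K ⧸ v.asIdeal) := Ideal.finiteQuotientOfFreeOfNeBot v.asIdeal v.ne_bot
  letI i2 : Fintype (𝓞 K ⧸ v.asIdeal) := Fintype.ofFinite _
  letI i1 := vF v
  exact ⟨𝓞 K ⧸ v.asIdeal, i1, i2, Classical.decEq _, _, place_res e hπ hv,
    Res.J_eq _ (base_sum e hπ hv)⟩

end Pool.Agent.Y699
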