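import Pool.Agent.Y699.Qw
import Pool.Agent.Y699.Qj
import Pool.Agent.Y699.Qp

/-!
The L-function of `y² = x³ + D x` over the Gaussian field.
-/

set_option autoImplicit false
set_option linter.unusedSectionVars false
set_option linter.unusedSimpArgs false

open NumberField IsDedekindDomain

namespace Pool.Agent.Y699

open H385 (ZI RQ im1 nrm)
open Pool.Agent.W164.RC (tc_mul tc_star two2 prim_iff_dvd unit_norm unit_cases Ip Ip_spec Ip_exists dg
  aD_roots local_poly local_two ep_hecke)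
open Pool.Agent.H304R2.EC.A1 (prim prim_mul prim_cancel prim_one prim_norm_odd prim_star eq_one_of_prim
  norm_def' re_mul' im_mul' eq_of_dvd prim_ne_zero exists_prim)
open Pool.Agent.H921R2.TatePole (below deg nm nm_eq nm_summable two_le_nm)
open Pool.Agent.H82R3.EK (luc luc_eq)
open Pool.Agent.H304R3.HK (tc HC LH bH psi psi_apply uh_psi goodH bb ee UH tc_star_mul tc_ne_zero)

variable {K : Type} [Field K] [NumberField K]

/-- the Euler factor of the first Hecke L-function -/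
noncomputable def g1 (X : ZI →* ℂ) (e : ZI ≃+* 𝓞 K) (s : ℂ)
    (v : HeightOneSpectrum (𝓞 K)) : ℂ :=
  (1 - X (pg e v) * tc (pg e v) * ((Ideal.absNorm v.asIdeal : ℕ) : ℂ) ^ (-s))⁻¹

lemma norm_X {q : ZI} {X : ZI →* ℂ} (H : HC q X) (a : ZI) : ‖X a‖ ≤ 1 :=
  Pool.Agent.H304R3.HK.chi_le _ _ H a

lemma gterm_bound {q : ZI} {X : ZI →* ℂ} (H : HC q X) (e : ZI ≃+* 𝓞 K) (s : ℂ)
    (v : HeightOneSpectrum (𝓞 K)) :
    ‖X (pg e v) * tc (pg e v) * ((Ideal.absNorm v.asIdeal : ℕ) : ℂ) ^ (-s)‖ ≤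
      (nm v : ℝ) ^ (-(s.re - 1 / 2)) := by
  have h2 := two_le_nm v
  have h0 : 0 < nm v := by omega
  have h3 : (0 : ℝ) < nm v := by exact_mod_cast h0
  have h4 : nm v = nrm (pg e v) := norm_pg e (pg_span e v)
  rw [norm_mul, norm_mul]
  have h5 : ‖((Ideal.absNorm v.asIdeal : ℕ) : ℂ) ^ (-s)‖ = (nm v : ℝ) ^ (-s.re) := by
    have := Complex.norm_natCast_cpow_of_pos h0 (-s)
    rw [Complex.neg_re] at this
    exact this
  rw [h5, norm_tc_eq, ← h4]
  have h6 : (nm v : ℝ) ^ (-(s.re - 1 / 2)) = (nm v : ℝ) ^ (1 / 2 : ℝ) * (nm v : ℝ) ^ (-s.re) := by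
    rw [← Real.rpow_add h3]
    congr 1
    ring
  rw [h6, mul_assoc]
  exact mul_le_of_le_one_left (by positivity) (norm_X H _)

lemma g1_mul {q : ZI} {X : ZI →* ℂ} (H : HC q X) (e : ZI ≃+* 𝓞 K) {s : ℂ} (hs : 3 / 2 < s.re) :
    Multipliable (g1 X e s) := by
  have h1 : 1 < s.re - 1 / 2 := by linarith
  have hsum := nm_summable (K := K) (x := s.re - 1 / 2) h1
  have h5 : Summable (fun v : HeightOneSpectrum (𝓞 K) => ‖g1 X e s v - 1‖) := by
    refine Summable.of_nonneg_of_le (fun v => norm_nonneg _) (fun v => ?_) (hsum.mul_left 2)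
    set t := X (pg e v) * tc (pg e v) * ((Ideal.absNorm v.asIdeal : ℕ) : ℂ) ^ (-s) with ht
    have hb := gterm_bound H e s v
    have hh := half_bound v h1
    rw [← ht] at hb
    have h6 : ‖t‖ ≤ 1 / 2 := hb.trans hh
    have h7 : 1 / 2 ≤ ‖1 - t‖ := by
      have := norm_sub_norm_le (1 : ℂ) t
      rw [norm_one] at this
      linarith
    have h8 : (1 - t) ≠ 0 := by
      intro h0
      rw [h0, norm_zero] at h7
      norm_num at h7
    have h9 : g1 X e s v - 1 = t * (1 - t)⁻¹ := by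
      unfold g1
      rw [← ht]
      field_simp
      ring
    rw [h9, norm_mul, norm_inv]
    have h10 : ‖1 - t‖⁻¹ ≤ 2 := by
      rw [inv_le_comm₀ (by linarith) (by norm_num)]
      linarith
    calc ‖t‖ * ‖1 - t‖⁻¹ ≤ ‖t‖ * 2 := by gcongr
      _ ≤ 2 * (nm v : ℝ) ^ (-(s.re - 1 / 2)) := by linarith
  have h7 := multipliable_one_add_of_summable h5
  refine h7.congr (fun v => ?_)
  ring

lemma gpsi_term {X : ZI →* ℂ} {p : Nat.Primes} {z : ZI} (hz : z ∈ Ip p) (s : ℂ) :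
    psi X z * (((p : ℕ) : ℂ) ^ (-(s - 1 / 2))) ^ dg p =
      X z * tc z * ((nrm z : ℕ) : ℂ) ^ (-s) := by
  obtain ⟨-, hzp, h3, -⟩ := Ip_spec p.2 hz
  rw [psi_apply _ hzp.ne_zero, h3]
  have hp0 : ((p : ℕ) : ℂ) ≠ 0 := Nat.cast_ne_zero.2 p.2.ne_zero
  have hpr : (0 : ℝ) < (p : ℕ) := by exact_mod_cast p.2.pos
  have e0 : (((p : ℕ) ^ dg p : ℕ) : ℂ) ^ (-s) = (((p : ℕ) : ℂ) ^ (-s)) ^ dg p := by
    have hk : ∀ k : ℕ, (((p : ℕ) ^ k : ℕ) : ℂ) ^ (-s) = (((p : ℕ) : ℂ) ^ (-s)) ^ k := by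
      intro k
      induction k with
      | zero => simp
      | succ k ih =>
        rw [pow_succ, Nat.cast_mul, Complex.natCast_mul_natCast_cpow, ih, pow_succ]
    exact hk _
  have e1 : ((p : ℕ) : ℂ) ^ (-(s - 1 / 2)) = ((p : ℕ) : ℂ) ^ (-s) * ((p : ℕ) : ℂ) ^ ((1 / 2 : ℂ)) := by
    rw [← Complex.cpow_add _ _ hp0]
    congr 1
    ring
  have e2 : ((‖tc z‖ : ℝ) : ℂ) = (((p : ℕ) : ℂ) ^ ((1 / 2 : ℂ))) ^ dg p := by
    have h1 : ‖tc z‖ = (((p : ℕ) : ℝ) ^ (1 / 2 : ℝ)) ^ dg p := by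
      rw [norm_tc_eq, h3]
      push_cast
      rw [← Real.rpow_natCast, ← Real.rpow_mul hpr.le, mul_comm, Real.rpow_mul hpr.le,
        Real.rpow_natCast]
    rw [h1, Complex.ofReal_pow, Complex.ofReal_cpow hpr.le]
    push_cast
    rfl
  have e3 : ((‖tc z‖ : ℝ) : ℂ) ≠ 0 := by
    rw [Complex.ofReal_ne_zero, norm_ne_zero_iff]
    exact tc_ne_zero hzp.ne_zero
  rw [e0, e1, mul_pow, ← e2]
  field_simp

theorem g1_hasProd {q : ZI} {X : ZI →* ℂ} (H : HC q X) (hX : X pi1 = 0) (e : ZI ≃+* 𝓞 K) {s : ℂ} (hs : 3 / 2 < s.re) :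
    HasProd (g1 X e s) (LH X (s - 1 / 2)) := by
  obtain ⟨A, hA, hgood⟩ := goodH
  have hre : 1 < (s - 1 / 2).re := by
    have : (s - 1 / 2).re = s.re - 1 / 2 := by simp
    rw [this]; linarith
  have h1 := ep_hecke (uh_psi _ _ H) (s - 1 / 2) _ ((hgood _ _ H).2.1 _ hre)
  rw [← (plEquiv e).hasProd_iff]
  refine HasProd.sigma_of_hasProd h1 (fun p => ?_) ?_
  · have h2 : (1 - bb (psi X) (p : ℕ) * (((p : ℕ) : ℂ) ^ (-(s - 1 / 2))) +
        ee (psi X) (p : ℕ) * (((p : ℕ) : ℂ) ^ (-(s - 1 / 2))) ^ 2)⁻¹ =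
        ∏ z : {z : ZI // z ∈ Iq p}, (g1 X e s ∘ plEquiv e) ⟨p, z⟩ := by
      have h3 : ∀ z : {z : ZI // z ∈ Iq p}, (g1 X e s ∘ plEquiv e) ⟨p, z⟩ =
          (1 - X z.1 * tc z.1 * ((nrm z.1 : ℕ) : ℂ) ^ (-s))⁻¹ := by
        rintro ⟨z, hz⟩
        show g1 X e s (plc e (Iq_spec hz).1) = _
        unfold g1
        rw [pg_plc e hz, norm_pg e (z := z) rfl]
      simp_rw [h3]
      rw [Finset.prod_coe_sort (Iq p) (fun z => (1 - X z * tc z * ((nrm z : ℕ) : ℂ) ^ (-s))⁻¹)]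
      unfold Iq
      split_ifs with hp2
      · rw [Finset.prod_singleton, hX, zero_mul, zero_mul]
        rw [hp2, local_two (uh_psi _ _ H)]
        have h4 : psi X ⟨1, 1⟩ = 0 := by
          rw [psi_apply _ (by decide)]
          have h5 : X ⟨1, 1⟩ = 0 := hX
          rw [h5, zero_mul]
        rw [h4, zero_mul]
      · rw [local_poly (uh_psi _ _ H) p.2 hp2, ← Finset.prod_inv_distrib]
        refine Finset.prod_congr rfl fun z hz => ?_
        rw [gpsi_term hz]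
    rw [h2]
    exact hasProd_fintype _
  · exact (plEquiv e).multipliable_iff.2 (g1_mul H e hs)

/-- the Euler factor of the second Hecke L-function -/
noncomputable def g2 (X : ZI →* ℂ) (e : ZI ≃+* 𝓞 K) (s : ℂ)
    (v : HeightOneSpectrum (𝓞 K)) : ℂ :=
  (1 - (starRingEnd ℂ) (X (pg e v)) * tc (star (pg e v)) * ((Ideal.absNorm v.asIdeal : ℕ) : ℂ) ^ (-s))⁻¹

lemma g2_eq (X : ZI →* ℂ) (e : ZI ≃+* 𝓞 K) (s : ℂ) (v : HeightOneSpectrum (𝓞 K)) :
    g2 X e s v = (starRingEnd ℂ) (g1 X e ((starRingEnd ℂ) s) v) := by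
  unfold g2 g1
  rw [map_inv₀, map_sub, map_one, map_mul, map_mul, tc_star]
  congr 3
  have h := Complex.cpow_conj ((Ideal.absNorm v.asIdeal : ℕ) : ℂ) (-(starRingEnd ℂ) s) (by
    rw [Complex.natCast_arg]; exact Real.pi_pos.ne)
  rw [map_neg, Complex.conj_conj, map_natCast] at h
  rw [← h]

theorem g2_hasProd {q : ZI} {X : ZI →* ℂ} (H : HC q X) (hX : X pi1 = 0) (e : ZI ≃+* 𝓞 K) {s : ℂ} (hs : 3 / 2 < s.re) :
    HasProd (g2 X e s) ((starRingEnd ℂ) (LH X ((starRingEnd ℂ) s - 1 / 2))) := by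
  have h1 := g1_hasProd H hX e (s := (starRingEnd ℂ) s) (by rwa [Complex.conj_re])
  have h2 := h1.map (starRingEnd ℂ) Complex.continuous_conj
  refine h2.congr_fun (fun v => ?_)
  rw [g2_eq]
  rfl

/-- the L-function of `y² = x³ - D² x` -/
noncomputable def LG (X : ZI →* ℂ) (s : ℂ) : ℂ :=
  LH X (s - 1 / 2) * (starRingEnd ℂ) (LH X ((starRingEnd ℂ) s - 1 / 2))

theorem LG_diff {q : ZI} {X : ZI →* ℂ} (H : HC q X) : Differentiable ℂ (LG X) := by
  obtain ⟨A, hA, hgood⟩ := goodH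
  have h1 := (hgood _ _ (H)).1
  have h2 : Differentiable ℂ (fun s => LH X (s - 1 / 2)) :=
    h1.comp (differentiable_id.sub_const _)
  refine h2.mul fun s => ?_
  have h3 : DifferentiableAt ℂ ((starRingEnd ℂ) ∘ (fun s => LH X (s - 1 / 2)) ∘ (starRingEnd ℂ)) s :=
    differentiableAt_conj_conj_iff.2 (h2 _)
  exact h3

theorem LG_one {X : ZI →* ℂ} (h : LH X (1 / 2) ≠ 0) : LG X 1 ≠ 0 := by
  unfold LG
  have e : (1 : ℂ) - 1 / 2 = 1 / 2 := by norm_num
  rw [map_one, e]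
  exact mul_ne_zero h ((map_ne_zero _).2 h)


/-- number of points on `y² = x³ + d x` over the residue field -/
noncomputable def cnt4 (v : HeightOneSpectrum (𝓞 K)) (d : 𝓞 K ⧸ v.asIdeal) : ℕ :=
  Nat.card {x : (𝓞 K ⧸ v.asIdeal) × (𝓞 K ⧸ v.asIdeal) // x.2 ^ 2 = x.1 ^ 3 + d * x.1}

omit [NumberField K] in
lemma aff_cr4 (v : HeightOneSpectrum (𝓞 K)) (d : 𝓞 K) :
    Mdl.aff ((cr4 d).map (Ideal.Quotient.mk v.asIdeal)) = cnt4 v (Ideal.Quotient.mk v.asIdeal d) := by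
  rw [cr4_map]
  unfold Mdl.aff cnt4
  refine Nat.card_congr (Equiv.subtypeEquivRight fun x => ?_)
  rw [WeierstrassCurve.Affine.equation_iff]
  unfold cr4
  simp only [zero_mul, add_zero]

lemma cnt4_eq (v : HeightOneSpectrum (𝓞 K)) (d c : 𝓞 K ⧸ v.asIdeal) (h : d = -c ^ 2) :
    cnt4 v d = cnt v c := by
  unfold cnt4 cnt
  refine Nat.card_congr (Equiv.subtypeEquivRight fun x => ?_)
  rw [h]
  constructor <;> intro h' <;> linear_combination h'

/-- bad places -/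
lemma cnt4_bad (e : ZI ≃+* 𝓞 K) {v : HeightOneSpectrum (𝓞 K)} {z D : ZI}
    (hv : v.asIdeal = Ideal.span {e z}) (hD : prim D)
    (h : ((below v : ℕ) = 2 ∧ z = pi1) ∨ z ∣ D) :
    ((Ideal.absNorm v.asIdeal : ℕ) : ℤ) - cnt4 v (Ideal.Quotient.mk v.asIdeal (e D)) = 0 := by
  have h0 := cnt_bad e hv hD h
  rw [cnt4_eq v _ (Ideal.Quotient.mk v.asIdeal (e D))]
  · exact h0
  · rw [← sub_eq_zero, ← map_pow, ← map_neg, ← map_sub, Ideal.Quotient.eq_zero_iff_mem]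
    have e1 : e D - -(e D) ^ 2 = e (D * (D + 1)) := by
      rw [map_mul, map_add, map_one]; ring
    rw [e1, mem_iff e hv]
    rcases h with h | h
    · rw [h.2]
      refine Dvd.dvd.mul_left ?_ _
      have h1 := prim_mod_two hD
      have h2 := pi1_two.trans h1
      have e2 : D + 1 = (D - 1) + 2 := by ring
      rw [e2]
      exact dvd_add h2 pi1_two
    · exact h.mul_right _

/-- good places -/
theorem cnt4_good (e : ZI ≃+* 𝓞 K) {v : HeightOneSpectrum (𝓞 K)} {z D : ZI} (hz : PP z)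
    (hv : v.asIdeal = Ideal.span {e z}) (hD : ¬ z ∣ D) :
    (((((Ideal.absNorm v.asIdeal : ℕ) : ℤ) - cnt4 v (Ideal.Quotient.mk v.asIdeal (e D)) : ℤ)) : ZI) =
      star (q4 z (-D)) * z + q4 z (-D) * star z := by
  classical
  letI := vF v
  have : Finite (𝓞 K ⧸ v.asIdeal) := Ideal.finiteQuotientOfFreeOfNeBot v.asIdeal v.ne_bot
  letI i2 : Fintype (𝓞 K ⧸ v.asIdeal) := Fintype.ofFinite _
  have hR := place_res e hz hv
  have hS := base_sum e hz hv
  have hJ := hR.J_eq hS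
  set d : 𝓞 K ⧸ v.asIdeal := Ideal.Quotient.mk v.asIdeal (e D) with hd
  have hd0 : -d ≠ 0 := by
    rw [neg_ne_zero, hd, Ne, Ideal.Quotient.eq_zero_iff_mem, mem_iff e hv]
    exact hD
  have hcard : Ideal.absNorm v.asIdeal = Fintype.card (𝓞 K ⧸ v.asIdeal) := by
    rw [Ideal.absNorm_apply, Submodule.cardQuot_apply, Nat.card_eq_fintype_card]
  have c1 := Pool.Agent.H82R3.EK.card_points hR.char_ne (fun x : 𝓞 K ⧸ v.asIdeal => x ^ 3 + d * x)
  have e1 : (cnt4 v d : ℤ) = (Fintype.card (𝓞 K ⧸ v.asIdeal) : ℤ) +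
      ∑ x : 𝓞 K ⧸ v.asIdeal, quadraticChar (𝓞 K ⧸ v.asIdeal) (x ^ 3 - (-d) * x) := by
    unfold cnt4
    rw [c1]
    simp_rw [neg_mul, sub_neg_eq_add]
  have h2 := hR.sum_twist hd0
  have e2 : hR.chi (-d) = q4 z (-D) := by
    have e3 : -d = ((Ideal.Quotient.mk v.asIdeal).comp (e : ZI →+* 𝓞 K)) (-D) := by
      rw [hd]
      show -(Ideal.Quotient.mk v.asIdeal (e D)) = Ideal.Quotient.mk v.asIdeal (e (-D))
      rw [map_neg, map_neg]
    rw [e3, hR.chi_map]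
  rw [hJ, e2] at h2
  rw [e1, hcard]
  have e4 : ((((Fintype.card (𝓞 K ⧸ v.asIdeal) : ℕ) : ℤ) - ((Fintype.card (𝓞 K ⧸ v.asIdeal) : ℤ) +
      ∑ x : 𝓞 K ⧸ v.asIdeal, quadraticChar (𝓞 K ⧸ v.asIdeal) (x ^ 3 - (-d) * x)) : ℤ) : ZI) =
      -((∑ x : 𝓞 K ⧸ v.asIdeal, quadraticChar (𝓞 K ⧸ v.asIdeal) (x ^ 3 - (-d) * x) : ℤ) : ZI) := by
    push_cast; ring
  rw [e4, h2, star_neg]
  ring

variable {ι : Type} [DecidableEq ι] {pr : ι → ZI}

/-- the exponents equal to one -/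
abbrev on1 {ι : Type} : ι → ℕ := fun _ => 1

lemma c4_one_exp (hp : PF pr) (V : Finset ι) (z : ZI) : c4 pr V on1 z = ∏ i ∈ V, q4 (pr i) z := by
  unfold c4
  refine Finset.prod_congr rfl fun i _ => ?_
  unfold fe
  split_ifs with h
  · rw [q4_zero h]
  · rw [pow_one]

/-- reciprocity for the product -/
theorem c4_rec (J : JJ) (hp : PF pr) {V : Finset ι} (hW : (∑ i ∈ V, wq (pr i)) % 4 = 3) {z : ZI}
    (hz : PP z) (hzD : ¬ z ∣ DD pr V) : q4 z (-(DD pr V)) = c4 pr V on1 z := by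
  rw [c4_one_exp hp]
  have hne : ∀ i ∈ V, z ≠ pr i := by
    intro i hi h
    exact hzD (h ▸ dvd_DD hi)
  have e1 : -(DD pr V) = (-1) * DD pr V := by ring
  have e2 : q4 z (DD pr V) = ∏ i ∈ V, q4 z (pr i) := by
    unfold DD
    exact q4_prod hz V pr
  rw [e1, q4_mul hz, q4_neg_one hz, e2]
  have e3 : ∏ i ∈ V, q4 z (pr i) = (∏ i ∈ V, q4 (pr i) z) * (-1) ^ (wq z * ∑ i ∈ V, wq (pr i)) := by
    rw [Finset.mul_sum, ← Finset.prod_pow_eq_pow_sum, ← Finset.prod_mul_distrib]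
    exact Finset.prod_congr rfl fun i hi => q4_rec J hz (hp.pp i) (hne i hi)
  rw [e3]
  have e4 : (-1 : ZI) ^ (nrm z / 4) * (-1) ^ (wq z * ∑ i ∈ V, wq (pr i)) = 1 := by
    have e5 : nrm z / 4 = wq z := rfl
    rw [e5, ← pow_add]
    apply Even.neg_one_pow
    obtain ⟨k, hk⟩ : ∃ k, ∑ i ∈ V, wq (pr i) = 2 * k + 1 := ⟨(∑ i ∈ V, wq (pr i)) / 2, by omega⟩
    rw [hk]
    exact ⟨wq z * (k + 1), by ring⟩
  linear_combination (∏ i ∈ V, q4 (pr i) z) * e4

lemma Wt_on1 (V : Finset ι) : Wt pr V on1 = ∑ i ∈ V, wq (pr i) := by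
  unfold Wt
  simp

theorem XH (hp : PF pr) {V : Finset ι} (hW : (∑ i ∈ V, wq (pr i)) % 4 = 3) :
    HC (cn4 pr V) (XX4 hp V on1) :=
  XX4_HC hp (by rw [Wt_on1]; exact hW) (fun _ _ => by norm_num)

lemma XX4_pi1 (hp : PF pr) (V : Finset ι) : XX4 hp V on1 pi1 = 0 := by
  rw [XX4_apply, un_even (by decide), tc_zero, zero_mul]

theorem lf_eq4 (hp : PF pr) {V : Finset ι} (hW : (∑ i ∈ V, wq (pr i)) % 4 = 3)
    (hre : (DD pr V).re % 8 = 3) (e : ZI ≃+* 𝓞 K) (s : ℂ) (v : HeightOneSpectrum (𝓞 K))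
    {W : WeierstrassCurve (𝓞 K)}
    (hmin : MinAt (cr4 (algebraMap (𝓞 K) K (e (DD pr V)))) v W) :
    lf W v s = g1 (XX4 hp V on1) e s v * g2 (XX4 hp V on1) e s v := by
  set D := DD pr V with hD
  have hprim : prim D := DD_prim hp V
  have hsp := pg_span e v
  set z := pg e v with hz
  have hzp : Prime z := pg_prime e v
  have hodd : (below v : ℕ) ≠ 2 → z ∈ Ip (below v) → PP z := fun h1 h2 =>
    ⟨(Ip_spec (below v).2 h2).2.1, (Ip_spec (below v).2 h2).1⟩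
  have hz2 : z = pi1 ∨ ¬ z ∣ 2 := by
    rcases pg_cases e v with ⟨h1, h2⟩ | ⟨h1, h2⟩
    · exact Or.inl h2
    · exact Or.inr (not_dvd_two (hodd h1 h2))
  obtain ⟨C, hC⟩ := hmin.1
  have hu := val_u4 e hsp hz2 hprim hre (DD_sqf hp V) hmin hC
  have hC' : C • W.map (algebraMap (𝓞 K) K) = (cr4 (e D)).map (algebraMap (𝓞 K) K) := by
    rw [cr4_map]; exact hC
  have haff := Mdl.aff_model v hu hC'
  rw [aff_cr4] at haff
  have hΔ : W.Δ ∈ v.asIdeal ↔ (z = pi1 ∨ z ∣ D) := by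
    have h1 := congrArg WeierstrassCurve.Δ hC'
    rw [WeierstrassCurve.variableChange_Δ, WeierstrassCurve.map_Δ, WeierstrassCurve.map_Δ] at h1
    have h2 := congrArg (v.valuation K) h1
    rw [map_mul, map_pow, Units.val_inv_eq_inv_val, map_inv₀, hu, inv_one, one_pow, one_mul] at h2
    rw [← v.valuation_lt_one_iff_mem (K := K), h2, v.valuation_lt_one_iff_mem (K := K), cr4_Δ]
    have e1 : (-64 : 𝓞 K) * e D ^ 3 = e (-64 * D ^ 3) := by
      rw [map_mul, map_pow, map_neg, map_ofNat]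
    rw [e1, mem_iff e hsp]
    constructor
    · intro h
      rcases hz2 with h3 | h3
      · exact Or.inl h3
      · right
        rcases hzp.dvd_or_dvd h with h4 | h4
        · exfalso
          apply h3
          have e5 : (-64 : ZI) = -(2 ^ 6) := by decide
          rw [e5, dvd_neg] at h4
          exact hzp.dvd_of_dvd_pow h4
        · exact hzp.dvd_of_dvd_pow h4
    · rintro (h | h)
      · rw [h]
        exact (pi1_two.trans ⟨-32, by decide⟩).mul_right _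
      · exact (dvd_pow h (by norm_num)).mul_left _
  unfold lf
  rw [haff]
  by_cases hb : z = pi1 ∨ z ∣ D
  · rw [if_pos (hΔ.2 hb)]
    have hb' : ((below v : ℕ) = 2 ∧ z = pi1) ∨ z ∣ D := by
      rcases hb with h | h
      · rcases pg_cases e v with ⟨h1, h2⟩ | ⟨h1, h2⟩
        · exact Or.inl ⟨h1, h⟩
        · exfalso
          have := pi1_prim (hodd h1 h2).prm
          rw [h] at this
          exact this dvd_rfl
      · exact Or.inr h
    have h1 := cnt4_bad e hsp hprim hb'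
    have h2 : ((Ideal.absNorm v.asIdeal : ℕ) : ℂ) - (cnt4 v (Ideal.Quotient.mk v.asIdeal (e D)) : ℂ) = 0 := by
      exact_mod_cast congrArg (Int.cast : ℤ → ℂ) h1
    rw [h2]
    have h3 : XX4 hp V on1 z = 0 := by
      rcases hb with h | h
      · rw [h, XX4_pi1]
      · by_contra hne
        have h4 := ((cop_cn4 hp V z).1 (((XH hp hW).supp z).1 hne)).2
        rw [hD] at h
        unfold DD at h
        obtain ⟨i, hi, hzi⟩ := (hzp.dvd_finsetProd_iff _).1 h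
        rcases pg_cases e v with ⟨h1, h2⟩ | ⟨h1, h2⟩
        · have h5 := pi1_prim (hp.pp i).prm
          rw [hz, h2] at hzi
          exact h5 hzi
        · have h5 := (hodd h1 h2).eq_of_dvd (hp.pp i) hzi
          exact h4 i hi (by rw [h5])
    unfold g1 g2
    rw [← hz, h3]
    simp
  · rw [if_neg (fun h => hb (hΔ.1 h))]
    push Not at hb
    rcases pg_cases e v with ⟨h1, h2⟩ | ⟨h1, h2⟩
    · exact absurd h2 hb.1
    · have hPP := hodd h1 h2
      have h3 := congrArg tc (cnt4_good e hPP hsp hb.2)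
      rw [tc_int, tc_add, tc_mul, tc_mul] at h3
      push_cast at h3
      rw [h3]
      have hrec := c4_rec (JJ_of e) hp hW hPP hb.2
      unfold g1 g2
      rw [← hz, XX4_prim hp V on1 hPP.prm, ← hrec, ← mul_inv, Complex.conj_conj]
      congr 1
      have hnd : ¬ z ∣ -D := fun h => hb.2 ((dvd_neg).1 h)
      have h4 : tc (q4 z (-D)) * (starRingEnd ℂ) (tc (q4 z (-D))) = 1 := by
        rw [← tc_star, ← tc_mul, unit_star_mul (q4_norm hPP hnd), tc_one]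
      have h5 : tc z * tc (star z) = ((Ideal.absNorm v.asIdeal : ℕ) : ℂ) := by
        rw [norm_pg e hsp, ← tc_mul, ← Zsqrtd.norm_eq_mul_conj, ← nrm_cast]
        unfold tc
        simp
      have h6 : ((Ideal.absNorm v.asIdeal : ℕ) : ℂ) ^ (-2 * s) =
          (((Ideal.absNorm v.asIdeal : ℕ) : ℂ) ^ (-s)) ^ 2 := by
        rw [← Complex.cpow_nat_mul]
        congr 1
        push_cast
        ring
      have h7 : tc (star (q4 z (-D))) = (starRingEnd ℂ) (tc (q4 z (-D))) := tc_star _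
      rw [h6, h7]
      linear_combination (-(((Ideal.absNorm v.asIdeal : ℕ) : ℂ) ^ (-s)) ^ 2) * h5 -
        (tc z * tc (star z)) * (((Ideal.absNorm v.asIdeal : ℕ) : ℂ) ^ (-s)) ^ 2 * h4

/-- the Euler product of `y² = x³ + D x` -/
theorem L4_hasProd (hp : PF pr) {V : Finset ι} (hW : (∑ i ∈ V, wq (pr i)) % 4 = 3)
    (hre : (DD pr V).re % 8 = 3) (e : ZI ≃+* 𝓞 K) {s : ℂ} (hs : 3 / 2 < s.re)
    (W : HeightOneSpectrum (𝓞 K) → WeierstrassCurve (𝓞 K))
    (hWm : ∀ v, MinAt (cr4 (algebraMap (𝓞 K) K (e (DD pr V)))) v (W v)) :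
    HasProd (fun v => lf (W v) v s) (LG (XX4 hp V on1) s) := by
  have h := (g1_hasProd (XH hp hW) (XX4_pi1 hp V) e hs).mul (g2_hasProd (XH hp hW) (XX4_pi1 hp V) e hs)
  refine h.congr_fun (fun v => ?_)
  exact lf_eq4 hp hW hre e s v (hWm v)

end Pool.Agent.Y699
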