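import Pool.Agent.Y699.Qs

/-!
Jacobi sums of the quartic character.
-/

set_option autoImplicit false
set_option linter.unusedSectionVars false

open H385 (ZI RQ im1 nrm)

namespace Pool.Agent.Y699

open Pool.Agent.W164.RC (Ip Ip_spec Ip_exists Ip_one Ip_three dg two2 prim_iff_dvd unit_norm unit_cases)
open Pool.Agent.H304R2.EC.A1 (prim prim_mul prim_cancel prim_one prim_norm_odd prim_star eq_one_of_prim
  norm_def' re_mul' im_mul' eq_of_dvd prim_ne_zero)

/-- the residue field of a primary prime -/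
structure Res (π : ZI) (F : Type) [Field F] [Fintype F] (ρ : ZI →+* F) : Prop where
  pp : PP π
  surj : Function.Surjective ρ
  ker : ∀ a, ρ a = 0 ↔ π ∣ a
  card : Fintype.card F = nrm π

variable {π : ZI} {F : Type} [Field F] [Fintype F] {ρ : ZI →+* F}

/-- a lift -/
noncomputable def Res.sec (h : Res π F ρ) (x : F) : ZI := Function.surjInv h.surj x

lemma Res.sec_spec (h : Res π F ρ) (x : F) : ρ (h.sec x) = x := Function.surjInv_eq h.surj x

lemma Res.q4_congr (h : Res π F ρ) {a b : ZI} (hab : ρ a = ρ b) : q4 π a = q4 π b := by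
  apply q4_per h.pp
  rw [← h.ker, map_sub, hab, sub_self]

/-- the quartic character -/
noncomputable def Res.chi (h : Res π F ρ) : MulChar F ZI where
  toFun x := q4 π (h.sec x)
  map_one' := by
    rw [h.q4_congr (b := 1) (by rw [h.sec_spec, map_one]), q4_one h.pp]
  map_mul' x y := by
    show q4 π (h.sec (x * y)) = q4 π (h.sec x) * q4 π (h.sec y)
    rw [← q4_mul h.pp]
    exact h.q4_congr (by rw [h.sec_spec, map_mul, h.sec_spec, h.sec_spec])
  map_nonunit' x hx := by
    have h0 : x = 0 := by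
      by_contra h1
      exact hx (isUnit_iff_ne_zero.2 h1)
    show q4 π (h.sec x) = 0
    apply q4_zero
    rw [← h.ker, h.sec_spec, h0]

lemma Res.chi_apply (h : Res π F ρ) (x : F) : h.chi x = q4 π (h.sec x) := rfl

lemma Res.chi_map (h : Res π F ρ) (a : ZI) : h.chi (ρ a) = q4 π a := by
  rw [h.chi_apply]
  exact h.q4_congr (h.sec_spec _)

lemma Res.rho_q4 (h : Res π F ρ) (a : ZI) : ρ (q4 π a) = ρ a ^ (nrm π / 4) := by
  have h1 := (h.ker _).2 (q4_dvd h.pp a)
  rw [map_sub, map_pow, sub_eq_zero] at h1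
  exact h1.symm

lemma Res.rho_chi (h : Res π F ρ) (x : F) : ρ (h.chi x) = x ^ (nrm π / 4) := by
  rw [h.chi_apply, h.rho_q4, h.sec_spec]

lemma Res.chi_norm (h : Res π F ρ) {x : F} (hx : x ≠ 0) : (h.chi x).norm = 1 := by
  rw [h.chi_apply]
  apply q4_norm h.pp
  rw [← h.ker, h.sec_spec]
  exact hx

lemma Res.char_ne (h : Res π F ρ) : ringChar F ≠ 2 := by
  intro h2
  have h3 : ((2 : ℕ) : F) = 0 := by
    rw [← h2]
    exact ringChar.Nat.cast_ringChar
  have h4 : ρ 2 = 0 := by
    rw [map_ofNat]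
    exact_mod_cast h3
  exact not_dvd_two h.pp ((h.ker _).1 h4)

variable [DecidableEq F]

lemma Res.quad (h : Res π F ρ) (a : ZI) : quadraticChar F (ρ a) = qr π a := by
  classical
  unfold qr
  rw [quadraticChar_apply, quadraticCharFun]
  have h0 : ρ a = 0 ↔ π ∣ a := h.ker a
  by_cases ha : π ∣ a
  · rw [if_pos ha, if_pos (h0.2 ha)]
  · rw [if_neg ha, if_neg (fun h' => ha (h0.1 h'))]
    have h1 : (∃ b, π ∣ a - b ^ 2) ↔ IsSquare (ρ a) := by
      constructor
      · rintro ⟨b, hb⟩
        refine ⟨ρ b, ?_⟩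
        have := (h.ker _).2 hb
        rw [map_sub, map_pow, sub_eq_zero] at this
        rw [this, sq]
      · rintro ⟨c, hc⟩
        refine ⟨h.sec c, ?_⟩
        rw [← h.ker, map_sub, map_pow, h.sec_spec, hc, sq, sub_self]
    by_cases h3 : ∃ b, π ∣ a - b ^ 2
    · rw [if_pos h3, if_pos (h1.1 h3)]
    · rw [if_neg h3, if_neg (fun h4 => h3 (h1.2 h4))]

variable (F) in
/-- the quadratic character -/
noncomputable def eta : MulChar F ZI := (quadraticChar F).ringHomComp (Int.castRingHom ZI)

lemma eta_apply (x : F) : eta F x = ((quadraticChar F x : ℤ) : ZI) := rfl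

lemma Res.eta_eq (h : Res π F ρ) (x : F) : eta F x = h.chi x ^ 2 := by
  rw [eta_apply, h.chi_apply, q4_sq h.pp, ← h.quad, h.sec_spec]

lemma Res.chi_sq (h : Res π F ρ) : h.chi ^ 2 = eta F := by
  apply MulChar.ext'
  intro a
  rw [MulChar.pow_apply' _ two_ne_zero, h.eta_eq]

lemma Res.star_chi (h : Res π F ρ) (x : F) : star (h.chi x) = h.chi x ^ 3 := by
  by_cases hx : x = 0
  · rw [hx, MulChar.map_zero, star_zero]; ring
  · exact star_unit (h.chi_norm hx)

lemma Res.eta_star (h : Res π F ρ) (x : F) : star (eta F x) = eta F x := by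
  rw [eta_apply, star_intCast]

lemma Res.eta_neg_one (h : Res π F ρ) : eta F (-1) = 1 := by
  have e : (-1 : F) = ρ (-1) := by rw [map_neg, map_one]
  rw [h.eta_eq, e, h.chi_map, q4_neg_one h.pp, ← pow_mul, mul_comm, pow_mul]
  norm_num

lemma Res.rho_eta (h : Res π F ρ) (x : F) : ρ (eta F x) = x ^ (2 * (nrm π / 4)) := by
  rw [h.eta_eq, map_pow, h.rho_chi, ← pow_mul, mul_comm]

/-- the Jacobi sum -/
noncomputable def Res.J (h : Res π F ρ) : ZI := jacobiSum h.chi (eta F)

lemma Res.J_def (h : Res π F ρ) : h.J = ∑ x : F, h.chi x * eta F (1 - x) := rfl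

lemma Res.rho_J (h : Res π F ρ) : ρ h.J = 0 := by
  have hm := h.pp.nrm_mod
  have h5 := h.pp.five_le
  have hc := nrm_cast π
  set k := nrm π / 4 with hk
  rw [h.J_def, map_sum]
  have e1 : ∀ x : F, ρ (h.chi x * eta F (1 - x)) =
      ∑ m ∈ Finset.range (2 * k + 1), ((-1) ^ m * ((2 * k).choose m : F)) * x ^ (k + m) := by
    intro x
    rw [map_mul, h.rho_chi, h.rho_eta, ← hk]
    have e2 : (1 - x) = -x + 1 := by ring
    rw [e2, add_pow, Finset.mul_sum]
    refine Finset.sum_congr rfl fun m _ => ?_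
    rw [one_pow, mul_one, neg_pow, pow_add]
    ring
  simp_rw [e1]
  rw [Finset.sum_comm]
  refine Finset.sum_eq_zero fun m hm' => ?_
  rw [← Finset.mul_sum, FiniteField.sum_pow_lt_card_sub_one, mul_zero]
  rw [h.card]
  have := Finset.mem_range.1 hm'
  omega

lemma eta_ne (h : Res π F ρ) : eta F ≠ 1 := by
  intro h1
  obtain ⟨a, ha⟩ := quadraticChar_exists_neg_one h.char_ne
  have h2 : eta F a = 1 := by
    rw [h1]
    apply MulChar.one_apply
    rw [isUnit_iff_ne_zero]
    rintro rfl
    rw [MulChar.map_zero] at ha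
    norm_num at ha
  rw [eta_apply, ha] at h2
  exact absurd h2 (by decide)

/-- the embedding into the complex numbers -/
noncomputable def toC : ZI →+* ℂ := GaussianInt.toComplex

lemma toC_inj : Function.Injective toC := GaussianInt.toComplex_injective

lemma Res.unit_mul (h : Res π F ρ) {x : F} (hx : x ≠ 0) : h.chi x * star (h.chi x) = 1 :=
  unit_star_mul (h.chi_norm hx)

lemma Res.J_norm (h : Res π F ρ) : h.J * star h.J = (nrm π : ZI) := by
  set f : ZI →+* ℂ := toC with hf
  set g : ZI →+* ℂ := f.comp (starRingEnd ZI) with hg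
  have h1 : (h.chi.ringHomComp f)⁻¹ = h.chi.ringHomComp g := by
    apply inv_eq_of_mul_eq_one_right
    apply MulChar.ext
    intro a
    rw [MulChar.mul_apply, MulChar.ringHomComp_apply, MulChar.ringHomComp_apply, MulChar.one_apply_coe]
    show f (h.chi a) * f (star (h.chi a)) = 1
    rw [← map_mul, h.unit_mul a.ne_zero, map_one]
  have h2 : ((eta F).ringHomComp f)⁻¹ = (eta F).ringHomComp g := by
    apply inv_eq_of_mul_eq_one_right
    apply MulChar.ext
    intro a
    rw [MulChar.mul_apply, MulChar.ringHomComp_apply, MulChar.ringHomComp_apply, MulChar.one_apply_coe]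
    show f (eta F a) * f (star (eta F a)) = 1
    rw [← map_mul, h.eta_star, h.eta_eq]
    have h3 := Val4.four (h.chi_norm a.ne_zero)
    have e : h.chi (a : F) ^ 2 * h.chi (a : F) ^ 2 = h.chi (a : F) ^ 4 := by ring
    rw [e, h3, map_one]
  have hne : (eta F).ringHomComp f ≠ 1 := (MulChar.ringHomComp_ne_one_iff toC_inj).2 (eta_ne h)
  have hchi : h.chi ≠ 1 := by
    intro h3
    apply eta_ne h
    rw [← h.chi_sq, h3, one_pow]
  have hchi3 : h.chi * eta F ≠ 1 := by
    intro h3
    apply hchi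
    have h4 : h.chi ^ 3 = 1 := by
      rw [← h3, ← h.chi_sq, pow_succ']
    have h5 : h.chi ^ 4 = 1 := by
      apply MulChar.ext
      intro a
      rw [MulChar.pow_apply_coe, Val4.four (h.chi_norm a.ne_zero), MulChar.one_apply_coe]
    rw [pow_succ, h4, one_mul] at h5
    exact h5
  have h3 := jacobiSum_mul_jacobiSum_inv (F := F) (F' := ℂ) (χ := h.chi.ringHomComp f)
    (φ := (eta F).ringHomComp f) (by
      have h0 : ringChar ℂ = 0 := ringChar.eq_zero
      rw [h0]
      intro h4
      have := CharP.char_is_prime F (ringChar F)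
      rw [← h4] at this
      exact Nat.not_prime_zero this)
    ((MulChar.ringHomComp_ne_one_iff toC_inj).2 hchi) hne (by
      rw [← MulChar.ringHomComp_mul]
      exact (MulChar.ringHomComp_ne_one_iff toC_inj).2 hchi3)
  rw [h1, h2, jacobiSum_ringHomComp, jacobiSum_ringHomComp, h.card] at h3
  apply toC_inj
  rw [map_mul, map_natCast]
  exact h3

/-- the sums of the quadratic character over the quartic twists -/
theorem Res.sum_twist (h : Res π F ρ) {a : F} (ha : a ≠ 0) :
    ((∑ x : F, quadraticChar F (x ^ 3 - a * x) : ℤ) : ZI) =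
      star (h.chi a) * h.J + h.chi a * star h.J := by
  have hkey : ∑ u : F, h.chi u * eta F (u - a) = star (h.chi a) * h.J := by
    rw [← Equiv.sum_comp (Equiv.mulLeft₀ a ha), h.J_def, Finset.mul_sum]
    refine Finset.sum_congr rfl fun v _ => ?_
    have e1 : (Equiv.mulLeft₀ a ha) v = a * v := rfl
    have e2 : a * v - a = a * (-1 * (1 - v)) := by ring
    rw [e1, e2, map_mul, map_mul, map_mul, h.eta_neg_one, h.eta_eq a, h.star_chi]
    ring
  have hkey2 : ∑ u : F, star (h.chi u) * eta F (u - a) = h.chi a * star h.J := by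
    have := congrArg star hkey
    rw [star_sum] at this
    rw [star_mul, star_star, mul_comm] at this
    rw [← this]
    refine Finset.sum_congr rfl fun u _ => ?_
    rw [star_mul, h.eta_star, mul_comm]
  rw [← hkey, ← hkey2, ← Finset.sum_add_distrib]
  have e1 : ((∑ x : F, quadraticChar F (x ^ 3 - a * x) : ℤ) : ZI) =
      ∑ x : F, h.chi (x ^ 2) * eta F (x ^ 2 - a) := by
    rw [Int.cast_sum]
    refine Finset.sum_congr rfl fun x _ => ?_
    have e2 : x ^ 3 - a * x = x * (x ^ 2 - a) := by ring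
    rw [e2, map_mul, Int.cast_mul, ← eta_apply, ← eta_apply, map_pow, h.eta_eq x]
  rw [e1, ← Finset.sum_fiberwise Finset.univ (fun x : F => x ^ 2)]
  refine Finset.sum_congr rfl fun u _ => ?_
  have e3 : ∑ x ∈ Finset.univ.filter (fun x : F => x ^ 2 = u), h.chi (x ^ 2) * eta F (x ^ 2 - a) =
      ((Finset.univ.filter (fun x : F => x ^ 2 = u)).card : ZI) * (h.chi u * eta F (u - a)) := by
    rw [← nsmul_eq_mul, ← Finset.sum_const]
    refine Finset.sum_congr rfl fun x hx => ?_
    rw [(Finset.mem_filter.1 hx).2]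
  rw [e3]
  have e4 := quadraticChar_card_sqrts h.char_ne u
  have e5 : ({x : F | x ^ 2 = u}.toFinset) = Finset.univ.filter (fun x : F => x ^ 2 = u) := by
    ext x; simp
  rw [e5] at e4
  have e6 : ((Finset.univ.filter (fun x : F => x ^ 2 = u)).card : ZI) = eta F u + 1 := by
    rw [eta_apply]
    exact_mod_cast congrArg (Int.cast : ℤ → ZI) e4
  rw [e6, h.eta_eq u, h.star_chi]
  ring

lemma PP.re_odd (h : PP π) : π.re % 2 = 1 := Pool.Agent.Y699.re_odd h.prm

lemma PP.im_even (h : PP π) : π.im % 2 = 0 := h.prm.1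

/-- **the Jacobi sum** -/
theorem Res.J_eq (h : Res π F ρ) (hS : ∑ x : F, quadraticChar F (x ^ 3 - x) = -2 * π.re) :
    h.J = -π := by
  have h1 := h.sum_twist (a := 1) one_ne_zero
  have e0 : ∑ x : F, quadraticChar F (x ^ 3 - 1 * x) = -2 * π.re := by
    simp_rw [one_mul]
    exact hS
  rw [e0, map_one, star_one, one_mul, one_mul] at h1
  obtain ⟨c, hc⟩ := (h.ker _).1 h.rho_J
  have hn := h.J_norm
  rw [← Zsqrtd.norm_eq_mul_conj] at hn
  have hn2 : h.J.norm = π.norm := by
    rw [← nrm_cast π]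
    exact_mod_cast hn
  have hcn : c.norm = 1 := by
    rw [hc, Zsqrtd.norm_mul] at hn2
    have := h.pp.norm_pos
    have h3 : π.norm * (c.norm - 1) = 0 := by linear_combination hn2
    rcases mul_eq_zero.1 h3 with h4 | h4
    · omega
    · omega
  have hre := congrArg Zsqrtd.re h1
  have e1 : (star h.J).re = h.J.re := Zsqrtd.re_star _
  have e2 : (((-2 * π.re : ℤ) : ZI)).re = -2 * π.re := Zsqrtd.re_intCast _
  rw [Zsqrtd.re_add, e1, e2] at hre
  have ho := h.pp.re_odd
  have he := h.pp.im_even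
  have hJ : h.J.re = -π.re := by omega
  rw [hc] at hJ ⊢
  rcases unit_cases hcn with h3 | h3 | h3 | h3
  · rw [h3, mul_one] at hJ; omega
  · rw [h3, re_mul'] at hJ
    have : (im1 : ZI).re = 0 := rfl
    have : (im1 : ZI).im = 1 := rfl
    simp only [*] at hJ
    omega
  · rw [h3]
    have : (im1 : ZI) ^ 2 = -1 := by decide
    rw [this]; ring
  · rw [h3] at hJ
    have e3 : (im1 : ZI) ^ 3 = ⟨0, -1⟩ := by decide
    rw [e3, re_mul'] at hJ
    simp only at hJ
    omega

end Pool.Agent.Y699
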