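import Pool.Agent.Y699.Qr
import Pool.Agent.Y699.Pl

/-!
The quartic reciprocity law.
-/

set_option autoImplicit false
set_option linter.unusedSectionVars false
set_option linter.unusedSimpArgs false

open H385 (ZI RQ im1 nrm)

namespace Pool.Agent.Y699

open Pool.Agent.W164.RC (Ip Ip_spec Ip_exists Ip_one Ip_three dg two2 prim_iff_dvd unit_norm unit_cases)
open Pool.Agent.H304R2.EC.A1 (prim prim_mul prim_cancel prim_one prim_norm_odd prim_star eq_one_of_prim
  norm_def' re_mul' im_mul' eq_of_dvd prim_ne_zero)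

variable {π l : ZI}

/-- all Jacobi sums are known -/
def JJ : Prop := ∀ π : ZI, PP π → ∃ (F : Type) (_ : Field F) (_ : Fintype F) (_ : DecidableEq F)
  (ρ : ZI →+* F) (h : Res π F ρ), h.J = -π

lemma PP.res (h : PP π) : ∃ (F : Type) (_ : Field F) (_ : Fintype F) (ρ : ZI →+* F), Res π F ρ := by
  classical
  have := fin_RQ h
  let i2 := Fintype.ofFinite (RQ π)
  let i1 := h.fld
  exact ⟨RQ π, i1, i2, Ideal.Quotient.mk (Ideal.span {π}), h, Ideal.Quotient.mk_surjective,
    fun a => mk_eq_zero a, card_fin h⟩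

lemma Res.char_eq {F : Type} [Field F] [Fintype F] {ρ : ZI →+* F} (h : Res π F ρ) {p : ℕ}
    (hp : p.Prime) (hd : π ∣ (p : ZI)) : ringChar F = p := by
  have h1 : ((p : ℕ) : F) = 0 := by
    rw [← map_natCast ρ]
    exact (h.ker _).2 hd
  have h2 : ringChar F ∣ p := ringChar.dvd h1
  have h3 : (ringChar F).Prime := CharP.char_is_prime F (ringChar F)
  exact (Nat.prime_dvd_prime_iff_eq h3 hp).1 h2

lemma PP.ratp (h : PP π) : ∃ p : ℕ, p.Prime ∧ p ≠ 2 ∧ π ∣ (p : ZI) := by
  rcases h.cases with ⟨p, hp, hp4, hpn⟩ | ⟨p, hp, hp4, hpn⟩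
  · exact ⟨p, hp, by omega, deg1_dvd hpn⟩
  · exact ⟨p, hp, by omega, by rw [hpn]; exact (neg_dvd).2 dvd_rfl⟩

lemma PP.ip (h : PP π) {z : ZI} {q : ℕ} (hq : q.Prime) (hz : z ∈ Ip q) : PP z :=
  ⟨(Ip_spec hq hz).2.1, (Ip_spec hq hz).1⟩

lemma PP_ip {z : ZI} {q : ℕ} (hq : q.Prime) (hz : z ∈ Ip q) : PP z :=
  ⟨(Ip_spec hq hz).2.1, (Ip_spec hq hz).1⟩

theorem recA' (J : JJ) (hπ : PP π) (hl : PP l) {p q : ℕ} (hp : p.Prime) (hq : q.Prime)
    (hpd : π ∣ (p : ZI)) (hqd : l ∣ (q : ZI)) (hpq : p ≠ q) :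
    q4 π ((nrm l : ℕ) : ZI) * q4 l (π ^ 3 * star π) = 1 := by
  obtain ⟨F, i1, i2, i3, ρ, h, hJ⟩ := J π hπ
  obtain ⟨F₂, j1, j2, ρ₂, h₂⟩ := hl.res
  refine h.recA hJ h₂ ?_
  rw [h.char_eq hp hpd, h₂.char_eq hq hqd]
  exact hpq.symm

theorem recB' (J : JJ) (hπ : PP π) {p q : ℕ} (hp : p.Prime) (hq : q.Prime) (h3 : q % 4 = 3)
    (hl : PP (-(q : ZI))) (hpd : π ∣ (p : ZI)) (hpq : p ≠ q) :
    q4 π (-(q : ZI)) = q4 (-(q : ZI)) π := by
  obtain ⟨F, i1, i2, i3, ρ, h, hJ⟩ := J π hπ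
  obtain ⟨F₂, j1, j2, ρ₂, h₂⟩ := hl.res
  have hd : (-(q : ZI)) ∣ (q : ZI) := (neg_dvd).2 dvd_rfl
  refine h.recB hJ hq h3 h₂ ?_ (h₂.char_eq hq hd)
  rw [h.char_eq hp hpd, h₂.char_eq hq hd]
  exact hpq.symm

lemma q4_unitval {u : ZI} (h : PP π) {a : ZI} (ha : ¬ π ∣ a) (hu : u = q4 π a) : u * star u = 1 := by
  rw [hu]; exact unit_star_mul (q4_norm h ha)

/-- the symbol over a rational prime -/
noncomputable def Rp (α : ZI) (q : ℕ) : ZI := ∏ z ∈ Ip q, q4 z α

lemma Rp_mul {q : ℕ} (hq : q.Prime) (α β : ZI) : Rp (α * β) q = Rp α q * Rp β q := by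
  unfold Rp
  rw [← Finset.prod_mul_distrib]
  exact Finset.prod_congr rfl fun z hz => q4_mul (PP_ip hq hz) _ _

lemma Rp_per {q : ℕ} (hq : q.Prime) {α β : ZI} (h : (q : ZI) ∣ α - β) : Rp α q = Rp β q := by
  unfold Rp
  exact Finset.prod_congr rfl fun z hz => q4_per (PP_ip hq hz) ((Ip_spec hq hz).2.2.2.trans h)

lemma q4_int_not_dvd {q : ℕ} (hq : q.Prime) {z : ZI} (hz : PP z) (hzq : z ∣ (q : ZI)) {m : ℤ}
    (hm : ¬ (q : ℤ) ∣ m) : ¬ z ∣ (m : ZI) := by
  intro h
  have h1 : IsCoprime ((q : ℤ)) m := ((Nat.prime_iff_prime_int.1 hq).coprime_iff_not_dvd).2 hm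
  obtain ⟨a, b, hab⟩ := h1
  apply hz.pr.not_isUnit
  apply isUnit_of_dvd_one
  have h2 : (1 : ZI) = (a : ZI) * (q : ZI) + (b : ZI) * (m : ZI) := by
    have := congrArg (Int.cast : ℤ → ZI) hab
    push_cast at this
    exact this.symm
  rw [h2]
  exact dvd_add (hzq.mul_left _) (h.mul_left _)

lemma nrm_inert (q : ℕ) : nrm (-(q : ZI)) = q * q := by
  have h5 := nrm_cast (-(q : ZI))
  rw [Zsqrtd.norm_neg, Zsqrtd.norm_natCast] at h5
  exact_mod_cast h5

lemma inert_quarter {q : ℕ} (h3 : q % 4 = 3) : ∃ k, q = 4 * k + 3 ∧ q * q / 4 = (4 * k + 2) * (k + 1) := by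
  obtain ⟨k, hk⟩ : ∃ k, q = 4 * k + 3 := ⟨q / 4, by omega⟩
  refine ⟨k, hk, ?_⟩
  have h9 : q * q = 4 * ((4 * k + 2) * (k + 1)) + 1 + 8 * (k + 1) - 8 * (k + 1) := by
    rw [hk]
    have : (4 * k + 3) * (4 * k + 3) = 4 * ((4 * k + 2) * (k + 1)) + 1 := by ring
    omega
  omega

lemma Rp_rat {q : ℕ} (hq : q.Prime) {m : ℤ} (hm : ¬ (q : ℤ) ∣ m) : Rp (m : ZI) q = 1 := by
  unfold Rp
  by_cases h1 : q % 4 = 1
  · obtain ⟨x, hx, hxp, hxx, hn, hI⟩ := Ip_one hq h1
    rw [hI, Finset.prod_insert (by simpa using hx), Finset.prod_singleton]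
    have hPx : PP x := PP_ip hq (by rw [hI]; simp)
    have e1 : q4 (star x) (m : ZI) = star (q4 x (m : ZI)) := by
      rw [← q4_star hPx, star_intCast]
    rw [e1]
    apply unit_star_mul
    apply q4_norm hPx
    exact q4_int_not_dvd hq hPx ⟨star x, hxx.symm⟩ hm
  · by_cases h3 : q % 4 = 3
    · rw [Ip_three h3, Finset.prod_singleton]
      have hP : PP (-(q : ZI)) := PP_ip hq (by rw [Ip_three h3]; simp)
      apply q4_eq hP (Or.inr (by decide))
      obtain ⟨k, hk, hk2⟩ := inert_quarter h3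
      rw [nrm_inert, hk2]
      have := Fact.mk hq
      have h5 : (q : ℤ) ∣ m ^ (q - 1) - 1 := by
        rw [← ZMod.intCast_zmod_eq_zero_iff_dvd]
        push_cast
        rw [ZMod.pow_card_sub_one_eq_one, sub_self]
        rw [Ne, ZMod.intCast_zmod_eq_zero_iff_dvd]
        exact hm
      have h6 : q - 1 = 4 * k + 2 := by omega
      rw [h6] at h5
      have h7 : (q : ℤ) ∣ m ^ ((4 * k + 2) * (k + 1)) - 1 := by
        rw [pow_mul]
        have := sub_dvd_pow_sub_pow (m ^ (4 * k + 2)) 1 (k + 1)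
        rw [one_pow] at this
        exact h5.trans this
      have h8 := dvd_cast (π := (q : ZI)) dvd_rfl h7
      push_cast at h8
      exact (neg_dvd).2 h8
    · have h2 : Ip q = ∅ := by
        unfold Ip
        rw [if_neg h1, if_neg h3]
      rw [h2, Finset.prod_empty]

/-- the sign of `2` -/
def e8 (n : ℕ) : ℤ := if n % 8 = 1 ∨ n % 8 = 7 then 1 else -1

lemma e8_mul {m n : ℕ} (hm : m % 2 = 1) (hn : n % 2 = 1) : e8 (m * n) = e8 m * e8 n := by
  unfold e8
  have h1 : m % 8 = 1 ∨ m % 8 = 3 ∨ m % 8 = 5 ∨ m % 8 = 7 := by omega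
  have h2 : n % 8 = 1 ∨ n % 8 = 3 ∨ n % 8 = 5 ∨ n % 8 = 7 := by omega
  rw [Nat.mul_mod]
  rcases h1 with h1 | h1 | h1 | h1 <;> rcases h2 with h2 | h2 | h2 | h2 <;> rw [h1, h2] <;> rfl

lemma Rp_im {q : ℕ} (hq : q.Prime) (h2 : q ≠ 2) : Rp im1 q = ((e8 q : ℤ) : ZI) := by
  have ho : q % 2 = 1 := by
    rcases hq.eq_two_or_odd with h | h
    · exact absurd h h2
    · exact h
  unfold Rp
  by_cases h1 : q % 4 = 1
  · obtain ⟨x, hx, hxp, hxx, hn, hI⟩ := Ip_one hq h1
    rw [hI, Finset.prod_insert (by simpa using hx), Finset.prod_singleton]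
    have hPx : PP x := PP_ip hq (by rw [hI]; simp)
    rw [q4_unit hPx im1_norm, q4_unit hPx.star im1_norm, nrm_star, hn, ← pow_add, ← two_mul, pow_mul,
      im1_sq]
    unfold e8
    rcases (by omega : q % 8 = 1 ∨ q % 8 = 5) with h8 | h8
    · rw [Even.neg_one_pow (by rw [Nat.even_iff]; omega), if_pos (Or.inl h8)]; simp
    · rw [Odd.neg_one_pow (by rw [Nat.odd_iff]; omega), if_neg (by omega)]; simp
  · have h3 : q % 4 = 3 := by omega
    rw [Ip_three h3, Finset.prod_singleton]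
    have hP : PP (-(q : ZI)) := PP_ip hq (by rw [Ip_three h3]; simp)
    obtain ⟨k, hk, hk2⟩ := inert_quarter h3
    rw [q4_unit hP im1_norm, nrm_inert, hk2]
    have e1 : (4 * k + 2) * (k + 1) = 2 * ((2 * k + 1) * (k + 1)) := by ring
    rw [e1, pow_mul, im1_sq]
    unfold e8
    rcases Nat.even_or_odd k with hk3 | hk3
    · rw [Odd.neg_one_pow, if_neg]
      · simp
      · obtain ⟨j, hj⟩ := hk3
        omega
      · obtain ⟨j, hj⟩ := hk3
        rw [Nat.odd_mul]
        constructor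
        · rw [Nat.odd_iff]; omega
        · rw [Nat.odd_iff]; omega
    · rw [Even.neg_one_pow, if_pos]
      · simp
      · obtain ⟨j, hj⟩ := hk3
        omega
      · obtain ⟨j, hj⟩ := hk3
        rw [Nat.even_mul]
        right
        rw [Nat.even_iff]; omega

lemma Rp_star {q : ℕ} (hq : q.Prime) (α : ZI) : Rp (star α) q = star (Rp α q) := by
  unfold Rp
  by_cases h1 : q % 4 = 1
  · obtain ⟨x, hx, hxp, hxx, hn, hI⟩ := Ip_one hq h1
    rw [hI, Finset.prod_insert (by simpa using hx), Finset.prod_singleton,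
      Finset.prod_insert (by simpa using hx), Finset.prod_singleton]
    have hPx : PP x := PP_ip hq (by rw [hI]; simp)
    have e1 := q4_star hPx α
    have e2 := q4_star hPx.star α
    rw [star_star] at e2
    rw [e1, e2, star_mul]
  · by_cases h3 : q % 4 = 3
    · rw [Ip_three h3, Finset.prod_singleton, Finset.prod_singleton]
      have hP : PP (-(q : ZI)) := PP_ip hq (by rw [Ip_three h3]; simp)
      rw [← q4_star hP, star_neg, star_natCast]
    · have h2 : Ip q = ∅ := by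
        unfold Ip
        rw [if_neg h1, if_neg h3]
      rw [h2, Finset.prod_empty, Finset.prod_empty, star_one]

/-- the sign making a number congruent to one modulo four -/
def s4 (n : ℤ) : ℤ := if n % 4 = 1 then 1 else -1

lemma s4_mul {m n : ℤ} (hm : m % 2 = 1) (hn : n % 2 = 1) : s4 (m * n) = s4 m * s4 n := by
  unfold s4
  have h1 : m % 4 = 1 ∨ m % 4 = 3 := by omega
  have h2 : n % 4 = 1 ∨ n % 4 = 3 := by omega
  rw [Int.mul_emod]
  rcases h1 with h1 | h1 <;> rcases h2 with h2 | h2 <;> rw [h1, h2] <;> rfl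

theorem Rp_rec (J : JJ) (hl : PP l) {q : ℕ} (hq : q.Prime) (h2 : q ≠ 2) (hlq : ¬ l ∣ (q : ZI)) :
    q4 l (((s4 q * q : ℤ)) : ZI) = Rp l q := by
  have ho : q % 2 = 1 := by
    rcases hq.eq_two_or_odd with h | h
    · exact absurd h h2
    · exact h
  obtain ⟨p, hp, hp2, hpd⟩ := hl.ratp
  have hpq : p ≠ q := by
    rintro rfl
    exact hlq hpd
  unfold Rp
  by_cases h1 : q % 4 = 1
  · obtain ⟨x, hx, hxp, hxx, hn, hI⟩ := Ip_one hq h1
    rw [hI, Finset.prod_insert (by simpa using hx), Finset.prod_singleton]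
    have hPx : PP x := PP_ip hq (by rw [hI]; simp)
    have e0 : s4 q = 1 := by unfold s4; rw [if_pos (by omega)]
    have hxq : x ∣ (q : ZI) := ⟨star x, hxx.symm⟩
    have hxl : ¬ x ∣ l := by
      intro h
      have := hPx.eq_of_dvd hl h
      exact hlq (this ▸ hxq)
    have hxl' : ¬ x ∣ star l := by
      intro h
      have h5 := hPx.eq_of_dvd hl.star h
      apply hlq
      have h6 := star_dvd hxq
      rw [h5, star_star, star_natCast] at h6
      exact h6
    have k1 := recA' J hl hPx hp hq hpd hxq hpq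
    rw [hn, q4_mul hPx, q4_pow hPx] at k1
    have k2 := q4_star hPx (star l)
    rw [star_star] at k2
    rw [e0, k2, one_mul]
    have k3 := Val4.four (q4_norm hPx hxl)
    have k4 := q4_unitval hPx hxl' rfl
    push_cast
    linear_combination (q4 x l * star (q4 x (star l))) * k1 -
      q4 l (q : ZI) * q4 x l ^ 4 * k4 - q4 l (q : ZI) * k3
  · have h3 : q % 4 = 3 := by omega
    rw [Ip_three h3, Finset.prod_singleton]
    have hP : PP (-(q : ZI)) := PP_ip hq (by rw [Ip_three h3]; simp)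
    have e0 : s4 q = -1 := by unfold s4; rw [if_neg (by omega)]
    have := recB' J hl hp hq h3 hP hpd hpq
    rw [e0, ← this]
    push_cast
    congr 1
    ring

/-- the symbol over a natural number -/
noncomputable def Rs (α : ZI) (n : ℕ) : ZI := (n.primeFactorsList.map (Rp α)).prod

lemma Rs_mul (α β : ZI) (n : ℕ) : Rs (α * β) n = Rs α n * Rs β n := by
  unfold Rs
  rw [← List.prod_map_mul]
  congr 1
  apply List.map_congr_left
  intro q hq
  exact Rp_mul (Nat.prime_of_mem_primeFactorsList hq) α β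

lemma Rs_per {α β : ZI} {n : ℕ} (h : (n : ZI) ∣ α - β) : Rs α n = Rs β n := by
  unfold Rs
  congr 1
  apply List.map_congr_left
  intro q hq
  apply Rp_per (Nat.prime_of_mem_primeFactorsList hq)
  have h1 : q ∣ n := Nat.dvd_of_mem_primeFactorsList hq
  exact (Nat.cast_dvd_cast h1).trans h

lemma Rs_rat {m : ℤ} {n : ℕ} (h : ∀ q : ℕ, q.Prime → q ∣ n → ¬ (q : ℤ) ∣ m) : Rs (m : ZI) n = 1 := by
  unfold Rs
  apply List.prod_eq_one
  intro x hx
  obtain ⟨q, hq, rfl⟩ := List.mem_map.1 hx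
  exact Rp_rat (Nat.prime_of_mem_primeFactorsList hq) (h q (Nat.prime_of_mem_primeFactorsList hq)
    (Nat.dvd_of_mem_primeFactorsList hq))

lemma Rs_star (α : ZI) (n : ℕ) : Rs (star α) n = star (Rs α n) := by
  unfold Rs
  have h : ∀ L : List ℕ, (∀ q ∈ L, q.Prime) → (L.map (Rp (star α))).prod = star (L.map (Rp α)).prod := by
    intro L
    induction L with
    | nil => intro _; simp
    | cons a L ih =>
      intro hL
      rw [List.map_cons, List.prod_cons, List.map_cons, List.prod_cons, star_mul,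
        ih (fun q hq => hL q (List.mem_cons_of_mem _ hq)), Rp_star (hL a List.mem_cons_self), mul_comm]
  exact h _ fun q hq => Nat.prime_of_mem_primeFactorsList hq

lemma Rs_im {n : ℕ} (hn : n % 2 = 1) : Rs im1 n = ((e8 n : ℤ) : ZI) := by
  unfold Rs
  have h : ∀ L : List ℕ, (∀ q ∈ L, q.Prime ∧ q ≠ 2) → L.prod % 2 = 1 ∧
      (L.map (Rp im1)).prod = ((e8 L.prod : ℤ) : ZI) := by
    intro L
    induction L with
    | nil => intro _; exact ⟨rfl, by simp [e8]⟩
    | cons a L ih =>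
      intro hL
      obtain ⟨i1, i2⟩ := ih (fun q hq => hL q (List.mem_cons_of_mem _ hq))
      obtain ⟨a1, a2⟩ := hL a List.mem_cons_self
      have ho : a % 2 = 1 := by
        rcases a1.eq_two_or_odd with h | h
        · exact absurd h a2
        · exact h
      rw [List.map_cons, List.prod_cons, List.prod_cons, i2, e8_mul ho i1, Rp_im a1 a2]
      refine ⟨by rw [Nat.mul_mod, ho, i1], by push_cast; rfl⟩
  have h2 := h n.primeFactorsList fun q hq => ⟨Nat.prime_of_mem_primeFactorsList hq, by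
    rintro rfl
    have := Nat.dvd_of_mem_primeFactorsList hq
    omega⟩
  rw [h2.2, Nat.prod_primeFactorsList (by omega)]

theorem Rs_rec (J : JJ) (hl : PP l) {n : ℕ} (hn : n % 2 = 1) (hln : ¬ l ∣ (n : ZI)) :
    q4 l (((s4 n * n : ℤ)) : ZI) = Rs l n := by
  unfold Rs
  have h : ∀ L : List ℕ, (∀ q ∈ L, q.Prime ∧ q ≠ 2 ∧ ¬ l ∣ (q : ZI)) → L.prod % 2 = 1 ∧
      q4 l (((s4 L.prod * L.prod : ℤ)) : ZI) = (L.map (Rp l)).prod := by
    intro L
    induction L with
    | nil =>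
      intro _
      refine ⟨rfl, ?_⟩
      have e0 : ((s4 (([] : List ℕ).prod : ℕ) * (([] : List ℕ).prod : ℕ) : ℤ) : ZI) = 1 := by
        simp [s4]
      rw [e0, q4_one hl]
      simp
    | cons a L ih =>
      intro hL
      obtain ⟨i1, i2⟩ := ih (fun q hq => hL q (List.mem_cons_of_mem _ hq))
      obtain ⟨a1, a2, a3⟩ := hL a List.mem_cons_self
      have ho : a % 2 = 1 := by
        rcases a1.eq_two_or_odd with h | h
        · exact absurd h a2
        · exact h
      rw [List.map_cons, List.prod_cons, List.prod_cons, ← i2]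
      refine ⟨by rw [Nat.mul_mod, ho, i1], ?_⟩
      rw [← Rp_rec J hl a1 a2 a3, ← q4_mul hl]
      congr 1
      push_cast
      have e1 : s4 ((a : ℤ) * (L.prod : ℤ)) = s4 a * s4 L.prod := s4_mul (by omega) (by omega)
      have e2 : ((a : ℤ) * ((L.map (Nat.cast : ℕ → ℤ)).prod)) = (a : ℤ) * (L.prod : ℤ) := by
        rw [Nat.cast_list_prod]
      rw [← Nat.cast_list_prod, e1]
      push_cast
      ring
  have h2 := h n.primeFactorsList fun q hq => ⟨Nat.prime_of_mem_primeFactorsList hq, by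
      rintro rfl
      have := Nat.dvd_of_mem_primeFactorsList hq
      omega, fun hd => hln (hd.trans (Nat.cast_dvd_cast (Nat.dvd_of_mem_primeFactorsList hq)))⟩
  rw [← h2.2, Nat.prod_primeFactorsList (by omega)]

/-- the sign of a split primary prime -/
def wi (b : ℤ) : ℤ := if b % 4 = 0 then 1 else -1

/-- the symbol of a rational integer -/
lemma q4_int (J : JJ) (hl : PP l) {m : ℤ} (hm : m % 2 = 1) (hlm : ¬ l ∣ (m : ZI)) :
    q4 l (m : ZI) = (if m % 4 = 1 then 1 else (-1) ^ (nrm l / 4)) * Rs l m.natAbs := by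
  have h1 : ¬ l ∣ ((m.natAbs : ℕ) : ZI) := by
    intro h
    apply hlm
    rcases Int.natAbs_eq m with h2 | h2
    · have h3 : (m : ZI) = ((m.natAbs : ℕ) : ZI) := by
        conv_lhs => rw [h2]
        rw [Int.cast_natCast]
      rw [h3]; exact h
    · have h3 : (m : ZI) = -((m.natAbs : ℕ) : ZI) := by
        conv_lhs => rw [h2]
        rw [Int.cast_neg, Int.cast_natCast]
      rw [h3]; exact (dvd_neg).2 h
  have h2 := Rs_rec J hl (n := m.natAbs) (by omega) h1
  rw [← h2]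
  have e0 : s4 (m.natAbs : ℤ) * (m.natAbs : ℤ) = s4 m * m := by
    unfold s4
    rcases Int.natAbs_eq m with h3 | h3
    · rw [← h3]
    · have h4 : (m.natAbs : ℤ) = -m := by omega
      rw [h4]
      rcases (by omega : m % 4 = 1 ∨ m % 4 = 3) with h5 | h5
      · rw [if_neg (by omega), if_pos h5]; ring
      · rw [if_pos (by omega), if_neg (by omega)]; ring
  rw [e0]
  unfold s4
  split_ifs with h5
  · rw [one_mul, one_mul]
  · have e1 : ((((-1 : ℤ) * m : ℤ)) : ZI) = (-1) * (m : ZI) := by push_cast; rfl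
    rw [e1, q4_mul hl, q4_neg_one hl, ← mul_assoc, ← pow_add, ← two_mul, pow_mul]
    norm_num

lemma neg_one_w (hn : π.norm = π.re ^ 2 + π.im ^ 2) (h : PP π) : ((-1 : ZI)) ^ (nrm π / 4) = ((wi π.im : ℤ) : ZI) := by
  have h1 := h.re_odd
  have h2 := h.im_even
  have h3 := nrm_cast π
  obtain ⟨a, ha⟩ : ∃ a, π.re = 2 * a + 1 := ⟨π.re / 2, by omega⟩
  obtain ⟨b, hb⟩ : ∃ b, π.im = 2 * b := ⟨π.im / 2, by omega⟩
  have h4 : (nrm π : ℤ) = 4 * (a * (a + 1)) + 4 * b ^ 2 + 1 := by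
    rw [h3, hn, ha, hb]; ring
  have h5 : (a * (a + 1)) % 2 = 0 := Int.even_iff.1 (Int.even_mul_succ_self a)
  unfold wi
  rcases Int.emod_two_eq_zero_or_one b with h6 | h6
  · have h7 : b ^ 2 % 2 = 0 := by rw [sq, Int.mul_emod, h6]; rfl
    rw [if_pos (by omega), Even.neg_one_pow (by rw [Nat.even_iff]; omega)]
    simp
  · have h7 : b ^ 2 % 2 = 1 := by rw [sq, Int.mul_emod, h6]; rfl
    rw [if_neg (by omega), Odd.neg_one_pow (by rw [Nat.odd_iff]; omega)]
    simp

lemma split_not_dvd_re (h : PP π) (hb : π.im ≠ 0) : ¬ π ∣ ((π.re : ℤ) : ZI) := by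
  rintro ⟨c, hc⟩
  have h1 := congrArg Zsqrtd.norm hc
  rw [Zsqrtd.norm_mul, Zsqrtd.norm_intCast, norm_def' π] at h1
  have h2 := h.re_odd
  have h3 : π.re ≠ 0 := by omega
  have h4 : c ≠ 0 := by
    rintro rfl
    rw [mul_zero] at hc
    exact h3 (by exact_mod_cast hc)
  have h5 : 1 ≤ c.norm := by
    have h6 := GaussianInt.norm_nonneg c
    have h7 : c.norm ≠ 0 := by
      rwa [Ne, Zsqrtd.norm_eq_zero_iff (by norm_num)]
    omega
  have h6 : 0 < π.im ^ 2 := by positivity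
  nlinarith [sq_nonneg π.re]

lemma rec_aux {a b c d : ℤ} (ha : a % 2 = 1) (hb : b % 2 = 0) (hc : c % 2 = 1) (hd : d % 2 = 0)
    (hab : (a + b) % 4 = 1) (hcd : (c + d) % 4 = 1) :
    (if c % 4 = 1 then 1 else wi d) * e8 c.natAbs * ((if a % 4 = 1 then 1 else wi b) * e8 a.natAbs) *
    ((if (a * c + b * d) % 4 = 1 then 1 else wi d) * (if (a * c + b * d) % 4 = 1 then 1 else wi b)) *
      e8 (a * c + b * d).natAbs = if b % 4 = 0 ∨ d % 4 = 0 then 1 else -1 := by
  have E : ∀ m : ℤ, e8 m.natAbs = if m % 8 = 1 ∨ m % 8 = 7 then 1 else -1 := by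
    intro m
    unfold e8
    by_cases h : m % 8 = 1 ∨ m % 8 = 7
    · rw [if_pos h, if_pos (by omega)]
    · rw [if_neg h, if_neg (by omega)]
  rw [E, E, E]
  unfold wi
  have hbd : (b * d) % 8 = if b % 4 = 0 ∨ d % 4 = 0 then 0 else 4 := by
    obtain ⟨b', hb'⟩ : ∃ b', b = 2 * b' := ⟨b / 2, by omega⟩
    obtain ⟨d', hd'⟩ : ∃ d', d = 2 * d' := ⟨d / 2, by omega⟩
    have e1 : b * d = 4 * (b' * d') := by rw [hb', hd']; ring
    rw [e1]
    have e2 := Int.mul_emod b' d' 2
    rcases Int.emod_two_eq_zero_or_one b' with h | h <;> rcases Int.emod_two_eq_zero_or_one d' with h' | h' <;>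
      rw [h, h'] at e2
    · rw [if_pos (by omega)]; omega
    · rw [if_pos (by omega)]; omega
    · rw [if_pos (by omega)]; omega
    · rw [if_neg (by omega)]; omega
  have hac := Int.mul_emod a c 8
  have hn8 : (a * c + b * d) % 8 = ((a * c) % 8 + (b * d) % 8) % 8 := Int.add_emod _ _ _
  have hn4 : (a * c + b * d) % 4 = ((a * c + b * d) % 8) % 4 := by omega
  have ha4 : a % 4 = (a % 8) % 4 := by omega
  have hc4 : c % 4 = (c % 8) % 4 := by omega
  have h1 : (a % 8 = 1 ∧ b % 4 = 0) ∨ (a % 8 = 5 ∧ b % 4 = 0) ∨ (a % 8 = 3 ∧ b % 4 = 2) ∨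
    (a % 8 = 7 ∧ b % 4 = 2) := by omega
  have h2 : (c % 8 = 1 ∧ d % 4 = 0) ∨ (c % 8 = 5 ∧ d % 4 = 0) ∨ (c % 8 = 3 ∧ d % 4 = 2) ∨
    (c % 8 = 7 ∧ d % 4 = 2) := by omega
  rw [hn4, hn8, hac, hbd, ha4, hc4]
  rcases h1 with ⟨h1, h3⟩ | ⟨h1, h3⟩ | ⟨h1, h3⟩ | ⟨h1, h3⟩ <;>
    rcases h2 with ⟨h2, h4⟩ | ⟨h2, h4⟩ | ⟨h2, h4⟩ | ⟨h2, h4⟩ <;>
    rw [h1, h2, h3, h4] <;> decide

/-- the split case of the quartic reciprocity law -/
theorem rec_split (J : JJ) (hπ : PP π) (hl : PP l) (hne : π ≠ l) (hb : π.im ≠ 0) (hd : l.im ≠ 0) :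
    q4 l π * star (q4 π l) = ((if π.im % 4 = 0 ∨ l.im % 4 = 0 then 1 else -1 : ℤ) : ZI) := by
  have a1 := hπ.re_odd
  have a2 := hπ.im_even
  have a3 := hl.re_odd
  have a4 := hl.im_even
  have na := split_not_dvd_re hπ hb
  have nc := split_not_dvd_re hl hd
  have n1 := neg_one_w (norm_def' π) hπ
  have n2 := neg_one_w (norm_def' l) hl
  have hab := hπ.prm.2
  have hcd := hl.prm.2
  obtain ⟨a, ha⟩ : ∃ a, a = π.re := ⟨_, rfl⟩
  obtain ⟨b, hbdef⟩ : ∃ b, b = π.im := ⟨_, rfl⟩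
  obtain ⟨c, hc⟩ : ∃ c, c = l.re := ⟨_, rfl⟩
  obtain ⟨d, hddef⟩ : ∃ d, d = l.im := ⟨_, rfl⟩
  obtain ⟨n, hn⟩ : ∃ n, n = a * c + b * d := ⟨_, rfl⟩
  rw [← ha] at a1 na hab
  rw [← hbdef] at a2 n1 hab hb ⊢
  rw [← hc] at a3 nc hcd
  rw [← hddef] at a4 n2 hcd hd ⊢
  have nπl : ¬ π ∣ l := fun h => hne (hπ.eq_of_dvd hl h)
  have nlπ : ¬ l ∣ π := fun h => hne (hl.eq_of_dvd hπ h).symm
  have e1 : (c : ZI) * π - (n : ZI) = l * ((b : ZI) * im1) := by
    ext
    · simp only [Zsqrtd.re_sub, re_mul', im_mul', Zsqrtd.re_intCast, Zsqrtd.im_intCast]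
      simp only [im1, hn, ha, hbdef, hc, hddef]; ring
    · simp only [Zsqrtd.im_sub, re_mul', im_mul', Zsqrtd.re_intCast, Zsqrtd.im_intCast]
      simp only [im1, hn, ha, hbdef, hc, hddef]; ring
  have e2 : (a : ZI) * l - (n : ZI) = π * ((d : ZI) * im1) := by
    ext
    · simp only [Zsqrtd.re_sub, re_mul', im_mul', Zsqrtd.re_intCast, Zsqrtd.im_intCast]
      simp only [im1, hn, ha, hbdef, hc, hddef]; ring
    · simp only [Zsqrtd.im_sub, re_mul', im_mul', Zsqrtd.re_intCast, Zsqrtd.im_intCast]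
      simp only [im1, hn, ha, hbdef, hc, hddef]; ring
  have nln : ¬ l ∣ (n : ZI) := by
    intro h
    have h1 : l ∣ (c : ZI) * π := by
      have h2 : (c : ZI) * π = (n : ZI) + l * ((b : ZI) * im1) := by rw [← e1]; ring
      rw [h2]
      exact dvd_add h (dvd_mul_right _ _)
    rcases hl.pr.dvd_or_dvd h1 with h2 | h2
    · exact nc h2
    · exact nlπ h2
  have nπn : ¬ π ∣ (n : ZI) := by
    intro h
    have h1 : π ∣ (a : ZI) * l := by
      have h2 : (a : ZI) * l = (n : ZI) + π * ((d : ZI) * im1) := by rw [← e2]; ring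
      rw [h2]
      exact dvd_add h (dvd_mul_right _ _)
    rcases hπ.pr.dvd_or_dvd h1 with h2 | h2
    · exact na h2
    · exact nπl h2
  have no : n % 2 = 1 := by
    obtain ⟨a', ha'⟩ : ∃ a', a = 2 * a' + 1 := ⟨a / 2, by omega⟩
    obtain ⟨c', hc'⟩ : ∃ c', c = 2 * c' + 1 := ⟨c / 2, by omega⟩
    obtain ⟨b', hb'⟩ : ∃ b', b = 2 * b' := ⟨b / 2, by omega⟩
    have : n = 2 * (2 * (a' * c') + a' + c' + b' * d) + 1 := by
      rw [hn, ha', hc', hb']; ring
    omega
  have p1 : q4 l (c : ZI) * q4 l π = q4 l (n : ZI) := by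
    rw [← q4_mul hl]
    exact q4_per hl ⟨_, e1⟩
  have p2 : q4 π (a : ZI) * q4 π l = q4 π (n : ZI) := by
    rw [← q4_mul hπ]
    exact q4_per hπ ⟨_, e2⟩
  rw [q4_int J hl a3 nc, q4_int J hl no nln, n2] at p1
  rw [q4_int J hπ a1 na, q4_int J hπ no nπn, n1] at p2
  -- the values of the rational symbols
  have r1 : Rs l c.natAbs = ((e8 c.natAbs : ℤ) : ZI) := by
    have h1 : Rs l c.natAbs = Rs ((d : ZI) * im1) c.natAbs := by
      apply Rs_per
      have h2 : l - (d : ZI) * im1 = (c : ZI) := by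
        ext
        · simp only [Zsqrtd.re_sub, re_mul', im_mul', Zsqrtd.re_intCast, Zsqrtd.im_intCast]
          simp only [im1, hc, hddef]; ring
        · simp only [Zsqrtd.im_sub, re_mul', im_mul', Zsqrtd.re_intCast, Zsqrtd.im_intCast]
          simp only [im1, hc, hddef]; ring
      rw [h2]
      have : ((c.natAbs : ℤ) : ZI) ∣ (c : ZI) := Int.cast_dvd_cast _ _ (Int.natAbs_dvd.2 dvd_rfl)
      rwa [Int.cast_natCast] at this
    rw [h1, Rs_mul, Rs_im (by omega), Rs_rat, one_mul]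
    intro q hq hqc hqd
    have h2 : (q : ℤ) ∣ c := Int.natCast_dvd.2 hqc
    have h3 : (q : ZI) ∣ l := by
      have h4 : l = (c : ZI) + (d : ZI) * im1 := by
        ext
        · simp only [Zsqrtd.re_add, re_mul', im_mul', Zsqrtd.re_intCast, Zsqrtd.im_intCast]
          simp only [im1, hc, hddef]; ring
        · simp only [Zsqrtd.im_add, re_mul', im_mul', Zsqrtd.re_intCast, Zsqrtd.im_intCast]
          simp only [im1, hc, hddef]; ring
      rw [h4]
      refine dvd_add ?_ (Dvd.dvd.mul_right ?_ _)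
      · have := Int.cast_dvd_cast (α := ZI) _ _ h2
        rwa [Int.cast_natCast] at this
      · have := Int.cast_dvd_cast (α := ZI) _ _ hqd
        rwa [Int.cast_natCast] at this
    have hq2 : q ≠ 2 := by rintro rfl; omega
    obtain ⟨z, hz⟩ : (Ip q).Nonempty := by
      rcases hq.eq_two_or_odd with h | h
      · exact absurd h hq2
      · rcases (by omega : q % 4 = 1 ∨ q % 4 = 3) with h5 | h5
        · obtain ⟨x, -, -, -, -, hI⟩ := Ip_one hq h5
          rw [hI]; exact ⟨x, by simp⟩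
        · rw [Ip_three h5]; exact ⟨_, Finset.mem_singleton_self _⟩
    have h5 := (Ip_spec hq hz).2.2.2
    have h6 := (PP_ip hq hz).eq_of_dvd hl (h5.trans h3)
    apply nc
    have := Int.cast_dvd_cast (α := ZI) _ _ h2
    rw [Int.cast_natCast] at this
    have h7 := h5.trans this
    rwa [h6] at h7
  have r2 : Rs π a.natAbs = ((e8 a.natAbs : ℤ) : ZI) := by
    have h1 : Rs π a.natAbs = Rs ((b : ZI) * im1) a.natAbs := by
      apply Rs_per
      have h2 : π - (b : ZI) * im1 = (a : ZI) := by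
        ext
        · simp only [Zsqrtd.re_sub, re_mul', im_mul', Zsqrtd.re_intCast, Zsqrtd.im_intCast]
          simp only [im1, ha, hbdef]; ring
        · simp only [Zsqrtd.im_sub, re_mul', im_mul', Zsqrtd.re_intCast, Zsqrtd.im_intCast]
          simp only [im1, ha, hbdef]; ring
      rw [h2]
      have : ((a.natAbs : ℤ) : ZI) ∣ (a : ZI) := Int.cast_dvd_cast _ _ (Int.natAbs_dvd.2 dvd_rfl)
      rwa [Int.cast_natCast] at this
    rw [h1, Rs_mul, Rs_im (by omega), Rs_rat, one_mul]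
    intro q hq hqc hqd
    have h2 : (q : ℤ) ∣ a := Int.natCast_dvd.2 hqc
    have h3 : (q : ZI) ∣ π := by
      have h4 : π = (a : ZI) + (b : ZI) * im1 := by
        ext
        · simp only [Zsqrtd.re_add, re_mul', im_mul', Zsqrtd.re_intCast, Zsqrtd.im_intCast]
          simp only [im1, ha, hbdef]; ring
        · simp only [Zsqrtd.im_add, re_mul', im_mul', Zsqrtd.re_intCast, Zsqrtd.im_intCast]
          simp only [im1, ha, hbdef]; ring
      rw [h4]
      refine dvd_add ?_ (Dvd.dvd.mul_right ?_ _)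
      · have := Int.cast_dvd_cast (α := ZI) _ _ h2
        rwa [Int.cast_natCast] at this
      · have := Int.cast_dvd_cast (α := ZI) _ _ hqd
        rwa [Int.cast_natCast] at this
    have hq2 : q ≠ 2 := by rintro rfl; omega
    obtain ⟨z, hz⟩ : (Ip q).Nonempty := by
      rcases hq.eq_two_or_odd with h | h
      · exact absurd h hq2
      · rcases (by omega : q % 4 = 1 ∨ q % 4 = 3) with h5 | h5
        · obtain ⟨x, -, -, -, -, hI⟩ := Ip_one hq h5
          rw [hI]; exact ⟨x, by simp⟩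
        · rw [Ip_three h5]; exact ⟨_, Finset.mem_singleton_self _⟩
    have h5 := (Ip_spec hq hz).2.2.2
    have h6 := (PP_ip hq hz).eq_of_dvd hπ (h5.trans h3)
    apply na
    have := Int.cast_dvd_cast (α := ZI) _ _ h2
    rw [Int.cast_natCast] at this
    have h7 := h5.trans this
    rwa [h6] at h7
  have r3 : Rs l n.natAbs * star (Rs π n.natAbs) = ((e8 n.natAbs : ℤ) : ZI) := by
    have h1 : Rs (l * star π) n.natAbs = Rs (((a * d - b * c : ℤ) : ZI) * im1) n.natAbs := by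
      apply Rs_per
      have h2 : l * star π - ((a * d - b * c : ℤ) : ZI) * im1 = (n : ZI) := by
        ext
        · simp only [Zsqrtd.re_sub, re_mul', im_mul', Zsqrtd.re_intCast, Zsqrtd.im_intCast,
            Zsqrtd.re_star, Zsqrtd.im_star]
          simp only [im1, ha, hbdef, hc, hddef, hn]; ring
        · simp only [Zsqrtd.im_sub, re_mul', im_mul', Zsqrtd.re_intCast, Zsqrtd.im_intCast,
            Zsqrtd.re_star, Zsqrtd.im_star]
          simp only [im1, ha, hbdef, hc, hddef, hn]; ring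
      rw [h2]
      have : ((n.natAbs : ℤ) : ZI) ∣ (n : ZI) := Int.cast_dvd_cast _ _ (Int.natAbs_dvd.2 dvd_rfl)
      rwa [Int.cast_natCast] at this
    rw [← Rs_star, ← Rs_mul, h1, Rs_mul, Rs_im (by omega), Rs_rat, one_mul]
    intro q hq hqn hqm
    have h2 : (q : ℤ) ∣ n := Int.natCast_dvd.2 hqn
    have h3 : (q : ZI) ∣ l * star π := by
      have h4 : l * star π = (n : ZI) + ((a * d - b * c : ℤ) : ZI) * im1 := by
        ext
        · simp only [Zsqrtd.re_add, re_mul', im_mul', Zsqrtd.re_intCast, Zsqrtd.im_intCast,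
            Zsqrtd.re_star, Zsqrtd.im_star]
          simp only [im1, ha, hbdef, hc, hddef, hn]; ring
        · simp only [Zsqrtd.im_add, re_mul', im_mul', Zsqrtd.re_intCast, Zsqrtd.im_intCast,
            Zsqrtd.re_star, Zsqrtd.im_star]
          simp only [im1, ha, hbdef, hc, hddef, hn]; ring
      rw [h4]
      refine dvd_add ?_ (Dvd.dvd.mul_right ?_ _)
      · have := Int.cast_dvd_cast (α := ZI) _ _ h2
        rwa [Int.cast_natCast] at this
      · have := Int.cast_dvd_cast (α := ZI) _ _ hqm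
        rwa [Int.cast_natCast] at this
    have hq2 : q ≠ 2 := by rintro rfl; omega
    obtain ⟨z, hz⟩ : (Ip q).Nonempty := by
      rcases hq.eq_two_or_odd with h | h
      · exact absurd h hq2
      · rcases (by omega : q % 4 = 1 ∨ q % 4 = 3) with h5 | h5
        · obtain ⟨x, -, -, -, -, hI⟩ := Ip_one hq h5
          rw [hI]; exact ⟨x, by simp⟩
        · rw [Ip_three h5]; exact ⟨_, Finset.mem_singleton_self _⟩
    have h5 := (Ip_spec hq hz).2.2.2
    have hzP := PP_ip hq hz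
    have h7 : (q : ZI) ∣ (n : ZI) := by
      have := Int.cast_dvd_cast (α := ZI) _ _ h2
      rwa [Int.cast_natCast] at this
    rcases hzP.pr.dvd_or_dvd (h5.trans h3) with h6 | h6
    · have h8 := hzP.eq_of_dvd hl h6
      apply nln
      rw [← h8]
      exact h5.trans h7
    · have h8 := hzP.eq_of_dvd hπ.star h6
      apply nπn
      have h9 := star_dvd (h5.trans h7)
      rw [h8, star_star, star_intCast] at h9
      exact h9
  rw [r1] at p1
  rw [r2] at p2
  have key := rec_aux a1 a2 a3 a4 hab hcd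
  rw [← hn] at key
  have sg : ∀ u : ℤ, (u = 1 ∨ u = -1) → u * u = 1 := by
    intro u hu
    rcases hu with h | h <;> rw [h] <;> norm_num
  obtain ⟨X, hX⟩ : ∃ X : ℤ, X = (if c % 4 = 1 then 1 else wi d) * e8 c.natAbs := ⟨_, rfl⟩
  obtain ⟨Y, hY⟩ : ∃ Y : ℤ, Y = (if a % 4 = 1 then 1 else wi b) * e8 a.natAbs := ⟨_, rfl⟩
  obtain ⟨W, hW⟩ : ∃ W : ℤ, W = (if n % 4 = 1 then 1 else wi b) := ⟨_, rfl⟩
  obtain ⟨W', hW'⟩ : ∃ W' : ℤ, W' = (if n % 4 = 1 then 1 else wi d) := ⟨_, rfl⟩
  rw [← hX, ← hY, ← hW, ← hW'] at key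
  have wval : ∀ u : ℤ, wi u = 1 ∨ wi u = -1 := by
    intro u; unfold wi; split_ifs <;> simp
  have eval : ∀ u : ℕ, e8 u = 1 ∨ e8 u = -1 := by
    intro u; unfold e8; split_ifs <;> simp
  have hX1 : X * X = 1 := by
    apply sg
    rw [hX]
    rcases wval d with h | h <;> rcases eval c.natAbs with h' | h' <;> rw [h, h'] <;> split_ifs <;> simp
  have hY1 : Y * Y = 1 := by
    apply sg
    rw [hY]
    rcases wval b with h | h <;> rcases eval a.natAbs with h' | h' <;> rw [h, h'] <;> split_ifs <;> simp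
  have p1' : (X : ZI) * q4 l π = (W' : ZI) * Rs l n.natAbs := by
    rw [hX, hW']
    push_cast at p1 ⊢
    exact p1
  have p2' : (Y : ZI) * star (q4 π l) = (W : ZI) * star (Rs π n.natAbs) := by
    have p3 : (Y : ZI) * q4 π l = (W : ZI) * Rs π n.natAbs := by
      rw [hY, hW]
      push_cast at p2 ⊢
      exact p2
    have := congrArg star p3
    rw [star_mul, star_mul, star_intCast, star_intCast] at this
    rw [mul_comm (Y : ZI), mul_comm (W : ZI)]
    exact this
  have hX2 : (X : ZI) * (X : ZI) = 1 := by exact_mod_cast hX1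
  have hY2 : (Y : ZI) * (Y : ZI) = 1 := by exact_mod_cast hY1
  rw [← key]
  have q1 : q4 l π = (X : ZI) * ((W' : ZI) * Rs l n.natAbs) := by
    rw [← p1', ← mul_assoc, hX2, one_mul]
  have q2 : star (q4 π l) = (Y : ZI) * ((W : ZI) * star (Rs π n.natAbs)) := by
    rw [← p2', ← mul_assoc, hY2, one_mul]
  rw [q1, q2, Int.cast_mul, ← r3, Int.cast_mul, Int.cast_mul, Int.cast_mul]
  ring

/-- **the quartic reciprocity law** -/
theorem q4_rec (J : JJ) (hπ : PP π) (hl : PP l) (hne : π ≠ l) :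
    q4 π l = q4 l π * (-1) ^ ((nrm π / 4) * (nrm l / 4)) := by
  have inert : ∀ {π l : ZI} (_ : PP π) (_ : PP l) (_ : π ≠ l) (q : ℕ) (_ : q.Prime) (_ : q % 4 = 3)
      (_ : l = -(q : ZI)), q4 π l = q4 l π * (-1) ^ ((nrm π / 4) * (nrm l / 4)) := by
    intro π l hπ hl hne q hq h3 hlq
    obtain ⟨p, hp, hp2, hpd⟩ := hπ.ratp
    have hpq : p ≠ q := by
      rintro rfl
      apply hne
      apply hπ.eq_of_dvd hl
      rw [hlq]
      exact (dvd_neg).2 hpd
    have h1 : q4 π l = q4 l π := by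
      rw [hlq] at hl ⊢
      exact recB' J hπ hp hq h3 hl hpd hpq
    obtain ⟨k, hk, hk2⟩ := inert_quarter h3
    have h2 : nrm l / 4 = 2 * ((2 * k + 1) * (k + 1)) := by
      rw [hlq, nrm_inert, hk2]; ring
    rw [h1, h2]
    have e1 : nrm π / 4 * (2 * ((2 * k + 1) * (k + 1))) = 2 * (nrm π / 4 * ((2 * k + 1) * (k + 1))) := by ring
    rw [e1, pow_mul]
    norm_num
  rcases hl.cases with ⟨p, hp, hp4, hpn⟩ | ⟨p, hp, hp4, hpn⟩
  · rcases hπ.cases with ⟨q, hq, hq4, hqn⟩ | ⟨q, hq, hq4, hqn⟩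
    · have him : ∀ {z : ZI} {p : ℕ}, p.Prime → z.norm = p → z.im ≠ 0 := by
        intro z p hp hn h0
        rw [norm_def', h0] at hn
        have h1 : (p : ℤ) = z.re * z.re := by rw [← hn]; ring
        have h2 : p = z.re.natAbs * z.re.natAbs := by
          have := congrArg Int.natAbs h1
          rwa [Int.natAbs_mul, Int.natAbs_natCast] at this
        rcases Nat.prime_mul_iff.1 (h2 ▸ hp) with ⟨h3, h4⟩ | ⟨h3, h4⟩
        · rw [h4] at h3; exact Nat.not_prime_one h3
        · rw [h4] at h3; exact Nat.not_prime_one h3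
      have h1 := rec_split J hπ hl hne (him hq hqn) (him hp hpn)
      have nπl : ¬ π ∣ l := fun h => hne (hπ.eq_of_dvd hl h)
      have h2 := q4_unitval hπ nπl rfl
      have n1 := neg_one_w (norm_def' π) hπ
      have n2 := neg_one_w (norm_def' l) hl
      have a2 := hπ.im_even
      have a4 := hl.im_even
      have h3 : ((if π.im % 4 = 0 ∨ l.im % 4 = 0 then 1 else -1 : ℤ) : ZI) =
          (-1) ^ ((nrm π / 4) * (nrm l / 4)) := by
        have hw : ∀ {z : ZI}, PP z → (z.im % 4 = 0 ↔ nrm z / 4 % 2 = 0) := by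
          intro z hz
          have n1 := neg_one_w (norm_def' z) hz
          unfold wi at n1
          constructor
          · intro h0
            rw [if_pos h0] at n1
            by_contra h5
            rw [Odd.neg_one_pow (by rw [Nat.odd_iff]; omega)] at n1
            exact absurd n1 (by decide)
          · intro h0
            by_contra h5
            rw [if_neg h5, Even.neg_one_pow (by rw [Nat.even_iff]; omega)] at n1
            exact absurd n1 (by decide)
        split_ifs with h5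
        · rw [Even.neg_one_pow]
          · simp
          · rw [Nat.even_mul, Nat.even_iff, Nat.even_iff, ← hw hπ, ← hw hl]
            exact h5
        · rw [Odd.neg_one_pow]
          · simp
          · rw [← Nat.not_even_iff_odd, Nat.even_mul, Nat.even_iff, Nat.even_iff, ← hw hπ, ← hw hl]
            exact h5
      rw [← h3]
      set T : ℤ := (if π.im % 4 = 0 ∨ l.im % 4 = 0 then 1 else -1 : ℤ) with hT
      have hT2 : (T : ZI) * (T : ZI) = 1 := by
        rw [hT]
        split_ifs <;> norm_num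
      have h4 : q4 l π = (T : ZI) * q4 π l := by
        rw [← h1]
        linear_combination -(q4 l π) * h2
      rw [h4]
      linear_combination -(q4 π l) * hT2
    · have h1 := inert hl hπ (Ne.symm hne) q hq hq4 hqn
      rw [h1, mul_assoc, mul_comm (nrm l / 4), ← pow_add, ← two_mul, pow_mul]
      norm_num
  · exact inert hπ hl hne p hp hp4 hpn

end Pool.Agent.Y699
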