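import Pool.Agent.Y699.Qc

/-!
The regularized sums of the quartic character.
-/

set_option autoImplicit false
set_option linter.unusedSectionVars false
set_option linter.unusedSimpArgs false

open Filter Complex
open scoped Topology PeriodPair
open H667R3 hiding sq
open Pool.Agent.TH936.CM Pool.Agent.W192.HK

namespace Pool.Agent.Y699

open H385 (ZI RQ im1 nrm)
open Pool.Agent.H304R3.HK (tc HC LH chi_le)
open Pool.Agent.W164.RC (tc_mul tc_star two2 prim_iff_dvd unit_cases)
open Pool.Agent.H304R2.EC.A1 (prim prim_mul prim_cancel prim_one prim_norm_odd prim_star eq_one_of_prim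
  norm_def' re_mul' im_mul' eq_of_dvd prim_ne_zero)

variable {L : PeriodPair} {Ω : ℂ} {ι : Type} [DecidableEq ι] {pr : ι → ZI}

open Classical in
/-- the quartic character on primary elements -/
noncomputable def cc4 (pr : ι → ZI) (V : Finset ι) (e : ι → ℕ) (a : ZI) : ℂ :=
  if prim a then tc (c4 pr V e a) else 0

lemma c4_bd (hp : PF pr) (V : Finset ι) (e : ι → ℕ) (a : ZI) : ‖tc (c4 pr V e a)‖ ≤ 1 := by
  by_cases h : ∀ i ∈ V, ¬ pr i ∣ a
  · rw [unit_tc (c4_norm hp V e h)]
  · push Not at h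
    obtain ⟨i, hi, hd⟩ := h
    rw [c4_zero e hi hd, tc_zero, norm_zero]
    norm_num

lemma cc4_bd (hp : PF pr) (V : Finset ι) (e : ι → ℕ) (a : ZI) : ‖cc4 pr V e a‖ ≤ 1 := by
  unfold cc4
  split_ifs
  · exact c4_bd hp V e a
  · rw [norm_zero]; norm_num

theorem sum_XX4 (hp : PF pr) {V : Finset ι} {e : ι → ℕ} (hW : Wt pr V e % 4 = 3)
    (he : ∀ i ∈ V, e i % 4 ≠ 0) {δ : ℝ} (hδ : 0 < δ) :
    ∑' a : ZI, XX4 hp V e a * (starRingEnd ℂ) (fd δ (tc a)) =
      4 * (starRingEnd ℂ) (RS (cc4 pr V e) δ) := by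
  classical
  obtain ⟨L, Ω, hGL⟩ := exists_lat
  have H := XX4_HC hp hW he
  have hs : Summable (fun a : ZI => XX4 hp V e a * (starRingEnd ℂ) (fd δ (tc a))) := by
    refine Summable.of_norm_bounded (summ_tc hGL.lat hδ).norm fun a => ?_
    rw [norm_mul, RCLike.norm_conj]
    exact mul_le_of_le_one_left (norm_nonneg _) (chi_le _ _ H a)
  rw [sum_units hs]
  · congr 1
    unfold RS
    rw [Complex.conj_tsum]
    refine tsum_congr fun a => ?_
    unfold cc4
    by_cases ha : prim a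
    · rw [if_pos ha, if_pos ha, XX4_prim hp V e ha, map_mul]
    · rw [if_neg ha, if_neg ha, zero_mul, map_zero]
  · intro a
    have h1 : XX4 hp V e im1 = -I := H.unit
    rw [map_mul, h1, tc_mul, tc_im1, fd_mul]
    have h2 : Complex.normSq I = 1 := by simp
    rw [h2, mul_one, map_mul, map_inv₀, Complex.conj_I]
    have h3 : (-I : ℂ)⁻¹ = I := by
      rw [inv_neg, Complex.inv_I, neg_neg]
    rw [h3]
    linear_combination (-(XX4 hp V e a * (starRingEnd ℂ) (fd δ (tc a)))) * I_sq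
  · intro a ha
    rw [XX4_apply, un_even ha, tc_zero]
    simp

/-- the central value is the conjugate of the limit -/
theorem LH_eq4 (hp : PF pr) {V : Finset ι} {e : ι → ℕ} (hW : Wt pr V e % 4 = 3)
    (he : ∀ i ∈ V, e i % 4 ≠ 0) {l : ℂ} (hl : Tendsto (RS (cc4 pr V e)) (𝓝[>] 0) (𝓝 l)) :
    LH (XX4 hp V e) (1 / 2) = (starRingEnd ℂ) l := by
  have h1 := center (XX4_HC hp hW he)
  have h2 : Tendsto (fun δ : ℝ => 4 * (starRingEnd ℂ) (RS (cc4 pr V e) (Real.pi * δ))) (𝓝[>] 0)
      (𝓝 (4 * (starRingEnd ℂ) l)) := by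
    have h3 := tendsto_scale hl Real.pi_pos
    have h4 := (Complex.continuous_conj.tendsto l).comp h3
    have h5 := h4.const_mul 4
    refine h5.congr fun δ => ?_
    simp only [Function.comp_apply]
    rw [mul_comm δ]
  have h3 := tendsto_nhds_unique h1 (h2.congr' (by
    filter_upwards [self_mem_nhdsWithin] with δ (hδ : 0 < δ)
    exact (sum_XX4 hp hW he (by positivity)).symm))
  exact mul_left_cancel₀ (by norm_num) h3

/-- a sum over the elements `D + 2 t` -/
theorem RS_two (h : IsLat L RG Ω) {D : ZI} (hD : prim D) [Fintype (RQ D)] {F : ZI → ℂ}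
    (hF : ∀ a, ‖F a‖ ≤ 1) (hper : ∀ a b, D ∣ a - b → F a = F b) {δ : ℝ} (hδ : 0 < δ) :
    Summable (fun t : ZI => F t * fd δ (tc (D + 2 * t))) ∧
    ∑' t : ZI, F t * fd δ (tc (D + 2 * t)) = Ω / (tc D * 2) *
      ∑ q : RQ D, F q.out *
        EG Ω (δ * Complex.normSq (tc D * 2 / Ω)) (Ω / 2 + zq Ω D q.out) := by
  have hD0 : D ≠ 0 := prim_ne_zero hD
  have hDc := tc_ne hD0
  have hΩ := h.ne
  have t2 : tc 2 = 2 := by
    have := tc_int 2
    push_cast at this
    exact this
  have hinj : Function.Injective (fun t : ZI => D + 2 * t) := by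
    intro a b hab
    have : (2 : ZI) * a = 2 * b := by
      have h1 : D + 2 * a = D + 2 * b := hab
      linear_combination h1
    exact mul_left_cancel₀ (by decide) this
  have hs0 : Summable (fun t : ZI => fd δ (tc (D + 2 * t))) :=
    (summ_tc h hδ).comp_injective hinj
  have hs1 : Summable (fun t : ZI => F t * fd δ (tc (D + 2 * t))) := by
    refine Summable.of_norm_bounded hs0.norm fun t => ?_
    rw [norm_mul]
    exact mul_le_of_le_one_left (norm_nonneg _) (hF t)
  refine ⟨hs1, ?_⟩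
  set c : ℂ := tc D * 2 / Ω with hc
  have hc0 : c ≠ 0 := div_ne_zero (mul_ne_zero hDc (by norm_num)) hΩ
  have hs2 : Summable (fun p : RQ D × ZI =>
      F (prt' D hD0 p) * fd δ (tc (D + 2 * prt' D hD0 p))) :=
    ((prt' D hD0).summable_iff (f := fun t => F t * fd δ (tc (D + 2 * t)))).2 hs1
  rw [← (prt' D hD0).tsum_eq, hs2.tsum_prod' (fun q => hs2.prod_factor q), tsum_fintype,
    Finset.mul_sum]
  refine Finset.sum_congr (by ext; simp) fun q _ => ?_
  unfold EG
  rw [← tsum_mul_left, ← tsum_mul_left]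
  refine tsum_congr fun b => ?_
  have e2 : F (prt' D hD0 (q, b)) = F q.out := by
    apply hper
    rw [prt'_apply]
    exact ⟨b, by ring⟩
  have e3 : tc (D + 2 * prt' D hD0 (q, b)) =
      c * (Ω / 2 + zq Ω D q.out + Ω * tc b) := by
    rw [prt'_apply, tc_add, tc_mul, tc_add, tc_mul, hc, t2]
    unfold zq
    field_simp
    ring
  rw [e2, e3, fd_mul, hc, inv_div]
  ring

/-- the sum over the primary elements -/
theorem RS_cc4 (h : IsLat L RG Ω) (hp : PF pr) {V : Finset ι} {e : ι → ℕ} (hW : Wt pr V e % 4 = 3)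
    [Fintype (RQ (DD pr V))] {δ : ℝ} (hδ : 0 < δ) :
    2 * RS (cc4 pr V e) δ = Ω / (tc (DD pr V) * 2) *
      ∑ q : RQ (DD pr V), tc (c4 pr V e (2 * q.out)) *
        EG Ω (δ * Complex.normSq (tc (DD pr V) * 2 / Ω)) (Ω / 2 + zq Ω (DD pr V) q.out) := by
  classical
  have hDp : prim (DD pr V) := DD_prim hp V
  have hper : ∀ a b, DD pr V ∣ a - b → tc (c4 pr V e (2 * a)) = tc (c4 pr V e (2 * b)) := by
    intro a b hab
    rw [c4_per hp V e (a := 2 * a) (b := 2 * b) (by rw [← mul_sub]; exact hab.mul_left _)]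
  obtain ⟨hs, h1⟩ := RS_two h hDp (F := fun t => tc (c4 pr V e (2 * t)))
    (fun a => c4_bd hp V e _) hper hδ
  refine Eq.trans ?_ h1
  have hs1 : Summable (fun a : ZI => cc4 pr V e a * fd δ (tc a)) := summ_bd h hδ (cc4_bd hp V e)
  have hs2 : Summable (fun a : ZI => cc4 pr V e (-a) * fd δ (tc (-a))) :=
    ((Equiv.neg ZI).summable_iff (f := fun a => cc4 pr V e a * fd δ (tc a))).2 hs1
  have h2 : RS (cc4 pr V e) δ = ∑' a : ZI, cc4 pr V e (-a) * fd δ (tc (-a)) := by
    unfold RS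
    exact ((Equiv.neg ZI).tsum_eq (fun a => cc4 pr V e a * fd δ (tc a))).symm
  have h3 : 2 * RS (cc4 pr V e) δ = ∑' a : ZI, (cc4 pr V e a * fd δ (tc a) +
      cc4 pr V e (-a) * fd δ (tc (-a))) := by
    rw [hs1.tsum_add hs2, ← h2]
    unfold RS
    ring
  have h4 : ∀ a : ZI, cc4 pr V e a * fd δ (tc a) + cc4 pr V e (-a) * fd δ (tc (-a)) =
      if (2 : ZI) ∣ a - 1 then tc (c4 pr V e a) * fd δ (tc a) else 0 := by
    intro a
    unfold cc4
    have e1 : ∀ z : ZI, (2 : ZI) ∣ z ↔ z.re % 2 = 0 ∧ z.im % 2 = 0 := by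
      intro z
      constructor
      · rintro ⟨c, rfl⟩
        rw [re_mul', im_mul']
        have e1 : (2 : ZI).re = 2 := rfl
        have e2 : (2 : ZI).im = 0 := rfl
        rw [e1, e2]
        omega
      · rintro ⟨h1, h2⟩
        refine ⟨⟨z.re / 2, z.im / 2⟩, ?_⟩
        have e1 : (2 : ZI).re = 2 := rfl
        have e2 : (2 : ZI).im = 0 := rfl
        ext
        · rw [re_mul', e1, e2]; simp only; omega
        · rw [im_mul', e1, e2]; simp only; omega
    have e2 : (2 : ZI) ∣ a - 1 ↔ prim a ∨ prim (-a) := by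
      rw [e1]
      unfold prim
      simp only [Zsqrtd.re_sub, Zsqrtd.im_sub, Zsqrtd.re_one, Zsqrtd.im_one, Zsqrtd.re_neg,
        Zsqrtd.im_neg]
      omega
    have e3 : ¬ (prim a ∧ prim (-a)) := by
      unfold prim
      simp only [Zsqrtd.re_neg, Zsqrtd.im_neg]
      omega
    by_cases h5 : prim a
    · have h6 : ¬ prim (-a) := fun h' => e3 ⟨h5, h'⟩
      rw [if_pos h5, if_neg h6, if_pos (e2.2 (Or.inl h5)), zero_mul, add_zero]
    · by_cases h6 : prim (-a)
      · rw [if_neg h5, if_pos h6, if_pos (e2.2 (Or.inr h6)), zero_mul, zero_add, c4_neg hp hW,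
          tc_neg, tc_neg, fd_neg]
        ring
      · rw [if_neg h5, if_neg h6, if_neg (fun h' => (e2.1 h').elim h5 h6), zero_mul, zero_mul,
          add_zero]
  have hinj : Function.Injective (fun t : ZI => DD pr V + 2 * t) := by
    intro a b hab
    have : (2 : ZI) * a = 2 * b := by
      have h1 : DD pr V + 2 * a = DD pr V + 2 * b := hab
      linear_combination h1
    exact mul_left_cancel₀ (by decide) this
  rw [h3, tsum_congr h4, ← hinj.tsum_eq]
  · refine tsum_congr fun t => ?_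
    have h5 : (2 : ZI) ∣ DD pr V + 2 * t - 1 := by
      have := prim_mod_two hDp
      have e5 : DD pr V + 2 * t - 1 = (DD pr V - 1) + 2 * t := by ring
      rw [e5]
      exact dvd_add this (dvd_mul_right _ _)
    rw [if_pos h5]
    congr 2
    apply c4_per hp
    exact ⟨1, by ring⟩
  · intro a ha
    rw [Function.mem_support] at ha
    have h5 : (2 : ZI) ∣ a - 1 := by
      by_contra hc
      rw [if_neg hc] at ha
      exact ha rfl
    have h6 := prim_mod_two hDp
    obtain ⟨c, hc⟩ := dvd_sub h5 h6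
    exact ⟨c, by show DD pr V + 2 * c = a; rw [← hc]; ring⟩

end Pool.Agent.Y699
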