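import Pool.Agent.Y699.Qg

/-!
Gauss sums of the quartic character and the first reciprocity statements.
-/

set_option autoImplicit false
set_option linter.unusedSectionVars false

open H385 (ZI RQ im1 nrm)

namespace Pool.Agent.Y699

open Pool.Agent.W164.RC (Ip Ip_spec Ip_exists Ip_one Ip_three dg two2 prim_iff_dvd unit_norm unit_cases)
open Pool.Agent.H304R2.EC.A1 (prim prim_mul prim_cancel prim_one prim_norm_odd prim_star eq_one_of_prim
  norm_def' re_mul' im_mul' eq_of_dvd prim_ne_zero)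

variable {π : ZI} {F : Type} [Field F] [Fintype F] {ρ : ZI →+* F}

/-- the pushforward of the quartic character -/
noncomputable def Res.ch (h : Res π F ρ) {R' : Type} [CommRing R'] (κ : ZI →+* R') : MulChar F R' :=
  h.chi.ringHomComp κ

section
variable {R' : Type} [Field R'] {κ : ZI →+* R'}

lemma Res.ch_apply (h : Res π F ρ) (κ : ZI →+* R') (x : F) : h.ch κ x = κ (h.chi x) := rfl

lemma Res.ch_four (h : Res π F ρ) (κ : ZI →+* R') {x : F} (hx : x ≠ 0) : h.ch κ x ^ 4 = 1 := by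
  rw [h.ch_apply, ← map_pow, Val4.four (h.chi_norm hx), map_one]

lemma Res.ch_pow4 (h : Res π F ρ) (κ : ZI →+* R') : h.ch κ ^ 4 = 1 := by
  apply MulChar.ext
  intro a
  rw [MulChar.pow_apply_coe, h.ch_four κ a.ne_zero, MulChar.one_apply_coe]

lemma Res.ch_inv (h : Res π F ρ) (κ : ZI →+* R') : (h.ch κ)⁻¹ = h.ch κ ^ 3 := by
  apply inv_eq_of_mul_eq_one_right
  rw [← pow_succ', h.ch_pow4]

lemma Res.ch_sq_ne (h : Res π F ρ) (κ : ZI →+* R') (h2 : (2 : R') ≠ 0) : h.ch κ ^ 2 ≠ 1 := by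
  classical
  intro h1
  obtain ⟨a, ha⟩ := quadraticChar_exists_neg_one h.char_ne
  have ha0 : a ≠ 0 := by
    rintro rfl
    rw [MulChar.map_zero] at ha
    norm_num at ha
  have h3 : (h.ch κ ^ 2) a = 1 := by
    rw [h1]
    exact MulChar.one_apply (isUnit_iff_ne_zero.2 ha0)
  rw [MulChar.pow_apply' _ two_ne_zero, h.ch_apply, ← map_pow, ← h.eta_eq, eta_apply, ha] at h3
  have h4 : κ (((-1 : ℤ) : ZI)) = -1 := by simp
  rw [h4] at h3
  apply h2
  linear_combination -h3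

lemma Res.ch_ne (h : Res π F ρ) (κ : ZI →+* R') (h2 : (2 : R') ≠ 0) : h.ch κ ≠ 1 := by
  intro h1
  apply h.ch_sq_ne κ h2
  rw [h1, one_pow]

lemma Res.ch_three_ne (h : Res π F ρ) (κ : ZI →+* R') (h2 : (2 : R') ≠ 0) : h.ch κ ^ 3 ≠ 1 := by
  intro h1
  apply h.ch_ne κ h2
  have h3 := h.ch_pow4 κ
  rwa [pow_succ, h1, one_mul] at h3

lemma Res.ch_sq_quad (h : Res π F ρ) (κ : ZI →+* R') : (h.ch κ ^ 2).IsQuadratic := by
  intro x
  by_cases hx : x = 0
  · left; rw [hx, MulChar.map_zero]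
  · right
    rw [MulChar.pow_apply' _ two_ne_zero]
    have h4 := h.ch_four κ hx
    have h5 : (h.ch κ x ^ 2 - 1) * (h.ch κ x ^ 2 + 1) = 0 := by linear_combination h4
    rcases mul_eq_zero.1 h5 with h6 | h6
    · left; exact sub_eq_zero.1 h6
    · right; exact eq_neg_of_add_eq_zero_left h6

lemma Res.ch_neg_one (h : Res π F ρ) (κ : ZI →+* R') : h.ch κ (-1) ^ 2 = 1 := by
  rw [← map_pow]; norm_num

/-- the fourth power of the Gauss sum -/
theorem Res.gauss_four [DecidableEq F] (h : Res π F ρ) (κ : ZI →+* R') (h2 : (2 : R') ≠ 0)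
    (hN : ((Fintype.card F : ℕ) : R') ≠ 0)
    {ψ : AddChar F R'} (hψ : ψ.IsPrimitive) :
    gaussSum (h.ch κ) ψ ^ 4 = κ h.J ^ 2 * ((Fintype.card F : ℕ) : R') ∧
    gaussSum (h.ch κ) ψ * gaussSum (h.ch κ ^ 3) ψ = h.ch κ (-1) * ((Fintype.card F : ℕ) : R') := by
  have e1 : gaussSum (h.ch κ) ψ * gaussSum (h.ch κ ^ 3) ψ = h.ch κ (-1) * ((Fintype.card F : ℕ) : R') := by
    have k1 := mul_gaussSum_inv_eq_gaussSum (h.ch κ)⁻¹ ψ
    have k2 := gaussSum_mul_gaussSum_eq_card (h.ch_ne κ h2) hψ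
    rw [← h.ch_inv, ← k1, ← k2]
    have k3 : (h.ch κ)⁻¹ (-1) = h.ch κ (-1) := by
      rw [MulChar.inv_apply', inv_neg_one]
    rw [k3]; ring
  refine ⟨?_, e1⟩
  have e2 := gaussSum_sq (h.ch_sq_ne κ h2) (h.ch_sq_quad κ) hψ
  have e3 : (h.ch κ ^ 2) (-1) = 1 := by
    rw [MulChar.pow_apply' _ two_ne_zero, h.ch_neg_one]
  rw [e3, one_mul] at e2
  have e4 : h.ch κ * (h.ch κ ^ 2) = h.ch κ ^ 3 := (pow_succ' _ _).symm
  have e5 := jacobiSum_mul_nontrivial (χ := h.ch κ) (φ := h.ch κ ^ 2)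
    (by rw [e4]; exact h.ch_three_ne κ h2) ψ
  rw [e4] at e5
  have e6 : jacobiSum (h.ch κ) (h.ch κ ^ 2) = κ h.J := by
    unfold Res.J jacobiSum
    rw [map_sum]
    refine Finset.sum_congr rfl fun x _ => ?_
    rw [map_mul, MulChar.pow_apply' _ two_ne_zero, h.ch_apply, h.ch_apply, h.eta_eq, map_pow]
  rw [e6] at e5
  have e7 : h.ch κ (-1) ^ 2 = 1 := h.ch_neg_one κ
  have e8 : h.ch κ (-1) * ((Fintype.card F : ℕ) : R') * κ h.J =
      gaussSum (h.ch κ) ψ ^ 2 * gaussSum (h.ch κ ^ 2) ψ := by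
    rw [← e1]
    linear_combination gaussSum (h.ch κ) ψ * e5
  have e9 := congrArg (fun t => t ^ 2) e8
  apply mul_right_cancel₀ hN
  rw [← e2]
  have e10 : (h.ch κ (-1) * ((Fintype.card F : ℕ) : R') * κ h.J) ^ 2 =
    ((Fintype.card F : ℕ) : R') ^ 2 * κ h.J ^ 2 := by
    rw [mul_pow, mul_pow, e7]; ring
  rw [e10, mul_pow, e2] at e9
  rw [e2]
  linear_combination -e9

/-- powers of Gauss sums -/
lemma gauss_pow {r : ℕ} [hr : Fact r.Prime] [CharP R' r] (χ : MulChar F R') (ψ : AddChar F R') (k : ℕ) :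
    gaussSum χ ψ ^ (r ^ k) = ∑ x : F, χ x ^ (r ^ k) * ψ (((r ^ k : ℕ) : F) * x) := by
  unfold gaussSum
  have h1 := sum_pow_char_pow r k (Finset.univ : Finset F) (fun x => χ x * ψ x)
  rw [h1]
  refine Finset.sum_congr rfl fun x _ => ?_
  rw [mul_pow, ← nsmul_eq_mul, AddChar.map_nsmul_eq_pow]

/-- the first reciprocity statement -/
theorem Res.recA [DecidableEq F] (h : Res π F ρ) (hJ : h.J = -π) {F₂ : Type} [Field F₂] [Fintype F₂]
    {ρ₂ : ZI →+* F₂} {l : ZI} (h₂ : Res l F₂ ρ₂) (hc : ringChar F₂ ≠ ringChar F) :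
    q4 π ((nrm l : ℕ) : ZI) * q4 l (π ^ 3 * star π) = 1 := by
  set Ψ := AddChar.FiniteField.primitiveChar F F₂ hc with hΨ
  set R' := CyclotomicField Ψ.n F₂ with hR'
  set κ : ZI →+* R' := (algebraMap F₂ R').comp ρ₂ with hκ
  have hchar := Algebra.ringChar_eq F₂ R'
  obtain ⟨n, hp, hcard⟩ := FiniteField.card F (ringChar F)
  obtain ⟨n', hp', hcard'⟩ := FiniteField.card F₂ (ringChar F₂)
  set r := ringChar F₂ with hr
  have hrc : CharP R' r := by rw [hchar]; exact ringChar.charP R'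
  have := Fact.mk hp'
  have h20 : (2 : R') ≠ 0 := by
    have e1 : (2 : R') = ((2 : ℕ) : R') := by norm_num
    rw [e1, Ne, CharP.cast_eq_zero_iff R' r, Nat.prime_dvd_prime_iff_eq hp' Nat.prime_two]
    exact h₂.char_ne
  have hN0 : ((Fintype.card F : ℕ) : R') ≠ 0 := by
    rw [Ne, CharP.cast_eq_zero_iff R' r, hcard]
    intro hd
    exact hc ((Nat.prime_dvd_prime_iff_eq hp' hp).1 (hp'.dvd_of_dvd_pow hd))
  have hr0 : ((r ^ (n' : ℕ) : ℕ) : F) ≠ 0 := by
    have e1 : CharP F (ringChar F) := ringChar.charP F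
    rw [Ne, CharP.cast_eq_zero_iff F (ringChar F)]
    intro hd
    exact hc ((Nat.prime_dvd_prime_iff_eq hp hp').1 (hp.dvd_of_dvd_pow hd)).symm
  obtain ⟨g4, g3⟩ := h.gauss_four κ h20 hN0 Ψ.prim
  set g := gaussSum (h.ch κ) Ψ.char with hg
  have hg0 : g ≠ 0 := by
    intro h0
    rw [h0, zero_mul] at g3
    have h5 : h.ch κ (-1) ≠ 0 := by
      intro h6
      have h7 := h.ch_neg_one κ
      rw [h6] at h7
      norm_num at h7
    exact (mul_ne_zero h5 hN0) g3.symm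
  have hQ : nrm l = r ^ (n' : ℕ) := by rw [← h₂.card, hcard']
  have hm := h₂.pp.nrm_mod
  have hl5 := h₂.pp.five_le
  have hlc := nrm_cast l
  have e1 : g ^ (nrm l) = ∑ x : F, h.ch κ x * Ψ.char (((nrm l : ℕ) : F) * x) := by
    rw [hQ, hg, gauss_pow]
    refine Finset.sum_congr rfl fun x _ => ?_
    by_cases hx : x = 0
    · have e2 : r ^ (n' : ℕ) ≠ 0 := by rw [← hQ]; omega
      rw [hx, MulChar.map_zero, zero_pow e2]
    · have e2 : h.ch κ x ^ (r ^ (n' : ℕ)) = h.ch κ x := by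
        rw [← hQ]
        have e3 : nrm l = 4 * (nrm l / 4) + 1 := by omega
        rw [e3, pow_succ, pow_mul, h.ch_four κ hx, one_pow, one_mul]
      rw [e2]
  have hQ0 : ((nrm l : ℕ) : F) ≠ 0 := by rw [hQ]; exact hr0
  have e2 := gaussSum_mulShift (h.ch κ) Ψ.char (Units.mk0 _ hQ0)
  have e3 : gaussSum (h.ch κ) (Ψ.char.mulShift ((Units.mk0 _ hQ0 : Fˣ) : F)) = g ^ (nrm l) := by
    rw [e1]
    rfl
  rw [e3, ← hg, Units.val_mk0] at e2
  have e4 : h.ch κ ((nrm l : ℕ) : F) * (g ^ 4) ^ (nrm l / 4) = 1 := by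
    apply mul_right_cancel₀ hg0
    rw [one_mul]
    have e5 : g ^ nrm l = (g ^ 4) ^ (nrm l / 4) * g := by
      rw [← pow_mul, ← pow_succ]
      congr 1
      omega
    rw [e5] at e2
    linear_combination e2
  have hlk : ∀ a : ZI, κ a = 0 ↔ l ∣ a := by
    intro a
    rw [hκ, RingHom.comp_apply, map_eq_zero_iff _ (algebraMap F₂ R').injective]
    exact h₂.ker a
  have hN : ((Fintype.card F : ℕ) : R') = κ (π * star π) := by
    rw [← Zsqrtd.norm_eq_mul_conj, h.card, ← nrm_cast π]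
    simp
  have e6 : g ^ 4 = κ (π ^ 3 * star π) := by
    rw [g4, hJ, hN, ← map_pow, ← map_mul]
    congr 1
    ring
  have e7 : κ (π ^ 3 * star π) ^ (nrm l / 4) = κ (q4 l (π ^ 3 * star π)) := by
    rw [← map_pow, ← sub_eq_zero, ← map_sub, hlk]
    exact q4_dvd h₂.pp _
  have e8 : h.ch κ ((nrm l : ℕ) : F) = κ (q4 π ((nrm l : ℕ) : ZI)) := by
    rw [h.ch_apply, ← h.chi_map, map_natCast ρ]
  rw [e6, e7, e8, ← map_mul] at e4
  apply h₂.pp.eq_val ((q4_val _ _).mul (q4_val _ _)) (Or.inr (by decide))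
  rw [← hlk, map_sub, e4, map_one, sub_self]

/-- Frobenius at an inert prime -/
lemma inert_frob {q : ℕ} (hq : q.Prime) (h3 : q % 4 = 3) {F₂ : Type} [Field F₂] [CharP F₂ q]
    (ρ₂ : ZI →+* F₂) (a : ZI) : ρ₂ (star a) = ρ₂ a ^ q := by
  have := Fact.mk hq
  have e1 : a = (a.re : ZI) + (a.im : ZI) * im1 := by
    ext
    · simp [im1]
    · simp [im1]
  have e2 : star a = (a.re : ZI) - (a.im : ZI) * im1 := by
    ext
    · simp [im1]
    · simp [im1]
  have e3 : ∀ m : ℤ, ρ₂ (m : ZI) ^ q = ρ₂ (m : ZI) := by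
    intro m
    rw [map_intCast]
    have h5 : ((m : ZMod q) : ZMod q) ^ q = m := ZMod.pow_card _
    have h6 := congrArg (ZMod.castHom (dvd_refl q) F₂) h5
    rwa [map_pow, map_intCast] at h6
  have e4 : ρ₂ im1 ^ q = -ρ₂ im1 := by
    have h5 : q = 4 * (q / 4) + 3 := by omega
    have h6 : ρ₂ im1 ^ 2 = -1 := by rw [← map_pow, im1_sq, map_neg, map_one]
    rw [h5, pow_add, pow_mul]
    have h7 : ρ₂ im1 ^ 4 = 1 := by rw [← map_pow, im1_four, map_one]
    rw [h7, one_pow, one_mul]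
    linear_combination ρ₂ im1 * h6
  rw [e2]
  conv_rhs => rw [e1]
  rw [map_add, map_mul, map_sub, map_mul, add_pow_char, mul_pow, e3, e3, e4]
  ring

/-- the second reciprocity statement -/
theorem Res.recB [DecidableEq F] (h : Res π F ρ) (hJ : h.J = -π) {F₂ : Type} [Field F₂] [Fintype F₂]
    {ρ₂ : ZI →+* F₂} {q : ℕ} (hq : q.Prime) (h3 : q % 4 = 3)
    (h₂ : Res (-(q : ZI)) F₂ ρ₂) (hc : ringChar F₂ ≠ ringChar F) (hcq : ringChar F₂ = q) :
    q4 π (-(q : ZI)) = q4 (-(q : ZI)) π := by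
  set Ψ := AddChar.FiniteField.primitiveChar F F₂ hc with hΨ
  set R' := CyclotomicField Ψ.n F₂ with hR'
  set κ : ZI →+* R' := (algebraMap F₂ R').comp ρ₂ with hκ
  have hchar := Algebra.ringChar_eq F₂ R'
  obtain ⟨n, hp, hcard⟩ := FiniteField.card F (ringChar F)
  have hrc2 : CharP F₂ q := by rw [← hcq]; exact ringChar.charP F₂
  have hrc : CharP R' q := by rw [← hcq, hchar]; exact ringChar.charP R'
  have := Fact.mk hq
  have h20 : (2 : R') ≠ 0 := by
    have e1 : (2 : R') = ((2 : ℕ) : R') := by norm_num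
    rw [e1, Ne, CharP.cast_eq_zero_iff R' q, Nat.prime_dvd_prime_iff_eq hq Nat.prime_two]
    omega
  have hN0 : ((Fintype.card F : ℕ) : R') ≠ 0 := by
    rw [Ne, CharP.cast_eq_zero_iff R' q, hcard]
    intro hd
    apply hc
    rw [hcq]
    exact (Nat.prime_dvd_prime_iff_eq hq hp).1 (hq.dvd_of_dvd_pow hd)
  have hr0 : ((q : ℕ) : F) ≠ 0 := by
    have e1 : CharP F (ringChar F) := ringChar.charP F
    rw [Ne, CharP.cast_eq_zero_iff F (ringChar F)]
    intro hd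
    apply hc
    rw [hcq]
    exact ((Nat.prime_dvd_prime_iff_eq hp hq).1 hd).symm
  obtain ⟨g4, g3⟩ := h.gauss_four κ h20 hN0 Ψ.prim
  set g := gaussSum (h.ch κ) Ψ.char with hg
  have e1 : g ^ q = gaussSum (h.ch κ ^ 3) (Ψ.char.mulShift (q : F)) := by
    have e0 := gauss_pow (r := q) (h.ch κ) Ψ.char 1
    rw [pow_one] at e0
    rw [hg, e0]
    unfold gaussSum
    refine Finset.sum_congr rfl fun x _ => ?_
    rw [AddChar.mulShift_apply]
    congr 1
    rw [MulChar.pow_apply' _ three_ne_zero]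
    by_cases hx : x = 0
    · rw [hx, MulChar.map_zero, zero_pow hq.ne_zero, zero_pow three_ne_zero]
    · have e3 : q = 4 * (q / 4) + 3 := by omega
      rw [e3, pow_add, pow_mul, h.ch_four κ hx, one_pow, one_mul]
  have e2 := gaussSum_mulShift (h.ch κ ^ 3) Ψ.char (Units.mk0 _ hr0)
  rw [Units.val_mk0, ← e1] at e2
  have e3 : (h.ch κ ^ 3) (q : F) * h.ch κ (q : F) = 1 := by
    rw [MulChar.pow_apply' _ three_ne_zero, ← pow_succ]
    exact h.ch_four κ hr0
  have e4 : g ^ q * g = h.ch κ (-(q : F)) * ((Fintype.card F : ℕ) : R') := by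
    have e5 : g ^ q = h.ch κ (q : F) * gaussSum (h.ch κ ^ 3) Ψ.char := by
      rw [← e2]
      linear_combination -(g ^ q) * e3
    have e6 : h.ch κ (-(q : F)) = h.ch κ (-1) * h.ch κ (q : F) := by
      rw [← map_mul]; congr 1; ring
    rw [e5, e6]
    linear_combination h.ch κ (q : F) * g3
  have hlk : ∀ a : ZI, κ a = 0 ↔ -(q : ZI) ∣ a := by
    intro a
    rw [hκ, RingHom.comp_apply, map_eq_zero_iff _ (algebraMap F₂ R').injective]
    exact h₂.ker a
  have hN : ((Fintype.card F : ℕ) : R') = κ (π * star π) := by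
    rw [← Zsqrtd.norm_eq_mul_conj, h.card, ← nrm_cast π]
    simp
  have e6 : g ^ 4 = κ (π ^ 3 * star π) := by
    rw [g4, hJ, hN, ← map_pow, ← map_mul]
    congr 1
    ring
  have e8 : h.ch κ (-(q : F)) = κ (q4 π (-(q : ZI))) := by
    rw [h.ch_apply, ← h.chi_map, map_neg ρ, map_natCast ρ]
  have e9 : κ (star π) = κ π ^ q := by
    rw [hκ, RingHom.comp_apply, RingHom.comp_apply, inert_frob hq h3 ρ₂ π, map_pow]
  have hk0 : κ π ≠ 0 := by
    intro h0
    apply hN0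
    rw [hN, map_mul, h0, zero_mul]
  have hnq : nrm (-(q : ZI)) = q * q := by
    have h5 := nrm_cast (-(q : ZI))
    rw [Zsqrtd.norm_neg, Zsqrtd.norm_natCast] at h5
    exact_mod_cast h5
  have e10 : κ (π ^ 3 * star π) = κ π ^ (q + 3) := by
    rw [map_mul, map_pow, e9]; ring
  have e11 : ((κ π) ^ (q + 3)) ^ ((q + 1) / 4) = κ (q4 π (-(q : ZI))) * κ π ^ (q + 1) := by
    have h5 : κ π ^ (q + 1) = ((Fintype.card F : ℕ) : R') := by
      rw [hN, map_mul, e9]; ring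
    rw [h5, ← e10, ← e6, ← e8, ← e4, ← pow_mul, ← pow_succ]
    congr 1
    omega
  have e12 : κ (q4 (-(q : ZI)) π) = κ π ^ (q * q / 4) := by
    have h5 := (hlk _).2 (q4_dvd h₂.pp π)
    rw [map_sub, map_pow, sub_eq_zero, hnq] at h5
    exact h5.symm
  obtain ⟨k, hk⟩ : ∃ k, q = 4 * k + 3 := ⟨q / 4, by omega⟩
  have h7 : (q + 1) / 4 = k + 1 := by omega
  have h8 : q * q / 4 = (k + 1) * (4 * k + 2) := by
    have h9 : q * q = 4 * ((k + 1) * (4 * k + 2)) + 1 := by rw [hk]; ring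
    omega
  rw [h7] at e11
  rw [h8] at e12
  apply h₂.pp.eq_val (q4_val _ _) (q4_val _ _)
  rw [← hlk, map_sub, sub_eq_zero, e12]
  apply mul_right_cancel₀ (pow_ne_zero (q + 1) hk0)
  rw [← e11, ← pow_mul, ← pow_add]
  congr 1
  rw [hk]; ring

end

end Pool.Agent.Y699
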