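import Pool.Agent.Y699.Rec

/-!
Quartic residue symbols of Gaussian primes.
-/

set_option autoImplicit false
set_option linter.unusedSectionVars false

open H385 (ZI RQ im1 nrm)

namespace Pool.Agent.Y699

open Pool.Agent.W164.RC (Ip Ip_spec Ip_exists Ip_one Ip_three dg two2 prim_iff_dvd unit_norm unit_cases)
open Pool.Agent.H304R2.EC.A1 (prim prim_mul prim_cancel prim_one prim_norm_odd prim_star eq_one_of_prim
  norm_def' re_mul' im_mul' eq_of_dvd prim_ne_zero)

open Classical in
/-- the quartic residue symbol -/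
noncomputable def q4 (π a : ZI) : ZI :=
  if π ∣ a then 0 else if π ∣ a ^ (nrm π / 4) - 1 then 1 else if π ∣ a ^ (nrm π / 4) - im1 then im1
  else if π ∣ a ^ (nrm π / 4) + 1 then -1 else -im1

lemma im1_sq : im1 ^ 2 = (-1 : ZI) := by decide
lemma im1_four : im1 ^ 4 = (1 : ZI) := by decide
lemma im1_norm : im1.norm = 1 := by decide

variable {π : ZI}

lemma PP.nrm_mod (h : PP π) : nrm π % 4 = 1 := by
  have h1 := h.norm_mod
  have h2 := nrm_cast π
  omega

lemma PP.five_le (h : PP π) : 5 ≤ π.norm := by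
  have h1 := h.norm_mod
  have h2 := h.norm_pos
  by_contra hc
  have h3 : π.norm = 1 := by omega
  have h4 : IsUnit π := by
    rw [Zsqrtd.isUnit_iff_norm_isUnit, h3]
    exact isUnit_one
  exact h.pr.not_isUnit h4

/-- an element of small norm divisible by a primary prime is zero -/
lemma PP.small (h : PP π) {x : ZI} (hx : π ∣ x) (hn : x.norm < 5) : x = 0 := by
  obtain ⟨c, rfl⟩ := hx
  by_contra h0
  have hc : c ≠ 0 := by
    rintro rfl
    exact h0 (mul_zero _)
  have h1 : 0 < c.norm := by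
    have h2 := GaussianInt.norm_nonneg c
    have h3 : c.norm ≠ 0 := by
      rwa [Ne, Zsqrtd.norm_eq_zero_iff (by norm_num)]
    omega
  rw [Zsqrtd.norm_mul] at hn
  have h4 := h.five_le
  nlinarith

/-- a value of the symbol -/
def Val4 (u : ZI) : Prop := u = 0 ∨ u.norm = 1

lemma Val4.list {u : ZI} (h : Val4 u) : u = 0 ∨ u = 1 ∨ u = im1 ∨ u = -1 ∨ u = -im1 := by
  rcases h with h | h
  · exact Or.inl h
  · rcases unit_cases h with h | h | h | h
    · exact Or.inr (Or.inl h)
    · exact Or.inr (Or.inr (Or.inl h))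
    · exact Or.inr (Or.inr (Or.inr (Or.inl (by rw [h]; decide))))
    · exact Or.inr (Or.inr (Or.inr (Or.inr (by rw [h]; decide))))

lemma PP.eq_val (h : PP π) {u w : ZI} (hu : Val4 u) (hw : Val4 w) (hd : π ∣ u - w) : u = w := by
  have h1 : (u - w).norm < 5 := by
    rcases hu.list with rfl | rfl | rfl | rfl | rfl <;>
    rcases hw.list with rfl | rfl | rfl | rfl | rfl <;> decide
  exact sub_eq_zero.1 (h.small hd h1)

lemma q4_val (π a : ZI) : Val4 (q4 π a) := by
  unfold q4 Val4
  split_ifs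
  · exact Or.inl rfl
  · right; decide
  · right; decide
  · right; decide
  · right; decide

lemma q4_zero {a : ZI} (h : π ∣ a) : q4 π a = 0 := by unfold q4; rw [if_pos h]

lemma fermat (h : PP π) {a : ZI} (ha : ¬ π ∣ a) : π ∣ a ^ (nrm π - 1) - 1 := by
  classical
  have := fin_RQ h
  let _ := Fintype.ofFinite (RQ π)
  let _ := h.fld
  have h1 : Ideal.Quotient.mk (Ideal.span {π}) a ≠ 0 := fun h' => ha ((mk_eq_zero a).1 h')
  have h2 := FiniteField.pow_card_sub_one_eq_one _ h1
  rw [card_fin h] at h2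
  rw [← mk_eq_mk, map_pow, map_one]
  exact h2

lemma q4_dvd (h : PP π) (a : ZI) : π ∣ a ^ (nrm π / 4) - q4 π a := by
  have hm := h.nrm_mod
  have h5 := h.five_le
  have hc := nrm_cast π
  unfold q4
  by_cases ha : π ∣ a
  · rw [if_pos ha, sub_zero]
    exact dvd_pow ha (by omega)
  · rw [if_neg ha]
    have h1 := fermat h ha
    have e : a ^ (nrm π - 1) - 1 = (a ^ (nrm π / 4) - 1) * ((a ^ (nrm π / 4) - im1) *
        ((a ^ (nrm π / 4) + 1) * (a ^ (nrm π / 4) + im1))) := by
      have h2 : nrm π - 1 = nrm π / 4 * 4 := by omega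
      rw [h2, pow_mul]
      linear_combination ((a ^ (nrm π / 4)) ^ 2 - 1) * im1_sq
    rw [e] at h1
    split_ifs with h2 h3 h4
    · exact h2
    · exact h3
    · rwa [sub_neg_eq_add]
    · rw [sub_neg_eq_add]
      rcases h.pr.dvd_or_dvd h1 with h5 | h5
      · exact absurd h5 h2
      · rcases h.pr.dvd_or_dvd h5 with h6 | h6
        · exact absurd h6 h3
        · rcases h.pr.dvd_or_dvd h6 with h7 | h7
          · exact absurd h7 h4
          · exact h7

lemma q4_eq (h : PP π) {a u : ZI} (hu : Val4 u) (hd : π ∣ a ^ (nrm π / 4) - u) : q4 π a = u := by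
  apply h.eq_val (q4_val π a) hu
  have h1 := dvd_sub hd (q4_dvd h a)
  have e : a ^ (nrm π / 4) - u - (a ^ (nrm π / 4) - q4 π a) = q4 π a - u := by ring
  rwa [e] at h1

lemma Val4.mul {u w : ZI} (hu : Val4 u) (hw : Val4 w) : Val4 (u * w) := by
  rcases hu with h | h
  · left; rw [h, zero_mul]
  · rcases hw with h' | h'
    · left; rw [h', mul_zero]
    · right; rw [Zsqrtd.norm_mul, h, h']; norm_num

lemma Val4.pow {u : ZI} (hu : Val4 u) (n : ℕ) : Val4 (u ^ n) := by
  induction n with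
  | zero => right; rw [pow_zero]; decide
  | succ n ih => rw [pow_succ]; exact ih.mul hu

lemma q4_mul (h : PP π) (a b : ZI) : q4 π (a * b) = q4 π a * q4 π b := by
  apply q4_eq h ((q4_val _ _).mul (q4_val _ _))
  have h1 := q4_dvd h a
  have h2 := q4_dvd h b
  have e : (a * b) ^ (nrm π / 4) - q4 π a * q4 π b = (a ^ (nrm π / 4) - q4 π a) * b ^ (nrm π / 4) +
      q4 π a * (b ^ (nrm π / 4) - q4 π b) := by rw [mul_pow]; ring
  rw [e]
  exact dvd_add (h1.mul_right _) (h2.mul_left _)

lemma q4_per (h : PP π) {a b : ZI} (hab : π ∣ a - b) : q4 π a = q4 π b := by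
  apply q4_eq h (q4_val _ _)
  have h1 := q4_dvd h b
  have h2 : π ∣ a ^ (nrm π / 4) - b ^ (nrm π / 4) := hab.trans (sub_dvd_pow_sub_pow a b _)
  have := dvd_add h2 h1
  rwa [sub_add_sub_cancel] at this

lemma q4_zero_iff (h : PP π) {a : ZI} : q4 π a = 0 ↔ π ∣ a := by
  constructor
  · intro h0
    have h1 := q4_dvd h a
    rw [h0, sub_zero] at h1
    exact h.pr.dvd_of_dvd_pow h1
  · exact q4_zero

lemma q4_one (h : PP π) : q4 π 1 = 1 := by
  apply q4_eq h (Or.inr (by decide))
  rw [one_pow, sub_self]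
  exact dvd_zero _

lemma q4_unit (h : PP π) {u : ZI} (hu : u.norm = 1) : q4 π u = u ^ (nrm π / 4) := by
  apply q4_eq h
  · exact Val4.pow (Or.inr hu) _
  · rw [sub_self]; exact dvd_zero _

lemma q4_norm (h : PP π) {a : ZI} (ha : ¬ π ∣ a) : (q4 π a).norm = 1 := by
  rcases q4_val π a with h1 | h1
  · exact absurd ((q4_zero_iff h).1 h1) ha
  · exact h1

lemma q4_pow (h : PP π) (a : ZI) (n : ℕ) : q4 π (a ^ n) = q4 π a ^ n := by
  induction n with
  | zero => rw [pow_zero, pow_zero, q4_one h]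
  | succ n ih => rw [pow_succ, q4_mul h, ih, pow_succ]

lemma q4_prod {κ : Type*} (h : PP π) (s : Finset κ) (f : κ → ZI) : q4 π (∏ i ∈ s, f i) = ∏ i ∈ s, q4 π (f i) := by
  classical
  induction s using Finset.induction_on with
  | empty => rw [Finset.prod_empty, Finset.prod_empty, q4_one h]
  | insert a s ha ih => rw [Finset.prod_insert ha, Finset.prod_insert ha, q4_mul h, ih]

lemma Val4.four {u : ZI} (h : u.norm = 1) : u ^ 4 = 1 := by
  rcases unit_cases h with h | h | h | h <;> rw [h] <;> decide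

/-- the square of the quartic symbol -/
lemma q4_sq (h : PP π) (a : ZI) : q4 π a ^ 2 = (qr π a : ZI) := by
  have hv : Val4 ((qr π a : ℤ) : ZI) := by
    unfold qr
    split_ifs
    · left; simp
    · right; decide
    · right; decide
  apply h.eq_val ((q4_val _ _).pow 2) hv
  have h1 := qr_euler h a
  have h2 := q4_dvd h a
  have hm := h.nrm_mod
  have e1 : nrm π / 2 = nrm π / 4 * 2 := by omega
  rw [e1, pow_mul] at h1
  have h3 : π ∣ (a ^ (nrm π / 4)) ^ 2 - q4 π a ^ 2 := h2.trans (sub_dvd_pow_sub_pow _ _ 2)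
  have := dvd_sub h1 h3
  have e : (a ^ (nrm π / 4)) ^ 2 - ((qr π a : ℤ) : ZI) - ((a ^ (nrm π / 4)) ^ 2 - q4 π a ^ 2) =
    q4 π a ^ 2 - (qr π a : ZI) := by ring
  rwa [e] at this

lemma prime_star {z : ZI} (h : Prime z) : Prime (star z) := by
  have h1 : Prime ((starRingEnd ZI) z) := (MulEquiv.prime_iff (starRingAut (R := ZI)).toMulEquiv).2 h
  exact h1

lemma star_dvd {a b : ZI} (h : a ∣ b) : star a ∣ star b := by
  obtain ⟨c, rfl⟩ := h
  exact ⟨star c, by rw [star_mul, mul_comm]⟩

lemma PP.star (h : PP π) : PP (star π) := ⟨prime_star h.pr, prim_star h.prm⟩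

lemma nrm_star (a : ZI) : nrm (star a) = nrm a := by
  unfold nrm
  rw [Zsqrtd.norm_conj]

lemma q4_star (h : PP π) (a : ZI) : q4 (star π) (star a) = star (q4 π a) := by
  apply q4_eq h.star
  · rcases q4_val π a with h1 | h1
    · left; rw [h1, star_zero]
    · right; rw [Zsqrtd.norm_conj, h1]
  · rw [nrm_star, ← star_pow, ← star_sub]
    exact star_dvd (q4_dvd h a)

lemma star_unit {u : ZI} (h : u.norm = 1) : star u = u ^ 3 := by
  rcases unit_cases h with h | h | h | h <;> rw [h] <;> decide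

lemma unit_star_mul {u : ZI} (h : u.norm = 1) : u * star u = 1 := by
  rw [← Zsqrtd.norm_eq_mul_conj, h]; simp

/-- the symbol of minus one -/
lemma q4_neg_one (h : PP π) : q4 π (-1) = (-1) ^ (nrm π / 4) := q4_unit h (by decide)

end Pool.Agent.Y699
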