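import Pool.Agent.Y699.Qv

/-!
The main congruence for the quartic central values.
-/

set_option autoImplicit false
set_option linter.unusedSectionVars false
set_option linter.unusedSimpArgs false

open Filter Complex
open scoped Topology PeriodPair
open H667R3 hiding sq
open Pool.Agent.TH936.CM Pool.Agent.W192.HK

namespace Pool.Agent.Y699

open H385 (ZI RQ im1 nrm)
open Pool.Agent.H304R3.HK (tc HC LH chi_le)
open Pool.Agent.W164.RC (tc_mul tc_star two2 prim_iff_dvd unit_cases)
open Pool.Agent.H304R2.EC.A1 (prim prim_mul prim_cancel prim_one prim_norm_odd prim_star eq_one_of_prim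
  norm_def' re_mul' im_mul' eq_of_dvd prim_ne_zero)

variable {L : PeriodPair} {Ω : ℂ} {ι : Type} [Fintype ι] [DecidableEq ι] {pr : ι → ZI}

open Classical in
/-- sums of unit invariant functions -/
lemma orbit_sum {D π : ZI} (hD : π ∣ D) (hπ : PP π) (hw : wq π % 2 = 1) [Fintype (RQ D)] {G : ZI → ℂ}
    (hper : ∀ a b, D ∣ a - b → G a = G b) (hi : ∀ a, G (im1 * a) = G a)
    (hz : ∀ a, π ∣ a → G a = 0) :
    1 / 4 * ∑ q : RQ D, G q.out = ∑ q : RQ D, (if q4 π (2 * q.out) = 1 then G q.out else 0) := by
  have hik : ∀ k : ℕ, ∀ a, G (im1 ^ k * a) = G a := by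
    intro k
    induction k with
    | zero => intro a; rw [pow_zero, one_mul]
    | succ k ih => intro a; rw [pow_succ, mul_assoc, ih, hi]
  have hnk : ∀ k : ℕ, (im1 ^ k : ZI).norm = 1 := by
    intro k
    induction k with
    | zero => simp
    | succ k ih => rw [pow_succ, Zsqrtd.norm_mul, ih, im1_norm, one_mul]
  have h1 : ∀ q : RQ D, G q.out = ∑ k ∈ Finset.range 4,
      (if q4 π (2 * (im1 ^ k * q.out)) = 1 then G q.out else 0) := by
    intro q
    by_cases hd : π ∣ q.out
    · rw [hz _ hd]
      simp
    · have hd2 : ¬ π ∣ 2 * q.out := by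
        intro h'
        rcases hπ.pr.dvd_or_dvd h' with h | h
        · exact not_dvd_two hπ h
        · exact hd h
      have e1 : ∀ k : ℕ, q4 π (2 * (im1 ^ k * q.out)) = (im1 ^ wq π) ^ k * q4 π (2 * q.out) := by
        intro k
        have e2 : 2 * (im1 ^ k * q.out) = im1 ^ k * (2 * q.out) := by ring
        rw [e2, q4_mul hπ, q4_unit hπ (hnk k), ← pow_mul, ← pow_mul, mul_comm k]
        rfl
      have hu := q4_norm hπ hd2
      simp_rw [e1]
      have hw4 : wq π % 4 = 1 ∨ wq π % 4 = 3 := by omega
      have ht : im1 ^ wq π = im1 ∨ im1 ^ wq π = -im1 := by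
        rcases hw4 with h | h
        · left
          rw [unit_pow_mod im1_norm (n := 1) (by rw [h]), pow_one]
        · right
          rw [unit_pow_mod im1_norm (n := 3) (by rw [h])]
          decide
      have e2 : (im1 : ZI) ^ 2 = -1 := by decide
      have e3 : (im1 : ZI) ^ 3 = -im1 := by decide
      rw [Finset.sum_range_succ, Finset.sum_range_succ, Finset.sum_range_succ,
        Finset.sum_range_succ, Finset.sum_range_zero]
      rcases unit_cases hu with h | h | h | h <;> rcases ht with h' | h' <;> rw [h, h']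
      · rw [if_pos (by decide), if_neg (by decide), if_neg (by decide), if_neg (by decide)]; ring
      · rw [if_pos (by decide), if_neg (by decide), if_neg (by decide), if_neg (by decide)]; ring
      · rw [if_neg (by decide), if_neg (by decide), if_neg (by decide), if_pos (by decide)]; ring
      · rw [if_neg (by decide), if_pos (by decide), if_neg (by decide), if_neg (by decide)]; ring
      · rw [if_neg (by decide), if_neg (by decide), if_pos (by decide), if_neg (by decide)]; ring
      · rw [if_neg (by decide), if_neg (by decide), if_pos (by decide), if_neg (by decide)]; ring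
      · rw [if_neg (by decide), if_pos (by decide), if_neg (by decide), if_neg (by decide)]; ring
      · rw [if_neg (by decide), if_neg (by decide), if_neg (by decide), if_pos (by decide)]; ring
  have h2 : ∀ k : ℕ, ∑ q : RQ D, (if q4 π (2 * (im1 ^ k * q.out)) = 1 then G q.out else 0) =
      ∑ q : RQ D, (if q4 π (2 * q.out) = 1 then G q.out else 0) := by
    intro k
    have hu : IsUnit (Ideal.Quotient.mk (Ideal.span {D}) (im1 ^ k)) := by
      rw [map_pow]; exact (im1_isUnit D).pow k
    rw [← sum_unit_mul hu (fun q => if q4 π (2 * q.out) = 1 then G q.out else 0)]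
    refine Finset.sum_congr rfl fun q _ => ?_
    have e1 := out_mul D (im1 ^ k) q
    have e2 : q4 π (2 * (Ideal.Quotient.mk (Ideal.span {D}) (im1 ^ k) * q).out) =
        q4 π (2 * (im1 ^ k * q.out)) := by
      apply q4_per hπ
      rw [← mul_sub]
      exact (hD.trans e1).mul_left _
    rw [e2, hper _ _ e1, hik]
  rw [Finset.sum_congr rfl fun q _ => h1 q, Finset.sum_comm, Finset.sum_congr rfl fun k _ => h2 k,
    Finset.sum_const, Finset.card_range]
  simp

/-- the shifted exponents -/
noncomputable def es (pr : ι → ZI) (r : ι) (e : ι → ℕ) (S : Finset ι) (j : ι) : ℕ :=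
  if j = r then e r + wq (pr r) * ∑ i ∈ S, wq (pr i) else if j ∈ S then e j - 1 else e j

lemma es_Wt {V : Finset ι} {r : ι} (hr : r ∈ V) (hw : wq (pr r) % 2 = 1) {e : ι → ℕ}
    (he : ∀ i ∈ V.erase r, 1 ≤ e i) {S : Finset ι} (hS : S ⊆ V.erase r) :
    Wt pr V (es pr r e S) % 4 = Wt pr V e % 4 := by
  have h1 : Wt pr V (es pr r e S) + ∑ i ∈ S, wq (pr i) =
      Wt pr V e + wq (pr r) ^ 2 * ∑ i ∈ S, wq (pr i) := by
    unfold Wt
    rw [← Finset.add_sum_erase V (fun i => es pr r e S i * wq (pr i)) hr,
      ← Finset.add_sum_erase V (fun i => e i * wq (pr i)) hr]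
    have h2 : ∑ i ∈ V.erase r, es pr r e S i * wq (pr i) + ∑ i ∈ S, wq (pr i) =
        ∑ i ∈ V.erase r, e i * wq (pr i) := by
      have h3 : ∑ i ∈ S, wq (pr i) = ∑ i ∈ V.erase r, (if i ∈ S then wq (pr i) else 0) := by
        rw [Finset.sum_ite_mem, Finset.inter_eq_right.2 hS]
      rw [h3, ← Finset.sum_add_distrib]
      refine Finset.sum_congr rfl fun i hi => ?_
      unfold es
      rw [if_neg (Finset.mem_erase.1 hi).1]
      have h4 := he i hi
      split_ifs with h5
      · obtain ⟨k, hk⟩ : ∃ k, e i = k + 1 := ⟨e i - 1, by omega⟩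
        rw [hk, Nat.add_sub_cancel]
        ring
      · ring
    have h5 : es pr r e S r = e r + wq (pr r) * ∑ i ∈ S, wq (pr i) := by
      unfold es; rw [if_pos rfl]
    rw [h5]
    linear_combination h2
  have h2 : wq (pr r) ^ 2 % 4 = 1 := by
    obtain ⟨k, hk⟩ : ∃ k, wq (pr r) = 2 * k + 1 := ⟨wq (pr r) / 2, by omega⟩
    rw [hk]
    have : (2 * k + 1) ^ 2 = 4 * (k * k + k) + 1 := by ring
    omega
  have h3 : (wq (pr r) ^ 2 * ∑ i ∈ S, wq (pr i)) % 4 = (∑ i ∈ S, wq (pr i)) % 4 := by
    rw [Nat.mul_mod, h2, one_mul, Nat.mod_mod]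
  omega

/-- the difference of consecutive powers -/
noncomputable def df (pr : ι → ZI) (e : ι → ℕ) (i : ι) (a : ZI) : ℂ :=
  tc (fe (pr i) (e i) a) - tc (fe (pr i) (e i - 1) a)

open Classical in
/-- the value is a primitive fourth root of unity -/
noncomputable def dd (pr : ι → ZI) (i : ι) (a : ZI) : ZMod 2 := if q4 (pr i) a ^ 2 = -1 then 1 else 0

section val

variable {Γ : Type*} [LinearOrderedCommGroupWithZero Γ] {v : Valuation ℂ Γ} (h2 : v 2 < 1)
  (h : GLat L Ω)

include h2 in
lemma df_cg (hp : PF pr) {e : ι → ℕ} {i : ι} (he : 1 ≤ e i) (a : ZI) :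
    Cg v (df pr e i a / (1 + I)) (uu (dd pr i a)) := by
  unfold df dd
  by_cases ha : pr i ∣ a
  · rw [fe_zero _ ha, fe_zero _ ha, sub_self, zero_div, q4_zero ha, if_neg (by decide), uu_zero]
    exact Cg.refl (by rw [map_zero]; exact zero_le)
  · unfold fe
    rw [if_neg ha, if_neg ha]
    have hu := q4_norm (hp.pp i) ha
    set u := q4 (pr i) a with hudef
    obtain ⟨k, hk⟩ : ∃ k, e i = k + 1 := ⟨e i - 1, by omega⟩
    rw [hk, Nat.add_sub_cancel]
    have hpn : (u ^ k).norm = 1 := by
      clear hk
      induction k with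
      | zero => simp
      | succ k ih => rw [pow_succ, Zsqrtd.norm_mul, ih, hu, one_mul]
    have e1 : (tc (u ^ (k + 1)) - tc (u ^ k)) / (1 + I) = (-1) * tc (u ^ k) * ((1 - tc u) / (1 + I)) := by
      rw [pow_succ, tc_mul]; ring
    rw [e1]
    have c1 := ((cg_one_neg (v := v) h2).mul (cg_one h2 hpn)).mul (unit_cg h2 hu)
    rwa [one_mul, one_mul] at c1

/-- the relation before evaluation -/
lemma rel_exact (hp : PF pr) {V : Finset ι} {r : ι} (hr : r ∈ V) (hw : wq (pr r) % 2 = 1)
    {e : ι → ℕ} (he : ∀ i ∈ V.erase r, 1 ≤ e i) (hW : Wt pr V e % 4 = 3)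
    [Fintype (RQ (DD pr V))] (h : GLat L Ω) :
    ∑ S ∈ (V.erase r).powerset, (-1) ^ S.card * M4 L Ω pr V (es pr r e S) =
      ∑ q : RQ (DD pr V), (open Classical in (if q4 (pr r) (2 * q.out) = 1 then
        (∏ i ∈ V.erase r, df pr e i (2 * q.out)) * hh L (zq Ω (DD pr V) q.out) else 0)) := by
  classical
  have hD0 := DD_ne hp V
  -- each term
  have h1 : ∀ S ∈ (V.erase r).powerset, M4 L Ω pr V (es pr r e S) =
      ∑ q : RQ (DD pr V), (if q4 (pr r) (2 * q.out) = 1 then
        tc (c4 pr V (es pr r e S) (2 * q.out)) * hh L (zq Ω (DD pr V) q.out) else 0) := by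
    intro S hS
    rw [Finset.mem_powerset] at hS
    have hWS : Wt pr V (es pr r e S) % 4 = 3 := by rw [es_Wt hr hw he hS, hW]
    unfold M4
    refine orbit_sum (G := fun a => tc (c4 pr V (es pr r e S) (2 * a)) * hh L (zq Ω (DD pr V) a))
      (dvd_DD hr) (hp.pp r) hw ?_ ?_ ?_
    · intro a b hab
      rw [c4_per hp V _ (a := 2 * a) (b := 2 * b) (by rw [← mul_sub]; exact hab.mul_left _),
        hh_per L (zq_sub h.lat hD0 hab)]
    · intro a
      have e1 : 2 * (im1 * a) = im1 * (2 * a) := by ring
      rw [e1, c4_im hp hWS, tc_mul, tc_neg, tc_im1, zq_mul, tc_im1, hh_I h.lat]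
      linear_combination (-(tc (c4 pr V (es pr r e S) (2 * a)) * hh L (zq Ω (DD pr V) a))) * I_sq
    · intro a ha
      rw [c4_zero _ hr (ha.mul_left _), tc_zero, zero_mul]
  rw [Finset.sum_congr rfl fun S hS => by rw [h1 S hS, Finset.mul_sum], Finset.sum_comm]
  refine Finset.sum_congr rfl fun q _ => ?_
  by_cases hq : q4 (pr r) (2 * q.out) = 1
  · simp only [if_pos hq]
    have hnd : ¬ pr r ∣ 2 * q.out := by
      intro hd
      rw [q4_zero hd] at hq
      exact absurd hq (by decide)
    have h3 : ∏ i ∈ V.erase r, df pr e i (2 * q.out) = ∑ S ∈ (V.erase r).powerset,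
        (-1) ^ S.card * tc (c4 pr V (es pr r e S) (2 * q.out)) := by
      have h4 : ∀ i ∈ V.erase r, df pr e i (2 * q.out) =
          -tc (fe (pr i) (e i - 1) (2 * q.out)) + tc (fe (pr i) (e i) (2 * q.out)) := by
        intro i _
        unfold df; ring
      rw [Finset.prod_congr rfl h4, Finset.prod_add]
      refine Finset.sum_congr rfl fun S hS => ?_
      rw [Finset.mem_powerset] at hS
      rw [Finset.prod_neg, mul_assoc]
      congr 1
      unfold c4
      rw [tc_prod, ← Finset.mul_prod_erase V _ hr]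
      have e1 : tc (fe (pr r) (es pr r e S r) (2 * q.out)) = 1 := by
        unfold fe
        rw [if_neg hnd, hq, one_pow, tc_one]
      rw [e1, one_mul, ← Finset.prod_sdiff hS, mul_comm]
      congr 1
      · refine Finset.prod_congr rfl fun i hi => ?_
        rw [Finset.mem_sdiff] at hi
        unfold es
        rw [if_neg (Finset.mem_erase.1 hi.1).1, if_neg hi.2]
      · refine Finset.prod_congr rfl fun i hi => ?_
        unfold es
        rw [if_neg (Finset.mem_erase.1 (hS hi)).1, if_pos hi]
    rw [h3, Finset.sum_mul]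
    exact Finset.sum_congr rfl fun S _ => by ring
  · simp only [if_neg hq, mul_zero, Finset.sum_const_zero]

include h2 in
/-- the evenness of the main term -/
lemma even_sum (hp : PF pr) {V : Finset ι} {r : ι} (hr : r ∈ V) (hc : 2 ≤ V.card)
    [Fintype (RQ (DD pr V))] :
    v (∑ q : RQ (DD pr V), (open Classical in (if q4 (pr r) (2 * q.out) = 1 then
        (∏ i ∈ V.erase r, uu (dd pr i (2 * q.out))) else 0))) ≤ v 2 := by
  classical
  obtain ⟨j, hj⟩ : (V.erase r).Nonempty := by
    rw [← Finset.card_pos, Finset.card_erase_of_mem hr]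
    omega
  have hjV : j ∈ V := Finset.mem_of_mem_erase hj
  have hjr : j ≠ r := (Finset.mem_erase.1 hj).1
  have hDj : DD pr V = pr j * DD pr (V.erase j) := by
    unfold DD
    exact (Finset.mul_prod_erase V pr hjV).symm
  have hcop : IsCoprime (pr j) (DD pr (V.erase j)) := by
    unfold DD
    rw [IsCoprime.prod_right_iff]
    intro i hi
    exact (hp.pp j).cop (hp.pp i) fun h => (Finset.mem_erase.1 hi).1 (hp.inj h).symm
  obtain ⟨x, y, hxy⟩ := hcop
  set M := DD pr (V.erase j) with hM
  set c : ZI := x * pr j - y * M with hcdef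
  have c1 : M ∣ c - 1 := ⟨-(2 * y), by rw [hcdef]; linear_combination hxy⟩
  have c2 : pr j ∣ c - (-1) := ⟨2 * x, by rw [hcdef]; linear_combination -hxy⟩
  have c3 : DD pr V ∣ c * c - 1 := by
    obtain ⟨a, ha⟩ := c1
    obtain ⟨b, hb⟩ := c2
    exact ⟨a * b, by rw [hDj]; linear_combination (c + 1) * ha + M * a * hb⟩
  set σ : RQ (DD pr V) → RQ (DD pr V) := fun q => Ideal.Quotient.mk (Ideal.span {DD pr V}) c * q with hσ
  have hσσ : ∀ q, σ (σ q) = q := by
    intro q
    rw [hσ]
    show Ideal.Quotient.mk (Ideal.span {DD pr V}) c * (Ideal.Quotient.mk (Ideal.span {DD pr V}) c * q) = q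
    have e1 : Ideal.Quotient.mk (Ideal.span {DD pr V}) (c * c) = 1 := by
      rw [← map_one (Ideal.Quotient.mk (Ideal.span {DD pr V})), Ideal.Quotient.eq,
        Ideal.mem_span_singleton]
      exact c3
    rw [← mul_assoc, ← map_mul, e1, one_mul]
  have hq4 : ∀ i ∈ V, ∀ q : RQ (DD pr V), q4 (pr i) (2 * (σ q).out) =
      q4 (pr i) c * q4 (pr i) (2 * q.out) := by
    intro i hi q
    rw [← q4_mul (hp.pp i)]
    apply q4_per (hp.pp i)
    have e1 := out_mul (DD pr V) c q
    have e2 : 2 * (σ q).out - c * (2 * q.out) = 2 * ((σ q).out - c * q.out) := by ring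
    rw [e2]
    exact ((dvd_DD hi).trans e1).mul_left _
  have hone : ∀ i ∈ V, i ≠ j → q4 (pr i) c = 1 := by
    intro i hi hij
    have : pr i ∣ c - 1 := (dvd_DD (Finset.mem_erase.2 ⟨hij, hi⟩)).trans c1
    rw [q4_per (hp.pp i) this, q4_one (hp.pp i)]
  have hsqj : q4 (pr j) c ^ 2 = 1 := by
    rw [q4_per (hp.pp j) c2, q4_neg_one (hp.pp j), ← pow_mul, mul_comm, pow_mul]
    norm_num
  have hdd : ∀ i ∈ V, ∀ q : RQ (DD pr V), dd pr i (2 * (σ q).out) = dd pr i (2 * q.out) := by
    intro i hi q
    unfold dd
    rw [hq4 i hi, mul_pow]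
    by_cases hij : i = j
    · rw [hij, hsqj, one_mul]
    · rw [hone i hi hij, one_pow, one_mul]
  have key := pair_sum h2 σ hσσ
    (fun q => if q4 (pr r) (2 * q.out) = 1 then (∏ i ∈ V.erase r, uu (dd pr i (2 * q.out))) else 0)
    (by
      intro q
      show (if q4 (pr r) (2 * (σ q).out) = 1 then (∏ i ∈ V.erase r, uu (dd pr i (2 * (σ q).out))) else 0)
        = _
      rw [hq4 r hr, hone r hr hjr.symm, one_mul]
      rw [Finset.prod_congr rfl fun i hi => by rw [hdd i (Finset.mem_of_mem_erase hi) q]])
    (by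
      intro q hq hqq
      by_cases h1 : q4 (pr r) (2 * q.out) = 1
      · simp only [if_pos h1] at hq
        rw [Finset.prod_ne_zero_iff] at hq
        have h3 := hq j hj
        have h4 : q4 (pr j) (2 * q.out) ^ 2 = -1 := by
          unfold dd at h3
          by_contra h5
          rw [if_neg h5, uu_zero] at h3
          exact h3 rfl
        have h5 : ¬ pr j ∣ 2 * q.out := by
          intro h6
          rw [q4_zero h6] at h4
          exact absurd h4 (by decide)
        have h6 : pr j ∣ (c - 1) * q.out := by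
          have e1 : Ideal.Quotient.mk (Ideal.span {DD pr V}) ((c - 1) * q.out) = 0 := by
            rw [map_mul, map_sub, map_one, Ideal.Quotient.mk_out, sub_mul, one_mul]
            exact sub_eq_zero.2 hqq
          rw [Ideal.Quotient.eq_zero_iff_mem, Ideal.mem_span_singleton] at e1
          exact (dvd_DD hjV).trans e1
        rcases (hp.pp j).pr.dvd_or_dvd h6 with h7 | h7
        · have h8 := dvd_sub c2 h7
          have e1 : c - (-1) - (c - 1) = 2 := by ring
          rw [e1] at h8
          exact not_dvd_two (hp.pp j) h8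
        · exact h5 (h7.mul_left _)
      · simp only [if_neg h1] at hq
        exact hq rfl)
    1
    (by
      intro q
      split_ifs
      · rw [map_prod]
        exact Finset.prod_le_one' fun i _ => v_uu _
      · rw [map_zero]; exact zero_le)
    Finset.univ (fun q _ => Finset.mem_univ _)
  rw [mul_one] at key
  exact key

include h2 h in
lemma zq_hh (hp : PF pr) {V : Finset ι} {r : ι} (hr : r ∈ V) {t : ZI} (ht : q4 (pr r) (2 * t) = 1) :
    Cg v (hh L (zq Ω (DD pr V) t)) 1 := by
  apply hh_cg h2 h
  apply zq_OT h (DD_prim hp V)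
  intro hd
  have h1 : pr r ∣ 2 * t := ((dvd_DD hr).trans hd).mul_left _
  rw [q4_zero h1] at ht
  exact absurd ht (by decide)

include h2 h in
/-- the relation -/
lemma rel_cg (hp : PF pr) {V : Finset ι} {r : ι} (hr : r ∈ V) (hw : wq (pr r) % 2 = 1)
    {e : ι → ℕ} (he : ∀ i ∈ V.erase r, 1 ≤ e i) (hW : Wt pr V e % 4 = 3) (hc : 2 ≤ V.card)
    [Fintype (RQ (DD pr V))] :
    v (∑ S ∈ (V.erase r).powerset, (-1) ^ S.card * (M4 L Ω pr V (es pr r e S) /
      (1 + I) ^ (V.card - 1))) < 1 := by
  classical
  have h1I : (1 + I : ℂ) ≠ 0 := one_I_ne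
  have e1 : ∑ S ∈ (V.erase r).powerset, (-1) ^ S.card * (M4 L Ω pr V (es pr r e S) /
      (1 + I) ^ (V.card - 1)) = ∑ q : RQ (DD pr V), (if q4 (pr r) (2 * q.out) = 1 then
        (∏ i ∈ V.erase r, (df pr e i (2 * q.out) / (1 + I))) * hh L (zq Ω (DD pr V) q.out) else 0) := by
    have h1 := rel_exact hp hr hw he hW h
    have e2 : ∑ S ∈ (V.erase r).powerset, (-1) ^ S.card * (M4 L Ω pr V (es pr r e S) /
        (1 + I) ^ (V.card - 1)) = (∑ S ∈ (V.erase r).powerset, (-1) ^ S.card *
          M4 L Ω pr V (es pr r e S)) / (1 + I) ^ (V.card - 1) := by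
      rw [Finset.sum_div]
      exact Finset.sum_congr rfl fun S _ => by ring
    rw [e2, h1, Finset.sum_div]
    refine Finset.sum_congr rfl fun q _ => ?_
    split_ifs
    · rw [Finset.prod_div_distrib, Finset.prod_const, Finset.card_erase_of_mem hr]
      ring
    · rw [zero_div]
  rw [e1]
  have c1 : Cg v (∑ q : RQ (DD pr V), (if q4 (pr r) (2 * q.out) = 1 then
        (∏ i ∈ V.erase r, (df pr e i (2 * q.out) / (1 + I))) * hh L (zq Ω (DD pr V) q.out) else 0))
      (∑ q : RQ (DD pr V), (if q4 (pr r) (2 * q.out) = 1 then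
        (∏ i ∈ V.erase r, uu (dd pr i (2 * q.out))) else 0)) := by
    refine Cg.sum _ fun q _ => ?_
    split_ifs with hq
    · have c2 := (Cg.prod (V.erase r) (f := fun i => df pr e i (2 * q.out) / (1 + I))
        (g := fun i => uu (dd pr i (2 * q.out))) (v := v)
        (fun i hi => df_cg h2 hp (he i hi) (2 * q.out))).mul (zq_hh h2 h hp hr hq)
      rwa [mul_one] at c2
    · exact Cg.refl (by rw [map_zero]; exact zero_le)
  have c3 := even_sum h2 hp hr hc
  have c4 : Cg v (∑ q : RQ (DD pr V), (if q4 (pr r) (2 * q.out) = 1 then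
        (∏ i ∈ V.erase r, uu (dd pr i (2 * q.out))) else 0)) 0 := Cg.zero (lt_of_le_of_lt c3 h2)
  exact (c1.trans c4).lt

lemma wt_wq (hp : PF pr) (i : ι) : wt pr i = (wq (pr i) : ZMod 2) := by
  have h1 := (hp.pp i).norm_mod
  have h3 := nrm_cast (pr i)
  unfold wt wq
  split_ifs with h5
  · have : nrm (pr i) / 4 % 2 = 1 := by omega
    have h6 : ((nrm (pr i) / 4 : ℕ) : ZMod 2) = ((1 : ℕ) : ZMod 2) := by
      rw [ZMod.natCast_eq_natCast_iff]
      exact this
    rw [h6]; norm_num
  · have : nrm (pr i) / 4 % 2 = 0 := by omega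
    have h6 : ((nrm (pr i) / 4 : ℕ) : ZMod 2) = ((0 : ℕ) : ZMod 2) := by
      rw [ZMod.natCast_eq_natCast_iff]
      exact this
    rw [h6]; norm_num

lemma Od_wt (hp : PF pr) {V : Finset ι} {e : ι → ℕ} (hW : Wt pr V e % 4 = 3) :
    ∑ j ∈ Od V e, wt pr j = 1 := by
  have h1 : ∑ j ∈ Od V e, wt pr j = ((Wt pr V e : ℕ) : ZMod 2) := by
    unfold Od Wt
    rw [Finset.sum_filter, Nat.cast_sum]
    refine Finset.sum_congr rfl fun i _ => ?_
    rw [Nat.cast_mul, wt_wq hp]
    split_ifs with h5
    · have h6 : ((e i : ℕ) : ZMod 2) = ((1 : ℕ) : ZMod 2) := by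
        rw [ZMod.natCast_eq_natCast_iff]
        exact h5
      rw [h6]; norm_num
    · have h6 : ((e i : ℕ) : ZMod 2) = ((0 : ℕ) : ZMod 2) := by
        rw [ZMod.natCast_eq_natCast_iff]
        show e i % 2 = 0 % 2
        omega
      rw [h6]; norm_num
  rw [h1]
  have h6 : ((Wt pr V e : ℕ) : ZMod 2) = ((1 : ℕ) : ZMod 2) := by
    rw [ZMod.natCast_eq_natCast_iff]
    show Wt pr V e % 2 = 1 % 2
    omega
  rw [h6]; norm_num

lemma es_empty (r : ι) (e : ι → ℕ) : es pr r e ∅ = e := by
  funext j
  unfold es
  by_cases h : j = r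
  · rw [if_pos h, h]; simp
  · rw [if_neg h, if_neg (Finset.notMem_empty j)]

include h2 in
lemma cg_nat_odd {n : ℕ} (hn : n % 2 = 1) : Cg v (n : ℂ) 1 := by
  refine ⟨v_nat n, by rw [map_one], ?_⟩
  obtain ⟨k, hk⟩ : ∃ k, n = 2 * k + 1 := ⟨n / 2, by omega⟩
  rw [hk]
  push_cast
  rw [add_sub_cancel_right, map_mul]
  exact lt_of_le_of_lt (mul_le_of_le_one_right' (v_nat k)) h2

include h2 h in
/-- the case of one prime -/
lemma M4_single (hp : PF pr) {r : ι} {e : ι → ℕ} (hW : Wt pr {r} e % 4 = 3)
    [Fintype (RQ (DD pr {r}))] : Cg v (M4 L Ω pr {r} e) 1 := by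
  classical
  have hr : r ∈ ({r} : Finset ι) := Finset.mem_singleton_self r
  obtain ⟨r', hr', hw⟩ := exists_odd hW
  rw [Finset.mem_singleton] at hr'
  subst hr'
  have her : ({r'} : Finset ι).erase r' = ∅ := by simp
  have h1 := rel_exact hp hr hw (e := e) (by rw [her]; simp) hW h
  rw [her, Finset.powerset_empty, Finset.sum_singleton, es_empty, Finset.card_empty, pow_zero,
    one_mul] at h1
  simp only [Finset.prod_empty, one_mul] at h1
  rw [h1]
  have c1 : Cg v (∑ q : RQ (DD pr {r'}), (if q4 (pr r') (2 * q.out) = 1 then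
      hh L (zq Ω (DD pr {r'}) q.out) else 0))
      (∑ q : RQ (DD pr {r'}), (if q4 (pr r') (2 * q.out) = 1 then 1 else 0)) := by
    refine Cg.sum _ fun q _ => ?_
    split_ifs with hq
    · exact zq_hh h2 h hp hr hq
    · exact Cg.refl (by rw [map_zero]; exact zero_le)
  have hDr : DD pr {r'} = pr r' := by unfold DD; exact Finset.prod_singleton _ _
  have h3 := orbit_sum (D := DD pr {r'}) (dvd_DD hr) (hp.pp r') hw
    (G := fun a => if pr r' ∣ a then 0 else 1)
    (by
      intro a b hab
      have h4 : pr r' ∣ a - b := (dvd_DD hr).trans hab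
      have h5 : pr r' ∣ a ↔ pr r' ∣ b := by
        constructor
        · intro h'; have := dvd_sub h' h4; rwa [sub_sub_cancel] at this
        · intro h'; have := dvd_add h4 h'; rwa [sub_add_cancel] at this
      simp only [h5])
    (by
      intro a
      have h5 : pr r' ∣ im1 * a ↔ pr r' ∣ a := qr_unit_mul (hp.pp r') im1_norm a
      simp only [h5])
    (by
      intro a ha
      simp only [if_pos ha])
  have h4 : ∑ q : RQ (DD pr {r'}), (if q4 (pr r') (2 * q.out) = 1 then
      (if pr r' ∣ q.out then (0 : ℂ) else 1) else 0) =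
      ∑ q : RQ (DD pr {r'}), (if q4 (pr r') (2 * q.out) = 1 then 1 else 0) := by
    refine Finset.sum_congr rfl fun q _ => ?_
    by_cases hq : q4 (pr r') (2 * q.out) = 1
    · rw [if_pos hq, if_pos hq, if_neg]
      intro hd
      rw [q4_zero (hd.mul_left 2)] at hq
      exact absurd hq (by decide)
    · rw [if_neg hq, if_neg hq]
  have h5 : ∑ q : RQ (DD pr {r'}), (if pr r' ∣ q.out then (0 : ℂ) else 1) =
      (Fintype.card (RQ (DD pr {r'})) : ℂ) - 1 := by
    have h6 : ∀ q : RQ (DD pr {r'}), (if pr r' ∣ q.out then (0 : ℂ) else 1) =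
        1 - (if q = 0 then 1 else 0) := by
      intro q
      have h7 : pr r' ∣ q.out ↔ q = 0 := by
        rw [← Ideal.mem_span_singleton, ← hDr, ← Ideal.Quotient.eq_zero_iff_mem,
          Ideal.Quotient.mk_out]
      by_cases hq : q = 0
      · rw [if_pos (h7.2 hq), if_pos hq, sub_self]
      · rw [if_neg (fun h' => hq (h7.1 h')), if_neg hq, sub_zero]
    rw [Finset.sum_congr rfl fun q _ => h6 q, Finset.sum_sub_distrib, Finset.sum_ite_eq']
    simp
  have hcard : Fintype.card (RQ (DD pr {r'})) = nrm (pr r') := by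
    rw [← Nat.card_eq_fintype_card, H385.H10.card_RQ, hDr]
  have hm := (hp.pp r').nrm_mod
  have h6 : (1 / 4 : ℂ) * ((nrm (pr r') : ℂ) - 1) = (wq (pr r') : ℂ) := by
    have h7 : nrm (pr r') = 4 * wq (pr r') + 1 := by unfold wq; omega
    rw [h7]; push_cast; ring
  rw [h4, h5, hcard, h6] at h3
  rw [← h3] at c1
  exact c1.trans (cg_nat_odd h2 hw)

/-- the target value -/
noncomputable def TQ (pr : ι → ZI) (V O : Finset ι) : ZMod 2 :=
  Ff.ell (wt pr) (em pr) O * ∏ i ∈ V \ O, ∑ u ∈ O, em pr u i

include h2 in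
lemma uu_neg' (a : ZMod 2) : Cg v (-uu a) (uu a) := by
  have c1 := (cg_one_neg (v := v) h2).mul (Cg.refl (v := v) (v_uu a))
  rwa [one_mul, neg_one_mul] at c1

include h2 in
lemma cg_sign (k : ℕ) {x : ℂ} {a : ZMod 2} (hx : Cg v x (uu a)) : Cg v ((-1) ^ k * x) (uu a) := by
  rcases Nat.even_or_odd k with hk | hk
  · rw [hk.neg_one_pow, one_mul]; exact hx
  · rw [hk.neg_one_pow, neg_one_mul]
    exact hx.neg.trans (uu_neg' h2 a)

include h2 h in
/-- **the main congruence** -/
theorem M4_cg (hp : PF pr) : ∀ (V : Finset ι) (e : ι → ℕ), Wt pr V e % 4 = 3 →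
    ∀ [Fintype (RQ (DD pr V))], Cg v (M4 L Ω pr V e / (1 + I) ^ (V.card - 1)) (uu (TQ pr V (Od V e))) := by
  classical
  intro V
  induction V using Finset.strongInduction with
  | H V ihV =>
    intro e hW i0
    have h1I : (1 + I : ℂ) ≠ 0 := one_I_ne
    -- a prime with odd weight
    obtain ⟨r, hr, hw⟩ := exists_odd hW
    have hcard : 1 ≤ V.card := Finset.card_pos.2 ⟨r, hr⟩
    -- the inner induction
    suffices H : ∀ n : ℕ, ∀ e : ι → ℕ, ∑ i ∈ V.erase r, e i = n → Wt pr V e % 4 = 3 →
        Cg v (M4 L Ω pr V e / (1 + I) ^ (V.card - 1)) (uu (TQ pr V (Od V e))) from H _ e rfl hW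
    clear hW e
    intro n
    induction n using Nat.strong_induction_on with
    | _ n ihn =>
      intro e hn hW
      by_cases hc1 : V.card = 1
      · -- one prime
        obtain ⟨a, ha⟩ := Finset.card_eq_one.1 hc1
        have har : a = r := by rw [ha, Finset.mem_singleton] at hr; exact hr.symm
        subst har
        subst ha
        have c1 := M4_single h2 h hp hW
        have h5 := Od_wt hp hW
        have h6 : Od {a} e = {a} := by
          unfold Od at h5 ⊢
          by_cases h7 : e a % 2 = 1
          · rw [Finset.filter_singleton, if_pos h7]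
          · rw [Finset.filter_singleton, if_neg h7, Finset.sum_empty] at h5
            exact absurd h5 (by decide)
        rw [h6, Finset.sum_singleton] at h5
        unfold TQ
        rw [h6, Finset.sdiff_self, Finset.prod_empty, mul_one, Ff.ell_single, h5, uu_one,
          Finset.card_singleton, Nat.sub_self, pow_zero, div_one]
        exact c1
      · have hc2 : 2 ≤ V.card := by omega
        by_cases h0 : ∃ i ∈ V, e i = 0
        · -- a vanishing exponent
          obtain ⟨i, hi, hei⟩ := h0
          have hfin := H385.he1_finite (DD_ne hp (V.erase i))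
          letI := Fintype.ofFinite (RQ (DD pr (V.erase i)))
          have hWe : Wt pr (V.erase i) e = Wt pr V e := by
            unfold Wt
            rw [← Finset.add_sum_erase V _ hi, hei, zero_mul, zero_add]
          have c1 := ihV (V.erase i) (Finset.erase_ssubset hi) e (by rw [hWe]; exact hW)
          have c2 := fac4_cg (v := v) h2 hp (e := e) (Finset.notMem_erase i V)
          have c3 := c1.mul c2
          rw [← uu_mul] at c3
          have hOd : Od (V.erase i) e = Od V e := by
            unfold Od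
            ext j
            rw [Finset.mem_filter, Finset.mem_filter, Finset.mem_erase]
            constructor
            · rintro ⟨⟨a1, a2⟩, a3⟩; exact ⟨a2, a3⟩
            · rintro ⟨a2, a3⟩
              refine ⟨⟨?_, a2⟩, a3⟩
              rintro rfl
              rw [hei] at a3
              exact absurd a3 (by norm_num)
          have hiO : i ∉ Od V e := by
            unfold Od
            rw [Finset.mem_filter]
            rintro ⟨-, a3⟩
            rw [hei] at a3
            exact absurd a3 (by norm_num)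
          have e1 : TQ pr (V.erase i) (Od (V.erase i) e) * ∑ u ∈ Od (V.erase i) e, em pr u i =
              TQ pr V (Od V e) := by
            unfold TQ
            rw [hOd, mul_assoc]
            congr 1
            have e2 : V \ Od V e = insert i ((V.erase i) \ Od V e) := by
              ext j
              rw [Finset.mem_insert, Finset.mem_sdiff, Finset.mem_sdiff, Finset.mem_erase]
              constructor
              · rintro ⟨a1, a2⟩
                by_cases hji : j = i
                · exact Or.inl hji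
                · exact Or.inr ⟨⟨hji, a1⟩, a2⟩
              · rintro (rfl | ⟨⟨a1, a2⟩, a3⟩)
                · exact ⟨hi, hiO⟩
                · exact ⟨a2, a3⟩
            rw [e2, Finset.prod_insert (by simp), mul_comm]
          rw [e1] at c3
          have e3 : M4 L Ω pr (V.erase i) e / (1 + I) ^ ((V.erase i).card - 1) *
              ((tc (pr i) - tc (c4 pr (V.erase i) e (pr i))) / (1 + I)) =
              M4 L Ω pr V e / (1 + I) ^ (V.card - 1) := by
            rw [M4_erase hp hi hei hW h, Finset.card_erase_of_mem hi]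
            have e4 : V.card - 1 = (V.card - 1 - 1) + 1 := by omega
            rw [e4, Nat.add_sub_cancel, pow_succ]
            field_simp
          rw [e3] at c3
          exact c3
        · -- all exponents are positive
          push Not at h0
          have he : ∀ i ∈ V.erase r, 1 ≤ e i := fun i hi =>
            Nat.one_le_iff_ne_zero.2 (h0 i (Finset.mem_of_mem_erase hi))
          set X : Finset ι → ℂ := fun S => M4 L Ω pr V (es pr r e S) / (1 + I) ^ (V.card - 1) with hX
          set TS : Finset ι → ZMod 2 := fun S => TQ pr V (Od V (es pr r e S)) with hTS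
          have hWS : ∀ S ⊆ V.erase r, Wt pr V (es pr r e S) % 4 = 3 := by
            intro S hS
            rw [es_Wt hr hw he hS, hW]
          have hIH : ∀ S ∈ (V.erase r).powerset.erase ∅, Cg v (X S) (uu (TS S)) := by
            intro S hS
            rw [Finset.mem_erase, Finset.mem_powerset] at hS
            refine ihn (∑ i ∈ V.erase r, es pr r e S i) ?_ (es pr r e S) rfl (hWS S hS.2)
            rw [← hn]
            obtain ⟨j, hj⟩ := Finset.nonempty_iff_ne_empty.2 hS.1
            refine Finset.sum_lt_sum (fun i hi => ?_) ⟨j, hS.2 hj, ?_⟩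
            · unfold es
              rw [if_neg (Finset.mem_erase.1 hi).1]
              split_ifs
              · omega
              · exact le_rfl
            · unfold es
              rw [if_neg (Finset.mem_erase.1 (hS.2 hj)).1, if_pos hj]
              have := he j (hS.2 hj)
              omega
          have hR := rel_cg h2 h hp hr hw he hW hc2
          have hmem : (∅ : Finset ι) ∈ (V.erase r).powerset := Finset.empty_mem_powerset _
          have c1 : Cg v (∑ S ∈ (V.erase r).powerset, (-1) ^ S.card * X S) 0 := Cg.zero hR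
          have c2 : Cg v (∑ S ∈ (V.erase r).powerset.erase ∅, (-1) ^ S.card * X S)
              (∑ S ∈ (V.erase r).powerset.erase ∅, uu (TS S)) :=
            Cg.sum _ fun S hS => cg_sign h2 _ (hIH S hS)
          have c3 := (c1.sub c2)
          rw [← Finset.add_sum_erase _ _ hmem, add_sub_cancel_right, Finset.card_empty, pow_zero,
            one_mul, zero_sub] at c3
          -- the sum of the target values
          have htot : ∑ S ∈ (V.erase r).powerset, TS S = 0 := by
            have h5 := Ff.sum_reindex (w := wt pr) hr (by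
                rw [wt_wq hp]
                have h6 : ((wq (pr r) : ℕ) : ZMod 2) = ((1 : ℕ) : ZMod 2) := by
                  rw [ZMod.natCast_eq_natCast_iff]
                  exact hw
                rw [h6]; norm_num) (fun O => TQ pr V O) (fun S => Od V (es pr r e S)) (Od V e)
              (fun S _ => Finset.filter_subset _ _)
              (fun S hS => Od_wt hp (hWS S hS))
              (fun S hS j hj => by
                have hjV := Finset.mem_of_mem_erase hj
                have hjr := (Finset.mem_erase.1 hj).1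
                have hej := he j hj
                unfold Od
                rw [Finset.mem_filter, Finset.mem_filter]
                unfold es
                rw [if_neg hjr]
                by_cases hjS : j ∈ S
                · simp only [hjS, hjV, true_and, if_true, iff_true]
                  omega
                · simp only [hjS, hjV, true_and, if_false, iff_false, not_not])
            rw [hTS]
            rw [h5]
            exact Ff.sum_ell_one (wt pr) (em pr) (em_self hp) (em_symm hp) hc2
          rw [← Finset.add_sum_erase _ _ hmem] at htot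
          have e5 : ∑ S ∈ (V.erase r).powerset.erase ∅, TS S = TS ∅ := by
            have : TS ∅ + TS ∅ = 0 := CharTwo.add_self_eq_zero _
            linear_combination htot - this
          have c4 : Cg v (-∑ S ∈ (V.erase r).powerset.erase ∅, uu (TS S)) (uu (TS ∅)) := by
            have c5 := (uu_sum h2 ((V.erase r).powerset.erase ∅) TS).symm
            rw [e5] at c5
            exact c5.neg.trans (uu_neg' h2 _)
          have c6 := c3.trans c4
          rw [hX, hTS] at c6
          simp only [es_empty] at c6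
          exact c6

/-- **the non-vanishing of the limit** -/
theorem lim_ne4 (h : GLat L Ω) (hp : PF pr) {V : Finset ι}
    (hW : (∑ i ∈ V, wq (pr i)) % 4 = 3)
    (hker : ∀ z : ι → ZMod 2, (∀ v ∈ V, ∑ u ∈ V, em pr u v * (z u + z v) = 0) →
      ∀ u ∈ V, ∀ v ∈ V, z u = z v) {l : ℂ}
    (hl : Tendsto (RS (cc4 pr V (fun _ => 1))) (𝓝[>] 0) (𝓝 l)) : l ≠ 0 := by
  classical
  have hW' : Wt pr V (fun _ => 1) % 4 = 3 := by
    unfold Wt
    simp only [one_mul]
    exact hW
  have hV : V.Nonempty := by
    by_contra hc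
    rw [Finset.not_nonempty_iff_eq_empty] at hc
    rw [hc] at hW
    simp at hW
  have hfin := H385.he1_finite (DD_ne hp V)
  letI := Fintype.ofFinite (RQ (DD pr V))
  have l1 := lim_cc4 h hp hV hW'
  rw [tendsto_nhds_unique hl l1]
  obtain ⟨B, hB⟩ := exists_val
  have c1 := M4_cg (v := B.valuation) hB h hp V (fun _ => 1) hW'
  have hOd : Od V (fun _ => 1) = V := by
    unfold Od
    exact Finset.filter_true_of_mem fun _ _ => by norm_num
  have hTT : TQ pr V (Od V (fun _ => 1)) = 1 := by
    unfold TQ
    rw [hOd, Finset.sdiff_self, Finset.prod_empty, mul_one,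
      Ff.ell_one (wt pr) (em pr) (em_self hp) (em_symm hp) hker]
    have := Od_wt hp hW'
    rwa [hOd] at this
  rw [hTT, uu_one] at c1
  have hM : M4 L Ω pr V (fun _ => 1) ≠ 0 := by
    intro h0
    rw [h0, zero_div] at c1
    have := c1.s
    rw [zero_sub, Valuation.map_neg, map_one] at this
    exact absurd this (lt_irrefl _)
  have he1 : ℘[L] (Ω / 2) ≠ 0 := by
    intro h0
    have := h.e1_sq
    rw [h0] at this
    norm_num at this
  have h1I : (1 + I : ℂ) ≠ 0 := one_I_ne
  refine mul_ne_zero (div_ne_zero (div_ne_zero (mul_ne_zero (mul_ne_zero h.lat.ne he1) h1I)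
    two_ne_zero) (tc_ne (DD_ne hp V))) hM

/-- **non-vanishing of the central value** -/
theorem LH_ne4 (hp : PF pr) {V : Finset ι}
    (hW : (∑ i ∈ V, wq (pr i)) % 4 = 3)
    (hker : ∀ z : ι → ZMod 2, (∀ v ∈ V, ∑ u ∈ V, em pr u v * (z u + z v) = 0) →
      ∀ u ∈ V, ∀ v ∈ V, z u = z v) : LH (XX4 hp V (fun _ => 1)) (1 / 2) ≠ 0 := by
  classical
  obtain ⟨L, Ω, hGL⟩ := exists_lat
  have hW' : Wt pr V (fun _ => 1) % 4 = 3 := by
    unfold Wt
    simp only [one_mul]
    exact hW
  have hV : V.Nonempty := by
    by_contra hc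
    rw [Finset.not_nonempty_iff_eq_empty] at hc
    rw [hc] at hW
    simp at hW
  have hfin := H385.he1_finite (DD_ne hp V)
  letI := Fintype.ofFinite (RQ (DD pr V))
  have l1 := lim_cc4 hGL hp hV hW'
  rw [LH_eq4 hp hW' (fun _ _ => by norm_num) l1]
  exact (map_ne_zero _).2 (lim_ne4 hGL hp hW hker l1)

end val

end Pool.Agent.Y699
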