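import Pool.Agent.Y699.Pr
import Pool.Agent.Y699.Qa
import Pool.Agent.Y699.Qk

/-!
Sums over factorisations (the class `13` modulo `16`).
-/

set_option autoImplicit false

open Finset

namespace Pool.Agent.Y699

open H385 (ZI RQ im1 nrm BX)
open H385.H10 (mem_BX nrm_pos Dv mem_Dv card_Dv)
open Pool.Agent.W164.RC (two2 prim_iff_dvd unit_norm unit_cases)
open Pool.Agent.H304R2.EC.A1 (prim prim_mul prim_cancel prim_one prim_norm_odd prim_star eq_one_of_prim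
  norm_def' re_mul' im_mul' eq_of_dvd prim_ne_zero exists_prim)

open Classical in
/-- the set of `D` of the right class -/
noncomputable def Ph₄ (X : ℕ) (D : ZI) : ℝ := if PS D ∧ nrm D ≤ X ∧ D.norm % 16 = 13 then 1 else 0

lemma Ph_nonneg₄ (X : ℕ) (D : ZI) : 0 ≤ Ph₄ X D := by
  unfold Ph₄; split_ifs <;> norm_num

lemma Ph_le₄ (X : ℕ) (D : ZI) : Ph₄ X D ≤ 1 := by
  unfold Ph₄; split_ifs <;> norm_num

lemma Ph_ne₄ {X : ℕ} {D : ZI} (h : Ph₄ X D ≠ 0) : PS D ∧ nrm D ≤ X ∧ D.norm % 16 = 13 := by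
  unfold Ph₄ at h
  by_contra h'
  rw [if_neg h'] at h
  exact h rfl

lemma prim_norm_sixteen {x : ZI} (h : prim x) : x.norm % 16 ∈ ({1, 5, 9, 13} : Finset ℤ) := by
  have h1 := prim_norm_four h
  simp only [mem_insert, mem_singleton]
  omega

/-- indicator of a class -/
noncomputable def cw (a : ℤ) (x : ZI) : ℝ := if x.norm % 16 = a then 1 else 0

lemma cw_abs (a : ℤ) (x : ZI) : |cw a x| ≤ 1 := by
  unfold cw
  split_ifs <;> simp

lemma cw_sum {x : ZI} (h : prim x) (f : ℤ → ℝ) :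
    ∑ a ∈ ({1, 5, 9, 13} : Finset ℤ), f a * cw a x = f (x.norm % 16) := by
  rw [sum_eq_single (x.norm % 16)]
  · unfold cw
    rw [if_pos rfl, mul_one]
  · intro b _ hb
    unfold cw
    rw [if_neg (Ne.symm hb), mul_zero]
  · intro h1
    exact absurd (prim_norm_sixteen h) h1

/-- the product condition -/
noncomputable def kp (r : ZI) (a b : ℤ) : ℝ := if (a * b * r.norm) % 16 = 13 then 1 else 0

lemma kp_abs (r : ZI) (a b : ℤ) : |kp r a b| ≤ 1 := by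
  unfold kp
  split_ifs <;> simp

lemma Ph_eq₄ (X : ℕ) {x y r : ZI} (hx : prim x) (hy : prim y) :
    Ph₄ X (x * y * r) = Ind X (x * y * r) *
      ∑ a ∈ ({1, 5, 9, 13} : Finset ℤ), ∑ b ∈ ({1, 5, 9, 13} : Finset ℤ), kp r a b * (cw a x * cw b y) := by
  have e1 : ∑ a ∈ ({1, 5, 9, 13} : Finset ℤ), ∑ b ∈ ({1, 5, 9, 13} : Finset ℤ), kp r a b * (cw a x * cw b y) =
      kp r (x.norm % 16) (y.norm % 16) := by
    have e2 : ∀ a ∈ ({1, 5, 9, 13} : Finset ℤ), ∑ b ∈ ({1, 5, 9, 13} : Finset ℤ),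
        kp r a b * (cw a x * cw b y) = kp r a (y.norm % 16) * cw a x := by
      intro a _
      rw [← cw_sum hy (fun b => kp r a b), sum_mul]
      exact sum_congr rfl fun b _ => by ring
    rw [sum_congr rfl e2]
    exact cw_sum hx (fun a => kp r a (y.norm % 16))
  rw [e1]
  have e3 : (x * y * r).norm % 16 = ((x.norm % 16) * (y.norm % 16) * r.norm) % 16 := by
    rw [Zsqrtd.norm_mul, Zsqrtd.norm_mul, Int.mul_emod, Int.mul_emod x.norm, ← Int.mul_emod]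
  unfold Ph₄ Ind kp
  by_cases h1 : PS (x * y * r) ∧ nrm (x * y * r) ≤ X
  · by_cases h2 : (x * y * r).norm % 16 = 13
    · rw [if_pos ⟨h1.1, h1.2, h2⟩, if_pos h1, if_pos (by rw [← e3]; exact h2)]; norm_num
    · rw [if_neg (fun h => h2 h.2.2), if_pos h1, if_neg (by rw [← e3]; exact h2)]; norm_num
  · rw [if_neg (fun h => h1 ⟨h.1, h.2.1⟩), if_neg h1]; norm_num

/-- the hyperbolic sum in the right class -/
theorem blw₄ : ∃ C : ℝ, 1 ≤ C ∧ ∀ (u v : ZI → ℝ), (∀ x, |u x| ≤ 1) → (∀ x, |v x| ≤ 1) →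
    ∀ Z X : ℕ, 1 ≤ Z → (∀ x, nrm x ≤ Z → u x = 0) → (∀ x, nrm x ≤ Z → v x = 0) → ∀ r : ZI, prim r →
    |∑ x ∈ SB X, ∑ y ∈ SB X, Ph₄ X (x * y * r) * (u x * v y * jac x y)| ≤
      C * ((X : ℝ) / nrm r * lg X) * (Z : ℝ) ^ (-(1 / 96) : ℝ) := by
  obtain ⟨C, hC1, hC⟩ := blp
  refine ⟨16 * C, by linarith, ?_⟩
  intro u v hu hv Z X hZ hu0 hv0 r hr
  have hmul : ∀ {w : ZI → ℝ}, (∀ x, |w x| ≤ 1) → ∀ a x, |w x * cw a x| ≤ 1 := by
    intro w hw a x
    rw [abs_mul]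
    exact mul_le_one₀ (hw x) (abs_nonneg _) (cw_abs a x)
  set B := C * ((X : ℝ) / nrm r * lg X) * (Z : ℝ) ^ (-(1 / 96) : ℝ) with hB
  have h2 : ∀ a b : ℤ, |∑ x ∈ SB X, ∑ y ∈ SB X, Ind X (x * y * r) *
      ((u x * cw a x) * (v y * cw b y) * (jac x y : ℝ))| ≤ B := fun a b =>
    hC (fun x => u x * cw a x) (fun x => v x * cw b x) (hmul hu a) (hmul hv b) Z X hZ
      (fun x hx => by rw [hu0 x hx, zero_mul]) (fun x hx => by rw [hv0 x hx, zero_mul]) r hr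
  have e1 : ∑ x ∈ SB X, ∑ y ∈ SB X, Ph₄ X (x * y * r) * (u x * v y * (jac x y : ℝ)) =
      ∑ a ∈ ({1, 5, 9, 13} : Finset ℤ), ∑ b ∈ ({1, 5, 9, 13} : Finset ℤ), kp r a b *
        ∑ x ∈ SB X, ∑ y ∈ SB X, Ind X (x * y * r) * ((u x * cw a x) * (v y * cw b y) * (jac x y : ℝ)) := by
    have e2 : ∀ x ∈ SB X, ∀ y ∈ SB X, Ph₄ X (x * y * r) * (u x * v y * (jac x y : ℝ)) =
        ∑ a ∈ ({1, 5, 9, 13} : Finset ℤ), ∑ b ∈ ({1, 5, 9, 13} : Finset ℤ), kp r a b *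
          (Ind X (x * y * r) * ((u x * cw a x) * (v y * cw b y) * (jac x y : ℝ))) := by
      intro x hx y hy
      rw [mem_SB] at hx hy
      rw [Ph_eq₄ X hx.2.prm hy.2.prm, mul_sum, sum_mul]
      refine sum_congr rfl fun a _ => ?_
      rw [mul_sum, sum_mul]
      exact sum_congr rfl fun b _ => by ring
    rw [sum_congr rfl (fun x hx => sum_congr rfl (fun y hy => e2 x hx y hy))]
    have e3 : ∀ x ∈ SB X, ∑ y ∈ SB X, ∑ a ∈ ({1, 5, 9, 13} : Finset ℤ), ∑ b ∈ ({1, 5, 9, 13} : Finset ℤ), kp r a b *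
          (Ind X (x * y * r) * ((u x * cw a x) * (v y * cw b y) * (jac x y : ℝ))) =
        ∑ a ∈ ({1, 5, 9, 13} : Finset ℤ), ∑ b ∈ ({1, 5, 9, 13} : Finset ℤ), ∑ y ∈ SB X, kp r a b *
          (Ind X (x * y * r) * ((u x * cw a x) * (v y * cw b y) * (jac x y : ℝ))) := by
      intro x _
      rw [sum_comm]
      exact sum_congr rfl fun a _ => sum_comm
    rw [sum_congr rfl e3, sum_comm]
    refine sum_congr rfl fun a _ => ?_
    rw [sum_comm]
    refine sum_congr rfl fun b _ => ?_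
    rw [mul_sum]
    refine sum_congr rfl fun x _ => ?_
    rw [mul_sum]
  rw [e1]
  have hcard : (({1, 5, 9, 13} : Finset ℤ).card : ℝ) = 4 := by
    have : ({1, 5, 9, 13} : Finset ℤ).card = 4 := by decide
    rw [this]
    norm_num
  have hB0 : 0 ≤ B := (abs_nonneg _).trans (h2 1 1)
  calc _ ≤ ∑ a ∈ ({1, 5, 9, 13} : Finset ℤ), ∑ b ∈ ({1, 5, 9, 13} : Finset ℤ), B := by
        refine (abs_sum_le_sum_abs _ _).trans (sum_le_sum fun a _ => ?_)
        refine (abs_sum_le_sum_abs _ _).trans (sum_le_sum fun b _ => ?_)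
        rw [abs_mul]
        calc |kp r a b| * _ ≤ 1 * B := mul_le_mul (kp_abs r a b) (h2 a b) (abs_nonneg _) (by norm_num)
          _ = B := one_mul B
    _ = 16 * B := by
        rw [sum_const, sum_const, nsmul_eq_mul, nsmul_eq_mul, hcard]
        ring
    _ = _ := by rw [hB]; ring

lemma Ph_r₄ {X : ℕ} {r : ZI} (hr : prim r) : ∀ n, Ph₄ X (n * r) ≠ 0 → PS n ∧ nrm n ≤ X := by
  intro n h
  obtain ⟨h1, h2, -⟩ := Ph_ne₄ h
  have hn : prim n := prim_cancel hr (by rw [mul_comm]; exact h1.prm)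
  refine ⟨((PS.mul_iff hn hr).1 h1).1, ?_⟩
  refine le_trans ?_ h2
  rw [nrm_mul]
  exact Nat.le_mul_of_pos_right _ (nrm_pos' (prim_ne_zero hr))

/-- restriction to small elements -/
lemma sum_Ph_le₄ {X : ℕ} {r : ZI} (hr : prim r) {f : ZI → ℝ} (hf : ∀ n, 0 ≤ f n) :
    ∑ n ∈ SB X, Ph₄ X (n * r) * f n ≤ ∑ n ∈ SB (X / nrm r), f n := by
  have h1 : ∑ n ∈ SB X, Ph₄ X (n * r) * f n = ∑ n ∈ SB (X / nrm r), Ph₄ X (n * r) * f n := by
    symm
    refine sum_subset (SB_mono (Nat.div_le_self _ _)) ?_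
    intro n hn hn'
    by_contra h
    have h2 := left_ne_zero_of_mul h
    obtain ⟨h3, h4, -⟩ := Ph_ne₄ h2
    apply hn'
    rw [mem_SB, Nat.le_div_iff_mul_le (nrm_pos' (prim_ne_zero hr)), ← nrm_mul]
    exact ⟨h4, (mem_SB.1 hn).2⟩
  rw [h1]
  refine sum_le_sum fun n _ => ?_
  exact mul_le_of_le_one_left (hf n) (Ph_le₄ _ _)

/-- **two free variables** -/
theorem hsw₄ {A B r : ZI} (hAB : PS (A * B)) (hA : prim A) (hB : prim B) (h1 : A * B ≠ 1) (hr : prim r)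
    (hd : A * B ∣ r) (X : ℕ) :
    |∑ c ∈ SB X, ∑ e ∈ SB X, Ph₄ X (c * e * r) * (wt2 c * wt2 e * jac A e * jac B c)| ≤
      1680 * Real.sqrt (lg (nrm (A * B))) * ((X / nrm r : ℕ) / Real.sqrt (lg (X / nrm r))) := by
  classical
  obtain ⟨pA, pB, cAB⟩ := (PS.mul_iff hA hB).1 hAB
  have e1 := pr_sum (X := X) (Φ := fun n => Ph₄ X (n * r)) (Ph_r₄ hr)
    (fun c e => wt2 c * wt2 e * (jac A e : ℝ) * jac B c)
  rw [e1]
  have e2 : ∀ n ∈ SB X, ∑ S ∈ (PD n).powerset, wt2 (∏ π ∈ S, π) * wt2 (∏ π ∈ PD n \ S, π) *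
      (jac A (∏ π ∈ PD n \ S, π) : ℝ) * jac B (∏ π ∈ S, π) =
      ∏ π ∈ PD n, ((1 / 2) * (jac B π : ℝ) + (1 / 2) * jac A π) := by
    intro n hn
    rw [mem_SB] at hn
    rw [prod_add]
    refine sum_congr rfl fun S hS => ?_
    have hSP : ∀ π ∈ S, PP π := fun π hπ => ((mem_PD hn.2.ne).1 (mem_powerset.1 hS hπ)).1
    have hSP' : ∀ π ∈ PD n \ S, PP π := fun π hπ => ((mem_PD hn.2.ne).1 (mem_sdiff.1 hπ).1).1
    unfold wt2
    rw [mf_prod hSP, mf_prod hSP', jac_prod' pA.ne, jac_prod' pB.ne, prod_mul_distrib, prod_mul_distrib]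
    ring
  rw [sum_congr rfl (fun n hn => by rw [e2 n hn])]
  refine (abs_sum_le_sum_abs _ _).trans ?_
  have e3 : ∀ n ∈ SB X, |Ph₄ X (n * r) * ∏ π ∈ PD n, ((1 / 2) * (jac B π : ℝ) + (1 / 2) * jac A π)| ≤
      Ph₄ X (n * r) * mf (fun π => (1 + (jac (A * B) π : ℝ)) / 2) n := by
    intro n hn
    rw [mem_SB] at hn
    rw [abs_mul, abs_of_nonneg (Ph_nonneg₄ _ _)]
    by_cases h0 : Ph₄ X (n * r) = 0
    · rw [h0, zero_mul, zero_mul]
    · apply mul_le_mul_of_nonneg_left _ (Ph_nonneg₄ _ _)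
      rw [abs_prod]
      unfold mf
      refine prod_le_prod (fun _ _ => abs_nonneg _) ?_
      intro π hπ
      obtain ⟨h2, -, -⟩ := Ph_ne₄ h0
      have hcop := ((PS.mul_iff hn.2.prm hr).1 h2).2.2
      have hπ' := (mem_PD hn.2.ne).1 hπ
      have hπr : IsCoprime π (A * B) := (hcop.of_isCoprime_of_dvd_left hπ'.2).of_isCoprime_of_dvd_right hd
      have c1 : IsCoprime A π := (hπr.of_mul_right_left).symm
      have c2 : IsCoprime B π := (hπr.of_mul_right_right).symm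
      have n1 := jac_ne_zero pA c1
      have n2 := jac_ne_zero pB c2
      rw [jac_mul_left pA.ne pB.ne cAB]
      rcases jac_cases A π with h | h | h
      · exact absurd h n1
      · rcases jac_cases B π with h' | h' | h'
        · exact absurd h' n2
        · rw [h, h']; norm_num
        · rw [h, h']; norm_num
      · rcases jac_cases B π with h' | h' | h'
        · exact absurd h' n2
        · rw [h, h']; norm_num
        · rw [h, h']; norm_num [abs_of_neg]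
  refine (sum_le_sum e3).trans ?_
  have hnn : ∀ n, 0 ≤ mf (fun π => (1 + (jac (A * B) π : ℝ)) / 2) n := by
    apply mf_nonneg
    intro π
    rcases jac_cases (A * B) π with h | h | h <;> rw [h] <;> norm_num
  exact (sum_Ph_le₄ hr hnn).trans (hallG hAB h1 _)

/-- **one free variable** -/
theorem hsw0₄ {r : ZI} (hr : prim r) (X : ℕ) :
    ∑ e ∈ SB X, Ph₄ X (e * r) * wt2 e ≤ 126 * ((X / nrm r : ℕ) / Real.sqrt (lg (X / nrm r))) :=
  (sum_Ph_le₄ hr wt2_nonneg).trans (hall0 _)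

end Pool.Agent.Y699
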