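import Pool.Agent.Y699.Kid
import Pool.Agent.Y699.R1

/-!
The number of kernel elements as a character sum (the class `13` modulo `16`).
-/

set_option autoImplicit false

open Finset

namespace Pool.Agent.Y699

open H385 (ZI RQ im1 nrm BX)
open H385.H10 (mem_BX nrm_pos Dv mem_Dv card_Dv)
open Pool.Agent.W164.RC (two2 prim_iff_dvd unit_norm unit_cases)
open Pool.Agent.H304R2.EC.A1 (prim prim_mul prim_cancel prim_one prim_norm_odd prim_star eq_one_of_prim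
  norm_def' re_mul' im_mul' eq_of_dvd prim_ne_zero exists_prim)

/-- **the average as a sum over factorisations** -/
theorem K1_sum₄ {p q : ZI} (hp : PP p) (hq : PP q) (X : ℕ) :
    ∑ m ∈ SB X, Ph₄ X (m * (p * q)) * K1 m p q =
      ∑ a ∈ SB X, ∑ b ∈ SB X, ∑ c ∈ SB X, ∑ e ∈ SB X,
        Ph₄ X (a * b * c * e * (p * q)) * G1 p q a b c e := by
  classical
  have hpq : prim (p * q) := prim_mul hp.prm hq.prm
  -- the sum over c, e
  have e1 : ∀ a ∈ SB X, ∀ b ∈ SB X, ∑ c ∈ SB X, ∑ e ∈ SB X, Ph₄ X (a * b * c * e * (p * q)) * G1 p q a b c e =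
      ∑ n ∈ SB X, Ph₄ X (a * b * (n * (p * q))) * ∑ C ∈ (PD n).powerset,
        G1 p q a b (∏ π ∈ C, π) (∏ π ∈ PD n \ C, π) := by
    intro a ha b hb
    rw [mem_SB] at ha hb
    have hr : prim (a * b * (p * q)) := prim_mul (prim_mul ha.2.prm hb.2.prm) hpq
    have h1 := pr_sum (X := X) (Φ := fun n => Ph₄ X (n * (a * b * (p * q)))) (Ph_r₄ hr)
      (fun c e => G1 p q a b c e)
    have h2 : ∀ n, n * (a * b * (p * q)) = a * b * (n * (p * q)) := fun n => by ring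
    have h3 : ∀ c e, c * e * (a * b * (p * q)) = a * b * c * e * (p * q) := fun c e => by ring
    simp only [h2] at h1
    rw [← h1]
    refine sum_congr rfl fun c _ => sum_congr rfl fun e _ => ?_
    rw [← h2, h3]
  rw [sum_congr rfl (fun a ha => sum_congr rfl (fun b hb => e1 a ha b hb))]
  -- move n outside
  have e2 : ∑ a ∈ SB X, ∑ b ∈ SB X, ∑ n ∈ SB X, Ph₄ X (a * b * (n * (p * q))) * ∑ C ∈ (PD n).powerset,
        G1 p q a b (∏ π ∈ C, π) (∏ π ∈ PD n \ C, π) =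
      ∑ n ∈ SB X, ∑ a ∈ SB X, ∑ b ∈ SB X, Ph₄ X (a * b * (n * (p * q))) * ∑ C ∈ (PD n).powerset,
        G1 p q a b (∏ π ∈ C, π) (∏ π ∈ PD n \ C, π) := by
    rw [sum_congr rfl (fun a _ => sum_comm), sum_comm]
  rw [e2]
  have e3 : ∀ n ∈ SB X, ∑ a ∈ SB X, ∑ b ∈ SB X, Ph₄ X (a * b * (n * (p * q))) * (∑ C ∈ (PD n).powerset,
        G1 p q a b (∏ π ∈ C, π) (∏ π ∈ PD n \ C, π)) =
      ∑ d ∈ SB X, Ph₄ X (d * n * (p * q)) * ∑ A ∈ (PD d).powerset, ∑ C ∈ (PD n).powerset,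
        G1 p q (∏ π ∈ A, π) (∏ π ∈ PD d \ A, π) (∏ π ∈ C, π) (∏ π ∈ PD n \ C, π) := by
    intro n hn
    rw [mem_SB] at hn
    have h1 := pr_sum (X := X) (Φ := fun d => Ph₄ X (d * (n * (p * q)))) (Ph_r₄ (prim_mul hn.2.prm hpq))
      (fun a b => ∑ C ∈ (PD n).powerset, G1 p q a b (∏ π ∈ C, π) (∏ π ∈ PD n \ C, π))
    rw [h1]
    refine sum_congr rfl fun d _ => ?_
    rw [mul_assoc d n]
  rw [sum_congr rfl e3, sum_comm]
  have h1 := pr_sum (X := X) (Φ := fun m => Ph₄ X (m * (p * q))) (Ph_r₄ hpq)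
      (fun d n => ∑ A ∈ (PD d).powerset, ∑ C ∈ (PD n).powerset,
        G1 p q (∏ π ∈ A, π) (∏ π ∈ PD d \ A, π) (∏ π ∈ C, π) (∏ π ∈ PD n \ C, π))
  rw [h1]
  refine sum_congr rfl fun m hm => ?_
  by_cases h0 : Ph₄ X (m * (p * q)) = 0
  · rw [h0, zero_mul, zero_mul]
  · congr 1
    obtain ⟨h2, -, -⟩ := Ph_ne₄ h0
    have hm' := (mem_SB.1 hm).2
    unfold K1
    rw [← sum_boole]
    refine sum_congr rfl fun S hS => ?_
    rw [mem_powerset] at hS
    have hSP : ∀ π ∈ S, PP π := fun π hπ => ((mem_PD hm'.ne).1 (hS hπ)).1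
    have hSP' : ∀ π ∈ PD m \ S, PP π := fun π hπ => ((mem_PD hm'.ne).1 (mem_sdiff.1 hπ).1).1
    rw [(PS_prod hSP).2, (PS_prod hSP').2]
    exact (G1_sum h2 hm'.prm hp hq hS).symm

end Pool.Agent.Y699
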