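import Pool.Agent.Y699.Six
import Pool.Agent.Y699.R2

/-!
Sums over six variables (the class `13` modulo `16`).
-/

set_option autoImplicit false

open Finset

namespace Pool.Agent.Y699

open H385 (ZI RQ im1 nrm BX)
open H385.H10 (mem_BX nrm_pos Dv mem_Dv card_Dv)
open Pool.Agent.W164.RC (two2 prim_iff_dvd unit_norm unit_cases)
open Pool.Agent.H304R2.EC.A1 (prim prim_mul prim_cancel prim_one prim_norm_odd prim_star eq_one_of_prim
  norm_def' re_mul' im_mul' eq_of_dvd prim_ne_zero exists_prim)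

/-- the summand -/
noncomputable def F6₄ (P X : ℕ) (κ : ZI → ZI → ZI → ℝ) (τ : ZI → ZI → ZI → ZI → ℝ)
    (p q a b c e : ZI) : ℝ :=
  iI P p * iI P q * (Ph₄ X (a * b * c * e * (p * q)) *
    (κ a b c * τ p q a b * (wt2 a * wt2 b * wt2 c * wt2 e * (jac a e * jac b c))))

/-- first regime -/
theorem reg1₄ : ∃ C : ℝ, 1 ≤ C ∧ ∀ (P X Z : ℕ), 1 ≤ Z → Z ≤ P → ∀ t : ZI → ZI → ZI → ℝ,
    (∀ p a b, |t p a b| ≤ 1) →
    |S6 (SB X) (F6₄ P X (fun a _ _ => hi Z a) (fun p q a b => t p a b * jac a q))| ≤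
      C * (X * lg X ^ 5) * (Z : ℝ) ^ (-(1 / 96) : ℝ) := by
  obtain ⟨C, hC1, hC⟩ := blw₄
  refine ⟨18 ^ 4 * C, by linarith, ?_⟩
  intro P X Z hZ hZP t ht
  have hlg := lg_pos X
  rw [S6_B1]
  have h := S6_bound (s := SB X) (F := fun x1 x2 x3 x4 x5 x6 =>
      F6₄ P X (fun a _ _ => hi Z a) (fun p q a b => t p a b * jac a q) x1 x6 x5 x2 x3 x4)
    (K := C * (X * lg X) * (Z : ℝ) ^ (-(1 / 96) : ℝ))
    (g1 := fun x => 1 / nrm x) (g2 := fun x => 1 / nrm x) (g3 := fun x => 1 / nrm x) (g4 := fun x => 1 / nrm x) ?_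
  · refine h.trans ((four_bound (by positivity)).trans (le_of_eq (by ring)))
  · intro p hp b hb c hc e he
    rw [mem_SB] at hp hb hc he
    have hr : prim (b * c * e * p) := prim_mul (prim_mul (prim_mul hb.2.prm hc.2.prm) he.2.prm) hp.2.prm
    have h1 := hC (fun a => hi Z a * (t p a b * (wt2 a * jac a e))) (fun q => iI P q)
      (fun a => abs_mul_le (hi_abs _ _) (abs_mul_le (ht _ _ _) (abs_mul_le (wt2_abs _) (jac_abs _ _))))
      (fun q => iI_abs _ _) Z X hZ (fun x hx => by rw [hi_zero hx, zero_mul]) (fun x hx => iI_zero hZP hx)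
      (b * c * e * p) hr
    have e1 : ∑ a ∈ SB X, ∑ q ∈ SB X,
        F6₄ P X (fun a _ _ => hi Z a) (fun p q a b => t p a b * jac a q) p q a b c e =
        (iI P p * (wt2 b * wt2 c * wt2 e * jac b c)) * ∑ a ∈ SB X, ∑ q ∈ SB X, Ph₄ X (a * q * (b * c * e * p)) *
          ((hi Z a * (t p a b * (wt2 a * jac a e))) * iI P q * jac a q) := by
      rw [mul_sum]
      refine sum_congr rfl fun a _ => ?_
      rw [mul_sum]
      refine sum_congr rfl fun q _ => ?_
      unfold F6₄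
      rw [show a * b * c * e * (p * q) = a * q * (b * c * e * p) by ring]
      ring
    rw [e1, abs_mul]
    have h2 : |iI P p * (wt2 b * wt2 c * wt2 e * (jac b c : ℝ))| ≤ 1 :=
      abs_mul_le (iI_abs _ _) (abs_mul_le (abs_mul_le (abs_mul_le (wt2_abs _) (wt2_abs _)) (wt2_abs _)) (jac_abs _ _))
    refine (mul_le_of_le_one_left (abs_nonneg _) h2).trans (h1.trans (le_of_eq ?_))
    rw [inv_four]
    ring

/-- second regime -/
theorem reg2₄ : ∃ C : ℝ, 1 ≤ C ∧ ∀ (P X Z : ℕ), 1 ≤ Z → ∀ τ : ZI → ZI → ZI → ZI → ℝ,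
    (∀ p q a b, |τ p q a b| ≤ 1) →
    |S6 (SB X) (F6₄ P X (fun a b c => lo Z a * hi Z b * hi Z c) τ)| ≤
      C * (X * lg X ^ 5) * (Z : ℝ) ^ (-(1 / 96) : ℝ) := by
  obtain ⟨C, hC1, hC⟩ := blw₄
  refine ⟨18 ^ 4 * C, by linarith, ?_⟩
  intro P X Z hZ τ ht
  have hlg := lg_pos X
  rw [S6_B2]
  have h := S6_bound (s := SB X) (F := fun x1 x2 x3 x4 x5 x6 =>
      F6₄ P X (fun a b c => lo Z a * hi Z b * hi Z c) τ x1 x2 x3 x5 x6 x4)
    (K := C * (X * lg X) * (Z : ℝ) ^ (-(1 / 96) : ℝ))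
    (g1 := fun x => 1 / nrm x) (g2 := fun x => 1 / nrm x) (g3 := fun x => 1 / nrm x) (g4 := fun x => 1 / nrm x) ?_
  · refine h.trans ((four_bound (by positivity)).trans (le_of_eq (by ring)))
  · intro p hp q hq a ha e he
    rw [mem_SB] at hp hq ha he
    have hr : prim (p * q * a * e) := prim_mul (prim_mul (prim_mul hp.2.prm hq.2.prm) ha.2.prm) he.2.prm
    have h1 := hC (fun b => hi Z b * (τ p q a b * wt2 b)) (fun c => hi Z c * wt2 c)
      (fun b => abs_mul_le (hi_abs _ _) (abs_mul_le (ht _ _ _ _) (wt2_abs _)))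
      (fun c => abs_mul_le (hi_abs _ _) (wt2_abs _)) Z X hZ (fun x hx => by rw [hi_zero hx, zero_mul])
      (fun x hx => by rw [hi_zero hx, zero_mul]) (p * q * a * e) hr
    have e1 : ∑ b ∈ SB X, ∑ c ∈ SB X,
        F6₄ P X (fun a b c => lo Z a * hi Z b * hi Z c) τ p q a b c e =
        (iI P p * iI P q * (lo Z a * (wt2 a * wt2 e * jac a e))) * ∑ b ∈ SB X, ∑ c ∈ SB X,
          Ph₄ X (b * c * (p * q * a * e)) * ((hi Z b * (τ p q a b * wt2 b)) * (hi Z c * wt2 c) * jac b c) := by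
      rw [mul_sum]
      refine sum_congr rfl fun b _ => ?_
      rw [mul_sum]
      refine sum_congr rfl fun c _ => ?_
      unfold F6₄
      rw [show a * b * c * e * (p * q) = b * c * (p * q * a * e) by ring]
      ring
    rw [e1, abs_mul]
    have h2 : |iI P p * iI P q * (lo Z a * (wt2 a * wt2 e * (jac a e : ℝ)))| ≤ 1 :=
      abs_mul_le (abs_mul_le (iI_abs _ _) (iI_abs _ _)) (abs_mul_le (lo_abs _ _)
        (abs_mul_le (abs_mul_le (wt2_abs _) (wt2_abs _)) (jac_abs _ _)))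
    refine (mul_le_of_le_one_left (abs_nonneg _) h2).trans (h1.trans (le_of_eq ?_))
    rw [inv_four]

/-- second regime, mixed case -/
theorem reg2'₄ : ∃ C : ℝ, 1 ≤ C ∧ ∀ (P X Z : ℕ), 1 ≤ Z → Z ≤ P → ∀ t : ZI → ZI → ZI → ℝ,
    (∀ q a b, |t q a b| ≤ 1) →
    |S6 (SB X) (F6₄ P X (fun a b _ => lo Z a * hi Z b) (fun p q a b => t q a b * jac b p))| ≤
      C * (X * lg X ^ 5) * (Z : ℝ) ^ (-(1 / 96) : ℝ) := by
  obtain ⟨C, hC1, hC⟩ := blw₄
  refine ⟨18 ^ 4 * C, by linarith, ?_⟩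
  intro P X Z hZ hZP t ht
  have hlg := lg_pos X
  rw [S6_B2']
  have h := S6_bound (s := SB X) (F := fun x1 x2 x3 x4 x5 x6 =>
      F6₄ P X (fun a b _ => lo Z a * hi Z b) (fun p q a b => t q a b * jac b p) x6 x1 x2 x5 x3 x4)
    (K := C * (X * lg X) * (Z : ℝ) ^ (-(1 / 96) : ℝ))
    (g1 := fun x => 1 / nrm x) (g2 := fun x => 1 / nrm x) (g3 := fun x => 1 / nrm x) (g4 := fun x => 1 / nrm x) ?_
  · refine h.trans ((four_bound (by positivity)).trans (le_of_eq (by ring)))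
  · intro q hq a ha c hc e he
    rw [mem_SB] at hq ha hc he
    have hr : prim (q * a * c * e) := prim_mul (prim_mul (prim_mul hq.2.prm ha.2.prm) hc.2.prm) he.2.prm
    have h1 := hC (fun b => hi Z b * (t q a b * (wt2 b * jac b c))) (fun p => iI P p)
      (fun b => abs_mul_le (hi_abs _ _) (abs_mul_le (ht _ _ _) (abs_mul_le (wt2_abs _) (jac_abs _ _))))
      (fun q => iI_abs _ _) Z X hZ (fun x hx => by rw [hi_zero hx, zero_mul]) (fun x hx => iI_zero hZP hx)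
      (q * a * c * e) hr
    have e1 : ∑ b ∈ SB X, ∑ p ∈ SB X,
        F6₄ P X (fun a b _ => lo Z a * hi Z b) (fun p q a b => t q a b * jac b p) p q a b c e =
        (iI P q * (lo Z a * (wt2 a * wt2 c * wt2 e * jac a e))) * ∑ b ∈ SB X, ∑ p ∈ SB X,
          Ph₄ X (b * p * (q * a * c * e)) * ((hi Z b * (t q a b * (wt2 b * jac b c))) * iI P p * jac b p) := by
      rw [mul_sum]
      refine sum_congr rfl fun b _ => ?_
      rw [mul_sum]
      refine sum_congr rfl fun p _ => ?_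
      unfold F6₄
      rw [show a * b * c * e * (p * q) = b * p * (q * a * c * e) by ring]
      ring
    rw [e1, abs_mul]
    have h2 : |iI P q * (lo Z a * (wt2 a * wt2 c * wt2 e * (jac a e : ℝ)))| ≤ 1 :=
      abs_mul_le (iI_abs _ _) (abs_mul_le (lo_abs _ _)
        (abs_mul_le (abs_mul_le (abs_mul_le (wt2_abs _) (wt2_abs _)) (wt2_abs _)) (jac_abs _ _)))
    refine (mul_le_of_le_one_left (abs_nonneg _) h2).trans (h1.trans (le_of_eq ?_))
    rw [inv_four]

end Pool.Agent.Y699
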