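import Pool.Agent.Y699.Rgm
import Pool.Agent.Y699.R3

/-!
The remaining regimes (the class `13` modulo `16`).
-/

set_option autoImplicit false

open Finset

namespace Pool.Agent.Y699

open H385 (ZI RQ im1 nrm BX)
open H385.H10 (mem_BX nrm_pos Dv mem_Dv card_Dv)
open Pool.Agent.W164.RC (two2 prim_iff_dvd unit_norm unit_cases)
open Pool.Agent.H304R2.EC.A1 (prim prim_mul prim_cancel prim_one prim_norm_odd prim_star eq_one_of_prim
  norm_def' re_mul' im_mul' eq_of_dvd prim_ne_zero exists_prim)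

/-- the main estimate with two small variables -/
lemma two_small₄ {P X Z : ℕ} {lam : ℝ} (hlam : 0 ≤ lam) (h : HL P X Z lam) (hZ : 1 ≤ Z) {p q a b : ZI}
    (hp : PS p) (hq : PS q) (ha : PS a) (hb : PS b) {k : ℝ} (hk : |k| ≤ 1) :
    |(iI P p * iI P q * (lo Z a * lo Z b * n1 (a * b))) * k * ∑ c ∈ SB X, ∑ e ∈ SB X,
        Ph₄ X (c * e * (a * b * (p * q))) * (wt2 c * wt2 e * jac a e * jac b c)| ≤
      (1680 * Real.sqrt (2 * lg Z) * (X / Real.sqrt (lg X) * Real.sqrt lam)) *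
        (iI P p * (1 / nrm p) * (iI P q * (1 / nrm q) * (lo Z a * (1 / nrm a) * (lo Z b * (1 / nrm b))))) := by
  classical
  have hlX := lg_pos X
  have hr : prim (a * b * (p * q)) := prim_mul (prim_mul ha.prm hb.prm) (prim_mul hp.prm hq.prm)
  have hnn : 0 ≤ (1680 * Real.sqrt (2 * lg Z) * (X / Real.sqrt (lg X) * Real.sqrt lam)) *
        (iI P p * (1 / (nrm p : ℝ)) * (iI P q * (1 / nrm q) * (lo Z a * (1 / nrm a) * (lo Z b * (1 / nrm b))))) := by
    apply mul_nonneg (by positivity)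
    exact mul_nonneg (mul_nonneg (iI_nonneg P p) (by positivity)) (mul_nonneg
      (mul_nonneg (iI_nonneg P q) (by positivity)) (mul_nonneg (mul_nonneg (lo_nonneg Z a) (by positivity))
      (mul_nonneg (lo_nonneg Z b) (by positivity))))
  by_cases c1 : p ∈ IB kx P
  swap
  · have : iI P p = 0 := by unfold iI; rw [if_neg c1]
    rw [this]; simp
  by_cases c2 : q ∈ IB kx P
  swap
  · have : iI P q = 0 := by unfold iI; rw [if_neg c2]
    rw [this]; simp
  by_cases c3 : nrm a ≤ Z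
  swap
  · have : lo Z a = 0 := by unfold lo; rw [if_neg c3]
    rw [this]; simp
  by_cases c4 : nrm b ≤ Z
  swap
  · have : lo Z b = 0 := by unfold lo; rw [if_neg c4]
    rw [this]; simp
  have e1 : iI P p = 1 := by unfold iI; rw [if_pos c1]
  have e2 : iI P q = 1 := by unfold iI; rw [if_pos c2]
  have e3 : lo Z a = 1 := by unfold lo; rw [if_pos c3]
  have e4 : lo Z b = 1 := by unfold lo; rw [if_pos c4]
  by_cases c5 : a * b = 1
  · have : n1 (a * b) = 0 := by unfold n1; rw [if_pos c5]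
    rw [this]
    simp only [mul_zero, zero_mul, abs_zero]
    exact hnn
  have e5 : n1 (a * b) = 1 := by unfold n1; rw [if_neg c5]
  by_cases c6 : PS (a * b)
  swap
  · have hz : ∑ c ∈ SB X, ∑ e ∈ SB X, Ph₄ X (c * e * (a * b * (p * q))) *
        (wt2 c * wt2 e * (jac a e : ℝ) * jac b c) = 0 := by
      refine sum_eq_zero fun c hc => sum_eq_zero fun e he => ?_
      rw [mem_SB] at hc he
      have : Ph₄ X (c * e * (a * b * (p * q))) = 0 := by
        by_contra h0
        obtain ⟨h1, -, -⟩ := Ph_ne₄ h0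
        have h2 := ((PS.mul_iff (prim_mul hc.2.prm he.2.prm) hr).1 h1).2.1
        exact c6 ((PS.mul_iff (prim_mul ha.prm hb.prm) (prim_mul hp.prm hq.prm)).1 h2).1
      rw [this, zero_mul]
    rw [hz]
    simp only [mul_zero, abs_zero]
    exact hnn
  have h1 := hsw₄ c6 ha.prm hb.prm c5 hr (dvd_mul_right _ _) X
  have hnab : nrm (a * b) ≤ Z ^ 2 := by
    rw [nrm_mul, sq]
    exact Nat.mul_le_mul c3 c4
  have hlg : lg (nrm (a * b)) ≤ 2 * lg Z := (lg_mono hnab).trans (lg_sq Z)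
  have hsq : Real.sqrt (lg (nrm (a * b))) ≤ Real.sqrt (2 * lg Z) := Real.sqrt_le_sqrt hlg
  have hnr : nrm (a * b * (p * q)) ≤ Z ^ 3 * (P ^ kx) ^ 2 := by
    rw [nrm_mul, nrm_mul p q, sq]
    refine Nat.mul_le_mul ?_ (Nat.mul_le_mul (mem_IB.1 c1).1 (mem_IB.1 c2).1)
    exact hnab.trans (Nat.pow_le_pow_right hZ (by norm_num))
  have hTB := TB hlam h hr hnr
  have h0 : (0 : ℝ) ≤ ((X / nrm (a * b * (p * q)) : ℕ) : ℝ) / Real.sqrt (lg (X / nrm (a * b * (p * q)))) := by
    positivity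
  rw [e1, e2, e3, e4, e5, abs_mul, abs_mul]
  rw [show |(1 : ℝ) * 1 * (1 * 1 * 1)| = 1 by norm_num]
  simp only [one_mul]
  refine (mul_le_of_le_one_left (abs_nonneg _) hk).trans (h1.trans ?_)
  calc 1680 * Real.sqrt (lg (nrm (a * b))) * (((X / nrm (a * b * (p * q)) : ℕ) : ℝ) /
        Real.sqrt (lg (X / nrm (a * b * (p * q)))))
      ≤ 1680 * Real.sqrt (2 * lg Z) * ((X / Real.sqrt (lg X) * Real.sqrt lam) * (1 / nrm (a * b * (p * q)))) := by
        apply mul_le_mul _ hTB h0 (by positivity)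
        linarith
    _ = _ := by
        rw [nrm_mul, nrm_mul, nrm_mul]
        push_cast
        rw [one_div, mul_inv, mul_inv, mul_inv]
        ring

/-- third regime -/
theorem reg3₄ {P X Z : ℕ} {lam : ℝ} (hlam : 0 ≤ lam) (h : HL P X Z lam) (hZ : 1 ≤ Z) (hP : 3 ≤ P)
    {τ : ZI → ZI → ZI → ZI → ℝ} (ht : ∀ p q a b, |τ p q a b| ≤ 1) :
    |S6 (SB X) (F6₄ P X (fun a b _ => lo Z a * lo Z b * n1 (a * b)) τ)| ≤ EH X Z lam := by
  have hlX := lg_pos X
  have hb := S6_bound (s := SB X) (F := F6₄ P X (fun a b _ => lo Z a * lo Z b * n1 (a * b)) τ)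
    (K := 1680 * Real.sqrt (2 * lg Z) * (X / Real.sqrt (lg X) * Real.sqrt lam))
    (g1 := fun x => iI P x * (1 / nrm x)) (g2 := fun x => iI P x * (1 / nrm x))
    (g3 := fun x => lo Z x * (1 / nrm x)) (g4 := fun x => lo Z x * (1 / nrm x)) ?_
  · exact hb.trans ((four_bound' hP (by positivity)).trans (EH_bound X Z lam))
  · intro p hp q hq a ha b hb
    rw [mem_SB] at hp hq ha hb
    have h1 := two_small₄ hlam h hZ hp.2 hq.2 ha.2 hb.2 (k := τ p q a b * (wt2 a * wt2 b))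
      (abs_mul_le (ht _ _ _ _) (abs_mul_le (wt2_abs _) (wt2_abs _))) (X := X)
    refine le_trans (le_of_eq ?_) h1
    congr 1
    rw [mul_sum]
    refine sum_congr rfl fun c _ => ?_
    rw [mul_sum]
    refine sum_congr rfl fun e _ => ?_
    unfold F6₄
    rw [show a * b * c * e * (p * q) = c * e * (a * b * (p * q)) by ring]
    ring

/-- fourth regime -/
theorem reg4₄ {P X Z : ℕ} {lam : ℝ} (hlam : 0 ≤ lam) (h : HL P X Z lam) (hZ : 1 ≤ Z) (hP : 3 ≤ P)
    {t : ZI → ZI → ZI → ℝ} (ht : ∀ p q a, |t p q a| ≤ 1) :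
    |S6 (SB X) (F6₄ P X (fun a _ c => lo Z a * lo Z c * n1 (a * c)) (fun p q a _ => t p q a))| ≤
      EH X Z lam := by
  have hlX := lg_pos X
  rw [S6_B4]
  have hb := S6_bound (s := SB X) (F := fun x1 x2 x3 x4 x5 x6 =>
      F6₄ P X (fun a _ c => lo Z a * lo Z c * n1 (a * c)) (fun p q a _ => t p q a) x1 x2 x3 x5 x4 x6)
    (K := 1680 * Real.sqrt (2 * lg Z) * (X / Real.sqrt (lg X) * Real.sqrt lam))
    (g1 := fun x => iI P x * (1 / nrm x)) (g2 := fun x => iI P x * (1 / nrm x))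
    (g3 := fun x => lo Z x * (1 / nrm x)) (g4 := fun x => lo Z x * (1 / nrm x)) ?_
  · exact hb.trans ((four_bound' hP (by positivity)).trans (EH_bound X Z lam))
  · intro p hp q hq a ha c hc
    rw [mem_SB] at hp hq ha hc
    have h1 := two_small₄ hlam h hZ hp.2 hq.2 ha.2 hc.2 (k := t p q a * (wt2 a * wt2 c))
      (abs_mul_le (ht _ _ _) (abs_mul_le (wt2_abs _) (wt2_abs _))) (X := X)
    refine le_trans (le_of_eq ?_) h1
    congr 1
    rw [mul_sum]
    refine sum_congr rfl fun b hb => ?_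
    rw [mul_sum]
    refine sum_congr rfl fun e _ => ?_
    unfold F6₄
    rw [show a * b * c * e * (p * q) = b * e * (a * c * (p * q)) by ring,
      jac_rec (mem_SB.1 hb).2 hc.2]
    ring

/-- fifth regime -/
theorem reg5₄ {P X Z : ℕ} {lam : ℝ} (hlam : 0 ≤ lam) (h : HL P X Z lam) (hP : 3 ≤ P)
    {τ : ZI → ZI → ZI → ZI → ℝ} (ht : ∀ p q a b, |τ p q a b| ≤ 1) {κ : ZI → ZI → ZI → ℝ}
    (hκ : ∀ a b c, |κ a b c| ≤ 1) :
    |S6 (SB X) (F6₄ P X (fun a b c => lo Z a * lo Z b * lo Z c * κ a b c) τ)| ≤ EH X Z lam := by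
  classical
  have hlX := lg_pos X
  have hlZ := lg_pos Z
  have hb := S6_bound5 (s := SB X) (F := F6₄ P X (fun a b c => lo Z a * lo Z b * lo Z c * κ a b c) τ)
    (K := 126 * (X / Real.sqrt (lg X) * Real.sqrt lam))
    (g1 := fun x => iI P x * (1 / nrm x)) (g2 := fun x => iI P x * (1 / nrm x))
    (g3 := fun x => lo Z x * (1 / nrm x)) (g4 := fun x => lo Z x * (1 / nrm x))
    (g5 := fun x => lo Z x * (1 / nrm x)) ?_
  · refine hb.trans ?_
    have h6 := CI_pos
    have h7 : (∑ x ∈ SB X, iI P x * (1 / (nrm x : ℝ))) * ((∑ x ∈ SB X, iI P x * (1 / (nrm x : ℝ))) *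
      ((∑ x ∈ SB X, lo Z x * (1 / (nrm x : ℝ))) * ((∑ x ∈ SB X, lo Z x * (1 / (nrm x : ℝ))) *
        ∑ x ∈ SB X, lo Z x * (1 / (nrm x : ℝ))))) ≤ CI * (CI * ((18 * lg Z) * ((18 * lg Z) * (18 * lg Z)))) :=
      five_aux (sum_iI hP X) (sum_lo Z X) (sum_iI_nonneg P X) (sum_lo_nonneg Z X)
    refine (mul_le_mul_of_nonneg_left h7 (by positivity)).trans ?_
    unfold EH
    have h8 : 0 ≤ Real.sqrt lam * ((X : ℝ) * lg Z ^ 3 / Real.sqrt (lg X)) := by positivity
    have h9 : 0 ≤ CI ^ 2 := by positivity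
    calc 126 * (X / Real.sqrt (lg X) * Real.sqrt lam) * (CI * (CI * ((18 * lg Z) * ((18 * lg Z) * (18 * lg Z)))))
        = (126 * 18 ^ 3 * CI ^ 2) * (Real.sqrt lam * (X * lg Z ^ 3 / Real.sqrt (lg X))) := by ring
      _ ≤ (1680 * 2 * (18 : ℝ) ^ 3 * CI ^ 2) * (Real.sqrt lam * (X * lg Z ^ 3 / Real.sqrt (lg X))) := by
          apply mul_le_mul_of_nonneg_right _ h8
          nlinarith
      _ = _ := by ring
  · intro p hp q hq a ha b hb c hc
    rw [mem_SB] at hp hq ha hb hc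
    have hr : prim (a * b * c * (p * q)) :=
      prim_mul (prim_mul (prim_mul ha.2.prm hb.2.prm) hc.2.prm) (prim_mul hp.2.prm hq.2.prm)
    have hstep : |∑ e ∈ SB X, F6₄ P X (fun a b c => lo Z a * lo Z b * lo Z c * κ a b c) τ p q a b c e| ≤
        (iI P p * iI P q * (lo Z a * lo Z b * lo Z c)) * ∑ e ∈ SB X, Ph₄ X (e * (a * b * c * (p * q))) * wt2 e := by
      rw [mul_sum]
      refine (abs_sum_le_sum_abs _ _).trans (sum_le_sum fun e _ => ?_)
      unfold F6₄
      rw [show a * b * c * e * (p * q) = e * (a * b * c * (p * q)) by ring]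
      have hA : 0 ≤ iI P p * iI P q * (lo Z a * lo Z b * lo Z c) *
          (Ph₄ X (e * (a * b * c * (p * q))) * wt2 e) :=
        mul_nonneg (mul_nonneg (mul_nonneg (iI_nonneg P p) (iI_nonneg P q))
          (mul_nonneg (mul_nonneg (lo_nonneg Z a) (lo_nonneg Z b)) (lo_nonneg Z c)))
          (mul_nonneg (Ph_nonneg₄ X _) (wt2_nonneg e))
      have e1 : iI P p * iI P q * (Ph₄ X (e * (a * b * c * (p * q))) *
          ((lo Z a * lo Z b * lo Z c * κ a b c) * τ p q a b *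
            (wt2 a * wt2 b * wt2 c * wt2 e * ((jac a e : ℝ) * jac b c)))) =
          (iI P p * iI P q * (lo Z a * lo Z b * lo Z c) * (Ph₄ X (e * (a * b * c * (p * q))) * wt2 e)) *
          (κ a b c * τ p q a b * (wt2 a * wt2 b * wt2 c * ((jac a e : ℝ) * jac b c))) := by ring
      rw [e1, abs_mul, abs_of_nonneg hA]
      refine mul_le_of_le_one_right hA ?_
      exact abs_mul_le (abs_mul_le (hκ _ _ _) (ht _ _ _ _)) (abs_mul_le
        (abs_mul_le (abs_mul_le (wt2_abs _) (wt2_abs _)) (wt2_abs _)) (abs_mul_le (jac_abs _ _) (jac_abs _ _)))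
    refine hstep.trans ?_
    by_cases c1 : p ∈ IB kx P
    swap
    · have : iI P p = 0 := by unfold iI; rw [if_neg c1]
      rw [this]; simp
    by_cases c2 : q ∈ IB kx P
    swap
    · have : iI P q = 0 := by unfold iI; rw [if_neg c2]
      rw [this]; simp
    by_cases c3 : nrm a ≤ Z
    swap
    · have : lo Z a = 0 := by unfold lo; rw [if_neg c3]
      rw [this]; simp
    by_cases c4 : nrm b ≤ Z
    swap
    · have : lo Z b = 0 := by unfold lo; rw [if_neg c4]
      rw [this]; simp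
    by_cases c5 : nrm c ≤ Z
    swap
    · have : lo Z c = 0 := by unfold lo; rw [if_neg c5]
      rw [this]; simp
    have e1 : iI P p = 1 := by unfold iI; rw [if_pos c1]
    have e2 : iI P q = 1 := by unfold iI; rw [if_pos c2]
    have e3 : lo Z a = 1 := by unfold lo; rw [if_pos c3]
    have e4 : lo Z b = 1 := by unfold lo; rw [if_pos c4]
    have e5 : lo Z c = 1 := by unfold lo; rw [if_pos c5]
    have h1 := hsw0₄ hr X
    have hnr : nrm (a * b * c * (p * q)) ≤ Z ^ 3 * (P ^ kx) ^ 2 := by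
      rw [nrm_mul, nrm_mul, nrm_mul a b, nrm_mul p q, sq]
      refine Nat.mul_le_mul ?_ (Nat.mul_le_mul (mem_IB.1 c1).1 (mem_IB.1 c2).1)
      have : Z ^ 3 = Z * Z * Z := by ring
      rw [this]
      exact Nat.mul_le_mul (Nat.mul_le_mul c3 c4) c5
    have hTB := TB hlam h hr hnr
    rw [e1, e2, e3, e4, e5]
    norm_num
    refine h1.trans ?_
    refine (mul_le_mul_of_nonneg_left hTB (by norm_num)).trans (le_of_eq ?_)
    rw [nrm_mul, nrm_mul, nrm_mul, nrm_mul]
    push_cast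
    rw [one_div, mul_inv, mul_inv, mul_inv, mul_inv]
    ring

end Pool.Agent.Y699
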