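import Pool.Agent.Y699.Lin
import Pool.Agent.Y699.R5

/-!
Linear algebra over the field with two elements (the class `13` modulo `16`).
-/

set_option autoImplicit false

open Finset

namespace Pool.Agent.Y699

open H385 (ZI RQ im1 nrm BX)
open H385.H10 (mem_BX nrm_pos Dv mem_Dv card_Dv)
open Pool.Agent.W164.RC (two2 prim_iff_dvd unit_norm unit_cases)
open Pool.Agent.H304R2.EC.A1 (prim prim_mul prim_cancel prim_one prim_norm_odd prim_star eq_one_of_prim
  norm_def' re_mul' im_mul' eq_of_dvd prim_ne_zero exists_prim)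

/-- the structure of a bad element -/
lemma bad_struct₄ {m p q : ZI} (h : Cfg m p q) (h5 : (m * (p * q)).norm % 16 = 13) (hK : K1 m p q = 1)
    (hb : ¬ Good4 (m * (p * q))) : ∃ S ⊆ PD m,
      (∀ v ∈ PD m, Lz m (fun v => ep v p + ep v q) (zv S) v = ep v p) ∧
      qr p (q * ∏ u ∈ PD m \ S, u) = 1 := by
  classical
  have hm0 := h.pm.ne
  have hD0 := h.D.ne
  have key : ∀ d d' : ZI, prim d → prim d' → m * (p * q) = d * d' → (∀ π ∈ PD d, qr π d' = 1) →
      (∀ π ∈ PD d', qr π d = 1) → d ≠ 1 → ¬ q ∣ d → ∃ S ⊆ PD m,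
      (∀ v ∈ PD m, Lz m (fun v => ep v p + ep v q) (zv S) v = ep v p) ∧
      qr p (q * ∏ u ∈ PD m \ S, u) = 1 := by
    intro d d' hd hd' hdd hc hc' hd1 hqd
    have pd : PS d := h.D.of_dvd hd ⟨d', hdd⟩
    have pd' : PS d' := h.D.of_dvd hd' ⟨d, by rw [hdd]; ring⟩
    have hd0 := pd.ne
    have hd0' := pd'.ne
    have hpartm : ∀ π, PP π → π ∣ m * (p * q) → π ∈ PD m ∨ π = p ∨ π = q := by
      intro π hπ hdv
      rcases hπ.pr.dvd_or_dvd hdv with h1 | h1
      · exact Or.inl ((mem_PD hm0).2 ⟨hπ, h1⟩)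
      · rcases hπ.pr.dvd_or_dvd h1 with h2 | h2
        · exact Or.inr (Or.inl (hπ.eq_of_dvd h.hp h2))
        · exact Or.inr (Or.inr (hπ.eq_of_dvd h.hq h2))
    set S := (PD d).erase p with hS
    have hSm : S ⊆ PD m := by
      intro π hπ
      rw [hS, mem_erase, mem_PD hd0] at hπ
      rcases hpartm π hπ.2.1 (hπ.2.2.trans ⟨d', hdd⟩) with h1 | h1 | h1
      · exact h1
      · exact absurd h1 hπ.1
      · exact absurd (by rw [← h1]; exact hπ.2.2) hqd
    have hm1 : (∏ u ∈ S, u) * (∏ u ∈ PD m \ S, u) = m := by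
      rw [mul_comm, prod_sdiff hSm]
      exact h.pm.prod
    have hout : ∀ π ∈ PD m \ S, π ∈ PD d' := by
      intro π hπ
      rw [mem_sdiff, mem_PD hm0] at hπ
      have h1 : π ∣ d * d' := by rw [← hdd]; exact hπ.1.2.mul_right _
      rcases hπ.1.1.pr.dvd_or_dvd h1 with h2 | h2
      · exfalso
        apply hπ.2
        rw [hS, mem_erase, mem_PD hd0]
        refine ⟨?_, hπ.1.1, h2⟩
        rintro rfl
        exact (h.nd ((mem_PD hm0).2 hπ.1)).1 dvd_rfl
      · exact (mem_PD hd0').2 ⟨hπ.1.1, h2⟩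
    have hqd' : q ∈ PD d' := by
      have h1 : q ∣ d * d' := by rw [← hdd]; exact (dvd_mul_left _ _).mul_left _
      rcases h.hq.pr.dvd_or_dvd h1 with h2 | h2
      · exact absurd h2 hqd
      · exact (mem_PD hd0').2 ⟨h.hq, h2⟩
    by_cases hpd : p ∈ PD d
    · -- the structure
      have hdS : d = p * ∏ u ∈ S, u := by
        rw [hS, mul_prod_erase (PD d) (fun u => u) hpd]
        exact pd.prod.symm
      have hdS' : d' = q * ∏ u ∈ PD m \ S, u := by
        have h1 : d * d' = d * (q * ∏ u ∈ PD m \ S, u) := by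
          rw [← hdd]
          conv_lhs => rw [← hm1]
          rw [hdS]
          ring
        exact mul_left_cancel₀ hd0 h1
      refine ⟨S, hSm, ?_, ?_⟩
      · intro v hv
        have hvP := ((mem_PD hm0).1 hv).1
        obtain ⟨n1, n2⟩ := h.nd hv
        apply sg_inj
        rw [← qr_ep n1]
        by_cases hvS : v ∈ S
        · rw [← qr_in h hv hvS]
          have h1 := hc v (mem_of_mem_erase hvS)
          rw [hdS', qr_mul hvP] at h1
          rw [qr_mul hvP, qr_mul hvP]
          calc qr v (∏ u ∈ PD m \ S, u) * (qr v p * qr v q) =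
                (qr v q * qr v (∏ u ∈ PD m \ S, u)) * qr v p := by ring
            _ = qr v p := by rw [h1, one_mul]
        · rw [← qr_out h hSm hv hvS]
          have h1 := hc' v (hout v (mem_sdiff.2 ⟨hv, hvS⟩))
          rw [hdS, qr_mul hvP] at h1
          have h2 := qr_sq n1
          calc qr v (∏ u ∈ S, u) = (qr v p * qr v p) * qr v (∏ u ∈ S, u) := by rw [h2, one_mul]
            _ = qr v p * (qr v p * qr v (∏ u ∈ S, u)) := by ring
            _ = qr v p := by rw [h1, mul_one]
      · rw [← hdS']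
        exact hc p hpd
    · -- contradiction
      exfalso
      have hSd : S = PD d := by rw [hS, erase_eq_of_notMem hpd]
      have hdS : d = ∏ u ∈ S, u := by rw [hSd]; exact pd.prod.symm
      have hdS' : d' = (∏ u ∈ PD m \ S, u) * (p * q) := by
        have h1 : d * d' = d * ((∏ u ∈ PD m \ S, u) * (p * q)) := by
          rw [← hdd]
          conv_lhs => rw [← hm1]
          rw [hdS]
          ring
        exact mul_left_cancel₀ hd0 h1
      have hpd' : p ∈ PD d' := by
        rw [mem_PD hd0']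
        refine ⟨h.hp, ?_⟩
        rw [hdS']
        exact (dvd_mul_right _ _).mul_left _
      have hCond : Cond m p q S := by
        refine ⟨?_, ?_, ?_, ?_⟩
        · intro π hπ
          rw [← hdS']
          exact hc π (by rw [← hSd]; exact hπ)
        · intro π hπ
          rw [← hdS]
          exact hc' π (hout π hπ)
        · rw [← hdS]; exact hc' p hpd'
        · rw [← hdS]; exact hc' q hqd'
      have := eq_empty_of_K1 h hK hSm hCond
      rw [this, prod_empty] at hdS
      exact hd1 hdS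
  by_contra hno
  apply hb
  refine ⟨h.D, h5, ?_⟩
  intro d d' hd hd' hdd hc hc'
  by_contra h1
  push Not at h1
  by_cases hqd : q ∣ d
  · have hqd' : ¬ q ∣ d' := by
      intro h2
      have h3 : q * q ∣ m * (p * q) := by rw [hdd]; exact mul_dvd_mul hqd h2
      exact h.hq.pr.not_isUnit (h.D.sqf q h3)
    exact hno (key d' d hd' hd (by rw [hdd]; ring) hc' hc h1.2 hqd')
  · exact hno (key d d' hd hd' hdd hc hc' h1.1 hqd)

/-- **bad elements in a class have the same sign** -/
theorem bad_sign₄ {m p q p' q' : ZI} (h : Cfg m p q) (h' : Cfg m p' q')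
    (h5 : (m * (p * q)).norm % 16 = 13) (h5' : (m * (p' * q')).norm % 16 = 13)
    (cl : ∀ v ∈ PD m, qr v p = qr v p' ∧ qr v q = qr v q') (hK : K1 m p q = 1) (hK' : K1 m p' q' = 1)
    (hb : ¬ Good4 (m * (p * q))) (hb' : ¬ Good4 (m * (p' * q'))) : jac p q = jac p' q' := by
  classical
  have hm0 := h.pm.ne
  obtain ⟨S, hS, h1, h2⟩ := bad_struct₄ h h5 hK hb
  obtain ⟨S', hS', h1', h2'⟩ := bad_struct₄ h' h5' hK' hb'
  have cle : ∀ v ∈ PD m, ep v p = ep v p' ∧ ep v q = ep v q' := by
    intro v hv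
    obtain ⟨c1, c2⟩ := cl v hv
    unfold ep
    rw [c1, c2]
    exact ⟨rfl, rfl⟩
  have hLz : ∀ z, ∀ v ∈ PD m, Lz m (fun v => ep v p' + ep v q') z v = Lz m (fun v => ep v p + ep v q) z v := by
    intro z v hv
    unfold Lz
    beta_reduce
    rw [(cle v hv).1, (cle v hv).2]
  have h3 : ∀ v ∈ PD m, Lz m (fun v => ep v p + ep v q) (zv S') v = ep v p := by
    intro v hv
    rw [← hLz _ v hv, h1' v hv, (cle v hv).1]
  set U := (S \ S') ∪ (S' \ S) with hU
  have hUm : U ⊆ PD m := by
    intro v hv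
    rw [hU, mem_union, mem_sdiff, mem_sdiff] at hv
    rcases hv with hv | hv
    · exact hS hv.1
    · exact hS' hv.1
  have hz : zv U = fun u => zv S u + zv S' u := by
    funext u
    unfold zv
    have hmem : u ∈ U ↔ (u ∈ S ∧ u ∉ S') ∨ (u ∈ S' ∧ u ∉ S) := by
      rw [hU, mem_union, mem_sdiff, mem_sdiff]
    have e : (0 : ZMod 2) = 1 + 1 := by decide
    by_cases a1 : u ∈ S
    · by_cases a2 : u ∈ S'
      · have a3 : u ∉ U := fun h => by
          rcases hmem.1 h with h4 | h4
          · exact h4.2 a2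
          · exact h4.2 a1
        rw [if_neg a3, if_pos a1, if_pos a2]
        exact e
      · have a3 : u ∈ U := hmem.2 (Or.inl ⟨a1, a2⟩)
        rw [if_pos a3, if_pos a1, if_neg a2, add_zero]
    · by_cases a2 : u ∈ S'
      · have a3 : u ∈ U := hmem.2 (Or.inr ⟨a2, a1⟩)
        rw [if_pos a3, if_neg a1, if_pos a2, zero_add]
      · have a3 : u ∉ U := fun h => by
          rcases hmem.1 h with h4 | h4
          · exact a1 h4.1
          · exact a2 h4.1
        rw [if_neg a3, if_neg a1, if_neg a2, add_zero]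
  have hker : ∀ v ∈ PD m, Lz m (fun v => ep v p + ep v q) (zv U) v = 0 := by
    intro v hv
    rw [hz, Lz_add, h1 v hv, h3 v hv]
    have : ∀ x : ZMod 2, x + x = 0 := by decide
    exact this _
  have hx : ∑ u ∈ U, ep u p = 0 := by
    have e1 := Lz_symm hm0 (fun v => ep v p + ep v q) (zv U) (zv S)
    have e2 : ∑ v ∈ PD m, Lz m (fun v => ep v p + ep v q) (zv U) v * zv S v = 0 :=
      sum_eq_zero fun v hv => by rw [hker v hv, zero_mul]
    rw [e2, sum_congr rfl (fun v hv => by rw [h1 v hv])] at e1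
    have e3 : ∑ v ∈ PD m, ep v p * zv U v = ∑ v ∈ U, ep v p := by
      rw [← sum_sdiff hUm]
      have e4 : ∑ v ∈ PD m \ U, ep v p * zv U v = 0 := by
        refine sum_eq_zero fun u hu => ?_
        have hz' : zv U u = 0 := by unfold zv; rw [if_neg (mem_sdiff.1 hu).2]
        rw [hz', mul_zero]
      rw [e4, zero_add]
      refine sum_congr rfl fun u hu => ?_
      have hz' : zv U u = 1 := by unfold zv; rw [if_pos hu]
      rw [hz', mul_one]
    rw [← e3]
    exact e1.symm
  have hUe := ker_prop h hK hUm hker hx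
  have hSS : S = S' := by
    ext u
    have : u ∉ U := by rw [hUe]; exact notMem_empty _
    rw [hU, mem_union, mem_sdiff, mem_sdiff] at this
    tauto
  rw [← hSS] at h2'
  have hsub : PD m \ S ⊆ PD m := sdiff_subset
  have e1 : qr p (∏ u ∈ PD m \ S, u) = qr p' (∏ u ∈ PD m \ S, u) := by
    rw [qr_p hm0 h.hp hsub (fun v hv => (h.nd hv).1), qr_p hm0 h'.hp hsub (fun v hv => (h'.nd hv).1)]
    congr 1
    exact sum_congr rfl fun u hu => (cle u (hsub hu)).1
  rw [qr_mul h.hp] at h2
  rw [qr_mul h'.hp, ← e1] at h2'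
  rw [jac_prime h.hp, jac_prime h'.hp]
  have e2 : qr p (∏ u ∈ PD m \ S, u) ≠ 0 := right_ne_zero_of_mul (by rw [h2]; norm_num)
  exact mul_right_cancel₀ e2 (h2.trans h2'.symm)

end Pool.Agent.Y699
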