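import Pool.Agent.Y699.Eqd
import Pool.Agent.Y699.R7

/-!
Equidistribution of the last symbol (the class `13` modulo `16`).
-/

set_option autoImplicit false

open Finset

namespace Pool.Agent.Y699

open H385 (ZI RQ im1 nrm BX)
open H385.H10 (mem_BX nrm_pos Dv mem_Dv card_Dv)
open Pool.Agent.W164.RC (two2 prim_iff_dvd unit_norm unit_cases)
open Pool.Agent.H304R2.EC.A1 (prim prim_mul prim_cancel prim_one prim_norm_odd prim_star eq_one_of_prim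
  norm_def' re_mul' im_mul' eq_of_dvd prim_ne_zero exists_prim)

/-- the bound for one `m` -/
lemma eqd_one₄ : ∃ C : ℝ, 1 ≤ C ∧ ∀ P X : ℕ, 1 ≤ P → ∀ h : ZI → Finset ZI → Finset ZI → ℝ,
    (∀ m S S', |h m S S'| ≤ 1) → ∀ m ∈ SB X,
    |∑ p ∈ SB X, ∑ q ∈ SB X, iI P p * iI P q * (Ph₄ X (m * (p * q)) * (h m (cl m p) (cl m q) * jac p q))| ≤
      (((PD m).powerset.card : ℝ)) ^ 2 * (C * ((X : ℝ) / nrm m * lg X) * (P : ℝ) ^ (-(1 / 96) : ℝ)) := by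
  classical
  obtain ⟨C, hC1, hC⟩ := blw₄
  refine ⟨C, hC1, ?_⟩
  intro P X hP h hh m hm
  rw [mem_SB] at hm
  have e1 : ∀ p q, h m (cl m p) (cl m q) = ∑ S ∈ (PD m).powerset, ∑ S' ∈ (PD m).powerset,
      h m S S' * ((if cl m p = S then 1 else 0) * (if cl m q = S' then 1 else 0)) := by
    intro p q
    rw [sum_eq_single_of_mem (cl m p) (cl_sub m p), sum_eq_single_of_mem (cl m q) (cl_sub m q)]
    · simp
    · intro S' _ hS'
      rw [if_neg (Ne.symm hS')]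
      ring
    · intro S _ hS
      refine sum_eq_zero fun S' _ => ?_
      rw [if_neg (Ne.symm hS)]
      ring
  have e2 : ∑ p ∈ SB X, ∑ q ∈ SB X, iI P p * iI P q * (Ph₄ X (m * (p * q)) * (h m (cl m p) (cl m q) * jac p q)) =
      ∑ S ∈ (PD m).powerset, ∑ S' ∈ (PD m).powerset, h m S S' * ∑ p ∈ SB X, ∑ q ∈ SB X,
        Ph₄ X (p * q * m) * ((iI P p * (if cl m p = S then 1 else 0)) * (iI P q * (if cl m q = S' then 1 else 0)) * jac p q) := by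
    have e3 : ∀ p ∈ SB X, ∀ q ∈ SB X,
        iI P p * iI P q * (Ph₄ X (m * (p * q)) * (h m (cl m p) (cl m q) * (jac p q : ℝ))) =
        ∑ S ∈ (PD m).powerset, ∑ S' ∈ (PD m).powerset, h m S S' *
        (Ph₄ X (p * q * m) * ((iI P p * (if cl m p = S then 1 else 0)) * (iI P q * (if cl m q = S' then 1 else 0)) * jac p q)) := by
      intro p _ q _
      rw [e1 p q, sum_mul, mul_sum, mul_sum]
      refine sum_congr rfl fun S _ => ?_
      rw [sum_mul, mul_sum, mul_sum]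
      refine sum_congr rfl fun S' _ => ?_
      rw [mul_comm m (p * q)]
      ring
    rw [sum_congr rfl (fun p hp => sum_congr rfl (fun q hq => e3 p hp q hq)), sum4_comm]
    refine sum_congr rfl fun S _ => sum_congr rfl fun S' _ => ?_
    rw [mul_sum]
    refine sum_congr rfl fun p _ => ?_
    rw [mul_sum]
  rw [e2]
  refine (abs_sum_le_sum_abs _ _).trans ?_
  have e4 : ∀ S ∈ (PD m).powerset, |∑ S' ∈ (PD m).powerset, h m S S' * ∑ p ∈ SB X, ∑ q ∈ SB X,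
        Ph₄ X (p * q * m) * ((iI P p * (if cl m p = S then 1 else 0)) * (iI P q * (if cl m q = S' then 1 else 0)) * (jac p q : ℝ))| ≤
      ((PD m).powerset.card : ℝ) * (C * ((X : ℝ) / nrm m * lg X) * (P : ℝ) ^ (-(1 / 96) : ℝ)) := by
    intro S _
    refine (abs_sum_le_sum_abs _ _).trans ?_
    have e5 : ∀ S' ∈ (PD m).powerset, |h m S S' * ∑ p ∈ SB X, ∑ q ∈ SB X,
        Ph₄ X (p * q * m) * ((iI P p * (if cl m p = S then 1 else 0)) * (iI P q * (if cl m q = S' then 1 else 0)) * (jac p q : ℝ))| ≤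
        C * ((X : ℝ) / nrm m * lg X) * (P : ℝ) ^ (-(1 / 96) : ℝ) := by
      intro S' _
      rw [abs_mul]
      refine (mul_le_of_le_one_left (abs_nonneg _) (hh m S S')).trans ?_
      have i1 : ∀ (T : Finset ZI) (x : ZI), |(if cl m x = T then (1 : ℝ) else 0)| ≤ 1 := by
        intro T x
        split_ifs <;> simp
      exact hC (fun p => iI P p * (if cl m p = S then 1 else 0)) (fun q => iI P q * (if cl m q = S' then 1 else 0))
        (fun x => abs_mul_le (iI_abs _ _) (i1 _ _)) (fun x => abs_mul_le (iI_abs _ _) (i1 _ _)) P X hP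
        (fun x hx => by rw [iI_zero le_rfl hx, zero_mul]) (fun x hx => by rw [iI_zero le_rfl hx, zero_mul])
        m hm.2.prm
    refine (sum_le_sum e5).trans (le_of_eq ?_)
    rw [sum_const, nsmul_eq_mul]
  refine (sum_le_sum e4).trans (le_of_eq ?_)
  rw [sum_const, nsmul_eq_mul]
  ring

/-- **equidistribution** -/
theorem eqd₄ : ∃ C : ℝ, 1 ≤ C ∧ ∀ P X : ℕ, 3 ≤ P → X ≤ (2 * P) ^ (3 * kx) →
    ∀ h : ZI → Finset ZI → Finset ZI → ℝ, (∀ m S S', |h m S S'| ≤ 1) →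
    |∑ p ∈ SB X, ∑ q ∈ SB X, iI P p * iI P q * ∑ m ∈ SB X,
      Ph₄ X (m * (p * q)) * (h m (cl m p) (cl m q) * jac p q)| ≤ C * X * (P : ℝ) ^ (-(1 / 400) : ℝ) := by
  classical
  obtain ⟨C, hC1, hC⟩ := eqd_one₄
  have hk : (0 : ℝ) < kx := by exact_mod_cast kx_pos
  obtain ⟨C1, hC11, hC1'⟩ := card_cl (ε := 1 / (600 * kx)) (by positivity)
  refine ⟨C1 * C * 18 * (6 * kx * 2001) ^ 2 * 2 + 1, ?_, ?_⟩
  · have : 0 ≤ C1 * C * 18 * (6 * kx * 2001) ^ 2 * 2 := by positivity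
    linarith
  intro P X hP hX h hh
  have hP1 : 1 ≤ P := by omega
  have Pr : (1 : ℝ) ≤ P := by exact_mod_cast hP1
  have P0 : (0 : ℝ) < P := by linarith
  have hlX := lg_pos X
  have e1 : ∑ p ∈ SB X, ∑ q ∈ SB X, iI P p * iI P q * ∑ m ∈ SB X,
      Ph₄ X (m * (p * q)) * (h m (cl m p) (cl m q) * (jac p q : ℝ)) =
      ∑ m ∈ SB X, ∑ p ∈ SB X, ∑ q ∈ SB X, iI P p * iI P q *
        (Ph₄ X (m * (p * q)) * (h m (cl m p) (cl m q) * jac p q)) := by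
    have e2 : ∀ p ∈ SB X, ∀ q ∈ SB X, iI P p * iI P q * ∑ m ∈ SB X,
        Ph₄ X (m * (p * q)) * (h m (cl m p) (cl m q) * (jac p q : ℝ)) =
        ∑ m ∈ SB X, iI P p * iI P q * (Ph₄ X (m * (p * q)) * (h m (cl m p) (cl m q) * jac p q)) :=
      fun p _ q _ => mul_sum _ _ _
    rw [sum_congr rfl (fun p hp => sum_congr rfl (fun q hq => e2 p hp q hq))]
    rw [sum_congr rfl (fun p _ => sum_comm), sum_comm]
  rw [e1]
  refine (abs_sum_le_sum_abs _ _).trans ?_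
  have e3 : ∀ m ∈ SB X, |∑ p ∈ SB X, ∑ q ∈ SB X, iI P p * iI P q *
        (Ph₄ X (m * (p * q)) * (h m (cl m p) (cl m q) * (jac p q : ℝ)))| ≤
      (C1 * (X : ℝ) ^ (1 / (600 * kx) : ℝ) * (C * (X * lg X) * (P : ℝ) ^ (-(1 / 96) : ℝ))) * (1 / nrm m) := by
    intro m hm
    refine (hC P X hP1 h hh m hm).trans ?_
    rw [mem_SB] at hm
    have h1 := hC1' m hm.2
    have hn0 : (0 : ℝ) < nrm m := by exact_mod_cast nrm_pos' hm.2.ne
    have h2 : (nrm m : ℝ) ^ (1 / (600 * kx) : ℝ) ≤ (X : ℝ) ^ (1 / (600 * kx) : ℝ) :=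
      Real.rpow_le_rpow hn0.le (by exact_mod_cast hm.1) (by positivity)
    have h3 : (((PD m).powerset.card : ℝ)) ^ 2 ≤ C1 * (X : ℝ) ^ (1 / (600 * kx) : ℝ) :=
      h1.trans (mul_le_mul_of_nonneg_left h2 (by linarith))
    have h4 : (0 : ℝ) ≤ C * ((X : ℝ) / nrm m * lg X) * (P : ℝ) ^ (-(1 / 96) : ℝ) := by positivity
    refine (mul_le_mul_of_nonneg_right h3 h4).trans (le_of_eq ?_)
    ring
  refine (sum_le_sum e3).trans ?_
  rw [← mul_sum]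
  have e4 := hsum_SB X
  have hXr : (0 : ℝ) ≤ X := Nat.cast_nonneg X
  have h5 : 0 ≤ C1 * (X : ℝ) ^ (1 / (600 * kx) : ℝ) * (C * (X * lg X) * (P : ℝ) ^ (-(1 / 96) : ℝ)) := by
    positivity
  refine (mul_le_mul_of_nonneg_left e4 h5).trans ?_
  -- the powers
  have p1 : (X : ℝ) ^ (1 / (600 * kx) : ℝ) ≤ 2 * (P : ℝ) ^ (1 / 200 : ℝ) := by
    have q1 : (X : ℝ) ≤ ((2 * P : ℝ)) ^ (3 * kx : ℕ) := by exact_mod_cast hX
    have q2 : (X : ℝ) ^ (1 / (600 * kx) : ℝ) ≤ (((2 * P : ℝ)) ^ (3 * kx : ℕ)) ^ (1 / (600 * kx) : ℝ) :=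
      Real.rpow_le_rpow hXr q1 (by positivity)
    have q3 : (((2 * P : ℝ)) ^ (3 * kx : ℕ)) ^ (1 / (600 * kx) : ℝ) = (2 * P : ℝ) ^ (1 / 200 : ℝ) := by
      rw [← Real.rpow_natCast, ← Real.rpow_mul (by positivity)]
      congr 1
      push_cast
      field_simp
      norm_num
    rw [q3, Real.mul_rpow (by norm_num) P0.le] at q2
    refine q2.trans ?_
    apply mul_le_mul_of_nonneg_right _ (by positivity)
    calc (2 : ℝ) ^ (1 / 200 : ℝ) ≤ (2 : ℝ) ^ (1 : ℝ) := Real.rpow_le_rpow_of_exponent_le (by norm_num) (by norm_num)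
      _ = 2 := Real.rpow_one _
  have p2 : lg X ≤ 6 * kx * 2001 * (P : ℝ) ^ (1 / 1000 : ℝ) := by
    have q1 := lg_X hP1 hX
    have q2 := lg_le_rpow (show (0 : ℝ) < 1 / 1000 by norm_num) P hP1
    have q3 : (1 + 2 / (1 / 1000 : ℝ)) = 2001 := by norm_num
    rw [q3] at q2
    calc lg X ≤ 6 * kx * lg P := q1
      _ ≤ 6 * kx * (2001 * (P : ℝ) ^ (1 / 1000 : ℝ)) := mul_le_mul_of_nonneg_left q2 (by positivity)
      _ = _ := by ring
  have p3 : lg X * lg X ≤ (6 * kx * 2001) ^ 2 * (P : ℝ) ^ (1 / 500 : ℝ) := by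
    have q1 := mul_le_mul p2 p2 hlX.le (by positivity)
    refine q1.trans (le_of_eq ?_)
    have q2 : (P : ℝ) ^ (1 / 500 : ℝ) = (P : ℝ) ^ (1 / 1000 : ℝ) * (P : ℝ) ^ (1 / 1000 : ℝ) := by
      rw [← Real.rpow_add P0]
      norm_num
    rw [q2]
    ring
  have p4 : (P : ℝ) ^ (1 / 200 : ℝ) * (P : ℝ) ^ (1 / 500 : ℝ) * (P : ℝ) ^ (-(1 / 96) : ℝ) ≤
      (P : ℝ) ^ (-(1 / 400) : ℝ) := by
    rw [← Real.rpow_add P0, ← Real.rpow_add P0]
    exact Real.rpow_le_rpow_of_exponent_le Pr (by norm_num)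
  have hp96 : (0 : ℝ) ≤ (P : ℝ) ^ (-(1 / 96) : ℝ) := by positivity
  have hp200 : (0 : ℝ) ≤ (P : ℝ) ^ (1 / 200 : ℝ) := by positivity
  have hp500 : (0 : ℝ) ≤ (P : ℝ) ^ (1 / 500 : ℝ) := by positivity
  have hp400 : (0 : ℝ) ≤ (P : ℝ) ^ (-(1 / 400) : ℝ) := by positivity
  have hXe : (0 : ℝ) ≤ (X : ℝ) ^ (1 / (600 * kx) : ℝ) := by positivity
  calc C1 * (X : ℝ) ^ (1 / (600 * kx) : ℝ) * (C * (X * lg X) * (P : ℝ) ^ (-(1 / 96) : ℝ)) * (18 * lg X)
      = (C1 * C * 18 * X * (P : ℝ) ^ (-(1 / 96) : ℝ)) * ((X : ℝ) ^ (1 / (600 * kx) : ℝ) * (lg X * lg X)) := by ring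
    _ ≤ (C1 * C * 18 * X * (P : ℝ) ^ (-(1 / 96) : ℝ)) *
        ((2 * (P : ℝ) ^ (1 / 200 : ℝ)) * ((6 * kx * 2001) ^ 2 * (P : ℝ) ^ (1 / 500 : ℝ))) := by
        apply mul_le_mul_of_nonneg_left _ (by positivity)
        exact mul_le_mul p1 p3 (by positivity) (by positivity)
    _ = (C1 * C * 18 * (6 * kx * 2001) ^ 2 * 2) * X *
        ((P : ℝ) ^ (1 / 200 : ℝ) * (P : ℝ) ^ (1 / 500 : ℝ) * (P : ℝ) ^ (-(1 / 96) : ℝ)) := by ring
    _ ≤ (C1 * C * 18 * (6 * kx * 2001) ^ 2 * 2) * X * (P : ℝ) ^ (-(1 / 400) : ℝ) :=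
        mul_le_mul_of_nonneg_left p4 (by positivity)
    _ ≤ _ := by
        apply mul_le_mul_of_nonneg_right _ hp400
        apply mul_le_mul_of_nonneg_right _ hXr
        linarith

end Pool.Agent.Y699
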