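import Pool.Agent.Y699.Pos
import Pool.Agent.Y699.R9

/-!
The final asymptotic statement (the class `13` modulo `16`).
-/

set_option autoImplicit false

open Finset Filter Topology

namespace Pool.Agent.Y699

open H385 (ZI RQ im1 nrm BX)
open H385.H10 (mem_BX nrm_pos Dv mem_Dv card_Dv)
open Pool.Agent.W164.RC (two2 prim_iff_dvd unit_norm unit_cases)
open Pool.Agent.H304R2.EC.A1 (prim prim_mul prim_cancel prim_one prim_norm_odd prim_star eq_one_of_prim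
  norm_def' re_mul' im_mul' eq_of_dvd prim_ne_zero exists_prim)

/-- **a positive₄ proportion of good elements** -/
theorem positive₄ : ∃ c : ℝ, 0 < c ∧ ∃ X0 : ℕ, ∀ X : ℕ, X0 ≤ X → c * X ≤ ((GB₄ X).card : ℝ) := by
  obtain ⟨C, hC1, hC⟩ := good_triples₄
  obtain ⟨P1, hP1⟩ := TT_lo₄
  have hk : (0 : ℝ) < kx := by exact_mod_cast kx_pos
  set η : ℝ := 1 / (10240 * kx ^ 2) with hη
  have hη0 : 0 < η := by positivity
  obtain ⟨N1, hN1⟩ := small_pow (A := C + (1680 * 2 * (18 : ℝ) ^ 3 * CI ^ 2) * Real.sqrt (6 * kx) * 14400 ^ 3)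
    (η := η) (a := 1 / 4) hη0 (by norm_num)
  obtain ⟨N2, hN2⟩ := small_pow (A := C) (η := η) (a := 1 / 400) hη0 (by norm_num)
  obtain ⟨N3, hN3⟩ := exists_nat_ge ((6 * kx * 2305 : ℝ) ^ 1152)
  refine ⟨1 / (5120 * kx ^ 2) / (6 * kx) ^ 2, by positivity,
    max ((max (max P1 N2) (max N3 3) + 1) ^ (3 * kx)) (2 ^ N1), ?_⟩
  intro X hX
  have hXa : (max (max P1 N2) (max N3 3) + 1) ^ (3 * kx) ≤ X := (le_max_left _ _).trans hX
  have hXb : 2 ^ N1 ≤ X := (le_max_right _ _).trans hX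
  have hX1 : 1 ≤ X := Nat.one_le_two_pow.trans hXb
  have hk3 : 1 ≤ 3 * kx := by have := kx_pos; omega
  obtain ⟨P, hP, hPX, hXP⟩ := exists_root hk3 hX1
  have hPbig : max (max P1 N2) (max N3 3) < P := by
    have h1 := lt_of_pow_lt_pow_left₀ _ (Nat.zero_le _) (hXa.trans_lt hXP)
    omega
  have b1 : P1 ≤ P := ((le_max_left _ _).trans (le_max_left _ _)).trans hPbig.le
  have b2 : N2 ≤ P := ((le_max_right _ _).trans (le_max_left _ _)).trans hPbig.le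
  have b3 : N3 ≤ P := ((le_max_left _ _).trans (le_max_right _ _)).trans hPbig.le
  have b4 : 3 ≤ P := ((le_max_right _ _).trans (le_max_right _ _)).trans hPbig.le
  have hX2 : X ≤ (2 * P) ^ (3 * kx) := by
    refine hXP.le.trans (Nat.pow_le_pow_left (by omega) _)
  obtain ⟨ℓ, hℓ⟩ : ∃ ℓ, ℓ = Nat.log 2 X + 1 := ⟨_, rfl⟩
  have hℓ1 : N1 ≤ ℓ := by
    have : N1 ≤ Nat.log 2 X := (Nat.le_log_iff_pow_le (by norm_num) (by omega)).2 hXb
    omega
  have hZP : ℓ ^ 576 ≤ P := by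
    refine Z_le hP hX2 hℓ (hN3.trans ?_)
    exact_mod_cast b3
  have hZ1 : 1 ≤ ℓ ^ 576 := Nat.one_le_pow _ _ (by omega)
  have h1 := hC P X (ℓ ^ 576) b4 hPX hX2 hZ1 hZP
  have h2 := err_bound (C := C) (by linarith) hℓ rfl
  have h3 := hN1 ℓ hℓ1
  have h4 := hN2 P b2
  have h5 := hP1 P b1 X hPX
  have h6 := TS_GB₄ (by omega) hX2
  have hX0 : (0 : ℝ) ≤ X := Nat.cast_nonneg X
  have h7 := mul_le_mul_of_nonneg_right h3 hX0
  have h8 := mul_le_mul_of_nonneg_right h4 hX0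
  have h9 : C * X * (P : ℝ) ^ (-(1 / 400) : ℝ) = C * (P : ℝ) ^ (-(1 / 400) : ℝ) * X := by ring
  rw [h9] at h1
  have h10 : (X : ℝ) / (5120 * kx ^ 2) ≤ TS₄ P X (fun m p q => gd₄ (m * (p * q))) := by
    have e1 : (X : ℝ) / (5120 * kx ^ 2) = 1 / 4 * ((X : ℝ) / (640 * kx ^ 2)) - η * X - η * X := by
      rw [hη]
      field_simp
      ring
    rw [e1]
    linarith
  have h11 := h10.trans h6
  have e2 : 1 / (5120 * (kx : ℝ) ^ 2) / (6 * kx) ^ 2 * X = (X : ℝ) / (5120 * kx ^ 2) / (6 * kx) ^ 2 := by ring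
  rw [e2, div_le_iff₀ (by positivity)]
  linarith

end Pool.Agent.Y699
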