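import Pool.Agent.Y699.Tq

/-!
Regularized sums over the Gaussian integers.
-/

set_option autoImplicit false

open Filter Complex
open scoped Topology PeriodPair
open H667R3 hiding sq
open Pool.Agent.TH936.CM Pool.Agent.W192.HK

namespace Pool.Agent.Y699

open H385 (ZI RQ im1 nrm)
open Pool.Agent.H304R3.HK (tc)
open Pool.Agent.W164.RC (tc_mul tc_star two2)

variable {L : PeriodPair} {Ω : ℂ}

/-- the Gaussian integers and their image -/
noncomputable def eR : ZI ≃ RG := Equiv.ofBijective (fun a => ⟨tc a, mem_RG.2 ⟨a, rfl⟩⟩)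
  ⟨fun a b h => tc_inj (congrArg Subtype.val h), fun r => by
    obtain ⟨a, ha⟩ := mem_RG.1 r.2
    exact ⟨a, Subtype.ext ha.symm⟩⟩

lemma eR_coe (a : ZI) : ((eR a : RG) : ℂ) = tc a := rfl

/-- the regularized sum -/
noncomputable def RS (f : ZI → ℂ) (δ : ℝ) : ℂ := ∑' a : ZI, f a * fd δ (tc a)

/-- the regularized Eisenstein series -/
noncomputable def EG (Ω : ℂ) (δ : ℝ) (z : ℂ) : ℂ := ∑' b : ZI, fd δ (z + Ω * tc b)

lemma EG_eq (δ : ℝ) (z : ℂ) : EG Ω δ z = EE RG Ω δ z := by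
  unfold EG EE
  rw [← eR.tsum_eq]
  rfl

lemma summ_EG (h : IsLat L RG Ω) (z : ℂ) {δ : ℝ} (hδ : 0 < δ) :
    Summable (fun b : ZI => fd δ (z + Ω * tc b)) := (eR.summable_iff).2 (summ_fd h z hδ)

lemma summ_tc (h : IsLat L RG Ω) {δ : ℝ} (hδ : 0 < δ) : Summable (fun b : ZI => fd δ (tc b)) := by
  have hΩ := h.ne
  have hn : 0 < Complex.normSq Ω := Complex.normSq_pos.2 hΩ
  have h1 := (summ_EG h 0 (δ := δ / Complex.normSq Ω) (by positivity)).mul_left Ω
  refine h1.congr fun b => ?_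
  rw [zero_add, fd_mul, ← mul_assoc, mul_inv_cancel₀ hΩ, one_mul]
  congr 1
  field_simp

lemma summ_bd (h : IsLat L RG Ω) {δ : ℝ} (hδ : 0 < δ) {f : ZI → ℂ} {C : ℝ} (hf : ∀ a, ‖f a‖ ≤ C) :
    Summable (fun b : ZI => f b * fd δ (tc b)) := by
  refine Summable.of_norm_bounded ((summ_tc h hδ).norm.mul_left C) fun b => ?_
  rw [norm_mul]
  exact mul_le_mul_of_nonneg_right (hf b) (norm_nonneg _)

lemma tendsto_scale {F : ℝ → ℂ} {l : ℂ} (hF : Tendsto F (𝓝[>] 0) (𝓝 l)) {c : ℝ} (hc : 0 < c) :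
    Tendsto (fun δ : ℝ => F (δ * c)) (𝓝[>] 0) (𝓝 l) := by
  refine hF.comp ?_
  rw [tendsto_nhdsWithin_iff]
  constructor
  · have h7 : Continuous (fun δ : ℝ => δ * c) := by fun_prop
    have h8 := (h7.tendsto 0).mono_left (nhdsWithin_le_nhds (s := Set.Ioi 0))
    simpa using h8
  · filter_upwards [self_mem_nhdsWithin] with δ (hδ : 0 < δ)
    show 0 < δ * c
    positivity

open Classical in
lemma RS_dvd {π : ZI} (hπ : π ≠ 0) (f : ZI → ℂ) (δ : ℝ) :
    RS (fun a => if π ∣ a then f a else 0) δ =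
      (tc π)⁻¹ * RS (fun b => f (π * b)) (δ * Complex.normSq (tc π)) := by
  unfold RS
  have hinj : Function.Injective (fun b : ZI => π * b) := mul_right_injective₀ hπ
  rw [← hinj.tsum_eq, ← tsum_mul_left]
  · refine tsum_congr fun b => ?_
    show (if π ∣ π * b then f (π * b) else 0) * fd δ (tc (π * b)) = _
    rw [if_pos (dvd_mul_right _ _), tc_mul, fd_mul]
    ring
  · intro a ha
    rw [Function.mem_support] at ha
    by_contra hc
    apply ha
    show (if π ∣ a then f a else 0) * _ = 0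
    rw [if_neg, zero_mul]
    rintro ⟨b, hb⟩
    exact hc ⟨b, hb.symm⟩

/-! ### the value at the point of order `2 + 2 i` -/

lemma EG_per (h : IsLat L RG Ω) (δ : ℝ) {z w : ℂ} (hzw : w - z ∈ L.lattice) :
    EG Ω δ w = EG Ω δ z := by
  rw [EG_eq, EG_eq]
  exact EE_per h δ hzw

lemma EG_neg (δ : ℝ) (z : ℂ) : EG Ω δ (-z) = -EG Ω δ z := by
  unfold EG
  rw [← (Equiv.neg ZI).tsum_eq, ← tsum_neg]
  refine tsum_congr fun b => ?_
  rw [Equiv.neg_apply, tc_neg, ← fd_neg]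
  congr 1
  ring

lemma EG_half (h : GLat L Ω) (δ : ℝ) : EG Ω δ (Ω / 2) = 0 := by
  have h1 : EG Ω δ (Ω / 2) = EG Ω δ (-(Ω / 2)) := EG_per h.lat δ (by
    have e : Ω / 2 - -(Ω / 2) = Ω := by ring
    rw [e]
    exact h.om)
  rw [EG_neg] at h1
  have : (2 : ℂ) * EG Ω δ (Ω / 2) = 0 := by linear_combination h1
  exact (mul_eq_zero.1 this).resolve_left (by norm_num)

/-- even and odd elements -/
noncomputable def ePi : Fin 2 × ZI ≃ ZI := Equiv.ofBijective (fun p => pi1 * p.2 + ((p.1 : ℕ) : ZI)) ⟨by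
  rintro ⟨i, a⟩ ⟨j, b⟩ hab
  have h1 : pi1 * a + ((i : ℕ) : ZI) = pi1 * b + ((j : ℕ) : ZI) := hab
  have h2 : pi1 ∣ ((i : ℕ) : ZI) - ((j : ℕ) : ZI) := ⟨b - a, by linear_combination h1⟩
  have h3 : i = j := by
    fin_cases i <;> fin_cases j
    · rfl
    · exfalso
      apply pi1_not_dvd
      have := (dvd_neg).2 h2
      simpa using this
    · exfalso
      apply pi1_not_dvd
      simpa using h2
    · rfl
  subst h3
  have h4 : pi1 * a = pi1 * b := by linear_combination h1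
  rw [mul_left_cancel₀ pi1_ne h4], by
  intro z
  have h1 : ∀ z : ZI, (z.re + z.im) % 2 = 0 → ∃ b, pi1 * b = z := by
    intro z hz
    refine ⟨⟨(z.re + z.im) / 2, (z.im - z.re) / 2⟩, ?_⟩
    ext
    · simp only [pi1, Zsqrtd.re_mul]
      omega
    · simp only [pi1, Zsqrtd.im_mul]
      omega
  rcases Int.emod_two_eq_zero_or_one (z.re + z.im) with h2 | h2
  · obtain ⟨b, hb⟩ := h1 z h2
    exact ⟨⟨0, b⟩, by simp [hb]⟩
  · obtain ⟨b, hb⟩ := h1 (z - 1) (by
      simp only [Zsqrtd.re_sub, Zsqrtd.im_sub, Zsqrtd.re_one, Zsqrtd.im_one]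
      omega)
    exact ⟨⟨1, b⟩, by simp [hb]⟩⟩

lemma EG_dist (h : IsLat L RG Ω) {δ : ℝ} (hδ : 0 < δ) (z : ℂ) :
    EG Ω δ z + EG Ω δ (z + Ω * tc 1 / tc pi1) = (1 + I) * EG Ω (δ / 2) ((1 + I) * z) := by
  have e1 : ∀ γ : ZI, fd δ (z + Ω * tc γ / tc pi1) =
      (1 + I) * fd (δ / 2) ((1 + I) * z + Ω * tc γ) := by
    intro γ
    have h1 : z + Ω * tc γ / tc pi1 = (1 + I)⁻¹ * ((1 + I) * z + Ω * tc γ) := by
      rw [tc_pi1]
      have := one_I_ne
      field_simp
    rw [h1, fd_mul, inv_inv]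
    congr 2
    rw [Complex.normSq_inv]
    have : Complex.normSq (1 + I) = 2 := by
      rw [Complex.normSq_apply]
      simp
      norm_num
    rw [this]
    ring
  have hs : Summable (fun γ : ZI => fd δ (z + Ω * tc γ / tc pi1)) := by
    refine ((summ_EG h ((1 + I) * z) (δ := δ / 2) (by positivity)).mul_left (1 + I)).congr
      fun γ => (e1 γ).symm
  have h3 : ∑' γ : ZI, fd δ (z + Ω * tc γ / tc pi1) = (1 + I) * EG Ω (δ / 2) ((1 + I) * z) := by
    rw [tsum_congr e1, tsum_mul_left]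
    rfl
  have h4 : Summable (fun p : Fin 2 × ZI => fd δ (z + Ω * tc (ePi p) / tc pi1)) :=
    (ePi.summable_iff (f := fun γ => fd δ (z + Ω * tc γ / tc pi1))).2 hs
  rw [← h3, ← ePi.tsum_eq, h4.tsum_prod' (fun q => h4.prod_factor q), tsum_fintype,
    Fin.sum_univ_two]
  have hp : tc pi1 ≠ 0 := tc_ne pi1_ne
  congr 1
  · unfold EG
    refine tsum_congr fun b => ?_
    congr 1
    show z + Ω * tc b = z + Ω * tc (pi1 * b + (((0 : Fin 2) : ℕ) : ZI)) / tc pi1
    simp only [Fin.val_zero, Nat.cast_zero, add_zero]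
    rw [tc_mul]
    field_simp
  · unfold EG
    refine tsum_congr fun b => ?_
    congr 1
    show z + Ω * tc 1 / tc pi1 + Ω * tc b = z + Ω * tc (pi1 * b + (((1 : Fin 2) : ℕ) : ZI)) / tc pi1
    simp only [Fin.val_one, Nat.cast_one]
    rw [tc_add, tc_mul]
    field_simp
    ring

/-- the limit of the Eisenstein series at the point of order `2 + 2 i` -/
theorem lim_dz (h : GLat L Ω) : Tendsto (fun δ : ℝ => EG Ω δ (dz Ω)) (𝓝[>] 0)
    (𝓝 (-℘'[L] (dz Ω) / (4 * ℘[L] (dz Ω)))) := by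
  set s := Ω * tc 1 / tc pi1 with hs
  have h2s : 2 * s ∈ L.lattice := by
    have e : 2 * s = tc ⟨1, -1⟩ * Ω := by
      rw [hs, tc_one, tc_pi1, mul_one, div_eq_mul_inv, inv_one_I]
      unfold tc
      push_cast
      ring
    rw [e]
    exact lat_mul h.lat _ h.om
  have n1 : dz Ω + s ∉ L.lattice := by
    intro h'
    apply h.s1
    have := sub_mem (lat_mul h.lat 2 h') h2s
    have e2 : tc (2 : ZI) = 2 := by
      have := tc_int 2
      push_cast at this
      exact this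
    have e : tc 2 * (dz Ω + s) - 2 * s = s := by
      rw [e2]
      have := two_dz (Ω := Ω)
      linear_combination this
    rwa [e] at this
  have n2 : dz Ω - s ∉ L.lattice := by
    intro h'
    apply n1
    have := add_mem h' h2s
    have e : dz Ω - s + 2 * s = dz Ω + s := by ring
    rwa [e] at this
  have hl := lim_Dd h.lat h.dz_notMem h.s1 n1 n2
  have hl2 := hl.const_mul (-1 / 4)
  have hx0 := h.x0_ne
  have e : (-1 / 4 : ℂ) * Dd L (dz Ω) s = -℘'[L] (dz Ω) / (4 * ℘[L] (dz Ω)) := by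
    unfold Dd
    rw [hs, h.wp_s1, sub_zero]
    field_simp
  rw [e] at hl2
  refine hl2.congr' ?_
  filter_upwards [self_mem_nhdsWithin] with δ (hδ : 0 < δ)
  have h1 := EG_dist h.lat hδ (dz Ω)
  rw [pi_dz, EG_half h, mul_zero] at h1
  have h3 : EG Ω δ (dz Ω - s) = EG Ω δ (dz Ω + s) := EG_per h.lat δ (by
    have e : dz Ω - s - (dz Ω + s) = -(2 * s) := by ring
    rw [e]
    exact neg_mem h2s)
  rw [← EG_eq, ← EG_eq, ← EG_eq, h3]
  linear_combination (-1 / 2) * h1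

end Pool.Agent.Y699
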