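import Pool.Agent.Y699.Reg

/-!
Regularized sums of quadratic characters over the Gaussian integers.
-/

set_option autoImplicit false
set_option linter.unusedSectionVars false

open Filter Complex
open scoped Topology PeriodPair
open H667R3 hiding sq
open Pool.Agent.TH936.CM Pool.Agent.W192.HK

namespace Pool.Agent.Y699

open H385 (ZI RQ im1 nrm)
open Pool.Agent.H304R3.HK (tc)
open Pool.Agent.W164.RC (tc_mul tc_star two2 prim_iff_dvd)
open Pool.Agent.H304R2.EC.A1 (prim prim_mul prim_cancel prim_one prim_norm_odd prim_star eq_one_of_prim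
  norm_def' re_mul' im_mul' eq_of_dvd prim_ne_zero)

variable {L : PeriodPair} {Ω : ℂ} {ι : Type} [DecidableEq ι] {pr : ι → ZI}

/-- a family of distinct primary primes -/
structure PF (pr : ι → ZI) : Prop where
  pp : ∀ i, PP (pr i)
  inj : Function.Injective pr

/-- the quadratic character modulo the product of the primes of `S` -/
noncomputable def ch (pr : ι → ZI) (S : Finset ι) (a : ZI) : ℤ := ∏ i ∈ S, qr (pr i) a

/-- the product of the primes of `S` -/
noncomputable def DD (pr : ι → ZI) (S : Finset ι) : ZI := ∏ i ∈ S, pr i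

lemma DD_prim (hp : PF pr) (S : Finset ι) : prim (DD pr S) := by
  unfold DD
  induction S using Finset.induction_on with
  | empty => rw [Finset.prod_empty]; exact prim_one
  | insert i S hi ih => rw [Finset.prod_insert hi]; exact prim_mul (hp.pp i).prm ih

lemma DD_ne (hp : PF pr) (S : Finset ι) : DD pr S ≠ 0 := prim_ne_zero (DD_prim hp S)

lemma ch_mul (hp : PF pr) (S : Finset ι) (a b : ZI) : ch pr S (a * b) = ch pr S a * ch pr S b := by
  unfold ch
  rw [← Finset.prod_mul_distrib]
  exact Finset.prod_congr rfl fun i _ => qr_mul (hp.pp i) a b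

lemma qr_abs (π a : ZI) : ‖(qr π a : ℂ)‖ ≤ 1 := by
  unfold qr
  split_ifs <;> simp

lemma ch_abs (S : Finset ι) (a : ZI) : ‖(ch pr S a : ℂ)‖ ≤ 1 := by
  unfold ch
  push_cast
  rw [norm_prod]
  exact Finset.prod_le_one (fun i _ => norm_nonneg _) fun i _ => qr_abs _ _

lemma prim_mul_iff {π b : ZI} (h : prim π) : prim (π * b) ↔ prim b :=
  ⟨fun h' => prim_cancel h h', fun h' => prim_mul h h'⟩

lemma PF.dvd_mul (hp : PF pr) {i j : ι} (hij : i ≠ j) (b : ZI) : pr j ∣ pr i * b ↔ pr j ∣ b := by
  constructor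
  · intro h
    rcases (hp.pp j).pr.dvd_or_dvd h with h1 | h1
    · exact absurd (hp.inj ((hp.pp j).eq_of_dvd (hp.pp i) h1)).symm hij
    · exact h1
  · exact fun h => h.mul_left _

open Classical in
/-- the character restricted to the primary elements prime to the primes of `T` -/
noncomputable def cc (pr : ι → ZI) (S T : Finset ι) (a : ZI) : ℂ :=
  if prim a ∧ ∀ i ∈ T, ¬ pr i ∣ a then (ch pr S a : ℂ) else 0

lemma cc_bd (S T : Finset ι) (a : ZI) : ‖cc pr S T a‖ ≤ 1 := by
  unfold cc
  split_ifs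
  · exact ch_abs S a
  · simp

lemma RS_insert (h : IsLat L RG Ω) (hp : PF pr) (S T : Finset ι) (i : ι) (hi : i ∉ T) {δ : ℝ}
    (hδ : 0 < δ) : RS (cc pr S (insert i T)) δ = RS (cc pr S T) δ -
      (ch pr S (pr i) : ℂ) / tc (pr i) *
        RS (cc pr S T) (δ * Complex.normSq (tc (pr i))) := by
  classical
  have e1 : (fun b => cc pr S T (pr i * b)) = fun b => (ch pr S (pr i) : ℂ) * cc pr S T b := by
    funext b
    unfold cc
    have h1 : (prim (pr i * b) ∧ ∀ j ∈ T, ¬ pr j ∣ pr i * b) ↔ (prim b ∧ ∀ j ∈ T, ¬ pr j ∣ b) := by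
      rw [prim_mul_iff (hp.pp i).prm]
      refine and_congr_right fun _ => forall₂_congr fun j hj => ?_
      rw [hp.dvd_mul (fun h' : i = j => hi (by rw [h']; exact hj))]
    by_cases h2 : prim b ∧ ∀ j ∈ T, ¬ pr j ∣ b
    · rw [if_pos h2, if_pos (h1.2 h2), ch_mul hp]
      push_cast
      rfl
    · rw [if_neg h2, if_neg (fun h => h2 (h1.1 h)), mul_zero]
  have e2 := RS_dvd (hp.pp i).ne (cc pr S T) δ
  rw [e1] at e2
  have e3 : RS (fun b => (ch pr S (pr i) : ℂ) * cc pr S T b) (δ * Complex.normSq (tc (pr i))) =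
      (ch pr S (pr i) : ℂ) * RS (cc pr S T) (δ * Complex.normSq (tc (pr i))) := by
    unfold RS
    rw [← tsum_mul_left]
    exact tsum_congr fun b => by ring
  rw [e3] at e2
  have e4 : RS (cc pr S (insert i T)) δ = RS (cc pr S T) δ -
      RS (fun a => if pr i ∣ a then cc pr S T a else 0) δ := by
    have s1 := summ_bd h hδ (cc_bd (pr := pr) S T)
    have s2 := summ_bd h hδ (f := fun a => if pr i ∣ a then cc pr S T a else 0) (C := 1) (by
      intro a
      split_ifs
      · exact cc_bd S T a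
      · simp)
    unfold RS
    rw [← s1.tsum_sub s2]
    refine tsum_congr fun a => ?_
    rw [← sub_mul]
    congr 1
    unfold cc
    by_cases h1 : pr i ∣ a
    · rw [if_neg, if_pos h1, sub_self]
      rintro ⟨-, h2⟩
      exact h2 i (Finset.mem_insert_self _ _) h1
    · rw [if_neg h1, sub_zero]
      refine if_congr (and_congr_right fun _ => ?_) rfl rfl
      constructor
      · intro h2 j hj
        exact h2 j (Finset.mem_insert_of_mem hj)
      · intro h2 j hj
        rcases Finset.mem_insert.1 hj with rfl | hj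
        · exact h1
        · exact h2 j hj
  rw [e4, e2]
  ring

theorem lim_cc (h : IsLat L RG Ω) (hp : PF pr) (S : Finset ι) {l : ℂ}
    (hl : Tendsto (RS (cc pr S ∅)) (𝓝[>] 0) (𝓝 l)) (T : Finset ι) :
    Tendsto (RS (cc pr S T)) (𝓝[>] 0)
      (𝓝 (l * ∏ i ∈ T, (1 - (ch pr S (pr i) : ℂ) / tc (pr i)))) := by
  induction T using Finset.induction_on with
  | empty => rw [Finset.prod_empty, mul_one]; exact hl
  | insert i T hi ih =>
    have hn : 0 < Complex.normSq (tc (pr i)) := Complex.normSq_pos.2 (tc_ne (hp.pp i).ne)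
    have h1 := ih.sub ((tendsto_scale ih hn).const_mul ((ch pr S (pr i) : ℂ) / tc (pr i)))
    rw [Finset.prod_insert hi]
    have e : l * ∏ i ∈ T, (1 - (ch pr S (pr i) : ℂ) / tc (pr i)) - (ch pr S (pr i) : ℂ) /
        tc (pr i) * (l * ∏ i ∈ T, (1 - (ch pr S (pr i) : ℂ) / tc (pr i))) =
        l * ((1 - (ch pr S (pr i) : ℂ) / tc (pr i)) *
          ∏ i ∈ T, (1 - (ch pr S (pr i) : ℂ) / tc (pr i))) := by ring
    rw [e] at h1
    refine h1.congr' ?_
    filter_upwards [self_mem_nhdsWithin] with δ (hδ : 0 < δ)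
    exact (RS_insert h hp S T i hi hδ).symm

open Classical in
/-- the primary elements with prescribed symbols -/
noncomputable def kk (pr : ι → ZI) (V : Finset ι) (a : ZI) : ℂ :=
  if prim a ∧ ∀ i ∈ V, qr (pr i) (two2 * a) = 1 then 1 else 0

theorem sum_cc (hp : PF pr) (V : Finset ι) (a : ZI) :
    ∑ S ∈ V.powerset, (ch pr S two2 : ℂ) * cc pr S (V \ S) a = 2 ^ V.card * kk pr V a := by
  classical
  by_cases ha : prim a
  · by_cases hc : ∃ i ∈ V, pr i ∣ a
    · obtain ⟨i, hi, hia⟩ := hc
      have h1 : kk pr V a = 0 := by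
        unfold kk
        rw [if_neg]
        rintro ⟨-, h2⟩
        have := h2 i hi
        rw [qr_mul (hp.pp i), qr_zero_iff.2 hia, mul_zero] at this
        exact absurd this (by norm_num)
      rw [h1, mul_zero]
      refine Finset.sum_eq_zero fun S _ => ?_
      by_cases hS : i ∈ S
      · have h2 : ch pr S a = 0 := Finset.prod_eq_zero hS (qr_zero_iff.2 hia)
        unfold cc
        rw [h2]
        simp
      · unfold cc
        rw [if_neg, mul_zero]
        rintro ⟨-, h2⟩
        exact h2 i (Finset.mem_sdiff.2 ⟨hi, hS⟩) hia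
    · push Not at hc
      have h1 : ∀ S ∈ V.powerset, (ch pr S two2 : ℂ) * cc pr S (V \ S) a =
          ((∏ i ∈ S, qr (pr i) (two2 * a) : ℤ) : ℂ) := by
        intro S _
        unfold cc
        rw [if_pos ⟨ha, fun i hi => hc i (Finset.mem_sdiff.1 hi).1⟩, ← Int.cast_mul, ← ch_mul hp]
        rfl
      rw [Finset.sum_congr rfl h1, ← Int.cast_sum, ← Finset.prod_one_add]
      unfold kk
      have hval : ∀ i ∈ V, qr (pr i) (two2 * a) = 1 ∨ qr (pr i) (two2 * a) = -1 := by
        intro i hi
        refine qr_cases fun h => ?_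
        rcases (hp.pp i).pr.dvd_or_dvd h with h | h
        · have e : two2 ∣ 4 := ⟨⟨1, -1⟩, by decide⟩
          have h3 : pr i ∣ (2 : ZI) * 2 := h.trans (e.trans ⟨1, by decide⟩)
          rcases (hp.pp i).pr.dvd_or_dvd h3 with h | h <;> exact not_dvd_two (hp.pp i) h
        · exact hc i hi h
      by_cases hall : ∀ i ∈ V, qr (pr i) (two2 * a) = 1
      · rw [if_pos ⟨ha, hall⟩, mul_one]
        have : ∏ i ∈ V, (1 + qr (pr i) (two2 * a)) = 2 ^ V.card := by
          rw [← Finset.prod_const]
          refine Finset.prod_congr rfl fun i hi => ?_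
          rw [hall i hi]
          norm_num
        rw [this]
        push_cast
        rfl
      · rw [if_neg (fun h => hall h.2), mul_zero]
        push Not at hall
        obtain ⟨i, hi, hne⟩ := hall
        rw [Finset.prod_eq_zero hi]
        · simp
        · rw [(hval i hi).resolve_left hne]
          norm_num
  · unfold kk cc
    rw [if_neg (fun h => ha h.1), mul_zero]
    refine Finset.sum_eq_zero fun S _ => ?_
    rw [if_neg (fun h => ha h.1), mul_zero]

open Classical in
/-- the classes with all symbols one -/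
noncomputable def C1 (pr : ι → ZI) (V : Finset ι) (t : ZI) : ℂ :=
  if ∀ i ∈ V, qr (pr i) t = 1 then 1 else 0

lemma dvd_DD {V : Finset ι} {i : ι} (hi : i ∈ V) : pr i ∣ DD pr V := Finset.dvd_prod_of_mem _ hi

lemma C1_per {V : Finset ι} {a b : ZI} (hab : DD pr V ∣ a - b) : C1 pr V a = C1 pr V b := by
  unfold C1
  have : (∀ i ∈ V, qr (pr i) a = 1) ↔ ∀ i ∈ V, qr (pr i) b = 1 := by
    refine forall₂_congr fun i hi => ?_
    rw [qr_per ((dvd_DD hi).trans hab)]
  simp only [this]

lemma C1_neg (hp : PF pr) {V : Finset ι} (a : ZI) : C1 pr V (-a) = C1 pr V a := by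
  unfold C1
  have : (∀ i ∈ V, qr (pr i) (-a) = 1) ↔ ∀ i ∈ V, qr (pr i) a = 1 := by
    refine forall₂_congr fun i hi => ?_
    rw [qr_neg (hp.pp i)]
  simp only [this]

lemma not_dvd_two2 {π : ZI} (h : PP π) : ¬ π ∣ two2 := by
  intro h'
  have e : two2 ∣ 4 := ⟨⟨1, -1⟩, by decide⟩
  have h3 : π ∣ (2 : ZI) * 2 := h'.trans (e.trans ⟨1, by decide⟩)
  rcases h.pr.dvd_or_dvd h3 with h | h <;> exact not_dvd_two ‹PP π› h

lemma kk_shift (hp : PF pr) (V : Finset ι) (t : ZI) :
    kk pr V (DD pr V + two2 * t) = C1 pr V t := by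
  unfold kk C1
  have h1 : prim (DD pr V + two2 * t) := by
    rw [prim_iff_dvd]
    have h2 := (prim_iff_dvd _).1 (DD_prim hp V)
    have e : DD pr V + two2 * t - 1 = (DD pr V - 1) + two2 * t := by ring
    rw [e]
    exact dvd_add h2 (dvd_mul_right _ _)
  have h2 : (∀ i ∈ V, qr (pr i) (two2 * (DD pr V + two2 * t)) = 1) ↔ ∀ i ∈ V, qr (pr i) t = 1 := by
    refine forall₂_congr fun i hi => ?_
    have e : qr (pr i) (two2 * (DD pr V + two2 * t)) = qr (pr i) (two2 ^ 2 * t) := by
      apply qr_per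
      have e2 : two2 * (DD pr V + two2 * t) - two2 ^ 2 * t = DD pr V * two2 := by ring
      rw [e2]
      exact (dvd_DD hi).mul_right _
    rw [e, qr_mul (hp.pp i), qr_sq' (hp.pp i) (not_dvd_two2 (hp.pp i)), one_mul]
  simp only [h1, true_and, h2]

/-- the decomposition `t = q.out + D β` -/
noncomputable def prt' (D : ZI) (hD : D ≠ 0) : RQ D × ZI ≃ ZI :=
  Equiv.ofBijective (fun p => p.1.out + D * p.2) ⟨by
    rintro ⟨p, a⟩ ⟨q, b⟩ h
    have h1 : p.out + D * a = q.out + D * b := h
    have h2 : p = q := by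
      rw [← Ideal.Quotient.mk_out p, ← Ideal.Quotient.mk_out q, Ideal.Quotient.mk_eq_mk_iff_sub_mem,
        Ideal.mem_span_singleton']
      exact ⟨b - a, by linear_combination -h1⟩
    subst h2
    have h3 : D * a = D * b := by linear_combination h1
    rw [mul_left_cancel₀ hD h3], by
    intro α
    have h1 : α - (Ideal.Quotient.mk (Ideal.span {D}) α).out ∈ Ideal.span {D} := by
      rw [← Ideal.Quotient.mk_eq_mk_iff_sub_mem, Ideal.Quotient.mk_out]
    rw [Ideal.mem_span_singleton'] at h1
    obtain ⟨b, hb⟩ := h1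
    exact ⟨⟨Ideal.Quotient.mk (Ideal.span {D}) α, b⟩, by
      show (Ideal.Quotient.mk (Ideal.span {D}) α).out + D * b = α
      linear_combination hb⟩⟩

lemma prt'_apply (D : ZI) (hD : D ≠ 0) (p : RQ D × ZI) : prt' D hD p = p.1.out + D * p.2 := rfl

/-- the division point -/
noncomputable def zq (Ω : ℂ) (D : ZI) (t : ZI) : ℂ := Ω * tc t / tc D

theorem RS_kk (h : IsLat L RG Ω) (hp : PF pr) (V : Finset ι) [Fintype (RQ (DD pr V))] {δ : ℝ}
    (hδ : 0 < δ) : RS (kk pr V) δ = Ω / (tc (DD pr V) * tc two2) *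
      ∑ q : RQ (DD pr V), C1 pr V q.out *
        EG Ω (δ * Complex.normSq (tc (DD pr V) * tc two2 / Ω)) (dz Ω + zq Ω (DD pr V) q.out) := by
  set D := DD pr V with hD
  have hD0 : D ≠ 0 := DD_ne hp V
  have hDc := tc_ne hD0
  have h2c := tc_ne two2_ne
  have hΩ := h.ne
  have hinj : Function.Injective (fun t : ZI => D + two2 * t) := by
    intro a b hab
    have : two2 * a = two2 * b := by
      have h1 : D + two2 * a = D + two2 * b := hab
      linear_combination h1
    exact mul_left_cancel₀ two2_ne this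
  have hkk : ∀ a, ‖kk pr V a‖ ≤ 1 := by
    intro a
    unfold kk
    split_ifs <;> simp
  have e1 : RS (kk pr V) δ = ∑' t : ZI, C1 pr V t * fd δ (tc (D + two2 * t)) := by
    unfold RS
    rw [← hinj.tsum_eq]
    · refine tsum_congr fun t => ?_
      rw [kk_shift hp V t]
    · intro a ha
      rw [Function.mem_support] at ha
      by_contra hc
      apply ha
      have : kk pr V a = 0 := by
        unfold kk
        rw [if_neg]
        rintro ⟨h1, -⟩
        apply hc
        have h3 := (prim_iff_dvd _).1 h1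
        have h4 := (prim_iff_dvd _).1 (DD_prim hp V)
        have h5 := dvd_sub h3 h4
        obtain ⟨c, hc'⟩ := h5
        exact ⟨c, by
          show D + two2 * c = a
          rw [← hc', ← hD]
          ring⟩
      rw [this, zero_mul]
  have hs1 : Summable (fun t : ZI => C1 pr V t * fd δ (tc (D + two2 * t))) := by
    have h1 := (summ_bd h hδ hkk).comp_injective hinj
    refine h1.congr fun t => ?_
    simp only [Function.comp_apply]
    rw [kk_shift hp V t]
  set c : ℂ := tc D * tc two2 / Ω with hc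
  have hc0 : c ≠ 0 := div_ne_zero (mul_ne_zero hDc h2c) hΩ
  have hs2 : Summable (fun p : RQ D × ZI =>
      C1 pr V (prt' D hD0 p) * fd δ (tc (D + two2 * prt' D hD0 p))) :=
    ((prt' D hD0).summable_iff (f := fun t => C1 pr V t * fd δ (tc (D + two2 * t)))).2 hs1
  rw [e1, ← (prt' D hD0).tsum_eq, hs2.tsum_prod' (fun q => hs2.prod_factor q), tsum_fintype,
    Finset.mul_sum]
  refine Finset.sum_congr (by ext; simp) fun q _ => ?_
  unfold EG
  rw [← tsum_mul_left, ← tsum_mul_left]
  refine tsum_congr fun b => ?_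
  have e2 : C1 pr V (prt' D hD0 (q, b)) = C1 pr V q.out := by
    apply C1_per
    rw [prt'_apply]
    exact ⟨b, by ring⟩
  have e3 : tc (D + two2 * prt' D hD0 (q, b)) =
      c * (dz Ω + zq Ω D q.out + Ω * tc b) := by
    rw [prt'_apply, tc_add, tc_mul, tc_add, tc_mul, dz_eq, tc_one, hc]
    unfold zq
    field_simp
    ring
  rw [e2, e3, fd_mul, hc, inv_div]
  ring

end Pool.Agent.Y699
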