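import Pool.Agent.Y699.Six

/-!
The remaining regimes.
-/

set_option autoImplicit false

open Finset

namespace Pool.Agent.Y699

open H385 (ZI RQ im1 nrm BX)
open H385.H10 (mem_BX nrm_pos Dv mem_Dv card_Dv)
open Pool.Agent.W164.RC (two2 prim_iff_dvd unit_norm unit_cases)
open Pool.Agent.H304R2.EC.A1 (prim prim_mul prim_cancel prim_one prim_norm_odd prim_star eq_one_of_prim
  norm_def' re_mul' im_mul' eq_of_dvd prim_ne_zero exists_prim)

/-- the condition on the size of the parameters -/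
def HL (P X Z : ℕ) (lam : ℝ) : Prop :=
  ∀ r : ZI, prim r → nrm r ≤ Z ^ 3 * (P ^ kx) ^ 2 → lg X ≤ lam * lg (X / nrm r)

lemma TB {P X Z : ℕ} {lam : ℝ} (hlam : 0 ≤ lam) (h : HL P X Z lam) {r : ZI} (hr : prim r)
    (hn : nrm r ≤ Z ^ 3 * (P ^ kx) ^ 2) :
    ((X / nrm r : ℕ) : ℝ) / Real.sqrt (lg (X / nrm r)) ≤
      (X / Real.sqrt (lg X) * Real.sqrt lam) * (1 / nrm r) := by
  have h1 := h r hr hn
  set T := X / nrm r with hT
  have hlT := lg_pos T
  have hlX := lg_pos X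
  have s1 : 0 < Real.sqrt (lg T) := Real.sqrt_pos.2 hlT
  have s2 : 0 < Real.sqrt (lg X) := Real.sqrt_pos.2 hlX
  have h2 : Real.sqrt (lg X) ≤ Real.sqrt lam * Real.sqrt (lg T) := by
    rw [← Real.sqrt_mul hlam]
    exact Real.sqrt_le_sqrt h1
  have h3 : (T : ℝ) ≤ (X : ℝ) / nrm r := Nat.cast_div_le
  have hX0 : (0 : ℝ) ≤ X := Nat.cast_nonneg X
  have hn0 : (0 : ℝ) ≤ (X : ℝ) / nrm r := by positivity
  calc (T : ℝ) / Real.sqrt (lg T) ≤ ((X : ℝ) / nrm r) / Real.sqrt (lg T) :=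
        div_le_div_of_nonneg_right h3 s1.le
    _ ≤ ((X : ℝ) / nrm r) * (Real.sqrt lam / Real.sqrt (lg X)) := by
        rw [div_eq_mul_one_div]
        apply mul_le_mul_of_nonneg_left _ hn0
        rw [div_le_div_iff₀ s1 s2]
        linarith
    _ = (X / Real.sqrt (lg X) * Real.sqrt lam) * (1 / nrm r) := by ring

/-- the bound for the sum over the interval -/
@[irreducible] noncomputable def CI : ℝ := 12 * (2 * kx + 1)

lemma CI_pos : 0 < CI := by unfold CI; positivity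

lemma sum_iI {P : ℕ} (hP : 3 ≤ P) (X : ℕ) : ∑ x ∈ SB X, iI P x * (1 / nrm x) ≤ CI := by
  classical
  have h1 : ∑ x ∈ SB X, iI P x * (1 / (nrm x : ℝ)) ≤ ∑ π ∈ IB kx P, (1 : ℝ) / nrm π := by
    have h2 : ∑ x ∈ SB X, iI P x * (1 / (nrm x : ℝ)) =
        ∑ x ∈ (SB X).filter (fun x => x ∈ IB kx P), (1 : ℝ) / nrm x := by
      rw [sum_filter]
      refine sum_congr rfl fun x _ => ?_
      unfold iI
      split_ifs <;> ring
    rw [h2]
    refine sum_le_sum_of_subset_of_nonneg ?_ (fun _ _ _ => by positivity)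
    intro x hx
    exact (mem_filter.1 hx).2
  refine h1.trans ((IB_up hP).trans (le_of_eq ?_))
  unfold CI
  rfl

lemma sum_iI_nonneg (P X : ℕ) : 0 ≤ ∑ x ∈ SB X, iI P x * (1 / (nrm x : ℝ)) :=
  sum_nonneg fun _ _ => mul_nonneg (iI_nonneg _ _) (by positivity)

lemma sum_lo (Z X : ℕ) : ∑ x ∈ SB X, lo Z x * (1 / nrm x) ≤ 18 * lg Z := by
  refine le_trans ?_ (hsum_SB Z)
  have h2 : ∑ x ∈ SB X, lo Z x * (1 / (nrm x : ℝ)) =
      ∑ x ∈ (SB X).filter (fun x => nrm x ≤ Z), (1 : ℝ) / nrm x := by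
    rw [sum_filter]
    refine sum_congr rfl fun x _ => ?_
    unfold lo
    split_ifs <;> ring
  rw [h2]
  refine sum_le_sum_of_subset_of_nonneg ?_ (fun _ _ _ => by positivity)
  intro x hx
  rw [mem_filter, mem_SB] at hx
  exact mem_SB.2 ⟨hx.2, hx.1.2⟩

lemma sum_lo_nonneg (Z X : ℕ) : 0 ≤ ∑ x ∈ SB X, lo Z x * (1 / (nrm x : ℝ)) :=
  sum_nonneg fun _ _ => mul_nonneg (lo_nonneg _ _) (by positivity)

/-- not one -/
noncomputable def n1 (x : ZI) : ℝ := if x = 1 then 0 else 1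

/-- one -/
noncomputable def d1 (x : ZI) : ℝ := if x = 1 then 1 else 0

lemma n1_nonneg (x : ZI) : 0 ≤ n1 x := by unfold n1; split_ifs <;> norm_num
lemma n1_abs (x : ZI) : |n1 x| ≤ 1 := by unfold n1; split_ifs <;> norm_num
lemma d1_nonneg (x : ZI) : 0 ≤ d1 x := by unfold d1; split_ifs <;> norm_num

/-- the main estimate with two small variables -/
lemma two_small {P X Z : ℕ} {lam : ℝ} (hlam : 0 ≤ lam) (h : HL P X Z lam) (hZ : 1 ≤ Z) {p q a b : ZI}
    (hp : PS p) (hq : PS q) (ha : PS a) (hb : PS b) {k : ℝ} (hk : |k| ≤ 1) :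
    |(iI P p * iI P q * (lo Z a * lo Z b * n1 (a * b))) * k * ∑ c ∈ SB X, ∑ e ∈ SB X,
        Ph X (c * e * (a * b * (p * q))) * (wt2 c * wt2 e * jac a e * jac b c)| ≤
      (1680 * Real.sqrt (2 * lg Z) * (X / Real.sqrt (lg X) * Real.sqrt lam)) *
        (iI P p * (1 / nrm p) * (iI P q * (1 / nrm q) * (lo Z a * (1 / nrm a) * (lo Z b * (1 / nrm b))))) := by
  classical
  have hlX := lg_pos X
  have hr : prim (a * b * (p * q)) := prim_mul (prim_mul ha.prm hb.prm) (prim_mul hp.prm hq.prm)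
  have hnn : 0 ≤ (1680 * Real.sqrt (2 * lg Z) * (X / Real.sqrt (lg X) * Real.sqrt lam)) *
        (iI P p * (1 / (nrm p : ℝ)) * (iI P q * (1 / nrm q) * (lo Z a * (1 / nrm a) * (lo Z b * (1 / nrm b))))) := by
    apply mul_nonneg (by positivity)
    exact mul_nonneg (mul_nonneg (iI_nonneg P p) (by positivity)) (mul_nonneg
      (mul_nonneg (iI_nonneg P q) (by positivity)) (mul_nonneg (mul_nonneg (lo_nonneg Z a) (by positivity))
      (mul_nonneg (lo_nonneg Z b) (by positivity))))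
  by_cases c1 : p ∈ IB kx P
  swap
  · have : iI P p = 0 := by unfold iI; rw [if_neg c1]
    rw [this]; simp
  by_cases c2 : q ∈ IB kx P
  swap
  · have : iI P q = 0 := by unfold iI; rw [if_neg c2]
    rw [this]; simp
  by_cases c3 : nrm a ≤ Z
  swap
  · have : lo Z a = 0 := by unfold lo; rw [if_neg c3]
    rw [this]; simp
  by_cases c4 : nrm b ≤ Z
  swap
  · have : lo Z b = 0 := by unfold lo; rw [if_neg c4]
    rw [this]; simp
  have e1 : iI P p = 1 := by unfold iI; rw [if_pos c1]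
  have e2 : iI P q = 1 := by unfold iI; rw [if_pos c2]
  have e3 : lo Z a = 1 := by unfold lo; rw [if_pos c3]
  have e4 : lo Z b = 1 := by unfold lo; rw [if_pos c4]
  by_cases c5 : a * b = 1
  · have : n1 (a * b) = 0 := by unfold n1; rw [if_pos c5]
    rw [this]
    simp only [mul_zero, zero_mul, abs_zero]
    exact hnn
  have e5 : n1 (a * b) = 1 := by unfold n1; rw [if_neg c5]
  by_cases c6 : PS (a * b)
  swap
  · have hz : ∑ c ∈ SB X, ∑ e ∈ SB X, Ph X (c * e * (a * b * (p * q))) *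
        (wt2 c * wt2 e * (jac a e : ℝ) * jac b c) = 0 := by
      refine sum_eq_zero fun c hc => sum_eq_zero fun e he => ?_
      rw [mem_SB] at hc he
      have : Ph X (c * e * (a * b * (p * q))) = 0 := by
        by_contra h0
        obtain ⟨h1, -, -⟩ := Ph_ne h0
        have h2 := ((PS.mul_iff (prim_mul hc.2.prm he.2.prm) hr).1 h1).2.1
        exact c6 ((PS.mul_iff (prim_mul ha.prm hb.prm) (prim_mul hp.prm hq.prm)).1 h2).1
      rw [this, zero_mul]
    rw [hz]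
    simp only [mul_zero, abs_zero]
    exact hnn
  have h1 := hsw c6 ha.prm hb.prm c5 hr (dvd_mul_right _ _) X
  have hnab : nrm (a * b) ≤ Z ^ 2 := by
    rw [nrm_mul, sq]
    exact Nat.mul_le_mul c3 c4
  have hlg : lg (nrm (a * b)) ≤ 2 * lg Z := (lg_mono hnab).trans (lg_sq Z)
  have hsq : Real.sqrt (lg (nrm (a * b))) ≤ Real.sqrt (2 * lg Z) := Real.sqrt_le_sqrt hlg
  have hnr : nrm (a * b * (p * q)) ≤ Z ^ 3 * (P ^ kx) ^ 2 := by
    rw [nrm_mul, nrm_mul p q, sq]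
    refine Nat.mul_le_mul ?_ (Nat.mul_le_mul (mem_IB.1 c1).1 (mem_IB.1 c2).1)
    exact hnab.trans (Nat.pow_le_pow_right hZ (by norm_num))
  have hTB := TB hlam h hr hnr
  have h0 : (0 : ℝ) ≤ ((X / nrm (a * b * (p * q)) : ℕ) : ℝ) / Real.sqrt (lg (X / nrm (a * b * (p * q)))) := by
    positivity
  rw [e1, e2, e3, e4, e5, abs_mul, abs_mul]
  rw [show |(1 : ℝ) * 1 * (1 * 1 * 1)| = 1 by norm_num]
  simp only [one_mul]
  refine (mul_le_of_le_one_left (abs_nonneg _) hk).trans (h1.trans ?_)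
  calc 1680 * Real.sqrt (lg (nrm (a * b))) * (((X / nrm (a * b * (p * q)) : ℕ) : ℝ) /
        Real.sqrt (lg (X / nrm (a * b * (p * q)))))
      ≤ 1680 * Real.sqrt (2 * lg Z) * ((X / Real.sqrt (lg X) * Real.sqrt lam) * (1 / nrm (a * b * (p * q)))) := by
        apply mul_le_mul _ hTB h0 (by positivity)
        linarith
    _ = _ := by
        rw [nrm_mul, nrm_mul, nrm_mul]
        push_cast
        rw [one_div, mul_inv, mul_inv, mul_inv]
        ring

lemma four_aux {s1 s2 c l : ℝ} (h1 : s1 ≤ c) (h2 : s2 ≤ l) (h3 : 0 ≤ s1) (h4 : 0 ≤ s2) :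
    s1 * (s1 * (s2 * s2)) ≤ c * (c * (l * l)) := by
  have c0 := h3.trans h1
  have l0 := h4.trans h2
  apply mul_le_mul h1 _ (by positivity) c0
  apply mul_le_mul h1 _ (by positivity) c0
  exact mul_le_mul h2 h2 h4 l0

lemma five_aux {s1 s2 c l : ℝ} (h1 : s1 ≤ c) (h2 : s2 ≤ l) (h3 : 0 ≤ s1) (h4 : 0 ≤ s2) :
    s1 * (s1 * (s2 * (s2 * s2))) ≤ c * (c * (l * (l * l))) := by
  have c0 := h3.trans h1
  have l0 := h4.trans h2
  apply mul_le_mul h1 _ (by positivity) c0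
  apply mul_le_mul h1 _ (by positivity) c0
  apply mul_le_mul h2 _ (by positivity) l0
  exact mul_le_mul h2 h2 h4 l0

lemma four_bound' {P X Z : ℕ} (hP : 3 ≤ P) {K : ℝ} (hK : 0 ≤ K) :
    K * ((∑ x ∈ SB X, iI P x * (1 / nrm x)) * ((∑ x ∈ SB X, iI P x * (1 / nrm x)) *
      ((∑ x ∈ SB X, lo Z x * (1 / nrm x)) * ∑ x ∈ SB X, lo Z x * (1 / nrm x)))) ≤
      K * (CI * (CI * ((18 * lg Z) * (18 * lg Z)))) := by
  apply mul_le_mul_of_nonneg_left _ hK
  exact four_aux (sum_iI hP X) (sum_lo Z X) (sum_iI_nonneg P X) (sum_lo_nonneg Z X)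

/-- the error term of the last regimes -/
noncomputable def EH (X Z : ℕ) (lam : ℝ) : ℝ :=
  (1680 * 2 * (18 : ℝ) ^ 3 * CI ^ 2) * Real.sqrt lam * (X * lg Z ^ 3 / Real.sqrt (lg X))

lemma sqrt_two_lg (Z : ℕ) : Real.sqrt (2 * lg Z) ≤ 2 * lg Z := by
  have h := one_le_lg Z
  rw [Real.sqrt_le_left (by linarith)]
  nlinarith

lemma EH_bound (X Z : ℕ) (lam : ℝ) :
    (1680 * Real.sqrt (2 * lg Z) * (X / Real.sqrt (lg X) * Real.sqrt lam)) *
      (CI * (CI * ((18 * lg Z) * (18 * lg Z)))) ≤ EH X Z lam := by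
  unfold EH
  have h1 := sqrt_two_lg Z
  have h2 := lg_pos Z
  have h3 := CI_pos
  have h4 : 0 ≤ Real.sqrt lam := Real.sqrt_nonneg _
  have h5 : 0 ≤ (X : ℝ) / Real.sqrt (lg X) := by positivity
  calc (1680 * Real.sqrt (2 * lg Z) * (X / Real.sqrt (lg X) * Real.sqrt lam)) *
      (CI * (CI * ((18 * lg Z) * (18 * lg Z))))
      ≤ (1680 * (2 * lg Z) * (X / Real.sqrt (lg X) * Real.sqrt lam)) *
      (CI * (CI * ((18 * lg Z) * (18 * lg Z)))) := by gcongr
    _ = (1680 * 2 * (18 : ℝ) ^ 2 * CI ^ 2) * Real.sqrt lam * (X * lg Z ^ 3 / Real.sqrt (lg X)) := by ring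
    _ ≤ _ := by
        have h6 : 0 ≤ (X : ℝ) * lg Z ^ 3 / Real.sqrt (lg X) := by positivity
        have h7 : 0 ≤ Real.sqrt lam * ((X : ℝ) * lg Z ^ 3 / Real.sqrt (lg X)) := by positivity
        have h8 : 0 ≤ CI ^ 2 := by positivity
        have : (1680 * 2 * (18 : ℝ) ^ 2 * CI ^ 2) ≤ (1680 * 2 * (18 : ℝ) ^ 3 * CI ^ 2) := by nlinarith
        rw [mul_assoc (1680 * 2 * (18 : ℝ) ^ 2 * CI ^ 2), mul_assoc (1680 * 2 * (18 : ℝ) ^ 3 * CI ^ 2)]
        exact mul_le_mul_of_nonneg_right this h7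

/-- third regime -/
theorem reg3 {P X Z : ℕ} {lam : ℝ} (hlam : 0 ≤ lam) (h : HL P X Z lam) (hZ : 1 ≤ Z) (hP : 3 ≤ P)
    {τ : ZI → ZI → ZI → ZI → ℝ} (ht : ∀ p q a b, |τ p q a b| ≤ 1) :
    |S6 (SB X) (F6 P X (fun a b _ => lo Z a * lo Z b * n1 (a * b)) τ)| ≤ EH X Z lam := by
  have hlX := lg_pos X
  have hb := S6_bound (s := SB X) (F := F6 P X (fun a b _ => lo Z a * lo Z b * n1 (a * b)) τ)
    (K := 1680 * Real.sqrt (2 * lg Z) * (X / Real.sqrt (lg X) * Real.sqrt lam))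
    (g1 := fun x => iI P x * (1 / nrm x)) (g2 := fun x => iI P x * (1 / nrm x))
    (g3 := fun x => lo Z x * (1 / nrm x)) (g4 := fun x => lo Z x * (1 / nrm x)) ?_
  · exact hb.trans ((four_bound' hP (by positivity)).trans (EH_bound X Z lam))
  · intro p hp q hq a ha b hb
    rw [mem_SB] at hp hq ha hb
    have h1 := two_small hlam h hZ hp.2 hq.2 ha.2 hb.2 (k := τ p q a b * (wt2 a * wt2 b))
      (abs_mul_le (ht _ _ _ _) (abs_mul_le (wt2_abs _) (wt2_abs _))) (X := X)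
    refine le_trans (le_of_eq ?_) h1
    congr 1
    rw [mul_sum]
    refine sum_congr rfl fun c _ => ?_
    rw [mul_sum]
    refine sum_congr rfl fun e _ => ?_
    unfold F6
    rw [show a * b * c * e * (p * q) = c * e * (a * b * (p * q)) by ring]
    ring

/-- fourth regime -/
theorem reg4 {P X Z : ℕ} {lam : ℝ} (hlam : 0 ≤ lam) (h : HL P X Z lam) (hZ : 1 ≤ Z) (hP : 3 ≤ P)
    {t : ZI → ZI → ZI → ℝ} (ht : ∀ p q a, |t p q a| ≤ 1) :
    |S6 (SB X) (F6 P X (fun a _ c => lo Z a * lo Z c * n1 (a * c)) (fun p q a _ => t p q a))| ≤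
      EH X Z lam := by
  have hlX := lg_pos X
  rw [S6_B4]
  have hb := S6_bound (s := SB X) (F := fun x1 x2 x3 x4 x5 x6 =>
      F6 P X (fun a _ c => lo Z a * lo Z c * n1 (a * c)) (fun p q a _ => t p q a) x1 x2 x3 x5 x4 x6)
    (K := 1680 * Real.sqrt (2 * lg Z) * (X / Real.sqrt (lg X) * Real.sqrt lam))
    (g1 := fun x => iI P x * (1 / nrm x)) (g2 := fun x => iI P x * (1 / nrm x))
    (g3 := fun x => lo Z x * (1 / nrm x)) (g4 := fun x => lo Z x * (1 / nrm x)) ?_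
  · exact hb.trans ((four_bound' hP (by positivity)).trans (EH_bound X Z lam))
  · intro p hp q hq a ha c hc
    rw [mem_SB] at hp hq ha hc
    have h1 := two_small hlam h hZ hp.2 hq.2 ha.2 hc.2 (k := t p q a * (wt2 a * wt2 c))
      (abs_mul_le (ht _ _ _) (abs_mul_le (wt2_abs _) (wt2_abs _))) (X := X)
    refine le_trans (le_of_eq ?_) h1
    congr 1
    rw [mul_sum]
    refine sum_congr rfl fun b hb => ?_
    rw [mul_sum]
    refine sum_congr rfl fun e _ => ?_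
    unfold F6
    rw [show a * b * c * e * (p * q) = b * e * (a * c * (p * q)) by ring,
      jac_rec (mem_SB.1 hb).2 hc.2]
    ring

/-- fifth regime -/
theorem reg5 {P X Z : ℕ} {lam : ℝ} (hlam : 0 ≤ lam) (h : HL P X Z lam) (hP : 3 ≤ P)
    {τ : ZI → ZI → ZI → ZI → ℝ} (ht : ∀ p q a b, |τ p q a b| ≤ 1) {κ : ZI → ZI → ZI → ℝ}
    (hκ : ∀ a b c, |κ a b c| ≤ 1) :
    |S6 (SB X) (F6 P X (fun a b c => lo Z a * lo Z b * lo Z c * κ a b c) τ)| ≤ EH X Z lam := by
  classical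
  have hlX := lg_pos X
  have hlZ := lg_pos Z
  have hb := S6_bound5 (s := SB X) (F := F6 P X (fun a b c => lo Z a * lo Z b * lo Z c * κ a b c) τ)
    (K := 126 * (X / Real.sqrt (lg X) * Real.sqrt lam))
    (g1 := fun x => iI P x * (1 / nrm x)) (g2 := fun x => iI P x * (1 / nrm x))
    (g3 := fun x => lo Z x * (1 / nrm x)) (g4 := fun x => lo Z x * (1 / nrm x))
    (g5 := fun x => lo Z x * (1 / nrm x)) ?_
  · refine hb.trans ?_
    have h6 := CI_pos
    have h7 : (∑ x ∈ SB X, iI P x * (1 / (nrm x : ℝ))) * ((∑ x ∈ SB X, iI P x * (1 / (nrm x : ℝ))) *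
      ((∑ x ∈ SB X, lo Z x * (1 / (nrm x : ℝ))) * ((∑ x ∈ SB X, lo Z x * (1 / (nrm x : ℝ))) *
        ∑ x ∈ SB X, lo Z x * (1 / (nrm x : ℝ))))) ≤ CI * (CI * ((18 * lg Z) * ((18 * lg Z) * (18 * lg Z)))) :=
      five_aux (sum_iI hP X) (sum_lo Z X) (sum_iI_nonneg P X) (sum_lo_nonneg Z X)
    refine (mul_le_mul_of_nonneg_left h7 (by positivity)).trans ?_
    unfold EH
    have h8 : 0 ≤ Real.sqrt lam * ((X : ℝ) * lg Z ^ 3 / Real.sqrt (lg X)) := by positivity
    have h9 : 0 ≤ CI ^ 2 := by positivity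
    calc 126 * (X / Real.sqrt (lg X) * Real.sqrt lam) * (CI * (CI * ((18 * lg Z) * ((18 * lg Z) * (18 * lg Z)))))
        = (126 * 18 ^ 3 * CI ^ 2) * (Real.sqrt lam * (X * lg Z ^ 3 / Real.sqrt (lg X))) := by ring
      _ ≤ (1680 * 2 * (18 : ℝ) ^ 3 * CI ^ 2) * (Real.sqrt lam * (X * lg Z ^ 3 / Real.sqrt (lg X))) := by
          apply mul_le_mul_of_nonneg_right _ h8
          nlinarith
      _ = _ := by ring
  · intro p hp q hq a ha b hb c hc
    rw [mem_SB] at hp hq ha hb hc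
    have hr : prim (a * b * c * (p * q)) :=
      prim_mul (prim_mul (prim_mul ha.2.prm hb.2.prm) hc.2.prm) (prim_mul hp.2.prm hq.2.prm)
    have hstep : |∑ e ∈ SB X, F6 P X (fun a b c => lo Z a * lo Z b * lo Z c * κ a b c) τ p q a b c e| ≤
        (iI P p * iI P q * (lo Z a * lo Z b * lo Z c)) * ∑ e ∈ SB X, Ph X (e * (a * b * c * (p * q))) * wt2 e := by
      rw [mul_sum]
      refine (abs_sum_le_sum_abs _ _).trans (sum_le_sum fun e _ => ?_)
      unfold F6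
      rw [show a * b * c * e * (p * q) = e * (a * b * c * (p * q)) by ring]
      have hA : 0 ≤ iI P p * iI P q * (lo Z a * lo Z b * lo Z c) *
          (Ph X (e * (a * b * c * (p * q))) * wt2 e) :=
        mul_nonneg (mul_nonneg (mul_nonneg (iI_nonneg P p) (iI_nonneg P q))
          (mul_nonneg (mul_nonneg (lo_nonneg Z a) (lo_nonneg Z b)) (lo_nonneg Z c)))
          (mul_nonneg (Ph_nonneg X _) (wt2_nonneg e))
      have e1 : iI P p * iI P q * (Ph X (e * (a * b * c * (p * q))) *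
          ((lo Z a * lo Z b * lo Z c * κ a b c) * τ p q a b *
            (wt2 a * wt2 b * wt2 c * wt2 e * ((jac a e : ℝ) * jac b c)))) =
          (iI P p * iI P q * (lo Z a * lo Z b * lo Z c) * (Ph X (e * (a * b * c * (p * q))) * wt2 e)) *
          (κ a b c * τ p q a b * (wt2 a * wt2 b * wt2 c * ((jac a e : ℝ) * jac b c))) := by ring
      rw [e1, abs_mul, abs_of_nonneg hA]
      refine mul_le_of_le_one_right hA ?_
      exact abs_mul_le (abs_mul_le (hκ _ _ _) (ht _ _ _ _)) (abs_mul_le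
        (abs_mul_le (abs_mul_le (wt2_abs _) (wt2_abs _)) (wt2_abs _)) (abs_mul_le (jac_abs _ _) (jac_abs _ _)))
    refine hstep.trans ?_
    by_cases c1 : p ∈ IB kx P
    swap
    · have : iI P p = 0 := by unfold iI; rw [if_neg c1]
      rw [this]; simp
    by_cases c2 : q ∈ IB kx P
    swap
    · have : iI P q = 0 := by unfold iI; rw [if_neg c2]
      rw [this]; simp
    by_cases c3 : nrm a ≤ Z
    swap
    · have : lo Z a = 0 := by unfold lo; rw [if_neg c3]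
      rw [this]; simp
    by_cases c4 : nrm b ≤ Z
    swap
    · have : lo Z b = 0 := by unfold lo; rw [if_neg c4]
      rw [this]; simp
    by_cases c5 : nrm c ≤ Z
    swap
    · have : lo Z c = 0 := by unfold lo; rw [if_neg c5]
      rw [this]; simp
    have e1 : iI P p = 1 := by unfold iI; rw [if_pos c1]
    have e2 : iI P q = 1 := by unfold iI; rw [if_pos c2]
    have e3 : lo Z a = 1 := by unfold lo; rw [if_pos c3]
    have e4 : lo Z b = 1 := by unfold lo; rw [if_pos c4]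
    have e5 : lo Z c = 1 := by unfold lo; rw [if_pos c5]
    have h1 := hsw0 hr X
    have hnr : nrm (a * b * c * (p * q)) ≤ Z ^ 3 * (P ^ kx) ^ 2 := by
      rw [nrm_mul, nrm_mul, nrm_mul a b, nrm_mul p q, sq]
      refine Nat.mul_le_mul ?_ (Nat.mul_le_mul (mem_IB.1 c1).1 (mem_IB.1 c2).1)
      have : Z ^ 3 = Z * Z * Z := by ring
      rw [this]
      exact Nat.mul_le_mul (Nat.mul_le_mul c3 c4) c5
    have hTB := TB hlam h hr hnr
    rw [e1, e2, e3, e4, e5]
    norm_num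
    refine h1.trans ?_
    refine (mul_le_mul_of_nonneg_left hTB (by norm_num)).trans (le_of_eq ?_)
    rw [nrm_mul, nrm_mul, nrm_mul, nrm_mul]
    push_cast
    rw [one_div, mul_inv, mul_inv, mul_inv, mul_inv]
    ring

end Pool.Agent.Y699
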