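import Pool.Agent.Y699.Dsc

/-!
The group of rational points is finite.
-/

set_option autoImplicit false
set_option linter.unusedSectionVars false

open IsDedekindDomain WithZero

namespace Pool.Agent.Y699

open H385 (ZI RQ im1 nrm)
open Pool.Agent.W164.RC (two2 prim_iff_dvd unit_norm unit_cases)
open Pool.Agent.H304R2.EC.A1 (prim prim_mul prim_cancel prim_one prim_norm_odd prim_star eq_one_of_prim
  norm_def' re_mul' im_mul' eq_of_dvd prim_ne_zero exists_prim)
open Av (AV Set2 Nt g tau empty_of_step)

/-- the place above two -/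
noncomputable def v0 : HeightOneSpectrum ZI where
  asIdeal := Ideal.span {pi1}
  isPrime := (Ideal.span_singleton_prime pi1_prime.ne_zero).2 pi1_prime
  ne_bot := by rw [Ne, Ideal.span_singleton_eq_bot]; exact pi1_prime.ne_zero

variable {F : Type} [Field F] [Algebra ZI F] [IsFractionRing ZI F]

variable (F) in
/-- the additive valuation above two -/
noncomputable def vv (x : F) : ℤ := - WithZero.log (v0.valuation F x)

lemma w_ne {x : F} (hx : x ≠ 0) : v0.valuation F x ≠ 0 := (Valuation.ne_zero_iff _).2 hx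

lemma vv_av : AV (vv F) where
  mul := by
    intro x y hx hy
    unfold vv
    rw [map_mul, WithZero.log_mul (w_ne hx) (w_ne hy)]
    ring
  add := by
    intro x y hx hy hxy
    unfold vv
    have h1 := (v0.valuation F).map_add x y
    rcases le_max_iff.1 h1 with h2 | h2
    · have := (WithZero.log_le_log (w_ne hxy) (w_ne hx)).2 h2
      exact (min_le_left _ _).trans (by omega)
    · have := (WithZero.log_le_log (w_ne hxy) (w_ne hy)).2 h2
      exact (min_le_right _ _).trans (by omega)

lemma vv_pi1 : vv F (algebraMap ZI F pi1) = 1 := by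
  unfold vv
  rw [HeightOneSpectrum.valuation_of_algebraMap, v0.intValuation_singleton pi1_prime.ne_zero rfl,
    WithZero.log_exp]
  norm_num

lemma vv_odd {a : ZI} (ha : ¬ pi1 ∣ a) : vv F (algebraMap ZI F a) = 0 := by
  unfold vv
  have : v0.valuation F (algebraMap ZI F a) = 1 := by
    rw [HeightOneSpectrum.valuation_of_algebraMap, HeightOneSpectrum.intValuation_eq_one_iff]
    intro h
    exact ha (Ideal.mem_span_singleton.1 h)
  rw [this, WithZero.log_one]
  rfl

lemma set2 {D : ZI} (hD : prim D) : Set2 (vv F) (algebraMap ZI F pi1) (algebraMap ZI F im1)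
    (algebraMap ZI F D) where
  av := vv_av
  ll := by
    rw [← map_pow]
    have e : pi1 ^ 2 = 2 * im1 := by decide
    rw [e, map_mul, map_ofNat]
  jj := by
    rw [← map_pow]
    have e : im1 ^ 2 = (-1 : ZI) := by decide
    rw [e, map_neg, map_one]
  lj := by
    rw [← map_one (algebraMap ZI F), ← map_add]
    congr 1
  two := by
    have : algebraMap ZI F 2 ≠ 0 := A_ne (by decide)
    rwa [map_ofNat] at this
  vl := vv_pi1
  D0 := A_ne (prim_ne_zero hD)
  vD := vv_odd (pi1_prim hD)
  res := by
    intro t ht0 ht ht1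
    have hw : v0.valuation F t = 1 := by
      unfold vv at ht
      have h1 : WithZero.log (v0.valuation F t) = 0 := by omega
      rw [← WithZero.exp_log (w_ne ht0), h1, WithZero.exp_zero]
    obtain ⟨a, b, hab⟩ := v0.exists_primeCompl_mul_eq_of_integer t hw.le
    have hb : ¬ pi1 ∣ (b : ZI) := fun h => b.2 (Ideal.mem_span_singleton.2 h)
    have hb1 : v0.valuation F (algebraMap ZI F (b : ZI)) = 1 := by
      rw [HeightOneSpectrum.valuation_of_algebraMap, HeightOneSpectrum.intValuation_eq_one_iff]
      exact b.2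
    have ha : ¬ pi1 ∣ a := by
      intro h
      have h1 : v0.valuation F (algebraMap ZI F a) < 1 := by
        rw [HeightOneSpectrum.valuation_lt_one_iff_mem]
        exact Ideal.mem_span_singleton.2 h
      rw [← hab, map_mul, hw, hb1, one_mul] at h1
      exact lt_irrefl _ h1
    have hab' : pi1 ∣ a - (b : ZI) := by
      have h1 := (norm_odd_iff a).2 ha
      have h2 := (norm_odd_iff (b : ZI)).2 hb
      by_contra hc
      have h3 := (norm_odd_iff _).2 hc
      rw [norm_def'] at h1 h2 h3
      have e : ∀ z : ℤ, z ^ 2 % 2 = z % 2 := by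
        intro z
        rcases Int.emod_two_eq_zero_or_one z with h | h <;> rw [sq, Int.mul_emod, h] <;> norm_num
      have q1 := e a.re
      have q2 := e a.im
      have q3 := e (b : ZI).re
      have q4 := e (b : ZI).im
      have q5 := e (a - (b : ZI)).re
      have q6 := e (a - (b : ZI)).im
      rw [Zsqrtd.re_sub] at q5 h3
      rw [Zsqrtd.im_sub] at q6 h3
      omega
    have h1 : v0.valuation F (t - 1) < 1 := by
      have h2 : v0.valuation F (algebraMap ZI F (a - (b : ZI))) < 1 := by
        rw [HeightOneSpectrum.valuation_lt_one_iff_mem]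
        exact Ideal.mem_span_singleton.2 hab'
      rw [map_sub, ← hab] at h2
      have e : t * algebraMap ZI F (b : ZI) - algebraMap ZI F (b : ZI) =
          (t - 1) * algebraMap ZI F (b : ZI) := by ring
      rwa [e, map_mul, hb1, mul_one] at h2
    unfold vv
    have h3 : t - 1 ≠ 0 := sub_ne_zero.2 ht1
    have h4 := (WithZero.log_lt_log (w_ne h3) one_ne_zero).2 h1
    rw [WithZero.log_one] at h4
    omega

variable {ι : Type} [DecidableEq ι] [Fintype ι] {pr : ι → ZI}

/-- **there are no points of infinite order** -/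
theorem no_points (hp : PF pr) {V : Finset ι} (hw : ∑ i ∈ V, wt pr i = 1)
    (hker : ∀ z : ι → ZMod 2, (∀ v ∈ V, ∑ u ∈ V, em pr u v * (z u + z v) = 0) →
      ∀ u ∈ V, ∀ v ∈ V, z u = z v) {x y : F}
    (hxy : y ^ 2 = x ^ 3 - (algebraMap ZI F (DD pr V)) ^ 2 * x) : y = 0 := by
  set D : F := algebraMap ZI F (DD pr V) with hD
  have hS := set2 (F := F) (DD_prim hp V)
  rw [← hD] at hS
  set l : F := algebraMap ZI F pi1 with hl
  set j : F := algebraMap ZI F im1 with hj
  have hD0 := hS.D0
  have hl0 := hS.l0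
  have hj0 := hS.j0
  have h20 := hS.two
  have hll := hS.ll
  have hjj := hS.jj
  set X : Set F := {x | ∃ y : F, y ≠ 0 ∧ y ^ 2 = x ^ 3 - D ^ 2 * x} with hX
  have hnt : ∀ x ∈ X, Nt D x := by
    rintro x ⟨y, hy, hxy⟩
    have h1 : ∀ z : F, z = 0 → x ^ 3 - D ^ 2 * x = z * z → False := by
      intro z hz h
      apply hy
      have : y ^ 2 = 0 := by rw [hxy, h, hz, mul_zero]
      exact pow_eq_zero_iff (by norm_num) |>.1 this
    refine ⟨fun h => h1 0 rfl ?_, fun h => h1 0 rfl ?_, fun h => h1 0 rfl ?_⟩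
    · rw [h]; ring
    · have : x ^ 3 - D ^ 2 * x = (x - D) * (x * (x + D)) := by ring
      rw [this, h]; ring
    · have : x ^ 3 - D ^ 2 * x = (x + D) * (x * (x - D)) := by ring
      rw [this, h]; ring
  -- halving when the abscissa is a square
  have hhalf : ∀ x ∈ X, ∀ w : F, x = w ^ 2 → ∃ x' ∈ X, x = g l D x' := by
    rintro x hx w hxw
    obtain ⟨n0, n1, n2⟩ := hnt x hx
    obtain ⟨y, hy, hxy⟩ := hx
    have hw0 : w ≠ 0 := by
      rintro rfl
      apply n0
      rw [hxw]; ring
    set b : F := y / w with hb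
    have hb2 : b ^ 2 = x ^ 2 - D ^ 2 := by
      rw [hb, div_pow, hxy, ← hxw]
      field_simp
    have hprod : (w ^ 2 + b) * (w ^ 2 - b) = D ^ 2 := by
      rw [← hxw]
      linear_combination -hb2
    have hs0 : w ^ 2 + b ≠ 0 := by
      intro h
      rw [h, zero_mul] at hprod
      exact hD0 (pow_eq_zero_iff (by norm_num) |>.1 hprod.symm)
    set x' : F := j * (w ^ 2 + b) with hx'
    have hx'0 : x' ≠ 0 := mul_ne_zero hj0 hs0
    have key : x' ^ 2 - D ^ 2 = l ^ 2 * x' * x := by
      rw [hx', hll, hxw]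
      have hb2' : b ^ 2 = w ^ 4 - D ^ 2 := by rw [hb2, hxw]; ring
      linear_combination (w ^ 4 + 2 * w ^ 2 * b + b ^ 2 - 2 * w ^ 2 * (w ^ 2 + b)) * hjj - hb2'
    refine ⟨x', ⟨l * w * x', mul_ne_zero (mul_ne_zero hl0 hw0) hx'0, ?_⟩, ?_⟩
    · have e : x' ^ 3 - D ^ 2 * x' = x' * (x' ^ 2 - D ^ 2) := by ring
      rw [e, key, hxw]
      ring
    · unfold g
      rw [key]
      field_simp
  have hstep : ∀ x ∈ X, ∃ x' ∈ X, x = g l D x' ∨ (g l D x' ∈ X ∧ x = tau D (g l D x')) := by
    intro x hx
    obtain ⟨n0, n1, n2⟩ := hnt x hx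
    obtain ⟨y, hy, hxy⟩ := id hx
    obtain ⟨w, hw1 | hw1⟩ := square_class (F := F) hp hw hker hy hxy
    · obtain ⟨x', hx', h1⟩ := hhalf x hx w hw1
      exact ⟨x', hx', Or.inl h1⟩
    · rw [← hD] at hw1
      have hw0 : w ≠ 0 := by
        rintro rfl
        apply n0
        rw [hw1]; ring
      have hτ : tau D x ∈ X := by
        refine ⟨2 * D ^ 2 * y / (x - D) ^ 2,
          div_ne_zero (mul_ne_zero (mul_ne_zero h20 (pow_ne_zero 2 hD0)) hy) (pow_ne_zero 2 n1), ?_⟩
        unfold tau
        rw [div_pow, mul_pow, hxy]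
        field_simp
        ring
      have hτsq : tau D x = (y / (w * (x - D))) ^ 2 := by
        unfold tau
        rw [div_pow, hxy]
        have e : x ^ 3 - D ^ 2 * x = x * ((x - D) * (x + D)) := by ring
        rw [e]
        have e2 : x * ((x - D) * (x + D)) = D * w ^ 2 * ((x - D) * (x + D)) := by rw [← hw1]
        rw [e2]
        field_simp
      obtain ⟨x', hx', h1⟩ := hhalf _ hτ _ hτsq
      refine ⟨x', hx', Or.inr ⟨by rw [← h1]; exact hτ, ?_⟩⟩
      rw [← h1]
      have hm := (Av.v_tau_sub hS ⟨n0, n1, n2⟩).1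
      have e1 : tau D (tau D x) = D * (tau D x + D) / (tau D x - D) := rfl
      have e2 : tau D x + D = (2 * D) * x / (x - D) := by
        unfold tau; field_simp; ring
      have e3 : tau D x - D = (2 * D) * D / (x - D) := by
        unfold tau; field_simp; ring
      rw [e1, e2, e3]
      field_simp
  have hempty := empty_of_step hS X hnt hstep
  by_contra hy
  have : x ∈ X := ⟨y, hy, hxy⟩
  rw [hempty] at this
  exact this

end Pool.Agent.Y699
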