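import Pool.Agent.Y699.Kid

/-!
Sums over six variables.
-/

set_option autoImplicit false

open Finset

namespace Pool.Agent.Y699

open H385 (ZI RQ im1 nrm BX)
open H385.H10 (mem_BX nrm_pos Dv mem_Dv card_Dv)
open Pool.Agent.W164.RC (two2 prim_iff_dvd unit_norm unit_cases)
open Pool.Agent.H304R2.EC.A1 (prim prim_mul prim_cancel prim_one prim_norm_odd prim_star eq_one_of_prim
  norm_def' re_mul' im_mul' eq_of_dvd prim_ne_zero exists_prim)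

/-- a sum over six variables -/
noncomputable def S6 (s : Finset ZI) (F : ZI → ZI → ZI → ZI → ZI → ZI → ℝ) : ℝ :=
  ∑ p ∈ s, ∑ q ∈ s, ∑ a ∈ s, ∑ b ∈ s, ∑ c ∈ s, ∑ e ∈ s, F p q a b c e

lemma S6_12 (s : Finset ZI) (F : ZI → ZI → ZI → ZI → ZI → ZI → ℝ) :
    S6 s F = S6 s (fun p q a b c e => F q p a b c e) := by
  unfold S6
  exact sum_comm

lemma S6_23 (s : Finset ZI) (F : ZI → ZI → ZI → ZI → ZI → ZI → ℝ) :
    S6 s F = S6 s (fun p q a b c e => F p a q b c e) := by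
  unfold S6
  exact sum_congr rfl fun _ _ => sum_comm

lemma S6_34 (s : Finset ZI) (F : ZI → ZI → ZI → ZI → ZI → ZI → ℝ) :
    S6 s F = S6 s (fun p q a b c e => F p q b a c e) := by
  unfold S6
  exact sum_congr rfl fun _ _ => sum_congr rfl fun _ _ => sum_comm

lemma S6_45 (s : Finset ZI) (F : ZI → ZI → ZI → ZI → ZI → ZI → ℝ) :
    S6 s F = S6 s (fun p q a b c e => F p q a c b e) := by
  unfold S6
  exact sum_congr rfl fun _ _ => sum_congr rfl fun _ _ => sum_congr rfl fun _ _ => sum_comm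

lemma S6_56 (s : Finset ZI) (F : ZI → ZI → ZI → ZI → ZI → ZI → ℝ) :
    S6 s F = S6 s (fun p q a b c e => F p q a b e c) := by
  unfold S6
  exact sum_congr rfl fun _ _ => sum_congr rfl fun _ _ => sum_congr rfl fun _ _ =>
    sum_congr rfl fun _ _ => sum_comm

lemma S6_B1 (s : Finset ZI) (F : ZI → ZI → ZI → ZI → ZI → ZI → ℝ) :
    S6 s F = S6 s (fun x1 x2 x3 x4 x5 x6 => F x1 x6 x5 x2 x3 x4) :=
  (S6_23 s F).trans ((S6_34 s _).trans ((S6_45 s _).trans ((S6_56 s _).trans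
    ((S6_23 s _).trans ((S6_34 s _).trans (S6_45 s _))))))

lemma S6_B2 (s : Finset ZI) (F : ZI → ZI → ZI → ZI → ZI → ZI → ℝ) :
    S6 s F = S6 s (fun x1 x2 x3 x4 x5 x6 => F x1 x2 x3 x5 x6 x4) :=
  (S6_56 s F).trans (S6_45 s _)

lemma S6_B2' (s : Finset ZI) (F : ZI → ZI → ZI → ZI → ZI → ZI → ℝ) :
    S6 s F = S6 s (fun x1 x2 x3 x4 x5 x6 => F x6 x1 x2 x5 x3 x4) :=
  (S6_12 s F).trans ((S6_23 s _).trans ((S6_34 s _).trans ((S6_45 s _).trans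
    ((S6_56 s _).trans ((S6_34 s _).trans (S6_45 s _))))))

lemma S6_B4 (s : Finset ZI) (F : ZI → ZI → ZI → ZI → ZI → ZI → ℝ) :
    S6 s F = S6 s (fun x1 x2 x3 x4 x5 x6 => F x1 x2 x3 x5 x4 x6) := S6_45 s F

lemma S6_sw (s : Finset ZI) (F : ZI → ZI → ZI → ZI → ZI → ZI → ℝ) :
    S6 s F = S6 s (fun x1 x2 x3 x4 x5 x6 => F x1 x2 x4 x3 x6 x5) :=
  (S6_34 s F).trans (S6_56 s _)

lemma S6_congr {s : Finset ZI} {F G : ZI → ZI → ZI → ZI → ZI → ZI → ℝ}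
    (h : ∀ p ∈ s, ∀ q ∈ s, ∀ a ∈ s, ∀ b ∈ s, ∀ c ∈ s, ∀ e ∈ s, F p q a b c e = G p q a b c e) :
    S6 s F = S6 s G := by
  unfold S6
  exact sum_congr rfl fun p hp => sum_congr rfl fun q hq => sum_congr rfl fun a ha =>
    sum_congr rfl fun b hb => sum_congr rfl fun c hc => sum_congr rfl fun e he =>
    h p hp q hq a ha b hb c hc e he

lemma S6_le {s : Finset ZI} {F G : ZI → ZI → ZI → ZI → ZI → ZI → ℝ}
    (h : ∀ p ∈ s, ∀ q ∈ s, ∀ a ∈ s, ∀ b ∈ s, ∀ c ∈ s, ∀ e ∈ s, F p q a b c e ≤ G p q a b c e) :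
    S6 s F ≤ S6 s G := by
  unfold S6
  exact sum_le_sum fun p hp => sum_le_sum fun q hq => sum_le_sum fun a ha =>
    sum_le_sum fun b hb => sum_le_sum fun c hc => sum_le_sum fun e he =>
    h p hp q hq a ha b hb c hc e he

lemma S6_add (s : Finset ZI) (F G : ZI → ZI → ZI → ZI → ZI → ZI → ℝ) :
    S6 s (fun p q a b c e => F p q a b c e + G p q a b c e) = S6 s F + S6 s G := by
  unfold S6
  simp only [sum_add_distrib]

lemma S6_mul (s : Finset ZI) (k : ℝ) (F : ZI → ZI → ZI → ZI → ZI → ZI → ℝ) :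
    S6 s (fun p q a b c e => k * F p q a b c e) = k * S6 s F := by
  unfold S6
  simp only [mul_sum]

/-- bounding with four outer variables -/
lemma S6_bound {s : Finset ZI} {F : ZI → ZI → ZI → ZI → ZI → ZI → ℝ} {K : ℝ}
    {g1 g2 g3 g4 : ZI → ℝ}
    (h : ∀ x1 ∈ s, ∀ x2 ∈ s, ∀ x3 ∈ s, ∀ x4 ∈ s, |∑ x5 ∈ s, ∑ x6 ∈ s, F x1 x2 x3 x4 x5 x6| ≤
      K * (g1 x1 * (g2 x2 * (g3 x3 * g4 x4)))) :
    |S6 s F| ≤ K * ((∑ x ∈ s, g1 x) * ((∑ x ∈ s, g2 x) * ((∑ x ∈ s, g3 x) * ∑ x ∈ s, g4 x))) := by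
  unfold S6
  have e : K * ((∑ x ∈ s, g1 x) * ((∑ x ∈ s, g2 x) * ((∑ x ∈ s, g3 x) * ∑ x ∈ s, g4 x))) =
      ∑ x1 ∈ s, ∑ x2 ∈ s, ∑ x3 ∈ s, ∑ x4 ∈ s, K * (g1 x1 * (g2 x2 * (g3 x3 * g4 x4))) := by
    rw [sum_mul, mul_sum]
    refine sum_congr rfl fun x1 _ => ?_
    rw [sum_mul, mul_sum, mul_sum]
    refine sum_congr rfl fun x2 _ => ?_
    rw [sum_mul, mul_sum, mul_sum, mul_sum]
    refine sum_congr rfl fun x3 _ => ?_
    rw [mul_sum, mul_sum, mul_sum, mul_sum]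
  rw [e]
  refine (abs_sum_le_sum_abs _ _).trans (sum_le_sum fun x1 h1 => ?_)
  refine (abs_sum_le_sum_abs _ _).trans (sum_le_sum fun x2 h2 => ?_)
  refine (abs_sum_le_sum_abs _ _).trans (sum_le_sum fun x3 h3 => ?_)
  refine (abs_sum_le_sum_abs _ _).trans (sum_le_sum fun x4 h4 => ?_)
  exact h x1 h1 x2 h2 x3 h3 x4 h4

/-- bounding with five outer variables -/
lemma S6_bound5 {s : Finset ZI} {F : ZI → ZI → ZI → ZI → ZI → ZI → ℝ} {K : ℝ}
    {g1 g2 g3 g4 g5 : ZI → ℝ}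
    (h : ∀ x1 ∈ s, ∀ x2 ∈ s, ∀ x3 ∈ s, ∀ x4 ∈ s, ∀ x5 ∈ s, |∑ x6 ∈ s, F x1 x2 x3 x4 x5 x6| ≤
      K * (g1 x1 * (g2 x2 * (g3 x3 * (g4 x4 * g5 x5))))) :
    |S6 s F| ≤ K * ((∑ x ∈ s, g1 x) * ((∑ x ∈ s, g2 x) * ((∑ x ∈ s, g3 x) *
      ((∑ x ∈ s, g4 x) * ∑ x ∈ s, g5 x)))) := by
  unfold S6
  have e : K * ((∑ x ∈ s, g1 x) * ((∑ x ∈ s, g2 x) * ((∑ x ∈ s, g3 x) *
      ((∑ x ∈ s, g4 x) * ∑ x ∈ s, g5 x)))) =
      ∑ x1 ∈ s, ∑ x2 ∈ s, ∑ x3 ∈ s, ∑ x4 ∈ s, ∑ x5 ∈ s,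
        K * (g1 x1 * (g2 x2 * (g3 x3 * (g4 x4 * g5 x5)))) := by
    rw [sum_mul, mul_sum]
    refine sum_congr rfl fun x1 _ => ?_
    rw [sum_mul, mul_sum, mul_sum]
    refine sum_congr rfl fun x2 _ => ?_
    rw [sum_mul, mul_sum, mul_sum, mul_sum]
    refine sum_congr rfl fun x3 _ => ?_
    rw [sum_mul, mul_sum, mul_sum, mul_sum, mul_sum]
    refine sum_congr rfl fun x4 _ => ?_
    rw [mul_sum, mul_sum, mul_sum, mul_sum, mul_sum]
  rw [e]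
  refine (abs_sum_le_sum_abs _ _).trans (sum_le_sum fun x1 h1 => ?_)
  refine (abs_sum_le_sum_abs _ _).trans (sum_le_sum fun x2 h2 => ?_)
  refine (abs_sum_le_sum_abs _ _).trans (sum_le_sum fun x3 h3 => ?_)
  refine (abs_sum_le_sum_abs _ _).trans (sum_le_sum fun x4 h4 => ?_)
  refine (abs_sum_le_sum_abs _ _).trans (sum_le_sum fun x5 h5 => ?_)
  exact h x1 h1 x2 h2 x3 h3 x4 h4 x5 h5

open Classical in
/-- the indicator function of the interval -/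
noncomputable def iI (P : ℕ) (π : ZI) : ℝ := if π ∈ IB kx P then 1 else 0

/-- large elements -/
noncomputable def hi (Z : ℕ) (x : ZI) : ℝ := if Z < nrm x then 1 else 0

/-- small elements -/
noncomputable def lo (Z : ℕ) (x : ZI) : ℝ := if nrm x ≤ Z then 1 else 0

lemma iI_nonneg (P : ℕ) (π : ZI) : 0 ≤ iI P π := by unfold iI; split_ifs <;> norm_num
lemma iI_le (P : ℕ) (π : ZI) : iI P π ≤ 1 := by unfold iI; split_ifs <;> norm_num
lemma hi_nonneg (Z : ℕ) (x : ZI) : 0 ≤ hi Z x := by unfold hi; split_ifs <;> norm_num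
lemma hi_le (Z : ℕ) (x : ZI) : hi Z x ≤ 1 := by unfold hi; split_ifs <;> norm_num
lemma lo_nonneg (Z : ℕ) (x : ZI) : 0 ≤ lo Z x := by unfold lo; split_ifs <;> norm_num
lemma lo_le (Z : ℕ) (x : ZI) : lo Z x ≤ 1 := by unfold lo; split_ifs <;> norm_num
lemma iI_abs (P : ℕ) (π : ZI) : |iI P π| ≤ 1 := by rw [abs_of_nonneg (iI_nonneg _ _)]; exact iI_le _ _
lemma hi_abs (Z : ℕ) (x : ZI) : |hi Z x| ≤ 1 := by rw [abs_of_nonneg (hi_nonneg _ _)]; exact hi_le _ _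
lemma lo_abs (Z : ℕ) (x : ZI) : |lo Z x| ≤ 1 := by rw [abs_of_nonneg (lo_nonneg _ _)]; exact lo_le _ _

lemma iI_zero {P Z : ℕ} (h : Z ≤ P) {x : ZI} (hx : nrm x ≤ Z) : iI P x = 0 := by
  classical
  unfold iI
  rw [if_neg]
  intro h1
  rw [mem_IB] at h1
  omega

lemma hi_zero {Z : ℕ} {x : ZI} (hx : nrm x ≤ Z) : hi Z x = 0 := by
  unfold hi
  rw [if_neg (by omega)]

lemma abs_mul_le {x y : ℝ} (hx : |x| ≤ 1) (hy : |y| ≤ 1) : |x * y| ≤ 1 := by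
  rw [abs_mul]
  exact mul_le_one₀ hx (abs_nonneg _) hy

/-- the summand -/
noncomputable def F6 (P X : ℕ) (κ : ZI → ZI → ZI → ℝ) (τ : ZI → ZI → ZI → ZI → ℝ)
    (p q a b c e : ZI) : ℝ :=
  iI P p * iI P q * (Ph X (a * b * c * e * (p * q)) *
    (κ a b c * τ p q a b * (wt2 a * wt2 b * wt2 c * wt2 e * (jac a e * jac b c))))

lemma sum_inv_SB (X : ℕ) : ∑ x ∈ SB X, (1 : ℝ) / nrm x ≤ 18 * lg X := hsum_SB X

lemma four_bound {X : ℕ} {K : ℝ} (hK : 0 ≤ K) :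
    K * ((∑ x ∈ SB X, (1 : ℝ) / nrm x) * ((∑ x ∈ SB X, (1 : ℝ) / nrm x) *
      ((∑ x ∈ SB X, (1 : ℝ) / nrm x) * ∑ x ∈ SB X, (1 : ℝ) / nrm x))) ≤ K * (18 * lg X) ^ 4 := by
  have h := hsum_SB X
  have h0 : 0 ≤ ∑ x ∈ SB X, (1 : ℝ) / nrm x := sum_nonneg fun _ _ => by positivity
  apply mul_le_mul_of_nonneg_left _ hK
  calc (∑ x ∈ SB X, (1 : ℝ) / nrm x) * ((∑ x ∈ SB X, (1 : ℝ) / nrm x) *
      ((∑ x ∈ SB X, (1 : ℝ) / nrm x) * ∑ x ∈ SB X, (1 : ℝ) / nrm x)) = (∑ x ∈ SB X, (1 : ℝ) / nrm x) ^ 4 := by ring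
    _ ≤ _ := pow_le_pow_left₀ h0 h 4

lemma inv_four {X : ℕ} {x1 x2 x3 x4 : ZI} {C L z : ℝ} :
    C * ((X : ℝ) / nrm (x1 * x2 * x3 * x4) * L) * z =
      (C * (X * L) * z) * (1 / nrm x1 * (1 / nrm x2 * (1 / nrm x3 * (1 / nrm x4)))) := by
  rw [nrm_mul, nrm_mul, nrm_mul]
  push_cast
  rw [one_div_mul_one_div, one_div_mul_one_div, one_div_mul_one_div, mul_one_div]
  rw [show (nrm x1 : ℝ) * nrm x2 * nrm x3 * nrm x4 = nrm x1 * (nrm x2 * (nrm x3 * nrm x4)) by ring]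
  ring

/-- first regime -/
theorem reg1 : ∃ C : ℝ, 1 ≤ C ∧ ∀ (P X Z : ℕ), 1 ≤ Z → Z ≤ P → ∀ t : ZI → ZI → ZI → ℝ,
    (∀ p a b, |t p a b| ≤ 1) →
    |S6 (SB X) (F6 P X (fun a _ _ => hi Z a) (fun p q a b => t p a b * jac a q))| ≤
      C * (X * lg X ^ 5) * (Z : ℝ) ^ (-(1 / 96) : ℝ) := by
  obtain ⟨C, hC1, hC⟩ := blw
  refine ⟨18 ^ 4 * C, by linarith, ?_⟩
  intro P X Z hZ hZP t ht
  have hlg := lg_pos X
  rw [S6_B1]
  have h := S6_bound (s := SB X) (F := fun x1 x2 x3 x4 x5 x6 =>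
      F6 P X (fun a _ _ => hi Z a) (fun p q a b => t p a b * jac a q) x1 x6 x5 x2 x3 x4)
    (K := C * (X * lg X) * (Z : ℝ) ^ (-(1 / 96) : ℝ))
    (g1 := fun x => 1 / nrm x) (g2 := fun x => 1 / nrm x) (g3 := fun x => 1 / nrm x) (g4 := fun x => 1 / nrm x) ?_
  · refine h.trans ((four_bound (by positivity)).trans (le_of_eq (by ring)))
  · intro p hp b hb c hc e he
    rw [mem_SB] at hp hb hc he
    have hr : prim (b * c * e * p) := prim_mul (prim_mul (prim_mul hb.2.prm hc.2.prm) he.2.prm) hp.2.prm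
    have h1 := hC (fun a => hi Z a * (t p a b * (wt2 a * jac a e))) (fun q => iI P q)
      (fun a => abs_mul_le (hi_abs _ _) (abs_mul_le (ht _ _ _) (abs_mul_le (wt2_abs _) (jac_abs _ _))))
      (fun q => iI_abs _ _) Z X hZ (fun x hx => by rw [hi_zero hx, zero_mul]) (fun x hx => iI_zero hZP hx)
      (b * c * e * p) hr
    have e1 : ∑ a ∈ SB X, ∑ q ∈ SB X,
        F6 P X (fun a _ _ => hi Z a) (fun p q a b => t p a b * jac a q) p q a b c e =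
        (iI P p * (wt2 b * wt2 c * wt2 e * jac b c)) * ∑ a ∈ SB X, ∑ q ∈ SB X, Ph X (a * q * (b * c * e * p)) *
          ((hi Z a * (t p a b * (wt2 a * jac a e))) * iI P q * jac a q) := by
      rw [mul_sum]
      refine sum_congr rfl fun a _ => ?_
      rw [mul_sum]
      refine sum_congr rfl fun q _ => ?_
      unfold F6
      rw [show a * b * c * e * (p * q) = a * q * (b * c * e * p) by ring]
      ring
    rw [e1, abs_mul]
    have h2 : |iI P p * (wt2 b * wt2 c * wt2 e * (jac b c : ℝ))| ≤ 1 :=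
      abs_mul_le (iI_abs _ _) (abs_mul_le (abs_mul_le (abs_mul_le (wt2_abs _) (wt2_abs _)) (wt2_abs _)) (jac_abs _ _))
    refine (mul_le_of_le_one_left (abs_nonneg _) h2).trans (h1.trans (le_of_eq ?_))
    rw [inv_four]
    ring

/-- second regime -/
theorem reg2 : ∃ C : ℝ, 1 ≤ C ∧ ∀ (P X Z : ℕ), 1 ≤ Z → ∀ τ : ZI → ZI → ZI → ZI → ℝ,
    (∀ p q a b, |τ p q a b| ≤ 1) →
    |S6 (SB X) (F6 P X (fun a b c => lo Z a * hi Z b * hi Z c) τ)| ≤
      C * (X * lg X ^ 5) * (Z : ℝ) ^ (-(1 / 96) : ℝ) := by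
  obtain ⟨C, hC1, hC⟩ := blw
  refine ⟨18 ^ 4 * C, by linarith, ?_⟩
  intro P X Z hZ τ ht
  have hlg := lg_pos X
  rw [S6_B2]
  have h := S6_bound (s := SB X) (F := fun x1 x2 x3 x4 x5 x6 =>
      F6 P X (fun a b c => lo Z a * hi Z b * hi Z c) τ x1 x2 x3 x5 x6 x4)
    (K := C * (X * lg X) * (Z : ℝ) ^ (-(1 / 96) : ℝ))
    (g1 := fun x => 1 / nrm x) (g2 := fun x => 1 / nrm x) (g3 := fun x => 1 / nrm x) (g4 := fun x => 1 / nrm x) ?_
  · refine h.trans ((four_bound (by positivity)).trans (le_of_eq (by ring)))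
  · intro p hp q hq a ha e he
    rw [mem_SB] at hp hq ha he
    have hr : prim (p * q * a * e) := prim_mul (prim_mul (prim_mul hp.2.prm hq.2.prm) ha.2.prm) he.2.prm
    have h1 := hC (fun b => hi Z b * (τ p q a b * wt2 b)) (fun c => hi Z c * wt2 c)
      (fun b => abs_mul_le (hi_abs _ _) (abs_mul_le (ht _ _ _ _) (wt2_abs _)))
      (fun c => abs_mul_le (hi_abs _ _) (wt2_abs _)) Z X hZ (fun x hx => by rw [hi_zero hx, zero_mul])
      (fun x hx => by rw [hi_zero hx, zero_mul]) (p * q * a * e) hr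
    have e1 : ∑ b ∈ SB X, ∑ c ∈ SB X,
        F6 P X (fun a b c => lo Z a * hi Z b * hi Z c) τ p q a b c e =
        (iI P p * iI P q * (lo Z a * (wt2 a * wt2 e * jac a e))) * ∑ b ∈ SB X, ∑ c ∈ SB X,
          Ph X (b * c * (p * q * a * e)) * ((hi Z b * (τ p q a b * wt2 b)) * (hi Z c * wt2 c) * jac b c) := by
      rw [mul_sum]
      refine sum_congr rfl fun b _ => ?_
      rw [mul_sum]
      refine sum_congr rfl fun c _ => ?_
      unfold F6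
      rw [show a * b * c * e * (p * q) = b * c * (p * q * a * e) by ring]
      ring
    rw [e1, abs_mul]
    have h2 : |iI P p * iI P q * (lo Z a * (wt2 a * wt2 e * (jac a e : ℝ)))| ≤ 1 :=
      abs_mul_le (abs_mul_le (iI_abs _ _) (iI_abs _ _)) (abs_mul_le (lo_abs _ _)
        (abs_mul_le (abs_mul_le (wt2_abs _) (wt2_abs _)) (jac_abs _ _)))
    refine (mul_le_of_le_one_left (abs_nonneg _) h2).trans (h1.trans (le_of_eq ?_))
    rw [inv_four]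

/-- second regime, mixed case -/
theorem reg2' : ∃ C : ℝ, 1 ≤ C ∧ ∀ (P X Z : ℕ), 1 ≤ Z → Z ≤ P → ∀ t : ZI → ZI → ZI → ℝ,
    (∀ q a b, |t q a b| ≤ 1) →
    |S6 (SB X) (F6 P X (fun a b _ => lo Z a * hi Z b) (fun p q a b => t q a b * jac b p))| ≤
      C * (X * lg X ^ 5) * (Z : ℝ) ^ (-(1 / 96) : ℝ) := by
  obtain ⟨C, hC1, hC⟩ := blw
  refine ⟨18 ^ 4 * C, by linarith, ?_⟩
  intro P X Z hZ hZP t ht
  have hlg := lg_pos X
  rw [S6_B2']
  have h := S6_bound (s := SB X) (F := fun x1 x2 x3 x4 x5 x6 =>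
      F6 P X (fun a b _ => lo Z a * hi Z b) (fun p q a b => t q a b * jac b p) x6 x1 x2 x5 x3 x4)
    (K := C * (X * lg X) * (Z : ℝ) ^ (-(1 / 96) : ℝ))
    (g1 := fun x => 1 / nrm x) (g2 := fun x => 1 / nrm x) (g3 := fun x => 1 / nrm x) (g4 := fun x => 1 / nrm x) ?_
  · refine h.trans ((four_bound (by positivity)).trans (le_of_eq (by ring)))
  · intro q hq a ha c hc e he
    rw [mem_SB] at hq ha hc he
    have hr : prim (q * a * c * e) := prim_mul (prim_mul (prim_mul hq.2.prm ha.2.prm) hc.2.prm) he.2.prm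
    have h1 := hC (fun b => hi Z b * (t q a b * (wt2 b * jac b c))) (fun p => iI P p)
      (fun b => abs_mul_le (hi_abs _ _) (abs_mul_le (ht _ _ _) (abs_mul_le (wt2_abs _) (jac_abs _ _))))
      (fun q => iI_abs _ _) Z X hZ (fun x hx => by rw [hi_zero hx, zero_mul]) (fun x hx => iI_zero hZP hx)
      (q * a * c * e) hr
    have e1 : ∑ b ∈ SB X, ∑ p ∈ SB X,
        F6 P X (fun a b _ => lo Z a * hi Z b) (fun p q a b => t q a b * jac b p) p q a b c e =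
        (iI P q * (lo Z a * (wt2 a * wt2 c * wt2 e * jac a e))) * ∑ b ∈ SB X, ∑ p ∈ SB X,
          Ph X (b * p * (q * a * c * e)) * ((hi Z b * (t q a b * (wt2 b * jac b c))) * iI P p * jac b p) := by
      rw [mul_sum]
      refine sum_congr rfl fun b _ => ?_
      rw [mul_sum]
      refine sum_congr rfl fun p _ => ?_
      unfold F6
      rw [show a * b * c * e * (p * q) = b * p * (q * a * c * e) by ring]
      ring
    rw [e1, abs_mul]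
    have h2 : |iI P q * (lo Z a * (wt2 a * wt2 c * wt2 e * (jac a e : ℝ)))| ≤ 1 :=
      abs_mul_le (iI_abs _ _) (abs_mul_le (lo_abs _ _)
        (abs_mul_le (abs_mul_le (abs_mul_le (wt2_abs _) (wt2_abs _)) (wt2_abs _)) (jac_abs _ _)))
    refine (mul_le_of_le_one_left (abs_nonneg _) h2).trans (h1.trans (le_of_eq ?_))
    rw [inv_four]

end Pool.Agent.Y699
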