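import Pool.Agent.Y699.Lg

/-!
Counting squarefree primary elements.
-/

set_option autoImplicit false

open Finset

namespace Pool.Agent.Y699

open H385 (ZI RQ im1 nrm BX)
open H385.H10 (mem_BX nrm_pos Dv mem_Dv card_Dv)
open Pool.Agent.W164.RC (two2 prim_iff_dvd unit_norm unit_cases)
open Pool.Agent.H304R2.EC.A1 (prim prim_mul prim_cancel prim_one prim_norm_odd prim_star eq_one_of_prim
  norm_def' re_mul' im_mul' eq_of_dvd prim_ne_zero exists_prim)

lemma cnt_lo (s : ℕ) (c : ℤ) :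
    (2 * s + 1) / 4 ≤ ((Icc (-(s : ℤ)) s).filter (fun u => (4 : ℤ) ∣ u - c)).card := by
  have h1 : (image (fun j : ℕ => -(s : ℤ) + ((c + s) % 4) + 4 * j) (range ((2 * s + 1) / 4))) ⊆
      (Icc (-(s : ℤ)) s).filter (fun u => (4 : ℤ) ∣ u - c) := by
    intro u hu
    obtain ⟨j, hj, rfl⟩ := mem_image.1 hu
    rw [mem_range] at hj
    rw [mem_filter, mem_Icc]
    have e1 : 0 ≤ (c + s) % 4 := Int.emod_nonneg _ (by norm_num)
    have e2 : (c + s) % 4 < 4 := Int.emod_lt_of_pos _ (by norm_num)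
    refine ⟨⟨by omega, by omega⟩, by omega⟩
  refine le_trans ?_ (card_le_card h1)
  rw [card_image_of_injective, card_range]
  intro a b hab
  simp only at hab
  omega

lemma cnt_hi (s : ℕ) (c : ℤ) :
    ((Icc (-(s : ℤ)) s).filter (fun u => (4 : ℤ) ∣ u - c)).card ≤ s / 2 + 1 := by
  have h1 : (s / 2 + 1) = (range (s / 2 + 1)).card := (card_range _).symm
  rw [h1]
  refine card_le_card_of_injOn (fun u => ((u + s) / 4).toNat) ?_ ?_
  · intro u hu
    rw [mem_coe, mem_filter, mem_Icc] at hu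
    rw [mem_coe, mem_range]
    show ((u + s) / 4).toNat < s / 2 + 1
    omega
  · intro u hu v hv huv
    rw [mem_coe, mem_filter, mem_Icc] at hu hv
    simp only at huv
    omega

lemma four_dvd_iff {m c : ZI} : (4 : ZI) ∣ m - c ↔ (4 : ℤ) ∣ m.re - c.re ∧ (4 : ℤ) ∣ m.im - c.im := by
  have h := Zsqrtd.intCast_dvd (d := -1) 4 (m - c)
  have e : ((4 : ℤ) : ZI) = 4 := by norm_num
  rw [e] at h
  rw [h]
  simp

open Classical in
/-- elements of a class modulo 4 -/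
noncomputable def CC (c : ZI) (V : ℕ) : Finset ZI := (ZB V).filter (fun m => (4 : ZI) ∣ m - c)

lemma CC_hi (c : ZI) (V : ℕ) : (CC c V).card ≤ (Nat.sqrt V / 2 + 1) * (Nat.sqrt V / 2 + 1) := by
  classical
  have h1 : (CC c V).card ≤
      (((Icc (-(Nat.sqrt V : ℤ)) (Nat.sqrt V)).filter (fun u => (4 : ℤ) ∣ u - c.re)) ×ˢ
      ((Icc (-(Nat.sqrt V : ℤ)) (Nat.sqrt V)).filter (fun u => (4 : ℤ) ∣ u - c.im))).card := by
    refine card_le_card_of_injOn (fun m => (m.re, m.im)) ?_ ?_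
    · intro m hm
      unfold CC at hm
      rw [mem_coe, mem_filter, mem_ZB, four_dvd_iff] at hm
      rw [mem_coe, mem_product, mem_filter, mem_filter, mem_Icc, mem_Icc]
      have h2 := nrm_eq' m
      have h3 : (nrm m : ℤ) ≤ V := by exact_mod_cast hm.1
      have h4 : m.re.natAbs ≤ Nat.sqrt V := by
        rw [Nat.le_sqrt']; zify; rw [sq_abs]; nlinarith [sq_nonneg m.im]
      have h5 : m.im.natAbs ≤ Nat.sqrt V := by
        rw [Nat.le_sqrt']; zify; rw [sq_abs]; nlinarith [sq_nonneg m.re]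
      refine ⟨⟨⟨?_, ?_⟩, hm.2.1⟩, ⟨⟨?_, ?_⟩, hm.2.2⟩⟩ <;> simp only <;> omega
    · intro a _ b _ hab
      simp only [Prod.mk.injEq] at hab
      exact Zsqrtd.ext hab.1 hab.2
  rw [card_product] at h1
  exact h1.trans (Nat.mul_le_mul (cnt_hi _ _) (cnt_hi _ _))

lemma CC_lo (c : ZI) (V : ℕ) :
    ((2 * Nat.sqrt (V / 2) + 1) / 4) * ((2 * Nat.sqrt (V / 2) + 1) / 4) ≤ (CC c V).card := by
  classical
  set s := Nat.sqrt (V / 2) with hs
  have h1 : (((Icc (-(s : ℤ)) s).filter (fun u => (4 : ℤ) ∣ u - c.re)) ×ˢ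
      ((Icc (-(s : ℤ)) s).filter (fun u => (4 : ℤ) ∣ u - c.im))).card ≤ (CC c V).card := by
    refine card_le_card_of_injOn (fun p => (⟨p.1, p.2⟩ : ZI)) ?_ ?_
    · intro p hp
      rw [mem_coe, mem_product, mem_filter, mem_filter, mem_Icc, mem_Icc] at hp
      unfold CC
      rw [mem_coe, mem_filter, mem_ZB, four_dvd_iff]
      refine ⟨?_, hp.1.2, hp.2.2⟩
      have h2 := nrm_eq' (⟨p.1, p.2⟩ : ZI)
      have h3 : s * s ≤ V / 2 := Nat.sqrt_le _
      have h4 : ((s : ℤ) * s) * 2 ≤ V := by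
        have : s * s * 2 ≤ V := by omega
        exact_mod_cast this
      have h5 : (nrm (⟨p.1, p.2⟩ : ZI) : ℤ) ≤ V := by
        rw [h2]
        simp only
        nlinarith [hp.1.1.1, hp.1.1.2, hp.2.1.1, hp.2.1.2]
      exact_mod_cast h5
    · intro a _ b _ hab
      have e1 := congrArg Zsqrtd.re hab
      have e2 := congrArg Zsqrtd.im hab
      exact Prod.ext e1 e2
  rw [card_product] at h1
  exact (Nat.mul_le_mul (cnt_lo _ _) (cnt_lo _ _)).trans h1

lemma CC_hi' (c : ZI) {V : ℕ} {v : ℝ} (hv : (V : ℝ) ≤ v) : ((CC c V).card : ℝ) ≤ v / 4 + Real.sqrt v + 1 := by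
  have h1 : ((CC c V).card : ℝ) ≤ ((Nat.sqrt V / 2 + 1 : ℕ) : ℝ) * ((Nat.sqrt V / 2 + 1 : ℕ) : ℝ) := by
    exact_mod_cast CC_hi c V
  have h0 : (0 : ℝ) ≤ v := (Nat.cast_nonneg V).trans hv
  have h2 : ((Nat.sqrt V / 2 : ℕ) : ℝ) ≤ Real.sqrt v / 2 := by
    have : ((Nat.sqrt V / 2 : ℕ) : ℝ) ≤ (Nat.sqrt V : ℝ) / 2 := Nat.cast_div_le
    have h3 : (Nat.sqrt V : ℝ) ≤ Real.sqrt v := Real.nat_sqrt_le_real_sqrt.trans (Real.sqrt_le_sqrt hv)
    linarith
  have h3 : Real.sqrt v * Real.sqrt v = v := Real.mul_self_sqrt h0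
  have h4 : (0 : ℝ) ≤ ((Nat.sqrt V / 2 : ℕ) : ℝ) := Nat.cast_nonneg _
  push_cast at h1 h2 h4
  nlinarith [Real.sqrt_nonneg v]

lemma CC_lo' (c : ZI) (V : ℕ) : (V : ℝ) / 8 - Real.sqrt V ≤ ((CC c V).card : ℝ) := by
  set s := Nat.sqrt (V / 2) with hs
  have h1 : (((2 * s + 1) / 4 : ℕ) : ℝ) * (((2 * s + 1) / 4 : ℕ) : ℝ) ≤ ((CC c V).card : ℝ) := by
    exact_mod_cast CC_lo c V
  have h2 : ((s : ℝ) - 1) / 2 ≤ (((2 * s + 1) / 4 : ℕ) : ℝ) := by
    have : 2 * s + 1 ≤ 4 * ((2 * s + 1) / 4) + 3 := by omega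
    have h3 : 2 * (s : ℝ) + 1 ≤ 4 * (((2 * s + 1) / 4 : ℕ) : ℝ) + 3 := by exact_mod_cast this
    linarith
  have h4 : V / 2 < (s + 1) * (s + 1) := Nat.lt_succ_sqrt _
  have h5 : (V : ℝ) < 2 * (((s : ℝ) + 1) * ((s : ℝ) + 1)) := by
    have : V < 2 * ((s + 1) * (s + 1)) := by omega
    exact_mod_cast this
  have h6 : Real.sqrt (V / 2) ≤ (s : ℝ) + 1 := by
    rw [Real.sqrt_le_left (by positivity)]
    nlinarith
  have h7 : Real.sqrt (V / 2) * Real.sqrt (V / 2) = V / 2 := Real.mul_self_sqrt (by positivity)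
  have h8 : Real.sqrt (V / 2) ≤ Real.sqrt V := Real.sqrt_le_sqrt (by
      have : (0 : ℝ) ≤ V := Nat.cast_nonneg V
      linarith)
  have h0 := Real.sqrt_nonneg ((V : ℝ) / 2)
  have h9 : (0 : ℝ) ≤ (((2 * s + 1) / 4 : ℕ) : ℝ) := Nat.cast_nonneg _
  by_cases h10 : 2 ≤ Real.sqrt (V / 2)
  · have h11 : (Real.sqrt (V / 2) - 2) / 2 ≤ (((2 * s + 1) / 4 : ℕ) : ℝ) := by linarith
    have h12 : ((Real.sqrt (V / 2) - 2) / 2) * ((Real.sqrt (V / 2) - 2) / 2) ≤
        (((2 * s + 1) / 4 : ℕ) : ℝ) * (((2 * s + 1) / 4 : ℕ) : ℝ) :=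
      mul_le_mul h11 h11 (by linarith) h9
    nlinarith
  · push Not at h10
    have : (0 : ℝ) ≤ ((CC c V).card : ℝ) := Nat.cast_nonneg _
    nlinarith

/-- squares of primary elements -/
lemma prim_sq {t : ZI} (h : prim t) : (4 : ZI) ∣ t * t - 1 := by
  obtain ⟨w, hw⟩ := (prim_iff_dvd t).1 h
  have ht : t = 1 + two2 * w := by linear_combination hw
  have e : two2 * two2 = 8 * im1 := by decide
  have e2 : two2 = 2 + 2 * im1 := by decide
  refine ⟨(1 + im1) * w + 2 * im1 * w * w, ?_⟩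
  rw [ht]
  have : (1 + two2 * w) * (1 + two2 * w) - 1 = 2 * two2 * w + (two2 * two2) * w * w := by ring
  rw [this, e, e2]
  ring

open Classical in
lemma CC_sq {c t : ZI} (ht : prim t) (V : ℕ) :
    ((CC c V).filter (fun m => t * t ∣ m)).card ≤ (CC c (V / (nrm t * nrm t))).card := by
  have ht0 : t ≠ 0 := prim_ne_zero ht
  have h1 : (CC c V).filter (fun m => t * t ∣ m) ⊆ (CC c (V / (nrm t * nrm t))).image (fun k => t * t * k) := by
    intro m hm
    rw [mem_filter] at hm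
    obtain ⟨hm1, k, rfl⟩ := hm
    unfold CC at hm1
    rw [mem_filter, mem_ZB, nrm_mul, nrm_mul] at hm1
    rw [mem_image]
    refine ⟨k, ?_, rfl⟩
    unfold CC
    rw [mem_filter, mem_ZB]
    constructor
    · rw [Nat.le_div_iff_mul_le (Nat.mul_pos (nrm_pos' ht0) (nrm_pos' ht0))]
      linarith [hm1.1]
    · have h2 := prim_sq ht
      have h3 : (4 : ZI) ∣ (t * t * k - c) - (t * t - 1) * k := dvd_sub hm1.2 (h2.mul_right _)
      have h4 : (t * t * k - c) - (t * t - 1) * k = k - c := by ring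
      rwa [h4] at h3
  exact (card_le_card h1).trans card_image_le

/-- the two classes -/
def cls5 : ZI := ⟨3, 2⟩

lemma CC_one_prim {V : ℕ} {m : ZI} (h : m ∈ CC 1 V) : prim m ∧ m.norm % 8 = 1 := by
  classical
  unfold CC at h
  rw [mem_filter, four_dvd_iff] at h
  obtain ⟨-, h1, h2⟩ := h
  simp only [Zsqrtd.re_one, Zsqrtd.im_one, sub_zero] at h1 h2
  obtain ⟨a, ha⟩ := h1
  obtain ⟨b, hb⟩ := h2
  have ha' : m.re = 1 + 4 * a := by linarith
  constructor
  · rw [prim_iff_dvd]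
    have : m - 1 = two2 * ((1 - im1) * ⟨a, b⟩) := by
      have e : two2 * (1 - im1) = 4 := by decide
      rw [← mul_assoc, e]
      ext <;> simp [ha', hb]
    rw [this]
    exact dvd_mul_right _ _
  · rw [norm_def', ha', hb]
    have : (1 + 4 * a) ^ 2 + (4 * b) ^ 2 = 1 + 8 * (a + 2 * a ^ 2 + 2 * b ^ 2) := by ring
    rw [this]
    omega

lemma CC_five_prim {V : ℕ} {m : ZI} (h : m ∈ CC cls5 V) : prim m ∧ m.norm % 8 = 5 := by
  classical
  unfold CC cls5 at h
  rw [mem_filter, four_dvd_iff] at h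
  obtain ⟨-, h1, h2⟩ := h
  simp only at h1 h2
  obtain ⟨a, ha⟩ := h1
  obtain ⟨b, hb⟩ := h2
  have ha' : m.re = 3 + 4 * a := by linarith
  have hb' : m.im = 2 + 4 * b := by linarith
  constructor
  · rw [prim_iff_dvd]
    have : m - 1 = two2 * (1 + (1 - im1) * ⟨a, b⟩) := by
      have e : two2 * (1 - im1) = 4 := by decide
      rw [mul_add, ← mul_assoc, e]
      ext
      · simp [ha', two2]; ring
      · simp [hb', two2]
    rw [this]
    exact dvd_mul_right _ _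
  · rw [norm_def', ha', hb']
    have : (3 + 4 * a) ^ 2 + (2 + 4 * b) ^ 2 = 5 + 8 * (1 + 3 * a + 2 * a ^ 2 + 2 * b + 2 * b ^ 2) := by ring
    rw [this]
    omega

lemma sum_le_inj {α β : Type*} [DecidableEq β] {s : Finset α} {t : Finset β} {f : α → ℝ} {g : β → ℝ}
    (i : α → β) (hi : ∀ a ∈ s, i a ∈ t) (inj : ∀ a ∈ s, ∀ b ∈ s, i a = i b → a = b)
    (hfg : ∀ a ∈ s, f a ≤ g (i a)) (hg : ∀ b ∈ t, 0 ≤ g b) : ∑ a ∈ s, f a ≤ ∑ b ∈ t, g b := by
  refine (sum_le_sum hfg).trans ?_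
  rw [← sum_image (f := g) (g := i) (fun a ha b hb h => inj a ha b hb h)]
  refine sum_le_sum_of_subset_of_nonneg ?_ (fun b hb _ => hg b hb)
  intro b hb
  obtain ⟨a, ha, rfl⟩ := mem_image.1 hb
  exact hi a ha

/-! the sum over squares -/

lemma tel1 (n : ℕ) : ∑ k ∈ range n, (1 : ℝ) / (2 * ((k : ℝ) + 1) + 1) ^ 2 ≤ 1 / 4 := by
  have h : ∀ n : ℕ, ∑ k ∈ range n, (1 : ℝ) / (2 * ((k : ℝ) + 1) + 1) ^ 2 ≤ 1 / 4 - 1 / (4 * ((n : ℝ) + 1)) := by
    intro n
    induction n with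
    | zero => norm_num
    | succ n ih =>
      rw [sum_range_succ]
      have h1 : (1 : ℝ) / (2 * ((n : ℝ) + 1) + 1) ^ 2 ≤ 1 / (4 * ((n : ℝ) + 1)) - 1 / (4 * (((n + 1 : ℕ) : ℝ) + 1)) := by
        have h2 : (1 : ℝ) / (4 * ((n : ℝ) + 1)) - 1 / (4 * (((n + 1 : ℕ) : ℝ) + 1)) =
            1 / (4 * ((n : ℝ) + 1) * (n + 2)) := by
          push_cast
          field_simp
          ring
        rw [h2]
        apply one_div_le_one_div_of_le (by positivity)
        nlinarith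
      linarith
  have h2 : (0 : ℝ) ≤ 1 / (4 * ((n : ℝ) + 1)) := by positivity
  linarith [h n]

lemma tel2 (n : ℕ) : ∑ k ∈ range n, (1 : ℝ) / ((k : ℝ) + 1) ^ 2 ≤ 2 := by
  have h : ∀ n : ℕ, ∑ k ∈ range (n + 1), (1 : ℝ) / ((k : ℝ) + 1) ^ 2 ≤ 2 - 1 / ((n : ℝ) + 1) := by
    intro n
    induction n with
    | zero => norm_num
    | succ n ih =>
      rw [sum_range_succ]
      have h1 : (1 : ℝ) / (((n + 1 : ℕ) : ℝ) + 1) ^ 2 ≤ 1 / ((n : ℝ) + 1) - 1 / (((n + 1 : ℕ) : ℝ) + 1) := by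
        have h2 : (1 : ℝ) / ((n : ℝ) + 1) - 1 / (((n + 1 : ℕ) : ℝ) + 1) =
            1 / (((n : ℝ) + 1) * (n + 2)) := by
          push_cast
          field_simp
          ring
        rw [h2]
        apply one_div_le_one_div_of_le (by positivity)
        push_cast
        nlinarith
      linarith
  rcases n with _ | n
  · simp
  · have h2 : (0 : ℝ) ≤ 1 / ((n : ℝ) + 1) := by positivity
    linarith [h n]

/-- the sum of inverse squares of norms -/
theorem sum_inv_sq (W : ℕ) : ∑ t ∈ (PB W).erase 1, (1 : ℝ) / (nrm t : ℝ) ^ 2 ≤ 341 / 1000 := by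
  classical
  set S := (PB W).erase 1 with hS
  have hmem : ∀ t ∈ S, t ≠ 1 ∧ nrm t ≤ W ∧ prim t := by
    intro t ht
    rw [hS, mem_erase, mem_PB] at ht
    exact ⟨ht.1, ht.2.1, ht.2.2⟩
  have hpar : ∀ t : ZI, prim t → t.im % 2 = 0 ∧ (t.re + t.im) % 4 = 1 := by
    intro t ht
    obtain ⟨w, hw⟩ := (prim_iff_dvd t).1 ht
    have e1 := congrArg Zsqrtd.re hw
    have e2 := congrArg Zsqrtd.im hw
    simp [two2] at e1 e2
    omega
  have hbd : ∀ t ∈ S, t.re.natAbs ≤ W ∧ t.im.natAbs ≤ W := by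
    intro t ht
    obtain ⟨-, h2, -⟩ := hmem t ht
    have h3 := nrm_eq' t
    have h4 : (nrm t : ℤ) ≤ W := by exact_mod_cast h2
    constructor
    · have : (t.re.natAbs : ℤ) ^ 2 ≤ W := by
        rw [Int.natCast_natAbs, sq_abs]; nlinarith [sq_nonneg t.im]
      have h5 : (t.re.natAbs : ℤ) ≤ (t.re.natAbs : ℤ) ^ 2 := by
        have : (0 : ℤ) ≤ t.re.natAbs := Int.natCast_nonneg _
        nlinarith [Int.natCast_nonneg t.re.natAbs, sq_nonneg ((t.re.natAbs : ℤ) - 1), Int.le_self_sq (t.re.natAbs : ℤ)]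
      omega
    · have : (t.im.natAbs : ℤ) ^ 2 ≤ W := by
        rw [Int.natCast_natAbs, sq_abs]; nlinarith [sq_nonneg t.re]
      have h5 : (t.im.natAbs : ℤ) ≤ (t.im.natAbs : ℤ) ^ 2 := Int.le_self_sq _
      omega
  rw [← sum_filter_add_sum_filter_not S (fun t => t.im = 0)]
  have hA : ∑ t ∈ S.filter (fun t => t.im = 0), (1 : ℝ) / (nrm t : ℝ) ^ 2 ≤ 1 / 36 := by
    have h1 : ∑ t ∈ S.filter (fun t => t.im = 0), (1 : ℝ) / (nrm t : ℝ) ^ 2 ≤
        ∑ k ∈ range (W + 1), (1 / 9) * ((1 : ℝ) / (2 * ((k : ℝ) + 1) + 1) ^ 2) := by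
      refine sum_le_inj (fun t : ZI => t.re.natAbs / 2 - 1) ?_ ?_ ?_ (fun _ _ => by positivity)
      · intro a ha
        rw [mem_filter] at ha
        have := hbd a ha.1
        rw [mem_range]
        omega
      · intro a ha b hb hab
        rw [mem_filter] at ha hb
        obtain ⟨a1, a2, a3⟩ := hmem a ha.1
        obtain ⟨b1, b2, b3⟩ := hmem b hb.1
        have a4 := hpar a a3
        have b4 := hpar b b3
        rw [ha.2] at a4
        rw [hb.2] at b4
        have a5 : a.re ≠ 1 := fun h => a1 (Zsqrtd.ext h ha.2)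
        have b5 : b.re ≠ 1 := fun h => b1 (Zsqrtd.ext h hb.2)
        refine Zsqrtd.ext ?_ (ha.2.trans hb.2.symm)
        omega
      · intro a ha
        rw [mem_filter] at ha
        obtain ⟨a1, a2, a3⟩ := hmem a ha.1
        have a4 := hpar a a3
        rw [ha.2] at a4
        have a5 : a.re ≠ 1 := fun h => a1 (Zsqrtd.ext h ha.2)
        have h2 := nrm_eq' a
        rw [ha.2] at h2
        set k := a.re.natAbs / 2 - 1 with hk
        have h3 : a.re.natAbs = 2 * (k + 1) + 1 := by omega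
        have h4 : (nrm a : ℝ) = (2 * ((k : ℝ) + 1) + 1) ^ 2 := by
          have h5 : (nrm a : ℤ) = (a.re.natAbs : ℤ) ^ 2 := by
            rw [h2, Int.natCast_natAbs, sq_abs]; ring
          rw [h3] at h5
          have h6 : ((nrm a : ℤ) : ℝ) = ((((2 * (k + 1) + 1 : ℕ) : ℤ) ^ 2 : ℤ) : ℝ) := by rw [h5]
          push_cast at h6
          exact h6
        rw [h4]
        have h7 : (9 : ℝ) ≤ (2 * ((k : ℝ) + 1) + 1) ^ 2 := by
          have : (0 : ℝ) ≤ k := Nat.cast_nonneg k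
          nlinarith
        have h8 : (0 : ℝ) < (2 * ((k : ℝ) + 1) + 1) ^ 2 := by positivity
        rw [div_mul_div_comm, one_mul]
        apply one_div_le_one_div_of_le (by positivity)
        nlinarith
    refine h1.trans ?_
    rw [← mul_sum]
    have := tel1 (W + 1)
    linarith
  have hB : ∑ t ∈ S.filter (fun t => ¬ t.im = 0), (1 : ℝ) / (nrm t : ℝ) ^ 2 ≤ 5 / 16 := by
    have h1 : ∑ t ∈ S.filter (fun t => ¬ t.im = 0), (1 : ℝ) / (nrm t : ℝ) ^ 2 ≤
        ∑ q ∈ ((range (W + 1)) ×ˢ (range (W + 1))) ×ˢ (univ : Finset Bool),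
          (1 / 16) * ((1 / (2 * (q.1.1 : ℝ) + 1) ^ 2) * (1 / ((q.1.2 : ℝ) + 1) ^ 2)) := by
      refine sum_le_inj (fun t : ZI => ((t.re.natAbs / 2, t.im.natAbs / 2 - 1), decide (0 < t.im))) ?_ ?_ ?_
        (fun _ _ => by positivity)
      · intro a ha
        rw [mem_filter] at ha
        have := hbd a ha.1
        rw [mem_product, mem_product, mem_range, mem_range]
        refine ⟨⟨?_, ?_⟩, mem_univ _⟩ <;> simp only <;> omega
      · intro a ha b hb hab
        rw [mem_filter] at ha hb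
        obtain ⟨a1, a2, a3⟩ := hmem a ha.1
        obtain ⟨b1, b2, b3⟩ := hmem b hb.1
        have a4 := hpar a a3
        have b4 := hpar b b3
        simp only [Prod.mk.injEq, decide_eq_decide] at hab
        obtain ⟨⟨h2, h3⟩, h4⟩ := hab
        have ha2 := ha.2
        have hb2 := hb.2
        have h5 : a.im = b.im := by
          by_cases h6 : 0 < a.im
          · have := h4.1 h6
            omega
          · have : ¬ 0 < b.im := fun h => h6 (h4.2 h)
            omega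
        refine Zsqrtd.ext ?_ h5
        rw [h5] at a4
        omega
      · intro a ha
        rw [mem_filter] at ha
        obtain ⟨a1, a2, a3⟩ := hmem a ha.1
        have a4 := hpar a a3
        have ha2 := ha.2
        have h2 := nrm_eq' a
        simp only
        set j := a.re.natAbs / 2 with hj
        set k := a.im.natAbs / 2 - 1 with hk
        have h3 : a.re.natAbs = 2 * j + 1 := by omega
        have h4 : a.im.natAbs = 2 * (k + 1) := by omega
        have h5 : (nrm a : ℝ) = (2 * (j : ℝ) + 1) ^ 2 + (2 * ((k : ℝ) + 1)) ^ 2 := by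
          have h6 : (nrm a : ℤ) = (a.re.natAbs : ℤ) ^ 2 + (a.im.natAbs : ℤ) ^ 2 := by
            rw [h2, Int.natCast_natAbs, Int.natCast_natAbs, sq_abs, sq_abs]
          rw [h3, h4] at h6
          have h7 : ((nrm a : ℤ) : ℝ) =
            ((((2 * j + 1 : ℕ) : ℤ) ^ 2 + ((2 * (k + 1) : ℕ) : ℤ) ^ 2 : ℤ) : ℝ) := by rw [h6]
          push_cast at h7
          exact h7
        rw [h5, div_mul_div_comm, div_mul_div_comm, one_mul, one_mul]
        apply one_div_le_one_div_of_le (by positivity)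
        nlinarith [sq_nonneg ((2 * (j : ℝ) + 1) ^ 2 - (2 * ((k : ℝ) + 1)) ^ 2)]
    refine h1.trans ?_
    rw [← mul_sum, sum_product, sum_product]
    simp only [sum_const, card_univ, Fintype.card_bool, nsmul_eq_mul]
    have h2 : ∑ x ∈ range (W + 1), ∑ y ∈ range (W + 1),
        ((2 : ℕ) : ℝ) * (1 / (2 * (x : ℝ) + 1) ^ 2 * (1 / ((y : ℝ) + 1) ^ 2)) =
        2 * ((∑ x ∈ range (W + 1), 1 / (2 * (x : ℝ) + 1) ^ 2) * ∑ y ∈ range (W + 1), 1 / ((y : ℝ) + 1) ^ 2) := by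
      rw [sum_mul_sum, mul_sum]
      refine sum_congr rfl fun x _ => ?_
      rw [mul_sum]
      refine sum_congr rfl fun y _ => ?_
      push_cast
      ring
    rw [h2]
    have h3 : ∑ x ∈ range (W + 1), (1 : ℝ) / (2 * (x : ℝ) + 1) ^ 2 ≤ 5 / 4 := by
      rw [sum_range_succ']
      have := tel1 W
      have e : ∑ k ∈ range W, (1 : ℝ) / (2 * ((k + 1 : ℕ) : ℝ) + 1) ^ 2 =
          ∑ k ∈ range W, (1 : ℝ) / (2 * ((k : ℝ) + 1) + 1) ^ 2 := by
        refine sum_congr rfl fun k _ => by push_cast; ring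
      rw [e]
      norm_num
      norm_num at this
      linarith
    have h4 := tel2 (W + 1)
    have h5 : (∑ x ∈ range (W + 1), (1 : ℝ) / (2 * (x : ℝ) + 1) ^ 2) * ∑ y ∈ range (W + 1), 1 / ((y : ℝ) + 1) ^ 2 ≤
        5 / 4 * 2 := mul_le_mul h3 h4 (sum_nonneg fun _ _ => by positivity) (by norm_num)
    linarith
  linarith

/-- a logarithm is smaller than a power -/
lemma lg_le_rpow {ε : ℝ} (hε : 0 < ε) (T : ℕ) (hT : 1 ≤ T) : lg T ≤ (1 + 2 / ε) * (T : ℝ) ^ ε := by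
  have T1 : (1 : ℝ) ≤ T := by exact_mod_cast hT
  have h1 : (Nat.log 2 T : ℝ) * Real.log 2 ≤ Real.log T := by
    have h2 : (2 : ℝ) ^ (Nat.log 2 T) ≤ T := by exact_mod_cast Nat.pow_log_le_self 2 (by omega)
    have h3 := Real.log_le_log (by positivity) h2
    rwa [Real.log_pow] at h3
  have h2 := Real.log_le_rpow_div (Nat.cast_nonneg T) hε
  have h3 := Real.log_two_gt_d9
  have h4 : (Nat.log 2 T : ℝ) ≤ 2 * Real.log T := by
    have : (0 : ℝ) ≤ Nat.log 2 T := Nat.cast_nonneg _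
    nlinarith
  have h5 : (1 : ℝ) ≤ (T : ℝ) ^ ε := Real.one_le_rpow T1 hε.le
  unfold lg
  have h6 : 2 * Real.log T ≤ 2 / ε * (T : ℝ) ^ ε := by
    calc 2 * Real.log T ≤ 2 * ((T : ℝ) ^ ε / ε) := by linarith
      _ = 2 / ε * (T : ℝ) ^ ε := by ring
  linarith

open Classical in
/-- **squarefree primary elements in the two classes** -/
theorem sqf_count : ∃ V0 : ℕ, ∀ V : ℕ, V0 ≤ V → ∀ r : ℤ, (r = 1 ∨ r = 5) →
    (V : ℝ) / 35 ≤ (((SB V).filter (fun m => m.norm % 8 = r)).card : ℝ) := by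
  refine ⟨30000 ^ 4, ?_⟩
  intro V hV r hr
  -- choose the class
  obtain ⟨c, hc⟩ : ∃ c : ZI, ∀ m ∈ CC c V, prim m ∧ m.norm % 8 = r := by
    rcases hr with rfl | rfl
    · exact ⟨1, fun m hm => CC_one_prim hm⟩
    · exact ⟨cls5, fun m hm => CC_five_prim hm⟩
  set s := Nat.sqrt V with hs
  have hcover : CC c V ⊆ (SB V).filter (fun m => m.norm % 8 = r) ∪
      ((PB s).erase 1).biUnion (fun t => (CC c V).filter (fun m => t * t ∣ m)) := by
    intro m hm
    obtain ⟨hm1, hm2⟩ := hc m hm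
    have hmV : nrm m ≤ V := by
      unfold CC at hm
      exact mem_ZB.1 (mem_filter.1 hm).1
    rw [mem_union]
    by_cases hsq : Squarefree m
    · left
      rw [mem_filter, mem_SB]
      exact ⟨⟨hmV, hm1, hsq⟩, hm2⟩
    · right
      rw [Squarefree] at hsq
      push Not at hsq
      obtain ⟨x, hx, hxu⟩ := hsq
      have hm0 := prim_ne_zero hm1
      have hx0 : x ≠ 0 := by
        rintro rfl
        rw [zero_mul, zero_dvd_iff] at hx
        exact hm0 hx
      obtain ⟨ρ, hρ, hρx⟩ := WfDvdMonoid.exists_irreducible_factor hxu hx0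
      have hρ' : Prime ρ := irreducible_iff_prime.1 hρ
      have hρm : ρ * ρ ∣ m := (mul_dvd_mul hρx hρx).trans hx
      obtain ⟨π, hπ, hass⟩ := exists_PP hρ' (odd_of_dvd ((dvd_mul_right _ _).trans hρm) (prim_norm_odd hm1))
      have hπm : π * π ∣ m := (mul_dvd_mul hass.dvd hass.dvd).trans hρm
      rw [mem_biUnion]
      refine ⟨π, ?_, mem_filter.2 ⟨hm, hπm⟩⟩
      rw [mem_erase, mem_PB]
      refine ⟨fun h => hπ.pr.not_isUnit (by rw [h]; exact isUnit_one), ?_, hπ.prm⟩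
      rw [hs, Nat.le_sqrt]
      have h1 := norm_le_of_dvd hm0 hπm
      have h2 : nrm (π * π) ≤ nrm m := h1
      rw [nrm_mul] at h2
      exact h2.trans hmV
  have h1 : ((CC c V).card : ℝ) ≤ (((SB V).filter (fun m => m.norm % 8 = r)).card : ℝ) +
      ∑ t ∈ (PB s).erase 1, (((CC c V).filter (fun m => t * t ∣ m)).card : ℝ) := by
    have h2 := (card_le_card hcover).trans (card_union_le _ _)
    have h3 := h2.trans (Nat.add_le_add_left card_biUnion_le _)
    exact_mod_cast h3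
  have V0 : (0 : ℝ) ≤ V := Nat.cast_nonneg V
  have hV1 : 1 ≤ V := le_trans (by norm_num) hV
  have h2 : ∑ t ∈ (PB s).erase 1, (((CC c V).filter (fun m => t * t ∣ m)).card : ℝ) ≤
      (V : ℝ) / 4 * (341 / 1000) + Real.sqrt V * (18 * lg s) + 9 * s := by
    have h3 : ∀ t ∈ (PB s).erase 1, (((CC c V).filter (fun m => t * t ∣ m)).card : ℝ) ≤
        (V : ℝ) / 4 * (1 / (nrm t : ℝ) ^ 2) + Real.sqrt V * (1 / nrm t) + 1 := by
      intro t ht
      rw [mem_erase, mem_PB] at ht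
      have ht0 : (0 : ℝ) < nrm t := by exact_mod_cast nrm_pos' (prim_ne_zero ht.2.2)
      have h4 : (((CC c V).filter (fun m => t * t ∣ m)).card : ℝ) ≤ ((CC c (V / (nrm t * nrm t))).card : ℝ) := by
        exact_mod_cast CC_sq ht.2.2 V
      have h5 : ((V / (nrm t * nrm t) : ℕ) : ℝ) ≤ (V : ℝ) / (nrm t : ℝ) ^ 2 := by
        have := @Nat.cast_div_le ℝ _ _ _ V (nrm t * nrm t)
        push_cast at this
        rw [sq]
        exact this
      refine (h4.trans (CC_hi' c h5)).trans (le_of_eq ?_)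
      rw [Real.sqrt_div V0, Real.sqrt_sq ht0.le]
      ring
    refine (sum_le_sum h3).trans ?_
    rw [sum_add_distrib, sum_add_distrib, ← mul_sum, ← mul_sum, sum_const, nsmul_eq_mul, mul_one]
    have h4 := sum_inv_sq s
    have h5 : ∑ t ∈ (PB s).erase 1, (1 : ℝ) / nrm t ≤ 18 * lg s :=
      (sum_le_sum_of_subset_of_nonneg (erase_subset _ _) (fun _ _ _ => by positivity)).trans (hsum s)
    have hs1 : 1 ≤ s := by
      rw [hs, Nat.le_sqrt]
      omega
    have h6 : (((PB s).erase 1).card : ℝ) ≤ 9 * s := by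
      refine le_trans ?_ (card_PB_le hs1)
      exact_mod_cast card_le_card (erase_subset _ _)
    have h7 := mul_le_mul_of_nonneg_left h4 (show (0 : ℝ) ≤ (V : ℝ) / 4 by positivity)
    have h8 := mul_le_mul_of_nonneg_left h5 (Real.sqrt_nonneg V)
    linarith
  have h3 := CC_lo' c V
  -- numerical estimates
  have hsV : (s : ℝ) ≤ Real.sqrt V := Real.nat_sqrt_le_real_sqrt
  set q : ℝ := (V : ℝ) ^ (1 / 4 : ℝ) with hq
  have hq0 : 0 ≤ q := by positivity
  have hq4 : q ^ 4 = V := by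
    rw [hq, ← Real.rpow_natCast, ← Real.rpow_mul V0]
    norm_num
  have hq2 : Real.sqrt V = q ^ 2 := by
    rw [Real.sqrt_eq_iff_mul_self_eq V0 (by positivity), ← hq4]
    ring
  have hqbig : 30000 ≤ q := by
    by_contra h
    push Not at h
    have h4 : q ^ 4 < 30000 ^ 4 := pow_lt_pow_left₀ h hq0 (by norm_num)
    rw [hq4] at h4
    have h5 : ((30000 ^ 4 : ℕ) : ℝ) ≤ V := by exact_mod_cast hV
    push_cast at h5
    linarith
  have hlg : lg s ≤ 9 * q := by
    have h4 := lg_le_rpow (show (0 : ℝ) < 1 / 4 by norm_num) V hV1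
    have h5 : lg s ≤ lg V := lg_mono (Nat.sqrt_le_self V)
    refine h5.trans (h4.trans (le_of_eq ?_))
    rw [← hq]
    norm_num
  rw [hq2] at h2 h3 hsV
  have h4 : q ^ 2 * (18 * lg s) ≤ q ^ 2 * (18 * (9 * q)) := by
    apply mul_le_mul_of_nonneg_left _ (by positivity)
    linarith
  rw [← hq4] at h2 h3 ⊢
  have h5 : q ^ 3 * 30000 ≤ q ^ 4 := by
    have : q ^ 4 = q ^ 3 * q := by ring
    rw [this]
    exact mul_le_mul_of_nonneg_left hqbig (by positivity)
  have h6 : q ^ 2 ≤ q ^ 3 := by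
    have : q ^ 3 = q ^ 2 * q := by ring
    rw [this]
    nlinarith [sq_nonneg q]
  nlinarith

end Pool.Agent.Y699
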