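import Pool.Agent.W164.RC.Gp
import Pool.Agent.H385R5.HE10A

/-!
Quadratic residue symbols of Gaussian primes.
-/

set_option autoImplicit false

open H385 (ZI RQ im1 nrm)
open Pool.Agent.H304R2.EC.A1 (prim prim_mul prim_cancel prim_one prim_norm_odd prim_star eq_one_of_prim
  norm_def' re_mul' im_mul' eq_of_dvd prim_ne_zero)

namespace Pool.Agent.Y699

open Pool.Agent.W164.RC (Ip Ip_spec Ip_exists Ip_one Ip_three dg two2 prim_iff_dvd unit_norm)

/-- primary primes -/
structure PP (π : ZI) : Prop where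
  pr : Prime π
  prm : prim π

open Classical in
/-- the quadratic residue symbol -/
noncomputable def qr (π a : ZI) : ℤ := if π ∣ a then 0 else if ∃ b, π ∣ a - b ^ 2 then 1 else -1

lemma PP.ne {π : ZI} (h : PP π) : π ≠ 0 := h.pr.ne_zero

lemma dvd_unit_eq {π ρ : ZI} (h1 : prim π) (h2 : PP ρ) (hπ : ¬ IsUnit π) (h : π ∣ ρ) : π = ρ := by
  obtain ⟨u, hu⟩ := h
  have hup : prim u := prim_cancel h1 (by rw [← hu]; exact h2.prm)
  rcases h2.pr.irreducible.isUnit_or_isUnit hu with h3 | h3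
  · exact absurd h3 hπ
  · obtain ⟨e, he⟩ := h3
    have := unit_norm e
    rw [he] at this
    have h4 := eq_one_of_prim hup this
    rw [hu, h4, mul_one]

/-- distinct primary primes do not divide each other -/
lemma PP.eq_of_dvd {π ρ : ZI} (h1 : PP π) (h2 : PP ρ) (h : π ∣ ρ) : π = ρ :=
  dvd_unit_eq h1.prm h2 h1.pr.not_isUnit h

lemma PP.cop {π ρ : ZI} (h1 : PP π) (h2 : PP ρ) (h : π ≠ ρ) : IsCoprime π ρ :=
  (h1.pr.irreducible.coprime_iff_not_dvd).2 fun h' => h (h1.eq_of_dvd h2 h')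

lemma PP.odd {π : ZI} (h : PP π) : π.norm % 2 = 1 := prim_norm_odd h.prm

lemma PP.cases {π : ZI} (h : PP π) : (∃ p : ℕ, p.Prime ∧ p % 4 = 1 ∧ π.norm = p) ∨
    (∃ q : ℕ, q.Prime ∧ q % 4 = 3 ∧ π = -(q : ZI)) := by
  have h1 : ((π.norm.natAbs : ℕ) : ZI) = π * star π := by
    have h2 := Zsqrtd.norm_eq_mul_conj π
    have h3 : ((π.norm.natAbs : ℕ) : ℤ) = π.norm := GaussianInt.abs_natCast_norm π
    rw [← h2, ← Int.cast_natCast, h3]
  have hn : π.norm.natAbs ≠ 0 := by
    intro h0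
    have := h.odd
    omega
  -- a rational prime divisible by π
  have key : ∀ n : ℕ, n ≠ 0 → π ∣ (n : ZI) → ∃ p : ℕ, p.Prime ∧ π ∣ (p : ZI) := by
    intro n
    induction n using Nat.recOnMul with
    | zero => intro h; exact absurd rfl h
    | one => intro _ h'; exact absurd (isUnit_of_dvd_one (by simpa using h')) h.pr.not_isUnit
    | prime p hp => intro _ h'; exact ⟨p, hp, h'⟩
    | mul a b iha ihb =>
      intro h0 h'
      push_cast at h'
      rcases h.pr.dvd_or_dvd h' with h4 | h4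
      · exact iha (fun h => h0 (by rw [h, zero_mul])) h4
      · exact ihb (fun h => h0 (by rw [h, mul_zero])) h4
  obtain ⟨p, hp, hpp⟩ := key _ hn (by rw [h1]; exact dvd_mul_right _ _)
  have hp2 : p ≠ 2 := by
    rintro rfl
    have h3 : π.norm ∣ (4 : ℤ) := by
      obtain ⟨c, hc⟩ := hpp
      refine ⟨c.norm, ?_⟩
      have := congrArg Zsqrtd.norm hc
      rw [Zsqrtd.norm_mul] at this
      rw [← this]
      decide
    have h4 := h.odd
    have h5 : (π.norm).natAbs ∣ 4 := by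
      have := Int.natAbs_dvd_natAbs.2 h3
      simpa using this
    have h6 : π.norm.natAbs = 1 := by
      have h7 : π.norm.natAbs ≤ 4 := Nat.le_of_dvd (by norm_num) h5
      have h8 : π.norm.natAbs % 2 = 1 := by omega
      interval_cases h9 : π.norm.natAbs <;> omega
    exact h.pr.not_isUnit (Zsqrtd.norm_eq_one_iff.1 h6)
  have hP : (Ideal.span {π} : Ideal ZI).IsPrime := (Ideal.span_singleton_prime h.ne).2 h.pr
  obtain ⟨z, hz, hzP⟩ := Ip_exists hp hp2 (RingHom.id ZI) (Ideal.span {π})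
    (by rw [Ideal.mem_span_singleton]; exact hpp)
  rw [RingHom.id_apply, Ideal.mem_span_singleton] at hzP
  obtain ⟨k1, k2, k3, k4⟩ := Ip_spec hp hz
  have he : π = z := h.eq_of_dvd ⟨k2, k1⟩ hzP
  rcases (show p % 4 = 1 ∨ p % 4 = 3 by
    rcases hp.eq_two_or_odd with h | h
    · exact absurd h hp2
    · omega) with h4 | h4
  · left
    refine ⟨p, hp, h4, ?_⟩
    have hd : dg p = 1 := by unfold dg; rw [if_pos h4]
    rw [hd, pow_one] at k3
    rw [he, ← k3]
    exact (GaussianInt.abs_natCast_norm z).symm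
  · right
    rw [Ip_three h4, Finset.mem_singleton] at hz
    exact ⟨p, hp, h4, by rw [he, hz]⟩

/-- the norm of a primary prime is one modulo four -/
lemma PP.norm_mod {π : ZI} (h : PP π) : π.norm % 4 = 1 := by
  have h1 := h.prm
  obtain ⟨h2, h3⟩ := h1
  rw [norm_def']
  obtain ⟨k, hk⟩ : ∃ k, π.re = 2 * k + 1 := ⟨π.re / 2, by omega⟩
  obtain ⟨l, hl⟩ : ∃ l, π.im = 2 * l := ⟨π.im / 2, by omega⟩
  rw [hk, hl]
  ring_nf
  omega

section field

variable {π : ZI} (h : PP π)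

lemma PP.max (h : PP π) : (Ideal.span {π} : Ideal ZI).IsMaximal :=
  PrincipalIdealRing.isMaximal_of_irreducible h.pr.irreducible

lemma mk_eq_zero (a : ZI) : Ideal.Quotient.mk (Ideal.span {π}) a = 0 ↔ π ∣ a := by
  rw [Ideal.Quotient.eq_zero_iff_mem, Ideal.mem_span_singleton]

lemma mk_eq_mk (a b : ZI) : Ideal.Quotient.mk (Ideal.span {π}) a = Ideal.Quotient.mk _ b ↔
    π ∣ a - b := by
  rw [Ideal.Quotient.mk_eq_mk_iff_sub_mem, Ideal.mem_span_singleton]

/-- the field structure -/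
noncomputable abbrev PP.fld (h : PP π) : Field (RQ π) :=
  haveI := h.max
  Ideal.Quotient.field _

open Classical in
lemma qr_eq (h : PP π) [Fintype (RQ π)] (a : ZI) :
    letI := h.fld
    qr π a = quadraticChar (RQ π) (Ideal.Quotient.mk _ a) := by
  letI := h.fld
  unfold qr
  rw [quadraticChar_apply, quadraticCharFun]
  have h1 : (∃ b, π ∣ a - b ^ 2) ↔ IsSquare (Ideal.Quotient.mk (Ideal.span {π}) a) := by
    constructor
    · rintro ⟨b, hb⟩
      refine ⟨Ideal.Quotient.mk _ b, ?_⟩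
      rw [← map_mul, mk_eq_mk]
      rwa [← sq]
    · rintro ⟨c, hc⟩
      obtain ⟨b, rfl⟩ := Ideal.Quotient.mk_surjective c
      rw [← map_mul, mk_eq_mk] at hc
      exact ⟨b, by rwa [sq]⟩
  by_cases h2 : π ∣ a
  · rw [if_pos h2, if_pos ((mk_eq_zero a).2 h2)]
  · rw [if_neg h2, if_neg (fun h3 => h2 ((mk_eq_zero a).1 h3))]
    by_cases h3 : ∃ b, π ∣ a - b ^ 2
    · rw [if_pos h3, if_pos (h1.1 h3)]
    · rw [if_neg h3, if_neg (fun h4 => h3 (h1.2 h4))]

lemma fin_RQ (h : PP π) : Finite (RQ π) := H385.he1_finite h.ne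

lemma card_fin (h : PP π) [Fintype (RQ π)] : Fintype.card (RQ π) = nrm π := by
  rw [← Nat.card_eq_fintype_card]
  exact H385.H10.card_RQ π

lemma nrm_cast (a : ZI) : ((nrm a : ℕ) : ℤ) = a.norm := GaussianInt.abs_natCast_norm a

lemma PP.char (h : PP π) [Fintype (RQ π)] : letI := h.fld; ringChar (RQ π) ≠ 2 := by
  letI := h.fld
  intro h2
  have h3 : ((2 : ℕ) : RQ π) = 0 := by
    rw [← h2]
    exact ringChar.Nat.cast_ringChar
  have h4 : Ideal.Quotient.mk (Ideal.span {π}) (2 : ZI) = 0 := by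
    rw [← h3]
    push_cast
    rfl
  rw [mk_eq_zero] at h4
  obtain ⟨c, hc⟩ := h4
  have h5 := congrArg Zsqrtd.norm hc
  rw [Zsqrtd.norm_mul] at h5
  have h6 : (2 : ZI).norm = 4 := by decide
  rw [h6] at h5
  have h7 := h.norm_mod
  have h8 : 0 ≤ π.norm := GaussianInt.norm_nonneg π
  have h9 : π.norm ∣ 4 := ⟨_, h5⟩
  have h10 : π.norm ≤ 4 := Int.le_of_dvd (by norm_num) h9
  have h11 : π.norm = 1 := by
    interval_cases h12 : π.norm <;> omega
  exact h.pr.not_isUnit (Zsqrtd.norm_eq_one_iff.1 (by rw [h11]; rfl))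

lemma qr_mul (h : PP π) (a b : ZI) : qr π (a * b) = qr π a * qr π b := by
  classical
  have := fin_RQ h
  letI := Fintype.ofFinite (RQ π)
  letI := h.fld
  rw [qr_eq h, qr_eq h, qr_eq h, map_mul, map_mul]

lemma qr_per {a b : ZI} (hab : π ∣ a - b) : qr π a = qr π b := by
  have h1 : π ∣ a ↔ π ∣ b := by
    constructor
    · intro h; have := dvd_sub h hab; rwa [sub_sub_cancel] at this
    · intro h; have := dvd_add hab h; rwa [sub_add_cancel] at this
  have h2 : (∃ c, π ∣ a - c ^ 2) ↔ ∃ c, π ∣ b - c ^ 2 := by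
    refine exists_congr fun c => ?_
    constructor
    · intro h
      have := dvd_sub h hab
      have e : a - c ^ 2 - (a - b) = b - c ^ 2 := by ring
      rwa [e] at this
    · intro h
      have := dvd_add hab h
      have e : a - b + (b - c ^ 2) = a - c ^ 2 := by ring
      rwa [e] at this
  unfold qr
  by_cases h3 : π ∣ a
  · rw [if_pos h3, if_pos (h1.1 h3)]
  · rw [if_neg h3, if_neg (fun h => h3 (h1.2 h))]
    by_cases h4 : ∃ c, π ∣ a - c ^ 2
    · rw [if_pos h4, if_pos (h2.1 h4)]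
    · rw [if_neg h4, if_neg (fun h => h4 (h2.2 h))]

lemma qr_zero_iff {a : ZI} : qr π a = 0 ↔ π ∣ a := by
  unfold qr
  split_ifs with h1 h2 <;> simp [h1]

lemma qr_cases {a : ZI} (ha : ¬ π ∣ a) : qr π a = 1 ∨ qr π a = -1 := by
  unfold qr
  rw [if_neg ha]
  split_ifs <;> simp

lemma qr_sq {a : ZI} (ha : ¬ π ∣ a) : qr π a * qr π a = 1 := by
  rcases qr_cases ha with h | h <;> rw [h] <;> norm_num

lemma qr_one (h : PP π) : qr π 1 = 1 := by
  unfold qr
  rw [if_neg (fun h' => h.pr.not_isUnit (isUnit_of_dvd_one h')), if_pos ⟨1, by simp⟩]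

lemma qr_sq' (h : PP π) {a : ZI} (ha : ¬ π ∣ a) : qr π (a ^ 2) = 1 := by
  rw [sq, qr_mul h, qr_sq ha]

/-- Euler's criterion -/
lemma qr_euler (h : PP π) (a : ZI) : π ∣ a ^ (nrm π / 2) - (qr π a : ZI) := by
  classical
  have := fin_RQ h
  let _ := Fintype.ofFinite (RQ π)
  let _ := h.fld
  have h1 := quadraticChar_eq_pow_of_char_ne_two' h.char (Ideal.Quotient.mk (Ideal.span {π}) a)
  rw [← qr_eq h, card_fin h] at h1
  rw [← mk_eq_mk, map_pow, ← h1]
  simp

lemma not_dvd_two (h : PP π) : ¬ π ∣ (2 : ZI) := by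
  intro h2
  have := fin_RQ h
  let _ := Fintype.ofFinite (RQ π)
  let _ := h.fld
  apply h.char
  have h3 : ((2 : ℕ) : RQ π) = 0 := by
    have := (mk_eq_zero (π := π) 2).2 h2
    rw [← this]
    push_cast
    rfl
  have h4 := ringChar.dvd h3
  have h5 : (ringChar (RQ π)).Prime := by
    refine (CharP.char_is_prime_or_zero (RQ π) (ringChar (RQ π))).resolve_right ?_
    exact CharP.ringChar_ne_zero_of_finite (RQ π)
  exact (Nat.prime_dvd_prime_iff_eq h5 Nat.prime_two).1 h4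

/-- a value in `{0, 1, -1}` is determined by its class -/
lemma qr_of_dvd (h : PP π) {x : ℤ} (a : ZI) (hx : x = 0 ∨ x = 1 ∨ x = -1)
    (hd : π ∣ a ^ (nrm π / 2) - (x : ZI)) : qr π a = x := by
  have h1 := dvd_sub hd (qr_euler h a)
  have e : a ^ (nrm π / 2) - (x : ZI) - (a ^ (nrm π / 2) - (qr π a : ZI)) = ((qr π a - x : ℤ) : ZI) := by
    push_cast
    ring
  rw [e] at h1
  have h2 := not_dvd_two h
  have h3 : ¬ π ∣ (1 : ZI) := fun h' => h.pr.not_isUnit (isUnit_of_dvd_one h')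
  have hq : qr π a = 0 ∨ qr π a = 1 ∨ qr π a = -1 := by
    unfold qr
    split_ifs <;> simp
  have h4 : ∀ y : ℤ, π ∣ (y : ZI) → π ∣ ((-y : ℤ) : ZI) := by
    intro y hy
    push_cast
    exact (dvd_neg.2 hy)
  rcases hq with hq | hq | hq <;> rcases hx with hx | hx | hx <;> rw [hq, hx] at h1 ⊢ <;>
    norm_num at h1 ⊢
  · exact h3 (by simpa using h1)
  · exact h3 h1
  · exact h3 h1
  · exact h2 h1
  · exact h3 (by simpa using h1)
  · exact h2 (by simpa using h1)

lemma PP.norm_pos (h : PP π) : 0 < π.norm := by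
  have h1 := h.odd
  have h2 := GaussianInt.norm_nonneg π
  omega

/-- the symbol of `i` -/
lemma qr_im (h : PP π) : qr π im1 = if π.norm % 8 = 1 then 1 else -1 := by
  have h1 := h.norm_mod
  have h2 := h.norm_pos
  have h3 := nrm_cast π
  have h4 : im1 ^ 4 = 1 := H385.he2_im4
  have h5 : (im1 : ZI) ^ 2 = -1 := by decide
  split_ifs with h8
  · refine qr_of_dvd h _ (by simp) ?_
    obtain ⟨k, hk⟩ : ∃ k, nrm π / 2 = 4 * k := ⟨nrm π / 8, by omega⟩
    rw [hk, pow_mul, h4]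
    simp
  · refine qr_of_dvd h _ (by simp) ?_
    obtain ⟨k, hk⟩ : ∃ k, nrm π / 2 = 4 * k + 2 := ⟨nrm π / 8, by omega⟩
    rw [hk, pow_add, pow_mul, h4, h5]
    simp

lemma qr_neg_one (h : PP π) : qr π (-1) = 1 := by
  have h5 : (im1 : ZI) ^ 2 = -1 := by decide
  rw [← h5]
  refine qr_sq' h fun h' => ?_
  exact h.pr.not_isUnit (isUnit_of_dvd_one (h'.trans ⟨-im1, by decide⟩))

lemma qr_neg (h : PP π) (a : ZI) : qr π (-a) = qr π a := by
  rw [← neg_one_mul, qr_mul h, qr_neg_one h, one_mul]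

end field

end Pool.Agent.Y699
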