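import Pool.Agent.Y699.Lt

/-!
Torsion points of odd order.
-/

set_option autoImplicit false

open Filter Complex
open scoped Topology PeriodPair
open H667R3 hiding sq
open Pool.Agent.TH936.CM Pool.Agent.W192.HK

namespace Pool.Agent.Y699

open H385 (ZI RQ im1 nrm)
open Pool.Agent.H304R3.HK (tc)
open Pool.Agent.W164.RC (tc_mul tc_star two2)

variable {L : PeriodPair} {Ω : ℂ}

/-- `1 + i` -/
def pi1 : ZI := ⟨1, 1⟩

lemma tc_pi1 : tc pi1 = 1 + I := by unfold tc pi1; simp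

lemma tc_two2 : tc two2 = 2 + 2 * I := by unfold tc two2; simp

lemma div_notMem (h : IsLat L RG Ω) {a b : ZI} (hb : b ≠ 0) (hab : ¬ b ∣ a) :
    Ω * tc a / tc b ∉ L.lattice := by
  intro h'
  obtain ⟨c, hc⟩ := (mem_lat h).1 h'
  apply hab
  refine ⟨c, tc_inj ?_⟩
  rw [tc_mul]
  have h1 := tc_ne hb
  have h2 := h.ne
  field_simp at hc
  linear_combination hc

/-- the point of order `2 + 2 i` -/
noncomputable def dz (Ω : ℂ) : ℂ := Ω / (2 + 2 * I)

lemma one_I_ne : (1 + I : ℂ) ≠ 0 := by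
  intro h
  have := congrArg Complex.re h
  simp at this

lemma inv_one_I : (1 + I : ℂ)⁻¹ = (1 - I) / 2 := by
  rw [inv_eq_iff_eq_inv, inv_div, eq_div_iff]
  · linear_combination -I_sq
  · intro h
    have := congrArg Complex.re h
    simp at this

lemma dz_eq : dz Ω = Ω * tc 1 / tc two2 := by
  unfold dz
  rw [tc_one, tc_two2, mul_one]

lemma two_dz : 2 * dz Ω = Ω * tc 1 / tc pi1 := by
  unfold dz
  rw [tc_one, tc_pi1, mul_one]
  have h := one_I_ne
  have e : (2 + 2 * I : ℂ) = 2 * (1 + I) := by ring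
  rw [e]
  field_simp

lemma pi_dz : (1 + I) * dz Ω = Ω / 2 := by
  unfold dz
  have h := one_I_ne
  have e : (2 + 2 * I : ℂ) = 2 * (1 + I) := by ring
  rw [e]
  field_simp

lemma not_dvd_one_of {b : ZI} (hb : b.norm ≠ 1) (hb0 : 0 ≤ b.norm) : ¬ b ∣ 1 := by
  intro h
  have h1 := isUnit_of_dvd_one h
  have := Zsqrtd.norm_eq_one_iff.2 h1
  omega

lemma pi1_not_dvd : ¬ pi1 ∣ (1 : ZI) := not_dvd_one_of (by decide) (by decide)

lemma pi1_ne : pi1 ≠ 0 := by decide
lemma two2_ne : two2 ≠ 0 := by decide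

section
variable (h : GLat L Ω)
include h

lemma GLat.s1 : Ω * tc 1 / tc pi1 ∉ L.lattice := div_notMem h.lat pi1_ne pi1_not_dvd

lemma GLat.half : Ω / 2 ∉ L.lattice := by
  have := div_notMem h.lat (a := 1) (b := 2) (by decide) (not_dvd_one_of (by decide) (by decide))
  have e : tc (2 : ZI) = 2 := by
    have := tc_int 2
    push_cast at this
    exact this
  rwa [tc_one, e, mul_one] at this

lemma GLat.om : Ω ∈ L.lattice := (mem_lat h.lat).2 ⟨1, by rw [tc_one, mul_one]⟩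

/-- the abscissa of `Ω / (1 + i)` is zero -/
lemma GLat.wp_s1 : ℘[L] (Ω * tc 1 / tc pi1) = 0 := by
  have hs := h.s1
  have hI : I * (Ω * tc 1 / tc pi1) ∉ L.lattice := by
    intro h'
    apply hs
    have := neg_mem (lat_I h.lat h')
    have e : -(I * (I * (Ω * tc 1 / tc pi1))) = Ω * tc 1 / tc pi1 := by
      linear_combination (-(Ω * tc 1 / tc pi1)) * I_sq
    rwa [e] at this
  have h5 : ℘[L] (I * (Ω * tc 1 / tc pi1)) = ℘[L] (Ω * tc 1 / tc pi1) := by
    rw [wp_eq_iff L hI hs]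
    left
    have e : I * (Ω * tc 1 / tc pi1) + Ω * tc 1 / tc pi1 = Ω := by
      rw [tc_one, tc_pi1]
      have := one_I_ne
      field_simp
      ring
    rw [e]
    exact h.om
  rw [wp_I h.lat] at h5
  have : (2 : ℂ) * ℘[L] (Ω * tc 1 / tc pi1) = 0 := by linear_combination -h5
  exact (mul_eq_zero.1 this).resolve_left (by norm_num)

/-- the abscissa of the point `Ω / 2` -/
lemma GLat.e1_sq : ℘[L] (Ω / 2) ^ 2 = 1 := by
  have h1 := h.half
  have hΩ : Ω ∈ L.lattice := (mem_lat h.lat).2 ⟨1, by rw [tc_one, mul_one]⟩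
  have hy : ℘'[L] (Ω / 2) = 0 := by
    have e1 : ℘'[L] (-(Ω / 2) + (⟨Ω, hΩ⟩ : L.lattice)) = ℘'[L] (-(Ω / 2)) :=
      L.derivWeierstrassP_add_coe _ ⟨Ω, hΩ⟩
    have e2 : -(Ω / 2) + Ω = Ω / 2 := by ring
    rw [e2, L.derivWeierstrassP_neg] at e1
    have : (2 : ℂ) * ℘'[L] (Ω / 2) = 0 := by linear_combination e1
    exact (mul_eq_zero.1 this).resolve_left (by norm_num)
  have h3 := h.eqn h1
  rw [hy] at h3
  have h4 : ℘[L] (Ω / 2) ≠ 0 := by
    intro h0
    have hs := h.s1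
    have h6 := h.wp_s1
    have h7 : ℘[L] (Ω / 2) = ℘[L] (Ω * tc 1 / tc pi1) := by rw [h0, h6]
    rw [wp_eq_iff L h1 hs] at h7
    have hk : ∀ a : ZI, a.re % 2 = 1 ∨ a.im % 2 = 1 → Ω * tc a / tc 2 ∉ L.lattice := by
      intro a ha
      refine div_notMem h.lat (by decide) ?_
      rintro ⟨c, hc⟩
      have r1 := congrArg Zsqrtd.re hc
      have r2 := congrArg Zsqrtd.im hc
      simp only [Zsqrtd.re_mul, Zsqrtd.im_mul] at r1 r2
      have e1 : (2 : ZI).re = 2 := rfl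
      have e2 : (2 : ZI).im = 0 := rfl
      rw [e1, e2] at r1 r2
      omega
    have e2' : tc (2 : ZI) = 2 := by
      have := tc_int 2
      push_cast at this
      exact this
    rcases h7 with h7 | h7
    · have e : Ω / 2 + Ω * tc 1 / tc pi1 = Ω * tc ⟨2, -1⟩ / tc 2 := by
        rw [tc_one, tc_pi1, div_eq_mul_inv _ (1 + I), inv_one_I, e2']
        unfold tc
        push_cast
        ring
      rw [e] at h7
      exact hk _ (Or.inr (by decide)) h7
    · have e : Ω / 2 - Ω * tc 1 / tc pi1 = Ω * tc ⟨0, 1⟩ / tc 2 := by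
        rw [tc_one, tc_pi1, div_eq_mul_inv _ (1 + I), inv_one_I, e2']
        unfold tc
        push_cast
        ring
      rw [e] at h7
      exact hk _ (Or.inr (by decide)) h7
  have h5 : 4 * ℘[L] (Ω / 2) * (℘[L] (Ω / 2) ^ 2 - 1) = 0 := by linear_combination -h3
  have h6 := (mul_eq_zero.1 h5).resolve_left (mul_ne_zero (by norm_num) h4)
  linear_combination h6

lemma GLat.two_dz : 2 * dz Ω ∉ L.lattice := by
  rw [Y699.two_dz]
  exact h.s1

lemma GLat.dz_notMem : dz Ω ∉ L.lattice := GLat.two_notMem h.two_dz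

/-- the abscissa `x₀ = i e₁` -/
lemma GLat.x0 : ℘[L] (dz Ω) = I * ℘[L] (Ω / 2) := by
  obtain ⟨h1, -⟩ := h.mul_pi h.two_dz
  rw [pi_dz] at h1
  have h2 := h.e1_sq
  have h3 : (℘[L] (dz Ω) - I * ℘[L] (Ω / 2)) ^ 2 = 0 := by
    linear_combination -h1 + ℘[L] (Ω / 2) ^ 2 * I_sq - h2
  have h4 := pow_eq_zero_iff (two_ne_zero) |>.1 h3
  linear_combination h4

lemma GLat.x0_sq : ℘[L] (dz Ω) ^ 2 = -1 := by
  rw [h.x0, mul_pow, h.e1_sq, I_sq, mul_one]

lemma GLat.x0_ne : ℘[L] (dz Ω) ≠ 0 := by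
  intro h0
  have := h.x0_sq
  rw [h0] at this
  norm_num at this

lemma GLat.y0_sq : ℘'[L] (dz Ω) ^ 2 = -8 * ℘[L] (dz Ω) := by
  rw [h.eqn h.dz_notMem]
  linear_combination (4 * ℘[L] (dz Ω)) * h.x0_sq

/-- the difference of the abscissas -/
lemma GLat.diff_sq {z : ℂ} (hz : 2 * z ∉ L.lattice) : (℘[L] z - ℘[L] (dz Ω)) ^ 2 =
    2 * I * ℘[L] z * (℘[L] ((1 + I) * z) - ℘[L] (Ω / 2)) := by
  obtain ⟨h1, -⟩ := h.mul_pi hz
  rw [h.x0]
  linear_combination -h1 + ℘[L] (Ω / 2) ^ 2 * I_sq - h.e1_sq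

end

/-- points of odd order -/
structure OT (L : PeriodPair) (z : ℂ) : Prop where
  nm : z ∉ L.lattice
  ex : ∃ D : ZI, IsCoprime D pi1 ∧ tc D * z ∈ L.lattice

lemma OT.pow (h : GLat L Ω) {z : ℂ} (hz : OT L z) (k : ℕ) : OT L ((1 + I) ^ k * z) := by
  obtain ⟨D, hD, hDz⟩ := hz.ex
  refine ⟨fun h' => ?_, D, hD, ?_⟩
  · apply hz.nm
    obtain ⟨a, b, hab⟩ := hD.pow_right (n := k)
    have h1 := add_mem (lat_mul h.lat a hDz) (lat_mul h.lat b h')
    have e : tc a * (tc D * z) + tc b * ((1 + I) ^ k * z) = z := by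
      have h2 := congrArg tc hab
      rw [tc_add, tc_mul, tc_mul, tc_pow, tc_pi1, tc_one] at h2
      linear_combination z * h2
    rwa [e] at h1
  · have h1 := lat_mul h.lat (pi1 ^ k) hDz
    have e : tc (pi1 ^ k) * (tc D * z) = tc D * ((1 + I) ^ k * z) := by
      rw [tc_pow, tc_pi1]; ring
    rwa [e] at h1

lemma OT.two (h : GLat L Ω) {z : ℂ} (hz : OT L z) : 2 * z ∉ L.lattice := by
  intro h'
  apply (hz.pow h 2).nm
  have h1 := lat_I h.lat h'
  have e : I * (2 * z) = (1 + I) ^ 2 * z := by linear_combination (-z) * I_sq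
  rwa [e] at h1

lemma OT.per (h : GLat L Ω) {z : ℂ} (hz : OT L z) : ∃ N : ℕ, 0 < N ∧
    ∀ k : ℕ, ℘[L] ((1 + I) ^ (k + N) * z) = ℘[L] ((1 + I) ^ k * z) := by
  obtain ⟨D, hD, hDz⟩ := hz.ex
  have hD0 : D ≠ 0 := by
    rintro rfl
    rw [isCoprime_zero_left] at hD
    exact pi1_not_dvd (isUnit_iff_dvd_one.1 hD)
  have hfin := H385.he1_finite hD0
  obtain ⟨u, hu⟩ := H385.he2_unit hD.symm
  have hfu : Finite (RQ D)ˣ := inferInstance
  refine ⟨orderOf u, orderOf_pos u, fun k => ?_⟩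
  have h1 : u ^ orderOf u = 1 := pow_orderOf_eq_one u
  have h2 := congrArg (fun x : (RQ D)ˣ => (x : RQ D)) h1
  simp only [Units.val_pow_eq_pow_val, Units.val_one] at h2
  rw [hu, ← map_pow, ← map_one (Ideal.Quotient.mk (Ideal.span {D})), Ideal.Quotient.eq,
    Ideal.mem_span_singleton] at h2
  obtain ⟨c, hc⟩ := h2
  have h3 : (1 + I) ^ (k + orderOf u) * z - (1 + I) ^ k * z ∈ L.lattice := by
    have h4 := lat_mul h.lat (pi1 ^ k * c) hDz
    have e : tc (pi1 ^ k * c) * (tc D * z) =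
        (1 + I) ^ (k + orderOf u) * z - (1 + I) ^ k * z := by
      have h5 := congrArg tc hc
      rw [tc_sub, tc_pow, tc_pi1, tc_one, tc_mul] at h5
      rw [tc_mul, tc_pow, tc_pi1, pow_add]
      linear_combination (-(1 + I) ^ k * z) * h5
    rwa [e] at h4
  have h4 := L.weierstrassP_add_coe ((1 + I) ^ k * z) ⟨_, h3⟩
  simp only at h4
  rw [← h4]
  congr 1
  ring

section val

variable {Γ : Type*} [LinearOrderedCommGroupWithZero Γ] {v : Valuation ℂ Γ} (h2 : v 2 < 1)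
  (h : GLat L Ω)

include h h2

lemma wp_le {z : ℂ} (hz : OT L z) : v (℘[L] z) ≤ 1 := by
  by_contra hc
  push Not at hc
  obtain ⟨N, hN, hper⟩ := hz.per h
  have h20 : v 2 ≠ 0 := by rw [Ne, map_eq_zero]; norm_num
  -- the valuations increase strictly
  have step : ∀ k : ℕ, 1 < v (℘[L] ((1 + I) ^ k * z)) →
      v (℘[L] ((1 + I) ^ k * z)) < v (℘[L] ((1 + I) ^ (k + 1) * z)) := by
    intro k hk
    obtain ⟨h1, h3⟩ := h.mul_pi ((hz.pow h k).two h)
    have e : (1 + I) * ((1 + I) ^ k * z) = (1 + I) ^ (k + 1) * z := by ring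
    rw [e] at h1
    have h4 := congrArg v h1
    set a := ℘[L] ((1 + I) ^ k * z)
    set b := ℘[L] ((1 + I) ^ (k + 1) * z)
    have h5 : v (a ^ 2 - 1) = v a ^ 2 := by
      rw [← map_pow]
      apply Valuation.map_sub_eq_of_lt_left
      rw [map_pow, map_one]
      exact one_lt_pow₀ hk (by norm_num)
    rw [h5, map_mul, map_mul, map_mul, v_I, mul_one] at h4
    have ha : v a ≠ 0 := (v.ne_zero_iff).2 h3
    have h6 : v 2 * v b = v a := by
      have : v a * (v 2 * v b) = v a * v a := by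
        rw [← sq, ← h4]
        rw [mul_left_comm, ← mul_assoc]
      exact mul_left_cancel₀ ha this
    have hb : v b ≠ 0 := by
      intro hb
      rw [hb, mul_zero] at h6
      exact ha h6.symm
    calc v a = v 2 * v b := h6.symm
      _ < 1 * v b := by
        exact mul_lt_mul_of_pos_right h2 (zero_lt_iff.2 hb)
      _ = v b := one_mul _
  have hmono : ∀ k : ℕ, 1 < v (℘[L] ((1 + I) ^ k * z)) ∧
      (0 < k → v (℘[L] z) < v (℘[L] ((1 + I) ^ k * z))) := by
    intro k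
    induction k with
    | zero => rw [pow_zero, one_mul]; exact ⟨hc, fun h => absurd h (lt_irrefl _)⟩
    | succ k ih =>
      have h3 := step k ih.1
      refine ⟨ih.1.trans h3, fun _ => ?_⟩
      rcases Nat.eq_zero_or_pos k with h4 | h4
      · subst h4
        rw [pow_zero, one_mul] at h3
        exact h3
      · exact (ih.2 h4).trans h3
  have h5 := (hmono N).2 hN
  have h6 := hper 0
  rw [zero_add, pow_zero, one_mul] at h6
  rw [h6] at h5
  exact lt_irrefl _ h5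

lemma wp_one {z : ℂ} (hz : OT L z) : v (℘[L] z) = 1 := by
  apply le_antisymm (wp_le h2 h hz)
  by_contra hc
  push Not at hc
  have h1 := wp_le h2 h (hz.pow h 1)
  rw [pow_one] at h1
  obtain ⟨h3, h4⟩ := h.mul_pi (hz.two h)
  have h5 := congrArg v h3
  have h6 : v (℘[L] z ^ 2 - 1) = 1 := by
    have : v (℘[L] z ^ 2 - 1) = v 1 := by
      apply Valuation.map_sub_eq_of_lt_right
      rw [map_pow, map_one]
      exact pow_lt_one₀ zero_le hc (by norm_num)
    rw [this, map_one]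
  rw [h6, map_mul, map_mul, map_mul, v_I, mul_one] at h5
  have h7 : v 2 * v (℘[L] z) * v (℘[L] ((1 + I) * z)) < 1 := by
    calc v 2 * v (℘[L] z) * v (℘[L] ((1 + I) * z)) ≤ v 2 * v (℘[L] z) * 1 := by
          exact mul_le_mul_right h1 _
      _ = v 2 * v (℘[L] z) := mul_one _
      _ ≤ v 2 * 1 := mul_le_mul_right hc.le _
      _ = v 2 := mul_one _
      _ < 1 := h2
  exact absurd h5 h7.ne

/-- `v(x - 1) = v(1 + i)` for a point of odd order -/
lemma wp_sub {z : ℂ} (hz : OT L z) : v (℘[L] z - 1) = v (1 + I) ∧ v (℘[L] z + 1) = v (1 + I) := by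
  have h1 := wp_one h2 h (hz.pow h 1)
  rw [pow_one] at h1
  obtain ⟨h3, h4⟩ := h.mul_pi (hz.two h)
  have h5 := congrArg v h3
  rw [map_mul, map_mul, map_mul, v_I, wp_one h2 h hz, h1, mul_one, mul_one, mul_one] at h5
  have e : ℘[L] z ^ 2 - 1 = (℘[L] z - 1) * (℘[L] z + 1) := by ring
  rw [e, map_mul, ← v_pi_sq] at h5
  have hg := v_pi_lt h2
  have hg0 := v_pi_ne (v := v)
  set g := v (1 + I)
  set a := v (℘[L] z - 1) with ha
  set b := v (℘[L] z + 1) with hb
  have hab : a ≤ max b (g ^ 2) := by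
    have : ℘[L] z - 1 = (℘[L] z + 1) - 2 := by ring
    rw [ha, this]
    refine (v.map_sub _ _).trans ?_
    rw [v_pi_sq]
  have hba : b ≤ max a (g ^ 2) := by
    have : ℘[L] z + 1 = (℘[L] z - 1) + 2 := by ring
    rw [hb, this]
    refine (v.map_add _ _).trans ?_
    rw [v_pi_sq]
  have hgg : g ^ 2 < g := by
    calc g ^ 2 = g * g := sq g
      _ < g * 1 := mul_lt_mul_of_pos_left hg (zero_lt_iff.2 hg0)
      _ = g := mul_one g
  have key : ∀ a b : Γ, g ^ 2 = a * b → b ≤ max a (g ^ 2) → ¬ a < g := by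
    intro a b hab hba hag
    have h6 : b < g := lt_of_le_of_lt hba (max_lt hag hgg)
    have h7 : a * b < g * g := mul_lt_mul'' hag h6 zero_le zero_le
    rw [← hab, ← sq] at h7
    exact lt_irrefl _ h7
  have k1 := key a b h5 hba
  have k2 := key b a (by rw [mul_comm]; exact h5) hab
  push Not at k1 k2
  have hga : a = g := by
    apply le_antisymm _ k1
    by_contra hc
    push Not at hc
    have h7 : g * g < a * b := mul_lt_mul_of_pos_of_nonneg' hc k2 (zero_lt_iff.2 hg0) zero_le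
    rw [← h5, ← sq] at h7
    exact lt_irrefl _ h7
  refine ⟨hga, ?_⟩
  rw [hga, sq] at h5
  exact (mul_left_cancel₀ hg0 h5).symm

/-- `v(x - x₀)² = v(1 + i)³` for a point of odd order -/
lemma wp_diff {z : ℂ} (hz : OT L z) : v (℘[L] z - ℘[L] (dz Ω)) ^ 2 = v (1 + I) ^ 3 := by
  rw [← map_pow, h.diff_sq (hz.two h), map_mul, map_mul, map_mul, v_I, wp_one h2 h hz, mul_one,
    mul_one, ← v_pi_sq]
  have h3 := hz.pow h 1
  rw [pow_one] at h3
  obtain ⟨h4, h5⟩ := wp_sub h2 h h3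
  have h6 : v (℘[L] ((1 + I) * z) - ℘[L] (Ω / 2)) = v (1 + I) := by
    rcases sq_eq_one_iff.1 (h.e1_sq) with h7 | h7
    · rw [h7]; exact h4
    · rw [h7, sub_neg_eq_add]; exact h5
  rw [h6]
  exact (pow_succ _ 2).symm

end val

end Pool.Agent.Y699
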